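import Mathlib
import Pool.Agent.H76.PN.A1

/-! This file joins several modules to save build time (A2). -/

set_option autoImplicit false

section S_H76_PP_Eb

set_option autoImplicit false
open scoped Classical

open NumberField IsDedekindDomain

namespace H76PP

section

variable {K L : Type} [Field K] [Field L] [Algebra K L] {A B : K} {θ : L}

theorem Cub.der_inv (h : Cub K L A B θ) :
    (3 * θ ^ 2 + algebraMap K L A) * (4 * algebraMap K L A ^ 2 - 9 * algebraMap K L B * θ +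
      6 * algebraMap K L A * θ ^ 2) = algebraMap K L (4 * A ^ 3 + 27 * B ^ 2) := by
  simp only [map_add, map_mul, map_pow, map_ofNat]
  linear_combination (18 * algebraMap K L A * θ - 27 * algebraMap K L B) * h.root

theorem Eb_co_u (h : Cub K L A B θ) : h.co 0 (3 * θ ^ 2 + algebraMap K L A) = A ∧
    h.co 1 (3 * θ ^ 2 + algebraMap K L A) = 0 ∧ h.co 2 (3 * θ ^ 2 + algebraMap K L A) = 3 := by
  have h1 := h.co_mk' A 0 3
  have e : algebraMap K L A + algebraMap K L 0 * θ + algebraMap K L 3 * θ ^ 2 =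
      3 * θ ^ 2 + algebraMap K L A := by
    rw [map_zero, map_ofNat]
    ring
  rw [e] at h1
  exact h1

theorem Eb_co_w (h : Cub K L A B θ) :
    h.co 0 (4 * algebraMap K L A ^ 2 - 9 * algebraMap K L B * θ +
      6 * algebraMap K L A * θ ^ 2) = 4 * A ^ 2 ∧
    h.co 1 (4 * algebraMap K L A ^ 2 - 9 * algebraMap K L B * θ +
      6 * algebraMap K L A * θ ^ 2) = -9 * B ∧
    h.co 2 (4 * algebraMap K L A ^ 2 - 9 * algebraMap K L B * θ +
      6 * algebraMap K L A * θ ^ 2) = 6 * A := by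
  have h1 := h.co_mk' (4 * A ^ 2) (-9 * B) (6 * A)
  have e : algebraMap K L (4 * A ^ 2) + algebraMap K L (-9 * B) * θ +
      algebraMap K L (6 * A) * θ ^ 2 = 4 * algebraMap K L A ^ 2 - 9 * algebraMap K L B * θ +
      6 * algebraMap K L A * θ ^ 2 := by
    simp only [map_mul, map_pow, map_neg, map_ofNat]
    ring
  rw [e] at h1
  exact h1

theorem Cub.der_norm (h : Cub K L A B θ) :
    Algebra.norm K (3 * θ ^ 2 + algebraMap K L A) = 4 * A ^ 3 + 27 * B ^ 2 := by
  obtain ⟨a0, a1, a2⟩ := Eb_co_u h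
  rw [h.norm, Matrix.det_fin_three, a0, a1, a2]
  simp
  ring

theorem Cub.der_ne (h : Cub K L A B θ) (hd : 4 * A ^ 3 + 27 * B ^ 2 ≠ 0) :
    3 * θ ^ 2 + algebraMap K L A ≠ 0 := by
  intro h0
  have h1 := h.der_inv
  rw [h0, zero_mul] at h1
  exact hd ((map_eq_zero_iff (algebraMap K L) (algebraMap K L).injective).1 h1.symm)

theorem Cub.euler (h : Cub K L A B θ) (hd : 4 * A ^ 3 + 27 * B ^ 2 ≠ 0) (z : L) :
    Algebra.trace K L (z * (3 * θ ^ 2 + algebraMap K L A)⁻¹) = h.co 2 z := by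
  have hu := h.der_ne hd
  have hinv := h.der_inv
  obtain ⟨w0, w1, w2⟩ := Eb_co_w h
  set w : L := 4 * algebraMap K L A ^ 2 - 9 * algebraMap K L B * θ +
      6 * algebraMap K L A * θ ^ 2 with hw
  set u : L := 3 * θ ^ 2 + algebraMap K L A with hu'
  have hdL : algebraMap K L (4 * A ^ 3 + 27 * B ^ 2) ≠ 0 := by
    rw [Ne, map_eq_zero_iff (algebraMap K L) (algebraMap K L).injective]
    exact hd
  have e : z * u⁻¹ = (4 * A ^ 3 + 27 * B ^ 2)⁻¹ • (z * w) := by
    rw [Algebra.smul_def, map_inv₀]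
    field_simp
    rw [← hinv]
    ring
  rw [e, map_smul, h.trace, smul_eq_mul]
  obtain ⟨c0, c1, c2⟩ := h.co_mul z w
  rw [c0, c2, w0, w1, w2]
  field_simp
  ring

end

section

variable {K L : Type} [Field K] [NumberField K] [Field L] [NumberField L] [Algebra K L]

theorem Cub.co_bound {A B : K} {θ : L} (h : Cub K L A B θ) (hd : 4 * A ^ 3 + 27 * B ^ 2 ≠ 0)
    (s : K →+* ℂ) (z : L) : ‖s (h.co 2 z)‖ ≤
      ∑ τ : L →+* ℂ, ‖τ z‖ / ‖τ (3 * θ ^ 2 + algebraMap K L A)‖ := by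
  letI : Algebra K ℂ := s.toAlgebra
  haveI : FiniteDimensional K L := Module.Finite.of_basis h.basis
  have h1 : s (h.co 2 z) = ∑ τ : L →ₐ[K] ℂ, τ (z * (3 * θ ^ 2 + algebraMap K L A)⁻¹) := by
    rw [← h.euler hd z]
    exact trace_eq_sum_embeddings ℂ
  rw [h1]
  refine (norm_sum_le _ _).trans ?_
  have h2 : ∀ τ : L →ₐ[K] ℂ, ‖τ (z * (3 * θ ^ 2 + algebraMap K L A)⁻¹)‖ =
      (fun τ : L →+* ℂ => ‖τ z‖ / ‖τ (3 * θ ^ 2 + algebraMap K L A)‖) (τ : L →+* ℂ) := by
    intro τ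
    rw [map_mul, map_inv₀, norm_mul, norm_inv]
    rfl
  rw [Finset.sum_congr rfl fun τ _ => h2 τ]
  have hinj : Function.Injective (fun τ : L →ₐ[K] ℂ => (τ : L →+* ℂ)) :=
    AlgHom.coe_ringHom_injective
  have h3 := Finset.sum_map (Finset.univ : Finset (L →ₐ[K] ℂ)) ⟨_, hinj⟩
    (fun τ : L →+* ℂ => ‖τ z‖ / ‖τ (3 * θ ^ 2 + algebraMap K L A)‖)
  have h4 : ∑ τ : L →ₐ[K] ℂ, (fun τ : L →+* ℂ => ‖τ z‖ / ‖τ (3 * θ ^ 2 + algebraMap K L A)‖)
      (τ : L →+* ℂ) = ∑ x ∈ Finset.map ⟨_, hinj⟩ (Finset.univ : Finset (L →ₐ[K] ℂ)),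
      (fun τ : L →+* ℂ => ‖τ z‖ / ‖τ (3 * θ ^ 2 + algebraMap K L A)‖) x := h3.symm
  rw [h4]
  apply Finset.sum_le_univ_sum_of_nonneg
  intro τ
  positivity

theorem Cub.root_bound {A B : 𝓞 K} {θ : L} (h : Cub K L (A : K) (B : K) θ) {X : ℝ} (hX : 0 ≤ X)
    (hA : A ∈ bx K (X ^ 2)) (hB : B ∈ bx K (X ^ 3)) (τ : L →+* ℂ) : ‖τ θ‖ ≤ 2 * X := by
  have h1 := congrArg τ h.root
  rw [map_add, map_add, map_mul, map_pow, map_zero] at h1
  have hA' : ‖τ (algebraMap K L (A : K))‖ ≤ X ^ 2 := hA (τ.comp (algebraMap K L))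
  have hB' : ‖τ (algebraMap K L (B : K))‖ ≤ X ^ 3 := hB (τ.comp (algebraMap K L))
  generalize τ (algebraMap K L (A : K)) = a at h1 hA'
  generalize τ (algebraMap K L (B : K)) = b at h1 hB'
  generalize τ θ = x at h1
  have h2 : x ^ 3 = -(a * x) - b := by linear_combination h1
  have h3 : ‖x‖ ^ 3 ≤ X ^ 2 * ‖x‖ + X ^ 3 := by
    rw [← norm_pow, h2]
    refine (norm_sub_le _ _).trans ?_
    rw [norm_neg, norm_mul]
    have h4 := mul_le_mul_of_nonneg_right hA' (norm_nonneg x)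
    linarith
  by_contra hcon
  push Not at hcon
  have hx := norm_nonneg x
  generalize ‖x‖ = r at h3 hcon hx
  have h5 : X ^ 2 * r ≤ r ^ 3 / 4 := by
    have : X ^ 2 ≤ r ^ 2 / 4 := by nlinarith
    nlinarith [mul_le_mul_of_nonneg_right this hx]
  have h6 : X ^ 3 ≤ r ^ 3 / 8 := by
    have : X ^ 3 ≤ (r / 2) ^ 3 := pow_le_pow_left₀ hX (by linarith) 3
    nlinarith
  have h7 : 0 < r ^ 3 := by
    have : 0 < r := by linarith
    positivity
  linarith

end

end H76PP

end S_H76_PP_Eb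

section S_H76_PP_Ea

set_option autoImplicit false
open scoped Classical

open WithZero NumberField IsDedekindDomain

namespace H76PP

variable {K : Type} [Field K] [NumberField K]

theorem Fam.dsc_notMem {q₀ : HeightOneSpectrum (𝓞 K)} {T : Finset (HeightOneSpectrum (𝓞 K))}
    {A B : 𝓞 K} (hF : Fam q₀ T A B) (v : HeightOneSpectrum (𝓞 K)) : dsc A B ∉ v.asIdeal ^ 2 := by
  by_cases h6 : (6 : 𝓞 K) ∈ v.asIdeal
  · intro hd
    have hd1 : dsc A B ∈ v.asIdeal := Ideal.pow_le_self two_ne_zero hd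
    unfold dsc at hd1
    have e6 : (6 : 𝓞 K) = 2 * 3 := by norm_num
    rw [e6] at h6
    rcases v.isPrime.mem_or_mem h6 with h2 | h3
    · have h4 : B ^ 2 ∈ v.asIdeal := by
        have e1 : B ^ 2 = (4 * A ^ 3 + 27 * B ^ 2) - (2 * A ^ 3 + 13 * B ^ 2) * 2 := by ring
        rw [e1]
        exact v.asIdeal.sub_mem hd1 (v.asIdeal.mul_mem_left _ h2)
      exact hF.two v h2 (v.isPrime.mem_of_pow_mem 2 h4)
    · have h4 : A ^ 3 ∈ v.asIdeal := by
        have e1 : A ^ 3 = (4 * A ^ 3 + 27 * B ^ 2) - (A ^ 3 + 9 * B ^ 2) * 3 := by ring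
        rw [e1]
        exact v.asIdeal.sub_mem hd1 (v.asIdeal.mul_mem_left _ h3)
      exact hF.three v h3 (v.isPrime.mem_of_pow_mem 3 h4)
  · exact hF.sqf v h6

theorem Ea_cast (A B : 𝓞 K) :
    ((dsc A B : 𝓞 K) : K) = 4 * (A : K) ^ 3 + 27 * (B : K) ^ 2 := by
  unfold dsc
  push_cast
  rfl

theorem Fam.dsc_ne {q₀ : HeightOneSpectrum (𝓞 K)} {T : Finset (HeightOneSpectrum (𝓞 K))}
    {A B : 𝓞 K} (hF : Fam q₀ T A B) : (4 * (A : K) ^ 3 + 27 * (B : K) ^ 2) ≠ 0 := by
  intro h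
  apply hF.dsc_notMem q₀
  have h1 : dsc A B = 0 := by
    apply RingOfIntegers.coe_injective
    show ((dsc A B : 𝓞 K) : K) = ((0 : 𝓞 K) : K)
    rw [Ea_cast, h]
    exact (map_zero (algebraMap (𝓞 K) K)).symm
  rw [h1]
  exact Submodule.zero_mem _

theorem theta_int {L : Type} [Field L] [NumberField L] [Algebra K L] {A B : 𝓞 K} {θ : L}
    (h : Cub K L (A : K) (B : K) θ) : ∃ t : 𝓞 L, (t : L) = θ := by
  have h1 : IsIntegral (𝓞 K) θ := by
    refine ⟨Polynomial.X ^ 3 + (Polynomial.C A * Polynomial.X + Polynomial.C B), ?_, ?_⟩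
    · refine Polynomial.monic_X_pow_add ?_
      refine lt_of_le_of_lt Polynomial.degree_linear_le ?_
      norm_num
    · rw [Polynomial.eval₂_add, Polynomial.eval₂_add, Polynomial.eval₂_mul, Polynomial.eval₂_pow,
        Polynomial.eval₂_X, Polynomial.eval₂_C, Polynomial.eval₂_C]
      have h2 := h.root
      rw [← h2, ← add_assoc]
      rfl
  have h2 : IsIntegral ℤ θ := isIntegral_trans θ h1
  exact ⟨⟨θ, h2⟩, rfl⟩

/-- the trace of an integer -/
theorem Ea_tr {L : Type} [Field L] [NumberField L] [Algebra K L] (x : 𝓞 L) :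
    ∃ t : 𝓞 K, (t : K) = Algebra.trace K L (x : L) :=
  ⟨⟨_, Algebra.isIntegral_trace x.isIntegral_coe⟩, rfl⟩

theorem Ea_val {v : HeightOneSpectrum (𝓞 K)} {c : K} {d E : 𝓞 K} (hd : d ∉ v.asIdeal ^ 2)
    (hE : (E : K) = -(c ^ 2 * (d : K))) : v.valuation K c ≤ 1 := by
  have h1 : exp (-1 : ℤ) ≤ v.valuation K (d : K) := by
    have h2 := mt (v.intValuation_le_pow_iff_mem d 2).1 hd
    rw [not_le] at h2
    have h3 : v.valuation K (d : K) = v.intValuation d := v.valuation_of_algebraMap d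
    have h0 : v.intValuation d ≠ 0 := fun h0 => by
      rw [h0] at h2
      exact absurd h2 not_lt_zero
    rw [h3]
    rw [← exp_log h0, exp_lt_exp] at h2
    rw [← exp_log h0, exp_le_exp]
    push_cast at h2
    omega
  have h4 : v.valuation K (E : K) ≤ 1 := v.valuation_le_one E
  rw [hE, Valuation.map_neg, map_mul, map_pow] at h4
  by_contra hc
  rw [not_le] at hc
  have h0 : v.valuation K c ≠ 0 := fun h0 => by
    rw [h0] at hc
    exact absurd hc not_lt_zero
  have h5 : exp (1 : ℤ) ≤ v.valuation K c := by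
    rw [← exp_log h0, ← exp_zero, exp_lt_exp] at hc
    rw [← exp_log h0, exp_le_exp]
    omega
  have h6 : exp (1 : ℤ) ^ 2 * exp (-1 : ℤ) ≤ v.valuation K c ^ 2 * v.valuation K (d : K) :=
    mul_le_mul' (pow_le_pow_left' h5 2) h1
  have h7 := h6.trans h4
  rw [← exp_nsmul, ← exp_add, ← exp_zero, exp_le_exp] at h7
  norm_num at h7

theorem int_coord {q₀ : HeightOneSpectrum (𝓞 K)} {T : Finset (HeightOneSpectrum (𝓞 K))}
    {A B : 𝓞 K} (hF : Fam q₀ T A B) {L : Type} [Field L] [NumberField L] [Algebra K L] {θ : L}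
    (h : Cub K L (A : K) (B : K) θ) (x : 𝓞 L) :
    ∃ c : Fin 3 → 𝓞 K, ∀ i, h.co i (x : L) = (c i : K) := by
  obtain ⟨t, ht⟩ := theta_int h
  obtain ⟨s, hs⟩ := Ea_tr (K := K) (x * x)
  obtain ⟨t0, ht0⟩ := Ea_tr (K := K) x
  obtain ⟨t1, ht1⟩ := Ea_tr (K := K) (x * t)
  obtain ⟨t2, ht2⟩ := Ea_tr (K := K) (x * (t * t))
  have e1 : ((x * x : 𝓞 L) : L) = (x : L) * (x : L) := by push_cast; rfl
  have e2 : ((x * t : 𝓞 L) : L) = (x : L) * θ := by rw [← ht]; push_cast; rfl
  have e3 : ((x * (t * t) : 𝓞 L) : L) = (x : L) * θ ^ 2 := by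
    rw [← ht, sq]
    push_cast
    rfl
  rw [e1, h.trace, (h.co_mul _ _).1, (h.co_mul _ _).2.2] at hs
  rw [h.trace] at ht0
  rw [e2, h.trace, (h.co_mul _ _).1, (h.co_mul _ _).2.2, h.co_theta.1, h.co_theta.2.1,
    h.co_theta.2.2] at ht1
  rw [e3, h.trace, (h.co_mul _ _).1, (h.co_mul _ _).2.2, h.co_theta_sq.1, h.co_theta_sq.2.1,
    h.co_theta_sq.2.2] at ht2
  obtain ⟨a, ha⟩ : ∃ a, a = algebraMap (𝓞 K) K A := ⟨_, rfl⟩
  obtain ⟨b, hb⟩ : ∃ b, b = algebraMap (𝓞 K) K B := ⟨_, rfl⟩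
  obtain ⟨c0, hc0⟩ : ∃ c0, c0 = h.co 0 (x : L) := ⟨_, rfl⟩
  obtain ⟨c1, hc1⟩ : ∃ c1, c1 = h.co 1 (x : L) := ⟨_, rfl⟩
  obtain ⟨c2, hc2⟩ : ∃ c2, c2 = h.co 2 (x : L) := ⟨_, rfl⟩
  have hs' : algebraMap (𝓞 K) K s = 3 * (c0 * c0 - b * (c1 * c2 + c2 * c1)) -
      2 * a * (c0 * c2 + c1 * c1 + c2 * c0 - a * (c2 * c2)) := by
    rw [hc0, hc1, hc2, ha, hb]
    exact hs
  have ht0' : algebraMap (𝓞 K) K t0 = 3 * c0 - 2 * a * c2 := by
    rw [hc0, hc2, ha]
    exact ht0
  have ht1' : algebraMap (𝓞 K) K t1 = 3 * (c0 * 0 - b * (c1 * 0 + c2 * 1)) -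
      2 * a * (c0 * 0 + c1 * 1 + c2 * 0 - a * (c2 * 0)) := by
    rw [hc0, hc1, hc2, ha, hb]
    exact ht1
  have ht2' : algebraMap (𝓞 K) K t2 = 3 * (c0 * 0 - b * (c1 * 1 + c2 * 0)) -
      2 * a * (c0 * 1 + c1 * 0 + c2 * 0 - a * (c2 * 1)) := by
    rw [hc0, hc1, hc2, ha, hb]
    exact ht2
  have hd : ((dsc A B : 𝓞 K) : K) = 4 * a ^ 3 + 27 * b ^ 2 := by
    rw [ha, hb]
    exact Ea_cast A B
  have key0 : ∃ E : 𝓞 K, (E : K) = -(h.co 0 (x : L) ^ 2 * ((dsc A B : 𝓞 K) : K)) := by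
    refine ⟨s * ((-2 * A) * (2 * A ^ 2) - 9 * B ^ 2) - t1 * (t1 * (2 * A ^ 2) + 3 * B * t2) +
        t2 * (t1 * (-3 * B) + 2 * A * t2), ?_⟩
    rw [hd, ← hc0]
    show algebraMap (𝓞 K) K _ = _
    simp only [map_add, map_mul, map_sub, map_pow, map_neg, map_ofNat, hs', ht1', ht2', ← ha, ← hb]
    ring
  have key1 : ∃ E : 𝓞 K, (E : K) = -(h.co 1 (x : L) ^ 2 * ((dsc A B : 𝓞 K) : K)) := by
    refine ⟨3 * (s * (2 * A ^ 2) - t2 * t2) - t0 * (t0 * (2 * A ^ 2) + 2 * A * t2) +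
        (-2 * A) * (t0 * t2 + 2 * A * s), ?_⟩
    rw [hd, ← hc1]
    show algebraMap (𝓞 K) K _ = _
    simp only [map_add, map_mul, map_sub, map_pow, map_neg, map_ofNat, hs', ht0', ht2', ← ha, ← hb]
    ring
  have key2 : ∃ E : 𝓞 K, (E : K) = -(h.co 2 (x : L) ^ 2 * ((dsc A B : 𝓞 K) : K)) := by
    refine ⟨3 * (-2 * A * s - t1 * t1) + t0 * (2 * A * t0), ?_⟩
    rw [hd, ← hc2]
    show algebraMap (𝓞 K) K _ = _
    simp only [map_add, map_mul, map_sub, map_pow, map_neg, map_ofNat, hs', ht0', ht1', ← ha, ← hb]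
    ring
  have key : ∀ i, ∃ E : 𝓞 K, (E : K) = -(h.co i (x : L) ^ 2 * ((dsc A B : 𝓞 K) : K)) := by
    intro i
    fin_cases i
    · exact key0
    · exact key1
    · exact key2
  have hval : ∀ i, ∃ c : 𝓞 K, h.co i (x : L) = (c : K) := by
    intro i
    obtain ⟨E, hE⟩ := key i
    obtain ⟨c, hc⟩ := HeightOneSpectrum.mem_integers_of_valuation_le_one K (h.co i (x : L))
      fun v => Ea_val (hF.dsc_notMem v) hE
    exact ⟨c, hc.symm⟩
  choose c hc using hval
  exact ⟨c, hc⟩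

end H76PP

end S_H76_PP_Ea

section S_H76_PP_Fc

set_option autoImplicit false
open scoped Classical

open scoped Matrix

namespace H76PP

theorem Fc_quad {F : Type} [Field F] {A B C x y z : F} (hxy : x ≠ y) (hxz : x ≠ z) (hyz : y ≠ z)
    (hx : A * x ^ 2 + B * x + C = 0) (hy : A * y ^ 2 + B * y + C = 0)
    (hz : A * z ^ 2 + B * z + C = 0) : A = 0 ∧ B = 0 ∧ C = 0 := by
  have h1 : A * (x + y) + B = 0 := by
    have h : (x - y) * (A * (x + y) + B) = 0 := by linear_combination hx - hy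
    exact (mul_eq_zero.1 h).resolve_left (sub_ne_zero.2 hxy)
  have h2 : A * (x + z) + B = 0 := by
    have h : (x - z) * (A * (x + z) + B) = 0 := by linear_combination hx - hz
    exact (mul_eq_zero.1 h).resolve_left (sub_ne_zero.2 hxz)
  have h3 : A = 0 := by
    have h : (y - z) * A = 0 := by linear_combination h1 - h2
    exact (mul_eq_zero.1 h).resolve_left (sub_ne_zero.2 hyz)
  have h4 : B = 0 := by
    rw [h3] at h1
    linear_combination h1
  refine ⟨h3, h4, ?_⟩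
  rw [h3, h4] at hx
  linear_combination hx

theorem Fc_col {F : Type} [Field F] (M N : Matrix (Fin 3) (Fin 3) F) (m : Fin 3 → F) (i : Fin 3)
    (x : F) : ((x • M - N).updateCol i m).det = (M.updateCol i m).det * x ^ 2 +
      (((M - N).updateCol i m).det - (M.updateCol i m).det - ((-N).updateCol i m).det) * x +
        ((-N).updateCol i m).det := by
  fin_cases i <;> simp [Matrix.det_fin_three, Matrix.updateCol_apply] <;> ring

theorem eig_ne {F : Type} [Field F] (S : Finset F) (hF : 4 ≤ S.card)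
    {M N : Matrix (Fin 3) (Fin 3) F} (hM : M.IsSymm) (hN : N.IsSymm) (hdet : M.det ≠ 0) {a b t : F}
    (hc : ∀ x : F, (x • M - N).det = M.det * (x ^ 3 + a * x + b)) {e : Fin 3 → F} (he : e ≠ 0)
    (hte : N.mulVec e = t • M.mulVec e) (hs : 3 * t ^ 2 + a ≠ 0) : e ⬝ᵥ M.mulVec e ≠ 0 := by
  intro h0
  obtain ⟨m, hm⟩ : ∃ m, m = M.mulVec e := ⟨_, rfl⟩
  rw [← hm] at h0 hte
  have hA : ∀ x : F, (x • M - N).mulVec e = (x - t) • m := by
    intro x
    rw [Matrix.sub_mulVec, Matrix.smul_mulVec, hte, ← hm, sub_smul]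
  have hA0 : (t • M - N).mulVec e = 0 := by
    rw [hA, sub_self, zero_smul]
  have hdt : (t • M - N).det = 0 := Matrix.exists_mulVec_eq_zero_iff.1 ⟨e, he, hA0⟩
  have ht : t ^ 3 + a * t + b = 0 := by
    have h1 := hc t
    rw [hdt] at h1
    exact (mul_eq_zero.1 h1.symm).resolve_left hdet
  have hu : ∀ (x : F) (i : Fin 3), (x - t) * ((x • M - N).updateCol i m).det =
      (M.det * (x ^ 3 + a * x + b)) * e i := by
    intro x i
    have h1 : (x • M - N).adjugate.mulVec ((x • M - N).mulVec e) = (x • M - N).det • e := by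
      rw [Matrix.mulVec_mulVec, Matrix.adjugate_mul, Matrix.smul_mulVec, Matrix.one_mulVec]
    rw [hA, Matrix.mulVec_smul, ← Matrix.cramer_eq_adjugate_mulVec, hc] at h1
    have h2 := congrFun h1 i
    simp only [Pi.smul_apply, smul_eq_mul, Matrix.cramer_apply] at h2
    exact h2
  have hu2 : ∀ (x : F) (i : Fin 3), x ≠ t → ((x • M - N).updateCol i m).det =
      M.det * (x ^ 2 + t * x + t ^ 2 + a) * e i := by
    intro x i hx
    have h1 := hu x i
    have h2 : (x - t) * (((x • M - N).updateCol i m).det -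
        M.det * (x ^ 2 + t * x + t ^ 2 + a) * e i) = 0 := by
      linear_combination h1 + M.det * e i * ht
    exact sub_eq_zero.1 ((mul_eq_zero.1 h2).resolve_left (sub_ne_zero.2 hx))
  have hz : ∀ i : Fin 3, ((t • M - N).updateCol i m).det = 0 := by
    intro i
    have hsym : (t • M - N).transpose = t • M - N := by
      rw [Matrix.transpose_sub, Matrix.transpose_smul, hM.eq, hN.eq]
    rw [← Matrix.det_transpose, ← Matrix.updateRow_transpose, hsym]
    refine Matrix.exists_mulVec_eq_zero_iff.1 ⟨e, he, ?_⟩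
    funext k
    by_cases hk : k = i
    · subst hk
      rw [Matrix.mulVec, Matrix.updateRow_self, dotProduct_comm]
      exact h0
    · rw [Matrix.mulVec, Matrix.updateRow_ne hk]
      exact congrFun hA0 k
  have hcard : 2 < (S.erase t).card := by
    have := Finset.pred_card_le_card_erase (s := S) (a := t)
    omega
  obtain ⟨x, y, z, hx, hy, hz', hxy, hxz, hyz⟩ := Finset.two_lt_card_iff.1 hcard
  apply he
  funext i
  have key : ∀ w : F, w ∈ S.erase t → ((M.updateCol i m).det - M.det * e i) * w ^ 2 +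
      ((((M - N).updateCol i m).det - (M.updateCol i m).det - ((-N).updateCol i m).det) -
        M.det * t * e i) * w + (((-N).updateCol i m).det - M.det * (t ^ 2 + a) * e i) = 0 := by
    intro w hw
    have h1 := hu2 w i (Finset.ne_of_mem_erase hw)
    rw [Fc_col] at h1
    linear_combination h1
  obtain ⟨k1, k2, k3⟩ := Fc_quad hxy hxz hyz (key x hx) (key y hy) (key z hz')
  have h1 := hz i
  rw [Fc_col] at h1
  have h2 : M.det * (3 * t ^ 2 + a) * e i = 0 := by
    linear_combination h1 - t ^ 2 * k1 - t * k2 - k3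
  exact (mul_eq_zero.1 h2).resolve_left (mul_ne_zero hdet hs)

end H76PP

end S_H76_PP_Fc

section S_H76_PP_Ec

set_option autoImplicit false
open scoped Classical

open NumberField IsDedekindDomain
open scoped Matrix

namespace H76PP

variable {K L : Type} [Field K] [Field L] [Algebra K L] {A B : K} {θ : L}

/-- The matrix of the form `co 2 (x y z₀)`. -/
noncomputable def Mx (h : Cub K L A B θ) (e : Fin 3 → L) (z₀ : L) : Matrix (Fin 3) (Fin 3) K :=
  Matrix.of fun i j => h.co 2 (e i * e j * z₀)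

/-- The matrix of the form `co 2 (θ x y z₀)`. -/
noncomputable def Nx (h : Cub K L A B θ) (e : Fin 3 → L) (z₀ : L) : Matrix (Fin 3) (Fin 3) K :=
  Matrix.of fun i j => h.co 2 (θ * (e i * e j * z₀))

theorem Mx_symm (h : Cub K L A B θ) (e : Fin 3 → L) (z₀ : L) : (Mx h e z₀).IsSymm := by
  ext i j
  rw [Matrix.transpose_apply, Mx, Matrix.of_apply, Matrix.of_apply, mul_comm (e j) (e i)]

theorem Nx_symm (h : Cub K L A B θ) (e : Fin 3 → L) (z₀ : L) : (Nx h e z₀).IsSymm := by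
  ext i j
  rw [Matrix.transpose_apply, Nx, Matrix.of_apply, Matrix.of_apply, mul_comm (e j) (e i)]

/-- The coordinates. -/
noncomputable def Ec_E (h : Cub K L A B θ) (e : Fin 3 → L) : Matrix (Fin 3) (Fin 3) K :=
  Matrix.of fun a j => h.co a (e j)

/-- The first form in the basis `1, θ, θ^2`. -/
def Ec_M0 (A B p q r : K) : Matrix (Fin 3) (Fin 3) K :=
  !![r, q, p - A * r; q, p - A * r, -A * q - B * r;
    p - A * r, -A * q - B * r, -A * (p - A * r) - B * q]

/-- The second form in the basis `1, θ, θ^2`. -/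
def Ec_N0 (A B p q r : K) : Matrix (Fin 3) (Fin 3) K :=
  !![q, p - A * r, -A * q - B * r; p - A * r, -A * q - B * r, -A * (p - A * r) - B * q;
    -A * q - B * r, -A * (p - A * r) - B * q, -A * (-A * q - B * r) - B * (p - A * r)]

theorem Ec_M (h : Cub K L A B θ) (e : Fin 3 → L) (z₀ : L) :
    Mx h e z₀ = (Ec_E h e)ᵀ * Ec_M0 A B (h.co 0 z₀) (h.co 1 z₀) (h.co 2 z₀) * Ec_E h e := by
  ext i j
  obtain ⟨a0, a1, a2⟩ := h.co_mul (e i) (e j)
  obtain ⟨b0, b1, b2⟩ := h.co_mul (e i * e j) z₀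
  simp only [Mx, Matrix.of_apply, b2, a0, a1, a2, Matrix.mul_apply, Fin.sum_univ_three,
    Matrix.transpose_apply, Ec_E, Ec_M0, Matrix.cons_val', Matrix.cons_val_zero, Matrix.cons_val_one,
    Matrix.cons_val_two, Matrix.head_cons, Matrix.tail_cons, Matrix.head_fin_const,
    Matrix.empty_val', Matrix.cons_val_fin_one]
  simp
  ring

theorem Ec_theta (h : Cub K L A B θ) (w : L) : h.co 2 (θ * w) = h.co 1 w := by
  obtain ⟨a0, a1, a2⟩ := h.co_theta
  obtain ⟨b0, b1, b2⟩ := h.co_mul θ w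
  rw [b2, a0, a1, a2]
  ring

theorem Ec_N (h : Cub K L A B θ) (e : Fin 3 → L) (z₀ : L) :
    Nx h e z₀ = (Ec_E h e)ᵀ * Ec_N0 A B (h.co 0 z₀) (h.co 1 z₀) (h.co 2 z₀) * Ec_E h e := by
  ext i j
  obtain ⟨a0, a1, a2⟩ := h.co_mul (e i) (e j)
  obtain ⟨b0, b1, b2⟩ := h.co_mul (e i * e j) z₀
  simp only [Nx, Matrix.of_apply, Ec_theta, b1, a0, a1, a2, Matrix.mul_apply, Fin.sum_univ_three,
    Matrix.transpose_apply, Ec_E, Ec_N0, Matrix.cons_val', Matrix.cons_val_zero, Matrix.cons_val_one,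
    Matrix.cons_val_two, Matrix.head_cons, Matrix.tail_cons, Matrix.head_fin_const,
    Matrix.empty_val', Matrix.cons_val_fin_one]
  simp
  ring

theorem Ec_detM (h : Cub K L A B θ) (z : L) :
    (Ec_M0 A B (h.co 0 z) (h.co 1 z) (h.co 2 z)).det = -Algebra.norm K z := by
  rw [h.norm, Matrix.det_fin_three, Matrix.det_fin_three, Ec_M0]
  simp
  ring

theorem Ec_char (A B p q r x : K) :
    (x • Ec_M0 A B p q r - Ec_N0 A B p q r).det = (Ec_M0 A B p q r).det * (x ^ 3 + A * x + B) := by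
  rw [Matrix.det_fin_three, Matrix.det_fin_three, Ec_M0, Ec_N0]
  simp
  ring

theorem Ec_detE (h : Cub K L A B θ) {e : Fin 3 → L} (he : LinearIndependent K e) :
    (Ec_E h e).det ≠ 0 := by
  have hfin : Module.Finite K L := Module.Finite.of_basis h.basis
  have h1 : Submodule.span K (Set.range e) = ⊤ := by
    apply he.span_eq_top_of_card_eq_finrank'
    rw [h.finrank, Fintype.card_fin]
  have h2 := (h.basis.is_basis_iff_det).1 ⟨he, h1⟩
  rw [Module.Basis.det_apply] at h2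
  exact h2.ne_zero

theorem Mx_det (h : Cub K L A B θ) {e : Fin 3 → L} (he : LinearIndependent K e) {z₀ : L}
    (hz : z₀ ≠ 0) : (Mx h e z₀).det ≠ 0 := by
  have hfin : Module.Finite K L := Module.Finite.of_basis h.basis
  rw [Ec_M, Matrix.det_mul, Matrix.det_mul, Matrix.det_transpose, Ec_detM]
  have h1 := Ec_detE h he
  have h2 : Algebra.norm K z₀ ≠ 0 := (Algebra.norm_ne_zero_iff (R := K)).2 hz
  exact mul_ne_zero (mul_ne_zero h1 (neg_ne_zero.2 h2)) h1

theorem Mx_char (h : Cub K L A B θ) (e : Fin 3 → L) (z₀ : L) (x : K) :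
    (x • Mx h e z₀ - Nx h e z₀).det = (Mx h e z₀).det * (x ^ 3 + A * x + B) := by
  have h1 : x • Mx h e z₀ - Nx h e z₀ = (Ec_E h e)ᵀ *
      (x • Ec_M0 A B (h.co 0 z₀) (h.co 1 z₀) (h.co 2 z₀) -
        Ec_N0 A B (h.co 0 z₀) (h.co 1 z₀) (h.co 2 z₀)) * Ec_E h e := by
    rw [Ec_M, Ec_N, Matrix.mul_sub, Matrix.sub_mul, Matrix.mul_smul, Matrix.smul_mul]
  rw [h1, Ec_M, Matrix.det_mul, Matrix.det_mul, Matrix.det_mul, Matrix.det_mul, Ec_char]
  ring

theorem Mx_mulVec (h : Cub K L A B θ) (e : Fin 3 → L) (z₀ : L) (c : Fin 3 → K) (j : Fin 3) :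
    (Mx h e z₀).mulVec c j = h.co 2 ((∑ i, c i • e i) * e j * z₀) ∧
    (Nx h e z₀).mulVec c j = h.co 2 (θ * ((∑ i, c i • e i) * e j * z₀)) := by
  constructor
  · rw [Finset.sum_mul, Finset.sum_mul, map_sum, Matrix.mulVec, dotProduct]
    refine Finset.sum_congr rfl fun i _ => ?_
    rw [Mx, Matrix.of_apply, smul_mul_assoc, smul_mul_assoc, map_smul, smul_eq_mul, mul_comm (e j) (e i),
      mul_comm]
  · rw [Finset.sum_mul, Finset.sum_mul, Finset.mul_sum, map_sum, Matrix.mulVec, dotProduct]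
    refine Finset.sum_congr rfl fun i _ => ?_
    rw [Nx, Matrix.of_apply, smul_mul_assoc, smul_mul_assoc, mul_smul_comm, map_smul, smul_eq_mul,
      mul_comm (e j) (e i), mul_comm]

theorem Mx_quad (h : Cub K L A B θ) (e : Fin 3 → L) (z₀ : L) (c : Fin 3 → K) :
    c ⬝ᵥ (Mx h e z₀).mulVec c = h.co 2 ((∑ i, c i • e i) * (∑ i, c i • e i) * z₀) := by
  obtain ⟨u, hu⟩ : ∃ u : L, u = ∑ i, c i • e i := ⟨_, rfl⟩
  have h1 : u * (∑ i, c i • e i) * z₀ = ∑ i, c i • (u * e i * z₀) := by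
    rw [Finset.mul_sum, Finset.sum_mul]
    refine Finset.sum_congr rfl fun i _ => ?_
    rw [mul_smul_comm, smul_mul_assoc]
  have h2 : ∀ j, (Mx h e z₀).mulVec c j = h.co 2 (u * e j * z₀) := by
    intro j
    rw [(Mx_mulVec h e z₀ c j).1, ← hu]
  have h3 : h.co 2 (u * (∑ i, c i • e i) * z₀) = ∑ i, c i * h.co 2 (u * e i * z₀) := by
    rw [h1, map_sum]
    refine Finset.sum_congr rfl fun i _ => ?_
    rw [map_smul, smul_eq_mul]
  rw [← hu] at h3 ⊢
  rw [h3, dotProduct]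
  refine Finset.sum_congr rfl fun i _ => ?_
  rw [h2]

end H76PP

end S_H76_PP_Ec

section S_H76_PP_Ga

set_option autoImplicit false
open scoped Classical

open NumberField IsDedekindDomain

namespace H76PP

open Polynomial in
theorem Ga_minpoly {K L : Type} [Field K] [Field L] [Algebra K L] {A B : K} {θ : L}
    (h : Cub K L A B θ) : minpoly K θ = X ^ 3 + C A * X + C B := by
  set p : K[X] := X ^ 3 + C A * X + C B with hp
  have hdeg : p.natDegree = 3 := by
    rw [hp]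
    compute_degree!
  have hmon : p.Monic := by
    rw [hp]
    monicity!
  have hev : aeval θ p = 0 := by
    rw [hp]
    simp only [map_add, map_mul, map_pow, aeval_X, aeval_C]
    exact h.root
  have hint : IsIntegral K θ := ⟨p, hmon, by rw [← aeval_def]; exact hev⟩
  symm
  refine (eq_of_monic_of_dvd_of_natDegree_le (minpoly.monic hint) hmon
    (minpoly.dvd K θ hev) ?_)
  rw [hdeg]
  by_contra hlt
  push Not at hlt
  have h1 := minpoly.aeval K θ
  rw [aeval_eq_sum_range' hlt, Finset.sum_range_succ, Finset.sum_range_succ,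
    Finset.sum_range_succ, Finset.sum_range_zero] at h1
  obtain ⟨e0, e1, e2⟩ := h.li ((minpoly K θ).coeff 0) ((minpoly K θ).coeff 1)
    ((minpoly K θ).coeff 2) (by
      simp only [Algebra.smul_def, pow_zero, mul_one, pow_one, zero_add] at h1
      exact h1)
  have h2 : minpoly K θ = 0 := by
    ext n
    rw [coeff_zero]
    rcases Nat.lt_or_ge n 3 with hn | hn
    · interval_cases n
      · exact e0
      · exact e1
      · exact e2
    · exact coeff_eq_zero_of_natDegree_lt (lt_of_lt_of_le hlt hn)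
  exact minpoly.ne_zero hint h2

theorem Ga_int {K L : Type} [Field K] [NumberField K] [Field L] [NumberField L] [Algebra K L]
    {A B : 𝓞 K} {θ : L} (hL : Cub K L (A : K) (B : K) θ) : ∃ t : 𝓞 L, (t : L) = θ := by
  have h1 : IsIntegral (𝓞 K) θ := by
    refine ⟨Polynomial.X ^ 3 + Polynomial.C A * Polynomial.X + Polynomial.C B, by monicity!, ?_⟩
    rw [← Polynomial.aeval_def]
    simp only [map_add, map_mul, map_pow, Polynomial.aeval_X, Polynomial.aeval_C]
    exact hL.root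
  have h2 : IsIntegral ℤ θ := isIntegral_trans θ h1
  exact ⟨⟨θ, h2⟩, rfl⟩

theorem Ga_prod {L : Type} [Field L] [NumberField L] (x : L) :
    ∏ τ : L →+* ℂ, ‖τ x‖ = |((Algebra.norm ℚ x : ℚ) : ℝ)| := by
  have h := congr_arg (‖·‖) (Algebra.norm_eq_prod_embeddings ℚ ℂ x).symm
  rw [norm_prod, ← Fintype.prod_equiv (RingHom.equivRatAlgHom L ℂ) (fun f => ‖f x‖)
      (fun φ => ‖φ x‖) fun _ => by simp [RingHom.equivRatAlgHom_apply]] at h
  rw [h, eq_ratCast, ← Real.norm_eq_abs, ← Complex.norm_real, Complex.ofReal_ratCast]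

theorem disc_le {K L : Type} [Field K] [NumberField K] [Field L] [NumberField L] [Algebra K L]
    {A B : 𝓞 K} {θ : L} (hL : Cub K L (A : K) (B : K) θ)
    (hd : (4 * (A : K) ^ 3 + 27 * (B : K) ^ 2) ≠ 0) :
    (((NumberField.discr L).natAbs : ℕ) : ℝ) ≤ (((NumberField.discr K).natAbs : ℕ) : ℝ) ^ 3 *
      ∏ τ : L →+* ℂ, ‖τ (3 * θ ^ 2 + algebraMap K L (A : K))‖ := by
  obtain ⟨t, ht⟩ := Ga_int hL
  have htop : Algebra.adjoin K {algebraMap (𝓞 L) L t} = ⊤ := by
    rw [eq_top_iff]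
    intro x _
    have hmem : θ ∈ Algebra.adjoin K {algebraMap (𝓞 L) L t} := by
      apply Algebra.subset_adjoin
      exact ht.symm
    obtain ⟨c₀, c₁, c₂, rfl⟩ := hL.sp x
    exact Subalgebra.add_mem _ (Subalgebra.add_mem _ (Subalgebra.algebraMap_mem _ _)
      (Subalgebra.mul_mem _ (Subalgebra.algebraMap_mem _ _) hmem))
      (Subalgebra.mul_mem _ (Subalgebra.algebraMap_mem _ _) (Subalgebra.pow_mem _ hmem 2))
  set y : 𝓞 L := Polynomial.aeval t (Polynomial.derivative (minpoly (𝓞 K) t)) with hy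
  have hmemd : y ∈ differentIdeal (𝓞 K) (𝓞 L) :=
    aeval_derivative_mem_differentIdeal (𝓞 K) K L t htop
  have htint : IsIntegral (𝓞 K) t := Algebra.IsIntegral.isIntegral t
  have hyL : (y : L) = 3 * θ ^ 2 + algebraMap K L (A : K) := by
    have h1 : minpoly K (algebraMap (𝓞 L) L t) = (minpoly (𝓞 K) t).map (algebraMap (𝓞 K) K) :=
      minpoly.isIntegrallyClosed_eq_field_fractions K L htint
    have h2 : algebraMap (𝓞 L) L t = θ := ht
    rw [h2, Ga_minpoly hL] at h1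
    have h3 : (y : L) = Polynomial.aeval θ
        (Polynomial.derivative ((minpoly (𝓞 K) t).map (algebraMap (𝓞 K) K))) := by
      rw [Polynomial.derivative_map, Polynomial.aeval_map_algebraMap, ← h2,
        Polynomial.aeval_algebraMap_apply]
    rw [h3, ← h1]
    simp only [Polynomial.derivative_add, Polynomial.derivative_X_pow, Polynomial.derivative_mul,
      Polynomial.derivative_C, Polynomial.derivative_X, map_add, map_mul, map_pow,
      Polynomial.aeval_X, Polynomial.aeval_C, zero_mul, zero_add, mul_one, add_zero, map_zero,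
      Nat.cast_ofNat, map_ofNat]
  have hy0 : (y : L) ≠ 0 := by
    rw [hyL]
    intro h0
    have h1 : (3 * θ ^ 2 + algebraMap K L (A : K)) * (4 * algebraMap K L (A : K) ^ 2 -
        9 * algebraMap K L (B : K) * θ + 6 * algebraMap K L (A : K) * θ ^ 2) =
        algebraMap K L (4 * (A : K) ^ 3 + 27 * (B : K) ^ 2) := by
      simp only [map_add, map_mul, map_pow, map_ofNat]
      linear_combination (18 * algebraMap K L (A : K) * θ - 27 * algebraMap K L (B : K)) * hL.root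
    rw [h0, zero_mul] at h1
    exact hd ((map_eq_zero _).1 h1.symm)
  have hdvd : Ideal.absNorm (differentIdeal (𝓞 K) (𝓞 L)) ∣ Ideal.absNorm (Ideal.span {y}) :=
    Ideal.absNorm_dvd_absNorm_of_le ((Ideal.span_singleton_le_iff_mem _).2 hmemd)
  rw [Ideal.absNorm_span_singleton] at hdvd
  have hnz : Algebra.norm ℤ y ≠ 0 := by
    rw [Ne, Algebra.norm_eq_zero_iff]
    intro h0
    apply hy0
    rw [h0]
    simp
  have hle := Nat.le_of_dvd (Int.natAbs_pos.2 hnz) hdvd
  have hdisc := NumberField.natAbs_discr_eq_absNorm_differentIdeal_mul_natAbs_discr_pow K (𝓞 K) L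
    (𝓞 L)
  rw [hL.finrank] at hdisc
  rw [hdisc, ← hyL, Ga_prod]
  push_cast
  rw [mul_comm]
  refine mul_le_mul_of_nonneg_left ?_ (by positivity)
  have h5 : ((Ideal.absNorm (differentIdeal (𝓞 K) (𝓞 L)) : ℕ) : ℝ) ≤
      (((Algebra.norm ℤ y).natAbs : ℕ) : ℝ) := by exact_mod_cast hle
  refine h5.trans (le_of_eq ?_)
  rw [← Algebra.coe_norm_int, Nat.cast_natAbs]
  push_cast
  rfl

end H76PP

end S_H76_PP_Ga

section S_H76_PP_Gb

set_option autoImplicit false
open scoped Classical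

open NumberField IsDedekindDomain

namespace H76PP

theorem Gb_discr {L : Type} [Field L] [NumberField L]
    (c : Module.Free.ChooseBasisIndex ℤ (𝓞 L) → 𝓞 L) :
    Algebra.discr ℚ (fun i => (c i : L)) =
      (((RingOfIntegers.basis L).det c : ℤ) : ℚ) ^ 2 * ((NumberField.discr L : ℤ) : ℚ) := by
  obtain ⟨P, hP⟩ : ∃ P : Matrix (Module.Free.ChooseBasisIndex ℤ (𝓞 L))
      (Module.Free.ChooseBasisIndex ℤ (𝓞 L)) ℤ, P = (RingOfIntegers.basis L).toMatrix c := ⟨_, rfl⟩
  have hdet : (RingOfIntegers.basis L).det c = P.det := by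
    rw [hP]
    rfl
  have hc : (fun i => (c i : L)) =
      Matrix.vecMul (integralBasis L) ((P.map (Int.cast : ℤ → ℚ)).map (algebraMap ℚ L)) := by
    funext i
    have h1 : c i = ∑ j, P j i • RingOfIntegers.basis L j := by
      rw [hP]
      exact ((RingOfIntegers.basis L).sum_toMatrix_smul_self c i).symm
    rw [h1]
    simp only [Matrix.vecMul, dotProduct, Matrix.map_apply, integralBasis_apply, zsmul_eq_mul,
      map_sum, map_mul, map_intCast]
    exact Finset.sum_congr rfl fun j _ => mul_comm _ _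
  rw [hc, Algebra.discr_of_matrix_vecMul, NumberField.coe_discr, hdet]
  congr 2
  exact (Int.cast_det (R := ℚ) P).symm

theorem ideal_basis {L : Type} [Field L] [NumberField L] {I : Ideal (𝓞 L)} (hI : I ≠ ⊥) :
    ∃ (e : Fin (Module.finrank ℚ L) ≃ (L →+* ℂ)) (b : Fin (Module.finrank ℚ L) → 𝓞 L),
      (∀ i, b i ∈ I) ∧ LinearIndependent ℤ b ∧
      ‖(Matrix.of fun i j => (e i) (b j : L)).det‖ ^ 2 =
        (Ideal.absNorm I : ℝ) ^ 2 * (((NumberField.discr L).natAbs : ℕ) : ℝ) := by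
  have hcard : Fintype.card (Module.Free.ChooseBasisIndex ℤ (𝓞 L)) = Module.finrank ℚ L := by
    rw [← Module.finrank_eq_card_chooseBasisIndex, RingOfIntegers.rank]
  let bI : Module.Basis (Module.Free.ChooseBasisIndex ℤ (𝓞 L)) ℤ I :=
    Ideal.selfBasis (RingOfIntegers.basis L) I hI
  obtain ⟨c, hc⟩ : ∃ c : Module.Free.ChooseBasisIndex ℤ (𝓞 L) → 𝓞 L, c = fun i => (bI i : 𝓞 L) :=
    ⟨_, rfl⟩
  have hdet : ((RingOfIntegers.basis L).det c).natAbs = Ideal.absNorm I := by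
    rw [hc]
    exact Ideal.natAbs_det_basis_change (RingOfIntegers.basis L) I bI
  have hmem : ∀ i, c i ∈ I := fun i => by
    rw [hc]
    exact (bI i).2
  have hli : LinearIndependent ℤ c := by
    rw [hc]
    exact bI.linearIndependent.map' (I.restrictScalars ℤ).subtype
      (Submodule.ker_subtype _)
  let σ : Fin (Module.finrank ℚ L) ≃ Module.Free.ChooseBasisIndex ℤ (𝓞 L) :=
    (Fintype.equivFinOfCardEq hcard).symm
  let ε : Module.Free.ChooseBasisIndex ℤ (𝓞 L) ≃ (L →ₐ[ℚ] ℂ) :=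
    Fintype.equivOfCardEq (by rw [hcard, AlgHom.card])
  have h1 := Algebra.discr_eq_det_embeddingsMatrixReindex_pow_two ℚ ℂ (fun i => (c i : L)) ε
  rw [Gb_discr] at h1
  refine ⟨(σ.trans ε).trans (RingHom.equivRatAlgHom L ℂ).symm, c ∘ σ, fun i => hmem _,
    hli.comp _ σ.injective, ?_⟩
  have h2 : (Matrix.of fun i j => (((σ.trans ε).trans (RingHom.equivRatAlgHom L ℂ).symm) i)
      (((c ∘ σ) j : 𝓞 L) : L)) =
      (Algebra.embeddingsMatrixReindex ℚ ℂ (fun i => (c i : L)) ε).transpose.submatrix σ σ := by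
    ext i j
    rfl
  rw [h2, Matrix.det_submatrix_equiv_self, Matrix.det_transpose, ← norm_pow, ← h1]
  rw [map_mul, map_pow, map_intCast, map_intCast, norm_mul, norm_pow, Complex.norm_intCast,
    Complex.norm_intCast, ← hdet]
  rw [Nat.cast_natAbs, Nat.cast_natAbs, Int.cast_abs, Int.cast_abs]

end H76PP

end S_H76_PP_Gb

section S_H76_PP_Gc

set_option autoImplicit false
open scoped Classical

open NumberField IsDedekindDomain

namespace H76PP

/-- The weighted norm (squared). -/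
noncomputable def qw {L : Type} [Field L] [NumberField L] (w : (L →+* ℂ) → ℝ) (x : L) : ℝ :=
  ∑ τ : L →+* ℂ, w τ * ‖τ x‖ ^ 2

/-- The Gram matrix of a family of integers for the weighted norm. -/
noncomputable def Gc_gram {L : Type} [Field L] [NumberField L] {n : ℕ} (w : (L →+* ℂ) → ℝ)
    (b : Fin n → 𝓞 L) : Matrix (Fin n) (Fin n) ℝ :=
  Matrix.of fun i j => ∑ τ : L →+* ℂ, w τ * (τ (b i : L) * (starRingEnd ℂ) (τ (b j : L))).re

theorem Gc_form {L : Type} [Field L] [NumberField L] {n : ℕ} (w : (L →+* ℂ) → ℝ)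
    (b : Fin n → 𝓞 L) (y : Fin n → ℝ) :
    dotProduct y ((Gc_gram w b).mulVec y) =
      ∑ τ : L →+* ℂ, w τ * ‖∑ i, (y i : ℂ) * τ (b i : L)‖ ^ 2 := by
  have h1 : ∀ τ : L →+* ℂ, ‖∑ i, (y i : ℂ) * τ (b i : L)‖ ^ 2 =
      ∑ i, ∑ j, y i * y j * (τ (b i : L) * (starRingEnd ℂ) (τ (b j : L))).re := by
    intro τ
    have h2 : ((‖∑ i, (y i : ℂ) * τ (b i : L)‖ ^ 2 : ℝ) : ℂ) =
        (∑ i, (y i : ℂ) * τ (b i : L)) * (starRingEnd ℂ) (∑ i, (y i : ℂ) * τ (b i : L)) := by
      rw [Complex.mul_conj, Complex.normSq_eq_norm_sq]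
    have h3 := congrArg Complex.re h2
    rw [Complex.ofReal_re] at h3
    rw [h3, map_sum, Finset.sum_mul_sum, Complex.re_sum]
    refine Finset.sum_congr rfl fun i _ => ?_
    rw [Complex.re_sum]
    refine Finset.sum_congr rfl fun j _ => ?_
    rw [map_mul, Complex.conj_ofReal]
    have h4 : (y i : ℂ) * τ (b i : L) * ((y j : ℂ) * (starRingEnd ℂ) (τ (b j : L))) =
        ((y i * y j : ℝ) : ℂ) * (τ (b i : L) * (starRingEnd ℂ) (τ (b j : L))) := by
      push_cast
      ring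
    rw [h4, Complex.re_ofReal_mul]
  calc dotProduct y ((Gc_gram w b).mulVec y)
      = ∑ i, ∑ j, ∑ τ : L →+* ℂ,
          w τ * (y i * y j * (τ (b i : L) * (starRingEnd ℂ) (τ (b j : L))).re) := by
        simp only [dotProduct, Matrix.mulVec, Gc_gram, Matrix.of_apply]
        refine Finset.sum_congr rfl fun i _ => ?_
        rw [Finset.mul_sum]
        refine Finset.sum_congr rfl fun j _ => ?_
        rw [Finset.sum_mul, Finset.mul_sum]
        refine Finset.sum_congr rfl fun τ _ => ?_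
        ring
    _ = ∑ i, ∑ τ : L →+* ℂ, ∑ j,
          w τ * (y i * y j * (τ (b i : L) * (starRingEnd ℂ) (τ (b j : L))).re) :=
        Finset.sum_congr rfl fun i _ => Finset.sum_comm
    _ = ∑ τ : L →+* ℂ, ∑ i, ∑ j,
          w τ * (y i * y j * (τ (b i : L) * (starRingEnd ℂ) (τ (b j : L))).re) := Finset.sum_comm
    _ = ∑ τ : L →+* ℂ, w τ * ‖∑ i, (y i : ℂ) * τ (b i : L)‖ ^ 2 := by
        refine Finset.sum_congr rfl fun τ _ => ?_
        rw [h1, Finset.mul_sum]
        refine Finset.sum_congr rfl fun i _ => ?_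
        rw [Finset.mul_sum]

theorem Gc_real {L : Type} [Field L] [NumberField L] {n : ℕ} {w : (L →+* ℂ) → ℝ}
    (hw : ∀ τ, w (ComplexEmbedding.conjugate τ) = w τ) (b : Fin n → 𝓞 L) (i j : Fin n) :
    ((Gc_gram w b i j : ℝ) : ℂ) =
      ∑ τ : L →+* ℂ, (w τ : ℂ) * (τ (b i : L) * (starRingEnd ℂ) (τ (b j : L))) := by
  set S : ℂ := ∑ τ : L →+* ℂ, (w τ : ℂ) * (τ (b i : L) * (starRingEnd ℂ) (τ (b j : L))) with hS
  have hre : S.re = Gc_gram w b i j := by
    rw [hS, Complex.re_sum]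
    simp only [Gc_gram, Matrix.of_apply]
    refine Finset.sum_congr rfl fun τ _ => ?_
    rw [Complex.re_ofReal_mul]
  have hconj : (starRingEnd ℂ) S = S := by
    rw [hS, map_sum]
    let c : (L →+* ℂ) ≃ (L →+* ℂ) :=
      ⟨ComplexEmbedding.conjugate, ComplexEmbedding.conjugate,
        fun τ => star_star τ, fun τ => star_star τ⟩
    rw [← Equiv.sum_comp c (fun τ : L →+* ℂ =>
      (w τ : ℂ) * (τ (b i : L) * (starRingEnd ℂ) (τ (b j : L))))]
    refine Finset.sum_congr rfl fun τ _ => ?_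
    have h1 : c τ = ComplexEmbedding.conjugate τ := rfl
    rw [h1, hw τ, map_mul, map_mul, Complex.conj_ofReal, Complex.conj_conj,
      ComplexEmbedding.conjugate_coe_eq, ComplexEmbedding.conjugate_coe_eq, Complex.conj_conj]
  rw [← hre]
  exact Complex.conj_eq_iff_re.1 hconj

theorem Gc_coe {L : Type} [Field L] [NumberField L] {n : ℕ} (τ : L →+* ℂ) (u : Fin n → ℤ)
    (b : Fin n → 𝓞 L) :
    τ (((∑ j, u j • b j : 𝓞 L)) : L) = ∑ j, (u j : ℂ) * τ (b j : L) := by
  have h1 : (((∑ j, u j • b j : 𝓞 L)) : L) = ∑ j, (u j : L) * (b j : L) := by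
    have h2 : (((∑ j, u j • b j : 𝓞 L)) : L) = algebraMap (𝓞 L) L (∑ j, u j • b j) := rfl
    rw [h2, map_sum]
    refine Finset.sum_congr rfl fun j _ => ?_
    rw [zsmul_eq_mul, map_mul, map_intCast]
  rw [h1, map_sum]
  refine Finset.sum_congr rfl fun j _ => ?_
  rw [map_mul, map_intCast]

theorem ideal_reduced (N : ℕ) : ∃ C : ℝ, 1 ≤ C ∧ ∀ (L : Type) [Field L] [NumberField L],
    Module.finrank ℚ L = N → ∀ I : Ideal (𝓞 L), I ≠ ⊥ → ∀ w : (L →+* ℂ) → ℝ, (∀ τ, 0 < w τ) →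
      (∀ τ, w (ComplexEmbedding.conjugate τ) = w τ) →
      ∃ b : Fin N → 𝓞 L, (∀ i, b i ∈ I) ∧ LinearIndependent ℚ (fun i => (b i : L)) ∧
        ∏ i, qw w (b i : L) ≤ C * ((Ideal.absNorm I : ℝ) ^ 2 *
          (((NumberField.discr L).natAbs : ℕ) : ℝ) * ∏ τ, w τ) := by
  obtain ⟨C, hC1, hC⟩ := hermite N
  refine ⟨C, hC1, ?_⟩
  intro L _ _ hN I hI w hw0 hwc
  subst hN
  obtain ⟨e, b, hbI, -, hdet⟩ := ideal_basis hI
  set E : Matrix (Fin (Module.finrank ℚ L)) (Fin (Module.finrank ℚ L)) ℂ :=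
    Matrix.of fun i j => (e i) (b j : L) with hE
  have hdisc : (((NumberField.discr L).natAbs : ℕ) : ℝ) ≠ 0 := by
    rw [Nat.cast_ne_zero, Int.natAbs_ne_zero]
    exact NumberField.discr_ne_zero L
  have hnorm : (Ideal.absNorm I : ℝ) ≠ 0 := by
    rw [Nat.cast_ne_zero]
    exact fun h => hI (Ideal.absNorm_eq_zero_iff.1 h)
  have hE0 : E.det ≠ 0 := by
    intro h
    rw [h, norm_zero] at hdet
    have h2 : (Ideal.absNorm I : ℝ) ^ 2 * (((NumberField.discr L).natAbs : ℕ) : ℝ) ≠ 0 :=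
      mul_ne_zero (pow_ne_zero 2 hnorm) hdisc
    apply h2
    rw [← hdet]
    norm_num
  set G := Gc_gram w b with hG
  -- a vector killed by all embeddings is zero
  have hinj : ∀ y : Fin (Module.finrank ℚ L) → ℂ,
      (∀ τ : L →+* ℂ, ∑ i, y i * τ (b i : L) = 0) → y = 0 := by
    intro y hy
    apply Matrix.eq_zero_of_mulVec_eq_zero hE0
    funext k
    have h1 := hy (e k)
    simp only [Matrix.mulVec, dotProduct, hE, Matrix.of_apply, Pi.zero_apply]
    rw [← h1]
    exact Finset.sum_congr rfl fun i _ => mul_comm _ _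
  have hsymm : G.IsHermitian := by
    ext i j
    simp only [Matrix.conjTranspose_apply, star_trivial, hG, Gc_gram, Matrix.of_apply]
    refine Finset.sum_congr rfl fun τ _ => ?_
    congr 1
    simp only [Complex.mul_re, Complex.conj_re, Complex.conj_im]
    ring
  have hpos : G.PosDef := by
    apply Matrix.PosDef.of_dotProduct_mulVec_pos hsymm
    intro y hy
    rw [star_trivial, hG, Gc_form]
    have hnn : ∀ τ ∈ (Finset.univ : Finset (L →+* ℂ)),
        0 ≤ w τ * ‖∑ i, (y i : ℂ) * τ (b i : L)‖ ^ 2 :=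
      fun τ _ => mul_nonneg (hw0 τ).le (by positivity)
    refine lt_of_le_of_ne (Finset.sum_nonneg hnn) ?_
    intro h0
    have h1 := (Finset.sum_eq_zero_iff_of_nonneg hnn).1 h0.symm
    apply hy
    have h2 : (fun i => (y i : ℂ)) = 0 := by
      apply hinj
      intro τ
      have h3 := h1 τ (Finset.mem_univ _)
      rcases mul_eq_zero.1 h3 with h4 | h4
      · exact absurd h4 (hw0 τ).ne'
      · exact norm_eq_zero.1 (eq_zero_of_pow_eq_zero h4)
    funext i
    have h3 := congrFun h2 i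
    simpa using h3
  -- the determinant
  have hGdet : G.det = (Ideal.absNorm I : ℝ) ^ 2 *
      (((NumberField.discr L).natAbs : ℕ) : ℝ) * ∏ τ, w τ := by
    have h1 : G.map (fun x : ℝ => (x : ℂ)) =
        E.transpose * Matrix.diagonal (fun k => (w (e k) : ℂ)) * (E.map (starRingEnd ℂ)) := by
      ext i j
      rw [Matrix.map_apply, hG, Gc_real hwc, Matrix.mul_apply]
      simp only [Matrix.mul_diagonal, Matrix.transpose_apply, Matrix.map_apply, hE,
        Matrix.of_apply]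
      rw [← Equiv.sum_comp e]
      refine Finset.sum_congr rfl fun k _ => ?_
      ring
    have h2 : ((G.det : ℝ) : ℂ) = E.det * (∏ k, (w (e k) : ℂ)) * (starRingEnd ℂ) E.det := by
      have h3 : ((G.det : ℝ) : ℂ) = (G.map (fun x : ℝ => (x : ℂ))).det :=
        RingHom.map_det Complex.ofRealHom G
      rw [h3, h1, Matrix.det_mul, Matrix.det_mul, Matrix.det_transpose, Matrix.det_diagonal]
      have h4 : (E.map (starRingEnd ℂ)).det = (starRingEnd ℂ) E.det := by
        have := RingHom.map_det (starRingEnd ℂ) E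
        rw [this]
        rfl
      rw [h4]
    have h5 : ((G.det : ℝ) : ℂ) = ((‖E.det‖ ^ 2 * ∏ τ, w τ : ℝ) : ℂ) := by
      rw [h2]
      have h6 : E.det * (∏ k, (w (e k) : ℂ)) * (starRingEnd ℂ) E.det =
          (E.det * (starRingEnd ℂ) E.det) * (∏ k, (w (e k) : ℂ)) := by ring
      rw [h6, Complex.mul_conj, Complex.normSq_eq_norm_sq]
      push_cast
      congr 1
      exact Equiv.prod_comp e (fun τ => (w τ : ℂ))
    have h7 := Complex.ofReal_injective h5
    rw [h7, hdet]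
  obtain ⟨U, hU, hUle⟩ := hC G hpos
  refine ⟨fun i => ∑ j, U i j • b j, fun i => ?_, ?_, ?_⟩
  · exact Submodule.sum_mem _ fun j _ => zsmul_mem (hbI j) _
  · rw [Fintype.linearIndependent_iff]
    intro c hc
    have hU0 : (U.map (fun z : ℤ => (z : ℚ))).det ≠ 0 := by
      have h1 : (U.map (fun z : ℤ => (z : ℚ))).det = ((U.det : ℤ) : ℚ) := by
        have := RingHom.map_det (Int.castRingHom ℚ) U
        simpa using this.symm
      rw [h1]
      exact_mod_cast hU.ne_zero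
    have hc' : Matrix.vecMul c (U.map (fun z : ℤ => (z : ℚ))) = 0 := by
      have h2 : (fun j => ((Matrix.vecMul c (U.map (fun z : ℤ => (z : ℚ))) j : ℚ) : ℂ)) = 0 := by
        apply hinj
        intro τ
        have h3 := congrArg τ hc
        rw [map_zero, map_sum] at h3
        rw [← h3]
        simp only [Matrix.vecMul, dotProduct, Matrix.map_apply]
        have h4 : ∀ i, τ (c i • (((∑ j, U i j • b j : 𝓞 L)) : L)) =
            ∑ j, (c i : ℂ) * ((U i j : ℂ) * τ (b j : L)) := by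
          intro i
          rw [Rat.smul_def, map_mul, map_ratCast, ← Finset.mul_sum]
          congr 1
          exact Gc_coe τ (U i) b
        rw [Finset.sum_congr rfl fun i _ => h4 i, Finset.sum_comm]
        refine Finset.sum_congr rfl fun j _ => ?_
        push_cast
        rw [Finset.sum_mul]
        refine Finset.sum_congr rfl fun i _ => ?_
        ring
      funext j
      have h5 := congrFun h2 j
      simpa using h5
    have h6 := Matrix.eq_zero_of_vecMul_eq_zero hU0 hc'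
    intro i
    rw [h6]
    rfl
  · have h1 : ∀ i, qw w ((∑ j, U i j • b j : 𝓞 L) : L) = qf G (U i) := by
      intro i
      rw [qf, hG, Gc_form, qw]
      refine Finset.sum_congr rfl fun τ _ => ?_
      congr 3
      rw [Gc_coe τ (U i) b]
      push_cast
      rfl
    calc ∏ i, qw w ((∑ j, U i j • b j : 𝓞 L) : L) = ∏ i, qf G (U i) :=
          Finset.prod_congr rfl fun i _ => h1 i
      _ ≤ C * G.det := hUle
      _ = _ := by rw [hGdet]

end H76PP

end S_H76_PP_Gc

section S_H76_PP_Gd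

set_option autoImplicit false
open scoped Classical

open NumberField IsDedekindDomain

namespace H76PP

/-- among the first `j n + 1` vectors there is one outside a given subspace of dimension `j` -/
lemma Gd_out {K L : Type} [Field K] [NumberField K] [Field L] [NumberField L] [Algebra K L]
    {N : ℕ} {b : Fin N → L} (hb : LinearIndependent ℚ b) (V : Submodule K L) (j : ℕ)
    (hV : Module.finrank K V ≤ j) (hj : j * Module.finrank ℚ K < N) :
    ∃ i : Fin N, (i : ℕ) ≤ j * Module.finrank ℚ K ∧ b i ∉ V := by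
  by_contra hcon
  push Not at hcon
  have hfd : FiniteDimensional K L := Module.Finite.of_restrictScalars_finite ℚ K L
  have h1 : Module.finrank ℚ K * Module.finrank K V = Module.finrank ℚ V :=
    Module.finrank_mul_finrank ℚ K V
  have hle : j * Module.finrank ℚ K + 1 ≤ N := hj
  let c : Fin (j * Module.finrank ℚ K + 1) → V := fun i =>
    ⟨b (Fin.castLE hle i), hcon _ (by
      have := i.2
      simp only [Fin.val_castLE]
      omega)⟩
  have hc : LinearIndependent ℚ c := by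
    have h2 : LinearIndependent ℚ (fun i => b (Fin.castLE hle i)) :=
      hb.comp _ (Fin.castLE_injective hle)
    have h3 : (fun i => b (Fin.castLE hle i)) =
        ((V.subtype.restrictScalars ℚ : V →ₗ[ℚ] L) : V → L) ∘ c := by
      funext i
      rfl
    rw [h3] at h2
    exact h2.of_comp _
  haveI : Module.Finite ℚ V := Module.Finite.trans K V
  have h4 := hc.fintype_card_le_finrank
  rw [Fintype.card_fin, ← h1] at h4
  have h5 : Module.finrank ℚ K * Module.finrank K V ≤ Module.finrank ℚ K * j :=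
    Nat.mul_le_mul_left _ hV
  rw [mul_comm j] at h4
  omega

/-- the product -/
lemma Gd_prod {n N : ℕ} (hN : N = 3 * n) (hn : 0 < n) (r : Fin N → ℝ) (hr : ∀ i, 0 ≤ r i)
    (hmono : Monotone r) {i0 i1 i2 : Fin N} (h0 : (i0 : ℕ) = 0) (h1 : (i1 : ℕ) ≤ n)
    (h2 : (i2 : ℕ) ≤ 2 * n) : (r i0 * r i1 * r i2) ^ n ≤ ∏ i, r i := by
  set f : ℕ → ℝ := fun i => if i < n then r i0 else if i < 2 * n then r i1 else r i2 with hf
  have e1 : ∏ i : Fin N, f i = (r i0 * r i1 * r i2) ^ n := by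
    rw [Fin.prod_univ_eq_prod_range f N, hN, show 3 * n = n + n + n by ring,
      Finset.prod_range_add, Finset.prod_range_add]
    have a1 : ∏ x ∈ Finset.range n, f x = r i0 ^ n := by
      rw [Finset.prod_congr rfl (g := fun _ => r i0), Finset.prod_const, Finset.card_range]
      intro x hx
      simp only [hf]
      rw [if_pos (Finset.mem_range.1 hx)]
    have a2 : ∏ x ∈ Finset.range n, f (n + x) = r i1 ^ n := by
      rw [Finset.prod_congr rfl (g := fun _ => r i1), Finset.prod_const, Finset.card_range]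
      intro x hx
      have := Finset.mem_range.1 hx
      simp only [hf]
      rw [if_neg (by omega), if_pos (by omega)]
    have a3 : ∏ x ∈ Finset.range n, f (n + n + x) = r i2 ^ n := by
      rw [Finset.prod_congr rfl (g := fun _ => r i2), Finset.prod_const, Finset.card_range]
      intro x hx
      have := Finset.mem_range.1 hx
      simp only [hf]
      rw [if_neg (by omega), if_neg (by omega)]
    rw [a1, a2, a3, ← mul_pow, ← mul_pow]
  rw [← e1]
  refine Finset.prod_le_prod (fun i _ => ?_) (fun i _ => ?_)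
  · simp only [hf]
    split_ifs
    · exact hr _
    · exact hr _
    · exact hr _
  · simp only [hf]
    split_ifs with g1 g2
    · apply hmono
      rw [Fin.le_def, h0]
      exact Nat.zero_le _
    · apply hmono
      rw [Fin.le_def]
      omega
    · apply hmono
      rw [Fin.le_def]
      omega

/-- the case of a monotone family -/
lemma Gd_mono {K L : Type} [Field K] [NumberField K] [Field L] [NumberField L] [Algebra K L]
    {N : ℕ} (hN : N = 3 * Module.finrank ℚ K) {b : Fin N → L}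
    (hb : LinearIndependent ℚ b) (r : Fin N → ℝ) (hr : ∀ i, 0 ≤ r i) (hmono : Monotone r) :
    ∃ e : Fin 3 → Fin N, LinearIndependent K (fun i => b (e i)) ∧ r (e 0) ≤ r (e 1) ∧
      r (e 1) ≤ r (e 2) ∧ (r (e 0) * r (e 1) * r (e 2)) ^ (Module.finrank ℚ K) ≤ ∏ i, r i := by
  have hn : 0 < Module.finrank ℚ K := Module.finrank_pos
  set n := Module.finrank ℚ K with hndef
  have hfd : FiniteDimensional K L := Module.Finite.of_restrictScalars_finite ℚ K L
  have hNpos : 0 < N := by omega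
  set i0 : Fin N := ⟨0, hNpos⟩ with hi0
  obtain ⟨i1, hi1, hi1'⟩ := Gd_out hb (Submodule.span K (Set.range ![b i0])) 1
    ((finrank_range_le_card _).trans (by simp)) (by omega)
  obtain ⟨i2, hi2, hi2'⟩ := Gd_out hb (Submodule.span K (Set.range ![b i1, b i0])) 2
    ((finrank_range_le_card _).trans (by simp)) (by omega)
  rw [← hndef, one_mul] at hi1
  rw [← hndef] at hi2
  have h00 : b i0 ≠ 0 := hb.ne_zero i0
  have hlin : LinearIndependent K ![b i2, b i1, b i0] := by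
    rw [show (![b i2, b i1, b i0] : Fin 3 → L) = Fin.cons (b i2) ![b i1, b i0] from rfl,
      linearIndependent_finCons]
    refine ⟨?_, hi2'⟩
    rw [show (![b i1, b i0] : Fin 2 → L) = Fin.cons (b i1) ![b i0] from rfl,
      linearIndependent_finCons]
    refine ⟨?_, hi1'⟩
    rw [linearIndependent_unique_iff]
    exact h00
  rcases le_total i1 i2 with h | h
  · refine ⟨![i0, i1, i2], ?_, ?_, ?_, ?_⟩
    · have h2 := hlin.comp ![2, 1, 0] (by decide)
      have e : (![b i2, b i1, b i0] ∘ ![2, 1, 0] : Fin 3 → L) = fun i => b (![i0, i1, i2] i) := by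
        funext i
        fin_cases i <;> rfl
      rw [e] at h2
      exact h2
    · exact hmono (by rw [Fin.le_def]; exact Nat.zero_le _)
    · exact hmono h
    · exact Gd_prod hN hn r hr hmono rfl hi1 hi2
  · refine ⟨![i0, i2, i1], ?_, ?_, ?_, ?_⟩
    · have h2 := hlin.comp ![2, 0, 1] (by decide)
      have e : (![b i2, b i1, b i0] ∘ ![2, 0, 1] : Fin 3 → L) = fun i => b (![i0, i2, i1] i) := by
        funext i
        fin_cases i <;> rfl
      rw [e] at h2
      exact h2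
    · exact hmono (by rw [Fin.le_def]; exact Nat.zero_le _)
    · exact hmono h
    · have h3 : (i2 : ℕ) ≤ n := (Fin.le_def.1 h).trans hi1
      have h4 : (i1 : ℕ) ≤ 2 * n := by omega
      exact Gd_prod hN hn r hr hmono rfl h3 h4

theorem select {K L : Type} [Field K] [NumberField K] [Field L] [NumberField L] [Algebra K L]
    (h3 : Module.finrank K L = 3) {N : ℕ} (hN : N = 3 * Module.finrank ℚ K) {b : Fin N → L}
    (hb : LinearIndependent ℚ b) (r : Fin N → ℝ) (hr : ∀ i, 0 ≤ r i) :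
    ∃ e : Fin 3 → Fin N, LinearIndependent K (fun i => b (e i)) ∧ r (e 0) ≤ r (e 1) ∧
      r (e 1) ≤ r (e 2) ∧ (r (e 0) * r (e 1) * r (e 2)) ^ (Module.finrank ℚ K) ≤ ∏ i, r i := by
  have _ := h3
  obtain ⟨e, h1, h2, h3, h4⟩ := Gd_mono (K := K) hN (b := b ∘ Tuple.sort r)
    (hb.comp _ (Tuple.sort r).injective) (r ∘ Tuple.sort r) (fun i => hr _) (Tuple.monotone_sort r)
  refine ⟨fun i => Tuple.sort r (e i), h1, h2, h3, ?_⟩
  have h5 : ∏ i, (r ∘ Tuple.sort r) i = ∏ i, r i := Equiv.prod_comp (Tuple.sort r) r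
  rw [h5] at h4
  exact h4

end H76PP

end S_H76_PP_Gd

section S_H76_PP_Ge

set_option autoImplicit false
open scoped Classical

open NumberField IsDedekindDomain

namespace H76PP

/-- The weights. -/
noncomputable def wt {L : Type} [Field L] (δ d : L) (τ : L →+* ℂ) : ℝ := 1 / (‖τ δ‖ * ‖τ d‖)

lemma Ge_wt_nonneg {L : Type} [Field L] (δ d : L) (τ : L →+* ℂ) : 0 ≤ wt δ d τ := by
  unfold wt
  positivity

lemma Ge_wt_pos {L : Type} [Field L] {δ d : L} (hδ : δ ≠ 0) (hd : d ≠ 0) (τ : L →+* ℂ) :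
    0 < wt δ d τ := by
  unfold wt
  have h1 : 0 < ‖τ δ‖ := norm_pos_iff.2 ((map_ne_zero τ).2 hδ)
  have h2 : 0 < ‖τ d‖ := norm_pos_iff.2 ((map_ne_zero τ).2 hd)
  positivity

lemma Ge_cs {L : Type} [Field L] [NumberField L] (w : (L →+* ℂ) → ℝ) (hw : ∀ τ, 0 ≤ w τ)
    (x y : L) : ∑ τ : L →+* ℂ, w τ * (‖τ x‖ * ‖τ y‖) ≤ √(qw w x) * √(qw w y) := by
  have h := Real.sum_mul_le_sqrt_mul_sqrt Finset.univ (fun τ : L →+* ℂ => √(w τ) * ‖τ x‖)
    (fun τ : L →+* ℂ => √(w τ) * ‖τ y‖)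
  have e1 : ∀ (z : L) (τ : L →+* ℂ), (√(w τ) * ‖τ z‖) ^ 2 = w τ * ‖τ z‖ ^ 2 := by
    intro z τ
    rw [mul_pow, Real.sq_sqrt (hw τ)]
  simp only [e1] at h
  unfold qw
  refine le_trans (le_of_eq ?_) h
  refine Finset.sum_congr rfl fun τ _ => ?_
  have := Real.mul_self_sqrt (hw τ)
  calc w τ * (‖τ x‖ * ‖τ y‖) = (√(w τ) * √(w τ)) * (‖τ x‖ * ‖τ y‖) := by rw [this]
    _ = √(w τ) * ‖τ x‖ * (√(w τ) * ‖τ y‖) := by ring

lemma Ge_norm (L : Type) [Field L] [NumberField L] (x : L) :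
    ∏ τ : L →+* ℂ, ‖τ x‖ = |((Algebra.norm ℚ x : ℚ) : ℝ)| := by
  have h1 := congr_arg (‖·‖) (Algebra.norm_eq_prod_embeddings ℚ ℂ x)
  rw [norm_prod, ← Fintype.prod_equiv (RingHom.equivRatAlgHom L ℂ) (fun f => ‖f x‖)
      (fun φ => ‖φ x‖) fun _ => by simp [RingHom.equivRatAlgHom_apply]] at h1
  rw [← h1, eq_ratCast, ← Real.norm_eq_abs, ← Complex.norm_real, Complex.ofReal_ratCast]

lemma Ge_absNorm {L : Type} [Field L] [NumberField L] (δ : 𝓞 L) (I : Ideal (𝓞 L))
    (hI : I ^ 2 = Ideal.span {δ}) :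
    ((Ideal.absNorm I : ℕ) : ℝ) ^ 2 = ∏ τ : L →+* ℂ, ‖τ (δ : L)‖ := by
  have h1 : (Ideal.absNorm I) ^ 2 = (Algebra.norm ℤ δ).natAbs := by
    rw [← Ideal.absNorm_span_singleton, ← hI, map_pow]
  rw [Ge_norm, ← Algebra.coe_norm_int]
  have h2 : ((Ideal.absNorm I : ℕ) : ℝ) ^ 2 = (((Algebra.norm ℤ δ).natAbs : ℕ) : ℝ) := by
    exact_mod_cast h1
  rw [h2, Nat.cast_natAbs, Int.cast_abs]
  norm_cast

lemma Ge_pow {n : ℕ} (hn : 0 < n) {p S : ℝ} (h : p ^ n ≤ S) : p ≤ max 1 S := by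
  by_cases h1 : p ≤ 1
  · exact h1.trans (le_max_left _ _)
  · have h2 : 1 ≤ p := (not_le.1 h1).le
    exact ((le_self_pow₀ h2 hn.ne').trans h).trans (le_max_right _ _)

theorem reduce (K : Type) [Field K] [NumberField K] : ∃ C₂ : ℝ, 1 ≤ C₂ ∧
    ∀ (L : Type) [Field L] [NumberField L] [Algebra K L] (A B : 𝓞 K) (θ : L),
      Cub K L (A : K) (B : K) θ → (4 * (A : K) ^ 3 + 27 * (B : K) ^ 2) ≠ 0 →
      ∀ (δ : 𝓞 L) (I : Ideal (𝓞 L)), δ ≠ 0 → I ^ 2 = Ideal.span {δ} →
      ∃ e : Fin 3 → 𝓞 L, (∀ i, e i ∈ I) ∧ LinearIndependent K (fun i => (e i : L)) ∧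
        ∃ l : Fin 3 → ℝ,
          (∀ i, l i = √(qw (wt (δ : L) (3 * θ ^ 2 + algebraMap K L (A : K))) (e i : L))) ∧
          l 0 ≤ l 1 ∧ l 1 ≤ l 2 ∧ l 0 * l 1 * l 2 ≤ C₂ := by
  obtain ⟨C, hC1, hC⟩ := ideal_reduced (3 * Module.finrank ℚ K)
  refine ⟨max 1 (√(C * (((NumberField.discr K).natAbs : ℕ) : ℝ) ^ 3)), le_max_left _ _, ?_⟩
  intro L _ _ _ A B θ h hd δ I hδ hI
  obtain ⟨d, hdd⟩ : ∃ d : L, d = 3 * θ ^ 2 + algebraMap K L (A : K) := ⟨_, rfl⟩
  have hd0 : d ≠ 0 := by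
    rw [hdd]
    exact h.der_ne hd
  have hδL : (δ : L) ≠ 0 := by
    intro h0
    exact hδ (RingOfIntegers.coe_injective (h0.trans (map_zero _).symm))
  rw [← hdd]
  have hfin : Module.finrank ℚ L = 3 * Module.finrank ℚ K := by
    rw [← Module.finrank_mul_finrank ℚ K L, h.finrank, mul_comm]
  have hI0 : I ≠ ⊥ := by
    intro h0
    rw [h0] at hI
    have h1 : (⊥ : Ideal (𝓞 L)) ^ 2 = ⊥ := by
      rw [pow_two, Ideal.bot_mul]
    rw [h1] at hI
    exact hδ (Ideal.span_singleton_eq_bot.1 hI.symm)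
  have hw := Ge_wt_pos hδL hd0
  have hwc : ∀ τ, wt (δ : L) d (ComplexEmbedding.conjugate τ) = wt (δ : L) d τ := by
    intro τ
    unfold wt
    rw [ComplexEmbedding.conjugate_coe_eq, ComplexEmbedding.conjugate_coe_eq, Complex.norm_conj,
      Complex.norm_conj]
  obtain ⟨b, hb, hli, hprod⟩ := hC L hfin I hI0 _ hw hwc
  have hbd : (Ideal.absNorm I : ℝ) ^ 2 * (((NumberField.discr L).natAbs : ℕ) : ℝ) *
      ∏ τ, wt (δ : L) d τ ≤ (((NumberField.discr K).natAbs : ℕ) : ℝ) ^ 3 := by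
    have h1 := disc_le h hd
    rw [← hdd] at h1
    rw [Ge_absNorm δ I hI]
    unfold wt
    have h2 : ∏ τ : L →+* ℂ, 1 / (‖τ (δ : L)‖ * ‖τ d‖) =
        1 / ((∏ τ : L →+* ℂ, ‖τ (δ : L)‖) * ∏ τ : L →+* ℂ, ‖τ d‖) := by
      rw [Finset.prod_div_distrib, Finset.prod_const_one, Finset.prod_mul_distrib]
    rw [h2]
    have p1 : 0 < ∏ τ : L →+* ℂ, ‖τ (δ : L)‖ :=
      Finset.prod_pos fun τ _ => norm_pos_iff.2 ((map_ne_zero τ).2 hδL)
    have p2 : 0 < ∏ τ : L →+* ℂ, ‖τ d‖ :=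
      Finset.prod_pos fun τ _ => norm_pos_iff.2 ((map_ne_zero τ).2 hd0)
    rw [mul_one_div, div_le_iff₀ (by positivity)]
    calc (∏ τ : L →+* ℂ, ‖τ (δ : L)‖) * (((NumberField.discr L).natAbs : ℕ) : ℝ)
        ≤ (∏ τ : L →+* ℂ, ‖τ (δ : L)‖) * ((((NumberField.discr K).natAbs : ℕ) : ℝ) ^ 3 *
          ∏ τ : L →+* ℂ, ‖τ d‖) := mul_le_mul_of_nonneg_left h1 p1.le
      _ = (((NumberField.discr K).natAbs : ℕ) : ℝ) ^ 3 * ((∏ τ : L →+* ℂ, ‖τ (δ : L)‖) *
          ∏ τ : L →+* ℂ, ‖τ d‖) := by ring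
  have hprod2 : ∏ i, qw (wt (δ : L) d) (b i : L) ≤
      C * (((NumberField.discr K).natAbs : ℕ) : ℝ) ^ 3 :=
    hprod.trans (mul_le_mul_of_nonneg_left hbd (by linarith))
  obtain ⟨e, he1, he2, he3, he4⟩ := select h.finrank rfl hli
    (fun i => √(qw (wt (δ : L) d) (b i : L))) (fun i => Real.sqrt_nonneg _)
  refine ⟨fun i => b (e i), fun i => hb _, he1, fun i => √(qw (wt (δ : L) d) (b (e i) : L)),
    fun i => rfl, he2, he3, ?_⟩
  refine Ge_pow Module.finrank_pos (he4.trans ?_)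
  have hqn : ∀ i, 0 ≤ qw (wt (δ : L) d) (b i : L) := by
    intro i
    unfold qw
    exact Finset.sum_nonneg fun τ _ => mul_nonneg (hw τ).le (by positivity)
  rw [← Real.sqrt_prod _ fun i _ => hqn i]
  exact Real.sqrt_le_sqrt hprod2

section

variable {K L : Type} [Field K] [NumberField K] [Field L] [NumberField L] [Algebra K L]
  {A B : 𝓞 K} {θ : L}

theorem mx_bound (h : Cub K L (A : K) (B : K) θ) (hd : (4 * (A : K) ^ 3 + 27 * (B : K) ^ 2) ≠ 0)
    {δ : L} (hδ : δ ≠ 0) (s : K →+* ℂ) (x y : L) : ‖s (h.co 2 (x * y * δ⁻¹))‖ ≤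
      √(qw (wt δ (3 * θ ^ 2 + algebraMap K L (A : K))) x) *
        √(qw (wt δ (3 * θ ^ 2 + algebraMap K L (A : K))) y) := by
  obtain ⟨d, hdd⟩ : ∃ d : L, d = 3 * θ ^ 2 + algebraMap K L (A : K) := ⟨_, rfl⟩
  have h1 := h.co_bound hd s (x * y * δ⁻¹)
  rw [← hdd] at h1 ⊢
  refine h1.trans (le_trans (le_of_eq ?_) (Ge_cs (wt δ d) (Ge_wt_nonneg δ d) x y))
  refine Finset.sum_congr rfl fun τ _ => ?_
  unfold wt
  rw [map_mul, map_mul, map_inv₀, norm_mul, norm_mul, norm_inv]
  field_simp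

theorem nx_bound (h : Cub K L (A : K) (B : K) θ) (hd : (4 * (A : K) ^ 3 + 27 * (B : K) ^ 2) ≠ 0)
    {X : ℝ} (hX : 0 ≤ X) (hA : A ∈ bx K (X ^ 2)) (hB : B ∈ bx K (X ^ 3))
    {δ : L} (hδ : δ ≠ 0) (s : K →+* ℂ) (x y : L) : ‖s (h.co 2 (θ * (x * y * δ⁻¹)))‖ ≤
      2 * X * (√(qw (wt δ (3 * θ ^ 2 + algebraMap K L (A : K))) x) *
        √(qw (wt δ (3 * θ ^ 2 + algebraMap K L (A : K))) y)) := by
  obtain ⟨d, hdd⟩ : ∃ d : L, d = 3 * θ ^ 2 + algebraMap K L (A : K) := ⟨_, rfl⟩
  have h1 := h.co_bound hd s (θ * (x * y * δ⁻¹))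
  rw [← hdd] at h1 ⊢
  refine h1.trans (le_trans ?_ (mul_le_mul_of_nonneg_left
    (Ge_cs (wt δ d) (Ge_wt_nonneg δ d) x y) (by positivity)))
  rw [Finset.mul_sum]
  refine Finset.sum_le_sum fun τ _ => ?_
  have h2 := h.root_bound hX hA hB τ
  have h3 : ‖τ (θ * (x * y * δ⁻¹))‖ / ‖τ d‖ = ‖τ θ‖ * (wt δ d τ * (‖τ x‖ * ‖τ y‖)) := by
    unfold wt
    rw [map_mul, map_mul, map_mul, map_inv₀, norm_mul, norm_mul, norm_mul, norm_inv]
    field_simp
  rw [h3]
  exact mul_le_mul_of_nonneg_right h2 (mul_nonneg (Ge_wt_nonneg δ d τ) (by positivity))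

end

end H76PP

end S_H76_PP_Ge

section S_H76_PP_Ed

set_option autoImplicit false
open scoped Classical

open NumberField IsDedekindDomain
open scoped Matrix

namespace H76PP

theorem Cub.red {K L : Type} [Field K] [Field L] [Algebra K L] {A B : K} {θ : L}
    (h : Cub K L A B θ) {δ x : L} (hδ : δ ≠ 0) (hx : x ≠ 0) (hN : IsSquare (Algebra.norm K δ))
    (hs : ¬ IsSquare δ) (h0 : h.co 2 (x * x * δ⁻¹) = 0) : h.co 2 (θ * (x * x * δ⁻¹)) ≠ 0 := by
  intro h1
  set z := x * x * δ⁻¹ with hz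
  obtain ⟨a0, a1, a2⟩ := h.co_theta
  obtain ⟨_, _, m2⟩ := h.co_mul θ z
  rw [a0, a1, a2] at m2
  have hz1 : h.co 1 z = 0 := by
    rw [h1] at m2
    linear_combination -m2
  have hzc := h.eq_co z
  rw [hz1, h0, map_zero, zero_mul, zero_mul, add_zero, add_zero] at hzc
  set c := h.co 0 z with hc
  have hz0 : z ≠ 0 := by
    rw [hz]
    exact mul_ne_zero (mul_ne_zero hx hx) (inv_ne_zero hδ)
  have hc0 : c ≠ 0 := by
    intro h2
    rw [h2, map_zero] at hzc
    exact hz0 hzc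
  have hxx : x * x = δ * algebraMap K L c := by
    rw [← hzc, hz]
    field_simp
  have hnn : Algebra.norm K x * Algebra.norm K x = Algebra.norm K δ * c ^ 3 := by
    rw [← map_mul, hxx, map_mul, Algebra.norm_algebraMap, h.finrank]
  obtain ⟨t, ht⟩ := hN
  have : Module.Free K L := Module.Free.of_basis h.basis
  have : Module.Finite K L := Module.Finite.of_basis h.basis
  have hδn : Algebra.norm K δ ≠ 0 := by
    rw [Ne, Algebra.norm_eq_zero_iff]
    exact hδ
  have ht0 : t ≠ 0 := by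
    intro h2
    rw [h2, mul_zero] at ht
    exact hδn ht
  set r := Algebra.norm K x / (t * c) with hr
  have hr2 : r * r = c := by
    rw [hr]
    rw [ht] at hnn
    field_simp
    linear_combination hnn
  have hr0 : r ≠ 0 := by
    intro h2
    rw [h2, mul_zero] at hr2
    exact hc0 hr2.symm
  have hrL : algebraMap K L r ≠ 0 := by
    rw [Ne, map_eq_zero]
    exact hr0
  apply hs
  refine ⟨x / algebraMap K L r, ?_⟩
  have hcr : algebraMap K L c = algebraMap K L r * algebraMap K L r := by rw [← map_mul, hr2]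
  rw [hcr] at hxx
  rw [div_mul_div_comm, hxx]
  field_simp

theorem fix_one {F : Type} [Field F] [Infinite F] {M N Q : Matrix (Fin 3) (Fin 3) F} {a b : F}
    (hM : M.det ≠ 0) (hc : ∀ x : F, (x • M - N).det = M.det * (x ^ 3 + a * x + b))
    (hr : ∀ x : F, x ^ 3 + a * x + b ≠ 0) (h1 : Qᵀ * M * Q = M) (h2 : Qᵀ * N * Q = N)
    {e : Fin 3 → F} (he : e ≠ 0) (hQ : Q.mulVec e = e) : Q = 1 := by
  have hMu : IsUnit M.det := isUnit_iff_ne_zero.2 hM
  set S := M⁻¹ * N with hS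
  have hMS : M * S = N := by
    rw [hS, ← Matrix.mul_assoc, Matrix.mul_nonsing_inv _ hMu, Matrix.one_mul]
  have hQd : Q.det ≠ 0 := by
    intro h0
    have h3 := congrArg Matrix.det h1
    rw [Matrix.det_mul, h0, mul_zero] at h3
    exact hM h3.symm
  have hcomm : S * Q = Q * S := by
    have hu : IsUnit (Qᵀ * M).det := by
      rw [Matrix.det_mul, Matrix.det_transpose]
      exact isUnit_iff_ne_zero.2 (mul_ne_zero hQd hM)
    have h3 : (Qᵀ * M) * (S * Q) = (Qᵀ * M) * (Q * S) := by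
      calc (Qᵀ * M) * (S * Q) = Qᵀ * (M * S) * Q := by simp only [Matrix.mul_assoc]
        _ = M * S := by rw [hMS, h2]
        _ = (Qᵀ * M * Q) * S := by rw [h1]
        _ = (Qᵀ * M) * (Q * S) := by simp only [Matrix.mul_assoc]
    calc S * Q = (Qᵀ * M)⁻¹ * ((Qᵀ * M) * (S * Q)) := by
          rw [← Matrix.mul_assoc, Matrix.nonsing_inv_mul _ hu, Matrix.one_mul]
      _ = (Qᵀ * M)⁻¹ * ((Qᵀ * M) * (Q * S)) := by rw [h3]
      _ = Q * S := by
          rw [← Matrix.mul_assoc, Matrix.nonsing_inv_mul _ hu, Matrix.one_mul]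
  have hchar : S.charpoly = Polynomial.X ^ 3 + Polynomial.C a * Polynomial.X + Polynomial.C b := by
    apply Polynomial.funext
    intro x
    rw [Matrix.eval_charpoly]
    have h3 : x • M - N = M * (Matrix.scalar (Fin 3) x - S) := by
      rw [Matrix.mul_sub, hMS]
      congr 1
      rw [Matrix.scalar_apply, ← Matrix.smul_one_eq_diagonal, Matrix.mul_smul, Matrix.mul_one]
    have h4 := hc x
    rw [h3, Matrix.det_mul] at h4
    rw [mul_left_cancel₀ hM h4]
    simp
  have hdeg : S.charpoly.natDegree = 3 := by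
    rw [Matrix.charpoly_natDegree_eq_dim, Fintype.card_fin]
  have hirr : Irreducible S.charpoly := by
    rw [Polynomial.irreducible_iff_roots_eq_zero_of_degree_le_three (by omega) (by omega)]
    rw [Multiset.eq_zero_iff_forall_notMem]
    intro x hx
    have h3 := (Polynomial.mem_roots'.1 hx).2
    rw [Polynomial.IsRoot.def, hchar] at h3
    apply hr x
    simpa using h3
  have hpow : ∀ j : ℕ, S ^ j * Q = Q * S ^ j := by
    intro j
    exact ((show Commute S Q from hcomm).pow_left j)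
  set R : Matrix (Fin 3) (Fin 3) F := Matrix.of (fun i j => ((S ^ (j : ℕ)).mulVec e) i) with hR
  have hQR : Q * R = R := by
    ext i j
    have h3 : (Q * R) i j = (Q.mulVec ((S ^ (j : ℕ)).mulVec e)) i := by
      rw [Matrix.mul_apply]
      rfl
    rw [h3, Matrix.mulVec_mulVec, ← hpow, ← Matrix.mulVec_mulVec, hQ]
    rfl
  have hRd : R.det ≠ 0 := by
    intro h3
    obtain ⟨v, hv, hRv⟩ := Matrix.exists_mulVec_eq_zero_iff.2 h3
    set p : Polynomial F := ∑ j : Fin 3, Polynomial.monomial (j : ℕ) (v j) with hp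
    have hcoef : ∀ j : Fin 3, p.coeff (j : ℕ) = v j := by
      intro j
      rw [hp, Polynomial.finset_sum_coeff]
      rw [Finset.sum_eq_single j]
      · rw [Polynomial.coeff_monomial, if_pos rfl]
      · intro k _ hk
        rw [Polynomial.coeff_monomial, if_neg]
        intro h4
        exact hk (Fin.ext h4)
      · intro h4
        exact absurd (Finset.mem_univ j) h4
    have hp0 : p ≠ 0 := by
      intro h4
      apply hv
      ext j
      rw [← hcoef j, h4]
      simp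
    have hpdeg : p.natDegree < 3 := by
      have h4 : p.natDegree ≤ 2 := by
        rw [hp]
        refine Polynomial.natDegree_sum_le_of_forall_le _ _ fun j _ => ?_
        refine (Polynomial.natDegree_monomial_le _).trans ?_
        have := j.isLt
        omega
      omega
    have hpe : (Polynomial.aeval S p).mulVec e = 0 := by
      rw [← hRv, hp, map_sum]
      ext i
      rw [Matrix.sum_mulVec, Finset.sum_apply]
      simp only [Matrix.mulVec, dotProduct, hR, Matrix.of_apply, Polynomial.aeval_monomial]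
      refine Finset.sum_congr rfl fun j _ => ?_
      rw [Finset.sum_mul]
      refine Finset.sum_congr rfl fun k _ => ?_
      rw [← Algebra.smul_def, Matrix.smul_apply, smul_eq_mul]
      ring
    have hcop : IsCoprime S.charpoly p := by
      rw [hirr.coprime_iff_not_dvd]
      intro h4
      have h5 := Polynomial.natDegree_le_of_dvd h4 hp0
      omega
    obtain ⟨u, w, huw⟩ := hcop
    have h4 := congrArg (fun q => (Polynomial.aeval S q).mulVec e) huw
    simp only [map_add, map_mul, Matrix.aeval_self_charpoly, mul_zero, zero_add, map_one,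
      Matrix.one_mulVec] at h4
    rw [← Matrix.mulVec_mulVec, hpe, Matrix.mulVec_zero] at h4
    exact he h4.symm
  have hRu : IsUnit R.det := isUnit_iff_ne_zero.2 hRd
  calc Q = Q * R * R⁻¹ := by rw [Matrix.mul_assoc, Matrix.mul_nonsing_inv _ hRu, Matrix.mul_one]
    _ = 1 := by rw [hQR, Matrix.mul_nonsing_inv _ hRu]

end H76PP

end S_H76_PP_Ed
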