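import Mathlib
import Pool.Agent.H10.Sha
import Pool.Agent.H38.T1.Df
import Pool.Agent.H38.T1.Ea
import Pool.Agent.H76.PN.A1
import Pool.Agent.H76.PN.A2

/-! This file joins several modules to save build time (A3). -/

set_option autoImplicit false

section S_H76_PP_Df1

set_option autoImplicit false
set_option linter.unusedSectionVars false
open scoped Classical

open WithZero NumberField IsDedekindDomain H38RT
open H38T1 (SC sc scu rep eo la si Pri OddP tp unif)

namespace H76PP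

/-- The product in `F[T] / (T^3 + a T + b)` in the basis `1, T, T^2`. -/
def m3 {F : Type*} [CommRing F] (a b : F) (u v : Fin 3 → F) : Fin 3 → F :=
  ![u 0 * v 0 - b * (u 1 * v 2 + u 2 * v 1),
    u 0 * v 1 + u 1 * v 0 - a * (u 1 * v 2 + u 2 * v 1) - b * (u 2 * v 2),
    u 0 * v 2 + u 1 * v 1 + u 2 * v 0 - a * (u 2 * v 2)]

/-- The local condition for the curve `y^2 = x^3 + a x + b` over the extension `F` of `K` on the
element `d 0 + d 1 θ + d 2 θ^2`: it is the class of `x - θ` for a point `(x, y)` over `F`, `y ≠ 0`. -/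
def LC {K F : Type*} [Field K] [Field F] (i : K →+* F) (a b : K) (d : Fin 3 → K) : Prop :=
  ∃ (x y : F) (z : Fin 3 → F), y ≠ 0 ∧ y ^ 2 = x ^ 3 + i a * x + i b ∧
    m3 (i a) (i b) (fun j => i (d j)) ![x, -1, 0] = m3 (i a) (i b) z z

/-- The element with given coordinates. -/
def ev {K L : Type*} [Field K] [Field L] [Algebra K L] (θ : L) (d : Fin 3 → K) : L :=
  algebraMap K L (d 0) + algebraMap K L (d 1) * θ + algebraMap K L (d 2) * θ ^ 2

/-- The two-Selmer group of `y^2 = x^3 + a x + b` is trivial (in terms of classes of `L`). -/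
def SelTriv (K L : Type) [Field K] [NumberField K] [Field L] [NumberField L] [Algebra K L]
    (a b : K) (θ : L) : Prop :=
  ∀ d : Fin 3 → K, ev θ d ≠ 0 → IsSquare (Algebra.norm K (ev θ d)) →
    (∀ v : HeightOneSpectrum (𝓞 K), LC (algebraMap K (v.adicCompletion K)) a b d) →
    (∀ s : K →+* ℝ, LC s a b d) → IsSquare (ev θ d)

/-- The map of square classes induced by a multiplicative map of fields. -/
noncomputable def scm {F F' : Type} [Field F] [Field F'] (f : F →* F') : SC F →+ SC F' :=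
  (MonoidHom.toAdditive (QuotientGroup.map (powMonoidHom 2 : Fˣ →* Fˣ).range
    (powMonoidHom 2 : F'ˣ →* F'ˣ).range (Units.map f) (by
    rintro x ⟨y, rfl⟩
    exact ⟨Units.map f y, by
      ext
      simp [powMonoidHom_apply]⟩)) :
    Additive (Fˣ ⧸ (powMonoidHom 2 : Fˣ →* Fˣ).range) →+
      Additive (F'ˣ ⧸ (powMonoidHom 2 : F'ˣ →* F'ˣ).range))

lemma scm_scu {F F' : Type} [Field F] [Field F'] (f : F →* F') (u : Additive Fˣ) :
    scm f (scu F u) = scu F' (Additive.ofMul (Units.map f (Additive.toMul u))) := rfl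

lemma scm_ne {F F' : Type} [Field F] [Field F'] (f : F →* F') {x : F} (hx : x ≠ 0) : f x ≠ 0 := by
  have h : IsUnit (f x) := (Units.mk0 x hx).isUnit.map f
  exact h.ne_zero

lemma scm_sc {F F' : Type} [Field F] [Field F'] (f : F →* F') {x : F} (hx : x ≠ 0) :
    scm f (sc x) = sc (f x) := by
  rw [H38T1.sc_of_ne hx, H38T1.sc_of_ne (scm_ne f hx), scm_scu]
  congr 1
  apply Additive.toMul.injective
  ext
  rfl

section Places

variable (K : Type) {L : Type} [Field K] [NumberField K] [Field L] [NumberField L] [Algebra K L]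

/-- The place of `K` below a place of `L`. -/
noncomputable def dn (w : HeightOneSpectrum (𝓞 L)) : HeightOneSpectrum (𝓞 K) where
  asIdeal := w.asIdeal.comap (algebraMap (𝓞 K) (𝓞 L))
  isPrime := w.isPrime.comap _
  ne_bot := by
    have h := w.isPrime
    exact Ideal.IsIntegral.comap_ne_bot (R := 𝓞 K) w.ne_bot

end Places

section Main

variable {K : Type} [Field K] [NumberField K]

/-- There is a nontrivial class of `L`, `L = K[x] / (x^3 + A x + B)`, of square norm, with even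
valuations and trivial at the primes above `T`. -/
def BadP (T : Finset (HeightOneSpectrum (𝓞 K))) (A B : 𝓞 K) : Prop :=
  ∃ (L : Type) (_ : Field L) (_ : NumberField L) (_ : Algebra K L) (θ : L) (c : SC L),
    Cub K L (A : K) (B : K) θ ∧ c ≠ 0 ∧ scm (Algebra.norm K : L →* K) c = 0 ∧
    (∀ w : HeightOneSpectrum (𝓞 L), eo w c = 0) ∧
    ∀ w : HeightOneSpectrum (𝓞 L), dn K w ∈ T → la w c = 0

/-- `p` is an auxiliary prime (relative to `q₀`): `p / q₀` has a generator which is congruent to one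
modulo eight and positive at the real places. -/
def AuxP (q₀ p : HeightOneSpectrum (𝓞 K)) : Prop :=
  (6 : 𝓞 K) ∉ p.asIdeal ∧ p ≠ q₀ ∧ ∃ D : K, D ≠ 0 ∧ p.valuation K D = exp (-1) ∧
    q₀.valuation K D = exp 1 ∧
    (∀ v : HeightOneSpectrum (𝓞 K), v ≠ p → v ≠ q₀ → v.valuation K D = 1) ∧
    (∀ v : HeightOneSpectrum (𝓞 K), v.valuation K 2 < 1 →
      v.valuation K (D - 1) ≤ v.valuation K 8) ∧ ∀ s : K →+* ℝ, 0 < s D

/-- `D` is a twisting factor for the set `J` of auxiliary primes. -/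
structure TwD (q₀ : HeightOneSpectrum (𝓞 K)) (J : Finset (HeightOneSpectrum (𝓞 K))) (D : K) :
    Prop where
  ne : D ≠ 0
  odd : ∀ v ∈ J, Odd (ord (v.valuation K) D)
  even : ∀ v : HeightOneSpectrum (𝓞 K), v ∉ J → v ≠ q₀ → Even (ord (v.valuation K) D)
  two : ∀ v : HeightOneSpectrum (𝓞 K), v.valuation K 2 < 1 → ∃ m : K, m ≠ 0 ∧
    v.valuation K (D * m ^ 2 - 1) ≤ v.valuation K 8
  pos : ∀ s : K →+* ℝ, 0 < s D

end Main

end H76PP

end S_H76_PP_Df1

section S_H76_PP_Fa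

set_option autoImplicit false
open scoped Classical

open WithZero NumberField IsDedekindDomain

namespace H76PP

theorem exists_place {K : Type} [Field K] [NumberField K] {q₀ : HeightOneSpectrum (𝓞 K)}
    {T : Finset (HeightOneSpectrum (𝓞 K))} {A B : 𝓞 K} (hF : Fam q₀ T A B) {L : Type} [Field L]
    [NumberField L] [Algebra K L] {θ : L} (h : Cub K L (A : K) (B : K) θ)
    (v : HeightOneSpectrum (𝓞 K)) {t : 𝓞 K} (ht : t ^ 3 + A * t + B ∈ v.asIdeal) :
    ∃ (w : HeightOneSpectrum (𝓞 L)) (χ : 𝓞 L →+* 𝓞 K ⧸ v.asIdeal), dn K w = v ∧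
      (∀ x : 𝓞 L, χ x = 0 ↔ x ∈ w.asIdeal) ∧
      (∀ a : 𝓞 K, χ (algebraMap (𝓞 K) (𝓞 L) a) = Ideal.Quotient.mk v.asIdeal a) ∧
      ∀ (x : 𝓞 L) (c : Fin 3 → 𝓞 K), (∀ i, h.co i (x : L) = (c i : K)) →
        χ x = Ideal.Quotient.mk v.asIdeal (c 0 + c 1 * t + c 2 * t ^ 2) := by
  have ka : ∀ x y : 𝓞 K, ((x + y : 𝓞 K) : K) = (x : K) + (y : K) := fun _ _ => rfl
  have ks : ∀ x y : 𝓞 K, ((x - y : 𝓞 K) : K) = (x : K) - (y : K) := fun _ _ => rfl
  have km : ∀ x y : 𝓞 K, ((x * y : 𝓞 K) : K) = (x : K) * (y : K) := fun _ _ => rfl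
  have la : ∀ x y : 𝓞 L, ((x + y : 𝓞 L) : L) = (x : L) + (y : L) := fun _ _ => rfl
  have lm : ∀ x y : 𝓞 L, ((x * y : 𝓞 L) : L) = (x : L) * (y : L) := fun _ _ => rfl
  have kz : ((0 : 𝓞 K) : K) = 0 := rfl
  choose c hc using fun x : 𝓞 L => int_coord hF h x
  have huniq : ∀ (x : 𝓞 L) (d : Fin 3 → 𝓞 K), (∀ i, h.co i (x : L) = (d i : K)) →
      ∀ i, c x i = d i := fun x d hd i => RingOfIntegers.ext ((hc x i).symm.trans (hd i))
  have hadd : ∀ (x y : 𝓞 L) (i : Fin 3), c (x + y) i = c x i + c y i := by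
    intro x y
    refine huniq (x + y) (fun i => c x i + c y i) (fun i => ?_)
    rw [ka, ← hc x i, ← hc y i, la, map_add]
  have hmul0 : ∀ x y : 𝓞 L, c (x * y) 0 =
      c x 0 * c y 0 - B * (c x 1 * c y 2 + c x 2 * c y 1) := by
    intro x y
    apply RingOfIntegers.ext
    have e := (h.co_mul (x : L) (y : L)).1
    rw [hc x, hc x, hc x, hc y, hc y, hc y] at e
    rw [← hc (x * y) 0, lm, e]
    simp only [ks, km, ka]
  have hmul1 : ∀ x y : 𝓞 L, c (x * y) 1 = c x 0 * c y 1 + c x 1 * c y 0 -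
      A * (c x 1 * c y 2 + c x 2 * c y 1) - B * (c x 2 * c y 2) := by
    intro x y
    apply RingOfIntegers.ext
    have e := (h.co_mul (x : L) (y : L)).2.1
    rw [hc x, hc x, hc x, hc y, hc y, hc y] at e
    rw [← hc (x * y) 1, lm, e]
    simp only [ks, km, ka]
  have hmul2 : ∀ x y : 𝓞 L, c (x * y) 2 = c x 0 * c y 2 + c x 1 * c y 1 + c x 2 * c y 0 -
      A * (c x 2 * c y 2) := by
    intro x y
    apply RingOfIntegers.ext
    have e := (h.co_mul (x : L) (y : L)).2.2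
    rw [hc x, hc x, hc x, hc y, hc y, hc y] at e
    rw [← hc (x * y) 2, lm, e]
    simp only [ks, km, ka]
  have halg : ∀ a : 𝓞 K, c (algebraMap (𝓞 K) (𝓞 L) a) 0 = a ∧
      c (algebraMap (𝓞 K) (𝓞 L) a) 1 = 0 ∧ c (algebraMap (𝓞 K) (𝓞 L) a) 2 = 0 := by
    intro a
    have e1 : ((algebraMap (𝓞 K) (𝓞 L) a : 𝓞 L) : L) = algebraMap K L (a : K) := rfl
    obtain ⟨b0, b1, b2⟩ := h.co_mk' (a : K) 0 0
    have hx : algebraMap K L (a : K) + algebraMap K L 0 * θ + algebraMap K L 0 * θ ^ 2 =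
        algebraMap K L (a : K) := by simp
    rw [hx] at b0 b1 b2
    refine ⟨RingOfIntegers.ext ?_, RingOfIntegers.ext ?_, RingOfIntegers.ext ?_⟩
    · rw [← hc, e1, b0]
    · rw [← hc, e1, b1, kz]
    · rw [← hc, e1, b2, kz]
  obtain ⟨χ, hχ⟩ : ∃ χ : 𝓞 L →+* 𝓞 K ⧸ v.asIdeal, ∀ x, χ x =
      Ideal.Quotient.mk v.asIdeal (c x 0 + c x 1 * t + c x 2 * t ^ 2) := by
    refine ⟨RingHom.mk' ⟨⟨fun x =>
        Ideal.Quotient.mk v.asIdeal (c x 0 + c x 1 * t + c x 2 * t ^ 2), ?_⟩, ?_⟩ ?_,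
        fun x => rfl⟩
    · obtain ⟨e0, e1, e2⟩ := halg 1
      rw [map_one (algebraMap (𝓞 K) (𝓞 L))] at e0 e1 e2
      rw [e0, e1, e2, zero_mul, zero_mul, add_zero, add_zero, map_one]
    · intro x y
      rw [← map_mul, Ideal.Quotient.eq, hmul0, hmul1, hmul2]
      have e : c x 0 * c y 0 - B * (c x 1 * c y 2 + c x 2 * c y 1) +
          (c x 0 * c y 1 + c x 1 * c y 0 - A * (c x 1 * c y 2 + c x 2 * c y 1) -
            B * (c x 2 * c y 2)) * t +
          (c x 0 * c y 2 + c x 1 * c y 1 + c x 2 * c y 0 - A * (c x 2 * c y 2)) * t ^ 2 -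
          (c x 0 + c x 1 * t + c x 2 * t ^ 2) * (c y 0 + c y 1 * t + c y 2 * t ^ 2) =
          (-((c x 1 * c y 2 + c x 2 * c y 1) + c x 2 * c y 2 * t)) * (t ^ 3 + A * t + B) := by
        ring
      rw [e]
      exact Ideal.mul_mem_left _ _ ht
    · intro x y
      show Ideal.Quotient.mk v.asIdeal (c (x + y) 0 + c (x + y) 1 * t + c (x + y) 2 * t ^ 2) =
        Ideal.Quotient.mk v.asIdeal (c x 0 + c x 1 * t + c x 2 * t ^ 2) +
        Ideal.Quotient.mk v.asIdeal (c y 0 + c y 1 * t + c y 2 * t ^ 2)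
      rw [← map_add, hadd, hadd, hadd]
      congr 1
      ring
  have hχa : ∀ a : 𝓞 K, χ (algebraMap (𝓞 K) (𝓞 L) a) = Ideal.Quotient.mk v.asIdeal a := by
    intro a
    obtain ⟨e0, e1, e2⟩ := halg a
    rw [hχ, e0, e1, e2, zero_mul, zero_mul, add_zero, add_zero]
  have hpr : (RingHom.ker χ).IsPrime := RingHom.ker_isPrime χ
  have hne : RingHom.ker χ ≠ ⊥ := by
    intro hbot
    obtain ⟨a, ha, ha0⟩ := Submodule.exists_mem_ne_zero_of_ne_bot v.ne_bot
    have h1 : algebraMap (𝓞 K) (𝓞 L) a ∈ RingHom.ker χ := by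
      rw [RingHom.mem_ker, hχa]
      exact Ideal.Quotient.eq_zero_iff_mem.2 ha
    rw [hbot, Ideal.mem_bot] at h1
    exact ha0 ((map_eq_zero_iff _ (FaithfulSMul.algebraMap_injective (𝓞 K) (𝓞 L))).1 h1)
  refine ⟨⟨RingHom.ker χ, hpr, hne⟩, χ, ?_, fun x => RingHom.mem_ker.symm, hχa, ?_⟩
  · apply HeightOneSpectrum.ext
    ext a
    show algebraMap (𝓞 K) (𝓞 L) a ∈ RingHom.ker χ ↔ a ∈ v.asIdeal
    rw [RingHom.mem_ker, hχa, Ideal.Quotient.eq_zero_iff_mem]
  · intro x d hd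
    rw [hχ, huniq x d hd, huniq x d hd, huniq x d hd]

end H76PP

end S_H76_PP_Fa

section S_H76_PP_Fb

set_option autoImplicit false
open scoped Classical

open WithZero NumberField IsDedekindDomain H38RT
open H38T1 (SC sc scu rep eo la si Pri OddP tp unif)

namespace H76PP

theorem isSquare_res {L : Type} [Field L] [NumberField L] {w : HeightOneSpectrum (𝓞 L)}
    (hw : OddP w) {k : Type} [Field k] (χ : 𝓞 L →+* k) (hχ : ∀ x, x ∈ w.asIdeal → χ x = 0)
    {z δ x : 𝓞 L} (hδ : δ ≠ 0) (hz : z ∉ w.asIdeal) (hx : x ^ 2 = z * δ)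
    (hla : la w (sc (δ : L)) = 0) : IsSquare (χ z) := by
  have hz0 : z ≠ 0 := by
    rintro rfl
    exact hz (Ideal.zero_mem _)
  have hzL : (z : L) ≠ 0 := by simpa using hz0
  have hδL : (δ : L) ≠ 0 := by simpa using hδ
  have hVz : w.valuation L (z : L) = 1 := by
    have h2 : w.valuation L (z : L) = w.intValuation z := w.valuation_of_algebraMap z
    have h3 : ¬ w.intValuation z < 1 := fun h4 => hz ((w.intValuation_lt_one_iff_mem z).mp h4)
    rw [h2]
    exact le_antisymm (w.intValuation_le_one z) (not_lt.mp h3)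
  have hxL : (z : L) * (δ : L) = (x : L) * (x : L) := by
    have h8 := congrArg (algebraMap (𝓞 L) L) hx
    rw [map_mul, map_pow, sq] at h8
    exact h8.symm
  have hsc : sc ((z : L) * (δ : L)) = 0 :=
    (H38T1.sc_eq_zero (mul_ne_zero hzL hδL)).2 ⟨(x : L), hxL⟩
  rw [H38T1.sc_mul hzL hδL] at hsc
  have h1 : la w (sc (z : L) + sc (δ : L)) = 0 := by
    rw [hsc]
    exact H38T1.la_zero hw
  rw [H38T1.la_add hw, hla, add_zero, H38T1.la_sc hw hzL, lam_unit hVz] at h1
  have hSq : Sq (w.valuation L) (z : L) := by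
    by_contra hcon
    rw [if_neg hcon] at h1
    exact one_ne_zero h1
  obtain ⟨s, hs⟩ := hSq
  have hs1 : w.valuation L s ≤ 1 := by
    have h2 : w.valuation L (s ^ 2) ≤ 1 := by
      have h3 : s ^ 2 = (z : L) - ((z : L) - s ^ 2) := by ring
      rw [h3]
      refine (Valuation.map_sub _ _ _).trans (max_le hVz.le hs.le)
    rw [map_pow] at h2
    exact (pow_le_one_iff two_ne_zero).1 h2
  obtain ⟨a, ha⟩ := w.exists_valuation_sub_lt_of_integer hs1 1
  have ha' : w.valuation L ((a : L) - s) < 1 := by simpa using ha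
  have haL : w.valuation L (a : L) ≤ 1 := w.valuation_le_one a
  have h4 : w.valuation L ((z : L) - (a : L) ^ 2) < 1 := by
    have h3 : (z : L) - (a : L) ^ 2 = ((z : L) - s ^ 2) - ((a : L) - s) * ((a : L) + s) := by ring
    rw [h3]
    refine (Valuation.map_sub _ _ _).trans_lt (max_lt hs ?_)
    rw [map_mul]
    have h5 : w.valuation L ((a : L) + s) ≤ 1 :=
      (Valuation.map_add _ _ _).trans (max_le haL hs1)
    exact (mul_le_of_le_one_right' h5).trans_lt ha'
  have h5 : z - a ^ 2 ∈ w.asIdeal := by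
    have h6 : (algebraMap (𝓞 L) L) (z - a ^ 2) = (z : L) - (a : L) ^ 2 := by
      rw [map_sub, map_pow]
    rw [← h6] at h4
    exact (HeightOneSpectrum.valuation_lt_one_iff_mem (K := L) w (z - a ^ 2)).mp h4
  have h6 := hχ _ h5
  rw [map_sub, map_pow, sub_eq_zero, sq] at h6
  exact ⟨χ a, h6⟩

end H76PP

end S_H76_PP_Fb

section S_H76_PP_Fd

set_option autoImplicit false
open scoped Classical

open WithZero NumberField IsDedekindDomain H38RT
open scoped Matrix
open H38T1 (SC sc scu rep eo la si Pri OddP tp unif)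

namespace H76PP

theorem Fd_lin {K L : Type} [Field K] [Field L] [Algebra K L] {A B : K} {θ : L}
    (h : Cub K L A B θ) {e : Fin 3 → L} (he : LinearIndependent K e) (z₀ : L) (c : Fin 3 → K)
    (t : K) : algebraMap K L (Mx h e z₀).det * ((θ - algebraMap K L t) * ∑ i, c i • e i) =
      ∑ j, ((Mx h e z₀).adjugate.mulVec
        ((Nx h e z₀).mulVec c - t • (Mx h e z₀).mulVec c)) j • e j := by
  have hfin : Module.Finite K L := Module.Finite.of_basis h.basis
  have h1 : Submodule.span K (Set.range e) = ⊤ := by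
    apply he.span_eq_top_of_card_eq_finrank'
    rw [h.finrank, Fintype.card_fin]
  obtain ⟨E, hE⟩ : ∃ E : L, E = ∑ i, c i • e i := ⟨_, rfl⟩
  obtain ⟨d, hd⟩ := (Submodule.mem_span_range_iff_exists_fun K).1
    (show (θ - algebraMap K L t) * E ∈ Submodule.span K (Set.range e) by
      rw [h1]
      exact Submodule.mem_top)
  have h2 : (Mx h e z₀).mulVec d = (Nx h e z₀).mulVec c - t • (Mx h e z₀).mulVec c := by
    funext j
    rw [(Mx_mulVec h e z₀ d j).1, hd, Pi.sub_apply, Pi.smul_apply, (Mx_mulVec h e z₀ c j).1,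
      (Mx_mulVec h e z₀ c j).2, ← hE]
    have h3 : (θ - algebraMap K L t) * E * e j * z₀ = θ * (E * e j * z₀) - t • (E * e j * z₀) := by
      rw [Algebra.smul_def]
      ring
    rw [h3, map_sub, map_smul]
  rw [← h2, Matrix.mulVec_mulVec, Matrix.adjugate_mul, Matrix.smul_mulVec, Matrix.one_mulVec, ← hE,
    ← hd, Finset.mul_sum]
  refine Finset.sum_congr rfl fun j _ => ?_
  rw [Pi.smul_apply, smul_eq_mul, mul_smul, Algebra.smul_def (Mx h e z₀).det]

theorem Fd_four {k : Type} [Field k] (h2 : (2 : k) ≠ 0) (h3 : (3 : k) ≠ 0) :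
    ∃ S : Finset k, 4 ≤ S.card := by
  refine ⟨{0, 1, -1, 2}, ?_⟩
  have e1 : (0 : k) ≠ 1 := zero_ne_one
  have e2 : (0 : k) ≠ -1 := fun h => one_ne_zero (neg_eq_zero.1 h.symm)
  have e3 : (0 : k) ≠ 2 := h2.symm
  have e4 : (1 : k) ≠ -1 := by
    intro h
    apply h2
    linear_combination h
  have e5 : (1 : k) ≠ 2 := by
    intro h
    have : (1 : k) = 0 := by linear_combination -h
    exact one_ne_zero this
  have e6 : (-1 : k) ≠ 2 := by
    intro h
    apply h3
    linear_combination -h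
  rw [Finset.card_insert_of_notMem, Finset.card_insert_of_notMem, Finset.card_insert_of_notMem,
    Finset.card_singleton]
  · rw [Finset.mem_singleton]
    exact e6
  · rw [Finset.mem_insert, Finset.mem_singleton]
    rintro (h | h)
    · exact e4 h
    · exact e5 h
  · rw [Finset.mem_insert, Finset.mem_insert, Finset.mem_singleton]
    rintro (h | h | h)
    · exact e1 h
    · exact e2 h
    · exact e3 h

theorem Fd_main {K : Type} [Field K] [NumberField K] {q₀ : HeightOneSpectrum (𝓞 K)}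
    {T : Finset (HeightOneSpectrum (𝓞 K))} {A B : 𝓞 K} (hF : Fam q₀ T A B) {L : Type} [Field L]
    [NumberField L] [Algebra K L] {θ : L} (h : Cub K L (A : K) (B : K) θ) {δ : 𝓞 L} (hδ : δ ≠ 0)
    {I : Ideal (𝓞 L)} (hI : I ^ 2 = Ideal.span {δ}) {e : Fin 3 → 𝓞 L} (heI : ∀ i, e i ∈ I)
    (hli : LinearIndependent K (fun i => (e i : L))) {M N : Matrix (Fin 3) (Fin 3) (𝓞 K)}
    (hM : ∀ i j, (M i j : K) = Mx h (fun i => (e i : L)) (δ : L)⁻¹ i j)
    (hN : ∀ i j, (N i j : K) = Nx h (fun i => (e i : L)) (δ : L)⁻¹ i j)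
    (hchar : ∀ x : 𝓞 K, (x • M - N).det = M.det * (x ^ 3 + A * x + B))
    {v : HeightOneSpectrum (𝓞 K)} (h6 : (6 : 𝓞 K) ∉ v.asIdeal) (hdet : M.det ∉ v.asIdeal)
    {t : 𝓞 K} (ht : t ^ 3 + A * t + B ∈ v.asIdeal)
    (hts : ∀ s : 𝓞 K, -3 * t ^ 2 - 4 * A - s ^ 2 ∉ v.asIdeal)
    {k : Type} [Field k] (π : 𝓞 K →+* k) (hπ : ∀ x, π x = 0 ↔ x ∈ v.asIdeal)
    (hs : Function.Surjective π) {w : HeightOneSpectrum (𝓞 L)} (hw : OddP w)
    (hlw : la w (sc (δ : L)) = 0) (χ : 𝓞 L →+* k) (hχ0 : ∀ x, x ∈ w.asIdeal → χ x = 0)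
    (hχ : ∀ (x : 𝓞 L) (c : Fin 3 → 𝓞 K), (∀ i, h.co i (x : L) = (c i : K)) →
        χ x = π (c 0 + c 1 * t + c 2 * t ^ 2)) : Rs (M.map π) (N.map π) := by
  have hpr := v.isPrime
  have hp2 : (2 : k) ≠ 0 := by
    intro h2
    apply h6
    rw [← hπ, show (6 : 𝓞 K) = 2 * 3 by norm_num, map_mul, map_ofNat, h2, zero_mul]
  have hp3 : (3 : k) ≠ 0 := by
    intro h2
    apply h6
    rw [← hπ, show (6 : 𝓞 K) = 2 * 3 by norm_num, map_mul, map_ofNat π 3, h2, mul_zero]
  have hsq : ¬ IsSquare (-3 * (π t) ^ 2 - 4 * π A) := by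
    rintro ⟨r, hr⟩
    obtain ⟨s, rfl⟩ := hs r
    apply hts s
    rw [← hπ, map_sub, map_sub, map_mul, map_mul, map_pow, map_pow, map_neg, map_ofNat, map_ofNat,
      hr]
    ring
  have h3t : 3 * (π t) ^ 2 + π A ≠ 0 := by
    intro h0
    apply hsq
    refine ⟨3 * π t, ?_⟩
    linear_combination -4 * h0
  have hmd : ∀ P : Matrix (Fin 3) (Fin 3) (𝓞 K), (P.map π).det = π P.det := fun P =>
    (RingHom.map_det π P).symm
  have hchar' : ∀ x : k, (x • M.map π - N.map π).det =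
      (M.map π).det * (x ^ 3 + π A * x + π B) := by
    intro x
    obtain ⟨x, rfl⟩ := hs x
    have h1 : π x • M.map π - N.map π = (x • M - N).map π := by
      ext i j
      simp
    rw [h1, hmd, hmd, hchar, map_mul, map_add, map_add, map_mul, map_pow]
  have hsing : (π t • M.map π - N.map π).det = 0 := by
    rw [hchar']
    have h1 := (hπ _).2 ht
    rw [map_add, map_add, map_mul, map_pow] at h1
    rw [h1, mul_zero]
  obtain ⟨eb, heb0, heb⟩ := Matrix.exists_mulVec_eq_zero_iff.2 hsing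
  choose c hc using fun i => hs (eb i)
  have hceb : π ∘ c = eb := funext hc
  have hNM : (N.map π).mulVec eb = π t • (M.map π).mulVec eb := by
    rw [Matrix.sub_mulVec, Matrix.smul_mulVec, sub_eq_zero] at heb
    exact heb.symm
  have hMs : M.IsSymm := by
    ext i j
    rw [Matrix.transpose_apply, hM, hM]
    exact (Mx_symm h _ _).apply i j
  have hNs : N.IsSymm := by
    ext i j
    rw [Matrix.transpose_apply, hN, hN]
    exact (Nx_symm h _ _).apply i j
  have hMs' : (M.map π).IsSymm := by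
    ext i j
    rw [Matrix.transpose_apply, Matrix.map_apply, Matrix.map_apply, hMs.apply]
  have hNs' : (N.map π).IsSymm := by
    ext i j
    rw [Matrix.transpose_apply, Matrix.map_apply, Matrix.map_apply, hNs.apply]
  have hdet' : (M.map π).det ≠ 0 := by
    rw [hmd]
    exact fun h1 => hdet ((hπ _).1 h1)
  obtain ⟨S, hS⟩ := Fd_four hp2 hp3
  have hne := eig_ne S hS hMs' hNs' hdet' hchar' heb0 hNM h3t
  refine ⟨π A, π B, π t, eb, heb0, hchar', hNM, hsq, hne, ?_⟩
  -- the integers E, z, y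
  have hδL : (δ : L) ≠ 0 := fun h0 => hδ (RingOfIntegers.ext (by
    rw [h0]
    exact (map_zero (algebraMap (𝓞 L) L)).symm))
  obtain ⟨E, hE⟩ : ∃ E : 𝓞 L, E = ∑ i, algebraMap (𝓞 K) (𝓞 L) (c i) * e i := ⟨_, rfl⟩
  have hEI : E ∈ I := by
    rw [hE]
    exact I.sum_mem fun i _ => I.mul_mem_left _ (heI i)
  have hEL : (E : L) = ∑ i, (c i : K) • (e i : L) := by
    rw [hE]
    change algebraMap (𝓞 L) L (∑ i, algebraMap (𝓞 K) (𝓞 L) (c i) * e i) = _
    rw [map_sum]
    refine Finset.sum_congr rfl fun i _ => ?_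
    rw [map_mul, Algebra.smul_def]
    rfl
  obtain ⟨z, hz⟩ : ∃ z, E ^ 2 = δ * z := by
    have h1 := Ideal.pow_mem_pow hEI 2
    rw [hI, Ideal.mem_span_singleton] at h1
    exact h1
  have hy : ∀ j, ∃ y, E * e j = δ * y := by
    intro j
    have h1 := Ideal.mul_mem_mul hEI (heI j)
    rw [← pow_two, hI, Ideal.mem_span_singleton] at h1
    exact h1
  choose y hy using hy
  have hzL : (z : L) = (E : L) * (E : L) * (δ : L)⁻¹ := by
    have h1 := congrArg (algebraMap (𝓞 L) L) hz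
    rw [map_pow, map_mul] at h1
    rw [← pow_two, eq_mul_inv_iff_mul_eq₀ hδL, mul_comm]
    exact h1.symm
  have hyL : ∀ j, (y j : L) = (E : L) * (e j : L) * (δ : L)⁻¹ := by
    intro j
    have h1 := congrArg (algebraMap (𝓞 L) L) (hy j)
    rw [map_mul, map_mul] at h1
    rw [eq_mul_inv_iff_mul_eq₀ hδL, mul_comm]
    exact h1.symm
  obtain ⟨zc, hzc⟩ := int_coord hF h z
  choose yc hyc using fun j => int_coord hF h (y j)
  have hMx : Mx h (fun i => (e i : L)) (δ : L)⁻¹ = M.map (algebraMap (𝓞 K) K) := by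
    ext i j
    exact (hM i j).symm
  have hNx : Nx h (fun i => (e i : L)) (δ : L)⁻¹ = N.map (algebraMap (𝓞 K) K) := by
    ext i j
    exact (hN i j).symm
  -- the last coordinate of z
  have hz2 : c ⬝ᵥ M.mulVec c = zc 2 := by
    apply RingOfIntegers.ext
    have h1 := Mx_quad h (fun i => (e i : L)) (δ : L)⁻¹ (fun i => (c i : K))
    rw [← hEL, ← hzL, hzc, hMx] at h1
    rw [← h1]
    have h2 := RingHom.map_dotProduct (algebraMap (𝓞 K) K) c (M.mulVec c)
    refine h2.trans ?_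
    have h3 : (algebraMap (𝓞 K) K ∘ M.mulVec c) =
        (M.map (algebraMap (𝓞 K) K)).mulVec (algebraMap (𝓞 K) K ∘ c) :=
      funext fun i => RingHom.map_mulVec (algebraMap (𝓞 K) K) M c i
    rw [h3]
    rfl
  have hz2' : eb ⬝ᵥ (M.map π).mulVec eb = π (zc 2) := by
    rw [← hz2, ← hceb]
    refine ((RingHom.map_dotProduct π c (M.mulVec c)).trans ?_).symm
    congr 1
    funext i
    exact RingHom.map_mulVec π M c i
  -- the vector r
  have hr : ∀ j, (N.mulVec c - t • M.mulVec c) j ∈ v.asIdeal := by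
    intro j
    rw [← hπ, Pi.sub_apply, Pi.smul_apply, smul_eq_mul, map_sub, map_mul, RingHom.map_mulVec,
      RingHom.map_mulVec, hceb, hNM]
    simp
  have hg : ∀ j, (M.adjugate.mulVec (N.mulVec c - t • M.mulVec c)) j ∈ v.asIdeal := by
    intro j
    rw [Matrix.mulVec, dotProduct]
    exact v.asIdeal.sum_mem fun i _ => v.asIdeal.mul_mem_left _ (hr i)
  have hlin := Fd_lin h hli (δ : L)⁻¹ (fun i => (c i : K)) (t : K)
  rw [hMx, hNx] at hlin
  have hcoef : ∀ j, ((M.map (algebraMap (𝓞 K) K)).adjugate.mulVec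
      ((N.map (algebraMap (𝓞 K) K)).mulVec (fun i => (c i : K)) -
        (t : K) • (M.map (algebraMap (𝓞 K) K)).mulVec (fun i => (c i : K)))) j =
      ((M.adjugate.mulVec (N.mulVec c - t • M.mulVec c)) j : K) := by
    intro j
    have h1 : (M.map (algebraMap (𝓞 K) K)).adjugate = M.adjugate.map (algebraMap (𝓞 K) K) :=
      (RingHom.map_adjugate (algebraMap (𝓞 K) K) M).symm
    have h2 : (N.map (algebraMap (𝓞 K) K)).mulVec (fun i => (c i : K)) -
        (t : K) • (M.map (algebraMap (𝓞 K) K)).mulVec (fun i => (c i : K)) =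
        algebraMap (𝓞 K) K ∘ (N.mulVec c - t • M.mulVec c) := by
      funext i
      have e1 := RingHom.map_mulVec (algebraMap (𝓞 K) K) M c i
      have e2 := RingHom.map_mulVec (algebraMap (𝓞 K) K) N c i
      rw [Function.comp_apply, Pi.sub_apply, Pi.sub_apply, Pi.smul_apply, Pi.smul_apply, map_sub,
        smul_eq_mul, smul_eq_mul, map_mul, e1, e2]
      rfl
    rw [h1, h2]
    exact (RingHom.map_mulVec (algebraMap (𝓞 K) K) M.adjugate _ j).symm
  have hmdK : (M.map (algebraMap (𝓞 K) K)).det = (M.det : K) :=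
    (RingHom.map_det (algebraMap (𝓞 K) K) M).symm
  rw [hmdK, ← hEL] at hlin
  simp only [hcoef] at hlin
  have hlin2 : (M.det : K) • ((θ - algebraMap K L (t : K)) * (z : L)) =
      ∑ j, ((M.adjugate.mulVec (N.mulVec c - t • M.mulVec c)) j : K) • (y j : L) := by
    rw [Algebra.smul_def, hzL]
    calc algebraMap K L (M.det : K) * ((θ - algebraMap K L (t : K)) * ((E : L) * (E : L) * (δ : L)⁻¹))
        = (algebraMap K L (M.det : K) * ((θ - algebraMap K L (t : K)) * (E : L))) *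
          ((E : L) * (δ : L)⁻¹) := by ring
      _ = _ := by
        rw [hlin, Finset.sum_mul]
        refine Finset.sum_congr rfl fun j _ => ?_
        rw [hyL, smul_mul_assoc]
        congr 1
        ring
  have hco : ∀ i, (M.det : K) * h.co i ((θ - algebraMap K L (t : K)) * (z : L)) =
      ∑ j, ((M.adjugate.mulVec (N.mulVec c - t • M.mulVec c)) j : K) * (yc j i : K) := by
    intro i
    have h1 := congrArg (h.co i) hlin2
    rw [map_smul, map_sum, smul_eq_mul] at h1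
    rw [h1]
    refine Finset.sum_congr rfl fun j _ => ?_
    rw [map_smul, smul_eq_mul, hyc]
  have hmem : ∀ (i : Fin 3) (q : 𝓞 K),
      h.co i ((θ - algebraMap K L (t : K)) * (z : L)) = (q : K) → q ∈ v.asIdeal := by
    intro i q hq
    have h1 := hco i
    rw [hq] at h1
    have h2 : M.det * q = ∑ j, (M.adjugate.mulVec (N.mulVec c - t • M.mulVec c)) j * yc j i := by
      apply RingOfIntegers.coe_injective
      rw [map_mul, map_sum]
      simp only [map_mul]
      exact h1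
    have h3 : M.det * q ∈ v.asIdeal := by
      rw [h2]
      exact v.asIdeal.sum_mem fun j _ => v.asIdeal.mul_mem_right _ (hg j)
    exact (hpr.mem_or_mem h3).resolve_left hdet
  obtain ⟨t0, t1, t2⟩ := h.co_theta
  obtain ⟨m0, m1, m2⟩ := h.co_mul θ (z : L)
  have hsplit : (θ - algebraMap K L (t : K)) * (z : L) = θ * (z : L) - (t : K) • (z : L) := by
    rw [Algebra.smul_def]
    ring
  have hq1 : zc 0 - A * zc 2 - t * zc 1 ∈ v.asIdeal := by
    apply hmem 1
    rw [hsplit, map_sub, map_smul, m1, t0, t1, t2, hzc, hzc, hzc, smul_eq_mul]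
    simp only [map_sub, map_mul]
    ring
  have hq2 : zc 1 - t * zc 2 ∈ v.asIdeal := by
    apply hmem 2
    rw [hsplit, map_sub, map_smul, m2, t0, t1, t2, hzc, hzc, hzc, smul_eq_mul]
    simp only [map_sub, map_mul]
    ring
  have hχz := hχ z zc hzc
  have k1 := (hπ _).2 hq1
  have k2 := (hπ _).2 hq2
  rw [map_sub, map_sub, map_mul, map_mul] at k1
  rw [map_sub, map_mul] at k2
  rw [map_add, map_add, map_mul, map_mul, map_pow] at hχz
  have hfin : (eb ⬝ᵥ (M.map π).mulVec eb) * (3 * (π t) ^ 2 + π A) = χ z := by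
    rw [hχz, hz2']
    linear_combination -k1 - 2 * π t * k2
  rw [hfin]
  by_cases hzw : z ∈ w.asIdeal
  · rw [hχ0 z hzw]
    exact ⟨0, (mul_zero 0).symm⟩
  · exact isSquare_res hw χ hχ0 hδ hzw (hz.trans (mul_comm _ _)) hlw

theorem res_cond {K : Type} [Field K] [NumberField K] {q₀ : HeightOneSpectrum (𝓞 K)}
    {T : Finset (HeightOneSpectrum (𝓞 K))} {A B : 𝓞 K} (hF : Fam q₀ T A B) {L : Type} [Field L]
    [NumberField L] [Algebra K L] {θ : L} (h : Cub K L (A : K) (B : K) θ) {δ : 𝓞 L} (hδ : δ ≠ 0)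
    {I : Ideal (𝓞 L)} (hI : I ^ 2 = Ideal.span {δ}) {e : Fin 3 → 𝓞 L} (heI : ∀ i, e i ∈ I)
    (hli : LinearIndependent K (fun i => (e i : L))) {M N : Matrix (Fin 3) (Fin 3) (𝓞 K)}
    (hM : ∀ i j, (M i j : K) = Mx h (fun i => (e i : L)) (δ : L)⁻¹ i j)
    (hN : ∀ i j, (N i j : K) = Nx h (fun i => (e i : L)) (δ : L)⁻¹ i j)
    (hchar : ∀ x : 𝓞 K, (x • M - N).det = M.det * (x ^ 3 + A * x + B))
    {v : HeightOneSpectrum (𝓞 K)} (hv : v ∈ T) (h6 : (6 : 𝓞 K) ∉ v.asIdeal)
    (hla : ∀ w : HeightOneSpectrum (𝓞 L), dn K w = v → la w (sc (δ : L)) = 0)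
    (hdet : M.det ∉ v.asIdeal) : Rs (rd v M) (rd v N) := by
  obtain ⟨t, ht, hts⟩ := hF.typ v hv
  obtain ⟨w, χ, hdn, hχ0, -, hχ⟩ := exists_place hF h v ht
  have hw : OddP w := by
    have h2 : (2 : 𝓞 L) ∉ w.asIdeal := by
      intro h2
      have h3 : (2 : 𝓞 K) ∈ v.asIdeal := by
        rw [← hdn]
        change algebraMap (𝓞 K) (𝓞 L) 2 ∈ w.asIdeal
        rw [map_ofNat]
        exact h2
      apply h6
      rw [show (6 : 𝓞 K) = 3 * 2 by norm_num]
      exact v.asIdeal.mul_mem_left _ h3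
    have h3 := (HeightOneSpectrum.valuation_eq_one_iff_notMem (K := L) w (r := (2 : 𝓞 L))).2 h2
    unfold H38T1.OddP
    have h4 : algebraMap (𝓞 L) L 2 = 2 := map_ofNat _ 2
    rw [h4] at h3
    exact h3
  exact Fd_main hF h hδ hI heI hli hM hN hchar h6 hdet ht hts (Ideal.Quotient.mk v.asIdeal)
    (fun x => Ideal.Quotient.eq_zero_iff_mem) Ideal.Quotient.mk_surjective hw (hla w hdn) χ
    (fun x hx => (hχ0 x).2 hx) hχ

end H76PP

end S_H76_PP_Fd

section S_H76_PP_Fe

set_option autoImplicit false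
open scoped Classical

open WithZero NumberField IsDedekindDomain H38RT
open scoped Matrix
open H38T1 (SC sc scu rep eo la si Pri OddP tp unif)

namespace H76PP

theorem Fam.no_root {K : Type} [Field K] [NumberField K] {q₀ : HeightOneSpectrum (𝓞 K)}
    {T : Finset (HeightOneSpectrum (𝓞 K))} {A B : 𝓞 K} (hF : Fam q₀ T A B) (x : K) :
    x ^ 3 + (A : K) * x + (B : K) ≠ 0 := by
  intro hx
  have hint : IsIntegral (𝓞 K) x := by
    refine ⟨Polynomial.X ^ 3 + (Polynomial.C A * Polynomial.X + Polynomial.C B), ?_, ?_⟩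
    · refine Polynomial.monic_X_pow_add ?_
      exact lt_of_le_of_lt Polynomial.degree_linear_le (by norm_num)
    · simp only [Polynomial.eval₂_add, Polynomial.eval₂_pow, Polynomial.eval₂_X,
        Polynomial.eval₂_mul, Polynomial.eval₂_C]
      rw [← hx]
      ring
  obtain ⟨t, ht⟩ := IsIntegrallyClosed.isIntegral_iff.1 hint
  refine hF.irr t ?_
  have h0 : t ^ 3 + A * t + B = 0 := by
    apply RingOfIntegers.coe_injective
    push_cast
    change (algebraMap (𝓞 K) K t) ^ 3 + (A : K) * (algebraMap (𝓞 K) K t) + (B : K) = 0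
    rw [ht]
    exact hx
  rw [h0]
  exact Ideal.zero_mem _

lemma Fe_rep {L : Type} [Field L] [NumberField L] (c : SC L) :
    ∃ δ : 𝓞 L, δ ≠ 0 ∧ sc (δ : L) = c := by
  obtain ⟨x, hx, rfl⟩ := H38T1.sc_surj c
  obtain ⟨a, b, hb, rfl⟩ := IsFractionRing.div_surjective (A := 𝓞 L) x
  have hb0 : b ≠ 0 := nonZeroDivisors.ne_zero hb
  have ha0 : a ≠ 0 := by
    rintro rfl
    apply hx
    simp
  have haK : (a : L) ≠ 0 := RingOfIntegers.coe_ne_zero_iff.mpr ha0
  have hbK : (b : L) ≠ 0 := RingOfIntegers.coe_ne_zero_iff.mpr hb0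
  refine ⟨a * b, mul_ne_zero ha0 hb0, ?_⟩
  have h1 : ((a * b : 𝓞 L) : L) = ((a : L) / (b : L)) * (b : L) ^ 2 := by
    push_cast
    field_simp
  rw [h1, H38T1.sc_mul (div_ne_zero haK hbK) (pow_ne_zero 2 hbK)]
  have h2 : sc ((b : L) ^ 2) = 0 := (H38T1.sc_eq_zero (pow_ne_zero 2 hbK)).2 ⟨(b : L), sq _⟩
  rw [h2, add_zero]

lemma Fe_sq {L : Type} [Field L] [NumberField L] {δ : 𝓞 L} (hδ : δ ≠ 0)
    (hev : ∀ w : HeightOneSpectrum (𝓞 L), eo w (sc (δ : L)) = 0) :
    ∃ I : Ideal (𝓞 L), I ^ 2 = Ideal.span {δ} := by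
  have hI : Ideal.span {δ} ≠ 0 := by
    rw [Ideal.zero_eq_bot, Ne, Ideal.span_singleton_eq_bot]; exact hδ
  have hδL : (δ : L) ≠ 0 := RingOfIntegers.coe_ne_zero_iff.mpr hδ
  obtain ⟨u, hu⟩ := Multiset.exists_smul_of_dvd_count
    (UniqueFactorizationMonoid.normalizedFactors (Ideal.span {δ})) (k := 2)
    (by
      intro P hP
      have hirr := UniqueFactorizationMonoid.irreducible_of_normalized_factor P hP
      have hpr : Prime P := hirr.prime
      have hev' := hev ⟨P, Ideal.isPrime_of_prime hpr, hpr.ne_zero⟩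
      set w : HeightOneSpectrum (𝓞 L) := ⟨P, Ideal.isPrime_of_prime hpr, hpr.ne_zero⟩ with hw
      rw [H38T1.eo_sc hδL] at hev'
      have h3 := w.intValuation_eq_exp_neg_multiplicity hδ
      rw [← w.valuation_of_algebraMap (K := L)] at h3
      unfold ord at hev'
      change ((-log (w.valuation L (algebraMap (𝓞 L) L δ)) : ℤ) : ZMod 2) = 0 at hev'
      rw [h3, log_exp, neg_neg] at hev'
      have h4 : ((multiplicity w.asIdeal (Ideal.span {δ}) : ℕ) : ZMod 2) = 0 := by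
        exact_mod_cast hev'
      have h5 : 2 ∣ multiplicity P (Ideal.span {δ}) := (ZMod.natCast_eq_zero_iff _ _).1 h4
      rwa [UniqueFactorizationMonoid.multiplicity_eq_count_normalizedFactors hirr hI,
        normalize_eq] at h5)
  refine ⟨u.prod, ?_⟩
  rw [← Multiset.prod_nsmul, ← hu]
  exact Ideal.prod_normalizedFactors_eq_self hI

theorem exists_dat (K : Type) [Field K] [NumberField K] : ∃ C₂ : ℝ, 1 ≤ C₂ ∧
    ∀ (q₀ : HeightOneSpectrum (𝓞 K)) (T : Finset (HeightOneSpectrum (𝓞 K))),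
      (∀ v ∈ T, (6 : 𝓞 K) ∉ v.asIdeal) → ∀ (A B : 𝓞 K) (X : ℝ), 0 ≤ X → (A, B) ∈ Bx K X →
      Fam q₀ T A B → BadP T A B →
      ∃ (l : Fin 3 → ℝ) (M N : Matrix (Fin 3) (Fin 3) (𝓞 K)), Dat X C₂ T A B l M N := by
  obtain ⟨C₂, hC₂, hred⟩ := reduce K
  refine ⟨C₂, hC₂, ?_⟩
  intro q₀ T hT A B X hX hAB hF hbad
  obtain ⟨L, _, _, _, θ, c, hcub, hc0, hcn, hce, hcl⟩ := hbad
  obtain ⟨δ, hδ, hδc⟩ := Fe_rep c
  have hδL : (δ : L) ≠ 0 := RingOfIntegers.coe_ne_zero_iff.mpr hδ
  obtain ⟨I, hI⟩ := Fe_sq hδ (fun w => by rw [hδc]; exact hce w)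
  have hns : ¬ IsSquare (δ : L) := by
    rw [← H38T1.sc_eq_zero hδL, hδc]
    exact hc0
  have hNs : IsSquare (Algebra.norm K (δ : L)) := by
    have h1 : scm (Algebra.norm K : L →* K) (sc (δ : L)) = 0 := by rw [hδc]; exact hcn
    rw [scm_sc _ hδL] at h1
    exact (H38T1.sc_eq_zero (scm_ne _ hδL)).1 h1
  have hd := hF.dsc_ne
  obtain ⟨e, heI, hli, l, hl, le01, le12, hprod⟩ := hred L A B θ hcub hd δ I hδ hI
  have hy : ∀ i j, ∃ y : 𝓞 L, (e i : L) * (e j : L) * (δ : L)⁻¹ = (y : L) := by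
    intro i j
    have h1 : e i * e j ∈ Ideal.span {δ} := by
      rw [← hI, sq]
      exact Ideal.mul_mem_mul (heI i) (heI j)
    obtain ⟨y, hy⟩ := Ideal.mem_span_singleton.1 h1
    refine ⟨y, ?_⟩
    have h2 : (e i : L) * (e j : L) = (δ : L) * (y : L) := by
      have := congrArg (algebraMap (𝓞 L) L) hy
      rw [map_mul, map_mul] at this
      exact this
    rw [h2]
    field_simp
  have hM' : ∀ i j, ∃ m : 𝓞 K, (m : K) = Mx hcub (fun i => (e i : L)) (δ : L)⁻¹ i j := by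
    intro i j
    obtain ⟨y, hy⟩ := hy i j
    obtain ⟨cc, hcc⟩ := int_coord hF hcub y
    refine ⟨cc 2, ?_⟩
    rw [← hcc 2, ← hy]
    rfl
  obtain ⟨tθ, htθ⟩ := theta_int hcub
  have hN' : ∀ i j, ∃ m : 𝓞 K, (m : K) = Nx hcub (fun i => (e i : L)) (δ : L)⁻¹ i j := by
    intro i j
    obtain ⟨y, hy⟩ := hy i j
    obtain ⟨cc, hcc⟩ := int_coord hF hcub (tθ * y)
    refine ⟨cc 2, ?_⟩
    rw [← hcc 2]
    have h3 : ((tθ * y : 𝓞 L) : L) = θ * ((e i : L) * (e j : L) * (δ : L)⁻¹) := by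
      rw [hy, ← htθ]
      push_cast
      rfl
    rw [h3]
    rfl
  choose M₀ hM₀ using hM'
  choose N₀ hN₀ using hN'
  set M : Matrix (Fin 3) (Fin 3) (𝓞 K) := Matrix.of M₀ with hMdef
  set N : Matrix (Fin 3) (Fin 3) (𝓞 K) := Matrix.of N₀ with hNdef
  have hM : ∀ i j, (M i j : K) = Mx hcub (fun i => (e i : L)) (δ : L)⁻¹ i j := hM₀
  have hN : ∀ i j, (N i j : K) = Nx hcub (fun i => (e i : L)) (δ : L)⁻¹ i j := hN₀
  have hinj : Function.Injective (algebraMap (𝓞 K) K) := RingOfIntegers.coe_injective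
  have hMm : M.map (algebraMap (𝓞 K) K) = Mx hcub (fun i => (e i : L)) (δ : L)⁻¹ := by
    ext i j
    exact hM i j
  have hNm : N.map (algebraMap (𝓞 K) K) = Nx hcub (fun i => (e i : L)) (δ : L)⁻¹ := by
    ext i j
    exact hN i j
  have hdetM : algebraMap (𝓞 K) K M.det = (Mx hcub (fun i => (e i : L)) (δ : L)⁻¹).det := by
    rw [← hMm, RingHom.map_det]
    rfl
  have hMne := Mx_det hcub hli (inv_ne_zero hδL)
  have hchar : ∀ x : 𝓞 K, (x • M - N).det = M.det * (x ^ 3 + A * x + B) := by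
    intro x
    apply hinj
    rw [RingHom.map_det, map_mul, hdetM]
    have h4 : (algebraMap (𝓞 K) K).mapMatrix (x • M - N) =
        algebraMap (𝓞 K) K x • Mx hcub (fun i => (e i : L)) (δ : L)⁻¹ -
          Nx hcub (fun i => (e i : L)) (δ : L)⁻¹ := by
      rw [← hMm, ← hNm]
      ext i j
      change algebraMap (𝓞 K) K (x * M i j - N i j) =
        algebraMap (𝓞 K) K x * algebraMap (𝓞 K) K (M i j) - algebraMap (𝓞 K) K (N i j)
      rw [map_sub, map_mul]
    rw [h4, Mx_char]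
    simp only [map_add, map_mul, map_pow]
  refine ⟨l, M, N, ?_⟩
  refine ⟨?_, le01, le12, hprod, ?_, ?_, ?_, ?_, ?_, hchar, ?_, ?_, ?_⟩
  · -- pos
    rw [hl 0, Real.sqrt_pos]
    unfold qw
    refine Finset.sum_pos (fun τ _ => ?_) Finset.univ_nonempty
    have h5 : (e 0 : L) ≠ 0 := hli.ne_zero 0
    have h6 : τ (e 0 : L) ≠ 0 := (map_ne_zero τ).2 h5
    have h7 : τ (δ : L) ≠ 0 := (map_ne_zero τ).2 hδL
    have h8 : τ (3 * θ ^ 2 + algebraMap K L (A : K)) ≠ 0 := (map_ne_zero τ).2 (hcub.der_ne hd)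
    unfold wt
    have h6' : 0 < ‖τ (e 0 : L)‖ := norm_pos_iff.2 h6
    have h7' : 0 < ‖τ (δ : L)‖ := norm_pos_iff.2 h7
    have h8' : 0 < ‖τ (3 * θ ^ 2 + algebraMap K L (A : K))‖ := norm_pos_iff.2 h8
    positivity
  · -- symM
    ext i j
    have h9 := congrFun (congrFun (Mx_symm hcub (fun i => (e i : L)) (δ : L)⁻¹) i) j
    rw [Matrix.transpose_apply] at h9 ⊢
    rw [hM j i, hM i j]
    exact h9
  · -- symN
    ext i j
    have h9 := congrFun (congrFun (Nx_symm hcub (fun i => (e i : L)) (δ : L)⁻¹) i) j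
    rw [Matrix.transpose_apply] at h9 ⊢
    rw [hN j i, hN i j]
    exact h9
  · -- detM
    intro h0
    apply hMne
    rw [← hdetM, h0, map_zero]
  · -- bdM
    intro s i j
    rw [hM i j, hl i, hl j]
    exact mx_bound hcub hd hδL s (e i : L) (e j : L)
  · -- bdN
    intro s i j
    rw [hN i j, hl i, hl j]
    exact nx_bound hcub hd hX hAB.1 hAB.2 hδL s (e i : L) (e j : L)
  · -- red
    intro h00 hN0
    have h10 : hcub.co 2 ((e 0 : L) * (e 0 : L) * (δ : L)⁻¹) = 0 := by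
      have := hM 0 0
      rw [h00] at this
      exact this.symm.trans (map_zero (algebraMap (𝓞 K) K))
    refine hcub.red hδL (hli.ne_zero 0) hNs hns h10 ?_
    have := hN 0 0
    rw [hN0] at this
    exact this.symm.trans (map_zero (algebraMap (𝓞 K) K))
  · -- fix
    rintro Q hQM hQN ⟨v, hv, hQv⟩
    have hinf : Infinite K := Infinite.of_injective ((↑) : ℕ → K) Nat.cast_injective
    set Q' := (algebraMap (𝓞 K) K).mapMatrix Q with hQ'
    have hMm' : (algebraMap (𝓞 K) K).mapMatrix M = Mx hcub (fun i => (e i : L)) (δ : L)⁻¹ := hMm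
    have hNm' : (algebraMap (𝓞 K) K).mapMatrix N = Nx hcub (fun i => (e i : L)) (δ : L)⁻¹ := hNm
    have hQT : Q'ᵀ = (algebraMap (𝓞 K) K).mapMatrix Qᵀ := rfl
    have hfix := fix_one (F := K) (M := Mx hcub (fun i => (e i : L)) (δ : L)⁻¹)
      (N := Nx hcub (fun i => (e i : L)) (δ : L)⁻¹) (Q := Q') (a := (A : K)) (b := (B : K))
      (e := fun i => (v i : K)) hMne (fun x => Mx_char _ _ _ x) (hF.no_root)
      (by rw [← hMm', hQT, hQ', ← map_mul, ← map_mul, hQM])
      (by rw [← hNm', hQT, hQ', ← map_mul, ← map_mul, hQN])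
      (by
        intro h0
        apply hv
        refine funext (fun i => ?_)
        have := congrFun h0 i
        have h15 : algebraMap (𝓞 K) K (v i) = algebraMap (𝓞 K) K 0 := by
          rw [map_zero]; exact this
        exact hinj h15)
      (by
        ext i
        have h11 := congrFun hQv i
        have h12 := congrArg (algebraMap (𝓞 K) K) h11
        change (Q'.mulVec fun i => (v i : K)) i = algebraMap (𝓞 K) K (v i)
        rw [← h12]
        simp [hQ', Matrix.mulVec, dotProduct, Matrix.map_apply])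
    have h13 : (algebraMap (𝓞 K) K).mapMatrix Q = (algebraMap (𝓞 K) K).mapMatrix 1 := by
      rw [map_one]; exact hfix
    exact Matrix.map_injective hinj h13
  · -- res
    intro v hv hdet
    exact res_cond hF hcub hδ hI heI hli hM hN hchar hv (hT v hv)
      (fun w hw => by rw [hδc]; exact hcl w (by rw [hw]; exact hv)) hdet

end H76PP

end S_H76_PP_Fe
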