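import Mathlib
import Pool.Agent.H76.PN.A1
import Pool.Agent.H76.PN.A3

/-! This file joins several modules to save build time (A4). -/

set_option autoImplicit false

section S_H76_PP_Ta

set_option autoImplicit false
set_option linter.unusedSectionVars false
open scoped Classical

open WithZero NumberField IsDedekindDomain H38RT
open H38T1 (SC sc scu rep eo la si Pri OddP tp unif)

namespace H76PP

variable {K L : Type} [Field K] [NumberField K] [Field L] [NumberField L] [Algebra K L]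

private theorem Ta_int (x : 𝓞 K) : algebraMap K L (algebraMap (𝓞 K) K x) =
    algebraMap (𝓞 L) L (algebraMap (𝓞 K) (𝓞 L) x) := rfl

private theorem Ta_inj : Function.Injective (algebraMap (𝓞 K) (𝓞 L)) := by
  intro x y h
  have h1 : algebraMap K L (algebraMap (𝓞 K) K x) = algebraMap K L (algebraMap (𝓞 K) K y) := by
    rw [Ta_int, Ta_int, h]
  exact RingOfIntegers.coe_injective ((algebraMap K L).injective h1)

private theorem Ta_mem (w : HeightOneSpectrum (𝓞 L)) (a : 𝓞 K) :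
    a ∈ (dn K w).asIdeal ↔ algebraMap (𝓞 K) (𝓞 L) a ∈ w.asIdeal := Iff.rfl

private theorem Ta_le {w : HeightOneSpectrum (𝓞 L)} {x : K} (h : (dn K w).valuation K x ≤ 1) :
    w.valuation L (algebraMap K L x) ≤ 1 := by
  obtain ⟨n, ⟨d, hd⟩, hnd⟩ := (dn K w).exists_primeCompl_mul_eq_of_integer x h
  have hd' : algebraMap (𝓞 K) (𝓞 L) d ∉ w.asIdeal := fun h' => hd ((Ta_mem w d).2 h')
  have h1 : w.valuation L (algebraMap (𝓞 L) L (algebraMap (𝓞 K) (𝓞 L) d)) = 1 :=
    (w.valuation_eq_one_iff_notMem (K := L)).2 hd'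
  have h2 : w.valuation L (algebraMap (𝓞 L) L (algebraMap (𝓞 K) (𝓞 L) n)) ≤ 1 :=
    w.valuation_le_one _
  have h3 : algebraMap K L x * algebraMap (𝓞 L) L (algebraMap (𝓞 K) (𝓞 L) d) =
      algebraMap (𝓞 L) L (algebraMap (𝓞 K) (𝓞 L) n) := by
    rw [← Ta_int, ← Ta_int, ← map_mul]
    exact congrArg (algebraMap K L) hnd
  rw [← h3, map_mul, h1, mul_one] at h2
  exact h2

private theorem Ta_one {w : HeightOneSpectrum (𝓞 L)} {x : K} (h : (dn K w).valuation K x = 1) :
    w.valuation L (algebraMap K L x) = 1 := by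
  have h1 := Ta_le (w := w) h.le
  have h2 : (dn K w).valuation K x⁻¹ ≤ 1 := by rw [map_inv₀, h, inv_one]
  have h3 := Ta_le (w := w) h2
  have hx : x ≠ 0 := by
    rintro rfl
    rw [map_zero] at h
    exact zero_ne_one h
  have h4 : w.valuation L (algebraMap K L x) * w.valuation L (algebraMap K L x⁻¹) = 1 := by
    rw [← map_mul, ← map_mul, mul_inv_cancel₀ hx, map_one, map_one]
  refine le_antisymm h1 ?_
  calc (1 : WithZero (Multiplicative ℤ)) =
      w.valuation L (algebraMap K L x) * w.valuation L (algebraMap K L x⁻¹) := h4.symm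
    _ ≤ w.valuation L (algebraMap K L x) * 1 := mul_le_mul_right h3 _
    _ = _ := mul_one _

private theorem Ta_unif (w : HeightOneSpectrum (𝓞 L)) : ∃ ϖ : K, ϖ ≠ 0 ∧
    (dn K w).valuation K ϖ = exp (-1 : ℤ) ∧ w.valuation L (algebraMap K L ϖ) < 1 := by
  obtain ⟨r, hr⟩ := (dn K w).valuation_exists_uniformizer' K
  refine ⟨algebraMap (𝓞 K) K r, ?_, hr, ?_⟩
  · intro h0
    have h1 : (dn K w).valuation K (algebraMap (𝓞 K) K r) = exp (-1 : ℤ) := hr
    rw [h0, map_zero] at h1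
    exact exp_ne_zero h1.symm
  · have h1 : (dn K w).valuation K (algebraMap (𝓞 K) K r) < 1 := by
      have h2 : (dn K w).valuation K (algebraMap (𝓞 K) K r) = exp (-1 : ℤ) := hr
      rw [h2, ← exp_zero, exp_lt_exp]
      norm_num
    have h3 : r ∈ (dn K w).asIdeal := ((dn K w).valuation_lt_one_iff_mem (K := K) r).1 h1
    rw [Ta_int]
    exact (w.valuation_lt_one_iff_mem (K := L) _).2 ((Ta_mem w r).1 h3)

private theorem Ta_eq {F : Type} [Field F] {V : Valuation F (WithZero (Multiplicative ℤ))} {x : F}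
    (hx : x ≠ 0) : V x = exp (- ord V x) := by
  unfold ord
  rw [neg_neg, exp_log ((Valuation.ne_zero_iff V).2 hx)]

theorem ord_dn (w : HeightOneSpectrum (𝓞 L)) : ∃ e : ℕ, 0 < e ∧ ∀ x : K, x ≠ 0 →
    ord (w.valuation L) (algebraMap K L x) = e * ord ((dn K w).valuation K) x := by
  obtain ⟨ϖ, h0, h1, h2⟩ := Ta_unif (K := K) w
  have hL0 : algebraMap K L ϖ ≠ 0 := fun h => h0 ((algebraMap K L).injective (by rw [h, map_zero]))
  have hw0 : w.valuation L (algebraMap K L ϖ) ≠ 0 := (Valuation.ne_zero_iff _).2 hL0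
  have hpos : 0 < ord (w.valuation L) (algebraMap K L ϖ) := by
    unfold ord
    rw [← exp_zero, ← log_lt_iff_lt_exp hw0] at h2
    omega
  obtain ⟨e, he⟩ := Int.eq_ofNat_of_zero_le hpos.le
  refine ⟨e, by omega, ?_⟩
  intro x hx
  obtain ⟨m, hm⟩ : ∃ m : ℤ, m = ord ((dn K w).valuation K) x := ⟨_, rfl⟩
  have hϖm : ϖ ^ m ≠ 0 := zpow_ne_zero m h0
  have h3 : (dn K w).valuation K (x / ϖ ^ m) = 1 := by
    rw [map_div₀, map_zpow₀, h1, Ta_eq (V := (dn K w).valuation K) hx, ← hm]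
    have h4 : (exp (-1 : ℤ) : WithZero (Multiplicative ℤ)) ^ m = exp (-m) := by
      rw [← exp_zsmul]
      congr 1
      simp
    rw [h4, div_self exp_ne_zero]
  have h5 := Ta_one (w := w) h3
  rw [map_div₀, map_div₀, map_zpow₀, map_zpow₀,
    div_eq_one_iff_eq (zpow_ne_zero m hw0)] at h5
  rw [← hm, ← he]
  unfold ord
  rw [h5, log_zpow, smul_eq_mul]
  ring

theorem val_le {w : HeightOneSpectrum (𝓞 L)} {x : K} (h : (dn K w).valuation K x ≤ 1) :
    w.valuation L (algebraMap K L x) ≤ 1 := by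
  exact Ta_le h

theorem val_lt {w : HeightOneSpectrum (𝓞 L)} {x : K} (h : (dn K w).valuation K x < 1) :
    w.valuation L (algebraMap K L x) < 1 := by
  obtain ⟨ϖ, h0, h1, h2⟩ := Ta_unif (K := K) w
  have hL0 : algebraMap K L ϖ ≠ 0 := fun h => h0 ((algebraMap K L).injective (by rw [h, map_zero]))
  by_cases hx : x = 0
  · rw [hx, map_zero, map_zero]
    exact zero_lt_one
  have h3 : (dn K w).valuation K (x / ϖ) ≤ 1 := by
    rw [map_div₀, h1, Ta_eq (V := (dn K w).valuation K) hx, ← exp_sub, ← exp_zero, exp_le_exp]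
    rw [Ta_eq (V := (dn K w).valuation K) hx, ← exp_zero, exp_lt_exp] at h
    omega
  have h4 := Ta_le (w := w) h3
  have h5 : algebraMap K L x = algebraMap K L (x / ϖ) * algebraMap K L ϖ := by
    rw [← map_mul, div_mul_cancel₀ x h0]
  rw [h5, map_mul]
  calc w.valuation L (algebraMap K L (x / ϖ)) * w.valuation L (algebraMap K L ϖ) ≤
      1 * w.valuation L (algebraMap K L ϖ) := mul_le_mul_left h4 _
    _ = w.valuation L (algebraMap K L ϖ) := one_mul _
    _ < 1 := h2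

theorem val_one {w : HeightOneSpectrum (𝓞 L)} {x : K} (h : (dn K w).valuation K x = 1) :
    w.valuation L (algebraMap K L x) = 1 := by
  exact Ta_one h

theorem val_exp_le {w : HeightOneSpectrum (𝓞 L)} {x : K} {m : ℤ} (hm : 0 ≤ m)
    (h : (dn K w).valuation K x ≤ exp (-m)) : w.valuation L (algebraMap K L x) ≤ exp (-m) := by
  by_cases hx : x = 0
  · rw [hx, map_zero, map_zero]
    exact zero_le
  obtain ⟨e, he, h1⟩ := ord_dn (K := K) w
  have hL0 : algebraMap K L x ≠ 0 := fun h => hx ((algebraMap K L).injective (by rw [h, map_zero]))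
  rw [Ta_eq (V := (dn K w).valuation K) hx, exp_le_exp] at h
  rw [Ta_eq (V := w.valuation L) hL0, exp_le_exp, h1 x hx]
  have he' : (1 : ℤ) ≤ e := by exact_mod_cast he
  nlinarith

theorem oddP_dn {w : HeightOneSpectrum (𝓞 L)} : OddP w ↔ OddP (dn K w) := by
  have h2 : algebraMap K L (2 : K) = 2 := map_ofNat _ 2
  unfold OddP
  constructor
  · intro h
    by_contra h1
    have h3 : (dn K w).valuation K (2 : K) ≤ 1 := by
      have h4 : (dn K w).valuation K (algebraMap (𝓞 K) K 2) ≤ 1 :=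
        (dn K w).valuation_le_one (K := K) (2 : 𝓞 K)
      have h5 : algebraMap (𝓞 K) K 2 = 2 := map_ofNat (algebraMap (𝓞 K) K) 2
      rwa [h5] at h4
    have h6 := val_lt (w := w) (lt_of_le_of_ne h3 h1)
    rw [h2, h] at h6
    exact lt_irrefl _ h6
  · intro h
    have h3 := Ta_one (w := w) h
    rwa [h2] at h3

theorem exists_above (v : HeightOneSpectrum (𝓞 K)) :
    ∃ w : HeightOneSpectrum (𝓞 L), dn K w = v := by
  have hp := v.isPrime
  obtain ⟨Q, -, hQ, hQc⟩ := Ideal.exists_ideal_over_prime_of_isIntegral (S := 𝓞 L) v.asIdeal ⊥ (by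
    intro x hx
    rw [Ideal.mem_comap, Ideal.mem_bot] at hx
    have h1 : x = 0 := Ta_inj (L := L) (by rw [hx, map_zero])
    rw [h1]
    exact v.asIdeal.zero_mem)
  refine ⟨⟨Q, hQ, ?_⟩, ?_⟩
  · rintro rfl
    apply v.ne_bot
    rw [← hQc, eq_bot_iff]
    intro x hx
    rw [Ideal.mem_comap, Ideal.mem_bot] at hx
    exact Ta_inj (L := L) (by rw [hx, map_zero])
  · apply HeightOneSpectrum.ext
    exact hQc

theorem fin_above (v : HeightOneSpectrum (𝓞 K)) :
    {w : HeightOneSpectrum (𝓞 L) | dn K w = v}.Finite := by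
  have hb : v.asIdeal.map (algebraMap (𝓞 K) (𝓞 L)) ≠ 0 := by
    intro h
    exact v.ne_bot ((Ideal.map_eq_bot_iff_of_injective (Ta_inj (K := K) (L := L))).1 h)
  refine (Ideal.finite_factors hb).subset ?_
  intro w hw
  have hw' : dn K w = v := hw
  show w.asIdeal ∣ _
  rw [Ideal.dvd_iff_le, Ideal.map_le_iff_le_comap, ← hw']
  exact le_rfl

end H76PP

end S_H76_PP_Ta

section S_H76_PP_Tb

set_option autoImplicit false
set_option linter.unusedSectionVars false
open scoped Classical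

open WithZero NumberField IsDedekindDomain H38RT
open H38T1 (SC sc scu rep eo la si Pri OddP tp unif)

namespace H76PP

variable {K L : Type} [Field K] [NumberField K] [Field L] [NumberField L] [Algebra K L]

private theorem Tb_mul (v : HeightOneSpectrum (𝓞 K)) {I J : Ideal (𝓞 K)} (hI : I ≠ 0) (hJ : J ≠ 0) :
    (multiplicity v.asIdeal (I * J) : ℤ) = multiplicity v.asIdeal I + multiplicity v.asIdeal J := by
  rw [multiplicity_mul v.prime (FiniteMultiplicity.of_prime_left v.prime (mul_ne_zero hI hJ))]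
  push_cast
  rfl

private theorem Tb_prime (v w : HeightOneSpectrum (𝓞 K)) (n : ℕ) :
    (multiplicity v.asIdeal (w.asIdeal ^ n) : ℤ) = if w = v then (n : ℤ) else 0 := by
  split_ifs with h
  · rw [h, multiplicity_pow_self_of_prime v.prime]
  · rw [Nat.cast_eq_zero, multiplicity_eq_zero]
    intro h1
    have h2 := v.prime.dvd_of_dvd_pow h1
    apply h
    have h3 := (Prime.dvd_prime_iff_associated v.prime w.prime).1 h2
    rw [associated_iff_eq] at h3
    exact (HeightOneSpectrum.ext h3).symm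

private theorem Tb_rel (w : HeightOneSpectrum (𝓞 L)) :
    Ideal.relNorm (𝓞 K) w.asIdeal = (dn K w).asIdeal ^ (w.asIdeal.inertiaDeg (𝓞 K)) := by
  have h1 : w.asIdeal.IsMaximal := w.isMaximal
  have h2 : (dn K w).asIdeal.IsMaximal := (dn K w).isMaximal
  have h3 : w.asIdeal.LiesOver (dn K w).asIdeal := ⟨rfl⟩
  exact Ideal.relNorm_eq_pow_of_isMaximal w.asIdeal (dn K w).asIdeal

private theorem Tb_main (v : HeightOneSpectrum (𝓞 K)) (J : Ideal (𝓞 L)) (hJ : J ≠ 0) :
    (multiplicity v.asIdeal (Ideal.relNorm (𝓞 K) J) : ℤ) =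
      ∑ w ∈ (fin_above (L := L) v).toFinset,
        (w.asIdeal.inertiaDeg (𝓞 K) : ℤ) * multiplicity w.asIdeal J := by
  revert hJ
  refine UniqueFactorizationMonoid.induction_on_prime
    (P := fun J : Ideal (𝓞 L) => J ≠ 0 →
      (multiplicity v.asIdeal (Ideal.relNorm (𝓞 K) J) : ℤ) =
      ∑ w ∈ (fin_above (L := L) v).toFinset,
        (w.asIdeal.inertiaDeg (𝓞 K) : ℤ) * multiplicity w.asIdeal J) J ?_ ?_ ?_
  · intro h
    exact absurd rfl h
  · intro I hI _
    have h1 : I = ⊤ := Ideal.isUnit_iff.1 hI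
    subst h1
    rw [Ideal.relNorm_top]
    have h2 : ∀ w : HeightOneSpectrum (𝓞 L), multiplicity w.asIdeal (⊤ : Ideal (𝓞 L)) = 0 := by
      intro w
      rw [multiplicity_eq_zero, ← Ideal.one_eq_top]
      intro h3
      exact w.prime.not_isUnit (isUnit_of_dvd_one h3)
    have h3 : multiplicity v.asIdeal (⊤ : Ideal (𝓞 K)) = 0 := by
      rw [multiplicity_eq_zero, ← Ideal.one_eq_top]
      intro h3
      exact v.prime.not_isUnit (isUnit_of_dvd_one h3)
    rw [h3, Finset.sum_eq_zero]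
    · rfl
    · intro w _
      rw [h2 w]
      simp
  · intro I P hI hP ih h
    let w0 : HeightOneSpectrum (𝓞 L) := ⟨P, Ideal.isPrime_of_prime hP, hP.ne_zero⟩
    have hw0 : w0.asIdeal = P := rfl
    rw [map_mul, Tb_mul v _ _, ih hI, ← hw0, Tb_rel, Tb_prime]
    · have h1 : ∀ w : HeightOneSpectrum (𝓞 L), (multiplicity w.asIdeal (w0.asIdeal * I) : ℤ) =
          (if w0 = w then (1 : ℤ) else 0) + multiplicity w.asIdeal I := by
        intro w
        rw [Tb_mul w hP.ne_zero hI]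
        have h2 := Tb_prime w w0 1
        rw [pow_one] at h2
        rw [h2]
        push_cast
        rfl
      have h4 : ∀ w : HeightOneSpectrum (𝓞 L),
          (w.asIdeal.inertiaDeg (𝓞 K) : ℤ) * multiplicity w.asIdeal (w0.asIdeal * I) =
          (if w0 = w then (w.asIdeal.inertiaDeg (𝓞 K) : ℤ) else 0) +
            (w.asIdeal.inertiaDeg (𝓞 K) : ℤ) * multiplicity w.asIdeal I := by
        intro w
        rw [h1 w, mul_add, mul_ite, mul_one, mul_zero]
      have h5 : w0 ∈ (fin_above (L := L) v).toFinset ↔ dn K w0 = v := by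
        rw [Set.Finite.mem_toFinset]
        exact Iff.rfl
      rw [Finset.sum_congr rfl (fun w _ => h4 w), Finset.sum_add_distrib, Finset.sum_ite_eq]
      simp only [h5]
    · intro h3
      exact hP.ne_zero (Ideal.relNorm_eq_bot_iff.1 h3)
    · intro h3
      exact hI (Ideal.relNorm_eq_bot_iff.1 h3)

private theorem Tb_ord (v : HeightOneSpectrum (𝓞 K)) (x : 𝓞 K) (hx : x ≠ 0) :
    ord (v.valuation K) (x : K) = multiplicity v.asIdeal (Ideal.span {x}) := by
  have h1 : v.valuation K (x : K) = v.intValuation x := v.valuation_of_algebraMap x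
  unfold ord
  rw [h1, v.intValuation_eq_exp_neg_multiplicity hx, log_exp, neg_neg]

private theorem Tb_int (v : HeightOneSpectrum (𝓞 K)) (x : 𝓞 L) (hx : x ≠ 0) :
    ord (v.valuation K) (Algebra.norm K (x : L)) =
      ∑ w ∈ (fin_above (L := L) v).toFinset,
        (w.asIdeal.inertiaDeg (𝓞 K) : ℤ) * ord (w.valuation L) (x : L) := by
  have h1 : Algebra.norm K (x : L) = ((Algebra.intNorm (𝓞 K) (𝓞 L) x : 𝓞 K) : K) :=
    (Algebra.algebraMap_intNorm (A := 𝓞 K) (K := K) (L := L) (B := 𝓞 L) x).symm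
  have h2 : Algebra.intNorm (𝓞 K) (𝓞 L) x ≠ 0 := by
    rw [Ne, Algebra.intNorm_eq_zero]
    exact hx
  rw [h1, Tb_ord v _ h2, ← Ideal.relNorm_singleton, Tb_main v _ (by
    rw [Ne, Ideal.zero_eq_bot, Ideal.span_singleton_eq_bot]
    exact hx)]
  refine Finset.sum_congr rfl fun w _ => ?_
  rw [Tb_ord w x hx]

private theorem Tb_div (v : HeightOneSpectrum (𝓞 K)) {x y : K} (hx : x ≠ 0) (hy : y ≠ 0) :
    ord (v.valuation K) (x / y) = ord (v.valuation K) x - ord (v.valuation K) y := by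
  have h1 := ord_mul (V := v.valuation K) (div_ne_zero hx hy) hy
  rw [div_mul_cancel₀ x hy] at h1
  rw [h1]
  ring

theorem ord_norm (v : HeightOneSpectrum (𝓞 K)) {u : L} (hu : u ≠ 0) :
    ord (v.valuation K) (Algebra.norm K u) =
      ∑ᶠ w : {w : HeightOneSpectrum (𝓞 L) // dn K w = v},
        (w.1.asIdeal.inertiaDeg (𝓞 K) : ℤ) * ord (w.1.valuation L) u := by
  have h0 : ∑ᶠ w : {w : HeightOneSpectrum (𝓞 L) // dn K w = v},
        (w.1.asIdeal.inertiaDeg (𝓞 K) : ℤ) * ord (w.1.valuation L) u =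
      ∑ w ∈ (fin_above (L := L) v).toFinset,
        (w.asIdeal.inertiaDeg (𝓞 K) : ℤ) * ord (w.valuation L) u := by
    rw [← finsum_mem_eq_finite_toFinset_sum (fun w : HeightOneSpectrum (𝓞 L) =>
      (w.asIdeal.inertiaDeg (𝓞 K) : ℤ) * ord (w.valuation L) u) (fin_above (L := L) v)]
    exact finsum_set_coe_eq_finsum_mem {w : HeightOneSpectrum (𝓞 L) | dn K w = v}
      (f := fun w => (w.asIdeal.inertiaDeg (𝓞 K) : ℤ) * ord (w.valuation L) u)
  rw [h0]
  obtain ⟨x, y, hy, rfl⟩ := IsFractionRing.div_surjective (A := 𝓞 L) u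
  have hy0 : y ≠ 0 := nonZeroDivisors.ne_zero hy
  have hx0 : x ≠ 0 := by
    rintro rfl
    apply hu
    simp
  have hxL : (x : L) ≠ 0 := by
    simpa using hx0
  have hyL : (y : L) ≠ 0 := by
    simpa using hy0
  have h1 := Tb_int v x hx0
  have h2 := Tb_int v y hy0
  have hNx : Algebra.norm K (x : L) ≠ 0 := by
    rw [Algebra.norm_ne_zero_iff]
    exact hxL
  have hNy : Algebra.norm K (y : L) ≠ 0 := by
    rw [Algebra.norm_ne_zero_iff]
    exact hyL
  have hdiv : Algebra.norm K ((x : L) / (y : L)) =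
      Algebra.norm K (x : L) / Algebra.norm K (y : L) := by
    rw [eq_div_iff hNy, ← map_mul, div_mul_cancel₀ _ hyL]
  change ord (v.valuation K) (Algebra.norm K ((x : L) / (y : L))) = _
  rw [hdiv, Tb_div v hNx hNy, h1, h2, ← Finset.sum_sub_distrib]
  refine Finset.sum_congr rfl fun w _ => ?_
  rw [Tb_div w hxL hyL]
  ring

end H76PP

end S_H76_PP_Tb

section S_H76_PP_Tc

set_option autoImplicit false
set_option linter.unusedSectionVars false
open scoped Classical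

open WithZero NumberField IsDedekindDomain H38RT
open H38T1 (SC sc scu rep eo la si Pri OddP tp unif)

namespace H76PP

variable {K L : Type} [Field K] [NumberField K] [Field L] [NumberField L] [Algebra K L]

theorem Tc_s {q₀ : HeightOneSpectrum (𝓞 K)} {T : Finset (HeightOneSpectrum (𝓞 K))} {A B : 𝓞 K}
    (hF : Fam q₀ T A B) {θ : L} (h : Cub K L (A : K) (B : K) θ) {t : 𝓞 L} (ht : (t : L) = θ)
    (a : 𝓞 K) (y : 𝓞 L) : ∃ s : 𝓞 K, y - algebraMap (𝓞 K) (𝓞 L) s ∈
      Ideal.span {algebraMap (𝓞 K) (𝓞 L) a - t} := by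
  obtain ⟨c, hc⟩ := int_coord hF h y
  refine ⟨c 0 + c 1 * a + c 2 * a ^ 2, ?_⟩
  rw [Ideal.mem_span_singleton]
  refine ⟨-(algebraMap (𝓞 K) (𝓞 L) (c 1) + algebraMap (𝓞 K) (𝓞 L) (c 2) * (t + algebraMap (𝓞 K) (𝓞 L) a)), ?_⟩
  apply RingOfIntegers.ext
  have e := h.eq_co (y : L)
  rw [hc, hc, hc] at e
  change (y : L) - algebraMap K L ((c 0 : K) + (c 1 : K) * (a : K) + (c 2 : K) * (a : K) ^ 2) =
    (algebraMap K L (a : K) - (t : L)) * -(algebraMap K L (c 1 : K) + algebraMap K L (c 2 : K) * ((t : L) + algebraMap K L (a : K)))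
  rw [e, ht]
  simp only [map_add, map_mul, map_pow]
  ring

theorem Tc_inertia {q₀ : HeightOneSpectrum (𝓞 K)} {T : Finset (HeightOneSpectrum (𝓞 K))} {A B : 𝓞 K}
    (hF : Fam q₀ T A B) {θ : L} (h : Cub K L (A : K) (B : K) θ) {t : 𝓞 L} (ht : (t : L) = θ)
    (a : 𝓞 K) {w : HeightOneSpectrum (𝓞 L)} (hw : algebraMap (𝓞 K) (𝓞 L) a - t ∈ w.asIdeal) :
    w.asIdeal.inertiaDeg (𝓞 K) = 1 := by
  have hm1 := w.isMaximal
  have hm2 := (dn K w).isMaximal
  have hl : w.asIdeal.LiesOver (dn K w).asIdeal := ⟨rfl⟩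
  rw [Ideal.inertiaDeg_eq_of_isMaximal (dn K w).asIdeal w.asIdeal]
  refine finrank_eq_one (1 : 𝓞 L ⧸ w.asIdeal) one_ne_zero fun z => ?_
  obtain ⟨y, rfl⟩ := Ideal.Quotient.mk_surjective z
  obtain ⟨s, hs⟩ := Tc_s hF h ht a y
  refine ⟨Ideal.Quotient.mk _ s, ?_⟩
  have h1 : y - algebraMap (𝓞 K) (𝓞 L) s ∈ w.asIdeal := (Ideal.span_singleton_le_iff_mem _).2 hw hs
  have h2 : Ideal.Quotient.mk w.asIdeal y = Ideal.Quotient.mk w.asIdeal (algebraMap (𝓞 K) (𝓞 L) s) :=
    Ideal.Quotient.eq.2 h1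
  rw [h2, Algebra.smul_def, mul_one]
  rfl

theorem Tc_uniq {q₀ : HeightOneSpectrum (𝓞 K)} {T : Finset (HeightOneSpectrum (𝓞 K))} {A B : 𝓞 K}
    (hF : Fam q₀ T A B) {θ : L} (h : Cub K L (A : K) (B : K) θ) {t : 𝓞 L} (ht : (t : L) = θ)
    (a : 𝓞 K) {w w' : HeightOneSpectrum (𝓞 L)} (hw : algebraMap (𝓞 K) (𝓞 L) a - t ∈ w.asIdeal)
    (hw' : algebraMap (𝓞 K) (𝓞 L) a - t ∈ w'.asIdeal) (hd : dn K w = dn K w') : w = w' := by
  by_contra hne
  have hle : ¬ (w.asIdeal ≤ w'.asIdeal) := fun hle =>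
    hne (HeightOneSpectrum.ext (w.isMaximal.eq_of_le w'.isPrime.ne_top hle))
  obtain ⟨y, hy, hy'⟩ := SetLike.not_le_iff_exists.1 hle
  obtain ⟨s, hs⟩ := Tc_s hF h ht a y
  have hs1 : y - algebraMap (𝓞 K) (𝓞 L) s ∈ w.asIdeal := (Ideal.span_singleton_le_iff_mem _).2 hw hs
  have hs2 : y - algebraMap (𝓞 K) (𝓞 L) s ∈ w'.asIdeal := (Ideal.span_singleton_le_iff_mem _).2 hw' hs
  have hsw : algebraMap (𝓞 K) (𝓞 L) s ∈ w.asIdeal := by
    have h3 := Ideal.sub_mem _ hy hs1
    rwa [sub_sub_cancel] at h3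
  have hsv : s ∈ (dn K w).asIdeal := hsw
  rw [hd] at hsv
  have hsw' : algebraMap (𝓞 K) (𝓞 L) s ∈ w'.asIdeal := hsv
  apply hy'
  have h3 := Ideal.add_mem _ hs2 hsw'
  rwa [sub_add_cancel] at h3

theorem Tc_ord_one {E : Type} [Field E] {V : Valuation E ℤᵐ⁰} {x : E} (hx : V x = 1) : ord V x = 0 := by
  unfold ord
  rw [hx, log_one, neg_zero]

theorem Tc_int {q₀ : HeightOneSpectrum (𝓞 K)} {T : Finset (HeightOneSpectrum (𝓞 K))} {A B : 𝓞 K}
    (hF : Fam q₀ T A B) {θ : L} (h : Cub K L (A : K) (B : K) θ) (v : HeightOneSpectrum (𝓞 K))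
    (a : 𝓞 K) (hfx : (a : K) ^ 3 + (A : K) * (a : K) + (B : K) ≠ 0) :
    ∃ w₁ : HeightOneSpectrum (𝓞 L), dn K w₁ = v ∧
      ord (w₁.valuation L) (algebraMap K L (a : K) - θ) =
        ord (v.valuation K) ((a : K) ^ 3 + (A : K) * (a : K) + (B : K)) ∧
      ∀ w : HeightOneSpectrum (𝓞 L), dn K w = v → w ≠ w₁ →
        w.valuation L (algebraMap K L (a : K) - θ) = 1 := by
  obtain ⟨t, ht⟩ := theta_int h
  have hn := h.norm_sub (a : K)
  have hu : algebraMap K L (a : K) - θ ≠ 0 := by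
    intro h0
    rw [h0, Algebra.norm_zero] at hn
    exact hfx hn.symm
  have hval : ∀ w : HeightOneSpectrum (𝓞 L), algebraMap (𝓞 K) (𝓞 L) a - t ∉ w.asIdeal →
      w.valuation L (algebraMap K L (a : K) - θ) = 1 := by
    intro w hw
    have h1 := (HeightOneSpectrum.valuation_eq_one_iff_notMem (K := L) (v := w)).2 hw
    rw [← ht]
    exact h1
  have hsum := ord_norm (K := K) v hu
  rw [hn] at hsum
  by_cases hex : ∃ w : HeightOneSpectrum (𝓞 L), dn K w = v ∧ algebraMap (𝓞 K) (𝓞 L) a - t ∈ w.asIdeal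
  · obtain ⟨w₁, hw1, hw2⟩ := hex
    have hother : ∀ w : HeightOneSpectrum (𝓞 L), dn K w = v → w ≠ w₁ →
        w.valuation L (algebraMap K L (a : K) - θ) = 1 := by
      intro w hw hne
      refine hval w fun hmem => hne ?_
      exact Tc_uniq hF h ht a hmem hw2 (hw.trans hw1.symm)
    refine ⟨w₁, hw1, ?_, hother⟩
    rw [hsum, finsum_eq_single _ (⟨w₁, hw1⟩ : {w : HeightOneSpectrum (𝓞 L) // dn K w = v})]
    · change _ = (w₁.asIdeal.inertiaDeg (𝓞 K) : ℤ) * ord (w₁.valuation L) (algebraMap K L (a : K) - θ)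
      rw [Tc_inertia hF h ht a hw2, Nat.cast_one, one_mul]
    · rintro ⟨w, hw⟩ hne
      have hne' : w ≠ w₁ := fun h0 => hne (Subtype.ext h0)
      change (w.asIdeal.inertiaDeg (𝓞 K) : ℤ) * ord (w.valuation L) (algebraMap K L (a : K) - θ) = 0
      rw [Tc_ord_one (hother w hw hne'), mul_zero]
  · have hall : ∀ w : HeightOneSpectrum (𝓞 L), dn K w = v → w.valuation L (algebraMap K L (a : K) - θ) = 1 :=
      fun w hw => hval w fun hmem => hex ⟨w, hw, hmem⟩
    obtain ⟨w₁, hw1⟩ := exists_above (L := L) v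
    refine ⟨w₁, hw1, ?_, fun w hw _ => hall w hw⟩
    rw [Tc_ord_one (hall w₁ hw1), hsum, finsum_eq_zero_of_forall_eq_zero]
    rintro ⟨w, hw⟩
    change (w.asIdeal.inertiaDeg (𝓞 K) : ℤ) * ord (w.valuation L) (algebraMap K L (a : K) - θ) = 0
    rw [Tc_ord_one (hall w hw), mul_zero]

theorem Tc_small {ι : Type} (S : Finset ι) (g : ι → ℤᵐ⁰) (hg : ∀ i ∈ S, g i ≠ 0) :
    ∃ N : ℤ, 0 ≤ N ∧ ∀ i ∈ S, exp (-N) < g i := by
  refine ⟨∑ i ∈ S, |log (g i)| + 1, ?_, fun i hi => ?_⟩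
  · have := Finset.sum_nonneg (s := S) (f := fun i => |log (g i)|) fun i _ => abs_nonneg _
    linarith
  · have h1 : |log (g i)| ≤ ∑ i ∈ S, |log (g i)| :=
      Finset.single_le_sum (f := fun i => |log (g i)|) (fun i _ => abs_nonneg _) hi
    have h2 := neg_abs_le (log (g i))
    rw [← exp_log (hg i hi), exp_lt_exp]
    linarith

theorem ord_sub {q₀ : HeightOneSpectrum (𝓞 K)} {T : Finset (HeightOneSpectrum (𝓞 K))} {A B : 𝓞 K}
    (hF : Fam q₀ T A B) {θ : L} (h : Cub K L (A : K) (B : K) θ) (v : HeightOneSpectrum (𝓞 K))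
    {x : K} (hx : v.valuation K x ≤ 1) (hfx : x ^ 3 + (A : K) * x + (B : K) ≠ 0) :
    ∃ w₁ : HeightOneSpectrum (𝓞 L), dn K w₁ = v ∧
      ord (w₁.valuation L) (algebraMap K L x - θ) =
        ord (v.valuation K) (x ^ 3 + (A : K) * x + (B : K)) ∧
      ∀ w : HeightOneSpectrum (𝓞 L), dn K w = v → w ≠ w₁ →
        w.valuation L (algebraMap K L x - θ) = 1 := by
  have hn := h.norm_sub x
  have hu : algebraMap K L x - θ ≠ 0 := by
    intro h0
    rw [h0, Algebra.norm_zero] at hn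
    exact hfx hn.symm
  obtain ⟨N1, hN1, hN1'⟩ := Tc_small (fin_above (K := K) (L := L) v).toFinset
    (fun w => w.valuation L (algebraMap K L x - θ)) (fun w _ => (Valuation.ne_zero_iff _).2 hu)
  obtain ⟨N2, hN2, hN2'⟩ := Tc_small ({0} : Finset ℕ)
    (fun _ => v.valuation K (x ^ 3 + (A : K) * x + (B : K))) (fun w _ => (Valuation.ne_zero_iff _).2 hfx)
  have hN2'' := hN2' 0 (Finset.mem_singleton_self _)
  obtain ⟨N, hN⟩ : ∃ N, N = N1 + N2 := ⟨_, rfl⟩
  have hN0 : 0 ≤ N := by omega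
  have hNN1 : exp (-N) ≤ (exp (-N1) : ℤᵐ⁰) := by rw [exp_le_exp]; omega
  have hNN2 : exp (-N) ≤ (exp (-N2) : ℤᵐ⁰) := by rw [exp_le_exp]; omega
  obtain ⟨a, ha⟩ := v.exists_valuation_sub_lt_of_integer hx (Units.mk0 (exp (-N)) exp_ne_zero)
  rw [Units.val_mk0] at ha
  have ha' : v.valuation K ((a : K) - x) < exp (-N) := ha
  -- the value of f
  have hvA : v.valuation K (A : K) ≤ 1 := v.valuation_le_one A
  have hva : v.valuation K (a : K) ≤ 1 := v.valuation_le_one a
  have hfd : v.valuation K (((a : K) ^ 3 + (A : K) * (a : K) + (B : K)) - (x ^ 3 + (A : K) * x + (B : K))) <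
      v.valuation K (x ^ 3 + (A : K) * x + (B : K)) := by
    have e1 : ((a : K) ^ 3 + (A : K) * (a : K) + (B : K)) - (x ^ 3 + (A : K) * x + (B : K)) =
        ((a : K) - x) * ((a : K) ^ 2 + (a : K) * x + x ^ 2 + (A : K)) := by ring
    have e2 : v.valuation K ((a : K) ^ 2 + (a : K) * x + x ^ 2 + (A : K)) ≤ 1 := by
      refine (v.valuation K).map_add_le ((v.valuation K).map_add_le ((v.valuation K).map_add_le ?_ ?_) ?_) hvA
      · rw [map_pow]; exact pow_le_one' hva 2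
      · rw [map_mul]; exact mul_le_one' hva hx
      · rw [map_pow]; exact pow_le_one' hx 2
    rw [e1, map_mul]
    calc _ ≤ v.valuation K ((a : K) - x) * 1 := mul_le_mul_right e2 _
      _ < _ := by rw [mul_one]; exact ha'.trans_le (hNN2.trans hN2''.le)
  have hfa : v.valuation K ((a : K) ^ 3 + (A : K) * (a : K) + (B : K)) =
      v.valuation K (x ^ 3 + (A : K) * x + (B : K)) := Valuation.map_eq_of_sub_lt _ hfd
  have hfa0 : (a : K) ^ 3 + (A : K) * (a : K) + (B : K) ≠ 0 := by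
    rw [← Valuation.ne_zero_iff (v.valuation K), hfa]
    exact (Valuation.ne_zero_iff _).2 hfx
  have hwa : ∀ w : HeightOneSpectrum (𝓞 L), dn K w = v →
      w.valuation L (algebraMap K L (a : K) - θ) = w.valuation L (algebraMap K L x - θ) := by
    intro w hw
    refine Valuation.map_eq_of_sub_lt _ ?_
    have e1 : (algebraMap K L (a : K) - θ) - (algebraMap K L x - θ) = algebraMap K L ((a : K) - x) := by
      rw [map_sub]; ring
    rw [e1]
    have e2 : w.valuation L (algebraMap K L ((a : K) - x)) ≤ exp (-N) := by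
      refine val_exp_le hN0 ?_
      rw [hw]
      exact ha'.le
    refine lt_of_le_of_lt (e2.trans hNN1) (hN1' w ?_)
    rw [Set.Finite.mem_toFinset]
    exact hw
  obtain ⟨w₁, hw1, hw2, hw3⟩ := Tc_int hF h v a hfa0
  refine ⟨w₁, hw1, ?_, fun w hw hne => ?_⟩
  · unfold ord at hw2 ⊢
    rw [← hwa w₁ hw1, ← hfa]
    exact hw2
  · rw [← hwa w hw]
    exact hw3 w hw hne

/-- The case of a denominator. -/
theorem ord_sub_big {A B : 𝓞 K} {θ : L} (h : Cub K L (A : K) (B : K) θ)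
    {w : HeightOneSpectrum (𝓞 L)} {x : K} (hx : 1 < (dn K w).valuation K x) :
    w.valuation L (algebraMap K L x - θ) = w.valuation L (algebraMap K L x) ∧
    w.valuation L (θ / algebraMap K L x) < 1 ∧
    (dn K w).valuation K ((x ^ 3 + (A : K) * x + (B : K)) / x ^ 3 - 1) < 1 ∧
    (dn K w).valuation K (x ^ 3 + (A : K) * x + (B : K)) = (dn K w).valuation K x ^ 3 := by
  obtain ⟨t, ht⟩ := theta_int h
  obtain ⟨v, hv⟩ : ∃ v, v = dn K w := ⟨_, rfl⟩
  have hx0 : x ≠ 0 := by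
    rintro rfl
    rw [map_zero] at hx
    exact absurd hx (not_lt.2 zero_le_one)
  have hxi : (dn K w).valuation K x⁻¹ < 1 := by
    rw [map_inv₀]
    exact inv_lt_one_of_one_lt₀ hx
  have hwi : w.valuation L (algebraMap K L x⁻¹) < 1 := val_lt hxi
  have hwt : w.valuation L θ ≤ 1 := by rw [← ht]; exact w.valuation_le_one t
  have hwx0 : w.valuation L (algebraMap K L x) ≠ 0 := (Valuation.ne_zero_iff _).2 ((map_ne_zero _).2 hx0)
  have hwx : 1 < w.valuation L (algebraMap K L x) := by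
    rw [map_inv₀, map_inv₀] at hwi
    exact (inv_lt_one₀ (zero_lt_iff.2 hwx0)).1 hwi
  have hvA : (dn K w).valuation K (A : K) ≤ 1 := (dn K w).valuation_le_one A
  have hvB : (dn K w).valuation K (B : K) ≤ 1 := (dn K w).valuation_le_one B
  have h3 : (dn K w).valuation K ((x ^ 3 + (A : K) * x + (B : K)) / x ^ 3 - 1) < 1 := by
    have e1 : (x ^ 3 + (A : K) * x + (B : K)) / x ^ 3 - 1 = x⁻¹ * (x⁻¹ * ((A : K) + (B : K) * x⁻¹)) := by
      field_simp
      ring
    have e2 : (dn K w).valuation K ((A : K) + (B : K) * x⁻¹) ≤ 1 := by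
      refine ((dn K w).valuation K).map_add_le hvA ?_
      rw [map_mul]
      exact mul_le_one' hvB hxi.le
    rw [e1, map_mul, map_mul]
    calc _ ≤ (dn K w).valuation K x⁻¹ * 1 := mul_le_mul_right (mul_le_one' hxi.le e2) _
      _ < 1 := by rw [mul_one]; exact hxi
  refine ⟨?_, ?_, h3, ?_⟩
  · refine Valuation.map_eq_of_sub_lt _ ?_
    have e1 : algebraMap K L x - θ - algebraMap K L x = -θ := by ring
    rw [e1, Valuation.map_neg]
    exact lt_of_le_of_lt hwt hwx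
  · rw [map_div₀]
    rw [div_lt_one₀ (zero_lt_iff.2 hwx0)]
    exact lt_of_le_of_lt hwt hwx
  · have h4 : (dn K w).valuation K ((x ^ 3 + (A : K) * x + (B : K)) / x ^ 3) = 1 := by
      have h5 := Valuation.map_eq_of_sub_lt ((dn K w).valuation K) (x := 1) (y := (x ^ 3 + (A : K) * x + (B : K)) / x ^ 3)
        (by rw [map_one]; exact h3)
      rw [h5, map_one]
    rw [map_div₀, map_pow] at h4
    have h6 : (dn K w).valuation K x ^ 3 ≠ 0 := pow_ne_zero 3 ((Valuation.ne_zero_iff _).2 hx0)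
    exact (div_eq_one_iff_eq h6).1 h4

end H76PP

end S_H76_PP_Tc

section S_H76_PP_Te

set_option autoImplicit false
set_option linter.unusedSectionVars false
open scoped Classical

open WithZero NumberField IsDedekindDomain H38RT
open H38T1 (SC sc scu rep eo la si Pri OddP tp unif)

namespace H76PP

variable {K L : Type} [Field K] [NumberField K] [Field L] [NumberField L] [Algebra K L]

/-- The first column of the adjugate of the matrix of the multiplication by `z`. -/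
def Te_C {F : Type*} [CommRing F] (a b : F) (z : Fin 3 → F) : Fin 3 → F :=
  ![(z 0 - a * z 2) ^ 2 + a * z 1 ^ 2 + b * z 1 * z 2, -(z 0 * z 1 + b * z 2 ^ 2),
    z 1 ^ 2 - z 0 * z 2 + a * z 2 ^ 2]

/-- The norm form. -/
def Te_nf {F : Type*} [CommRing F] (a b : F) (z : Fin 3 → F) : F :=
  z 0 * ((z 0 - a * z 2) ^ 2 + a * z 1 ^ 2 + b * z 1 * z 2) + b * z 2 * (z 0 * z 1 + b * z 2 ^ 2) -
    b * z 1 * (z 1 ^ 2 - z 0 * z 2 + a * z 2 ^ 2)

lemma Te_nf_mul {F : Type*} [CommRing F] (a b : F) (u v : Fin 3 → F) :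
    Te_nf a b (m3 a b u v) = Te_nf a b u * Te_nf a b v := by
  simp only [Te_nf, m3, Matrix.cons_val_zero, Matrix.cons_val_one, Matrix.cons_val_two,
    Matrix.head_cons, Matrix.tail_cons, Matrix.cons_val]
  ring

lemma Te_m3_adj {F : Type*} [CommRing F] (a b : F) (z : Fin 3 → F) :
    m3 a b z (Te_C a b z) = ![Te_nf a b z, 0, 0] := by
  funext j
  fin_cases j <;> simp [m3, Te_C, Te_nf] <;> ring

lemma Te_ev_mul {a b : K} {θ : L} (h : Cub K L a b θ) (u v : Fin 3 → K) :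
    ev θ u * ev θ v = ev θ (m3 a b u v) := by
  have hr := h.root
  simp only [ev, m3, Matrix.cons_val_zero, Matrix.cons_val_one, Matrix.cons_val_two,
    Matrix.head_cons, Matrix.tail_cons, Matrix.cons_val, map_add, map_sub, map_mul]
  generalize algebraMap K L (u 0) = a0
  generalize algebraMap K L (u 1) = a1
  generalize algebraMap K L (u 2) = a2
  generalize algebraMap K L (v 0) = b0
  generalize algebraMap K L (v 1) = b1
  generalize algebraMap K L (v 2) = b2
  linear_combination (a1 * b2 + a2 * b1 + a2 * b2 * θ) * hr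

lemma Te_ev_adj {a b : K} {θ : L} (h : Cub K L a b θ) (z : Fin 3 → K) :
    ev θ z * ev θ (Te_C a b z) = algebraMap K L (Te_nf a b z) := by
  rw [Te_ev_mul h, Te_m3_adj]
  simp [ev]

lemma Te_norm {a b : K} {θ : L} (h : Cub K L a b θ) (d : Fin 3 → K) :
    Algebra.norm K (ev θ d) = Te_nf a b d := by
  rw [h.norm]
  obtain ⟨e0, e1, e2⟩ := h.co_mk' (d 0) (d 1) (d 2)
  unfold ev
  rw [e0, e1, e2, Matrix.det_fin_three]
  simp [Te_nf]
  ring

lemma Te_nhd {F : Type*} [Field F] {Γ₀ : Type*} [LinearOrderedCommGroupWithZero Γ₀] [Valued F Γ₀]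
    (x₀ : F) {c : F} (hc : c ≠ 0) : {y | Valued.v (y - x₀) < Valued.v c} ∈ nhds x₀ := by
  rw [Valued.mem_nhds]
  have h' : Valued.v.restrict c ≠ 0 := by simp [hc]
  exact ⟨Units.mk0 _ h', fun y hy => by
    rw [Set.mem_ofPred_eq, Units.val_mk0] at hy
    exact Valued.v.restrict_lt_iff.mp hy⟩

lemma Te_le {F : Type*} [Field F] {Γ₀ : Type*} [LinearOrderedCommGroupWithZero Γ₀] [Valued F Γ₀]
    {y x₀ c : F} (h : Valued.v (y - x₀) < Valued.v c) (h₀ : Valued.v x₀ ≤ Valued.v c) :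
    Valued.v y ≤ Valued.v c := by
  have : y = (y - x₀) + x₀ := by ring
  rw [this]
  exact (Valuation.map_add _ _ _).trans (max_le h.le h₀)

lemma Te_m3_map {F F' : Type*} [CommRing F] [CommRing F'] (i : F →+* F') (a b : F)
    (u v : Fin 3 → F) (j : Fin 3) :
    m3 (i a) (i b) (fun j => i (u j)) (fun j => i (v j)) j = i (m3 a b u v j) := by
  fin_cases j <;> simp [m3]

lemma Te_C_map {F F' : Type*} [CommRing F] [CommRing F'] (i : F →+* F') (a b : F)
    (u : Fin 3 → F) (j : Fin 3) :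
    Te_C (i a) (i b) (fun j => i (u j)) j = i (Te_C a b u j) := by
  fin_cases j <;> simp [Te_C]

lemma Te_nf_map {F F' : Type*} [CommRing F] [CommRing F'] (i : F →+* F') (a b : F)
    (u : Fin 3 → F) :
    Te_nf (i a) (i b) (fun j => i (u j)) = i (Te_nf a b u) := by
  simp [Te_nf]

/-- Bound for the valuation of an element with bounded coordinates. -/
lemma Te_val_ev (w : HeightOneSpectrum (𝓞 L)) (θ : L) (c : Fin 3 → K) {g : K}
    (hc : ∀ j, (dn K w).valuation K (c j) ≤ (dn K w).valuation K g) :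
    w.valuation L (ev θ c) ≤ w.valuation L (algebraMap K L g) *
      max 1 (max (w.valuation L θ) (w.valuation L (θ ^ 2))) := by
  have key : ∀ j, w.valuation L (algebraMap K L (c j)) ≤ w.valuation L (algebraMap K L g) := by
    intro j
    by_cases hg : g = 0
    · have h0 := hc j
      rw [hg, map_zero, le_zero_iff] at h0
      rw [(Valuation.zero_iff _).1 h0, hg]
    · have h1 : (dn K w).valuation K (c j / g) ≤ 1 := by
        rw [map_div₀]
        exact div_le_one_of_le₀ (hc j) zero_le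
      have h2 := val_le h1
      rw [map_div₀, map_div₀] at h2
      have hg' : w.valuation L (algebraMap K L g) ≠ 0 := by
        rw [Ne, Valuation.zero_iff, map_eq_zero]
        exact hg
      rwa [div_le_one₀ (zero_lt_iff.2 hg')] at h2
  set B := max (1 : WithZero (Multiplicative ℤ)) (max (w.valuation L θ) (w.valuation L (θ ^ 2)))
  unfold ev
  refine (Valuation.map_add _ _ _).trans (max_le ((Valuation.map_add _ _ _).trans (max_le ?_ ?_)) ?_)
  · calc w.valuation L (algebraMap K L (c 0)) ≤ w.valuation L (algebraMap K L g) := key 0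
      _ = w.valuation L (algebraMap K L g) * 1 := (mul_one _).symm
      _ ≤ _ := mul_le_mul' le_rfl (le_max_left _ _)
  · rw [map_mul]
    exact mul_le_mul' (key 1) ((le_max_left _ _).trans (le_max_right _ _))
  · rw [map_mul]
    exact mul_le_mul' (key 2) ((le_max_right _ _).trans (le_max_right _ _))

theorem LC_approx {a b : K} {θ : L} (h : Cub K L a b θ) {d : Fin 3 → K} (hd : ev θ d ≠ 0)
    (v : HeightOneSpectrum (𝓞 K)) (hLC : LC (algebraMap K (v.adicCompletion K)) a b d) :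
    ∃ (x y : K) (z : L), y ≠ 0 ∧ z ≠ 0 ∧ v.valuation K ((x ^ 3 + a * x + b) / y ^ 2 - 1) < 1 ∧
      ∀ w : HeightOneSpectrum (𝓞 L), dn K w = v →
        w.valuation L (ev θ d * (algebraMap K L x - θ) / z ^ 2 - 1) < 1 := by
  obtain ⟨x₀, y₀, z₀, hy₀, e₀, E₀⟩ := hLC
  set i : K →+* v.adicCompletion K := algebraMap K (v.adicCompletion K) with hi
  have hiv : ∀ k : K, Valued.v (i k) = v.valuation K k := fun k =>
    HeightOneSpectrum.valuedAdicCompletion_eq_valuation' v k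
  have hiinj : ∀ k : K, i k = 0 → k = 0 := fun k hk => (map_eq_zero i).1 hk
  have hdense : DenseRange (⇑i) := HeightOneSpectrum.denseRange_algebraMap (K := K) v
  -- the norm form is not zero
  have hnd : Te_nf a b d ≠ 0 := by
    rw [← Te_norm h]
    exact Algebra.norm_ne_zero_iff.2 hd
  have hn₀ : Te_nf (i a) (i b) z₀ ≠ 0 := by
    intro h0
    have h1 := congrArg (Te_nf (i a) (i b)) E₀
    rw [Te_nf_mul, Te_nf_mul, h0, zero_mul, mul_eq_zero] at h1
    rcases h1 with h1 | h1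
    · apply hnd
      apply hiinj
      rw [← h1]
      simp [Te_nf]
    · apply hy₀
      have h2 : Te_nf (i a) (i b) ![x₀, -1, 0] = x₀ ^ 3 + i a * x₀ + i b := by
        simp [Te_nf]
        ring
      rw [h2, ← e₀] at h1
      exact pow_eq_zero_iff (two_ne_zero) |>.1 h1
  -- the uniformizer and the constants
  obtain ⟨π, hπ⟩ := v.valuation_exists_uniformizer K
  have hπ0 : π ≠ 0 := by
    rintro rfl
    rw [map_zero] at hπ
    exact absurd hπ.symm (by simp)
  have hπ1 : v.valuation K π < 1 := by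
    rw [hπ]
    exact (WithZero.exp_lt_exp.2 (by norm_num : (-1 : ℤ) < 0)).trans_eq WithZero.exp_zero
  obtain ⟨n₀, hn₀'⟩ := hdense.mem_nhds (Valued.locally_const (x := Te_nf (i a) (i b) z₀)
    ((Valuation.ne_zero_iff _).2 hn₀))
  rw [Set.mem_ofPred_eq, hiv] at hn₀'
  have hn₀0 : n₀ ≠ 0 := by
    rintro rfl
    rw [map_zero] at hn₀'
    exact hn₀ ((Valuation.zero_iff _).1 hn₀'.symm)
  obtain ⟨c, hc0, hc⟩ : ∃ c : K, c ≠ 0 ∧
      ∀ j, Valued.v (Te_C (i a) (i b) z₀ j) ≤ Valued.v (i c) := by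
    set γ := max 1 (max (Valued.v (Te_C (i a) (i b) z₀ 0)) (max (Valued.v (Te_C (i a) (i b) z₀ 1))
      (Valued.v (Te_C (i a) (i b) z₀ 2)))) with hγ
    have hγ1 : 1 ≤ γ := le_max_left _ _
    have hγ0 : γ ≠ 0 := fun hh => by
      rw [hh] at hγ1
      exact absurd hγ1 (by simp)
    obtain ⟨n, hn⟩ := exists_pow_lt₀ hπ1 (Units.mk0 γ hγ0)⁻¹
    refine ⟨(π ^ n)⁻¹, inv_ne_zero (pow_ne_zero _ hπ0), fun j => ?_⟩
    have h1 : γ ≤ Valued.v (i (π ^ n)⁻¹) := by
      rw [hiv, map_inv₀, map_pow]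
      rw [Units.val_inv_eq_inv_val, Units.val_mk0] at hn
      have hpos : 0 < v.valuation K π ^ n :=
        pow_pos (zero_lt_iff.2 ((Valuation.ne_zero_iff _).2 hπ0)) n
      exact (le_inv_comm₀ (zero_lt_iff.2 hγ0) hpos).2 hn.le
    refine le_trans ?_ h1
    fin_cases j
    · exact (le_max_left _ _).trans (le_max_right _ _)
    · exact (le_max_left _ _).trans ((le_max_right _ _).trans (le_max_right _ _))
    · exact (le_max_right _ _).trans ((le_max_right _ _).trans (le_max_right _ _))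
  -- the precision
  have hM : ∀ w : HeightOneSpectrum (𝓞 L), dn K w = v → ∃ M : ℕ, ∀ m : ℕ, M ≤ m →
      w.valuation L (algebraMap K L (π ^ m)) *
        (max 1 (max (w.valuation L θ) (w.valuation L (θ ^ 2))) ^ 3 *
          w.valuation L (algebraMap K L c) ^ 2) < w.valuation L (algebraMap K L n₀) ^ 2 := by
    intro w hw
    set B := max (1 : WithZero (Multiplicative ℤ)) (max (w.valuation L θ) (w.valuation L (θ ^ 2)))
      with hB
    have hB1 : 1 ≤ B := le_max_left _ _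
    have hB0 : B ≠ 0 := fun hh => by
      rw [hh] at hB1
      exact absurd hB1 (by simp)
    have hcL : w.valuation L (algebraMap K L c) ≠ 0 := by
      rw [Valuation.ne_zero_iff, Ne, map_eq_zero]
      exact hc0
    have hnL : w.valuation L (algebraMap K L n₀) ≠ 0 := by
      rw [Valuation.ne_zero_iff, Ne, map_eq_zero]
      exact hn₀0
    have hq : B ^ 3 * w.valuation L (algebraMap K L c) ^ 2 ≠ 0 :=
      mul_ne_zero (pow_ne_zero _ hB0) (pow_ne_zero _ hcL)
    have hpi : w.valuation L (algebraMap K L π) < 1 := val_lt (by rw [hw]; exact hπ1)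
    obtain ⟨M, hM⟩ := exists_pow_lt₀ hpi (Units.mk0 (w.valuation L (algebraMap K L n₀) ^ 2 /
      (B ^ 3 * w.valuation L (algebraMap K L c) ^ 2)) (div_ne_zero (pow_ne_zero _ hnL) hq))
    refine ⟨M, fun m hm => ?_⟩
    rw [Units.val_mk0] at hM
    rw [map_pow, map_pow]
    have h1 : w.valuation L (algebraMap K L π) ^ m <
        w.valuation L (algebraMap K L n₀) ^ 2 / (B ^ 3 * w.valuation L (algebraMap K L c) ^ 2) :=
      (pow_le_pow_right_of_le_one' hpi.le hm).trans_lt hM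
    rwa [lt_div_iff₀ (zero_lt_iff.2 hq)] at h1
  obtain ⟨M, hM⟩ : ∃ M : ℕ, ∀ w : HeightOneSpectrum (𝓞 L), dn K w = v →
      w.valuation L (algebraMap K L (π ^ M)) *
        (max 1 (max (w.valuation L θ) (w.valuation L (θ ^ 2))) ^ 3 *
          w.valuation L (algebraMap K L c) ^ 2) < w.valuation L (algebraMap K L n₀) ^ 2 := by
    choose f hf using hM
    refine ⟨(fin_above v).toFinset.attach.sup (fun w => f w.1 ((fin_above v).mem_toFinset.1 w.2)),
      fun w hw => hf w hw _ ?_⟩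
    have hmem : w ∈ (fin_above (L := L) v).toFinset := (fin_above v).mem_toFinset.2 hw
    exact Finset.le_sup (f := fun w : {x // x ∈ (fin_above (L := L) v).toFinset} =>
      f w.1 ((fin_above v).mem_toFinset.1 w.2)) (Finset.mem_attach _ ⟨w, hmem⟩)
  -- the neighbourhood
  let p₀ : Fin 5 → v.adicCompletion K := ![x₀, y₀, z₀ 0, z₀ 1, z₀ 2]
  have hz₀ : (![z₀ 0, z₀ 1, z₀ 2] : Fin 3 → v.adicCompletion K) = z₀ := by
    funext j; fin_cases j <;> rfl
  have c1 : ∀ j, Continuous (fun p : Fin 5 → v.adicCompletion K =>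
      m3 (i a) (i b) (fun j => i (d j)) ![p 0, -1, 0] j -
        m3 (i a) (i b) ![p 2, p 3, p 4] ![p 2, p 3, p 4] j) := by
    intro j
    fin_cases j <;> simp [m3] <;> fun_prop
  have c2 : ∀ j, Continuous (fun p : Fin 5 → v.adicCompletion K =>
      Te_C (i a) (i b) ![p 2, p 3, p 4] j) := by
    intro j
    fin_cases j <;> simp [Te_C] <;> fun_prop
  have c3 : Continuous (fun p : Fin 5 → v.adicCompletion K =>
      Te_nf (i a) (i b) ![p 2, p 3, p 4]) := by
    simp [Te_nf]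
    fun_prop
  have c4 : ContinuousAt (fun p : Fin 5 → v.adicCompletion K =>
      (p 0 ^ 3 + i a * p 0 + i b) / p 1 ^ 2 - 1) p₀ := by
    refine ContinuousAt.sub (ContinuousAt.div ?_ ?_ (pow_ne_zero 2 hy₀)) continuousAt_const
    · exact Continuous.continuousAt (by fun_prop)
    · exact Continuous.continuousAt (by fun_prop)
  have c5 : Continuous (fun p : Fin 5 → v.adicCompletion K => p 1) := by fun_prop
  have n1 : ∀ j, ∀ᶠ p in nhds p₀, Valued.v (m3 (i a) (i b) (fun j => i (d j)) ![p 0, -1, 0] j -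
        m3 (i a) (i b) ![p 2, p 3, p 4] ![p 2, p 3, p 4] j) < Valued.v (i (π ^ M)) := by
    intro j
    have hz : m3 (i a) (i b) (fun j => i (d j)) ![p₀ 0, -1, 0] j -
        m3 (i a) (i b) ![p₀ 2, p₀ 3, p₀ 4] ![p₀ 2, p₀ 3, p₀ 4] j = 0 := by
      rw [sub_eq_zero]
      change m3 (i a) (i b) (fun j => i (d j)) ![x₀, -1, 0] j =
        m3 (i a) (i b) ![z₀ 0, z₀ 1, z₀ 2] ![z₀ 0, z₀ 1, z₀ 2] j
      rw [hz₀, E₀]
    have h1 := ((c1 j).continuousAt (x := p₀)).preimage_mem_nhds (Te_nhd (F := v.adicCompletion K) _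
      (c := i (π ^ M)) (fun h0 => pow_ne_zero M hπ0 (hiinj _ h0)))
    filter_upwards [h1] with p hp
    simp only [Set.mem_preimage, Set.mem_ofPred_eq] at hp
    rwa [hz, sub_zero] at hp
  have n2 : ∀ j, ∀ᶠ p in nhds p₀, Valued.v (Te_C (i a) (i b) ![p 2, p 3, p 4] j) ≤
      Valued.v (i c) := by
    intro j
    have h1 := ((c2 j).continuousAt (x := p₀)).preimage_mem_nhds (Te_nhd (F := v.adicCompletion K) _
      (c := i c) (fun h0 => hc0 (hiinj _ h0)))
    filter_upwards [h1] with p hp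
    simp only [Set.mem_preimage, Set.mem_ofPred_eq] at hp
    refine Te_le hp ?_
    change Valued.v (Te_C (i a) (i b) ![z₀ 0, z₀ 1, z₀ 2] j) ≤ _
    rw [hz₀]
    exact hc j
  have n3 : ∀ᶠ p in nhds p₀, Valued.v (Te_nf (i a) (i b) ![p 2, p 3, p 4]) =
      Valued.v (Te_nf (i a) (i b) z₀) := by
    have h1 := (c3.continuousAt (x := p₀)).preimage_mem_nhds (Valued.locally_const
      (x := Te_nf (i a) (i b) ![p₀ 2, p₀ 3, p₀ 4]) ((Valuation.ne_zero_iff _).2 (by
        change Te_nf (i a) (i b) ![z₀ 0, z₀ 1, z₀ 2] ≠ 0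
        rw [hz₀]; exact hn₀)))
    filter_upwards [h1] with p hp
    simp only [Set.mem_preimage, Set.mem_ofPred_eq] at hp
    rw [hp]
    change Valued.v (Te_nf (i a) (i b) ![z₀ 0, z₀ 1, z₀ 2]) = _
    rw [hz₀]
  have n4 : ∀ᶠ p in nhds p₀, Valued.v ((p 0 ^ 3 + i a * p 0 + i b) / p 1 ^ 2 - 1) <
      Valued.v (i 1) := by
    have hz : (p₀ 0 ^ 3 + i a * p₀ 0 + i b) / p₀ 1 ^ 2 - 1 = 0 := by
      change (x₀ ^ 3 + i a * x₀ + i b) / y₀ ^ 2 - 1 = 0
      rw [← e₀, div_self (pow_ne_zero 2 hy₀), sub_self]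
    have h1 := c4.preimage_mem_nhds (Te_nhd (F := v.adicCompletion K) _
      (c := i 1) (fun h0 => one_ne_zero (hiinj _ h0)))
    filter_upwards [h1] with p hp
    simp only [Set.mem_preimage, Set.mem_ofPred_eq] at hp
    rwa [hz, sub_zero] at hp
  have n5 : ∀ᶠ p in nhds p₀, p 1 ≠ 0 := (c5.continuousAt (x := p₀)).eventually_ne hy₀
  have hD : DenseRange (Pi.map (fun _ : Fin 5 => (⇑i : K → v.adicCompletion K))) :=
    DenseRange.piMap (fun _ => hdense)
  obtain ⟨k, hk1, hk2, hk3, hk4, hk5⟩ : ∃ k : Fin 5 → K,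
      (∀ j, Valued.v (m3 (i a) (i b) (fun j => i (d j)) ![i (k 0), -1, 0] j -
        m3 (i a) (i b) ![i (k 2), i (k 3), i (k 4)] ![i (k 2), i (k 3), i (k 4)] j) <
          Valued.v (i (π ^ M))) ∧
      (∀ j, Valued.v (Te_C (i a) (i b) ![i (k 2), i (k 3), i (k 4)] j) ≤ Valued.v (i c)) ∧
      Valued.v (Te_nf (i a) (i b) ![i (k 2), i (k 3), i (k 4)]) =
        Valued.v (Te_nf (i a) (i b) z₀) ∧
      Valued.v ((i (k 0) ^ 3 + i a * i (k 0) + i b) / i (k 1) ^ 2 - 1) < Valued.v (i 1) ∧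
      i (k 1) ≠ 0 := by
    obtain ⟨k, hk⟩ := hD.mem_nhds (((Filter.eventually_all.2 n1).and ((Filter.eventually_all.2
      n2).and (n3.and (n4.and n5)))))
    exact ⟨k, hk⟩
  -- the elements of `K` and `L`
  have t1 : (![i (k 2), i (k 3), i (k 4)] : Fin 3 → v.adicCompletion K) =
      fun j => i ((![k 2, k 3, k 4] : Fin 3 → K) j) := by
    funext j; fin_cases j <;> rfl
  have t2 : (![i (k 0), -1, 0] : Fin 3 → v.adicCompletion K) =
      fun j => i ((![k 0, -1, 0] : Fin 3 → K) j) := by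
    funext j; fin_cases j <;> simp
  set z : Fin 3 → K := ![k 2, k 3, k 4] with hz
  set e : Fin 3 → K := fun j => m3 a b d ![k 0, -1, 0] j - m3 a b z z j with he
  have r1 : ∀ j, v.valuation K (e j) ≤ v.valuation K (π ^ M) := by
    intro j
    have := hk1 j
    rw [t1, t2, Te_m3_map, Te_m3_map, ← map_sub, hiv, hiv] at this
    exact this.le
  have r2 : ∀ j, v.valuation K (Te_C a b z j) ≤ v.valuation K c := by
    intro j
    have := hk2 j
    rwa [t1, Te_C_map, hiv, hiv] at this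
  have r3 : v.valuation K (Te_nf a b z) = v.valuation K n₀ := by
    rw [t1, Te_nf_map, hiv] at hk3
    rw [hk3, hn₀']
  have r4 : v.valuation K ((k 0 ^ 3 + a * k 0 + b) / k 1 ^ 2 - 1) < 1 := by
    rw [hiv, map_one] at hk4
    rw [← hiv]
    simpa using hk4
  have r5 : k 1 ≠ 0 := fun h0 => hk5 (by rw [h0, map_zero])
  have hnz : Te_nf a b z ≠ 0 := by
    intro h0
    rw [h0, map_zero] at r3
    exact hn₀0 ((Valuation.zero_iff _).1 r3.symm)
  have hadj := Te_ev_adj h z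
  have hZ : ev θ z ≠ 0 := by
    intro h0
    rw [h0, zero_mul] at hadj
    exact hnz ((map_eq_zero _).1 hadj.symm)
  have hE : ev θ d * (algebraMap K L (k 0) - θ) - ev θ z ^ 2 = ev θ e := by
    have q1 := Te_ev_mul h d ![k 0, -1, 0]
    have q2 := Te_ev_mul h z z
    have q3 : ev θ (![k 0, -1, 0] : Fin 3 → K) = algebraMap K L (k 0) - θ := by
      simp [ev]
      ring
    rw [q3] at q1
    rw [q1, pow_two, q2]
    simp only [ev, he, map_sub]
    ring
  refine ⟨k 0, k 1, ev θ z, r5, hZ, r4, ?_⟩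
  intro w hw
  subst hw
  have s1 := Te_val_ev w θ e r1
  have s2 := Te_val_ev w θ (Te_C a b z) r2
  set B := max (1 : WithZero (Multiplicative ℤ)) (max (w.valuation L θ) (w.valuation L (θ ^ 2)))
    with hB
  have s3 : w.valuation L (ev θ z) * w.valuation L (ev θ (Te_C a b z)) =
      w.valuation L (algebraMap K L n₀) := by
    rw [← map_mul, hadj]
    have h1 : (dn K w).valuation K (Te_nf a b z / n₀) = 1 := by
      rw [map_div₀, r3, div_self ((Valuation.ne_zero_iff _).2 hn₀0)]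
    have h2 := val_one h1
    rw [map_div₀, map_div₀] at h2
    exact (div_eq_one_iff_eq ((Valuation.ne_zero_iff _).2 (by
      rw [Ne, map_eq_zero]; exact hn₀0))).1 h2
  have s4 : w.valuation L (ev θ e) * w.valuation L (ev θ (Te_C a b z)) ^ 2 <
      w.valuation L (ev θ z) ^ 2 * w.valuation L (ev θ (Te_C a b z)) ^ 2 := by
    calc w.valuation L (ev θ e) * w.valuation L (ev θ (Te_C a b z)) ^ 2
        ≤ (w.valuation L (algebraMap K L (π ^ M)) * B) *
          (w.valuation L (algebraMap K L c) * B) ^ 2 :=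
          mul_le_mul' s1 (pow_le_pow_left' s2 2)
      _ = w.valuation L (algebraMap K L (π ^ M)) *
          (B ^ 3 * w.valuation L (algebraMap K L c) ^ 2) := by
          rw [mul_pow, pow_succ B 2]
          simp only [mul_comm, mul_left_comm, mul_assoc]
      _ < w.valuation L (algebraMap K L n₀) ^ 2 := hM w rfl
      _ = _ := by rw [← s3, mul_pow]
  have s5 : w.valuation L (ev θ e) < w.valuation L (ev θ z) ^ 2 :=
    lt_of_mul_lt_mul_right s4 zero_le
  have s6 : ev θ d * (algebraMap K L (k 0) - θ) / ev θ z ^ 2 - 1 = ev θ e / ev θ z ^ 2 := by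
    rw [← hE]
    field_simp
  rw [s6, map_div₀, map_pow]
  exact (div_lt_one₀ (pow_pos (zero_lt_iff.2 ((Valuation.ne_zero_iff _).2 hZ)) 2)).2 s5

end H76PP

end S_H76_PP_Te

section S_H76_PP_Td

set_option autoImplicit false
set_option linter.unusedSectionVars false
open scoped Classical

open WithZero NumberField IsDedekindDomain H38RT
open H38T1 (SC sc scu rep eo la si Pri OddP tp unif)

namespace H76PP

variable {K L : Type} [Field K] [NumberField K] [Field L] [NumberField L] [Algebra K L]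

/-- The two places above an auxiliary prime. -/
structure Two (K : Type) {L : Type} [Field K] [NumberField K] [Field L] [NumberField L]
    [Algebra K L] (θ : L) (v : HeightOneSpectrum (𝓞 K)) (w₁ w₂ : HeightOneSpectrum (𝓞 L)) :
    Prop where
  ne : w₁ ≠ w₂
  dn1 : dn K w₁ = v
  dn2 : dn K w₂ = v
  only : ∀ w : HeightOneSpectrum (𝓞 L), dn K w = v → w = w₁ ∨ w = w₂
  ord1 : ∀ x : K, x ≠ 0 → ord (w₁.valuation L) (algebraMap K L x) = ord (v.valuation K) x
  ord2 : ∀ x : K, x ≠ 0 → ord (w₂.valuation L) (algebraMap K L x) = ord (v.valuation K) x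
  unit2 : ∀ x : K, v.valuation K x ≤ 1 → w₂.valuation L (algebraMap K L x - θ) = 1

section Abstract

variable {R S : Type*} [CommRing R] [CommRing S] {a : R →+* S} {θ : S} {A B : R}

/-- the coordinates of an element of the extended ideal -/
private theorem Td_V (hroot : θ ^ 3 + a A * θ + a B = 0)
    (hspan : ∀ y : S, ∃ c0 c1 c2 : R, y = a c0 + a c1 * θ + a c2 * θ ^ 2) (P : Ideal R) {y : S}
    (hy : y ∈ P.map a) : ∃ c0 ∈ P, ∃ c1 ∈ P, ∃ c2 ∈ P, y = a c0 + a c1 * θ + a c2 * θ ^ 2 := by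
  let V : Ideal S :=
    { carrier := {y | ∃ c0 ∈ P, ∃ c1 ∈ P, ∃ c2 ∈ P, y = a c0 + a c1 * θ + a c2 * θ ^ 2}
      add_mem' := by
        rintro x y ⟨c0, h0, c1, h1, c2, h2, rfl⟩ ⟨d0, k0, d1, k1, d2, k2, rfl⟩
        refine ⟨c0 + d0, P.add_mem h0 k0, c1 + d1, P.add_mem h1 k1, c2 + d2, P.add_mem h2 k2, ?_⟩
        simp only [map_add]
        ring
      zero_mem' := ⟨0, P.zero_mem, 0, P.zero_mem, 0, P.zero_mem, by simp⟩
      smul_mem' := by
        rintro z y ⟨c0, h0, c1, h1, c2, h2, rfl⟩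
        obtain ⟨d0, d1, d2, rfl⟩ := hspan z
        refine ⟨d0 * c0 - B * (d1 * c2 + d2 * c1), ?_,
          d0 * c1 + d1 * c0 - A * (d1 * c2 + d2 * c1) - B * (d2 * c2), ?_,
          d0 * c2 + d1 * c1 + d2 * c0 - A * (d2 * c2), ?_, ?_⟩
        · exact P.sub_mem (P.mul_mem_left _ h0) (P.mul_mem_left _
            (P.add_mem (P.mul_mem_left _ h2) (P.mul_mem_left _ h1)))
        · exact P.sub_mem (P.sub_mem (P.add_mem (P.mul_mem_left _ h1) (P.mul_mem_left _ h0))
            (P.mul_mem_left _ (P.add_mem (P.mul_mem_left _ h2) (P.mul_mem_left _ h1))))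
            (P.mul_mem_left _ (P.mul_mem_left _ h2))
        · exact P.sub_mem (P.add_mem (P.add_mem (P.mul_mem_left _ h2) (P.mul_mem_left _ h1))
            (P.mul_mem_left _ h0)) (P.mul_mem_left _ (P.mul_mem_left _ h2))
        · simp only [smul_eq_mul, map_add, map_sub, map_mul]
          linear_combination (a d1 * a c2 + a d2 * a c1 + a d2 * a c2 * θ) * hroot }
  have h1 : P.map a ≤ V := by
    rw [Ideal.map_le_iff_le_comap]
    intro p hp
    exact ⟨p, hp, 0, P.zero_mem, 0, P.zero_mem, by simp⟩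
  exact h1 hy

/-- the second place: `J = P + (g)` -/
private theorem Td_J (hroot : θ ^ 3 + a A * θ + a B = 0)
    (hspan : ∀ y : S, ∃ c0 c1 c2 : R, y = a c0 + a c1 * θ + a c2 * θ ^ 2)
    (hli : ∀ c0 c1 c2 : R, a c0 + a c1 * θ + a c2 * θ ^ 2 = 0 → c0 = 0 ∧ c1 = 0 ∧ c2 = 0)
    {P : Ideal R} (hP : P.IsMaximal) {t : R} (ht : t ^ 3 + A * t + B ∈ P)
    (hs : ∀ s : R, -3 * t ^ 2 - 4 * A - s ^ 2 ∉ P) {J : Ideal S}
    (hJ : J = P.map a ⊔ Ideal.span {θ ^ 2 + a t * θ + a t ^ 2 + a A}) :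
    (θ - a t) * (θ ^ 2 + a t * θ + a t ^ 2 + a A) ∈ P.map a ∧ J.IsMaximal ∧
      (∀ x : R, a x ∈ J ↔ x ∈ P) ∧ ∀ b : R, θ - a b ∉ J := by
  obtain ⟨g, hg⟩ : ∃ g, g = θ ^ 2 + a t * θ + a t ^ 2 + a A := ⟨_, rfl⟩
  rw [← hg] at hJ ⊢
  have hVJ : P.map a ≤ J := by
    rw [hJ]
    exact le_sup_left
  have hgJ : g ∈ J := by
    rw [hJ]
    exact Ideal.mem_sup_right (Ideal.mem_span_singleton_self g)
  have hτg : (θ - a t) * g ∈ P.map a := by
    have h1 : (θ - a t) * g = a (-(t ^ 3 + A * t + B)) := by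
      rw [hg]
      simp only [map_neg, map_add, map_mul, map_pow]
      linear_combination hroot
    rw [h1]
    exact Ideal.mem_map_of_mem a (P.neg_mem ht)
  have h1P : (1 : R) ∉ P := fun h => hP.ne_top ((Ideal.eq_top_iff_one P).2 h)
  have h1J : (1 : S) ∉ J := by
    intro h
    rw [hJ] at h
    obtain ⟨α, hα, γ, hγ, he⟩ := Submodule.mem_sup.1 h
    obtain ⟨β, hβ⟩ := Ideal.mem_span_singleton'.1 hγ
    have h2 : θ - a t ∈ P.map a := by
      have h3 : θ - a t = (θ - a t) * α + β * ((θ - a t) * g) := by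
        have h4 : θ - a t = (θ - a t) * (α + γ) := by rw [he, mul_one]
        rw [← hβ] at h4
        linear_combination h4
      rw [h3]
      exact Ideal.add_mem _ (Ideal.mul_mem_left _ _ hα) (Ideal.mul_mem_left _ _ hτg)
    obtain ⟨c0, h0, c1, h1, c2, h2', he2⟩ := Td_V hroot hspan P h2
    obtain ⟨-, e1, -⟩ := hli (c0 + t) (c1 - 1) c2 (by
      rw [map_add, map_sub, map_one]
      linear_combination -he2)
    apply h1P
    rw [← sub_eq_zero.1 e1]
    exact h1
  have hcomap : ∀ x : R, a x ∈ J ↔ x ∈ P := by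
    have h2 : P = J.comap a := by
      refine hP.eq_of_le ?_ ?_
      · rw [Ne, Ideal.eq_top_iff_one, Ideal.mem_comap, map_one]
        exact h1J
      · rw [← Ideal.map_le_iff_le_comap]
        exact hVJ
    intro x
    rw [h2, Ideal.mem_comap]
  have hb : ∀ b : R, θ - a b ∉ J := by
    intro b hb
    have h2 : a (b ^ 2 + t * b + t ^ 2 + A) ∈ J := by
      have h3 : a (b ^ 2 + t * b + t ^ 2 + A) = g - (θ + a b + a t) * (θ - a b) := by
        rw [hg]
        simp only [map_add, map_mul, map_pow]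
        ring
      rw [h3]
      exact J.sub_mem hgJ (J.mul_mem_left _ hb)
    rw [hcomap] at h2
    apply hs (2 * b + t)
    have h3 : -3 * t ^ 2 - 4 * A - (2 * b + t) ^ 2 = (-4) * (b ^ 2 + t * b + t ^ 2 + A) := by ring
    rw [h3]
    exact P.mul_mem_left _ h2
  refine ⟨hτg, ?_, hcomap, hb⟩
  rw [Ideal.isMaximal_iff]
  refine ⟨h1J, fun I x hJI hx hxI => ?_⟩
  obtain ⟨c0, c1, c2, rfl⟩ := hspan x
  obtain ⟨p, hp⟩ : ∃ p, p = c0 - c2 * (t ^ 2 + A) := ⟨_, rfl⟩
  obtain ⟨q, hq⟩ : ∃ q, q = c1 - c2 * t := ⟨_, rfl⟩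
  have e1 : a c0 + a c1 * θ + a c2 * θ ^ 2 = a p + a q * θ + a c2 * g := by
    rw [hp, hq, hg]
    simp only [map_add, map_mul, map_pow, map_sub]
    ring
  have hpq : p ∈ P → q ∉ P := by
    intro h1 h2
    apply hx
    rw [e1]
    exact J.add_mem (J.add_mem ((hcomap p).2 h1) (J.mul_mem_right _ ((hcomap q).2 h2)))
      (J.mul_mem_left _ hgJ)
  have hinv : ∀ x : R, x ∉ P → ∃ y, x * y - 1 ∈ P := by
    intro x hx
    obtain ⟨y, i, hi, he⟩ := hP.exists_inv hx
    refine ⟨y, ?_⟩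
    have h2 : x * y - 1 = -i := by linear_combination he
    rw [h2]
    exact P.neg_mem hi
  obtain ⟨n, hn⟩ : ∃ n, n = p ^ 2 - p * q * t + q ^ 2 * (t ^ 2 + A) := ⟨_, rfl⟩
  have hnP : n ∉ P := by
    intro hnP
    by_cases hqP : q ∈ P
    · have h2 : p ^ 2 ∈ P := by
        have h3 : p ^ 2 = n + (p * t - q * (t ^ 2 + A)) * q := by
          rw [hn]
          ring
        rw [h3]
        exact P.add_mem hnP (P.mul_mem_left _ hqP)
      exact hpq (hP.isPrime.mem_of_pow_mem 2 h2) hqP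
    · obtain ⟨q', hq'⟩ := hinv q hqP
      apply hs ((2 * p - q * t) * q')
      have h3 : -3 * t ^ 2 - 4 * A - ((2 * p - q * t) * q') ^ 2 =
          (-4 * q' ^ 2) * n + ((3 * t ^ 2 + 4 * A) * (q * q' + 1)) * (q * q' - 1) := by
        rw [hn]
        ring
      rw [h3]
      exact P.add_mem (P.mul_mem_left _ hnP) (P.mul_mem_left _ hq')
  obtain ⟨n', hn'⟩ := hinv n hnP
  have h5 : (a c0 + a c1 * θ + a c2 * θ ^ 2) * ((a p - a q * a t - a q * θ) * a n') ∈ I :=
    I.mul_mem_right _ hxI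
  have h6 : (a c0 + a c1 * θ + a c2 * θ ^ 2) * ((a p - a q * a t - a q * θ) * a n') - 1 ∈ J := by
    have h7 : (a c0 + a c1 * θ + a c2 * θ ^ 2) * ((a p - a q * a t - a q * θ) * a n') - 1 =
        a (n * n' - 1) + ((a c2 * (a p - a q * a t - a q * θ) - a q ^ 2) * a n') * g := by
      rw [e1, hn, hg]
      simp only [map_add, map_mul, map_pow, map_sub, map_one]
      ring
    rw [h7]
    exact J.add_mem ((hcomap _).2 hn') (J.mul_mem_left _ hgJ)
  have h8 := I.sub_mem h5 (hJI h6)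
  rwa [sub_sub_cancel] at h8

end Abstract

private theorem Td_ord {w w' : HeightOneSpectrum (𝓞 L)} {v : HeightOneSpectrum (𝓞 K)}
    (hne : w ≠ w') (hdn : dn K w = v)
    (hle : w.asIdeal * w'.asIdeal ≤ v.asIdeal.map (algebraMap (𝓞 K) (𝓞 L))) (x : K)
    (hx : x ≠ 0) : ord (w.valuation L) (algebraMap K L x) = ord (v.valuation K) x := by
  obtain ⟨e, he, hord⟩ := ord_dn (K := K) w
  have he1 : e = 1 := by
    by_contra hne1
    have he2 : (2 : ℤ) ≤ e := by
      have : 2 ≤ e := by omega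
      exact_mod_cast this
    have hV : v.asIdeal.map (algebraMap (𝓞 K) (𝓞 L)) ≤ w.asIdeal ^ 2 := by
      rw [Ideal.map_le_iff_le_comap]
      intro p hp
      rw [Ideal.mem_comap]
      rcases eq_or_ne p 0 with rfl | hp0
      · rw [map_zero]
        exact zero_mem _
      have hpK : (p : K) ≠ 0 := RingOfIntegers.coe_ne_zero_iff.mpr hp0
      have h1 : v.valuation K (p : K) < 1 := (v.valuation_lt_one_iff_mem (K := K) p).2 hp
      have h2 : 1 ≤ ord (v.valuation K) (p : K) := by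
        unfold ord
        have h3 : v.valuation K (p : K) ≠ 0 := (Valuation.ne_zero_iff _).2 hpK
        rw [← exp_zero, ← log_lt_iff_lt_exp h3] at h1
        omega
      have h4 := hord (p : K) hpK
      rw [hdn] at h4
      rw [← w.intValuation_le_pow_iff_mem, ← w.valuation_of_algebraMap (K := L)]
      have h5 : algebraMap (𝓞 L) L (algebraMap (𝓞 K) (𝓞 L) p) = algebraMap K L (p : K) := rfl
      change w.valuation L (algebraMap (𝓞 L) L (algebraMap (𝓞 K) (𝓞 L) p)) ≤ _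
      rw [h5]
      have h6 : w.valuation L (algebraMap K L (p : K)) ≠ 0 :=
        (Valuation.ne_zero_iff _).2 ((map_ne_zero _).2 hpK)
      rw [← exp_log h6, exp_le_exp]
      unfold ord at h4 h2
      push_cast
      nlinarith
    have h1 : w.asIdeal ^ 2 ∣ w.asIdeal * w'.asIdeal := Ideal.dvd_iff_le.2 (hle.trans hV)
    rw [sq] at h1
    have h2 : w.asIdeal ∣ w'.asIdeal := (mul_dvd_mul_iff_left (show w.asIdeal ≠ 0 from w.ne_bot)).1 h1
    have h3 := Ideal.dvd_iff_le.1 h2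
    exact hne (HeightOneSpectrum.ext (w'.isMaximal.eq_of_le w.isPrime.ne_top h3).symm)
  have h1 := hord x hx
  rw [he1, hdn] at h1
  rw [h1]
  push_cast
  rw [one_mul]

theorem exists_two {q₀ : HeightOneSpectrum (𝓞 K)} {T : Finset (HeightOneSpectrum (𝓞 K))}
    {A B : 𝓞 K} (hF : Fam q₀ T A B) {θ : L} (h : Cub K L (A : K) (B : K) θ)
    {v : HeightOneSpectrum (𝓞 K)} (hv : v ∈ T) (h6 : (6 : 𝓞 K) ∉ v.asIdeal) :
    ∃ w₁ w₂ : HeightOneSpectrum (𝓞 L), Two K θ v w₁ w₂ := by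
  obtain ⟨t, ht, hs⟩ := hF.typ v hv
  obtain ⟨θ', hθ'⟩ := theta_int h
  obtain ⟨w₁, χ, hd1, hχ, hχa, hχc⟩ := exists_place hF h v ht
  have hinjL := FaithfulSMul.algebraMap_injective (𝓞 L) L
  have hsc : ∀ r : 𝓞 K, algebraMap (𝓞 L) L (algebraMap (𝓞 K) (𝓞 L) r) = algebraMap K L (r : K) :=
    fun _ => rfl
  have hθL : algebraMap (𝓞 L) L θ' = θ := hθ'
  have hspan : ∀ y : 𝓞 L, ∃ c0 c1 c2 : 𝓞 K, y = algebraMap (𝓞 K) (𝓞 L) c0 +
      algebraMap (𝓞 K) (𝓞 L) c1 * θ' + algebraMap (𝓞 K) (𝓞 L) c2 * θ' ^ 2 := by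
    intro y
    obtain ⟨c, hc⟩ := int_coord hF h y
    refine ⟨c 0, c 1, c 2, hinjL ?_⟩
    rw [map_add, map_add, map_mul, map_mul, map_pow, hsc, hsc, hsc, hθL, ← hc, ← hc, ← hc]
    exact h.eq_co (y : L)
  have hli : ∀ c0 c1 c2 : 𝓞 K, algebraMap (𝓞 K) (𝓞 L) c0 + algebraMap (𝓞 K) (𝓞 L) c1 * θ' +
      algebraMap (𝓞 K) (𝓞 L) c2 * θ' ^ 2 = 0 → c0 = 0 ∧ c1 = 0 ∧ c2 = 0 := by
    intro c0 c1 c2 h0
    have h1 := congrArg (algebraMap (𝓞 L) L) h0
    rw [map_add, map_add, map_mul, map_mul, map_pow, hsc, hsc, hsc, hθL, map_zero] at h1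
    obtain ⟨e0, e1, e2⟩ := h.li _ _ _ h1
    exact ⟨RingOfIntegers.ext e0, RingOfIntegers.ext e1, RingOfIntegers.ext e2⟩
  have hroot : θ' ^ 3 + algebraMap (𝓞 K) (𝓞 L) A * θ' + algebraMap (𝓞 K) (𝓞 L) B = 0 := by
    apply hinjL
    rw [map_add, map_add, map_mul, map_pow, hsc, hsc, hθL, map_zero]
    exact h.root
  have hχθ : χ θ' = Ideal.Quotient.mk v.asIdeal t := by
    have h1 := hχc θ' ![0, 1, 0] (by
      intro i
      have e0 : ((0 : 𝓞 K) : K) = 0 := rfl
      have e1 : ((1 : 𝓞 K) : K) = 1 := rfl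
      rw [hθ']
      fin_cases i
      · exact h.co_theta.1.trans e0.symm
      · exact h.co_theta.2.1.trans e1.symm
      · exact h.co_theta.2.2.trans e0.symm)
    rw [h1]
    congr 1
    simp
  obtain ⟨J, hJ⟩ : ∃ J, J = v.asIdeal.map (algebraMap (𝓞 K) (𝓞 L)) ⊔ Ideal.span
    {θ' ^ 2 + algebraMap (𝓞 K) (𝓞 L) t * θ' + algebraMap (𝓞 K) (𝓞 L) t ^ 2 +
      algebraMap (𝓞 K) (𝓞 L) A} := ⟨_, rfl⟩
  obtain ⟨hτg, hJm, hJc, hJb⟩ := Td_J hroot hspan hli v.isMaximal ht hs hJ
  obtain ⟨g, hg⟩ : ∃ g, g = θ' ^ 2 + algebraMap (𝓞 K) (𝓞 L) t * θ' +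
    algebraMap (𝓞 K) (𝓞 L) t ^ 2 + algebraMap (𝓞 K) (𝓞 L) A := ⟨_, rfl⟩
  obtain ⟨τ, hτ⟩ : ∃ τ, τ = θ' - algebraMap (𝓞 K) (𝓞 L) t := ⟨_, rfl⟩
  rw [← hg] at hJ hτg
  rw [← hτ] at hτg
  have hVJ : v.asIdeal.map (algebraMap (𝓞 K) (𝓞 L)) ≤ J := by
    rw [hJ]
    exact le_sup_left
  have hJ0 : J ≠ ⊥ := by
    rintro rfl
    obtain ⟨p, hp, hp0⟩ := Submodule.exists_mem_ne_zero_of_ne_bot v.ne_bot
    have h1 := hVJ (Ideal.mem_map_of_mem (algebraMap (𝓞 K) (𝓞 L)) hp)
    rw [Ideal.mem_bot] at h1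
    exact hp0 ((map_eq_zero_iff _ (FaithfulSMul.algebraMap_injective (𝓞 K) (𝓞 L))).1 h1)
  obtain ⟨w₂, hw2⟩ : ∃ w₂ : HeightOneSpectrum (𝓞 L), w₂.asIdeal = J := ⟨⟨J, hJm.isPrime, hJ0⟩, rfl⟩
  have hτ1 : τ ∈ w₁.asIdeal := by
    rw [← hχ, hτ, map_sub, hχθ, hχa, sub_self]
  have hτ2 : τ ∉ w₂.asIdeal := by
    rw [hw2, hτ]
    exact hJb t
  have hd2 : dn K w₂ = v := by
    apply HeightOneSpectrum.ext
    ext r
    show algebraMap (𝓞 K) (𝓞 L) r ∈ w₂.asIdeal ↔ r ∈ v.asIdeal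
    rw [hw2]
    exact hJc r
  have hdV : ∀ w : HeightOneSpectrum (𝓞 L), dn K w = v →
      v.asIdeal.map (algebraMap (𝓞 K) (𝓞 L)) ≤ w.asIdeal := by
    intro w hw
    rw [Ideal.map_le_iff_le_comap, ← hw]
    exact le_rfl
  have hw1 : ∀ y ∈ w₁.asIdeal, ∃ α ∈ v.asIdeal.map (algebraMap (𝓞 K) (𝓞 L)), ∃ β : 𝓞 L,
      y = α + β * τ := by
    intro y hy
    obtain ⟨c0, c1, c2, rfl⟩ := hspan y
    rw [← hχ] at hy
    rw [map_add, map_add, map_mul, map_mul, map_pow, hχa, hχa, hχa, hχθ, ← map_pow, ← map_mul,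
      ← map_mul, ← map_add, ← map_add, Ideal.Quotient.eq_zero_iff_mem] at hy
    refine ⟨_, Ideal.mem_map_of_mem (algebraMap (𝓞 K) (𝓞 L)) hy,
      algebraMap (𝓞 K) (𝓞 L) c1 + algebraMap (𝓞 K) (𝓞 L) c2 * (θ' + algebraMap (𝓞 K) (𝓞 L) t), ?_⟩
    rw [hτ]
    simp only [map_add, map_mul, map_pow]
    ring
  have hw2' : ∀ y ∈ w₂.asIdeal, ∃ α ∈ v.asIdeal.map (algebraMap (𝓞 K) (𝓞 L)), ∃ β : 𝓞 L,
      y = α + β * g := by
    intro y hy
    rw [hw2, hJ] at hy
    obtain ⟨α, hα, γ, hγ, he⟩ := Submodule.mem_sup.1 hy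
    obtain ⟨β, hβ⟩ := Ideal.mem_span_singleton'.1 hγ
    exact ⟨α, hα, β, by rw [hβ, he]⟩
  have hne : w₁ ≠ w₂ := by
    intro h'
    rw [h'] at hτ1
    exact hτ2 hτ1
  have hle : w₁.asIdeal * w₂.asIdeal ≤ v.asIdeal.map (algebraMap (𝓞 K) (𝓞 L)) := by
    rw [Ideal.mul_le]
    intro r hr s hs
    obtain ⟨α, hα, β, rfl⟩ := hw1 r hr
    obtain ⟨α', hα', β', rfl⟩ := hw2' s hs
    have h1 : (α + β * τ) * (α' + β' * g) = (α' + β' * g) * α + (β * τ) * α' +
        (β * β') * (τ * g) := by ring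
    rw [h1]
    exact Ideal.add_mem _ (Ideal.add_mem _ (Ideal.mul_mem_left _ _ hα) (Ideal.mul_mem_left _ _ hα'))
      (Ideal.mul_mem_left _ _ hτg)
  refine ⟨w₁, w₂, ⟨hne, hd1, hd2, ?_, fun x hx => Td_ord hne hd1 hle x hx, fun x hx =>
    Td_ord hne.symm hd2 (by rw [mul_comm]; exact hle) x hx, ?_⟩⟩
  · intro w hw
    have hV := hdV w hw
    rcases w.isPrime.mem_or_mem (hV hτg) with h1 | h1
    · left
      have h2 : w₁.asIdeal ≤ w.asIdeal := by
        intro y hy
        obtain ⟨α, hα, β, rfl⟩ := hw1 y hy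
        exact Ideal.add_mem _ (hV hα) (Ideal.mul_mem_left _ _ h1)
      exact HeightOneSpectrum.ext (w₁.isMaximal.eq_of_le w.isPrime.ne_top h2).symm
    · right
      have h2 : w₂.asIdeal ≤ w.asIdeal := by
        intro y hy
        obtain ⟨α, hα, β, rfl⟩ := hw2' y hy
        exact Ideal.add_mem _ (hV hα) (Ideal.mul_mem_left _ _ h1)
      exact HeightOneSpectrum.ext (w₂.isMaximal.eq_of_le w.isPrime.ne_top h2).symm
  · intro x hx
    have h1 : w₂.valuation L (algebraMap K L x) ≤ 1 := val_le (by rw [hd2]; exact hx)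
    have h2 : w₂.valuation L θ ≤ 1 := by
      rw [← hθL]
      exact w₂.valuation_le_one θ'
    have h3 : w₂.valuation L (algebraMap K L x - θ) ≤ 1 :=
      (Valuation.map_sub _ _ _).trans (max_le h1 h2)
    refine le_antisymm h3 (not_lt.1 fun h4 => ?_)
    obtain ⟨b, hb⟩ := v.exists_valuation_sub_lt_of_integer hx
      (Units.mk0 (1 : WithZero (Multiplicative ℤ)) one_ne_zero)
    have hb' : v.valuation K ((b : K) - x) < 1 := hb
    have h5 : w₂.valuation L (algebraMap K L ((b : K) - x)) < 1 := val_lt (by rw [hd2]; exact hb')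
    apply hJb b
    rw [← hw2, ← w₂.valuation_lt_one_iff_mem (K := L)]
    have h6 : algebraMap (𝓞 L) L (θ' - algebraMap (𝓞 K) (𝓞 L) b) =
        -((algebraMap K L x - θ) + algebraMap K L ((b : K) - x)) := by
      rw [map_sub (algebraMap (𝓞 L) L), hsc, hθL, map_sub]
      ring
    change w₂.valuation L (algebraMap (𝓞 L) L (θ' - algebraMap (𝓞 K) (𝓞 L) b)) < 1
    rw [h6, Valuation.map_neg]
    exact (Valuation.map_add _ _ _).trans_lt (max_lt h4 h5)

end H76PP

end S_H76_PP_Td
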