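import Mathlib
import Pool.Agent.H10.GrHen
import Pool.Agent.H38.T1.Ea
import Pool.Agent.H76.PN.A3
import Pool.Agent.H76.PN.A4

/-! This file joins several modules to save build time (A5). -/

set_option autoImplicit false

section S_H76_PP_Tf

set_option autoImplicit false
set_option linter.unusedSectionVars false
open scoped Classical

open WithZero NumberField IsDedekindDomain H38RT
open H38T1 (SC sc scu rep eo la si Pri OddP tp unif)

namespace H76PP

variable {K L : Type} [Field K] [NumberField K] [Field L] [NumberField L] [Algebra K L]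

theorem Tf_twist {A B : K} {θ : L} (h : Cub K L A B θ) {D : K} (hD : D ≠ 0) :
    Cub K L (D ^ 2 * A) (D ^ 3 * B) (algebraMap K L D * θ) := by
  have hr := h.root
  refine ⟨?_, ?_, ?_⟩
  · simp only [map_mul, map_pow]
    linear_combination (algebraMap K L D) ^ 3 * hr
  · intro c₀ c₁ c₂ hc
    have h1 : algebraMap K L c₀ + algebraMap K L (c₁ * D) * θ +
        algebraMap K L (c₂ * D ^ 2) * θ ^ 2 = 0 := by
      simp only [map_mul, map_pow]
      linear_combination hc
    obtain ⟨h0, h2, h3⟩ := h.li _ _ _ h1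
    refine ⟨h0, ?_, ?_⟩
    · exact (mul_eq_zero.1 h2).resolve_right hD
    · exact (mul_eq_zero.1 h3).resolve_right (pow_ne_zero 2 hD)
  · intro x
    have hD' : algebraMap K L D ≠ 0 := (map_ne_zero _).2 hD
    obtain ⟨c₀, c₁, c₂, hx⟩ := h.sp x
    refine ⟨c₀, c₁ / D, c₂ / D ^ 2, ?_⟩
    rw [hx]
    simp only [map_div₀, map_pow]
    field_simp

theorem Tf_ratio {F : Type*} [Field F] (V : Valuation F (WithZero (Multiplicative ℤ))) {a b : F}
    (hb : b ≠ 0) (h : V (a / b - 1) < 1) : a ≠ 0 ∧ ord V a = ord V b := by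
  have h1 : V (a / b) = 1 := by
    have e : a / b = 1 + (a / b - 1) := by ring
    rw [e]
    exact V.map_one_add_of_lt h
  have ha : a ≠ 0 := by
    rintro rfl
    rw [zero_div, map_zero] at h1
    exact zero_ne_one h1
  refine ⟨ha, ?_⟩
  have e : a = a / b * b := by field_simp
  have h2 : V a = V b := by
    rw [e, map_mul, h1, one_mul]
  unfold ord
  rw [h2]

theorem Tf_ord_one {F : Type*} [Field F] (V : Valuation F (WithZero (Multiplicative ℤ))) {a : F}
    (h : V a = 1) : ord V a = 0 := by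
  unfold ord
  rw [h, log_one, neg_zero]

theorem Tf_ord_pow {F : Type*} [Field F] (V : Valuation F (WithZero (Multiplicative ℤ))) (a : F)
    (n : ℕ) : ord V (a ^ n) = n * ord V a := by
  unfold ord
  rw [map_pow, log_pow, nsmul_eq_mul]
  ring

/-- An element integral at `v` is congruent to an integer of `K`. -/
theorem Tf_approx (v : HeightOneSpectrum (𝓞 K)) {x : K} (hx : v.valuation K x ≤ 1) :
    ∃ a : 𝓞 K, v.valuation K (x - (a : K)) < 1 := by
  obtain ⟨n, ⟨d, hd⟩, hnd⟩ := v.exists_primeCompl_mul_eq_of_integer x hx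
  have hnd' : x * algebraMap (𝓞 K) K d = algebraMap (𝓞 K) K n := hnd
  have hmax : v.asIdeal.IsMaximal := v.isMaximal
  obtain ⟨d', hd'⟩ : ∃ d' : 𝓞 K, d * d' - 1 ∈ v.asIdeal := by
    have hd0 : Ideal.Quotient.mk v.asIdeal d ≠ 0 := fun h =>
      hd (Ideal.Quotient.eq_zero_iff_mem.1 h)
    obtain ⟨d', hd'⟩ := Ideal.Quotient.mk_surjective ((Ideal.Quotient.mk v.asIdeal d)⁻¹)
    refine ⟨d', ?_⟩
    rw [← Ideal.Quotient.eq, map_mul, hd', map_one]
    exact mul_inv_cancel₀ hd0
  refine ⟨n * d', ?_⟩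
  have e : x - ((n * d' : 𝓞 K) : K) = - (x * algebraMap (𝓞 K) K (d * d' - 1)) := by
    have e1 : ((n * d' : 𝓞 K) : K) = algebraMap (𝓞 K) K n * algebraMap (𝓞 K) K d' :=
      map_mul (algebraMap (𝓞 K) K) n d'
    rw [e1, map_sub, map_mul, map_one, ← hnd']
    ring
  rw [e, Valuation.map_neg, map_mul]
  have h1 : v.valuation K (algebraMap (𝓞 K) K (d * d' - 1)) < 1 :=
    (v.valuation_lt_one_iff_mem (K := K) _).2 hd'
  exact (mul_le_of_le_one_left' hx).trans_lt h1

/-- If the polynomial has no root modulo `v` its values at integral elements are units. -/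
theorem Tf_unit (v : HeightOneSpectrum (𝓞 K)) {A B : 𝓞 K}
    (hirr : ∀ t : 𝓞 K, t ^ 3 + A * t + B ∉ v.asIdeal) {x : K} (hx : v.valuation K x ≤ 1) :
    v.valuation K (x ^ 3 + (A : K) * x + (B : K)) = 1 := by
  obtain ⟨a, ha⟩ := Tf_approx v hx
  have hint : ∀ y : 𝓞 K, v.valuation K (y : K) ≤ 1 := fun y => v.valuation_le_one y
  have hfa : v.valuation K ((a : K) ^ 3 + (A : K) * (a : K) + (B : K)) = 1 := by
    have h1 := v.valuation_eq_one_iff_notMem (K := K).2 (hirr a)
    have e1 : algebraMap (𝓞 K) K (a ^ 3 + A * a + B) =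
        (a : K) ^ 3 + (A : K) * (a : K) + (B : K) := by
      rw [map_add, map_add, map_mul, map_pow]
    rwa [e1] at h1
  have hq : v.valuation K (x ^ 2 + x * (a : K) + (a : K) ^ 2 + (A : K)) ≤ 1 := by
    have b1 : v.valuation K (x ^ 2) ≤ 1 := by
      rw [map_pow]
      exact pow_le_one₀ zero_le hx
    have b2 : v.valuation K (x * (a : K)) ≤ 1 := by
      rw [map_mul]
      exact mul_le_one' hx (hint a)
    have b3 : v.valuation K ((a : K) ^ 2) ≤ 1 := by
      rw [map_pow]
      exact pow_le_one₀ zero_le (hint a)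
    exact (v.valuation K).map_add_le ((v.valuation K).map_add_le
      ((v.valuation K).map_add_le b1 b2) b3) (hint A)
  have e : x ^ 3 + (A : K) * x + (B : K) = ((a : K) ^ 3 + (A : K) * (a : K) + (B : K)) +
      (x - (a : K)) * (x ^ 2 + x * (a : K) + (a : K) ^ 2 + (A : K)) := by ring
  rw [e]
  have h2 : v.valuation K ((x - (a : K)) * (x ^ 2 + x * (a : K) + (a : K) ^ 2 + (A : K))) <
      v.valuation K ((a : K) ^ 3 + (A : K) * (a : K) + (B : K)) := by
    rw [hfa, map_mul]
    exact (mul_le_of_le_one_right' hq).trans_lt ha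
  rw [Valuation.map_add_eq_of_lt_left _ h2, hfa]

theorem even_off {q₀ : HeightOneSpectrum (𝓞 K)} {T J : Finset (HeightOneSpectrum (𝓞 K))}
    {A B : 𝓞 K} (hF : Fam q₀ T A B) {θ : L} (h : Cub K L (A : K) (B : K) θ) {D : K}
    (hD : TwD q₀ J D) {d : Fin 3 → K} (hd : ev (algebraMap K L D * θ) d ≠ 0)
    {w : HeightOneSpectrum (𝓞 L)} (hw : dn K w ∉ J)
    (hLC : LC (algebraMap K ((dn K w).adicCompletion K)) (D ^ 2 * A) (D ^ 3 * B) d) :
    eo w (sc (ev (algebraMap K L D * θ) d)) = 0 := by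
  have hD0 := hD.ne
  have hDL : algebraMap K L D ≠ 0 := (map_ne_zero _).2 hD0
  obtain ⟨x', y, z, hy, hz, h1, h2⟩ := LC_approx (Tf_twist h hD0) hd (dn K w) hLC
  have h2w := h2 w rfl
  obtain ⟨x, rfl⟩ : ∃ x : K, x' = D * x := ⟨x' / D, by field_simp⟩
  obtain ⟨h3, h4⟩ := Tf_ratio ((dn K w).valuation K) (pow_ne_zero 2 hy) h1
  obtain ⟨h5, h6⟩ := Tf_ratio (w.valuation L) (pow_ne_zero 2 hz) h2w
  have e1 : (D * x) ^ 3 + D ^ 2 * (A : K) * (D * x) + D ^ 3 * (B : K) =
      D ^ 3 * (x ^ 3 + (A : K) * x + (B : K)) := by ring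
  have e2 : ev (algebraMap K L D * θ) d * (algebraMap K L (D * x) - algebraMap K L D * θ) =
      ev (algebraMap K L D * θ) d * (algebraMap K L D * (algebraMap K L x - θ)) := by
    rw [map_mul]
    ring
  rw [e1] at h3 h4
  rw [e2] at h5 h6
  have hf : x ^ 3 + (A : K) * x + (B : K) ≠ 0 := right_ne_zero_of_mul h3
  have hxt : algebraMap K L x - θ ≠ 0 := right_ne_zero_of_mul (right_ne_zero_of_mul h5)
  rw [ord_mul (pow_ne_zero 3 hD0) hf, Tf_ord_pow, Tf_ord_pow] at h4
  rw [ord_mul hd (mul_ne_zero hDL hxt), ord_mul hDL hxt, Tf_ord_pow] at h6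
  obtain ⟨e, -, he⟩ := ord_dn (K := K) w
  have key : Even (ord (w.valuation L) (algebraMap K L D) +
      ord (w.valuation L) (algebraMap K L x - θ)) := by
    rw [he D hD0]
    by_cases hx : (dn K w).valuation K x ≤ 1
    · obtain ⟨w₁, -, hw1, hw2⟩ := ord_sub hF h (dn K w) hx hf
      have hcase : Even (ord ((dn K w).valuation K) (x ^ 3 + (A : K) * x + (B : K))) →
          Even (ord (w.valuation L) (algebraMap K L x - θ)) := by
        intro hev
        by_cases hww : w = w₁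
        · rw [hww, hw1]
          exact hev
        · rw [Tf_ord_one _ (hw2 w rfl hww)]
          exact Even.zero
      have hf0 : Even (ord ((dn K w).valuation K) (x ^ 3 + (A : K) * x + (B : K))) := by
        by_cases hq : dn K w = q₀
        · rw [Tf_ord_one]
          · exact Even.zero
          · refine Tf_unit (dn K w) ?_ hx
            rw [hq]
            exact hF.irr
        · obtain ⟨m, hm⟩ := hD.even (dn K w) hw hq
          refine ⟨ord ((dn K w).valuation K) y - 3 * m, ?_⟩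
          push_cast at h4
          rw [hm] at h4
          linarith
      have hDe : Even (ord ((dn K w).valuation K) D) := by
        obtain ⟨m, hm⟩ := hf0
        refine ⟨ord ((dn K w).valuation K) y - m - ord ((dn K w).valuation K) D, ?_⟩
        push_cast at h4
        linarith
      exact (hDe.mul_left _).add (hcase hf0)
    · rw [not_le] at hx
      obtain ⟨g1, -, -, g4⟩ := ord_sub_big (w := w) h hx
      have hx0 : x ≠ 0 := by
        rintro rfl
        rw [map_zero] at hx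
        exact absurd hx (not_lt.2 zero_le)
      have g5 : ord (w.valuation L) (algebraMap K L x - θ) =
          e * ord ((dn K w).valuation K) x := by
        rw [← he x hx0]
        unfold ord
        rw [g1]
      have g6 : ord ((dn K w).valuation K) (x ^ 3 + (A : K) * x + (B : K)) =
          3 * ord ((dn K w).valuation K) x := by
        have g7 := Tf_ord_pow ((dn K w).valuation K) x 3
        rw [Nat.cast_ofNat] at g7
        rw [← g7]
        unfold ord
        rw [g4, map_pow]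
      rw [g5, ← mul_add]
      refine Even.mul_left ?_ _
      refine ⟨ord ((dn K w).valuation K) y - ord ((dn K w).valuation K) D -
        ord ((dn K w).valuation K) x, ?_⟩
      rw [g6] at h4
      push_cast at h4
      linarith
  rw [H38T1.eo_sc hd]
  obtain ⟨m, hm⟩ := key
  have h7 : ord (w.valuation L) (ev (algebraMap K L D * θ) d) =
      (ord (w.valuation L) z - m) + (ord (w.valuation L) z - m) := by
    push_cast at h6
    linarith
  rw [h7, Int.cast_add]
  exact CharTwo.add_self_eq_zero _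

end H76PP

end S_H76_PP_Tf

section S_H76_PP_Tg

set_option autoImplicit false
set_option linter.unusedSectionVars false
open scoped Classical

open WithZero NumberField IsDedekindDomain H38RT
open H38T1 (SC sc scu rep eo la si Pri OddP tp unif)

namespace H76PP

variable {K L : Type} [Field K] [NumberField K] [Field L] [NumberField L] [Algebra K L]

theorem Tg_twist {K L : Type} [Field K] [Field L] [Algebra K L] {A B : K} {θ : L}
    (h : Cub K L A B θ) {D : K} (hD : D ≠ 0) :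
    Cub K L (D ^ 2 * A) (D ^ 3 * B) (algebraMap K L D * θ) := by
  have hr := h.root
  have hD' : algebraMap K L D ≠ 0 := (map_ne_zero _).2 hD
  refine ⟨?_, ?_, ?_⟩
  · simp only [map_mul, map_pow]
    linear_combination (algebraMap K L D) ^ 3 * hr
  · intro c₀ c₁ c₂ hc
    have h1 : algebraMap K L c₀ + algebraMap K L (c₁ * D) * θ +
        algebraMap K L (c₂ * D ^ 2) * θ ^ 2 = 0 := by
      simp only [map_mul, map_pow]
      linear_combination hc
    obtain ⟨h0, h2, h3⟩ := h.li _ _ _ h1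
    refine ⟨h0, ?_, ?_⟩
    · exact (mul_eq_zero.1 h2).resolve_right hD
    · exact (mul_eq_zero.1 h3).resolve_right (pow_ne_zero 2 hD)
  · intro x
    obtain ⟨c₀, c₁, c₂, hx⟩ := h.sp x
    refine ⟨c₀, c₁ / D, c₂ / D ^ 2, ?_⟩
    rw [hx]
    simp only [map_div₀, map_pow]
    field_simp

section Units

variable {F : Type} [Field F] {V : Valuation F (WithZero (Multiplicative ℤ))}

theorem Tg_ne {c : F} (h : V (c - 1) < 1) : V c = 1 ∧ c ≠ 0 := by
  have h1 : V c = 1 := by
    have h2 : c = 1 + (c - 1) := by ring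
    rw [h2]
    exact V.map_one_add_of_lt h
  refine ⟨h1, fun h0 => ?_⟩
  rw [h0, map_zero] at h1
  exact zero_ne_one h1

theorem Tg_mul {c c' : F} (h : V (c - 1) < 1) (h' : V (c' - 1) < 1) : V (c * c' - 1) < 1 := by
  have h1 : c * c' - 1 = (c - 1) * c' + (c' - 1) := by ring
  rw [h1]
  refine Valuation.map_add_lt V ?_ h'
  rw [map_mul, (Tg_ne h').1, mul_one]
  exact h

theorem Tg_inv {c : F} (h : V (c - 1) < 1) : V (c⁻¹ - 1) < 1 := by
  obtain ⟨h1, h2⟩ := Tg_ne h
  have h3 : c⁻¹ - 1 = -((c - 1) * c⁻¹) := by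
    field_simp
    ring
  rw [h3, Valuation.map_neg, map_mul, map_inv₀, h1, inv_one, mul_one]
  exact h

theorem Tg_rel {a b : F} (h : V (a / b ^ 2 - 1) < 1) (hb : b ≠ 0) : a ≠ 0 ∧ ord V a = 2 * ord V b := by
  obtain ⟨h1, h2⟩ := Tg_ne h
  have hb2 : b ^ 2 ≠ 0 := pow_ne_zero 2 hb
  have h3 : a = a / b ^ 2 * (b * b) := by
    rw [← pow_two]
    field_simp
  have ha : a ≠ 0 := by
    intro h0
    rw [h0, zero_div] at h2
    exact h2 rfl
  refine ⟨ha, ?_⟩
  have h4 : ord V (a / b ^ 2) = 0 := by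
    unfold ord
    rw [h1, WithZero.log_one, neg_zero]
  have h5 : ord V a = ord V (a / b ^ 2 * (b * b)) := by rw [← h3]
  rw [h5, ord_mul h2 (mul_ne_zero hb hb), ord_mul hb hb, h4]
  ring

end Units

theorem Tg_even {n : ℤ} : ((n : ZMod 2) = 0) ↔ Even n := by
  rw [ZMod.intCast_zmod_eq_zero_iff_dvd]
  exact even_iff_two_dvd.symm

theorem Tg_la {w : HeightOneSpectrum (𝓞 L)} (hv : OddP w) {c : L} (h : w.valuation L (c - 1) < 1) :
    la w (sc c) = 0 := by
  obtain ⟨h1, h2⟩ := Tg_ne h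
  rw [H38T1.la_sc hv h2, lam_unit h1, if_pos]
  exact ⟨1, by rwa [one_pow]⟩

theorem Tg_sq {s c : L} (hs : s ≠ 0) (hc : c ≠ 0) : (sc (s ^ 2 * c) : SC L) = sc c := by
  have hs2 : s ^ 2 ≠ 0 := pow_ne_zero 2 hs
  have h1 : (sc (s ^ 2) : SC L) = 0 := (H38T1.sc_eq_zero hs2).2 ⟨s, pow_two s⟩
  rw [H38T1.sc_mul hs2 hc, h1, zero_add]

/-- the case of a denominator -/
theorem Tg_big {A B : 𝓞 K} {θ : L} (h : Cub K L (A : K) (B : K) θ) {D x y : K} {δ z : L} (hD : D ≠ 0)
    (hy : y ≠ 0) (hz : z ≠ 0) {w : HeightOneSpectrum (𝓞 L)} (hodd : OddP w)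
    (hx : 1 < (dn K w).valuation K x)
    (h1 : (dn K w).valuation K (D ^ 3 * (x ^ 3 + (A : K) * x + (B : K)) / y ^ 2 - 1) < 1)
    (h2 : w.valuation L (δ * (algebraMap K L D * (algebraMap K L x - θ)) / z ^ 2 - 1) < 1) :
    la w (sc δ) = 0 := by
  obtain ⟨b1, b2, b3, b4⟩ := ord_sub_big h hx
  have hx0 : x ≠ 0 := by
    rintro rfl
    rw [map_zero] at hx
    exact absurd hx (not_lt.2 zero_le_one)
  have hax : algebraMap K L x ≠ 0 := (map_ne_zero _).2 hx0
  have haD : algebraMap K L D ≠ 0 := (map_ne_zero _).2 hD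
  have hay : algebraMap K L y ≠ 0 := (map_ne_zero _).2 hy
  obtain ⟨f, hf⟩ : ∃ f, f = x ^ 3 + (A : K) * x + (B : K) := ⟨_, rfl⟩
  rw [← hf] at h1 b3
  have hf0 : f ≠ 0 := by
    intro h0
    have h3 := (Tg_ne b3).2
    rw [h0, zero_div] at h3
    exact h3 rfl
  have haf : algebraMap K L f ≠ 0 := (map_ne_zero _).2 hf0
  have u1 : w.valuation L (algebraMap K L (D ^ 3 * f / y ^ 2) - 1) < 1 := by
    have h3 := val_lt (w := w) h1
    rwa [map_sub, map_one] at h3
  have u2 : w.valuation L (algebraMap K L (f / x ^ 3) - 1) < 1 := by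
    have h3 := val_lt (w := w) b3
    rwa [map_sub, map_one] at h3
  have u3 : w.valuation L ((1 - θ / algebraMap K L x) - 1) < 1 := by
    have h3 : (1 - θ / algebraMap K L x) - 1 = -(θ / algebraMap K L x) := by ring
    rw [h3, Valuation.map_neg]
    exact b2
  have h3 : 1 - θ / algebraMap K L x = (algebraMap K L x - θ) / algebraMap K L x := by
    field_simp
  have hxt : algebraMap K L x - θ ≠ 0 := by
    intro h0
    rw [h3, h0, zero_div] at u3
    exact (Tg_ne u3).2 rfl
  have u := Tg_mul (Tg_mul (Tg_mul h2 u2) (Tg_inv u1)) (Tg_inv u3)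
  have hs : z * algebraMap K L (D * x / y) ≠ 0 :=
    mul_ne_zero hz ((map_ne_zero _).2 (div_ne_zero (mul_ne_zero hD hx0) hy))
  have e : δ = (z * algebraMap K L (D * x / y)) ^ 2 *
      (δ * (algebraMap K L D * (algebraMap K L x - θ)) / z ^ 2 * algebraMap K L (f / x ^ 3) *
        (algebraMap K L (D ^ 3 * f / y ^ 2))⁻¹ * (1 - θ / algebraMap K L x)⁻¹) := by
    rw [h3]
    simp only [map_div₀, map_mul, map_pow]
    field_simp
  rw [e, Tg_sq hs (Tg_ne u).2]
  exact Tg_la hodd u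

theorem at_J {q₀ : HeightOneSpectrum (𝓞 K)} {T J : Finset (HeightOneSpectrum (𝓞 K))}
    {A B : 𝓞 K} (hF : Fam q₀ T A B) {θ : L} (h : Cub K L (A : K) (B : K) θ) {D : K}
    (hD : TwD q₀ J D) {d : Fin 3 → K} (hd : ev (algebraMap K L D * θ) d ≠ 0)
    {v : HeightOneSpectrum (𝓞 K)} (hv : v ∈ J) (h6 : (6 : 𝓞 K) ∉ v.asIdeal)
    {w₁ w₂ : HeightOneSpectrum (𝓞 L)} (h2 : Two K θ v w₁ w₂)
    (hLC : LC (algebraMap K (v.adicCompletion K)) (D ^ 2 * A) (D ^ 3 * B) d) :
    eo w₁ (sc (ev (algebraMap K L D * θ) d)) = 0 ∧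
    (eo w₂ (sc (ev (algebraMap K L D * θ) d)) = 0 →
      la w₁ (sc (ev (algebraMap K L D * θ) d)) = 0 ∧
      la w₂ (sc (ev (algebraMap K L D * θ) d)) = 0) := by
  have h' := Tg_twist h hD.ne
  obtain ⟨x', y, z, hy, hz, h1, hw⟩ := LC_approx h' hd v hLC
  obtain ⟨δ, hδ⟩ : ∃ δ, δ = ev (algebraMap K L D * θ) d := ⟨_, rfl⟩
  rw [← hδ] at hd hw ⊢
  obtain ⟨x, hx'⟩ : ∃ x, x' = D * x := ⟨x' / D, by rw [mul_div_cancel₀ _ hD.ne]⟩
  rw [hx'] at h1 hw
  have hDne := hD.ne
  have hD' : algebraMap K L D ≠ 0 := (map_ne_zero _).2 hDne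
  have e1 : (D * x) ^ 3 + D ^ 2 * (A : K) * (D * x) + D ^ 3 * (B : K) =
      D ^ 3 * (x ^ 3 + (A : K) * x + (B : K)) := by ring
  rw [e1] at h1
  have e2 : δ * (algebraMap K L (D * x) - algebraMap K L D * θ) =
      δ * (algebraMap K L D * (algebraMap K L x - θ)) := by
    rw [map_mul]
    ring
  rw [e2] at hw
  have hoddv : OddP v := by
    by_contra hno
    rw [H38T1.not_oddP] at hno
    apply h6
    have h3 : (2 : 𝓞 K) ∈ v.asIdeal := by
      rw [← HeightOneSpectrum.valuation_lt_one_iff_mem (K := K)]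
      have h4 : (algebraMap (𝓞 K) K) 2 = 2 := map_ofNat (algebraMap (𝓞 K) K) 2
      change v.valuation K (algebraMap (𝓞 K) K 2) < 1
      rw [h4]
      exact hno
    have h5 : (6 : 𝓞 K) = 3 * 2 := by norm_num
    rw [h5]
    exact v.asIdeal.mul_mem_left _ h3
  have hodd1 : OddP w₁ := by
    rw [oddP_dn (K := K), h2.dn1]
    exact hoddv
  have hodd2 : OddP w₂ := by
    rw [oddP_dn (K := K), h2.dn2]
    exact hoddv
  obtain ⟨f, hf⟩ : ∃ f, f = x ^ 3 + (A : K) * x + (B : K) := ⟨_, rfl⟩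
  have r0 := Tg_rel h1 hy
  rw [← hf] at r0
  obtain ⟨n0, r0⟩ := r0
  have hf0 : f ≠ 0 := right_ne_zero_of_mul n0
  have hDDD : ord (v.valuation K) (D ^ 3) = 3 * ord (v.valuation K) D := by
    have h3 : D ^ 3 = D * D * D := by ring
    rw [h3, ord_mul (mul_ne_zero hDne hDne) hDne, ord_mul hDne hDne]
    ring
  rw [ord_mul (pow_ne_zero 3 hDne) hf0, hDDD] at r0
  obtain ⟨n1, r1⟩ := Tg_rel (hw w₁ h2.dn1) hz
  obtain ⟨n2, r2⟩ := Tg_rel (hw w₂ h2.dn2) hz
  have hxt : algebraMap K L x - θ ≠ 0 := right_ne_zero_of_mul (right_ne_zero_of_mul n1)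
  rw [ord_mul hd (mul_ne_zero hD' hxt), ord_mul hD' hxt, h2.ord1 D hDne] at r1
  rw [ord_mul hd (mul_ne_zero hD' hxt), ord_mul hD' hxt, h2.ord2 D hDne] at r2
  have hodd := hD.odd v hv
  rw [H38T1.eo_sc hd, H38T1.eo_sc hd, Tg_even, Tg_even]
  rcases le_or_gt (v.valuation K x) 1 with hx | hx
  · have g1 := h2.unit2 x hx
    have g2 : ord (w₂.valuation L) (algebraMap K L x - θ) = 0 := by
      unfold ord
      rw [g1, WithZero.log_one, neg_zero]
    rw [g2] at r2
    obtain ⟨w', g3, g4, g5⟩ := ord_sub hF h v hx (by rw [← hf]; exact hf0)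
    rw [← hf] at g4
    have g6 : w' = w₁ := by
      rcases h2.only w' g3 with h3 | h3
      · exact h3
      · exfalso
        rw [h3, g2] at g4
        rw [← g4] at r0
        obtain ⟨m, hm⟩ := hodd
        omega
    rw [g6] at g4
    rw [g4] at r1
    obtain ⟨m, hm⟩ := hodd
    constructor
    · rw [Int.even_iff]
      omega
    · intro h3
      exfalso
      obtain ⟨m', hm'⟩ := h3
      omega
  · have hx1 : 1 < (dn K w₁).valuation K x := by rw [h2.dn1]; exact hx
    have hx2 : 1 < (dn K w₂).valuation K x := by rw [h2.dn2]; exact hx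
    have hx0 : x ≠ 0 := by
      rintro rfl
      rw [map_zero] at hx
      exact absurd hx (not_lt.2 zero_le_one)
    obtain ⟨b1, -, -, b4⟩ := ord_sub_big h hx1
    obtain ⟨b1', -, -, -⟩ := ord_sub_big h hx2
    rw [h2.dn1, ← hf] at b4
    have o1 : ord (w₁.valuation L) (algebraMap K L x - θ) = ord (v.valuation K) x := by
      rw [← h2.ord1 x hx0]
      unfold ord
      rw [b1]
    have o2 : ord (w₂.valuation L) (algebraMap K L x - θ) = ord (v.valuation K) x := by
      rw [← h2.ord2 x hx0]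
      unfold ord
      rw [b1']
    have of : ord (v.valuation K) f = 3 * ord (v.valuation K) x := by
      have h3 : ord (v.valuation K) f = ord (v.valuation K) (x * x * x) := by
        unfold ord
        rw [b4, map_mul, map_mul, pow_succ, pow_two]
      rw [h3, ord_mul (mul_ne_zero hx0 hx0) hx0, ord_mul hx0 hx0]
      ring
    rw [of] at r0
    rw [o1] at r1
    rw [o2] at r2
    obtain ⟨m, hm⟩ := hodd
    refine ⟨?_, fun _ => ⟨?_, ?_⟩⟩
    · rw [Int.even_iff]
      omega
    · refine Tg_big h hDne hy hz hodd1 hx1 ?_ (hw w₁ h2.dn1)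
      rw [h2.dn1]
      exact h1
    · refine Tg_big h hDne hy hz hodd2 hx2 ?_ (hw w₂ h2.dn2)
      rw [h2.dn2]
      exact h1

end H76PP

end S_H76_PP_Tg

section S_H76_PP_Th

set_option autoImplicit false
set_option linter.unusedSectionVars false
open scoped Classical

open WithZero NumberField IsDedekindDomain H38RT
open H38T1 (SC sc scu rep eo la si Pri OddP tp unif)

namespace H76PP

theorem Th_m3_0 {F : Type*} [CommRing F] (a b : F) (u v : Fin 3 → F) :
    m3 a b u v 0 = u 0 * v 0 - b * (u 1 * v 2 + u 2 * v 1) := rfl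

theorem Th_m3_1 {F : Type*} [CommRing F] (a b : F) (u v : Fin 3 → F) :
    m3 a b u v 1 = u 0 * v 1 + u 1 * v 0 - a * (u 1 * v 2 + u 2 * v 1) - b * (u 2 * v 2) := rfl

theorem Th_m3_2 {F : Type*} [CommRing F] (a b : F) (u v : Fin 3 → F) :
    m3 a b u v 2 = u 0 * v 2 + u 1 * v 1 + u 2 * v 0 - a * (u 2 * v 2) := rfl

theorem LC_twist {K F : Type*} [Field K] [Field F] (i : K →+* F) {A B D : K} (hD : D ≠ 0)
    {d' : Fin 3 → K} {r : F} (hr : i D = r ^ 2) (hLC : LC i (D ^ 2 * A) (D ^ 3 * B) d') :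
    LC i A B (fun j => d' j * D ^ (j : ℕ)) := by
  have hr0 : r ≠ 0 := by
    intro h
    rw [h] at hr
    apply hD
    have h1 : i D = 0 := by rw [hr]; ring
    exact (map_eq_zero i).1 h1
  obtain ⟨x, y, z, hy, hxy, hm⟩ := hLC
  have h0 := congrFun hm 0
  have h1 := congrFun hm 1
  have h2 := congrFun hm 2
  rw [Th_m3_0, Th_m3_0] at h0
  rw [Th_m3_1, Th_m3_1] at h1
  rw [Th_m3_2, Th_m3_2] at h2
  simp only [Matrix.cons_val_zero, Matrix.cons_val_one, Matrix.cons_val_two, Matrix.head_cons,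
    Matrix.tail_cons, map_mul, map_pow, hr] at h0 h1 h2 hxy
  refine ⟨x / r ^ 2, y / r ^ 3, fun j => z j * (r ^ 2) ^ (j : ℕ) / r, ?_, ?_, ?_⟩
  · exact div_ne_zero hy (pow_ne_zero 3 hr0)
  · field_simp
    linear_combination hxy
  · funext j
    fin_cases j
    · show m3 (i A) (i B) _ _ 0 = m3 (i A) (i B) _ _ 0
      rw [Th_m3_0, Th_m3_0]
      simp only [Matrix.cons_val_zero, Matrix.cons_val_one, Matrix.cons_val_two, Matrix.head_cons,
        Matrix.tail_cons, map_mul, map_pow, hr, Fin.val_zero, Fin.val_one,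
        Fin.val_two, pow_zero, pow_one, mul_one]
      field_simp
      linear_combination h0
    · show m3 (i A) (i B) _ _ 1 = m3 (i A) (i B) _ _ 1
      rw [Th_m3_1, Th_m3_1]
      simp only [Matrix.cons_val_zero, Matrix.cons_val_one, Matrix.cons_val_two, Matrix.head_cons,
        Matrix.tail_cons, map_mul, map_pow, hr, Fin.val_zero, Fin.val_one,
        Fin.val_two, pow_zero, pow_one, mul_one]
      field_simp
      linear_combination h1
    · show m3 (i A) (i B) _ _ 2 = m3 (i A) (i B) _ _ 2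
      rw [Th_m3_2, Th_m3_2]
      simp only [Matrix.cons_val_zero, Matrix.cons_val_one, Matrix.cons_val_two, Matrix.head_cons,
        Matrix.tail_cons, map_mul, map_pow, hr, Fin.val_zero, Fin.val_one,
        Fin.val_two, pow_zero, pow_one, mul_one]
      field_simp
      linear_combination r ^ 2 * h2

theorem sq_two {K : Type} [Field K] [NumberField K] {v : HeightOneSpectrum (𝓞 K)}
    (h2 : v.valuation K 2 < 1) {D m : K} (hm : m ≠ 0)
    (h : v.valuation K (D * m ^ 2 - 1) ≤ v.valuation K 8) :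
    ∃ r : v.adicCompletion K, algebraMap K (v.adicCompletion K) D = r ^ 2 := by
  have hval : ∀ k : K, (Valued.v (algebraMap K (v.adicCompletion K) k) :
      WithZero (Multiplicative ℤ)) = v.valuation K k := fun k =>
    HeightOneSpectrum.valuedAdicCompletion_eq_valuation' v k
  have h20 : (2 : v.adicCompletion K) ≠ 0 := by
    have e : (2 : v.adicCompletion K) = algebraMap K (v.adicCompletion K) 2 := by
      rw [map_ofNat]
    rw [e, Ne, map_eq_zero]
    exact two_ne_zero
  have h8 : v.valuation K 8 < v.valuation K 4 := by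
    have e1 : (8 : K) = 4 * 2 := by norm_num
    have e2 : v.valuation K 4 ≠ 0 := (Valuation.ne_zero_iff _).2 (by norm_num)
    rw [e1, map_mul]
    have h3 := mul_lt_mul_of_pos_left h2 (zero_lt_iff.2 e2)
    rwa [mul_one] at h3
  have h4 : (Valued.v (algebraMap K (v.adicCompletion K) (D * m ^ 2 - 1)) :
      WithZero (Multiplicative ℤ)) < Valued.v (4 : v.adicCompletion K) := by
    have e : (4 : v.adicCompletion K) = algebraMap K (v.adicCompletion K) 4 := by
      rw [map_ofNat]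
    rw [e, hval, hval]
    exact lt_of_le_of_lt h h8
  obtain ⟨t, ht⟩ := Pool.Agent.H10.isSquare_one_add h20 h4
  have e3 : 1 + algebraMap K (v.adicCompletion K) (D * m ^ 2 - 1) =
      algebraMap K (v.adicCompletion K) D * algebraMap K (v.adicCompletion K) m ^ 2 := by
    rw [map_sub, map_one, map_mul, map_pow]
    ring
  rw [e3] at ht
  have hm0 : algebraMap K (v.adicCompletion K) m ≠ 0 := by
    rw [Ne, map_eq_zero]
    exact hm
  refine ⟨t / algebraMap K (v.adicCompletion K) m, ?_⟩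
  rw [div_pow, eq_div_iff (pow_ne_zero 2 hm0), ht]
  ring

end H76PP

end S_H76_PP_Th

section S_H76_PP_Ti

set_option autoImplicit false
open scoped Classical

namespace H76PP

theorem exists_J {V ι : Type*} [AddCommGroup V] (H : AddSubgroup V) (T : Finset ι)
    (u : ι → V →+ ZMod 2) (hker : ∀ y ∈ H, (∀ v ∈ T, u v y = 0) → y = 0) :
    ∃ J ⊆ T, (∀ y ∈ H, (∀ v ∈ J, u v y = 0) → y = 0) ∧
      ∀ r : ι → ZMod 2, (∀ y ∈ H, ∑ v ∈ J, r v * u v y = 0) → ∀ v ∈ J, r v = 0 := by
  have hne : (T.powerset.filter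
      (fun J => ∀ y ∈ H, (∀ v ∈ J, u v y = 0) → y = 0)).Nonempty :=
    ⟨T, Finset.mem_filter.2 ⟨Finset.mem_powerset_self T, hker⟩⟩
  obtain ⟨J, hJ, hmin⟩ := Finset.exists_min_image _ Finset.card hne
  obtain ⟨hJT, hJk⟩ := Finset.mem_filter.1 hJ
  rw [Finset.mem_powerset] at hJT
  refine ⟨J, hJT, hJk, ?_⟩
  intro r hr v₀ hv₀
  by_contra hne0
  have h1 : r v₀ = 1 := by
    have h2 : ∀ z : ZMod 2, z ≠ 0 → z = 1 := by decide
    exact h2 _ hne0
  have hE : ∀ y ∈ H, (∀ v ∈ J.erase v₀, u v y = 0) → y = 0 := by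
    intro y hy hv
    refine hJk y hy (fun v hvJ => ?_)
    by_cases hvv : v = v₀
    · subst hvv
      have h3 := hr y hy
      rw [← Finset.add_sum_erase J _ hvJ, h1, one_mul] at h3
      have h4 : ∑ x ∈ J.erase v, r x * u x y = 0 :=
        Finset.sum_eq_zero (fun x hx => by rw [hv x hx, mul_zero])
      rw [h4, add_zero] at h3
      exact h3
    · exact hv v (Finset.mem_erase.2 ⟨hvv, hvJ⟩)
  have h5 := hmin (J.erase v₀) (Finset.mem_filter.2
    ⟨Finset.mem_powerset.2 ((Finset.erase_subset _ _).trans hJT), hE⟩)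
  have h6 := Finset.card_erase_lt_of_mem hv₀
  omega

end H76PP

end S_H76_PP_Ti

section S_H76_PP_Tj

set_option autoImplicit false
set_option linter.unusedSectionVars false
open scoped Classical

open WithZero NumberField IsDedekindDomain H38RT
open H38T1 (SC sc scu rep eo la si Pri OddP tp unif)

namespace H76PP

/-- The statements of block R2. -/
structure HR2 (K L : Type) [Field K] [NumberField K] [Field L] [NumberField L] [Algebra K L]
    (A B : 𝓞 K) (θ : L) : Prop where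
  proj : ∀ {v : HeightOneSpectrum (𝓞 K)}, OddP v → ∀ {u : L}, u ≠ 0 → ∀ {c : K}, c ≠ 0 →
    ∑ᶠ w : {w : HeightOneSpectrum (𝓞 L) // dn K w = v},
      tp w.1 (sc u) (sc (algebraMap K L c)) = tp v (sc (Algebra.norm K u)) (sc c)
  iso : ∀ {d d' : Fin 3 → K}, ev θ d ≠ 0 → ev θ d' ≠ 0 → IsSquare (Algebra.norm K (ev θ d)) →
    IsSquare (Algebra.norm K (ev θ d')) →
    (∀ v : HeightOneSpectrum (𝓞 K), v.valuation K 2 < 1 →
      LC (algebraMap K (v.adicCompletion K)) (A : K) (B : K) d ∧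
      LC (algebraMap K (v.adicCompletion K)) (A : K) (B : K) d') →
    (∀ s : K →+* ℝ, LC s (A : K) (B : K) d ∧ LC s (A : K) (B : K) d') →
    ∑ᶠ w : HeightOneSpectrum (𝓞 L),
      (if OddP w then tp w (sc (ev θ d)) (sc (ev θ d')) else 0) = 0

private theorem Tj_odd {K : Type} [Field K] [NumberField K] {v : HeightOneSpectrum (𝓞 K)}
    (h6 : (6 : 𝓞 K) ∉ v.asIdeal) : OddP v := by
  have h2 : (2 : 𝓞 K) ∉ v.asIdeal := by
    intro h
    apply h6
    have : (6 : 𝓞 K) = 3 * 2 := by norm_num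
    rw [this]
    exact v.asIdeal.mul_mem_left _ h
  have h3 := (v.valuation_eq_one_iff_notMem (K := K) (r := (2 : 𝓞 K))).2 h2
  unfold H38T1.OddP
  rw [← h3]
  congr 1

private theorem Tj_unif_ne {K : Type} [Field K] [NumberField K] (v : HeightOneSpectrum (𝓞 K)) :
    unif v ≠ 0 := by
  intro h
  have h1 := H38T1.unif_spec v
  rw [h, map_zero] at h1
  exact exp_ne_zero h1.symm

private theorem Tj_neg {L : Type} [Field L] (c : SC L) : -c = c := by
  have h := H38T1.SC.two_smul c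
  rw [two_nsmul] at h
  exact neg_eq_of_add_eq_zero_left h

private theorem Tj_la {K L : Type} [Field K] [NumberField K] [Field L] [NumberField L]
    [Algebra K L] {A B : 𝓞 K} {θ : L} (hR : HR2 K L A B θ) {v : HeightOneSpectrum (𝓞 K)}
    (hv : OddP v) {w₁ w₂ : HeightOneSpectrum (𝓞 L)} (h2 : Two K θ v w₁ w₂) {c : SC L}
    (h1 : eo w₁ c = 0) (h1' : eo w₂ c = 0) (hc : scm (Algebra.norm K : L →* K) c = 0) :
    la w₁ c = la w₂ c := by
  obtain ⟨y, hy, rfl⟩ := H38T1.sc_surj c
  have hu := Tj_unif_ne v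
  have h3 := hR.proj hv hy hu
  rw [scm_sc _ hy] at hc
  have h4 : sc (Algebra.norm K y) = (0 : SC K) := hc
  have h5 : tp v (sc (Algebra.norm K y)) (sc (unif v)) = 0 := by
    rw [h4]
    unfold H38T1.tp
    rw [H38T1.eo_zero, H38T1.la_zero hv]
    ring
  have e1 : (ord (v.valuation K) (unif v) : ZMod 2) = 1 := by
    have : ord (v.valuation K) (unif v) = 1 := by
      unfold ord
      rw [H38T1.unif_spec]
      simp
    rw [this]
    simp
  have hne : algebraMap K L (unif v) ≠ 0 := (map_ne_zero _).2 hu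
  have t1 : tp w₁ (sc y) (sc (algebraMap K L (unif v))) = la w₁ (sc y) := by
    unfold H38T1.tp
    rw [h1, H38T1.eo_sc hne, h2.ord1 _ hu, e1]
    ring
  have t2 : tp w₂ (sc y) (sc (algebraMap K L (unif v))) = la w₂ (sc y) := by
    unfold H38T1.tp
    rw [h1', H38T1.eo_sc hne, h2.ord2 _ hu, e1]
    ring
  have h6 : ∑ᶠ w : {w : HeightOneSpectrum (𝓞 L) // dn K w = v},
      tp w.1 (sc y) (sc (algebraMap K L (unif v))) = la w₁ (sc y) + la w₂ (sc y) := by
    rw [← t1, ← t2, ← finsum_mem_pair (f := fun w => tp w (sc y) (sc (algebraMap K L (unif v)))) h2.ne,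
      finsum_subtype_eq_finsum_cond (f := fun w => tp w (sc y) (sc (algebraMap K L (unif v))))]
    refine finsum_congr fun w => ?_
    have hw : (dn K w = v) ↔ w ∈ ({w₁, w₂} : Set (HeightOneSpectrum (𝓞 L))) := by
      constructor
      · intro h
        rcases h2.only w h with h | h
        · exact Or.inl h
        · exact Or.inr h
      · rintro (h | h)
        · rw [h]
          exact h2.dn1
        · rw [Set.mem_singleton_iff.1 h]
          exact h2.dn2
    rw [finsum_congr_Prop (propext hw) fun _ => rfl]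
  rw [h6, h5] at h3
  exact CharTwo.add_eq_zero.1 h3

theorem sel_of_HR2 {K : Type} [Field K] [NumberField K] {q₀ : HeightOneSpectrum (𝓞 K)}
    {T : Finset (HeightOneSpectrum (𝓞 K))} (hT : ∀ v ∈ T, v ≠ q₀ ∧ (6 : 𝓞 K) ∉ v.asIdeal)
    {A B : 𝓞 K} (hF : Fam q₀ T A B) (hB : ¬ BadP T A B) {L : Type} [Field L] [NumberField L]
    [Algebra K L] {θ : L} (hL : Cub K L (A : K) (B : K) θ) (hR : HR2 K L A B θ) :
    ∃ J ⊆ T, ∀ D : K, TwD q₀ J D →
      SelTriv K L (D ^ 2 * A) (D ^ 3 * B) (algebraMap K L D * θ) := by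
  obtain ⟨w₀, -⟩ := exists_above (L := L) q₀
  have : Nonempty (HeightOneSpectrum (𝓞 L)) := ⟨w₀⟩
  have h2 : ∀ v ∈ T, ∃ w₁ w₂ : HeightOneSpectrum (𝓞 L), Two K θ v w₁ w₂ := fun v hv =>
    exists_two hF hL hv (hT v hv).2
  choose! w₁ w₂ hw using h2
  have hodd : ∀ v ∈ T, OddP v := fun v hv => Tj_odd (hT v hv).2
  have hodd1 : ∀ v ∈ T, OddP (w₁ v) := fun v hv => by
    rw [oddP_dn (K := K), (hw v hv).dn1]
    exact hodd v hv
  have hodd2 : ∀ v ∈ T, OddP (w₂ v) := fun v hv => by
    rw [oddP_dn (K := K), (hw v hv).dn2]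
    exact hodd v hv
  have hu : ∃ u : HeightOneSpectrum (𝓞 K) → SC L →+ ZMod 2, ∀ v ∈ T, ∀ c, u v c = la (w₁ v) c := by
    refine ⟨fun v => if h : v ∈ T then ⟨⟨la (w₁ v), H38T1.la_zero (hodd1 v h)⟩,
      H38T1.la_add (hodd1 v h)⟩ else 0, fun v hv c => ?_⟩
    beta_reduce
    rw [dif_pos hv]
    rfl
  obtain ⟨u, hu⟩ := hu
  let Y : Set (SC L) := {c | ∃ d : Fin 3 → K, ev θ d ≠ 0 ∧ c = sc (ev θ d) ∧
    IsSquare (Algebra.norm K (ev θ d)) ∧ (∀ w, eo w c = 0) ∧
    (∀ v : HeightOneSpectrum (𝓞 K), v.valuation K 2 < 1 →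
      LC (algebraMap K (v.adicCompletion K)) (A : K) (B : K) d) ∧
    ∀ s : K →+* ℝ, LC s (A : K) (B : K) d}
  have hYn : ∀ c ∈ Y, scm (Algebra.norm K : L →* K) c = 0 := by
    rintro c ⟨d, hd, rfl, hs, -⟩
    rw [scm_sc _ hd]
    exact (H38T1.sc_eq_zero (scm_ne _ hd)).2 hs
  have hH : ∀ c ∈ AddSubgroup.closure Y, (∀ w, eo w c = 0) ∧
      scm (Algebra.norm K : L →* K) c = 0 := by
    intro c hc
    induction hc using AddSubgroup.closure_induction with
    | mem c hc =>
      refine ⟨?_, hYn c hc⟩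
      obtain ⟨d, -, -, -, h, -⟩ := hc
      exact h
    | zero => exact ⟨fun w => H38T1.eo_zero w, map_zero _⟩
    | add c c' _ _ h h' =>
      refine ⟨fun w => ?_, ?_⟩
      · rw [H38T1.eo_add, h.1, h'.1, add_zero]
      · rw [map_add, h.2, h'.2, add_zero]
    | neg c _ h =>
      rw [Tj_neg]
      exact h
  have hla : ∀ v ∈ T, ∀ c ∈ AddSubgroup.closure Y, la (w₁ v) c = la (w₂ v) c := fun v hv c hc =>
    Tj_la hR (hodd v hv) (hw v hv) ((hH c hc).1 _) ((hH c hc).1 _) (hH c hc).2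
  have hker : ∀ y ∈ AddSubgroup.closure Y, (∀ v ∈ T, u v y = 0) → y = 0 := by
    intro c hc h
    by_contra hne
    refine hB ⟨L, _, _, _, θ, c, hL, hne, (hH c hc).2, (hH c hc).1, fun w hwT => ?_⟩
    have h3 : la (w₁ (dn K w)) c = 0 := by
      rw [← hu _ hwT]
      exact h _ hwT
    rcases (hw _ hwT).only w rfl with h4 | h4
    · rw [h4]
      exact h3
    · rw [h4, ← hla _ hwT c hc]
      exact h3
  obtain ⟨J, hJT, hJ1, hJ2⟩ := exists_J (AddSubgroup.closure Y) T u hker
  refine ⟨J, hJT, fun D hD d' hd' hsq hLC hLCr => ?_⟩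
  set δ := ev (algebraMap K L D * θ) d' with hδ
  have hev : ev θ (fun j => d' j * D ^ (j : ℕ)) = δ := by
    rw [hδ]
    simp only [ev, map_mul, map_pow, Fin.val_zero, Fin.val_one, Fin.val_two]
    ring
  have hd : ev θ (fun j => d' j * D ^ (j : ℕ)) ≠ 0 := by
    rw [hev]
    exact hd'
  have hL2 : ∀ v : HeightOneSpectrum (𝓞 K), v.valuation K 2 < 1 →
      LC (algebraMap K (v.adicCompletion K)) (A : K) (B : K) (fun j => d' j * D ^ (j : ℕ)) := by
    intro v hv
    obtain ⟨m, hm, h⟩ := hD.two v hv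
    obtain ⟨r, hr⟩ := sq_two hv hm h
    exact LC_twist _ hD.ne hr (hLC v)
  have hLr : ∀ s : K →+* ℝ, LC s (A : K) (B : K) (fun j => d' j * D ^ (j : ℕ)) := by
    intro s
    exact LC_twist _ hD.ne (Real.sq_sqrt (hD.pos s).le).symm (hLCr s)
  have hoff : ∀ w : HeightOneSpectrum (𝓞 L), dn K w ∉ J → eo w (sc δ) = 0 := fun w hwJ =>
    even_off hF hL hD hd' hwJ (hLC _)
  have hat : ∀ v ∈ J, eo (w₁ v) (sc δ) = 0 ∧ (eo (w₂ v) (sc δ) = 0 → la (w₁ v) (sc δ) = 0 ∧
      la (w₂ v) (sc δ) = 0) := fun v hv =>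
    at_J hF hL hD hd' hv (hT v (hJT hv)).2 (hw v (hJT hv)) (hLC _)
  have hrel : ∀ y ∈ AddSubgroup.closure Y, ∑ v ∈ J, eo (w₂ v) (sc δ) * u v y = 0 := by
    intro y hy
    induction hy using AddSubgroup.closure_induction with
    | mem y hy =>
      have hyH : y ∈ AddSubgroup.closure Y := AddSubgroup.subset_closure hy
      obtain ⟨d₁, hd₁, rfl, hs₁, he₁, hl₁, hr₁⟩ := hy
      have h3 := hR.iso (d := fun j => d' j * D ^ (j : ℕ)) (d' := d₁) hd hd₁ (by rw [hev]; exact hsq) hs₁
        (fun v hv => ⟨hL2 v hv, hl₁ v hv⟩) fun s => ⟨hLr s, hr₁ s⟩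
      rw [hev] at h3
      have ht : ∀ w : HeightOneSpectrum (𝓞 L), tp w (sc δ) (sc (ev θ d₁)) =
          eo w (sc δ) * la w (sc (ev θ d₁)) := by
        intro w
        unfold H38T1.tp
        rw [he₁ w]
        ring
      have hsub : Function.support (fun w : HeightOneSpectrum (𝓞 L) =>
          if OddP w then tp w (sc δ) (sc (ev θ d₁)) else 0) ⊆ ((J.image w₂ : Finset _) : Set _) := by
        intro w hwS
        by_contra hn
        apply hwS
        change (if OddP w then tp w (sc δ) (sc (ev θ d₁)) else 0) = 0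
        have h5 : eo w (sc δ) = 0 := by
          by_cases hwJ : dn K w ∈ J
          · rcases (hw _ (hJT hwJ)).only w rfl with h4 | h4
            · rw [h4]
              exact (hat _ hwJ).1
            · exact absurd (Finset.mem_coe.2 (Finset.mem_image.2 ⟨_, hwJ, h4.symm⟩)) hn
          · exact hoff w hwJ
        rw [ht, h5, zero_mul, ite_self]
      rw [finsum_eq_sum_of_support_subset _ hsub, Finset.sum_image] at h3
      · rw [← h3]
        refine Finset.sum_congr rfl fun v hv => ?_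
        rw [if_pos (hodd2 v (hJT hv)), ht, hu v (hJT hv), hla v (hJT hv) _ hyH]
      · intro v hv v' hv' h
        rw [← (hw v (hJT hv)).dn2, ← (hw v' (hJT hv')).dn2, h]
    | zero => simp
    | add y y' _ _ h h' =>
      simp only [map_add, mul_add, Finset.sum_add_distrib]
      rw [h, h', add_zero]
    | neg y _ h =>
      rw [Tj_neg]
      exact h
  have hr := hJ2 (fun v => eo (w₂ v) (sc δ)) hrel
  have heo : ∀ w : HeightOneSpectrum (𝓞 L), eo w (sc δ) = 0 := by
    intro w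
    by_cases hwJ : dn K w ∈ J
    · rcases (hw _ (hJT hwJ)).only w rfl with h4 | h4
      · rw [h4]
        exact (hat _ hwJ).1
      · rw [h4]
        exact hr _ hwJ
    · exact hoff w hwJ
  have hmem : sc δ ∈ AddSubgroup.closure Y := by
    refine AddSubgroup.subset_closure ⟨fun j => d' j * D ^ (j : ℕ), hd, by rw [hev], ?_, heo, hL2, hLr⟩
    rw [hev]
    exact hsq
  have h0 := hJ1 _ hmem fun v hv => by
    rw [hu v (hJT hv)]
    exact ((hat v hv).2 (hr v hv)).1
  exact (H38T1.sc_eq_zero hd').1 h0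

end H76PP

end S_H76_PP_Tj
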