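import Mathlib
import Pool.Agent.H38.T1.Ea
import Pool.Agent.H76.PN.A1
import Pool.Agent.H76.PN.A2
import Pool.Agent.H76.PN.A3
import Pool.Agent.H76.PN.C1

/-! This file joins several modules to save build time (N2). -/

set_option autoImplicit false

section S_H36_MT_Df

set_option autoImplicit false
set_option linter.unusedSectionVars false
open scoped Classical

open WithZero NumberField IsDedekindDomain H38RT
open H38T1 (SC sc scu rep eo la si Pri OddP tp unif)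
open H76PP

namespace H36MT

variable {K : Type} [Field K] [NumberField K]

/-- The coordinates with respect to `1, θ, θ^2` of the integers of `L = K(θ)` are integral at `v`. -/
def LB {L : Type} [Field L] [NumberField L] [Algebra K L] {A B : K} {θ : L} (h : Cub K L A B θ)
    (v : HeightOneSpectrum (𝓞 K)) : Prop :=
  ∀ (x : 𝓞 L) (i : Fin 3), v.valuation K (h.co i (x : L)) ≤ 1

/-- The family of pairs `(A, B)`: as `H76PP.Fam`, but at the primes of the finite set `S` we only ask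
that `4 A^3 + 27 B^2` is not divisible by `v ^ e`. -/
structure FamS (S : Finset (HeightOneSpectrum (𝓞 K))) (e : ℕ) (q₀ : HeightOneSpectrum (𝓞 K))
    (T : Finset (HeightOneSpectrum (𝓞 K))) (A B : 𝓞 K) : Prop where
  irr : ∀ t : 𝓞 K, t ^ 3 + A * t + B ∉ q₀.asIdeal
  typ : ∀ v ∈ T, ∃ t : 𝓞 K, t ^ 3 + A * t + B ∈ v.asIdeal ∧
    ∀ s : 𝓞 K, -3 * t ^ 2 - 4 * A - s ^ 2 ∉ v.asIdeal
  sqf : ∀ v : HeightOneSpectrum (𝓞 K), v ∉ S → dsc A B ∉ v.asIdeal ^ 2
  bdd : ∀ v ∈ S, dsc A B ∉ v.asIdeal ^ e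

/-- There is a nontrivial class of `L`, `L = K[x] / (x^3 + A x + B)`, of square norm, with even
valuations outside `S` and trivial at the primes above `T`. -/
def BadS (S T : Finset (HeightOneSpectrum (𝓞 K))) (A B : 𝓞 K) : Prop :=
  ∃ (L : Type) (_ : Field L) (_ : NumberField L) (_ : Algebra K L) (θ : L) (c : SC L),
    Cub K L (A : K) (B : K) θ ∧ c ≠ 0 ∧ scm (Algebra.norm K : L →* K) c = 0 ∧
    (∀ w : HeightOneSpectrum (𝓞 L), dn K w ∉ S → eo w c = 0) ∧
    ∀ w : HeightOneSpectrum (𝓞 L), dn K w ∈ T → la w c = 0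

/-- `D` is a twisting factor for the set `J` of auxiliary primes, a local square at the primes of `S`
and at the real places. -/
structure TwS (S : Finset (HeightOneSpectrum (𝓞 K))) (q₀ : HeightOneSpectrum (𝓞 K))
    (J : Finset (HeightOneSpectrum (𝓞 K))) (D : K) : Prop where
  ne : D ≠ 0
  odd : ∀ v ∈ J, Odd (ord (v.valuation K) D)
  even : ∀ v : HeightOneSpectrum (𝓞 K), v ∉ S → v ∉ J → v ≠ q₀ → Even (ord (v.valuation K) D)
  loc : ∀ v ∈ S, ∃ m : K, m ≠ 0 ∧ v.valuation K (D * m ^ 2 - 1) < v.valuation K 4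
  pos : ∀ s : K →+* ℝ, 0 < s D

/-- The classes of square norm with even valuations outside `P` which satisfy the local conditions
at `P` and at the real places are trivial. -/
def RelTriv (K L : Type) [Field K] [NumberField K] [Field L] [NumberField L] [Algebra K L]
    (P : Finset (HeightOneSpectrum (𝓞 K))) (a b : K) (θ : L) : Prop :=
  ∀ d : Fin 3 → K, ev θ d ≠ 0 → IsSquare (Algebra.norm K (ev θ d)) →
    (∀ w : HeightOneSpectrum (𝓞 L), dn K w ∉ P → eo w (sc (ev θ d)) = 0) →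
    (∀ v ∈ P, LC (algebraMap K (v.adicCompletion K)) a b d) →
    (∀ s : K →+* ℝ, LC s a b d) → IsSquare (ev θ d)

theorem FamS.dsc_ne {S : Finset (HeightOneSpectrum (𝓞 K))} {e : ℕ} {q₀ : HeightOneSpectrum (𝓞 K)}
    {T : Finset (HeightOneSpectrum (𝓞 K))} {A B : 𝓞 K} (hF : FamS S e q₀ T A B) :
    (4 * (A : K) ^ 3 + 27 * (B : K) ^ 2) ≠ 0 := by
  intro h
  have h1 : dsc A B = 0 := by
    apply RingOfIntegers.coe_injective
    rw [map_zero, ← h]
    unfold dsc
    simp only [map_add, map_mul, map_pow, map_ofNat]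
  by_cases hq : q₀ ∈ S
  · apply hF.bdd q₀ hq
    rw [h1]
    exact Submodule.zero_mem _
  · apply hF.sqf q₀ hq
    rw [h1]
    exact Submodule.zero_mem _

end H36MT

end S_H36_MT_Df

section S_H36_MT_Ea

set_option autoImplicit false
set_option linter.unusedSectionVars false
open scoped Classical

open WithZero NumberField IsDedekindDomain H38RT
open H76PP

namespace H36MT

variable {K : Type} [Field K] [NumberField K]

/-- `dsc A B * c^2` is integral for every coordinate `c` of an integer. -/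
theorem key {L : Type} [Field L] [NumberField L] [Algebra K L] {A B : 𝓞 K} {θ : L}
    (h : Cub K L (A : K) (B : K) θ) (x : 𝓞 L) (i : Fin 3) :
    ∃ E : 𝓞 K, (E : K) = -(h.co i (x : L) ^ 2 * ((dsc A B : 𝓞 K) : K)) := by
  obtain ⟨t, ht⟩ := theta_int h
  obtain ⟨s, hs⟩ := Ea_tr (K := K) (x * x)
  obtain ⟨t0, ht0⟩ := Ea_tr (K := K) x
  obtain ⟨t1, ht1⟩ := Ea_tr (K := K) (x * t)
  obtain ⟨t2, ht2⟩ := Ea_tr (K := K) (x * (t * t))
  have e1 : ((x * x : 𝓞 L) : L) = (x : L) * (x : L) := by push_cast; rfl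
  have e2 : ((x * t : 𝓞 L) : L) = (x : L) * θ := by rw [← ht]; push_cast; rfl
  have e3 : ((x * (t * t) : 𝓞 L) : L) = (x : L) * θ ^ 2 := by
    rw [← ht, sq]
    push_cast
    rfl
  rw [e1, h.trace, (h.co_mul _ _).1, (h.co_mul _ _).2.2] at hs
  rw [h.trace] at ht0
  rw [e2, h.trace, (h.co_mul _ _).1, (h.co_mul _ _).2.2, h.co_theta.1, h.co_theta.2.1,
    h.co_theta.2.2] at ht1
  rw [e3, h.trace, (h.co_mul _ _).1, (h.co_mul _ _).2.2, h.co_theta_sq.1, h.co_theta_sq.2.1,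
    h.co_theta_sq.2.2] at ht2
  obtain ⟨a, ha⟩ : ∃ a, a = algebraMap (𝓞 K) K A := ⟨_, rfl⟩
  obtain ⟨b, hb⟩ : ∃ b, b = algebraMap (𝓞 K) K B := ⟨_, rfl⟩
  obtain ⟨c0, hc0⟩ : ∃ c0, c0 = h.co 0 (x : L) := ⟨_, rfl⟩
  obtain ⟨c1, hc1⟩ : ∃ c1, c1 = h.co 1 (x : L) := ⟨_, rfl⟩
  obtain ⟨c2, hc2⟩ : ∃ c2, c2 = h.co 2 (x : L) := ⟨_, rfl⟩
  have hs' : algebraMap (𝓞 K) K s = 3 * (c0 * c0 - b * (c1 * c2 + c2 * c1)) -
      2 * a * (c0 * c2 + c1 * c1 + c2 * c0 - a * (c2 * c2)) := by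
    rw [hc0, hc1, hc2, ha, hb]
    exact hs
  have ht0' : algebraMap (𝓞 K) K t0 = 3 * c0 - 2 * a * c2 := by
    rw [hc0, hc2, ha]
    exact ht0
  have ht1' : algebraMap (𝓞 K) K t1 = 3 * (c0 * 0 - b * (c1 * 0 + c2 * 1)) -
      2 * a * (c0 * 0 + c1 * 1 + c2 * 0 - a * (c2 * 0)) := by
    rw [hc0, hc1, hc2, ha, hb]
    exact ht1
  have ht2' : algebraMap (𝓞 K) K t2 = 3 * (c0 * 0 - b * (c1 * 1 + c2 * 0)) -
      2 * a * (c0 * 1 + c1 * 0 + c2 * 0 - a * (c2 * 1)) := by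
    rw [hc0, hc1, hc2, ha, hb]
    exact ht2
  have hd : ((dsc A B : 𝓞 K) : K) = 4 * a ^ 3 + 27 * b ^ 2 := by
    rw [ha, hb]
    exact Ea_cast A B
  have key0 : ∃ E : 𝓞 K, (E : K) = -(h.co 0 (x : L) ^ 2 * ((dsc A B : 𝓞 K) : K)) := by
    refine ⟨s * ((-2 * A) * (2 * A ^ 2) - 9 * B ^ 2) - t1 * (t1 * (2 * A ^ 2) + 3 * B * t2) +
        t2 * (t1 * (-3 * B) + 2 * A * t2), ?_⟩
    rw [hd, ← hc0]
    show algebraMap (𝓞 K) K _ = _
    simp only [map_add, map_mul, map_sub, map_pow, map_neg, map_ofNat, hs', ht1', ht2', ← ha, ← hb]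
    ring
  have key1 : ∃ E : 𝓞 K, (E : K) = -(h.co 1 (x : L) ^ 2 * ((dsc A B : 𝓞 K) : K)) := by
    refine ⟨3 * (s * (2 * A ^ 2) - t2 * t2) - t0 * (t0 * (2 * A ^ 2) + 2 * A * t2) +
        (-2 * A) * (t0 * t2 + 2 * A * s), ?_⟩
    rw [hd, ← hc1]
    show algebraMap (𝓞 K) K _ = _
    simp only [map_add, map_mul, map_sub, map_pow, map_neg, map_ofNat, hs', ht0', ht2', ← ha, ← hb]
    ring
  have key2 : ∃ E : 𝓞 K, (E : K) = -(h.co 2 (x : L) ^ 2 * ((dsc A B : 𝓞 K) : K)) := by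
    refine ⟨3 * (-2 * A * s - t1 * t1) + t0 * (2 * A * t0), ?_⟩
    rw [hd, ← hc2]
    show algebraMap (𝓞 K) K _ = _
    simp only [map_add, map_mul, map_sub, map_pow, map_neg, map_ofNat, hs', ht0', ht1', ← ha, ← hb]
    ring
  fin_cases i
  · exact key0
  · exact key1
  · exact key2

theorem lb_of {L : Type} [Field L] [NumberField L] [Algebra K L] {A B : 𝓞 K} {θ : L}
    (h : Cub K L (A : K) (B : K) θ) {v : HeightOneSpectrum (𝓞 K)}
    (hd : dsc A B ∉ v.asIdeal ^ 2) : LB h v := by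
  intro x i
  obtain ⟨E, hE⟩ := key h x i
  exact Ea_val hd hE

/-- If `c^2 * d` is integral, `d ∉ v ^ e` and `r ∈ v ^ e` then `r c` is integral at `v`. -/
theorem val_mul {v : HeightOneSpectrum (𝓞 K)} {c : K} {d E r : 𝓞 K} {e : ℕ}
    (hd : d ∉ v.asIdeal ^ e) (hr : r ∈ v.asIdeal ^ e) (hE : (E : K) = -(c ^ 2 * (d : K))) :
    v.valuation K ((r : K) * c) ≤ 1 := by
  have h2 := mt (v.intValuation_le_pow_iff_mem d e).1 hd
  rw [not_le] at h2
  have h3 : v.valuation K (d : K) = v.intValuation d := v.valuation_of_algebraMap d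
  have h0 : v.valuation K (d : K) ≠ 0 := fun h0 => by
    rw [← h3, h0] at h2
    exact absurd h2 not_lt_zero
  have h1 : v.valuation K (r : K) ≤ v.valuation K (d : K) := by
    have h5 := (v.intValuation_le_pow_iff_mem r e).2 hr
    have h6 : v.valuation K (r : K) = v.intValuation r := v.valuation_of_algebraMap r
    rw [h6, h3]
    exact h5.trans h2.le
  have h4 : v.valuation K (E : K) ≤ 1 := v.valuation_le_one E
  rw [hE, Valuation.map_neg, map_mul, map_pow] at h4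
  have h7 : v.valuation K (r : K) ≤ 1 := v.valuation_le_one r
  have h8 : v.valuation K ((r : K) * c) ^ 2 ≤ 1 := by
    rw [map_mul, mul_pow]
    calc v.valuation K (r : K) ^ 2 * v.valuation K c ^ 2
        = v.valuation K (r : K) * (v.valuation K c ^ 2 * v.valuation K (r : K)) := by
          rw [sq (v.valuation K (r : K)), mul_assoc, mul_comm (v.valuation K (r : K))
            (v.valuation K c ^ 2)]
      _ ≤ 1 * (v.valuation K c ^ 2 * v.valuation K (d : K)) :=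
          mul_le_mul' h7 (mul_le_mul' le_rfl h1)
      _ = v.valuation K c ^ 2 * v.valuation K (d : K) := one_mul _
      _ ≤ 1 := h4
  exact (pow_le_one_iff two_ne_zero).1 h8

/-- `r x` has integral coordinates if `r` is divisible by `v ^ e` for all `v ∈ S`. -/
theorem int_mul {L : Type} [Field L] [NumberField L] [Algebra K L] {A B : 𝓞 K} {θ : L}
    (h : Cub K L (A : K) (B : K) θ) {S : Finset (HeightOneSpectrum (𝓞 K))} {e : ℕ}
    (hs : ∀ v : HeightOneSpectrum (𝓞 K), v ∉ S → dsc A B ∉ v.asIdeal ^ 2)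
    (hb : ∀ v ∈ S, dsc A B ∉ v.asIdeal ^ e) {r : 𝓞 K} (hr : ∀ v ∈ S, r ∈ v.asIdeal ^ e) (x : 𝓞 L) :
    ∃ c : Fin 3 → 𝓞 K, ∀ i, (r : K) * h.co i (x : L) = (c i : K) := by
  have hval : ∀ i, ∃ c : 𝓞 K, (r : K) * h.co i (x : L) = (c : K) := by
    intro i
    obtain ⟨E, hE⟩ := key h x i
    obtain ⟨c, hc⟩ := HeightOneSpectrum.mem_integers_of_valuation_le_one K
      ((r : K) * h.co i (x : L)) fun v => by
        by_cases hv : v ∈ S
        · exact val_mul (hb v hv) (hr v hv) hE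
        · rw [map_mul]
          exact mul_le_one' (v.valuation_le_one r) (Ea_val (hs v hv) hE)
    exact ⟨c, hc.symm⟩
  choose c hc using hval
  exact ⟨c, hc⟩

end H36MT

end S_H36_MT_Ea

section S_H36_MT_Fa

set_option autoImplicit false
set_option linter.unusedSectionVars false
open scoped Classical

open WithZero NumberField IsDedekindDomain H38RT
open H76PP

namespace H36MT

variable {K : Type} [Field K] [NumberField K]

theorem LB.den {L : Type} [Field L] [NumberField L] [Algebra K L] {A B : K} {θ : L}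
    {h : Cub K L A B θ} {v : HeightOneSpectrum (𝓞 K)} (hl : LB h v) (y : 𝓞 L) :
    ∃ m : 𝓞 K, m ∉ v.asIdeal ∧ ∃ c : Fin 3 → 𝓞 K, ∀ i, (m : K) * h.co i (y : L) = (c i : K) := by
  have h1 : ∀ i : Fin 3, ∃ n d : 𝓞 K, d ∉ v.asIdeal ∧ h.co i (y : L) * (d : K) = (n : K) := by
    intro i
    obtain ⟨n, ⟨d, hd⟩, hnd⟩ := v.exists_primeCompl_mul_eq_of_integer _ (hl y i)
    exact ⟨n, d, hd, hnd⟩
  choose n d hd hnd using h1
  have km : ∀ x y : 𝓞 K, ((x * y : 𝓞 K) : K) = (x : K) * (y : K) := fun _ _ => rfl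
  refine ⟨d 0 * d 1 * d 2, ?_, ![n 0 * (d 1 * d 2), n 1 * (d 0 * d 2), n 2 * (d 0 * d 1)], ?_⟩
  · intro hm
    rcases v.isPrime.mem_or_mem hm with hm | hm
    · rcases v.isPrime.mem_or_mem hm with hm | hm
      · exact hd 0 hm
      · exact hd 1 hm
    · exact hd 2 hm
  · intro i
    fin_cases i
    · change ((d 0 * d 1 * d 2 : 𝓞 K) : K) * h.co 0 (y : L) = ((n 0 * (d 1 * d 2) : 𝓞 K) : K)
      rw [km, km, km, km, ← hnd 0]
      ring
    · change ((d 0 * d 1 * d 2 : 𝓞 K) : K) * h.co 1 (y : L) = ((n 1 * (d 0 * d 2) : 𝓞 K) : K)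
      rw [km, km, km, km, ← hnd 1]
      ring
    · change ((d 0 * d 1 * d 2 : 𝓞 K) : K) * h.co 2 (y : L) = ((n 2 * (d 0 * d 1) : 𝓞 K) : K)
      rw [km, km, km, km, ← hnd 2]
      ring

theorem Fa_den {L : Type} [Field L] [NumberField L] [Algebra K L] {A B : K} {θ : L}
    {h : Cub K L A B θ} {v : HeightOneSpectrum (𝓞 K)} (hl : LB h v) (y : 𝓞 L) :
    ∃ m m' : 𝓞 K, Ideal.Quotient.mk v.asIdeal m * Ideal.Quotient.mk v.asIdeal m' = 1 ∧
      ∃ c : Fin 3 → 𝓞 K, ∀ i, (m : K) * h.co i (y : L) = (c i : K) := by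
  obtain ⟨m, hm, c, hc⟩ := hl.den y
  have hmax : v.asIdeal.IsMaximal := v.isMaximal
  have hd0 : Ideal.Quotient.mk v.asIdeal m ≠ 0 := fun h =>
    hm (Ideal.Quotient.eq_zero_iff_mem.1 h)
  obtain ⟨q, hq⟩ := Ideal.Quotient.exists_inv hd0
  obtain ⟨m', rfl⟩ := Ideal.Quotient.mk_surjective q
  exact ⟨m, m', hq, c, hc⟩

/-- two presentations give the same value -/
theorem Fa_key {L : Type} [Field L] [NumberField L] [Algebra K L] {A B : K} {θ : L}
    (h : Cub K L A B θ) (v : HeightOneSpectrum (𝓞 K)) (t : 𝓞 K) (x : 𝓞 L) {m m' n n' : 𝓞 K}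
    {c d : Fin 3 → 𝓞 K} (hm : Ideal.Quotient.mk v.asIdeal m * Ideal.Quotient.mk v.asIdeal m' = 1)
    (hc : ∀ i, (m : K) * h.co i (x : L) = (c i : K))
    (hn : Ideal.Quotient.mk v.asIdeal n * Ideal.Quotient.mk v.asIdeal n' = 1)
    (hd : ∀ i, (n : K) * h.co i (x : L) = (d i : K)) :
    Ideal.Quotient.mk v.asIdeal (c 0 + c 1 * t + c 2 * t ^ 2) * Ideal.Quotient.mk v.asIdeal m' =
      Ideal.Quotient.mk v.asIdeal (d 0 + d 1 * t + d 2 * t ^ 2) * Ideal.Quotient.mk v.asIdeal n' := by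
  have h1 : ∀ i, n * c i = m * d i := by
    intro i
    apply RingOfIntegers.ext
    change (n : K) * (c i : K) = (m : K) * (d i : K)
    rw [← hc i, ← hd i]
    ring
  have h2 : n * (c 0 + c 1 * t + c 2 * t ^ 2) = m * (d 0 + d 1 * t + d 2 * t ^ 2) := by
    linear_combination h1 0 + t * h1 1 + t ^ 2 * h1 2
  have h3 := congrArg (Ideal.Quotient.mk v.asIdeal) h2
  rw [map_mul, map_mul] at h3
  linear_combination Ideal.Quotient.mk v.asIdeal m' * Ideal.Quotient.mk v.asIdeal n' * h3 -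
    Ideal.Quotient.mk v.asIdeal (c 0 + c 1 * t + c 2 * t ^ 2) * Ideal.Quotient.mk v.asIdeal m' * hn +
    Ideal.Quotient.mk v.asIdeal (d 0 + d 1 * t + d 2 * t ^ 2) * Ideal.Quotient.mk v.asIdeal n' * hm

theorem exists_placeL {L : Type} [Field L] [NumberField L] [Algebra K L] {A B : 𝓞 K} {θ : L}
    (h : Cub K L (A : K) (B : K) θ) {v : HeightOneSpectrum (𝓞 K)} (hl : LB h v) {t : 𝓞 K}
    (ht : t ^ 3 + A * t + B ∈ v.asIdeal) :
    ∃ (w : HeightOneSpectrum (𝓞 L)) (χ : 𝓞 L →+* 𝓞 K ⧸ v.asIdeal), dn K w = v ∧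
      (∀ x : 𝓞 L, χ x = 0 ↔ x ∈ w.asIdeal) ∧
      (∀ a : 𝓞 K, χ (algebraMap (𝓞 K) (𝓞 L) a) = Ideal.Quotient.mk v.asIdeal a) ∧
      ∀ (x : 𝓞 L) (c : Fin 3 → 𝓞 K), (∀ i, h.co i (x : L) = (c i : K)) →
        χ x = Ideal.Quotient.mk v.asIdeal (c 0 + c 1 * t + c 2 * t ^ 2) := by
  have ka : ∀ x y : 𝓞 K, ((x + y : 𝓞 K) : K) = (x : K) + (y : K) := fun _ _ => rfl
  have ks : ∀ x y : 𝓞 K, ((x - y : 𝓞 K) : K) = (x : K) - (y : K) := fun _ _ => rfl
  have km : ∀ x y : 𝓞 K, ((x * y : 𝓞 K) : K) = (x : K) * (y : K) := fun _ _ => rfl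
  have k1 : ((1 : 𝓞 K) : K) = 1 := rfl
  have la : ∀ x y : 𝓞 L, ((x + y : 𝓞 L) : L) = (x : L) + (y : L) := fun _ _ => rfl
  have lm : ∀ x y : 𝓞 L, ((x * y : 𝓞 L) : L) = (x : L) * (y : L) := fun _ _ => rfl
  have kz : ((0 : 𝓞 K) : K) = 0 := rfl
  choose m m' hm c hc using fun x : 𝓞 L => Fa_den (h := h) hl x
  have hval : ∀ (x : 𝓞 L) {n n' : 𝓞 K} {d : Fin 3 → 𝓞 K},
      Ideal.Quotient.mk v.asIdeal n * Ideal.Quotient.mk v.asIdeal n' = 1 →
      (∀ i, (n : K) * h.co i (x : L) = (d i : K)) →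
      Ideal.Quotient.mk v.asIdeal (c x 0 + c x 1 * t + c x 2 * t ^ 2) *
        Ideal.Quotient.mk v.asIdeal (m' x) =
      Ideal.Quotient.mk v.asIdeal (d 0 + d 1 * t + d 2 * t ^ 2) * Ideal.Quotient.mk v.asIdeal n' :=
    fun x _ _ _ hn hd => Fa_key h v t x (hm x) (hc x) hn hd
  have h11 : Ideal.Quotient.mk v.asIdeal 1 * Ideal.Quotient.mk v.asIdeal 1 = 1 := by
    rw [map_one, mul_one]
  have hmm : ∀ x y : 𝓞 L, Ideal.Quotient.mk v.asIdeal (m x * m y) *
      Ideal.Quotient.mk v.asIdeal (m' x * m' y) = 1 := by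
    intro x y
    rw [map_mul, map_mul]
    linear_combination Ideal.Quotient.mk v.asIdeal (m y) * Ideal.Quotient.mk v.asIdeal (m' y) * hm x +
      hm y
  have halg : ∀ a : 𝓞 K, ∀ i, ((1 : 𝓞 K) : K) * h.co i ((algebraMap (𝓞 K) (𝓞 L) a : 𝓞 L) : L) =
      ((![a, 0, 0] : Fin 3 → 𝓞 K) i : K) := by
    intro a
    have e1 : ((algebraMap (𝓞 K) (𝓞 L) a : 𝓞 L) : L) = algebraMap K L (a : K) := rfl
    obtain ⟨b0, b1, b2⟩ := h.co_mk' (a : K) 0 0
    have hx : algebraMap K L (a : K) + algebraMap K L 0 * θ + algebraMap K L 0 * θ ^ 2 =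
        algebraMap K L (a : K) := by simp
    rw [hx] at b0 b1 b2
    intro i
    rw [e1, k1, one_mul]
    fin_cases i
    · exact b0
    · exact b1
    · exact b2
  have hv : ∀ a : 𝓞 K, (![a, 0, 0] : Fin 3 → 𝓞 K) 0 + (![a, 0, 0] : Fin 3 → 𝓞 K) 1 * t +
      (![a, 0, 0] : Fin 3 → 𝓞 K) 2 * t ^ 2 = a := by
    intro a
    have e0 : (![a, 0, 0] : Fin 3 → 𝓞 K) 0 = a := rfl
    have e1 : (![a, 0, 0] : Fin 3 → 𝓞 K) 1 = 0 := rfl
    have e2 : (![a, 0, 0] : Fin 3 → 𝓞 K) 2 = 0 := rfl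
    rw [e0, e1, e2, zero_mul, zero_mul, add_zero, add_zero]
  obtain ⟨χ, hχ⟩ : ∃ χ : 𝓞 L →+* 𝓞 K ⧸ v.asIdeal, ∀ x, χ x =
      Ideal.Quotient.mk v.asIdeal (c x 0 + c x 1 * t + c x 2 * t ^ 2) *
        Ideal.Quotient.mk v.asIdeal (m' x) := by
    refine ⟨RingHom.mk' ⟨⟨fun x =>
        Ideal.Quotient.mk v.asIdeal (c x 0 + c x 1 * t + c x 2 * t ^ 2) *
        Ideal.Quotient.mk v.asIdeal (m' x), ?_⟩, ?_⟩ ?_,
        fun x => rfl⟩
    · have e := halg 1
      rw [map_one (algebraMap (𝓞 K) (𝓞 L))] at e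
      rw [hval 1 h11 e, map_one, mul_one, hv, map_one]
    · intro x y
      have e := hval (x * y) (n := m x * m y) (n' := m' x * m' y)
        (d := ![c x 0 * c y 0 - B * (c x 1 * c y 2 + c x 2 * c y 1),
          c x 0 * c y 1 + c x 1 * c y 0 - A * (c x 1 * c y 2 + c x 2 * c y 1) - B * (c x 2 * c y 2),
          c x 0 * c y 2 + c x 1 * c y 1 + c x 2 * c y 0 - A * (c x 2 * c y 2)]) (hmm x y) ?_
      · show Ideal.Quotient.mk v.asIdeal (c (x * y) 0 + c (x * y) 1 * t + c (x * y) 2 * t ^ 2) *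
          Ideal.Quotient.mk v.asIdeal (m' (x * y)) =
          (Ideal.Quotient.mk v.asIdeal (c x 0 + c x 1 * t + c x 2 * t ^ 2) *
            Ideal.Quotient.mk v.asIdeal (m' x)) *
          (Ideal.Quotient.mk v.asIdeal (c y 0 + c y 1 * t + c y 2 * t ^ 2) *
            Ideal.Quotient.mk v.asIdeal (m' y))
        rw [e]
        change Ideal.Quotient.mk v.asIdeal ((c x 0 * c y 0 - B * (c x 1 * c y 2 + c x 2 * c y 1)) +
          (c x 0 * c y 1 + c x 1 * c y 0 - A * (c x 1 * c y 2 + c x 2 * c y 1) -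
            B * (c x 2 * c y 2)) * t +
          (c x 0 * c y 2 + c x 1 * c y 1 + c x 2 * c y 0 - A * (c x 2 * c y 2)) * t ^ 2) *
          Ideal.Quotient.mk v.asIdeal (m' x * m' y) = _
        have e2 : Ideal.Quotient.mk v.asIdeal
            ((c x 0 * c y 0 - B * (c x 1 * c y 2 + c x 2 * c y 1)) +
          (c x 0 * c y 1 + c x 1 * c y 0 - A * (c x 1 * c y 2 + c x 2 * c y 1) -
            B * (c x 2 * c y 2)) * t +
          (c x 0 * c y 2 + c x 1 * c y 1 + c x 2 * c y 0 - A * (c x 2 * c y 2)) * t ^ 2) =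
          Ideal.Quotient.mk v.asIdeal ((c x 0 + c x 1 * t + c x 2 * t ^ 2) *
            (c y 0 + c y 1 * t + c y 2 * t ^ 2)) := by
          rw [Ideal.Quotient.eq]
          have e : c x 0 * c y 0 - B * (c x 1 * c y 2 + c x 2 * c y 1) +
              (c x 0 * c y 1 + c x 1 * c y 0 - A * (c x 1 * c y 2 + c x 2 * c y 1) -
                B * (c x 2 * c y 2)) * t +
              (c x 0 * c y 2 + c x 1 * c y 1 + c x 2 * c y 0 - A * (c x 2 * c y 2)) * t ^ 2 -
              (c x 0 + c x 1 * t + c x 2 * t ^ 2) * (c y 0 + c y 1 * t + c y 2 * t ^ 2) =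
              (-((c x 1 * c y 2 + c x 2 * c y 1) + c x 2 * c y 2 * t)) * (t ^ 3 + A * t + B) := by
            ring
          rw [e]
          exact Ideal.mul_mem_left _ _ ht
        rw [e2, map_mul, map_mul]
        ring
      · have e0 := (h.co_mul (x : L) (y : L)).1
        have e1 := (h.co_mul (x : L) (y : L)).2.1
        have e2 := (h.co_mul (x : L) (y : L)).2.2
        intro i
        rw [lm, km]
        fin_cases i
        · change (m x : K) * (m y : K) * h.co 0 ((x : L) * (y : L)) =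
            ((c x 0 * c y 0 - B * (c x 1 * c y 2 + c x 2 * c y 1) : 𝓞 K) : K)
          rw [e0]
          simp only [ks, km, ka, ← hc]
          ring
        · change (m x : K) * (m y : K) * h.co 1 ((x : L) * (y : L)) =
            ((c x 0 * c y 1 + c x 1 * c y 0 - A * (c x 1 * c y 2 + c x 2 * c y 1) -
              B * (c x 2 * c y 2) : 𝓞 K) : K)
          rw [e1]
          simp only [ks, km, ka, ← hc]
          ring
        · change (m x : K) * (m y : K) * h.co 2 ((x : L) * (y : L)) =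
            ((c x 0 * c y 2 + c x 1 * c y 1 + c x 2 * c y 0 - A * (c x 2 * c y 2) : 𝓞 K) : K)
          rw [e2]
          simp only [ks, km, ka, ← hc]
          ring
    · intro x y
      have e := hval (x + y) (n := m x * m y) (n' := m' x * m' y)
        (d := fun i => m y * c x i + m x * c y i) (hmm x y) ?_
      · show Ideal.Quotient.mk v.asIdeal (c (x + y) 0 + c (x + y) 1 * t + c (x + y) 2 * t ^ 2) *
          Ideal.Quotient.mk v.asIdeal (m' (x + y)) =
          Ideal.Quotient.mk v.asIdeal (c x 0 + c x 1 * t + c x 2 * t ^ 2) *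
            Ideal.Quotient.mk v.asIdeal (m' x) +
          Ideal.Quotient.mk v.asIdeal (c y 0 + c y 1 * t + c y 2 * t ^ 2) *
            Ideal.Quotient.mk v.asIdeal (m' y)
        rw [e]
        have e2 : (m y * c x 0 + m x * c y 0) + (m y * c x 1 + m x * c y 1) * t +
            (m y * c x 2 + m x * c y 2) * t ^ 2 = m y * (c x 0 + c x 1 * t + c x 2 * t ^ 2) +
            m x * (c y 0 + c y 1 * t + c y 2 * t ^ 2) := by ring
        rw [e2, map_add, map_mul, map_mul, map_mul]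
        linear_combination Ideal.Quotient.mk v.asIdeal (c x 0 + c x 1 * t + c x 2 * t ^ 2) *
            Ideal.Quotient.mk v.asIdeal (m' x) * hm y +
          Ideal.Quotient.mk v.asIdeal (c y 0 + c y 1 * t + c y 2 * t ^ 2) *
            Ideal.Quotient.mk v.asIdeal (m' y) * hm x
      · intro i
        rw [la, map_add, km]
        simp only [ka, km, ← hc]
        ring
  have hχa : ∀ a : 𝓞 K, χ (algebraMap (𝓞 K) (𝓞 L) a) = Ideal.Quotient.mk v.asIdeal a := by
    intro a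
    rw [hχ, hval _ h11 (halg a), map_one, mul_one, hv]
  have hpr : (RingHom.ker χ).IsPrime := RingHom.ker_isPrime χ
  have hne : RingHom.ker χ ≠ ⊥ := by
    intro hbot
    obtain ⟨a, ha, ha0⟩ := Submodule.exists_mem_ne_zero_of_ne_bot v.ne_bot
    have h1 : algebraMap (𝓞 K) (𝓞 L) a ∈ RingHom.ker χ := by
      rw [RingHom.mem_ker, hχa]
      exact Ideal.Quotient.eq_zero_iff_mem.2 ha
    rw [hbot, Ideal.mem_bot] at h1
    exact ha0 ((map_eq_zero_iff _ (FaithfulSMul.algebraMap_injective (𝓞 K) (𝓞 L))).1 h1)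
  refine ⟨⟨RingHom.ker χ, hpr, hne⟩, χ, ?_, fun x => RingHom.mem_ker.symm, hχa, ?_⟩
  · apply HeightOneSpectrum.ext
    ext a
    show algebraMap (𝓞 K) (𝓞 L) a ∈ RingHom.ker χ ↔ a ∈ v.asIdeal
    rw [RingHom.mem_ker, hχa, Ideal.Quotient.eq_zero_iff_mem]
  · intro x d hd
    rw [hχ, hval x h11 (d := d) (fun i => by rw [k1, one_mul]; exact hd i), map_one, mul_one]

end H36MT

end S_H36_MT_Fa

section S_H36_MT_Fd

set_option autoImplicit false
set_option linter.unusedSectionVars false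
open scoped Classical

open WithZero NumberField IsDedekindDomain H38RT
open scoped Matrix
open H38T1 (SC sc scu rep eo la si Pri OddP tp unif)
open H76PP

namespace H36MT

/-- The products `e i * e j` are divisible by `δ` and the quotients have integral coordinates. -/
def Prs {K : Type} [Field K] [NumberField K] {A B : K} {L : Type} [Field L]
    [NumberField L] [Algebra K L] {θ : L} (h : Cub K L A B θ) (δ : 𝓞 L) (e : Fin 3 → 𝓞 L) :
    Prop :=
  ∀ i j, ∃ (y : 𝓞 L) (c : Fin 3 → 𝓞 K), e i * e j = δ * y ∧ ∀ k, h.co k (y : L) = (c k : K)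

variable {K : Type} [Field K] [NumberField K] {A B : K} {L : Type} [Field L]
    [NumberField L] [Algebra K L] {θ : L}

theorem Prs_row {h : Cub K L A B θ} {δ : 𝓞 L} {e : Fin 3 → 𝓞 L} (hp : Prs h δ e)
    (c : Fin 3 → 𝓞 K) : ∃ (y : Fin 3 → 𝓞 L) (yc : Fin 3 → Fin 3 → 𝓞 K),
      (∀ j, (∑ i, algebraMap (𝓞 K) (𝓞 L) (c i) * e i) * e j = δ * y j) ∧
      ∀ j k, h.co k (y j : L) = (yc j k : K) := by
  choose y yc hy hyc using hp
  refine ⟨fun j => ∑ i, algebraMap (𝓞 K) (𝓞 L) (c i) * y i j, fun j k => ∑ i, c i * yc i j k,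
    fun j => ?_, fun j k => ?_⟩
  · rw [Finset.sum_mul, Finset.mul_sum]
    refine Finset.sum_congr rfl fun i _ => ?_
    rw [mul_assoc, hy]
    ring
  · have h1 : ((∑ i, algebraMap (𝓞 K) (𝓞 L) (c i) * y i j : 𝓞 L) : L) =
        ∑ i, (c i : K) • (y i j : L) := by
      change algebraMap (𝓞 L) L (∑ i, algebraMap (𝓞 K) (𝓞 L) (c i) * y i j) = _
      rw [map_sum]
      refine Finset.sum_congr rfl fun i _ => ?_
      rw [map_mul, Algebra.smul_def]
      rfl
    rw [h1, map_sum]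
    change _ = algebraMap (𝓞 K) K (∑ i, c i * yc i j k)
    rw [map_sum]
    refine Finset.sum_congr rfl fun i _ => ?_
    rw [map_smul, smul_eq_mul, hyc, map_mul]

theorem Prs_quad {h : Cub K L A B θ} {δ : 𝓞 L} {e : Fin 3 → 𝓞 L} (hp : Prs h δ e)
    (c : Fin 3 → 𝓞 K) : ∃ (z : 𝓞 L) (zc : Fin 3 → 𝓞 K),
      (∑ i, algebraMap (𝓞 K) (𝓞 L) (c i) * e i) ^ 2 = δ * z ∧ ∀ k, h.co k (z : L) = (zc k : K) := by
  obtain ⟨y, yc, hy, hyc⟩ := Prs_row hp c
  refine ⟨∑ j, algebraMap (𝓞 K) (𝓞 L) (c j) * y j, fun k => ∑ j, c j * yc j k, ?_, fun k => ?_⟩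
  · rw [sq, Finset.mul_sum, Finset.mul_sum]
    refine Finset.sum_congr rfl fun j _ => ?_
    rw [← mul_assoc, mul_comm _ (algebraMap (𝓞 K) (𝓞 L) (c j)), mul_assoc, hy]
    ring
  · have h1 : ((∑ j, algebraMap (𝓞 K) (𝓞 L) (c j) * y j : 𝓞 L) : L) =
        ∑ j, (c j : K) • (y j : L) := by
      change algebraMap (𝓞 L) L (∑ j, algebraMap (𝓞 K) (𝓞 L) (c j) * y j) = _
      rw [map_sum]
      refine Finset.sum_congr rfl fun i _ => ?_
      rw [map_mul, Algebra.smul_def]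
      rfl
    rw [h1, map_sum]
    change _ = algebraMap (𝓞 K) K (∑ j, c j * yc j k)
    rw [map_sum]
    refine Finset.sum_congr rfl fun i _ => ?_
    rw [map_smul, smul_eq_mul, hyc, map_mul]

theorem Fd_mainS {K : Type} [Field K] [NumberField K] {A B : 𝓞 K} {L : Type} [Field L]
    [NumberField L] [Algebra K L] {θ : L} (h : Cub K L (A : K) (B : K) θ) {δ : 𝓞 L} (hδ : δ ≠ 0)
    {e : Fin 3 → 𝓞 L} (hpr : Prs h δ e)
    (hli : LinearIndependent K (fun i => (e i : L))) {M N : Matrix (Fin 3) (Fin 3) (𝓞 K)}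
    (hM : ∀ i j, (M i j : K) = Mx h (fun i => (e i : L)) (δ : L)⁻¹ i j)
    (hN : ∀ i j, (N i j : K) = Nx h (fun i => (e i : L)) (δ : L)⁻¹ i j)
    (hchar : ∀ x : 𝓞 K, (x • M - N).det = M.det * (x ^ 3 + A * x + B))
    {v : HeightOneSpectrum (𝓞 K)} (h6 : (6 : 𝓞 K) ∉ v.asIdeal) (hdet : M.det ∉ v.asIdeal)
    {t : 𝓞 K} (ht : t ^ 3 + A * t + B ∈ v.asIdeal)
    (hts : ∀ s : 𝓞 K, -3 * t ^ 2 - 4 * A - s ^ 2 ∉ v.asIdeal)
    {k : Type} [Field k] (π : 𝓞 K →+* k) (hπ : ∀ x, π x = 0 ↔ x ∈ v.asIdeal)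
    (hs : Function.Surjective π) {w : HeightOneSpectrum (𝓞 L)} (hw : OddP w)
    (hlw : la w (sc (δ : L)) = 0) (χ : 𝓞 L →+* k) (hχ0 : ∀ x, x ∈ w.asIdeal → χ x = 0)
    (hχ : ∀ (x : 𝓞 L) (c : Fin 3 → 𝓞 K), (∀ i, h.co i (x : L) = (c i : K)) →
        χ x = π (c 0 + c 1 * t + c 2 * t ^ 2)) : Rs (M.map π) (N.map π) := by
  have hvp := v.isPrime
  have hp2 : (2 : k) ≠ 0 := by
    intro h2
    apply h6
    rw [← hπ, show (6 : 𝓞 K) = 2 * 3 by norm_num, map_mul, map_ofNat, h2, zero_mul]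
  have hp3 : (3 : k) ≠ 0 := by
    intro h2
    apply h6
    rw [← hπ, show (6 : 𝓞 K) = 2 * 3 by norm_num, map_mul, map_ofNat π 3, h2, mul_zero]
  have hsq : ¬ IsSquare (-3 * (π t) ^ 2 - 4 * π A) := by
    rintro ⟨r, hr⟩
    obtain ⟨s, rfl⟩ := hs r
    apply hts s
    rw [← hπ, map_sub, map_sub, map_mul, map_mul, map_pow, map_pow, map_neg, map_ofNat, map_ofNat,
      hr]
    ring
  have h3t : 3 * (π t) ^ 2 + π A ≠ 0 := by
    intro h0
    apply hsq
    refine ⟨3 * π t, ?_⟩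
    linear_combination -4 * h0
  have hmd : ∀ P : Matrix (Fin 3) (Fin 3) (𝓞 K), (P.map π).det = π P.det := fun P =>
    (RingHom.map_det π P).symm
  have hchar' : ∀ x : k, (x • M.map π - N.map π).det =
      (M.map π).det * (x ^ 3 + π A * x + π B) := by
    intro x
    obtain ⟨x, rfl⟩ := hs x
    have h1 : π x • M.map π - N.map π = (x • M - N).map π := by
      ext i j
      simp
    rw [h1, hmd, hmd, hchar, map_mul, map_add, map_add, map_mul, map_pow]
  have hsing : (π t • M.map π - N.map π).det = 0 := by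
    rw [hchar']
    have h1 := (hπ _).2 ht
    rw [map_add, map_add, map_mul, map_pow] at h1
    rw [h1, mul_zero]
  obtain ⟨eb, heb0, heb⟩ := Matrix.exists_mulVec_eq_zero_iff.2 hsing
  choose c hc using fun i => hs (eb i)
  have hceb : π ∘ c = eb := funext hc
  have hNM : (N.map π).mulVec eb = π t • (M.map π).mulVec eb := by
    rw [Matrix.sub_mulVec, Matrix.smul_mulVec, sub_eq_zero] at heb
    exact heb.symm
  have hMs : M.IsSymm := by
    ext i j
    rw [Matrix.transpose_apply, hM, hM]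
    exact (Mx_symm h _ _).apply i j
  have hNs : N.IsSymm := by
    ext i j
    rw [Matrix.transpose_apply, hN, hN]
    exact (Nx_symm h _ _).apply i j
  have hMs' : (M.map π).IsSymm := by
    ext i j
    rw [Matrix.transpose_apply, Matrix.map_apply, Matrix.map_apply, hMs.apply]
  have hNs' : (N.map π).IsSymm := by
    ext i j
    rw [Matrix.transpose_apply, Matrix.map_apply, Matrix.map_apply, hNs.apply]
  have hdet' : (M.map π).det ≠ 0 := by
    rw [hmd]
    exact fun h1 => hdet ((hπ _).1 h1)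
  obtain ⟨S, hS⟩ := Fd_four hp2 hp3
  have hne := eig_ne S hS hMs' hNs' hdet' hchar' heb0 hNM h3t
  refine ⟨π A, π B, π t, eb, heb0, hchar', hNM, hsq, hne, ?_⟩
  -- the integers E, z, y
  have hδL : (δ : L) ≠ 0 := fun h0 => hδ (RingOfIntegers.ext (by
    rw [h0]
    exact (map_zero (algebraMap (𝓞 L) L)).symm))
  obtain ⟨E, hE⟩ : ∃ E : 𝓞 L, E = ∑ i, algebraMap (𝓞 K) (𝓞 L) (c i) * e i := ⟨_, rfl⟩
  have hEL : (E : L) = ∑ i, (c i : K) • (e i : L) := by
    rw [hE]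
    change algebraMap (𝓞 L) L (∑ i, algebraMap (𝓞 K) (𝓞 L) (c i) * e i) = _
    rw [map_sum]
    refine Finset.sum_congr rfl fun i _ => ?_
    rw [map_mul, Algebra.smul_def]
    rfl
  obtain ⟨y, yc, hy, hyc⟩ := Prs_row hpr c
  obtain ⟨z, zc, hz, hzc⟩ := Prs_quad hpr c
  rw [← hE] at hz
  simp only [← hE] at hy
  have hzL : (z : L) = (E : L) * (E : L) * (δ : L)⁻¹ := by
    have h1 := congrArg (algebraMap (𝓞 L) L) hz
    rw [map_pow, map_mul] at h1
    rw [← pow_two, eq_mul_inv_iff_mul_eq₀ hδL, mul_comm]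
    exact h1.symm
  have hyL : ∀ j, (y j : L) = (E : L) * (e j : L) * (δ : L)⁻¹ := by
    intro j
    have h1 := congrArg (algebraMap (𝓞 L) L) (hy j)
    rw [map_mul, map_mul] at h1
    rw [eq_mul_inv_iff_mul_eq₀ hδL, mul_comm]
    exact h1.symm
  have hMx : Mx h (fun i => (e i : L)) (δ : L)⁻¹ = M.map (algebraMap (𝓞 K) K) := by
    ext i j
    exact (hM i j).symm
  have hNx : Nx h (fun i => (e i : L)) (δ : L)⁻¹ = N.map (algebraMap (𝓞 K) K) := by
    ext i j
    exact (hN i j).symm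
  -- the last coordinate of z
  have hz2 : c ⬝ᵥ M.mulVec c = zc 2 := by
    apply RingOfIntegers.ext
    have h1 := Mx_quad h (fun i => (e i : L)) (δ : L)⁻¹ (fun i => (c i : K))
    rw [← hEL, ← hzL, hzc, hMx] at h1
    rw [← h1]
    have h2 := RingHom.map_dotProduct (algebraMap (𝓞 K) K) c (M.mulVec c)
    refine h2.trans ?_
    have h3 : (algebraMap (𝓞 K) K ∘ M.mulVec c) =
        (M.map (algebraMap (𝓞 K) K)).mulVec (algebraMap (𝓞 K) K ∘ c) :=
      funext fun i => RingHom.map_mulVec (algebraMap (𝓞 K) K) M c i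
    rw [h3]
    rfl
  have hz2' : eb ⬝ᵥ (M.map π).mulVec eb = π (zc 2) := by
    rw [← hz2, ← hceb]
    refine ((RingHom.map_dotProduct π c (M.mulVec c)).trans ?_).symm
    congr 1
    funext i
    exact RingHom.map_mulVec π M c i
  -- the vector r
  have hr : ∀ j, (N.mulVec c - t • M.mulVec c) j ∈ v.asIdeal := by
    intro j
    rw [← hπ, Pi.sub_apply, Pi.smul_apply, smul_eq_mul, map_sub, map_mul, RingHom.map_mulVec,
      RingHom.map_mulVec, hceb, hNM]
    simp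
  have hg : ∀ j, (M.adjugate.mulVec (N.mulVec c - t • M.mulVec c)) j ∈ v.asIdeal := by
    intro j
    rw [Matrix.mulVec, dotProduct]
    exact v.asIdeal.sum_mem fun i _ => v.asIdeal.mul_mem_left _ (hr i)
  have hlin := Fd_lin h hli (δ : L)⁻¹ (fun i => (c i : K)) (t : K)
  rw [hMx, hNx] at hlin
  have hcoef : ∀ j, ((M.map (algebraMap (𝓞 K) K)).adjugate.mulVec
      ((N.map (algebraMap (𝓞 K) K)).mulVec (fun i => (c i : K)) -
        (t : K) • (M.map (algebraMap (𝓞 K) K)).mulVec (fun i => (c i : K)))) j =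
      ((M.adjugate.mulVec (N.mulVec c - t • M.mulVec c)) j : K) := by
    intro j
    have h1 : (M.map (algebraMap (𝓞 K) K)).adjugate = M.adjugate.map (algebraMap (𝓞 K) K) :=
      (RingHom.map_adjugate (algebraMap (𝓞 K) K) M).symm
    have h2 : (N.map (algebraMap (𝓞 K) K)).mulVec (fun i => (c i : K)) -
        (t : K) • (M.map (algebraMap (𝓞 K) K)).mulVec (fun i => (c i : K)) =
        algebraMap (𝓞 K) K ∘ (N.mulVec c - t • M.mulVec c) := by
      funext i
      have e1 := RingHom.map_mulVec (algebraMap (𝓞 K) K) M c i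
      have e2 := RingHom.map_mulVec (algebraMap (𝓞 K) K) N c i
      rw [Function.comp_apply, Pi.sub_apply, Pi.sub_apply, Pi.smul_apply, Pi.smul_apply, map_sub,
        smul_eq_mul, smul_eq_mul, map_mul, e1, e2]
      rfl
    rw [h1, h2]
    exact (RingHom.map_mulVec (algebraMap (𝓞 K) K) M.adjugate _ j).symm
  have hmdK : (M.map (algebraMap (𝓞 K) K)).det = (M.det : K) :=
    (RingHom.map_det (algebraMap (𝓞 K) K) M).symm
  rw [hmdK, ← hEL] at hlin
  simp only [hcoef] at hlin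
  have hlin2 : (M.det : K) • ((θ - algebraMap K L (t : K)) * (z : L)) =
      ∑ j, ((M.adjugate.mulVec (N.mulVec c - t • M.mulVec c)) j : K) • (y j : L) := by
    rw [Algebra.smul_def, hzL]
    calc algebraMap K L (M.det : K) * ((θ - algebraMap K L (t : K)) * ((E : L) * (E : L) * (δ : L)⁻¹))
        = (algebraMap K L (M.det : K) * ((θ - algebraMap K L (t : K)) * (E : L))) *
          ((E : L) * (δ : L)⁻¹) := by ring
      _ = _ := by
        rw [hlin, Finset.sum_mul]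
        refine Finset.sum_congr rfl fun j _ => ?_
        rw [hyL, smul_mul_assoc]
        congr 1
        ring
  have hco : ∀ i, (M.det : K) * h.co i ((θ - algebraMap K L (t : K)) * (z : L)) =
      ∑ j, ((M.adjugate.mulVec (N.mulVec c - t • M.mulVec c)) j : K) * (yc j i : K) := by
    intro i
    have h1 := congrArg (h.co i) hlin2
    rw [map_smul, map_sum, smul_eq_mul] at h1
    rw [h1]
    refine Finset.sum_congr rfl fun j _ => ?_
    rw [map_smul, smul_eq_mul, hyc]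
  have hmem : ∀ (i : Fin 3) (q : 𝓞 K),
      h.co i ((θ - algebraMap K L (t : K)) * (z : L)) = (q : K) → q ∈ v.asIdeal := by
    intro i q hq
    have h1 := hco i
    rw [hq] at h1
    have h2 : M.det * q = ∑ j, (M.adjugate.mulVec (N.mulVec c - t • M.mulVec c)) j * yc j i := by
      apply RingOfIntegers.coe_injective
      rw [map_mul, map_sum]
      simp only [map_mul]
      exact h1
    have h3 : M.det * q ∈ v.asIdeal := by
      rw [h2]
      exact v.asIdeal.sum_mem fun j _ => v.asIdeal.mul_mem_right _ (hg j)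
    exact (hvp.mem_or_mem h3).resolve_left hdet
  obtain ⟨t0, t1, t2⟩ := h.co_theta
  obtain ⟨m0, m1, m2⟩ := h.co_mul θ (z : L)
  have hsplit : (θ - algebraMap K L (t : K)) * (z : L) = θ * (z : L) - (t : K) • (z : L) := by
    rw [Algebra.smul_def]
    ring
  have hq1 : zc 0 - A * zc 2 - t * zc 1 ∈ v.asIdeal := by
    apply hmem 1
    rw [hsplit, map_sub, map_smul, m1, t0, t1, t2, hzc, hzc, hzc, smul_eq_mul]
    simp only [map_sub, map_mul]
    ring
  have hq2 : zc 1 - t * zc 2 ∈ v.asIdeal := by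
    apply hmem 2
    rw [hsplit, map_sub, map_smul, m2, t0, t1, t2, hzc, hzc, hzc, smul_eq_mul]
    simp only [map_sub, map_mul]
    ring
  have hχz := hχ z zc hzc
  have k1 := (hπ _).2 hq1
  have k2 := (hπ _).2 hq2
  rw [map_sub, map_sub, map_mul, map_mul] at k1
  rw [map_sub, map_mul] at k2
  rw [map_add, map_add, map_mul, map_mul, map_pow] at hχz
  have hfin : (eb ⬝ᵥ (M.map π).mulVec eb) * (3 * (π t) ^ 2 + π A) = χ z := by
    rw [hχz, hz2']
    linear_combination -k1 - 2 * π t * k2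
  rw [hfin]
  by_cases hzw : z ∈ w.asIdeal
  · rw [hχ0 z hzw]
    exact ⟨0, (mul_zero 0).symm⟩
  · exact isSquare_res hw χ hχ0 hδ hzw (hz.trans (mul_comm _ _)) hlw

theorem res_condS {K : Type} [Field K] [NumberField K] {A B : 𝓞 K} {L : Type} [Field L]
    [NumberField L] [Algebra K L] {θ : L} (h : Cub K L (A : K) (B : K) θ) {δ : 𝓞 L} (hδ : δ ≠ 0)
    {e : Fin 3 → 𝓞 L} (hpr : Prs h δ e)
    (hli : LinearIndependent K (fun i => (e i : L))) {M N : Matrix (Fin 3) (Fin 3) (𝓞 K)}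
    (hM : ∀ i j, (M i j : K) = Mx h (fun i => (e i : L)) (δ : L)⁻¹ i j)
    (hN : ∀ i j, (N i j : K) = Nx h (fun i => (e i : L)) (δ : L)⁻¹ i j)
    (hchar : ∀ x : 𝓞 K, (x • M - N).det = M.det * (x ^ 3 + A * x + B))
    {v : HeightOneSpectrum (𝓞 K)} (hd : dsc A B ∉ v.asIdeal ^ 2) (h6 : (6 : 𝓞 K) ∉ v.asIdeal)
    (htyp : ∃ t : 𝓞 K, t ^ 3 + A * t + B ∈ v.asIdeal ∧
      ∀ s : 𝓞 K, -3 * t ^ 2 - 4 * A - s ^ 2 ∉ v.asIdeal)
    (hla : ∀ w : HeightOneSpectrum (𝓞 L), dn K w = v → la w (sc (δ : L)) = 0)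
    (hdet : M.det ∉ v.asIdeal) : Rs (rd v M) (rd v N) := by
  obtain ⟨t, ht, hts⟩ := htyp
  obtain ⟨w, χ, hdn, hχ0, -, hχ⟩ := exists_placeL h (lb_of h hd) ht
  have hw : OddP w := by
    have h2 : (2 : 𝓞 L) ∉ w.asIdeal := by
      intro h2
      have h3 : (2 : 𝓞 K) ∈ v.asIdeal := by
        rw [← hdn]
        change algebraMap (𝓞 K) (𝓞 L) 2 ∈ w.asIdeal
        rw [map_ofNat]
        exact h2
      apply h6
      rw [show (6 : 𝓞 K) = 3 * 2 by norm_num]
      exact v.asIdeal.mul_mem_left _ h3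
    have h3 := (HeightOneSpectrum.valuation_eq_one_iff_notMem (K := L) w (r := (2 : 𝓞 L))).2 h2
    unfold H38T1.OddP
    have h4 : algebraMap (𝓞 L) L 2 = 2 := map_ofNat _ 2
    rw [h4] at h3
    exact h3
  exact Fd_mainS h hδ hpr hli hM hN hchar h6 hdet ht hts (Ideal.Quotient.mk v.asIdeal)
    (fun x => Ideal.Quotient.eq_zero_iff_mem) Ideal.Quotient.mk_surjective hw (hla w hdn) χ
    (fun x hx => (hχ0 x).2 hx) hχ

end H36MT

end S_H36_MT_Fd

section S_H36_MT_Fs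

set_option autoImplicit false
set_option linter.unusedSectionVars false
open scoped Classical

open WithZero NumberField IsDedekindDomain H38RT
open H38T1 (SC sc scu rep eo la si Pri OddP tp unif)
open H76PP

namespace H36MT

private lemma Fs_split {R : Type*} [CommRing R] [IsDedekindDomain R] (D : Ideal R) :
    D ≠ 0 → ∃ I J : Ideal R, D = I ^ 2 * J ∧ Squarefree J := by
  refine UniqueFactorizationMonoid.induction_on_prime
    (P := fun D : Ideal R => D ≠ 0 → ∃ I J : Ideal R, D = I ^ 2 * J ∧ Squarefree J) D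
    (fun h => absurd rfl h) ?_ ?_
  · intro x hx _
    refine ⟨1, x, by rw [one_pow, one_mul], hx.squarefree⟩
  · intro a p ha hp ih _
    obtain ⟨I, J, h1, h2⟩ := ih ha
    by_cases hpJ : p ∣ J
    · obtain ⟨J', rfl⟩ := hpJ
      refine ⟨I * p, J', ?_, h2.of_mul_right⟩
      rw [h1]
      ring
    · refine ⟨I, p * J, ?_, ?_⟩
      · rw [h1]
        ring
      · rw [squarefree_mul_iff]
        exact ⟨(hp.irreducible.isRelPrime_iff_not_dvd).2 hpJ, hp.irreducible.squarefree, h2⟩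

theorem sq_ideal {L : Type} [Field L] [NumberField L] {δ : 𝓞 L} (hδ : δ ≠ 0)
    (Q : Set (HeightOneSpectrum (𝓞 L))) (hev : ∀ w, w ∉ Q → eo w (sc (δ : L)) = 0) {r : 𝓞 L}
    (hr : ∀ w ∈ Q, r ∈ w.asIdeal) :
    ∃ I : Ideal (𝓞 L), I ≠ ⊥ ∧ (Ideal.absNorm I) ^ 2 ≤ Ideal.absNorm (Ideal.span {δ}) ∧
      ∀ x ∈ I, ∀ y ∈ I, ∃ z : 𝓞 L, r * (x * y) = δ * z := by
  have hD : Ideal.span {δ} ≠ 0 := by
    rw [Ideal.zero_eq_bot, Ne, Ideal.span_singleton_eq_bot]; exact hδ
  have hδL : (δ : L) ≠ 0 := RingOfIntegers.coe_ne_zero_iff.mpr hδ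
  obtain ⟨I, J, hIJ, hJ⟩ := Fs_split (Ideal.span {δ}) hD
  have hJ0 : J ≠ 0 := by
    rintro rfl
    exact hD (by rw [hIJ, mul_zero])
  have hI0 : I ≠ 0 := by
    rintro rfl
    exact hD (by rw [hIJ, zero_pow two_ne_zero, zero_mul])
  have hnd : (UniqueFactorizationMonoid.normalizedFactors J).Nodup :=
    (UniqueFactorizationMonoid.squarefree_iff_nodup_normalizedFactors hJ0).1 hJ
  have hmem : r ∈ J := by
    rcases eq_or_ne r 0 with rfl | hr0
    · exact J.zero_mem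
    have hr1 : Ideal.span {r} ≠ 0 := by
      rw [Ideal.zero_eq_bot, Ne, Ideal.span_singleton_eq_bot]; exact hr0
    have hdvd : J ∣ Ideal.span {r} := by
      refine (UniqueFactorizationMonoid.dvd_iff_normalizedFactors_le_normalizedFactors hJ0 hr1).2
        ((Multiset.le_iff_subset hnd).2 ?_)
      intro P hP
      have hirr := UniqueFactorizationMonoid.irreducible_of_normalized_factor P hP
      have hpr : Prime P := hirr.prime
      set w : HeightOneSpectrum (𝓞 L) := ⟨P, Ideal.isPrime_of_prime hpr, hpr.ne_zero⟩ with hw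
      have hwQ : w ∈ Q := by
        by_contra hwQ
        have hev' := hev w hwQ
        rw [H38T1.eo_sc hδL] at hev'
        have h3 := w.intValuation_eq_exp_neg_multiplicity hδ
        rw [← w.valuation_of_algebraMap (K := L)] at h3
        unfold ord at hev'
        change ((-log (w.valuation L (algebraMap (𝓞 L) L δ)) : ℤ) : ZMod 2) = 0 at hev'
        rw [h3, log_exp, neg_neg] at hev'
        have h4 : ((multiplicity w.asIdeal (Ideal.span {δ}) : ℕ) : ZMod 2) = 0 := by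
          exact_mod_cast hev'
        have h5 : 2 ∣ multiplicity P (Ideal.span {δ}) := (ZMod.natCast_eq_zero_iff _ _).1 h4
        rw [UniqueFactorizationMonoid.multiplicity_eq_count_normalizedFactors hirr hD,
          normalize_eq, hIJ, UniqueFactorizationMonoid.normalizedFactors_mul
            (pow_ne_zero 2 hI0) hJ0, UniqueFactorizationMonoid.normalizedFactors_pow,
          Multiset.count_add, Multiset.count_nsmul, Multiset.count_eq_one_of_mem hnd hP] at h5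
        omega
      have hrw : r ∈ P := hr w hwQ
      refine (UniqueFactorizationMonoid.mem_normalizedFactors_iff' hr1).2
        ⟨hirr, normalize_eq _, ?_⟩
      rw [Ideal.dvd_span_singleton]
      exact hrw
    rwa [Ideal.dvd_span_singleton] at hdvd
  refine ⟨I, by rwa [← Ideal.zero_eq_bot], ?_, ?_⟩
  · rw [hIJ, map_mul, map_pow]
    have h1 : 0 < Ideal.absNorm J := by
      rw [Nat.pos_iff_ne_zero, Ne, Ideal.absNorm_eq_zero_iff]
      exact hJ0
    exact Nat.le_mul_of_pos_right _ h1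
  · intro x hx y hy
    have h1 : r * (x * y) ∈ Ideal.span {δ} := by
      rw [hIJ, mul_comm, sq]
      exact Ideal.mul_mem_mul hmem (Ideal.mul_mem_mul hx hy)
    obtain ⟨z, hz⟩ := Ideal.mem_span_singleton'.1 h1
    exact ⟨z, by rw [← hz, mul_comm]⟩

end H36MT

end S_H36_MT_Fs

section S_H36_MT_Ge

set_option autoImplicit false
open scoped Classical

open NumberField IsDedekindDomain
open H76PP

namespace H36MT

lemma Ge_absNormS {L : Type} [Field L] [NumberField L] (δ : 𝓞 L) (I : Ideal (𝓞 L))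
    (hI : (Ideal.absNorm I) ^ 2 ≤ Ideal.absNorm (Ideal.span {δ})) :
    ((Ideal.absNorm I : ℕ) : ℝ) ^ 2 ≤ ∏ τ : L →+* ℂ, ‖τ (δ : L)‖ := by
  rw [Ideal.absNorm_span_singleton] at hI
  rw [Ge_norm, ← Algebra.coe_norm_int]
  have h2 : ((Ideal.absNorm I : ℕ) : ℝ) ^ 2 ≤ (((Algebra.norm ℤ δ).natAbs : ℕ) : ℝ) := by
    exact_mod_cast hI
  refine h2.trans (le_of_eq ?_)
  rw [Nat.cast_natAbs, Int.cast_abs]
  norm_cast

theorem reduceS (K : Type) [Field K] [NumberField K] : ∃ C₂ : ℝ, 1 ≤ C₂ ∧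
    ∀ (L : Type) [Field L] [NumberField L] [Algebra K L] (A B : 𝓞 K) (θ : L),
      Cub K L (A : K) (B : K) θ → (4 * (A : K) ^ 3 + 27 * (B : K) ^ 2) ≠ 0 →
      ∀ (δ : 𝓞 L) (I : Ideal (𝓞 L)), δ ≠ 0 → I ≠ ⊥ →
      (Ideal.absNorm I) ^ 2 ≤ Ideal.absNorm (Ideal.span {δ}) →
      ∃ e : Fin 3 → 𝓞 L, (∀ i, e i ∈ I) ∧ LinearIndependent K (fun i => (e i : L)) ∧
        ∃ l : Fin 3 → ℝ,
          (∀ i, l i = √(qw (wt (δ : L) (3 * θ ^ 2 + algebraMap K L (A : K))) (e i : L))) ∧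
          l 0 ≤ l 1 ∧ l 1 ≤ l 2 ∧ l 0 * l 1 * l 2 ≤ C₂ := by
  obtain ⟨C, hC1, hC⟩ := ideal_reduced (3 * Module.finrank ℚ K)
  refine ⟨max 1 (√(C * (((NumberField.discr K).natAbs : ℕ) : ℝ) ^ 3)), le_max_left _ _, ?_⟩
  intro L _ _ _ A B θ h hd δ I hδ hI0 hI
  obtain ⟨d, hdd⟩ : ∃ d : L, d = 3 * θ ^ 2 + algebraMap K L (A : K) := ⟨_, rfl⟩
  have hd0 : d ≠ 0 := by
    rw [hdd]
    exact h.der_ne hd
  have hδL : (δ : L) ≠ 0 := by
    intro h0
    exact hδ (RingOfIntegers.coe_injective (h0.trans (map_zero _).symm))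
  rw [← hdd]
  have hfin : Module.finrank ℚ L = 3 * Module.finrank ℚ K := by
    rw [← Module.finrank_mul_finrank ℚ K L, h.finrank, mul_comm]
  have hw := Ge_wt_pos hδL hd0
  have hwc : ∀ τ, wt (δ : L) d (ComplexEmbedding.conjugate τ) = wt (δ : L) d τ := by
    intro τ
    unfold wt
    rw [ComplexEmbedding.conjugate_coe_eq, ComplexEmbedding.conjugate_coe_eq, Complex.norm_conj,
      Complex.norm_conj]
  obtain ⟨b, hb, hli, hprod⟩ := hC L hfin I hI0 _ hw hwc
  have hbd : (Ideal.absNorm I : ℝ) ^ 2 * (((NumberField.discr L).natAbs : ℕ) : ℝ) *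
      ∏ τ, wt (δ : L) d τ ≤ (((NumberField.discr K).natAbs : ℕ) : ℝ) ^ 3 := by
    have h1 := disc_le h hd
    rw [← hdd] at h1
    have hIle := Ge_absNormS δ I hI
    unfold wt
    have h2 : ∏ τ : L →+* ℂ, 1 / (‖τ (δ : L)‖ * ‖τ d‖) =
        1 / ((∏ τ : L →+* ℂ, ‖τ (δ : L)‖) * ∏ τ : L →+* ℂ, ‖τ d‖) := by
      rw [Finset.prod_div_distrib, Finset.prod_const_one, Finset.prod_mul_distrib]
    rw [h2]
    have p1 : 0 < ∏ τ : L →+* ℂ, ‖τ (δ : L)‖ :=
      Finset.prod_pos fun τ _ => norm_pos_iff.2 ((map_ne_zero τ).2 hδL)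
    have p2 : 0 < ∏ τ : L →+* ℂ, ‖τ d‖ :=
      Finset.prod_pos fun τ _ => norm_pos_iff.2 ((map_ne_zero τ).2 hd0)
    rw [mul_one_div, div_le_iff₀ (by positivity)]
    calc (Ideal.absNorm I : ℝ) ^ 2 * (((NumberField.discr L).natAbs : ℕ) : ℝ)
        ≤ (∏ τ : L →+* ℂ, ‖τ (δ : L)‖) * (((NumberField.discr L).natAbs : ℕ) : ℝ) :=
          mul_le_mul_of_nonneg_right hIle (Nat.cast_nonneg _)
      _ ≤ (∏ τ : L →+* ℂ, ‖τ (δ : L)‖) * ((((NumberField.discr K).natAbs : ℕ) : ℝ) ^ 3 *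
          ∏ τ : L →+* ℂ, ‖τ d‖) := mul_le_mul_of_nonneg_left h1 p1.le
      _ = (((NumberField.discr K).natAbs : ℕ) : ℝ) ^ 3 * ((∏ τ : L →+* ℂ, ‖τ (δ : L)‖) *
          ∏ τ : L →+* ℂ, ‖τ d‖) := by ring
  have hprod2 : ∏ i, qw (wt (δ : L) d) (b i : L) ≤
      C * (((NumberField.discr K).natAbs : ℕ) : ℝ) ^ 3 :=
    hprod.trans (mul_le_mul_of_nonneg_left hbd (by linarith))
  obtain ⟨e, he1, he2, he3, he4⟩ := select h.finrank rfl hli
    (fun i => √(qw (wt (δ : L) d) (b i : L))) (fun i => Real.sqrt_nonneg _)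
  refine ⟨fun i => b (e i), fun i => hb _, he1, fun i => √(qw (wt (δ : L) d) (b (e i) : L)),
    fun i => rfl, he2, he3, ?_⟩
  refine Ge_pow Module.finrank_pos (he4.trans ?_)
  have hqn : ∀ i, 0 ≤ qw (wt (δ : L) d) (b i : L) := by
    intro i
    unfold qw
    exact Finset.sum_nonneg fun τ _ => mul_nonneg (hw τ).le (by positivity)
  rw [← Real.sqrt_prod _ fun i _ => hqn i]
  exact Real.sqrt_le_sqrt hprod2

end H36MT

end S_H36_MT_Ge

section S_H36_MT_Fe

set_option autoImplicit false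
set_option linter.unusedSectionVars false
open scoped Classical

open WithZero NumberField IsDedekindDomain H38RT
open scoped Matrix
open H38T1 (SC sc scu rep eo la si Pri OddP tp unif)
open H76PP

namespace H36MT

theorem FamS.no_root {K : Type} [Field K] [NumberField K] {S : Finset (HeightOneSpectrum (𝓞 K))}
    {e : ℕ} {q₀ : HeightOneSpectrum (𝓞 K)}
    {T : Finset (HeightOneSpectrum (𝓞 K))} {A B : 𝓞 K} (hF : FamS S e q₀ T A B) (x : K) :
    x ^ 3 + (A : K) * x + (B : K) ≠ 0 := by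
  intro hx
  have hint : IsIntegral (𝓞 K) x := by
    refine ⟨Polynomial.X ^ 3 + (Polynomial.C A * Polynomial.X + Polynomial.C B), ?_, ?_⟩
    · refine Polynomial.monic_X_pow_add ?_
      exact lt_of_le_of_lt Polynomial.degree_linear_le (by norm_num)
    · simp only [Polynomial.eval₂_add, Polynomial.eval₂_pow, Polynomial.eval₂_X,
        Polynomial.eval₂_mul, Polynomial.eval₂_C]
      rw [← hx]
      ring
  obtain ⟨t, ht⟩ := IsIntegrallyClosed.isIntegral_iff.1 hint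
  refine hF.irr t ?_
  have h0 : t ^ 3 + A * t + B = 0 := by
    apply RingOfIntegers.coe_injective
    push_cast
    change (algebraMap (𝓞 K) K t) ^ 3 + (A : K) * (algebraMap (𝓞 K) K t) + (B : K) = 0
    rw [ht]
    exact hx
  rw [h0]
  exact Ideal.zero_mem _

/-- There is a natural number divisible by given powers of the primes of `S`. -/
theorem exists_r {K : Type} [Field K] [NumberField K] (S : Finset (HeightOneSpectrum (𝓞 K)))
    (e : ℕ) : ∃ r : ℕ, 0 < r ∧ ∀ v ∈ S, (r : 𝓞 K) ∈ v.asIdeal ^ e := by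
  refine ⟨Ideal.absNorm (∏ v ∈ S, v.asIdeal ^ e), ?_, fun v hv => ?_⟩
  · refine Nat.pos_of_ne_zero fun h0 => ?_
    rw [Ideal.absNorm_eq_zero_iff, ← Ideal.zero_eq_bot, Finset.prod_eq_zero_iff] at h0
    obtain ⟨v, _, hv⟩ := h0
    exact v.ne_bot (eq_zero_of_pow_eq_zero hv)
  · have h1 := Ideal.absNorm_mem (∏ v ∈ S, v.asIdeal ^ e)
    exact Ideal.dvd_iff_le.1 (Finset.dvd_prod_of_mem (fun v : HeightOneSpectrum (𝓞 K) =>
      v.asIdeal ^ e) hv) h1

/-- The weighted norm of a multiple. -/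
theorem sqrt_qw_mul {L : Type} [Field L] [NumberField L] (w : (L →+* ℂ) → ℝ) (r : ℕ) (x : L) :
    √(qw w ((r : L) * x)) = (r : ℝ) * √(qw w x) := by
  have h1 : qw w ((r : L) * x) = (r : ℝ) ^ 2 * qw w x := by
    unfold qw
    rw [Finset.mul_sum]
    refine Finset.sum_congr rfl fun τ _ => ?_
    rw [map_mul, map_natCast, norm_mul, Complex.norm_natCast]
    ring
  rw [h1, Real.sqrt_mul (by positivity), Real.sqrt_sq (by positivity)]

theorem exists_datS (K : Type) [Field K] [NumberField K] (S : Finset (HeightOneSpectrum (𝓞 K)))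
    (e₀ : ℕ) (he₀ : 1 ≤ e₀) : ∃ C₂ : ℝ, 1 ≤ C₂ ∧
    ∀ (q₀ : HeightOneSpectrum (𝓞 K)) (T : Finset (HeightOneSpectrum (𝓞 K))),
      (∀ v ∈ T, (6 : 𝓞 K) ∉ v.asIdeal ∧ v ∉ S) → ∀ (A B : 𝓞 K) (X : ℝ), 0 ≤ X → (A, B) ∈ Bx K X →
      FamS S e₀ q₀ T A B → BadS S T A B →
      ∃ (l : Fin 3 → ℝ) (M N : Matrix (Fin 3) (Fin 3) (𝓞 K)), Dat X C₂ T A B l M N := by
  obtain ⟨C₂, hC₂, hred⟩ := reduceS K
  obtain ⟨r, hr0, hrS⟩ := exists_r S e₀
  have hrR : (1 : ℝ) ≤ (r : ℝ) := by exact_mod_cast hr0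
  refine ⟨(r : ℝ) ^ 3 * C₂, one_le_mul_of_one_le_of_one_le (one_le_pow₀ hrR) hC₂, ?_⟩
  intro q₀ T hT A B X hX hAB hF hbad
  obtain ⟨L, _, _, _, θ, c, hcub, hc0, hcn, hce, hcl⟩ := hbad
  obtain ⟨δ, hδ, hδc⟩ := Fe_rep c
  have hδL : (δ : L) ≠ 0 := RingOfIntegers.coe_ne_zero_iff.mpr hδ
  obtain ⟨I, hI0, hIn, hI⟩ := sq_ideal hδ {w | dn K w ∈ S} (fun w hw => by
    rw [hδc]
    exact hce w hw) (r := algebraMap (𝓞 K) (𝓞 L) (r : 𝓞 K)) (fun w hw => by
      have h1 : (r : 𝓞 K) ∈ (dn K w).asIdeal :=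
        Ideal.pow_le_self (by omega) (hrS _ hw)
      exact h1)
  have hns : ¬ IsSquare (δ : L) := by
    rw [← H38T1.sc_eq_zero hδL, hδc]
    exact hc0
  have hNs : IsSquare (Algebra.norm K (δ : L)) := by
    have h1 : scm (Algebra.norm K : L →* K) (sc (δ : L)) = 0 := by rw [hδc]; exact hcn
    rw [scm_sc _ hδL] at h1
    exact (H38T1.sc_eq_zero (scm_ne _ hδL)).1 h1
  have hd := hF.dsc_ne
  obtain ⟨e', heI, hli', l', hl', le01', le12', hprod'⟩ := hred L A B θ hcub hd δ I hδ hI0 hIn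
  -- the vectors multiplied by `r`
  obtain ⟨e, he⟩ : ∃ e : Fin 3 → 𝓞 L, e = fun i => (r : 𝓞 L) * e' i := ⟨_, rfl⟩
  have heL : ∀ i, (e i : L) = (r : L) * (e' i : L) := by
    intro i
    rw [he]
    change algebraMap (𝓞 L) L ((r : 𝓞 L) * e' i) = _
    rw [map_mul, map_natCast]
  have hrL : (r : L) ≠ 0 := Nat.cast_ne_zero.2 hr0.ne'
  have hli : LinearIndependent K (fun i => (e i : L)) := by
    have h1 : (fun i => (e i : L)) = fun i => (Units.mk0 (r : K) (Nat.cast_ne_zero.2 hr0.ne')) •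
        (e' i : L) := by
      funext i
      rw [heL, Units.smul_def, Units.val_mk0, Algebra.smul_def, map_natCast]
    rw [h1]
    exact hli'.units_smul fun _ => Units.mk0 (r : K) (Nat.cast_ne_zero.2 hr0.ne')
  obtain ⟨l, hldef⟩ : ∃ l : Fin 3 → ℝ, l = fun i => (r : ℝ) * l' i := ⟨_, rfl⟩
  have hl : ∀ i, l i = √(qw (wt (δ : L) (3 * θ ^ 2 + algebraMap K L (A : K))) (e i : L)) := by
    intro i
    rw [heL, sqrt_qw_mul, ← hl', hldef]
  have le01 : l 0 ≤ l 1 := by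
    rw [hldef]
    exact mul_le_mul_of_nonneg_left le01' (by positivity)
  have le12 : l 1 ≤ l 2 := by
    rw [hldef]
    exact mul_le_mul_of_nonneg_left le12' (by positivity)
  have hprod : l 0 * l 1 * l 2 ≤ (r : ℝ) ^ 3 * C₂ := by
    rw [hldef]
    calc (r : ℝ) * l' 0 * ((r : ℝ) * l' 1) * ((r : ℝ) * l' 2)
        = (r : ℝ) ^ 3 * (l' 0 * l' 1 * l' 2) := by ring
      _ ≤ _ := mul_le_mul_of_nonneg_left hprod' (by positivity)
  have hPrs : Prs hcub δ e := by
    intro i j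
    obtain ⟨z, hz⟩ := hI (e' i) (heI i) (e' j) (heI j)
    obtain ⟨cc, hcc⟩ := int_mul hcub hF.sqf hF.bdd hrS z
    refine ⟨(r : 𝓞 L) * z, cc, ?_, fun k => ?_⟩
    · rw [he]
      have h1 : algebraMap (𝓞 K) (𝓞 L) (r : 𝓞 K) = (r : 𝓞 L) := map_natCast _ r
      rw [h1] at hz
      calc (r : 𝓞 L) * e' i * ((r : 𝓞 L) * e' j) = (r : 𝓞 L) * ((r : 𝓞 L) * (e' i * e' j)) := by
            ring
        _ = δ * ((r : 𝓞 L) * z) := by rw [hz]; ring
    · have h1 : (((r : 𝓞 L) * z : 𝓞 L) : L) = (r : K) • (z : L) := by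
        change algebraMap (𝓞 L) L ((r : 𝓞 L) * z) = _
        rw [map_mul, map_natCast, Algebra.smul_def, map_natCast]
      rw [h1, map_smul, smul_eq_mul, ← hcc k]
      congr 1
  have hM' : ∀ i j, ∃ m : 𝓞 K, (m : K) = Mx hcub (fun i => (e i : L)) (δ : L)⁻¹ i j := by
    intro i j
    obtain ⟨y, cc, hy, hcc⟩ := hPrs i j
    refine ⟨cc 2, ?_⟩
    have h2 : (e i : L) * (e j : L) * (δ : L)⁻¹ = (y : L) := by
      have h3 := congrArg (algebraMap (𝓞 L) L) hy
      rw [map_mul, map_mul] at h3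
      rw [h3]
      field_simp
    rw [← hcc 2, ← h2]
    rfl
  have hN' : ∀ i j, ∃ m : 𝓞 K, (m : K) = Nx hcub (fun i => (e i : L)) (δ : L)⁻¹ i j := by
    intro i j
    obtain ⟨y, cc, hy, hcc⟩ := hPrs i j
    have h2 : (e i : L) * (e j : L) * (δ : L)⁻¹ = (y : L) := by
      have h3 := congrArg (algebraMap (𝓞 L) L) hy
      rw [map_mul, map_mul] at h3
      rw [h3]
      field_simp
    refine ⟨cc 1, ?_⟩
    have h4 : hcub.co 2 (θ * ((e i : L) * (e j : L) * (δ : L)⁻¹)) = hcub.co 1 (y : L) := by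
      rw [h2]
      exact Ec_theta hcub (y : L)
    rw [← hcc 1, ← h4]
    rfl
  choose M₀ hM₀ using hM'
  choose N₀ hN₀ using hN'
  set M : Matrix (Fin 3) (Fin 3) (𝓞 K) := Matrix.of M₀ with hMdef
  set N : Matrix (Fin 3) (Fin 3) (𝓞 K) := Matrix.of N₀ with hNdef
  have hM : ∀ i j, (M i j : K) = Mx hcub (fun i => (e i : L)) (δ : L)⁻¹ i j := hM₀
  have hN : ∀ i j, (N i j : K) = Nx hcub (fun i => (e i : L)) (δ : L)⁻¹ i j := hN₀
  have hinj : Function.Injective (algebraMap (𝓞 K) K) := RingOfIntegers.coe_injective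
  have hMm : M.map (algebraMap (𝓞 K) K) = Mx hcub (fun i => (e i : L)) (δ : L)⁻¹ := by
    ext i j
    exact hM i j
  have hNm : N.map (algebraMap (𝓞 K) K) = Nx hcub (fun i => (e i : L)) (δ : L)⁻¹ := by
    ext i j
    exact hN i j
  have hdetM : algebraMap (𝓞 K) K M.det = (Mx hcub (fun i => (e i : L)) (δ : L)⁻¹).det := by
    rw [← hMm, RingHom.map_det]
    rfl
  have hMne := Mx_det hcub hli (inv_ne_zero hδL)
  have hchar : ∀ x : 𝓞 K, (x • M - N).det = M.det * (x ^ 3 + A * x + B) := by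
    intro x
    apply hinj
    rw [RingHom.map_det, map_mul, hdetM]
    have h4 : (algebraMap (𝓞 K) K).mapMatrix (x • M - N) =
        algebraMap (𝓞 K) K x • Mx hcub (fun i => (e i : L)) (δ : L)⁻¹ -
          Nx hcub (fun i => (e i : L)) (δ : L)⁻¹ := by
      rw [← hMm, ← hNm]
      ext i j
      change algebraMap (𝓞 K) K (x * M i j - N i j) =
        algebraMap (𝓞 K) K x * algebraMap (𝓞 K) K (M i j) - algebraMap (𝓞 K) K (N i j)
      rw [map_sub, map_mul]
    rw [h4, Mx_char]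
    simp only [map_add, map_mul, map_pow]
  refine ⟨l, M, N, ?_⟩
  refine ⟨?_, le01, le12, hprod, ?_, ?_, ?_, ?_, ?_, hchar, ?_, ?_, ?_⟩
  · -- pos
    rw [hl 0, Real.sqrt_pos]
    unfold qw
    refine Finset.sum_pos (fun τ _ => ?_) Finset.univ_nonempty
    have h5 : (e 0 : L) ≠ 0 := hli.ne_zero 0
    have h6 : τ (e 0 : L) ≠ 0 := (map_ne_zero τ).2 h5
    have h7 : τ (δ : L) ≠ 0 := (map_ne_zero τ).2 hδL
    have h8 : τ (3 * θ ^ 2 + algebraMap K L (A : K)) ≠ 0 := (map_ne_zero τ).2 (hcub.der_ne hd)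
    unfold wt
    have h6' : 0 < ‖τ (e 0 : L)‖ := norm_pos_iff.2 h6
    have h7' : 0 < ‖τ (δ : L)‖ := norm_pos_iff.2 h7
    have h8' : 0 < ‖τ (3 * θ ^ 2 + algebraMap K L (A : K))‖ := norm_pos_iff.2 h8
    positivity
  · -- symM
    ext i j
    have h9 := congrFun (congrFun (Mx_symm hcub (fun i => (e i : L)) (δ : L)⁻¹) i) j
    rw [Matrix.transpose_apply] at h9 ⊢
    rw [hM j i, hM i j]
    exact h9
  · -- symN
    ext i j
    have h9 := congrFun (congrFun (Nx_symm hcub (fun i => (e i : L)) (δ : L)⁻¹) i) j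
    rw [Matrix.transpose_apply] at h9 ⊢
    rw [hN j i, hN i j]
    exact h9
  · -- detM
    intro h0
    apply hMne
    rw [← hdetM, h0, map_zero]
  · -- bdM
    intro s i j
    rw [hM i j, hl i, hl j]
    exact mx_bound hcub hd hδL s (e i : L) (e j : L)
  · -- bdN
    intro s i j
    rw [hN i j, hl i, hl j]
    exact nx_bound hcub hd hX hAB.1 hAB.2 hδL s (e i : L) (e j : L)
  · -- red
    intro h00 hN0
    have h10 : hcub.co 2 ((e 0 : L) * (e 0 : L) * (δ : L)⁻¹) = 0 := by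
      have := hM 0 0
      rw [h00] at this
      exact this.symm.trans (map_zero (algebraMap (𝓞 K) K))
    refine hcub.red hδL (hli.ne_zero 0) hNs hns h10 ?_
    have := hN 0 0
    rw [hN0] at this
    exact this.symm.trans (map_zero (algebraMap (𝓞 K) K))
  · -- fix
    rintro Q hQM hQN ⟨v, hv, hQv⟩
    have hinf : Infinite K := Infinite.of_injective ((↑) : ℕ → K) Nat.cast_injective
    set Q' := (algebraMap (𝓞 K) K).mapMatrix Q with hQ'
    have hMm' : (algebraMap (𝓞 K) K).mapMatrix M = Mx hcub (fun i => (e i : L)) (δ : L)⁻¹ := hMm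
    have hNm' : (algebraMap (𝓞 K) K).mapMatrix N = Nx hcub (fun i => (e i : L)) (δ : L)⁻¹ := hNm
    have hQT : Q'ᵀ = (algebraMap (𝓞 K) K).mapMatrix Qᵀ := rfl
    have hfix := fix_one (F := K) (M := Mx hcub (fun i => (e i : L)) (δ : L)⁻¹)
      (N := Nx hcub (fun i => (e i : L)) (δ : L)⁻¹) (Q := Q') (a := (A : K)) (b := (B : K))
      (e := fun i => (v i : K)) hMne (fun x => Mx_char _ _ _ x) (hF.no_root)
      (by rw [← hMm', hQT, hQ', ← map_mul, ← map_mul, hQM])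
      (by rw [← hNm', hQT, hQ', ← map_mul, ← map_mul, hQN])
      (by
        intro h0
        apply hv
        refine funext (fun i => ?_)
        have := congrFun h0 i
        have h15 : algebraMap (𝓞 K) K (v i) = algebraMap (𝓞 K) K 0 := by
          rw [map_zero]; exact this
        exact hinj h15)
      (by
        ext i
        have h11 := congrFun hQv i
        have h12 := congrArg (algebraMap (𝓞 K) K) h11
        change (Q'.mulVec fun i => (v i : K)) i = algebraMap (𝓞 K) K (v i)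
        rw [← h12]
        simp [hQ', Matrix.mulVec, dotProduct, Matrix.map_apply])
    have h13 : (algebraMap (𝓞 K) K).mapMatrix Q = (algebraMap (𝓞 K) K).mapMatrix 1 := by
      rw [map_one]; exact hfix
    exact Matrix.map_injective hinj h13
  · -- res
    intro v hv hdet
    exact res_condS hcub hδ hPrs hli hM hN hchar (hF.sqf v (hT v hv).2) (hT v hv).1 (hF.typ v hv)
      (fun w hw => by rw [hδc]; exact hcl w (by rw [hw]; exact hv)) hdet

end H36MT

end S_H36_MT_Fe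

section S_H36_MT_Dg

set_option autoImplicit false
set_option linter.unusedSectionVars false
open scoped Classical

open WithZero NumberField IsDedekindDomain H38RT
open H76PP

namespace H36MT

variable {K : Type} [Field K] [NumberField K]

/-- `D` generates `p / q₀`, is congruent to one modulo `m` and positive at the real places. -/
structure AuxR (m : Ideal (𝓞 K)) (q₀ p : HeightOneSpectrum (𝓞 K)) (D : K) : Prop where
  ne : D ≠ 0
  at_p : p.valuation K D = exp (-1)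
  at_q : q₀.valuation K D = exp 1
  oth : ∀ v : HeightOneSpectrum (𝓞 K), v ≠ p → v ≠ q₀ → v.valuation K D = 1
  cong : ∀ (v : HeightOneSpectrum (𝓞 K)) (k : ℕ), 0 < k → m ≤ v.asIdeal ^ k →
    v.valuation K (D - 1) ≤ exp (-(k : ℤ))
  pos : ∀ s : K →+* ℝ, 0 < s D

/-- The pairs `(a, b)` of residues such that `x^3 + a x + b` has a root. -/
def RtS (k : Type*) [Field k] : Set (k × k) := {p | ∃ t : k, t ^ 3 + p.1 * t + p.2 = 0}

end H36MT

end S_H36_MT_Dg

section S_H36_MT_Cu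

set_option autoImplicit false
set_option linter.unusedSectionVars false
open scoped Classical

open NumberField IsDedekindDomain
open H76PP H36PP

namespace H36MT

variable (K : Type) [Field K] [NumberField K]

theorem count_prod : ∃ C : ℝ, 1 ≤ C ∧ ∀ (T : Finset (HeightOneSpectrum (𝓞 K)))
    (S : ∀ v : HeightOneSpectrum (𝓞 K), Set ((𝓞 K ⧸ v.asIdeal) × (𝓞 K ⧸ v.asIdeal))),
    ∃ X₀ : ℝ, 1 ≤ X₀ ∧ ∀ X : ℝ, X₀ ≤ X →
      ({p : 𝓞 K × 𝓞 K | p ∈ Bx K X ∧ ∀ v ∈ T, rs v.asIdeal p ∈ S v}.ncard : ℝ) ≤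
        C * (∏ v ∈ T, ((S v).ncard : ℝ) / (Nv v : ℝ) ^ 2) * X ^ (5 * Module.finrank ℚ K) := by
  obtain ⟨C, hC1, hC⟩ := count_primes K
  refine ⟨4 * C ^ 2, by nlinarith, fun T S => ?_⟩
  obtain ⟨Q, hQ⟩ : ∃ Q : ℝ, Q = ∏ v ∈ T, (Nv v : ℝ) := ⟨_, rfl⟩
  obtain ⟨n, hn⟩ : ∃ n : ℕ, n = Module.finrank ℚ K := ⟨_, rfl⟩
  have hn1 : 1 ≤ n := by
    rw [hn]
    exact Module.finrank_pos
  have hNv : ∀ v : HeightOneSpectrum (𝓞 K), (1 : ℝ) ≤ (Nv v : ℝ) := fun v => by
    have h1 : Nv v ≠ 0 := by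
      rw [Nv, Ne, Ideal.absNorm_eq_zero_iff]
      exact v.ne_bot
    exact_mod_cast Nat.one_le_iff_ne_zero.2 h1
  have hQ1 : 1 ≤ Q := by
    rw [hQ]
    have h1 := Finset.prod_le_prod (s := T) (f := fun _ => (1 : ℝ)) (g := fun v => (Nv v : ℝ))
      (fun _ _ => zero_le_one) (fun v _ => hNv v)
    simpa using h1
  have hQ0 : 0 < Q := by linarith
  have hC0 : 0 < C := by linarith
  refine ⟨Q, hQ1, fun X hX => ?_⟩
  have hX1 : 1 ≤ X := hQ1.trans hX
  have hX0 : 0 < X := by linarith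
  have hfin : ∀ v : HeightOneSpectrum (𝓞 K), Finite (𝓞 K ⧸ v.asIdeal) := fun v =>
    Ideal.finiteQuotientOfFreeOfNeBot v.asIdeal v.ne_bot
  have hS : ∀ v ∈ T, (({y : Fin 2 → 𝓞 K ⧸ v.asIdeal | (y 0, y 1) ∈ S v}.ncard : ℕ) : ℝ) ≤ ((S v).ncard : ℝ) := by
    intro v _
    have := hfin v
    exact_mod_cast Set.ncard_le_ncard_of_injOn (fun y : Fin 2 → 𝓞 K ⧸ v.asIdeal => (y 0, y 1))
      (fun y hy => hy) (fun y _ y' _ h => by
        have h0 := congrArg Prod.fst h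
        have h1 := congrArg Prod.snd h
        funext i
        fin_cases i
        · exact h0
        · exact h1) (Set.toFinite _)
  have hkey := hC (Fin 2) T (fun v => {y | (y 0, y 1) ∈ S v}) ![X ^ 2, X ^ 3] (by
    intro i
    fin_cases i
    · show (0 : ℝ) ≤ X ^ 2
      positivity
    · show (0 : ℝ) ≤ X ^ 3
      positivity)
  rw [← hQ, ← hn, Fin.prod_univ_two] at hkey
  have hle : ({p : 𝓞 K × 𝓞 K | p ∈ Bx K X ∧ ∀ v ∈ T, rs v.asIdeal p ∈ S v}.ncard : ℝ) ≤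
      ({x : Fin 2 → 𝓞 K | (∀ i, x i ∈ bx K ((![X ^ 2, X ^ 3] : Fin 2 → ℝ) i)) ∧
        ∀ v ∈ T, (fun i => Ideal.Quotient.mk v.asIdeal (x i)) ∈
          (fun v : HeightOneSpectrum (𝓞 K) => {y : Fin 2 → 𝓞 K ⧸ v.asIdeal | (y 0, y 1) ∈ S v}) v}.ncard : ℝ) := by
    refine Nat.cast_le.2 (Set.ncard_le_ncard_of_injOn (fun p : 𝓞 K × 𝓞 K => (![p.1, p.2] : Fin 2 → 𝓞 K))
      ?_ ?_ ?_)
    · rintro p ⟨hp1, hp2⟩
      refine ⟨fun i => ?_, fun v hv => ?_⟩
      · fin_cases i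
        · exact hp1.1
        · exact hp1.2
      · exact hp2 v hv
    · intro p _ p' _ h
      exact Prod.ext (congrFun h 0) (congrFun h 1)
    · exact (Set.Finite.pi' fun i => H76PP.bx_finite K ((![X ^ 2, X ^ 3] : Fin 2 → ℝ) i)).subset fun x hx => hx.1
  have hb : ∀ a : ℕ, 1 ≤ a → C * ((X ^ a) ^ n / Q + 1) ≤ 2 * C * ((X ^ a) ^ n / Q) := by
    intro a ha
    have h1 : X ≤ (X ^ a) ^ n := by
      rw [← pow_mul]
      exact le_self_pow₀ hX1 (by positivity)
    have h2 : 1 ≤ (X ^ a) ^ n / Q := by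
      rw [le_div_iff₀ hQ0, one_mul]
      exact hX.trans h1
    nlinarith
  have hS2 : (∏ v ∈ T, (({y : Fin 2 → 𝓞 K ⧸ v.asIdeal | (y 0, y 1) ∈ S v}.ncard : ℕ) : ℝ)) ≤
      ∏ v ∈ T, ((S v).ncard : ℝ) := Finset.prod_le_prod (fun v _ => Nat.cast_nonneg _) hS
  have hP : 0 ≤ ∏ v ∈ T, ((S v).ncard : ℝ) := Finset.prod_nonneg fun v _ => Nat.cast_nonneg _
  have h2 : (C * ((X ^ 2) ^ n / Q + 1)) * (C * ((X ^ 3) ^ n / Q + 1)) ≤
      (2 * C * ((X ^ 2) ^ n / Q)) * (2 * C * ((X ^ 3) ^ n / Q)) := by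
    apply mul_le_mul (hb 2 (by norm_num)) (hb 3 (by norm_num)) <;> positivity
  have h3 : (∏ v ∈ T, ((S v).ncard : ℝ) / (Nv v : ℝ) ^ 2) = (∏ v ∈ T, ((S v).ncard : ℝ)) / Q ^ 2 := by
    rw [Finset.prod_div_distrib, Finset.prod_pow, hQ]
  rw [h3, ← hn]
  calc _ ≤ _ := hle
    _ ≤ _ := hkey
    _ ≤ (∏ v ∈ T, ((S v).ncard : ℝ)) * ((2 * C * ((X ^ 2) ^ n / Q)) * (2 * C * ((X ^ 3) ^ n / Q))) :=
        mul_le_mul hS2 h2 (by
          show 0 ≤ (C * ((X ^ 2) ^ n / Q + 1)) * (C * ((X ^ 3) ^ n / Q + 1))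
          positivity) hP
    _ = _ := by
        have h4 : (X ^ 2) ^ n * (X ^ 3) ^ n = X ^ (5 * n) := by
          rw [← pow_mul, ← pow_mul, ← pow_add]
          congr 1
          ring
        rw [← h4]
        field_simp
        ring

end H36MT

end S_H36_MT_Cu
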