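import Mathlib

/-! This file joins several modules to save build time (N1). -/

set_option autoImplicit false

section S_H73_P2_Ex

set_option autoImplicit false
set_option linter.unusedSectionVars false

namespace H73P2

theorem exists_ext {K N F k : Type} [Field K] [Field N] [Field F] [Field k] [Algebra K N]
    [FiniteDimensional K N] [IsGalois K N] [Algebra K F] [Algebra K k] [Algebra k N]
    [IsScalarTower K k N] (ι : N →ₐ[K] F) (j : k →ₐ[K] F) :
    ∃ J : N →ₐ[K] F, ∀ x : k, J (algebraMap k N x) = j x := by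
  classical
  obtain ⟨p, hp, hsf⟩ := IsGalois.is_separable_splitting_field K N
  let : Algebra k F := j.toRingHom.toAlgebra
  have hmap : ∀ x : k, algebraMap k F x = j x := fun x => rfl
  have : IsScalarTower K k F := IsScalarTower.of_algebraMap_eq fun x => by
    rw [hmap, j.commutes]
  have hspl : (p.map (algebraMap K F)).Splits := by
    have h1 := (Polynomial.IsSplittingField.splits N p).map ι.toRingHom
    rw [Polynomial.map_map] at h1
    have h2 : ι.toRingHom.comp (algebraMap K N) = algebraMap K F := ι.comp_algebraMap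
    rwa [h2] at h1
  have hspl' : ((p.map (algebraMap K k)).map (algebraMap k F)).Splits := by
    rw [Polynomial.map_map, ← IsScalarTower.algebraMap_eq]
    exact hspl
  have : Polynomial.IsSplittingField k N (p.map (algebraMap K k)) :=
    Polynomial.IsSplittingField.map (F := K) (K := k) (L := N) p
  refine ⟨(Polynomial.IsSplittingField.lift N (p.map (algebraMap K k)) hspl').restrictScalars K,
    fun x => ?_⟩
  rw [AlgHom.restrictScalars_apply, AlgHom.commutes, hmap]

end H73P2

end S_H73_P2_Ex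

section S_H73_P2_Hf

set_option autoImplicit false
set_option linter.unusedSectionVars false

namespace H73P2

open IntermediateField in
theorem exists_half {K N k' : Type} [Field K] [Field N] [Field k'] [Algebra K N]
    [FiniteDimensional K N] [IsGalois K N] [Algebra K k'] [Algebra k' N] [IsScalarTower K k' N]
    {r : ℕ} (hr : Module.finrank K N = 2 ^ r) (h1 : Module.finrank K k' ≠ 1) :
    ∃ k : IntermediateField K k', Module.finrank k k' = 2 := by
  haveI : Fact (Nat.Prime 2) := ⟨Nat.prime_two⟩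
  haveI : FiniteDimensional K k' := FiniteDimensional.left K k' N
  set f : k' →ₐ[K] N := IsScalarTower.toAlgHom K k' N with hf
  set k₁ : IntermediateField K N := f.fieldRange with hk₁
  have hfin : Module.finrank K k' = Module.finrank K k₁ :=
    (AlgHom.equivFieldRange f).toLinearEquiv.finrank_eq
  have hmul : Module.finrank K k₁ * Module.finrank k₁ N = 2 ^ r := by
    rw [Module.finrank_mul_finrank, hr]
  have hcard : Nat.card (N ≃ₐ[K] N) = 2 ^ r := by
    rw [← hr]
    exact IsGalois.card_aut_eq_finrank K N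
  have hH : Nat.card k₁.fixingSubgroup = Module.finrank k₁ N :=
    IsGalois.card_fixingSubgroup_eq_finrank k₁
  obtain ⟨s, hsr, hs⟩ := (Nat.dvd_prime_pow Nat.prime_two).1 (Dvd.intro_left _ hmul)
  have hlt : s < r := by
    rcases hsr.lt_or_eq with h | h
    · exact h
    · exfalso
      rw [hs, h] at hmul
      have h2 : Module.finrank K k₁ = 1 :=
        Nat.eq_of_mul_eq_mul_right (pow_pos two_pos r) (by rw [hmul, one_mul])
      exact h1 (hfin.trans h2)
  obtain ⟨H', hH', hle⟩ := Sylow.exists_subgroup_card_pow_succ (p := 2) (n := s)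
    (by rw [hcard]; exact pow_dvd_pow 2 hlt) (hH.trans hs)
  set F : IntermediateField K N := fixedField H' with hF
  have hFk : F ≤ k₁ := by
    have h2 : F ≤ fixedField k₁.fixingSubgroup := by
      intro x hx
      rw [mem_fixedField_iff]
      intro g hg
      exact (mem_fixedField_iff H' x).1 hx g (hle hg)
    rwa [IsGalois.fixedField_fixingSubgroup] at h2
  have hFN : Module.finrank F N = 2 ^ (s + 1) := by
    rw [hF, finrank_fixedField_eq_card, hH']
  have hmulF : Module.finrank K F * Module.finrank F N = 2 ^ r := by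
    rw [Module.finrank_mul_finrank, hr]
  refine ⟨F.comap f, ?_⟩
  have hmap : (F.comap f).map f = F := by
    ext x
    constructor
    · rintro ⟨y, hy, rfl⟩
      exact hy
    · intro hx
      obtain ⟨y, hy⟩ := (hFk hx : x ∈ f.fieldRange)
      refine ⟨y, ?_, hy⟩
      change f y ∈ F
      have hy' : f y = x := hy
      rw [hy']
      exact hx
  have h3 : Module.finrank K (F.comap f) = Module.finrank K F := by
    have h4 := ((F.comap f).equivMap f).toLinearEquiv.finrank_eq
    rw [hmap] at h4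
    exact h4
  have h5 : Module.finrank K (F.comap f) * Module.finrank (F.comap f) k' = Module.finrank K k' :=
    Module.finrank_mul_finrank _ _ _
  rw [h3, hfin] at h5
  have h6 : Module.finrank K k₁ * 2 ^ s = (Module.finrank K F * 2) * 2 ^ s := by
    rw [← hs, hmul, hs, ← hmulF, hFN, pow_succ]
    ring
  have h7 : Module.finrank K k₁ = Module.finrank K F * 2 :=
    Nat.eq_of_mul_eq_mul_right (pow_pos two_pos s) h6
  have h8 : 0 < Module.finrank K F := Module.finrank_pos
  exact Nat.eq_of_mul_eq_mul_left h8 (h5.trans h7)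

open Polynomial in
theorem noroot {K N k : Type} [Field K] [Field N] [Field k] [Algebra K N] [FiniteDimensional K N]
    [Algebra K k] [Algebra k N] [IsScalarTower K k N] {r : ℕ} (hr : Module.finrank K N = 2 ^ r)
    {a b : K} (h : ∀ t : K, t ^ 3 + a * t + b ≠ 0) (t : k) :
    t ^ 3 + algebraMap K k a * t + algebraMap K k b ≠ 0 := by
  intro ht
  haveI : FiniteDimensional K k := FiniteDimensional.left K k N
  set f : K[X] := X ^ 3 + (C a * X + C b) with hf
  have hlt : (C a * X + C b : K[X]).degree < ((3 : ℕ) : WithBot ℕ) :=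
    degree_linear_le.trans_lt (by norm_num)
  have hdeg : f.natDegree = 3 := by
    have h1 : f.degree = ((3 : ℕ) : WithBot ℕ) := by
      rw [hf, degree_add_eq_left_of_degree_lt, degree_X_pow]
      rw [degree_X_pow]
      exact hlt
    exact natDegree_eq_of_degree_eq_some h1
  have hmonic : f.Monic := monic_X_pow_add hlt
  have hirr : Irreducible f := by
    refine irreducible_of_degree_le_three_of_not_isRoot (by rw [hdeg]; decide) ?_
    intro x hx
    rw [IsRoot.def, hf] at hx
    simp only [eval_add, eval_pow, eval_X, eval_mul, eval_C] at hx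
    exact h x (by rw [← hx]; ring)
  have haev : aeval t f = 0 := by
    rw [hf]
    simp only [map_add, map_pow, aeval_X, map_mul, aeval_C]
    rw [← ht]
    ring
  have hmin : f = minpoly K t := minpoly.eq_of_irreducible_of_monic hirr haev hmonic
  have hint : IsIntegral K t := Algebra.IsIntegral.isIntegral t
  have h3 : 3 ∣ Module.finrank K k := by
    have := minpoly.degree_dvd hint
    rwa [← hmin, hdeg] at this
  have h4 : Module.finrank K k ∣ 2 ^ r := by
    rw [← hr]
    exact Dvd.intro _ (Module.finrank_mul_finrank K k N)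
  have h5 := Nat.prime_three.dvd_of_dvd_pow (h3.trans h4)
  norm_num at h5

end H73P2

end S_H73_P2_Hf

section S_H73_P2_Wb

set_option autoImplicit false
set_option linter.unusedSectionVars false

open WithZero NumberField IsDedekindDomain

namespace H73P2

/-- A transitive action of a finite group on a set with three elements has an element without
fixed points. -/
private theorem Wb_burnside {G X : Type} [Group G] [Finite G] [MulAction G X] [Finite X]
    (ht : MulAction.IsPretransitive G X) (hc : Nat.card X = 3) :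
    ∃ g : G, ∀ x : X, g • x ≠ x := by
  classical
  by_contra hcon
  push Not at hcon
  haveI := Fintype.ofFinite G
  haveI := Fintype.ofFinite X
  haveI : ∀ g : G, Fintype (MulAction.fixedBy X g) := fun g => Fintype.ofFinite _
  haveI : Nonempty X := by
    rw [← Finite.card_pos_iff, hc]
    norm_num
  haveI : Unique (MulAction.orbitRel.Quotient G X) := by
    haveI : Subsingleton (MulAction.orbitRel.Quotient G X) :=
      (MulAction.pretransitive_iff_subsingleton_quotient G X).1 ht
    haveI : Nonempty (MulAction.orbitRel.Quotient G X) :=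
      ⟨Quotient.mk (MulAction.orbitRel G X) (Classical.arbitrary X)⟩
    exact Classical.choice (nonempty_unique _)
  haveI : Fintype (Quotient (MulAction.orbitRel G X)) := Fintype.ofFinite _
  have h1 := MulAction.sum_card_fixedBy_eq_card_orbits_mul_card_group G X
  have h2 : Fintype.card (Quotient (MulAction.orbitRel G X)) = 1 := by
    rw [Fintype.card_eq_one_iff_nonempty_unique]
    exact ⟨inferInstanceAs (Unique (MulAction.orbitRel.Quotient G X))⟩
  rw [h2, one_mul] at h1
  have h3 : ∀ g : G, 1 ≤ Fintype.card (MulAction.fixedBy X g) := by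
    intro g
    obtain ⟨x, hx⟩ := hcon g
    exact Fintype.card_pos_iff.2 ⟨⟨x, hx⟩⟩
  have h4 : 3 ≤ Fintype.card (MulAction.fixedBy X (1 : G)) := by
    rw [← hc, Nat.card_eq_fintype_card]
    refine Fintype.card_le_of_injective (fun x => ⟨x, by simp⟩) ?_
    intro x y h
    exact congrArg Subtype.val h
  have h5 : ∑ g : G, 1 < ∑ g : G, Fintype.card (MulAction.fixedBy X g) := by
    refine Finset.sum_lt_sum (fun g _ => h3 g) ⟨1, Finset.mem_univ _, ?_⟩
    omega
  rw [h1, Finset.sum_const, Finset.card_univ, smul_eq_mul, mul_one] at h5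
  exact lt_irrefl _ h5

theorem exists_fixfree {K L : Type} [Field K] [CharZero K] [Field L] [Algebra K L]
    [FiniteDimensional K L] [IsGalois K L] {a b : K} (hirr : ∀ t : K, t ^ 3 + a * t + b ≠ 0)
    (hroot : ∃ θ : L, θ ^ 3 + algebraMap K L a * θ + algebraMap K L b = 0) :
    ∃ σ : L ≃ₐ[K] L, ∀ θ : L, θ ^ 3 + algebraMap K L a * θ + algebraMap K L b = 0 → σ θ ≠ θ := by
  classical
  obtain ⟨θ, hθ⟩ := hroot
  obtain ⟨p, hp⟩ : ∃ p : Polynomial K, p = Polynomial.X ^ 3 + Polynomial.C a * Polynomial.X +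
    Polynomial.C b := ⟨_, rfl⟩
  have hdeg : p.natDegree = 3 := by
    rw [hp]
    compute_degree!
  have hmon : p.Monic := by
    rw [hp]
    monicity!
  have hp0 : p ≠ 0 := hmon.ne_zero
  have hpirr : Irreducible p := by
    refine Polynomial.irreducible_of_degree_le_three_of_not_isRoot ?_ ?_
    · rw [hdeg]
      decide
    · intro t ht
      apply hirr t
      rw [hp] at ht
      simpa [Polynomial.IsRoot] using ht
  have haev : ∀ x : L, Polynomial.aeval x p = x ^ 3 + algebraMap K L a * x + algebraMap K L b := by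
    intro x
    rw [hp]
    simp
  have hmin : p = minpoly K θ :=
    minpoly.eq_of_irreducible_of_monic hpirr (by rw [haev]; exact hθ) hmon
  have hspl : (p.map (algebraMap K L)).Splits := by
    rw [hmin]
    exact Normal.splits inferInstance θ
  haveI : Fact ((p.map (algebraMap K L)).Splits) := ⟨hspl⟩
  have hsep : p.Separable := hpirr.separable
  have hcard : Nat.card (p.rootSet L) = 3 := by
    rw [Nat.card_eq_fintype_card, Polynomial.card_rootSet_eq_natDegree hsep hspl, hdeg]
  obtain ⟨g, hg⟩ := Wb_burnside (G := p.Gal) (X := p.rootSet L)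
    (Polynomial.Gal.galAction_isPretransitive p L hpirr) hcard
  obtain ⟨σ, hσ⟩ := Polynomial.Gal.restrict_surjective p L g
  refine ⟨σ, fun t ht hst => ?_⟩
  have hmem : t ∈ p.rootSet L := by
    rw [Polynomial.mem_rootSet]
    exact ⟨hp0, by rw [haev]; exact ht⟩
  apply hg ⟨t, hmem⟩
  apply Subtype.ext
  rw [← hσ, Polynomial.Gal.restrict_smul]
  exact hst

end H73P2

end S_H73_P2_Wb

section S_H73_P2_We

set_option autoImplicit false
set_option linter.unusedSectionVars false

open WithZero NumberField IsDedekindDomain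

namespace H73P2

/-- The extension generated by the square roots of the elements of `I`. -/
noncomputable def mq (K : Type) [Field K] (I : Set K) : IntermediateField K (AlgebraicClosure K) :=
  IntermediateField.adjoin K {x | ∃ D ∈ I, x ^ 2 = algebraMap K (AlgebraicClosure K) D}

theorem We_split {K : Type} [Field K] {I : Set K} (hI : I.Finite) :
    (∏ D ∈ hI.toFinset, (Polynomial.X ^ 2 - Polynomial.C D)).IsSplittingField K (mq K I) := by
  have hne : ∀ D : K, (Polynomial.X ^ 2 - Polynomial.C D : Polynomial K) ≠ 0 := fun D =>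
    Polynomial.X_pow_sub_C_ne_zero (by norm_num) D
  have hp0 : (∏ D ∈ hI.toFinset, (Polynomial.X ^ 2 - Polynomial.C D : Polynomial K)) ≠ 0 :=
    Finset.prod_ne_zero_iff.2 fun D _ => hne D
  have h1 : mq K I = IntermediateField.adjoin K
      ((∏ D ∈ hI.toFinset, (Polynomial.X ^ 2 - Polynomial.C D : Polynomial K)).rootSet
        (AlgebraicClosure K)) := by
    unfold mq
    congr 1
    ext x
    rw [Polynomial.mem_rootSet, map_prod, Finset.prod_eq_zero_iff]
    constructor
    · rintro ⟨D, hD, hx⟩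
      refine ⟨hp0, D, hI.mem_toFinset.2 hD, ?_⟩
      rw [map_sub, map_pow, Polynomial.aeval_X, Polynomial.aeval_C, hx, sub_self]
    · rintro ⟨-, D, hD, hx⟩
      refine ⟨D, hI.mem_toFinset.1 hD, ?_⟩
      rw [map_sub, map_pow, Polynomial.aeval_X, Polynomial.aeval_C, sub_eq_zero] at hx
      exact hx
  rw [h1]
  exact IntermediateField.adjoin_rootSet_isSplittingField (IsAlgClosed.splits _)

theorem mq_galois {K : Type} [Field K] [CharZero K] {I : Set K} (hI : I.Finite) :
    FiniteDimensional K (mq K I) ∧ IsGalois K (mq K I) := by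
  have h1 := We_split hI
  have h2 : FiniteDimensional K (mq K I) := Polynomial.IsSplittingField.finiteDimensional (mq K I)
    (∏ D ∈ hI.toFinset, (Polynomial.X ^ 2 - Polynomial.C D))
  have h3 : Normal K (mq K I) := Normal.of_isSplittingField
    (∏ D ∈ hI.toFinset, (Polynomial.X ^ 2 - Polynomial.C D))
  exact ⟨h2, { }⟩

theorem We_sq {K : Type} [Field K] {I : Set K} (σ : mq K I ≃ₐ[K] mq K I) (y : mq K I) {D : K}
    (hy : y ^ 2 = algebraMap K (mq K I) D) : σ (σ y) = y := by
  have h1 : (σ y) ^ 2 = y ^ 2 := by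
    rw [← map_pow, hy, AlgEquiv.commutes]
  rcases sq_eq_sq_iff_eq_or_eq_neg.1 h1 with h | h
  · rw [h, h]
  · rw [h, map_neg, h, neg_neg]

theorem We_two {K : Type} [Field K] {I : Set K} (σ : mq K I ≃ₐ[K] mq K I) (y : mq K I) :
    σ (σ y) = y := by
  have h : ((σ : mq K I →ₐ[K] mq K I).comp (σ : mq K I →ₐ[K] mq K I)) = AlgHom.id K (mq K I) := by
    refine IntermediateField.algHom_ext_of_eq_adjoin K
      (s := {x | ∃ D ∈ I, x ^ 2 = algebraMap K (AlgebraicClosure K) D}) rfl ?_
    rintro x ⟨D, hD, hx⟩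
    exact We_sq σ ⟨x, _⟩ (D := D) (Subtype.ext hx)
  exact DFunLike.congr_fun h y

theorem mq_deg {K : Type} [Field K] [CharZero K] {I : Set K} (hI : I.Finite) :
    ∃ r : ℕ, Module.finrank K (mq K I) = 2 ^ r := by
  obtain ⟨h1, h2⟩ := mq_galois hI
  rw [← IsGalois.card_aut_eq_finrank K (mq K I)]
  have : Finite (mq K I ≃ₐ[K] mq K I) := inferInstance
  have : Fact (Nat.Prime 2) := ⟨Nat.prime_two⟩
  apply IsPGroup.iff_card.1
  intro σ
  refine ⟨1, ?_⟩
  apply AlgEquiv.ext
  intro y
  rw [pow_one, sq]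
  exact We_two σ y

theorem mq_embed {K : Type} [Field K] {I : Set K} {F : Type} [Field F] (i : K →+* F)
    (h : ∀ D ∈ I, ∃ r : F, i D = r ^ 2) :
    ∃ ι : mq K I →+* F, ∀ x : K, ι (algebraMap K (mq K I) x) = i x := by
  let _ : Algebra K F := i.toAlgebra
  have h1 : Nonempty (mq K I →ₐ[K] F) := by
    apply IntermediateField.nonempty_algHom_adjoin_of_splits
    rintro x ⟨D, hD, hx⟩
    refine ⟨(AlgebraicClosure.isAlgebraic K).isIntegral.1 x, ?_⟩
    obtain ⟨r, hr⟩ := h D hD
    have h2 : minpoly K x ∣ Polynomial.X ^ 2 - Polynomial.C D := by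
      apply minpoly.dvd
      rw [map_sub, map_pow, Polynomial.aeval_X, Polynomial.aeval_C, hx, sub_self]
    have h3 : (Polynomial.X ^ 2 - Polynomial.C D : Polynomial K).map (algebraMap K F) =
        (Polynomial.X - Polynomial.C r) * (Polynomial.X - Polynomial.C (-r)) := by
      rw [Polynomial.map_sub, Polynomial.map_pow, Polynomial.map_X, Polynomial.map_C]
      have h4 : algebraMap K F D = r ^ 2 := hr
      rw [h4, Polynomial.C_neg, Polynomial.C_pow]
      ring
    have h5 : ((Polynomial.X ^ 2 - Polynomial.C D : Polynomial K).map (algebraMap K F)).Splits := by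
      rw [h3]
      exact (Polynomial.Splits.X_sub_C r).mul (Polynomial.Splits.X_sub_C (-r))
    refine h5.of_dvd ?_ (Polynomial.map_dvd _ h2)
    rw [h3]
    exact mul_ne_zero (Polynomial.X_sub_C_ne_zero r) (Polynomial.X_sub_C_ne_zero (-r))
  obtain ⟨φ⟩ := h1
  exact ⟨φ.toRingHom, fun x => φ.commutes x⟩

end H73P2

end S_H73_P2_We

section S_H73_P2_Wi

set_option autoImplicit false
set_option linter.unusedSectionVars false

open WithZero NumberField IsDedekindDomain

namespace H73P2

private theorem Wi_one {K : Type} [Field K] [NumberField K] {z : 𝓞 K} (hz : z ≠ 0) {l : ℕ}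
    (hl : l.Prime) (hb : Ideal.absNorm (Ideal.span {z}) < l) :
    ∃ v : HeightOneSpectrum (𝓞 K), (l : 𝓞 K) ∈ v.asIdeal ∧ z ∉ v.asIdeal := by
  have hl0 : (l : 𝓞 K) ≠ 0 := Nat.cast_ne_zero.2 hl.ne_zero
  have hnu : ¬ IsUnit (l : 𝓞 K) := by
    intro h
    have h1 : IsUnit (Algebra.norm ℤ (l : 𝓞 K)) := h.map (Algebra.norm ℤ)
    have h2 : Algebra.norm ℤ (l : 𝓞 K) = (l : ℤ) ^ Module.finrank ℤ (𝓞 K) := by
      have h3 := Algebra.norm_algebraMap (S := 𝓞 K) (l : ℤ)
      rw [map_natCast] at h3
      exact h3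
    rw [h2] at h1
    have h4 : Module.finrank ℤ (𝓞 K) ≠ 0 := by
      rw [RingOfIntegers.rank]
      exact Module.finrank_pos.ne'
    have h5 : IsUnit (l : ℤ) := (isUnit_pow_iff h4).1 h1
    exact (Nat.prime_iff_prime_int.1 hl).not_isUnit h5
  obtain ⟨M, hM, hle⟩ := Ideal.exists_le_maximal (Ideal.span {(l : 𝓞 K)}) (by
    intro h
    exact hnu (Ideal.span_singleton_eq_top.1 h))
  have hlM : (l : 𝓞 K) ∈ M := hle (Ideal.mem_span_singleton_self _)
  refine ⟨⟨M, hM.isPrime, ?_⟩, hlM, ?_⟩
  · rintro rfl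
    exact hl0 (Ideal.mem_bot.1 hlM)
  · intro hzM
    have hzM' : z ∈ M := hzM
    have hn : (Ideal.absNorm (Ideal.span {z}) : 𝓞 K) ∈ M := by
      have h1 := Ideal.absNorm_mem (Ideal.span {z})
      exact (Ideal.span_singleton_le_iff_mem M).2 hzM' h1
    have hn0 : Ideal.absNorm (Ideal.span {z}) ≠ 0 := by
      intro h
      rw [Ideal.absNorm_eq_zero_iff, Ideal.span_singleton_eq_bot] at h
      exact hz h
    have hc : Nat.Coprime l (Ideal.absNorm (Ideal.span {z})) := by
      rw [Nat.Prime.coprime_iff_not_dvd hl]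
      intro hd
      exact absurd (Nat.le_of_dvd (Nat.pos_of_ne_zero hn0) hd) (not_le.2 hb)
    have h1 := Nat.isCoprime_iff_coprime.2 hc
    obtain ⟨a, b, hab⟩ := h1
    have h2 : ((a * (l : ℤ) + b * ((Ideal.absNorm (Ideal.span {z}) : ℕ) : ℤ) : ℤ) : 𝓞 K) = 1 := by
      rw [hab, Int.cast_one]
    push_cast at h2
    apply hM.ne_top
    rw [Ideal.eq_top_iff_one, ← h2]
    exact M.add_mem (M.mul_mem_left _ hlM) (M.mul_mem_left _ hn)

theorem exists_two_good {K : Type} [Field K] [NumberField K] {A B : 𝓞 K}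
    (hd : 4 * A ^ 3 + 27 * B ^ 2 ≠ 0) :
    ∃ (l l' : ℕ) (v v' : HeightOneSpectrum (𝓞 K)), l.Prime ∧ l'.Prime ∧ l ≠ l' ∧
      (l : 𝓞 K) ∈ v.asIdeal ∧ (l' : 𝓞 K) ∈ v'.asIdeal ∧
      2 * (4 * A ^ 3 + 27 * B ^ 2) ∉ v.asIdeal ∧ 2 * (4 * A ^ 3 + 27 * B ^ 2) ∉ v'.asIdeal := by
  have hz : 2 * (4 * A ^ 3 + 27 * B ^ 2) ≠ 0 := mul_ne_zero two_ne_zero hd
  obtain ⟨l, hl1, hl⟩ := Nat.exists_infinite_primes
    (Ideal.absNorm (Ideal.span {2 * (4 * A ^ 3 + 27 * B ^ 2)}) + 1)
  obtain ⟨l', hl1', hl'⟩ := Nat.exists_infinite_primes (l + 1)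
  obtain ⟨v, h1, h2⟩ := Wi_one hz hl (by omega)
  obtain ⟨v', h1', h2'⟩ := Wi_one hz hl' (by omega)
  exact ⟨l, l', v, v', hl, hl', by omega, h1, h1', h2, h2'⟩

end H73P2

end S_H73_P2_Wi

section S_H36_MT_Av

set_option autoImplicit false

namespace H36MT

theorem average {α ι : Type} [DecidableEq ι] [DecidableEq α] (Z : Finset ι) (P : Finset α)
    (U : α → Finset ι) (bad : Finset ι → Finset α) (N k : ℕ) (M : ℝ)
    (hM : ∀ T ⊆ Z, T.card = k → ((bad T).card : ℝ) ≤ M)
    (hP : ∀ p ∈ P, U p ⊆ Z ∧ N ≤ (U p).card ∧ ∀ T ⊆ U p, T.card = k → p ∈ bad T) :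
    (N.choose k : ℝ) * (P.card : ℝ) ≤ (Z.card.choose k : ℝ) * M := by
  have h1 : N.choose k * P.card ≤ ∑ p ∈ P, ((Z.powersetCard k).filter (fun T => p ∈ bad T)).card := by
    calc N.choose k * P.card = ∑ _p ∈ P, N.choose k := by
          rw [Finset.sum_const, smul_eq_mul, mul_comm]
      _ ≤ ∑ p ∈ P, ((Z.powersetCard k).filter (fun T => p ∈ bad T)).card := by
          refine Finset.sum_le_sum fun p hp => ?_
          obtain ⟨hU, hN, hb⟩ := hP p hp
          calc N.choose k ≤ (U p).card.choose k := Nat.choose_le_choose k hN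
            _ = ((U p).powersetCard k).card := (Finset.card_powersetCard k (U p)).symm
            _ ≤ _ := by
                refine Finset.card_le_card fun T hT => ?_
                rw [Finset.mem_powersetCard] at hT
                rw [Finset.mem_filter, Finset.mem_powersetCard]
                exact ⟨⟨hT.1.trans hU, hT.2⟩, hb T hT.1 hT.2⟩
  have h2 : ∑ p ∈ P, ((Z.powersetCard k).filter (fun T => p ∈ bad T)).card =
      ∑ T ∈ Z.powersetCard k, (P.filter (fun p => p ∈ bad T)).card := by
    simp only [Finset.card_filter]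
    rw [Finset.sum_comm]
  have h3 : (∑ T ∈ Z.powersetCard k, ((P.filter (fun p => p ∈ bad T)).card : ℝ)) ≤
      ∑ _T ∈ Z.powersetCard k, M := by
    refine Finset.sum_le_sum fun T hT => ?_
    rw [Finset.mem_powersetCard] at hT
    refine le_trans ?_ (hM T hT.1 hT.2)
    have : (P.filter (fun p => p ∈ bad T)) ⊆ bad T := fun p hp => (Finset.mem_filter.1 hp).2
    exact_mod_cast Finset.card_le_card this
  rw [Finset.sum_const, nsmul_eq_mul, Finset.card_powersetCard] at h3
  refine le_trans ?_ h3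
  rw [h2] at h1
  exact_mod_cast h1

theorem params {C ε : ℝ} (hC : 0 < C) (hε : 0 < ε) : ∃ k N₁ : ℕ, ∀ N : ℕ, N₁ ≤ N →
    0 < N.choose k ∧
    C * (0.31 : ℝ) ^ k * ((3 * N).choose k : ℝ) ≤ ε * (N.choose k : ℝ) := by
  obtain ⟨k, hk⟩ := exists_pow_lt_of_lt_one (div_pos hε hC) (by norm_num : (0.961 : ℝ) < 1)
  rw [lt_div_iff₀ hC] at hk
  refine ⟨k, 31 * k + 1, fun N hN => ⟨Nat.choose_pos (by omega), ?_⟩⟩
  have hf : (0 : ℝ) < (k.factorial : ℝ) := by exact_mod_cast Nat.factorial_pos k
  have h1 : (k.factorial : ℝ) * ((3 * N).choose k : ℝ) ≤ (3 * (N : ℝ)) ^ k := by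
    have := Nat.descFactorial_le_pow (3 * N) k
    rw [Nat.descFactorial_eq_factorial_mul_choose] at this
    exact_mod_cast this
  have h2 : ((N : ℝ) + 1 - k) ^ k ≤ (k.factorial : ℝ) * (N.choose k : ℝ) := by
    have := Nat.pow_sub_le_descFactorial N k
    rw [Nat.descFactorial_eq_factorial_mul_choose] at this
    have h3 : ((N + 1 - k : ℕ) : ℝ) = (N : ℝ) + 1 - k := by
      rw [Nat.cast_sub (by omega)]
      push_cast
      ring
    rw [← h3]
    exact_mod_cast this
  have hNk : (31 : ℝ) * k + 1 ≤ N := by exact_mod_cast hN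
  have hk0 : (0 : ℝ) ≤ k := Nat.cast_nonneg k
  have h4 : (3 * (N : ℝ)) ^ k ≤ (3.1 * ((N : ℝ) + 1 - k)) ^ k := by
    apply pow_le_pow_left₀ (by positivity)
    norm_num
    linarith
  have h5 : (k.factorial : ℝ) * ((3 * N).choose k : ℝ) ≤
      3.1 ^ k * ((k.factorial : ℝ) * (N.choose k : ℝ)) := by
    have h4' : (3 * (N : ℝ)) ^ k ≤ 3.1 ^ k * ((N : ℝ) + 1 - k) ^ k := by
      rw [← mul_pow]
      exact h4
    exact h1.trans (h4'.trans (mul_le_mul_of_nonneg_left h2 (by positivity)))
  have h6 : ((3 * N).choose k : ℝ) ≤ 3.1 ^ k * (N.choose k : ℝ) := by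
    have h7 : (k.factorial : ℝ) * ((3 * N).choose k : ℝ) ≤
        (k.factorial : ℝ) * (3.1 ^ k * (N.choose k : ℝ)) := by
      calc _ ≤ _ := h5
        _ = _ := by ring
    exact le_of_mul_le_mul_left h7 hf
  calc C * (0.31 : ℝ) ^ k * ((3 * N).choose k : ℝ)
      ≤ C * (0.31 : ℝ) ^ k * (3.1 ^ k * (N.choose k : ℝ)) :=
        mul_le_mul_of_nonneg_left h6 (by positivity)
    _ = (C * (0.31 * 3.1 : ℝ) ^ k) * (N.choose k : ℝ) := by
        rw [mul_pow]
        ring
    _ ≤ ε * (N.choose k : ℝ) := by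
        refine mul_le_mul_of_nonneg_right ?_ (Nat.cast_nonneg _)
        have e : (0.31 * 3.1 : ℝ) = 0.961 := by norm_num
        rw [e]
        linarith

end H36MT

end S_H36_MT_Av

section S_H36_MT_Cf

set_option autoImplicit false

namespace H36MT

/-- the cubic of a pair -/
def Cf_rt {k : Type} [Field k] (p : k × k) (t : k) : Prop := t ^ 3 + p.1 * t + p.2 = 0

theorem Cf_det {k : Type} [Field k] {p p' : k × k} {t : k} (h : Cf_rt p t) (h' : Cf_rt p' t)
    (h1 : p.1 = p'.1) : p = p' := by
  refine Prod.ext h1 ?_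
  unfold Cf_rt at h h'
  rw [← h1] at h'
  linear_combination h - h'

theorem card_root (k : Type) [Field k] [Finite k] :
    6 * {p : k × k | ∃ t : k, t ^ 3 + p.1 * t + p.2 = 0}.ncard + Nat.card k * (Nat.card k - 1) ≤
      6 * Nat.card k ^ 2 := by
  classical
  have hft : Fintype k := Fintype.ofFinite k
  obtain ⟨R, hR⟩ : ∃ R : Finset (k × k), R = Finset.univ.filter (fun p => ∃ t : k, Cf_rt p t) := ⟨_, rfl⟩
  obtain ⟨R2, hR2⟩ : ∃ R2 : Finset (k × k), R2 = Finset.univ.filter
    (fun p => ∃ s t : k, s ≠ t ∧ Cf_rt p s ∧ Cf_rt p t) := ⟨_, rfl⟩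
  have hRc : {p : k × k | ∃ t : k, t ^ 3 + p.1 * t + p.2 = 0}.ncard = R.card := by
    rw [← Set.ncard_coe_finset R]
    congr 1
    ext p
    rw [hR]
    simp only [Set.mem_setOf_eq, Finset.coe_filter, Finset.mem_univ, true_and, Cf_rt]
  have hq : Nat.card k = Fintype.card k := Nat.card_eq_fintype_card
  -- step 1
  have h1 : R.card + R2.card ≤ Fintype.card k ^ 2 := by
    have hf : ∀ p : k × k, ∃ t : k, p ∈ R → Cf_rt p t := by
      intro p
      by_cases hp : p ∈ R
      · have h2 := hp
        rw [hR, Finset.mem_filter] at h2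
        obtain ⟨t, ht⟩ := h2.2
        exact ⟨t, fun _ => ht⟩
      · exact ⟨0, fun h => absurd h hp⟩
    choose f hf using hf
    have hg : ∀ p : k × k, ∃ t : k, p ∈ R2 → Cf_rt p t ∧ t ≠ f p := by
      intro p
      by_cases hp : p ∈ R2
      · have h2 := hp
        rw [hR2, Finset.mem_filter] at h2
        obtain ⟨s, t, hst, hs, ht⟩ := h2.2
        by_cases hsf : s = f p
        · exact ⟨t, fun _ => ⟨ht, fun h => hst (hsf.trans h.symm)⟩⟩
        · exact ⟨s, fun _ => ⟨hs, hsf⟩⟩
      · exact ⟨0, fun h => absurd h hp⟩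
    choose g hg using hg
    have hRR : R2 ⊆ R := by
      intro p hp
      rw [hR2, Finset.mem_filter] at hp
      rw [hR, Finset.mem_filter]
      obtain ⟨s, t, hst, hs, ht⟩ := hp.2
      exact ⟨Finset.mem_univ _, s, hs⟩
    have i1 : (R.image (fun p => (p.1, f p))).card = R.card := by
      refine Finset.card_image_of_injOn fun p hp p' hp' h => ?_
      have e1 := congrArg Prod.fst h
      have e2 := congrArg Prod.snd h
      simp only at e1 e2
      have h3 := hf p' hp'
      rw [← e2] at h3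
      exact Cf_det (hf p hp) h3 e1
    have i2 : (R2.image (fun p => (p.1, g p))).card = R2.card := by
      refine Finset.card_image_of_injOn fun p hp p' hp' h => ?_
      have e1 := congrArg Prod.fst h
      have e2 := congrArg Prod.snd h
      simp only at e1 e2
      have h3 := (hg p' hp').1
      rw [← e2] at h3
      exact Cf_det (hg p hp).1 h3 e1
    have hd : Disjoint (R.image (fun p => (p.1, f p))) (R2.image (fun p => (p.1, g p))) := by
      rw [Finset.disjoint_left]
      intro x hx hx'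
      rw [Finset.mem_image] at hx hx'
      obtain ⟨p, hp, rfl⟩ := hx
      obtain ⟨p', hp', h⟩ := hx'
      have e1 := congrArg Prod.fst h
      have e2 := congrArg Prod.snd h
      simp only at e1 e2
      have h3 := (hg p' hp').1
      rw [e2] at h3
      have h4 : p = p' := Cf_det (hf p hp) h3 e1.symm
      subst h4
      exact (hg p hp').2 e2
    rw [← i1, ← i2, ← Finset.card_union_of_disjoint hd]
    refine (Finset.card_le_univ _).trans ?_
    rw [Fintype.card_prod, pow_two]
  -- step 2
  have h2 : Fintype.card k * (Fintype.card k - 1) ≤ 6 * R2.card := by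
    have hmaps : ∀ x ∈ (Finset.univ : Finset k).offDiag,
        (-(x.1 ^ 2 + x.1 * x.2 + x.2 ^ 2), x.1 * x.2 * (x.1 + x.2)) ∈ R2 := by
      intro x hx
      rw [Finset.mem_offDiag] at hx
      rw [hR2, Finset.mem_filter]
      refine ⟨Finset.mem_univ _, x.1, x.2, hx.2.2, ?_, ?_⟩
      · unfold Cf_rt
        simp only
        ring
      · unfold Cf_rt
        simp only
        ring
    have h3 := Finset.card_le_mul_card_image_of_maps_to (f := fun x : k × k =>
      (-(x.1 ^ 2 + x.1 * x.2 + x.2 ^ 2), x.1 * x.2 * (x.1 + x.2))) hmaps 6 (fun b _ => ?_)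
    · rw [Finset.offDiag_card, Finset.card_univ] at h3
      rw [Nat.mul_sub_one]
      exact h3
    · rcases (Finset.filter (fun x : k × k => (-(x.1 ^ 2 + x.1 * x.2 + x.2 ^ 2), x.1 * x.2 * (x.1 + x.2)) = b)
        (Finset.univ : Finset k).offDiag).eq_empty_or_nonempty with he | ⟨y, hy⟩
      · rw [he]
        simp
      · rw [Finset.mem_filter] at hy
        have hsub : Finset.filter (fun x : k × k => (-(x.1 ^ 2 + x.1 * x.2 + x.2 ^ 2), x.1 * x.2 * (x.1 + x.2)) = b)
            (Finset.univ : Finset k).offDiag ⊆ ({y.1, y.2, -y.1 - y.2} : Finset k).offDiag := by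
          intro x hx
          rw [Finset.mem_filter, Finset.mem_offDiag] at hx
          have e := hx.2.trans hy.2.symm
          have e1 := congrArg Prod.fst e
          have e2 := congrArg Prod.snd e
          simp only at e1 e2
          have hz : ∀ z : k, (z - x.1) * (z - x.2) * (z + x.1 + x.2) = 0 → z ∈ ({y.1, y.2, -y.1 - y.2} : Finset k) := by
            intro z hz
            have h5 : (z - y.1) * (z - y.2) * (z + y.1 + y.2) = 0 := by
              linear_combination hz - z * e1 - e2
            rw [Finset.mem_insert, Finset.mem_insert, Finset.mem_singleton]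
            rcases mul_eq_zero.1 h5 with h6 | h6
            · rcases mul_eq_zero.1 h6 with h7 | h7
              · left
                linear_combination h7
              · right; left
                linear_combination h7
            · right; right
              linear_combination h6
          rw [Finset.mem_offDiag]
          refine ⟨hz _ (by ring), hz _ (by ring), hx.1.2.2⟩
        refine (Finset.card_le_card hsub).trans ?_
        rw [Finset.offDiag_card]
        have h8 : ({y.1, y.2, -y.1 - y.2} : Finset k).card ≤ 3 := Finset.card_le_three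
        have h9 : ∀ n : ℕ, n ≤ 3 → n * n - n ≤ 6 := by
          intro n hn
          interval_cases n <;> norm_num
        exact h9 _ h8
  rw [hRc, hq]
  omega

end H36MT

end S_H36_MT_Cf

section S_H36_MT_Ct

set_option autoImplicit false

namespace H36MT

theorem chernoff {ε : ℝ} (hε : 0 < ε) : ∃ N₁ : ℕ, ∀ (ι : Type) [DecidableEq ι] (Z : Finset ι)
    (a b : ι → ℝ) (N : ℕ), N₁ ≤ N → Z.card = 3 * N → (∀ i ∈ Z, 2 / 5 ≤ a i) →
    (∀ i ∈ Z, 0 ≤ b i) → (∀ i ∈ Z, a i + b i ≤ 1) →
    ∑ U ∈ Z.powerset.filter (fun U => U.card < N), (∏ i ∈ U, a i) * ∏ i ∈ Z \ U, b i ≤ ε := by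
  obtain ⟨N₁, hN₁⟩ := exists_pow_lt_of_lt_one hε (show (6591 / 6750 : ℝ) < 1 by norm_num)
  refine ⟨N₁, fun ι _ Z a b N hN hZ ha hb hab => ?_⟩
  have hterm : ∀ U ∈ Z.powerset, 0 ≤ (∏ i ∈ U, a i) * ∏ i ∈ Z \ U, b i := by
    intro U hU
    rw [Finset.mem_powerset] at hU
    refine mul_nonneg (Finset.prod_nonneg fun i hi => ?_) (Finset.prod_nonneg fun i hi => ?_)
    · linarith [ha i (hU hi)]
    · exact hb i (Finset.mem_sdiff.1 hi).1
  calc ∑ U ∈ Z.powerset.filter (fun U => U.card < N), (∏ i ∈ U, a i) * ∏ i ∈ Z \ U, b i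
      ≤ ∑ U ∈ Z.powerset.filter (fun U => U.card < N),
          (3 / 2 : ℝ) ^ N * ((∏ i ∈ U, (2 / 3 * a i)) * ∏ i ∈ Z \ U, b i) := by
        refine Finset.sum_le_sum fun U hU => ?_
        rw [Finset.mem_filter] at hU
        have h1 : (1 : ℝ) ≤ (3 / 2 : ℝ) ^ N * (2 / 3 : ℝ) ^ U.card := by
          have h2 : (2 / 3 : ℝ) ^ N ≤ (2 / 3 : ℝ) ^ U.card :=
            pow_le_pow_of_le_one (by norm_num) (by norm_num) hU.2.le
          have h3 : (3 / 2 : ℝ) ^ N * (2 / 3 : ℝ) ^ N = 1 := by
            rw [← mul_pow]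
            norm_num
          rw [← h3]
          exact mul_le_mul_of_nonneg_left h2 (by positivity)
        rw [Finset.prod_mul_distrib, Finset.prod_const]
        calc (∏ i ∈ U, a i) * ∏ i ∈ Z \ U, b i = 1 * ((∏ i ∈ U, a i) * ∏ i ∈ Z \ U, b i) := (one_mul _).symm
          _ ≤ ((3 / 2 : ℝ) ^ N * (2 / 3 : ℝ) ^ U.card) * ((∏ i ∈ U, a i) * ∏ i ∈ Z \ U, b i) :=
              mul_le_mul_of_nonneg_right h1 (hterm U hU.1)
          _ = (3 / 2 : ℝ) ^ N * ((2 / 3 : ℝ) ^ U.card * (∏ i ∈ U, a i) * ∏ i ∈ Z \ U, b i) := by ring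
    _ ≤ ∑ U ∈ Z.powerset, (3 / 2 : ℝ) ^ N * ((∏ i ∈ U, (2 / 3 * a i)) * ∏ i ∈ Z \ U, b i) := by
        refine Finset.sum_le_sum_of_subset_of_nonneg (Finset.filter_subset _ _) fun U hU _ => ?_
        rw [Finset.prod_mul_distrib, Finset.prod_const, mul_assoc]
        exact mul_nonneg (by positivity) (mul_nonneg (by positivity) (hterm U hU))
    _ = (3 / 2 : ℝ) ^ N * ∏ i ∈ Z, (2 / 3 * a i + b i) := by
        rw [Finset.prod_add, Finset.mul_sum]
    _ ≤ (3 / 2 : ℝ) ^ N * (13 / 15 : ℝ) ^ (3 * N) := by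
        refine mul_le_mul_of_nonneg_left ?_ (by positivity)
        rw [← hZ, ← Finset.prod_const]
        refine Finset.prod_le_prod (fun i hi => ?_) fun i hi => ?_
        · linarith [ha i hi, hb i hi]
        · linarith [ha i hi, hab i hi]
    _ = (6591 / 6750 : ℝ) ^ N := by
        rw [pow_mul, ← mul_pow]
        norm_num
    _ ≤ (6591 / 6750 : ℝ) ^ N₁ := pow_le_pow_of_le_one (by norm_num) (by norm_num) hN
    _ ≤ ε := hN₁.le

end H36MT

end S_H36_MT_Ct
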