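import Mathlib
import Pool.Agent.H76.PN.A1
import Pool.Agent.H76.PN.C1
import Pool.Agent.H76.PN.C2
import Pool.Agent.H76.PN.N1
import Pool.Agent.H76.PN.N2

/-! This file joins several modules to save build time (N5). -/

set_option autoImplicit false

section S_H36_MT_Ax

set_option autoImplicit false
set_option linter.unusedSectionVars false
open scoped Classical

open WithZero NumberField IsDedekindDomain
open H76PP H36PP

namespace H36MT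

variable (K : Type) [Field K] [NumberField K]

theorem quot_cong {K : Type} [Field K] [NumberField K] {m : Ideal (𝓞 K)}
    {q : HeightOneSpectrum (𝓞 K)} (hq : ¬ m ≤ q.asIdeal) {I : Ideal (𝓞 K)} (hI : I ≠ ⊥)
    {a b : 𝓞 K} (hb : q.asIdeal * I = Ideal.span {b}) (hab : a - b ∈ m * I)
    {v : HeightOneSpectrum (𝓞 K)} {k : ℕ} (hk : 0 < k) (hv : m ≤ v.asIdeal ^ k) :
    v.valuation K ((a : K) / (b : K) - 1) ≤ exp (-(k : ℤ)) := by
  have hb0 : b ≠ 0 := Pr_ne_zero hI hb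
  have hbK : (b : K) ≠ 0 := by simpa using hb0
  have hvb : v.valuation K (b : K) ≠ 0 := (Valuation.ne_zero_iff _).2 hbK
  have hvq : v ≠ q := by
    rintro rfl
    exact hq (hv.trans (Ideal.pow_le_self hk.ne'))
  obtain ⟨z, hz, hzv⟩ := Pr_exists_notMem hvq
  have h3 : z * (a - b) ∈ m * Ideal.span {b} := by
    have h4 : z * (a - b) ∈ q.asIdeal * (m * I) := Ideal.mul_mem_mul hz hab
    have h5 : q.asIdeal * (m * I) = m * Ideal.span {b} := by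
      rw [← hb]
      ring
    rwa [h5] at h4
  rw [Ideal.mem_mul_span_singleton] at h3
  obtain ⟨x, hx, hxe⟩ := h3
  have hvx : v.valuation K (x : K) ≤ exp (-(k : ℤ)) := by
    have h2 : v.valuation K (x : K) = v.intValuation x := v.valuation_of_algebraMap x
    rw [h2]
    exact (v.intValuation_le_pow_iff_mem x k).2 (hv hx)
  have h4 : v.valuation K ((a : K) - (b : K)) = v.valuation K (x : K) * v.valuation K (b : K) := by
    have h1 : v.valuation K ((z : K) * ((a : K) - (b : K))) =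
        v.valuation K ((x : K) * (b : K)) := by
      congr 1
      have h8 := congrArg (algebraMap (𝓞 K) K) hxe
      rw [map_mul, map_mul, map_sub] at h8
      exact h8.symm
    rw [map_mul, map_mul, Pr_val_one hzv, one_mul] at h1
    exact h1
  have h5 : (a : K) / (b : K) - 1 = ((a : K) - (b : K)) / (b : K) := by
    rw [sub_div, div_self hbK]
  rw [h5, map_div₀, h4, mul_div_assoc, div_self hvb, mul_one]
  exact hvx

theorem aux_set {m : Ideal (𝓞 K)} (hm : m ≠ ⊥) : ∃ Z : Set (HeightOneSpectrum (𝓞 K)),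
    Z.Infinite ∧ (∀ v ∈ Z, ¬ m ≤ v.asIdeal ∧ (6 : 𝓞 K) ∉ v.asIdeal) ∧
      ∀ q ∈ Z, ∀ p ∈ Z, p ≠ q → ∃ D : K, AuxR m q p D := by
  have hI : ∀ c : ClassGroup (𝓞 K), ∃ I : (nonZeroDivisors (Ideal (𝓞 K))),
      ClassGroup.mk0 I = c⁻¹ := fun c => ClassGroup.mk0_surjective c⁻¹
  choose I hI using hI
  have hI0 : ∀ c, (I c : Ideal (𝓞 K)) ≠ ⊥ := fun c => by
    have := nonZeroDivisors.ne_zero (I c).2
    simpa using this
  obtain ⟨N, hN0, hNI⟩ : ∃ N : ℕ, N ≠ 0 ∧ ∀ c, (N : 𝓞 K) ∈ (I c : Ideal (𝓞 K)) := by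
    refine ⟨∏ c, Ideal.absNorm (I c : Ideal (𝓞 K)), ?_, ?_⟩
    · refine Finset.prod_ne_zero_iff.2 fun c _ => ?_
      rw [Ne, Ideal.absNorm_eq_zero_iff]
      exact hI0 c
    · intro c
      obtain ⟨k, hk⟩ : Ideal.absNorm (I c : Ideal (𝓞 K)) ∣
          ∏ c, Ideal.absNorm (I c : Ideal (𝓞 K)) := Finset.dvd_prod_of_mem _ (Finset.mem_univ c)
      rw [hk]
      push_cast
      exact Ideal.mul_mem_right _ _ (Ideal.absNorm_mem _)
  let cl : HeightOneSpectrum (𝓞 K) → ClassGroup (𝓞 K) := fun v =>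
    ClassGroup.mk0 ⟨v.asIdeal, mem_nonZeroDivisors_iff_ne_zero.2 v.ne_bot⟩
  have hg : ∀ v : HeightOneSpectrum (𝓞 K), ∃ g : 𝓞 K,
      v.asIdeal * (I (cl v) : Ideal (𝓞 K)) = Ideal.span {g} := by
    intro v
    have h1 : ClassGroup.mk0 (⟨v.asIdeal, mem_nonZeroDivisors_iff_ne_zero.2 v.ne_bot⟩ *
        I (cl v)) = 1 := by
      rw [map_mul, hI]
      exact mul_inv_cancel _
    rw [ClassGroup.mk0_eq_one_iff] at h1
    obtain ⟨g, hg⟩ := h1.principal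
    exact ⟨g, hg⟩
  choose g hg using hg
  have : Finite (K →+* ℝ) := by
    refine Finite.of_injective (fun s : K →+* ℝ => (Complex.ofRealHom.comp s : K →+* ℂ)) ?_
    intro s t hst
    ext x
    have := congrArg (fun f : K →+* ℂ => f x) hst
    simpa using this
  have hNK : (N : 𝓞 K) ≠ 0 := by exact_mod_cast hN0
  have hmN : m * Ideal.span {(N : 𝓞 K)} ≠ ⊥ := by
    rw [Ne, Ideal.mul_eq_bot, not_or]
    exact ⟨hm, by simpa using hNK⟩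
  have : Finite (𝓞 K ⧸ (m * Ideal.span {(N : 𝓞 K)})) :=
    Ideal.finiteQuotientOfFreeOfNeBot _ hmN
  have hfin : {v : HeightOneSpectrum (𝓞 K) | m ≤ v.asIdeal}.Finite := by
    refine (Ideal.finite_factors hm).subset ?_
    intro v hv
    exact Ideal.dvd_iff_le.2 hv
  have hinf0 : {v : HeightOneSpectrum (𝓞 K) |
      ¬ m ≤ v.asIdeal ∧ (6 : 𝓞 K) ∉ v.asIdeal}.Infinite := by
    refine ((inf_primes K).sdiff hfin).mono ?_
    rintro v ⟨h1, h2⟩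
    exact ⟨h2, h1⟩
  have : Infinite {v : HeightOneSpectrum (𝓞 K) |
      ¬ m ≤ v.asIdeal ∧ (6 : 𝓞 K) ∉ v.asIdeal} := hinf0.to_subtype
  let f : {v : HeightOneSpectrum (𝓞 K) | ¬ m ≤ v.asIdeal ∧ (6 : 𝓞 K) ∉ v.asIdeal} →
      ClassGroup (𝓞 K) × (𝓞 K ⧸ (m * Ideal.span {(N : 𝓞 K)})) × Set (K →+* ℝ) := fun v =>
    (cl v.1, Ideal.Quotient.mk _ (g v.1), {s | 0 < s (g v.1 : K)})
  obtain ⟨y, hy⟩ := Finite.exists_infinite_fiber f
  have := hy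
  refine ⟨Set.range (fun p : f ⁻¹' {y} => p.1.1), ?_, ?_, ?_⟩
  · refine Set.infinite_range_of_injective ?_
    intro a b hab
    exact Subtype.ext (Subtype.ext hab)
  · rintro _ ⟨p, rfl⟩
    exact p.1.2
  · rintro _ ⟨q, rfl⟩ _ ⟨p, rfl⟩ hpq
    have hpq' : p.1.1 ≠ q.1.1 := hpq
    have hfe : f p.1 = f q.1 := by
      have h1 : f p.1 = y := p.2
      have h2 : f q.1 = y := q.2
      rw [h1, h2]
    have e1 : cl p.1.1 = cl q.1.1 := congrArg Prod.fst hfe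
    have e2 : Ideal.Quotient.mk (m * Ideal.span {(N : 𝓞 K)}) (g p.1.1) =
        Ideal.Quotient.mk _ (g q.1.1) := congrArg (fun z => z.2.1) hfe
    have e3 : {s : K →+* ℝ | 0 < s (g p.1.1 : K)} = {s | 0 < s (g q.1.1 : K)} :=
      congrArg (fun z => z.2.2) hfe
    have ha := hg p.1.1
    have hb := hg q.1.1
    rw [e1] at ha
    obtain ⟨ha0, hb0, hv1, hv2, hv3⟩ := quot_val hpq' (hI0 _) ha hb
    have ha0' : (g p.1.1 : K) ≠ 0 := by
      intro h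
      exact ha0 (by exact_mod_cast h)
    have hb0' : (g q.1.1 : K) ≠ 0 := by
      intro h
      exact hb0 (by exact_mod_cast h)
    refine ⟨(g p.1.1 : K) / (g q.1.1 : K), div_ne_zero ha0' hb0', hv1, hv2, hv3, ?_, ?_⟩
    · intro v k hk hv
      refine quot_cong q.1.2.1 (hI0 _) hb ?_ hk hv
      have h1 := Ideal.Quotient.eq.1 e2
      have hle : m * Ideal.span {(N : 𝓞 K)} ≤ m * (I (cl q.1.1) : Ideal (𝓞 K)) := by
        refine Ideal.mul_mono_right ?_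
        rw [Ideal.span_le, Set.singleton_subset_iff]
        exact hNI _
      exact hle h1
    · intro s
      rw [map_div₀]
      have hsa : s (g p.1.1 : K) ≠ 0 := by
        rw [Ne, map_eq_zero]
        exact ha0'
      have hsb : s (g q.1.1 : K) ≠ 0 := by
        rw [Ne, map_eq_zero]
        exact hb0'
      have hiff : 0 < s (g p.1.1 : K) ↔ 0 < s (g q.1.1 : K) := by
        have := Set.ext_iff.1 e3 s
        simpa using this
      rcases lt_or_gt_of_ne hsa with h | h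
      · have hb' : s (g q.1.1 : K) < 0 := by
          rcases lt_or_gt_of_ne hsb with h' | h'
          · exact h'
          · exact absurd (hiff.2 h') (not_lt.2 h.le)
        exact div_pos_of_neg_of_neg h hb'
      · exact div_pos h (hiff.1 h)

end H36MT

end S_H36_MT_Ax

section S_H36_MT_Pw

set_option autoImplicit false
set_option linter.unusedSectionVars false
open scoped Classical

open WithZero NumberField IsDedekindDomain
open H76PP H36PP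

namespace H36MT

variable (K : Type) [Field K] [NumberField K]

theorem two_cl {K : Type} [Field K] [NumberField K] (v : HeightOneSpectrum (𝓞 K)) :
    ∃ c : ℕ, ∀ g : ℕ, ∀ A : 𝓞 K, ∃ B₀ : 𝓞 K, ∀ B : 𝓞 K, dsc A B ∈ v.asIdeal ^ (c + 2 * g) →
      B - B₀ ∈ v.asIdeal ^ g ∨ B - (-B₀) ∈ v.asIdeal ^ g := by
  have h27 : (27 : 𝓞 K) ≠ 0 := by norm_num
  have hV : v.intValuation (27 : 𝓞 K) ≠ 0 := v.intValuation_ne_zero _ h27
  obtain ⟨n, hn⟩ : ∃ n : ℤ, v.intValuation (27 : 𝓞 K) = exp n := ⟨log _, (exp_log hV).symm⟩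
  refine ⟨(-n).toNat, fun g A => ?_⟩
  by_cases h : ∃ B : 𝓞 K, dsc A B ∈ v.asIdeal ^ ((-n).toNat + 2 * g)
  · obtain ⟨B₀, hB₀⟩ := h
    refine ⟨B₀, fun B hB => ?_⟩
    by_contra hcon
    rw [not_or] at hcon
    obtain ⟨h1, h2⟩ := hcon
    have h3 : 27 * ((B - B₀) * (B - (-B₀))) ∈ v.asIdeal ^ ((-n).toNat + 2 * g) := by
      have h4 : 27 * ((B - B₀) * (B - (-B₀))) = dsc A B - dsc A B₀ := by
        unfold dsc
        ring
      rw [h4]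
      exact Ideal.sub_mem _ hB hB₀
    rw [← v.intValuation_le_pow_iff_mem, not_le] at h1 h2
    rw [← v.intValuation_le_pow_iff_mem, map_mul, map_mul, hn] at h3
    obtain ⟨n1, hn1⟩ : ∃ m : ℤ, v.intValuation (B - B₀) = exp m :=
      ⟨log _, (exp_log (ne_zero_of_lt h1)).symm⟩
    obtain ⟨n2, hn2⟩ : ∃ m : ℤ, v.intValuation (B - (-B₀)) = exp m :=
      ⟨log _, (exp_log (ne_zero_of_lt h2)).symm⟩
    rw [hn1, exp_lt_exp] at h1
    rw [hn2, exp_lt_exp] at h2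
    rw [hn1, hn2, ← exp_add, ← exp_add, exp_le_exp] at h3
    have h5 := Int.self_le_toNat (-n)
    push_cast at h3
    omega
  · exact ⟨0, fun B hB => absurd ⟨B, hB⟩ h⟩

private theorem Pw_pow {X : ℝ} (hX : 1 ≤ X) (n : ℕ) (hn : 0 < n) : X ≤ X ^ n :=
  le_self_pow₀ hX hn.ne'

private theorem pow_one' (v : HeightOneSpectrum (𝓞 K)) {ε : ℝ} (hε : 0 < ε) :
    ∃ (e : ℕ) (X₀ : ℝ), 1 ≤ X₀ ∧ ∀ e' : ℕ, e ≤ e' → ∀ X : ℝ, X₀ ≤ X →
      ({p : 𝓞 K × 𝓞 K | p ∈ Bx K X ∧ dsc p.1 p.2 ∈ v.asIdeal ^ e'}.ncard : ℝ) ≤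
        ε * X ^ (5 * Module.finrank ℚ K) := by
  obtain ⟨c, hc⟩ := two_cl v
  obtain ⟨C, hC1, hC⟩ := coset_upper K
  obtain ⟨C', hC1', hC'⟩ := bx_upper K
  obtain ⟨n, hn⟩ : ∃ n, n = Module.finrank ℚ K := ⟨_, rfl⟩
  have hn0 : 0 < n := by rw [hn]; exact Module.finrank_pos
  rw [← hn] at hC hC' ⊢
  obtain ⟨q, hq⟩ : ∃ q : ℕ, q = Ideal.absNorm v.asIdeal := ⟨_, rfl⟩
  have hq2 : 2 ≤ q := by
    have h0 : q ≠ 0 := by
      rw [hq]
      exact Ideal.absNorm_ne_zero_iff_mem_nonZeroDivisors.2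
        (mem_nonZeroDivisors_iff_ne_zero.2 v.ne_bot)
    have h1 : q ≠ 1 := by
      rw [hq]
      intro h
      exact v.isPrime.ne_top (Ideal.absNorm_eq_one_iff.1 h)
    omega
  have hq2' : (2 : ℝ) ≤ q := by exact_mod_cast hq2
  obtain ⟨D, hD⟩ : ∃ D : ℝ, D = 2 * C * C' := ⟨_, rfl⟩
  have hD0 : 0 < D := by rw [hD]; positivity
  obtain ⟨g, hg⟩ := pow_unbounded_of_one_lt (D / (ε / 2)) (show (1 : ℝ) < q by linarith)
  have hqg : (0 : ℝ) < (q : ℝ) ^ g := by positivity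
  have hg' : D / (q : ℝ) ^ g ≤ ε / 2 := by
    rw [div_le_iff₀ hqg]
    rw [div_lt_iff₀ (by positivity)] at hg
    linarith
  refine ⟨c + 2 * g, max 1 (D / (ε / 2)), le_max_left _ _, fun e' he' X hX => ?_⟩
  have hX1 : 1 ≤ X := (le_max_left _ _).trans hX
  have hX2 : D / (ε / 2) ≤ X := (le_max_right _ _).trans hX
  have hX0 : 0 < X := by linarith
  obtain ⟨b, hb⟩ : ∃ b : ℝ, b = 2 * (C * ((X ^ 3) ^ n / (q : ℝ) ^ g + 1)) := ⟨_, rfl⟩
  have hb0 : 0 ≤ b := by rw [hb]; positivity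
  obtain ⟨F, hF⟩ : ∃ F, F = (H76PP.bx_finite K (X ^ 2)).toFinset := ⟨_, rfl⟩
  have hfin3 := H76PP.bx_finite K (X ^ 3)
  have hT : ∀ A : 𝓞 K, ({B : 𝓞 K | B ∈ bx K (X ^ 3) ∧ dsc A B ∈ v.asIdeal ^ e'}.ncard : ℝ) ≤ b := by
    intro A
    obtain ⟨B₀, hB₀⟩ := hc g A
    have hcos : ∀ B₁ : 𝓞 K, ({B : 𝓞 K | B ∈ bx K (X ^ 3) ∧ B - B₁ ∈ v.asIdeal ^ g}.ncard : ℝ) ≤
        C * ((X ^ 3) ^ n / (q : ℝ) ^ g + 1) := by
      intro B₁
      have h1 := hC (v.asIdeal ^ g) (pow_ne_zero g v.ne_bot) B₁ (X ^ 3) (by positivity)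
      rw [map_pow, ← hq] at h1
      push_cast at h1
      exact h1
    have hsub : {B : 𝓞 K | B ∈ bx K (X ^ 3) ∧ dsc A B ∈ v.asIdeal ^ e'} ⊆
        {B : 𝓞 K | B ∈ bx K (X ^ 3) ∧ B - B₀ ∈ v.asIdeal ^ g} ∪
          {B : 𝓞 K | B ∈ bx K (X ^ 3) ∧ B - (-B₀) ∈ v.asIdeal ^ g} := by
      rintro B ⟨h1, h2⟩
      rcases hB₀ B (Ideal.pow_le_pow_right he' h2) with h | h
      · exact Or.inl ⟨h1, h⟩
      · exact Or.inr ⟨h1, h⟩
    have h1 := Set.ncard_le_ncard hsub ((hfin3.subset fun _ h => h.1).union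
      (hfin3.subset fun _ h => h.1))
    have h2 := Set.ncard_union_le {B : 𝓞 K | B ∈ bx K (X ^ 3) ∧ B - B₀ ∈ v.asIdeal ^ g}
          {B : 𝓞 K | B ∈ bx K (X ^ 3) ∧ B - (-B₀) ∈ v.asIdeal ^ g}
    have h3 : ({B : 𝓞 K | B ∈ bx K (X ^ 3) ∧ dsc A B ∈ v.asIdeal ^ e'}.ncard : ℝ) ≤
        ({B : 𝓞 K | B ∈ bx K (X ^ 3) ∧ B - B₀ ∈ v.asIdeal ^ g}.ncard : ℝ) +
          ({B : 𝓞 K | B ∈ bx K (X ^ 3) ∧ B - (-B₀) ∈ v.asIdeal ^ g}.ncard : ℝ) := by
      exact_mod_cast h1.trans h2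
    have h4 := hcos B₀
    have h5 := hcos (-B₀)
    rw [hb]
    linarith
  have hsub : {p : 𝓞 K × 𝓞 K | p ∈ Bx K X ∧ dsc p.1 p.2 ∈ v.asIdeal ^ e'} ⊆
      ⋃ A ∈ F, (fun B : 𝓞 K => (A, B)) ''
        {B : 𝓞 K | B ∈ bx K (X ^ 3) ∧ dsc A B ∈ v.asIdeal ^ e'} := by
    rintro ⟨A, B⟩ ⟨h1, h2⟩
    rw [Set.mem_iUnion₂]
    refine ⟨A, ?_, B, ⟨h1.2, h2⟩, rfl⟩
    rw [hF, Set.Finite.mem_toFinset]
    exact h1.1
  have hfinU : (⋃ A ∈ F, (fun B : 𝓞 K => (A, B)) ''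
        {B : 𝓞 K | B ∈ bx K (X ^ 3) ∧ dsc A B ∈ v.asIdeal ^ e'}).Finite :=
    Set.Finite.biUnion F.finite_toSet fun A _ => (hfin3.subset fun _ h => h.1).image _
  have h1 := Set.ncard_le_ncard hsub hfinU
  have h2 := Finset.set_ncard_biUnion_le F (fun A => (fun B : 𝓞 K => (A, B)) ''
        {B : 𝓞 K | B ∈ bx K (X ^ 3) ∧ dsc A B ∈ v.asIdeal ^ e'})
  have h3 : ((∑ A ∈ F, ((fun B : 𝓞 K => (A, B)) ''
        {B : 𝓞 K | B ∈ bx K (X ^ 3) ∧ dsc A B ∈ v.asIdeal ^ e'}).ncard : ℕ) : ℝ) ≤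
      (F.card : ℝ) * b := by
    push_cast
    rw [← nsmul_eq_mul]
    refine Finset.sum_le_card_nsmul _ _ _ fun A _ => ?_
    have h4 : (((fun B : 𝓞 K => (A, B)) ''
        {B : 𝓞 K | B ∈ bx K (X ^ 3) ∧ dsc A B ∈ v.asIdeal ^ e'}).ncard : ℝ) ≤
        ({B : 𝓞 K | B ∈ bx K (X ^ 3) ∧ dsc A B ∈ v.asIdeal ^ e'}.ncard : ℝ) := by
      have h6 : {B : 𝓞 K | B ∈ bx K (X ^ 3) ∧ dsc A B ∈ v.asIdeal ^ e'}.Finite :=
        hfin3.subset fun _ h => h.1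
      exact_mod_cast Set.ncard_image_le h6
    exact h4.trans (hT A)
  have h4 : (F.card : ℝ) ≤ C' * (X ^ 2) ^ n := by
    have h5 := hC' (X ^ 2) (one_le_pow₀ hX1)
    rw [Set.ncard_eq_toFinset_card _ (H76PP.bx_finite K (X ^ 2)), ← hF] at h5
    exact h5
  have h5 : ({p : 𝓞 K × 𝓞 K | p ∈ Bx K X ∧ dsc p.1 p.2 ∈ v.asIdeal ^ e'}.ncard : ℝ) ≤
      (F.card : ℝ) * b := le_trans (by exact_mod_cast h1.trans h2) h3
  refine h5.trans ((mul_le_mul_of_nonneg_right h4 hb0).trans ?_)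
  have e1 : C' * (X ^ 2) ^ n * b = D / (q : ℝ) ^ g * X ^ (5 * n) + D * X ^ (2 * n) := by
    rw [hb, hD, ← pow_mul, ← pow_mul, show 5 * n = 2 * n + 3 * n by ring, pow_add]
    field_simp
  have e2 : D * X ^ (2 * n) ≤ ε / 2 * X ^ (5 * n) := by
    have h6 : D ≤ ε / 2 * X ^ (3 * n) := by
      have h7 : X ≤ X ^ (3 * n) := Pw_pow hX1 _ (by omega)
      rw [div_le_iff₀ (by positivity)] at hX2
      have h8 : X * (ε / 2) ≤ X ^ (3 * n) * (ε / 2) := mul_le_mul_of_nonneg_right h7 (by positivity)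
      linarith
    have h7 : (0 : ℝ) < X ^ (2 * n) := by positivity
    have h8 := mul_le_mul_of_nonneg_right h6 h7.le
    refine h8.trans (le_of_eq ?_)
    rw [show 5 * n = 3 * n + 2 * n by ring, pow_add]
    ring
  have e3 : D / (q : ℝ) ^ g * X ^ (5 * n) ≤ ε / 2 * X ^ (5 * n) :=
    mul_le_mul_of_nonneg_right hg' (by positivity)
  rw [e1]
  linarith

private theorem pow_all (S : Finset (HeightOneSpectrum (𝓞 K))) : ∀ ε : ℝ, 0 < ε →
    ∃ (e : ℕ) (X₀ : ℝ), 1 ≤ X₀ ∧ ∀ e' : ℕ, e ≤ e' → ∀ X : ℝ, X₀ ≤ X →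
      ({p : 𝓞 K × 𝓞 K | p ∈ Bx K X ∧ ∃ v ∈ S, dsc p.1 p.2 ∈ v.asIdeal ^ e'}.ncard : ℝ) ≤
        ε * X ^ (5 * Module.finrank ℚ K) := by
  induction S using Finset.induction_on with
  | empty =>
    intro ε hε
    refine ⟨0, 1, le_rfl, fun e' _ X hX => ?_⟩
    have h1 : {p : 𝓞 K × 𝓞 K | p ∈ Bx K X ∧
        ∃ v ∈ (∅ : Finset (HeightOneSpectrum (𝓞 K))), dsc p.1 p.2 ∈ v.asIdeal ^ e'} = ∅ := by
      ext p
      simp
    rw [h1, Set.ncard_empty]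
    have : 0 < X := by linarith
    push_cast
    positivity
  | insert v S hv ih =>
    intro ε hε
    obtain ⟨e₁, X₁, hX₁, h1⟩ := pow_one' K v (half_pos hε)
    obtain ⟨e₂, X₂, hX₂, h2⟩ := ih (ε / 2) (half_pos hε)
    refine ⟨max e₁ e₂, max X₁ X₂, hX₁.trans (le_max_left _ _), fun e' he' X hX => ?_⟩
    have h3 := h1 e' ((le_max_left _ _).trans he') X ((le_max_left _ _).trans hX)
    have h4 := h2 e' ((le_max_right _ _).trans he') X ((le_max_right _ _).trans hX)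
    have hsub : {p : 𝓞 K × 𝓞 K | p ∈ Bx K X ∧ ∃ w ∈ insert v S, dsc p.1 p.2 ∈ w.asIdeal ^ e'} ⊆
        {p : 𝓞 K × 𝓞 K | p ∈ Bx K X ∧ dsc p.1 p.2 ∈ v.asIdeal ^ e'} ∪
          {p : 𝓞 K × 𝓞 K | p ∈ Bx K X ∧ ∃ w ∈ S, dsc p.1 p.2 ∈ w.asIdeal ^ e'} := by
      rintro p ⟨hp, w, hw, hd⟩
      rw [Finset.mem_insert] at hw
      rcases hw with rfl | hw
      · exact Or.inl ⟨hp, hd⟩
      · exact Or.inr ⟨hp, w, hw, hd⟩
    have h5 := Set.ncard_le_ncard hsub (((H36PP.Bx_finite K X).subset fun _ h => h.1).union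
      ((H36PP.Bx_finite K X).subset fun _ h => h.1))
    have h6 := Set.ncard_union_le
      {p : 𝓞 K × 𝓞 K | p ∈ Bx K X ∧ dsc p.1 p.2 ∈ v.asIdeal ^ e'}
      {p : 𝓞 K × 𝓞 K | p ∈ Bx K X ∧ ∃ w ∈ S, dsc p.1 p.2 ∈ w.asIdeal ^ e'}
    have h7 : ({p : 𝓞 K × 𝓞 K | p ∈ Bx K X ∧ ∃ w ∈ insert v S,
        dsc p.1 p.2 ∈ w.asIdeal ^ e'}.ncard : ℝ) ≤
        ({p : 𝓞 K × 𝓞 K | p ∈ Bx K X ∧ dsc p.1 p.2 ∈ v.asIdeal ^ e'}.ncard : ℝ) +
          ({p : 𝓞 K × 𝓞 K | p ∈ Bx K X ∧ ∃ w ∈ S, dsc p.1 p.2 ∈ w.asIdeal ^ e'}.ncard : ℝ) := by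
      exact_mod_cast h5.trans h6
    linarith

theorem pow_count (S : Finset (HeightOneSpectrum (𝓞 K))) {ε : ℝ} (hε : 0 < ε) :
    ∃ (e : ℕ) (X₀ : ℝ), 1 ≤ X₀ ∧ ∀ X : ℝ, X₀ ≤ X →
      ({p : 𝓞 K × 𝓞 K | p ∈ Bx K X ∧ ∃ v ∈ S, dsc p.1 p.2 ∈ v.asIdeal ^ e}.ncard : ℝ) ≤
        ε * X ^ (5 * Module.finrank ℚ K) := by
  obtain ⟨e, X₀, h1, h2⟩ := pow_all K S ε hε
  exact ⟨e, X₀, h1, h2 e le_rfl⟩

theorem zero_count {ε : ℝ} (hε : 0 < ε) : ∃ X₀ : ℝ, 1 ≤ X₀ ∧ ∀ X : ℝ, X₀ ≤ X →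
      ({p : 𝓞 K × 𝓞 K | p ∈ Bx K X ∧ p.1 = 0}.ncard : ℝ) ≤
        ε * X ^ (5 * Module.finrank ℚ K) := by
  obtain ⟨C', hC1', hC'⟩ := bx_upper K
  obtain ⟨n, hn⟩ : ∃ n, n = Module.finrank ℚ K := ⟨_, rfl⟩
  have hn0 : 0 < n := by rw [hn]; exact Module.finrank_pos
  rw [← hn] at hC' ⊢
  refine ⟨max 1 (C' / ε), le_max_left _ _, fun X hX => ?_⟩
  have hX1 : 1 ≤ X := (le_max_left _ _).trans hX
  have hX2 : C' / ε ≤ X := (le_max_right _ _).trans hX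
  have hX0 : 0 < X := by linarith
  have hsub : {p : 𝓞 K × 𝓞 K | p ∈ Bx K X ∧ p.1 = 0} ⊆
      (fun B : 𝓞 K => ((0 : 𝓞 K), B)) '' (bx K (X ^ 3)) := by
    rintro ⟨A, B⟩ ⟨h1, h2⟩
    refine ⟨B, h1.2, ?_⟩
    have h2' : A = 0 := h2
    rw [h2']
  have hfin3 := H76PP.bx_finite K (X ^ 3)
  have h1 := (Set.ncard_le_ncard hsub (hfin3.image _)).trans (Set.ncard_image_le hfin3)
  have h2 := hC' (X ^ 3) (one_le_pow₀ hX1)
  have h3 : ({p : 𝓞 K × 𝓞 K | p ∈ Bx K X ∧ p.1 = 0}.ncard : ℝ) ≤ C' * (X ^ 3) ^ n :=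
    le_trans (by exact_mod_cast h1) h2
  refine h3.trans ?_
  have h6 : C' ≤ ε * X ^ (2 * n) := by
    have h7 : X ≤ X ^ (2 * n) := Pw_pow hX1 _ (by omega)
    rw [div_le_iff₀ hε] at hX2
    have h8 : X * ε ≤ X ^ (2 * n) * ε := mul_le_mul_of_nonneg_right h7 hε.le
    linarith
  have h7 : (0 : ℝ) < X ^ (3 * n) := by positivity
  have h8 := mul_le_mul_of_nonneg_right h6 h7.le
  rw [← pow_mul]
  refine h8.trans (le_of_eq ?_)
  rw [show 5 * n = 2 * n + 3 * n by ring, pow_add]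
  ring

end H36MT

end S_H36_MT_Pw

section S_H36_MT_Rt

set_option autoImplicit false
set_option linter.unusedSectionVars false
open scoped Classical

open NumberField IsDedekindDomain
open H76PP H36PP

namespace H36MT

variable (K : Type) [Field K] [NumberField K]

theorem rt_iff {K : Type} [Field K] [NumberField K] (v : HeightOneSpectrum (𝓞 K))
    (p : 𝓞 K × 𝓞 K) : (∃ t : 𝓞 K, t ^ 3 + p.1 * t + p.2 ∈ v.asIdeal) ↔
      rs v.asIdeal p ∈ RtS (𝓞 K ⧸ v.asIdeal) := by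
  constructor
  · rintro ⟨t, ht⟩
    refine ⟨Ideal.Quotient.mk v.asIdeal t, ?_⟩
    have h := Ideal.Quotient.eq_zero_iff_mem.2 ht
    rw [map_add, map_add, map_mul, map_pow] at h
    exact h
  · rintro ⟨t, ht⟩
    obtain ⟨t', rfl⟩ := Ideal.Quotient.mk_surjective t
    refine ⟨t', ?_⟩
    rw [← Ideal.Quotient.eq_zero_iff_mem, map_add, map_add, map_mul, map_pow]
    exact ht

theorem rt_dens {K : Type} [Field K] [NumberField K] {v : HeightOneSpectrum (𝓞 K)}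
    (h : (6 : 𝓞 K) ∉ v.asIdeal) :
    ((RtS (𝓞 K ⧸ v.asIdeal)).ncard : ℝ) / (Nv v : ℝ) ^ 2 ≤ 13 / 15 := by
  have hfin : Finite (𝓞 K ⧸ v.asIdeal) := Dv_fin v.ne_bot
  have h1 := card_root (𝓞 K ⧸ v.asIdeal)
  have h2 : Nat.card (𝓞 K ⧸ v.asIdeal) = Nv v := (Dv_card v.asIdeal).symm
  rw [h2] at h1
  have h5 := five_le K h
  obtain ⟨r, hr⟩ : ∃ r : ℕ, r = (RtS (𝓞 K ⧸ v.asIdeal)).ncard := ⟨_, rfl⟩
  have h3 : 6 * r + Nv v * (Nv v - 1) ≤ 6 * Nv v ^ 2 := by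
    rw [hr]
    exact h1
  rw [← hr]
  have h4 : ((6 * r + Nv v * (Nv v - 1) : ℕ) : ℝ) ≤ ((6 * Nv v ^ 2 : ℕ) : ℝ) := by
    exact_mod_cast h3
  rw [Nat.cast_add, Nat.cast_mul, Nat.cast_mul, Nat.cast_mul, Nat.cast_pow,
    Nat.cast_sub (by omega : 1 ≤ Nv v)] at h4
  push_cast at h4
  have h6 : (5 : ℝ) ≤ (Nv v : ℝ) := by exact_mod_cast h5
  rw [div_le_iff₀ (by positivity)]
  nlinarith [h4, h6]

theorem root_count {ε : ℝ} (hε : 0 < ε) : ∃ r₁ : ℕ, ∀ Z : Finset (HeightOneSpectrum (𝓞 K)),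
    r₁ ≤ Z.card → (∀ v ∈ Z, (6 : 𝓞 K) ∉ v.asIdeal) → ∃ X₀ : ℝ, 1 ≤ X₀ ∧ ∀ X : ℝ, X₀ ≤ X →
      ({p : 𝓞 K × 𝓞 K | p ∈ Bx K X ∧ ∀ v ∈ Z, ∃ t : 𝓞 K,
        t ^ 3 + p.1 * t + p.2 ∈ v.asIdeal}.ncard : ℝ) ≤ ε * X ^ (5 * Module.finrank ℚ K) := by
  obtain ⟨C, hC1, hC⟩ := count_prod K
  have hC0 : 0 < C := by linarith
  obtain ⟨r₁, hr⟩ := exists_pow_lt_of_lt_one (div_pos hε hC0) (by norm_num : (13 / 15 : ℝ) < 1)
  refine ⟨r₁, fun Z hZ h6 => ?_⟩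
  obtain ⟨X₀, hX1, hX⟩ := hC Z (fun v => RtS (𝓞 K ⧸ v.asIdeal))
  refine ⟨X₀, hX1, fun X hXX => ?_⟩
  have h1 := hX X hXX
  have he : {p : 𝓞 K × 𝓞 K | p ∈ Bx K X ∧ ∀ v ∈ Z, ∃ t : 𝓞 K,
      t ^ 3 + p.1 * t + p.2 ∈ v.asIdeal} =
      {p : 𝓞 K × 𝓞 K | p ∈ Bx K X ∧ ∀ v ∈ Z, rs v.asIdeal p ∈ RtS (𝓞 K ⧸ v.asIdeal)} := by
    ext p
    exact and_congr_right fun _ => forall_congr' fun v => forall_congr' fun _ => rt_iff v p
  rw [he]
  refine h1.trans ?_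
  have hX0 : 0 ≤ X ^ (5 * Module.finrank ℚ K) := pow_nonneg (by linarith) _
  refine mul_le_mul_of_nonneg_right ?_ hX0
  have h2 : ∏ v ∈ Z, ((RtS (𝓞 K ⧸ v.asIdeal)).ncard : ℝ) / (Nv v : ℝ) ^ 2 ≤
      (13 / 15 : ℝ) ^ Z.card := by
    rw [← Finset.prod_const]
    exact Finset.prod_le_prod (fun v _ => by positivity) (fun v hv => rt_dens (h6 v hv))
  have h3 : (13 / 15 : ℝ) ^ Z.card ≤ (13 / 15 : ℝ) ^ r₁ :=
    pow_le_pow_of_le_one (by norm_num) (by norm_num) hZ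
  have h4 : ∏ v ∈ Z, ((RtS (𝓞 K ⧸ v.asIdeal)).ncard : ℝ) / (Nv v : ℝ) ^ 2 ≤ ε / C :=
    h2.trans (h3.trans hr.le)
  calc C * ∏ v ∈ Z, ((RtS (𝓞 K ⧸ v.asIdeal)).ncard : ℝ) / (Nv v : ℝ) ^ 2 ≤ C * (ε / C) :=
        mul_le_mul_of_nonneg_left h4 hC0.le
    _ = ε := by field_simp

end H36MT

end S_H36_MT_Rt

section S_H36_MT_Ty

set_option autoImplicit false
set_option linter.unusedSectionVars false
open scoped Classical

open NumberField IsDedekindDomain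
open H76PP H36PP

namespace H36MT

variable (K : Type) [Field K] [NumberField K]

private theorem Ty_ab (v : HeightOneSpectrum (𝓞 K)) (h6 : (6 : 𝓞 K) ∉ v.asIdeal) :
    (2 / 5 : ℝ) ≤ ((SqT (𝓞 K ⧸ v.asIdeal)).ncard : ℝ) / (Nv v : ℝ) ^ 2 ∧
    ((SqT (𝓞 K ⧸ v.asIdeal)).ncard : ℝ) / (Nv v : ℝ) ^ 2 +
      (((SqT (𝓞 K ⧸ v.asIdeal))ᶜ).ncard : ℝ) / (Nv v : ℝ) ^ 2 ≤ 1 := by
  have hfin : Finite (𝓞 K ⧸ v.asIdeal) := Dv_fin v.ne_bot
  have hcard : Nat.card (𝓞 K ⧸ v.asIdeal) = Nv v := (Dv_card v.asIdeal).symm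
  have h5 : 5 ≤ Nv v := five_le K h6
  have h5' : (5 : ℝ) ≤ (Nv v : ℝ) := by exact_mod_cast h5
  have hq2 : (0 : ℝ) < (Nv v : ℝ) ^ 2 := by positivity
  have h60 : (6 : 𝓞 K ⧸ v.asIdeal) ≠ 0 := by
    intro h0
    apply h6
    rw [← Ideal.Quotient.eq_zero_iff_mem, map_ofNat]
    exact h0
  have h1 := card_SqT (𝓞 K ⧸ v.asIdeal) h60
  rw [hcard] at h1
  have h2 : (Nv v : ℝ) * ((Nv v : ℝ) - 1) ≤ 2 * ((SqT (𝓞 K ⧸ v.asIdeal)).ncard : ℝ) := by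
    have h3 : ((Nv v * (Nv v - 1) : ℕ) : ℝ) ≤ ((2 * (SqT (𝓞 K ⧸ v.asIdeal)).ncard : ℕ) : ℝ) := by
      exact_mod_cast h1
    rw [Nat.cast_mul, Nat.cast_mul, Nat.cast_sub (by omega)] at h3
    exact_mod_cast h3
  refine ⟨?_, ?_⟩
  · rw [le_div_iff₀ hq2]
    nlinarith
  · have h3 := Set.ncard_add_ncard_compl (SqT (𝓞 K ⧸ v.asIdeal))
    rw [Nat.card_prod, hcard] at h3
    have h4 : ((SqT (𝓞 K ⧸ v.asIdeal)).ncard : ℝ) + (((SqT (𝓞 K ⧸ v.asIdeal))ᶜ).ncard : ℝ) =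
        (Nv v : ℝ) ^ 2 := by
      rw [sq]
      exact_mod_cast h3
    rw [← add_div, h4, div_self hq2.ne']

theorem type_count {ε : ℝ} (hε : 0 < ε) : ∃ N₁ : ℕ, ∀ (Z : Finset (HeightOneSpectrum (𝓞 K)))
    (N : ℕ), N₁ ≤ N → Z.card = 3 * N → (∀ v ∈ Z, (6 : 𝓞 K) ∉ v.asIdeal) →
    ∃ X₀ : ℝ, 1 ≤ X₀ ∧ ∀ X : ℝ, X₀ ≤ X →
      ({p : 𝓞 K × 𝓞 K | p ∈ Bx K X ∧ (Z.filter (fun v => p ∈ Pt v)).card < N}.ncard : ℝ) ≤
        ε * X ^ (5 * Module.finrank ℚ K) := by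
  obtain ⟨C, hC1, hC⟩ := count_prod K
  have hC0 : 0 < C := by linarith
  obtain ⟨N₁, hN₁⟩ := chernoff (div_pos hε hC0)
  refine ⟨N₁, fun Z N hN hZ h6 => ?_⟩
  obtain ⟨a, ha⟩ : ∃ a : HeightOneSpectrum (𝓞 K) → ℝ, a = fun (v : HeightOneSpectrum (𝓞 K)) =>
    ((SqT (𝓞 K ⧸ v.asIdeal)).ncard : ℝ) / (Nv v : ℝ) ^ 2 := ⟨_, rfl⟩
  obtain ⟨b, hb⟩ : ∃ b : HeightOneSpectrum (𝓞 K) → ℝ, b = fun (v : HeightOneSpectrum (𝓞 K)) =>
    (((SqT (𝓞 K ⧸ v.asIdeal))ᶜ).ncard : ℝ) / (Nv v : ℝ) ^ 2 := ⟨_, rfl⟩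
  obtain ⟨SU, hSU⟩ : ∃ SU : Finset (HeightOneSpectrum (𝓞 K)) → ∀ v : HeightOneSpectrum (𝓞 K),
    Set ((𝓞 K ⧸ v.asIdeal) × (𝓞 K ⧸ v.asIdeal)), SU = fun U (v : HeightOneSpectrum (𝓞 K)) =>
      if v ∈ U then SqT (𝓞 K ⧸ v.asIdeal) else (SqT (𝓞 K ⧸ v.asIdeal))ᶜ := ⟨_, rfl⟩
  choose X₁ hX1 hX using fun U => hC Z (SU U)
  refine ⟨1 + ∑ U ∈ Z.powerset, |X₁ U|, ?_, fun X hXX => ?_⟩
  · have : 0 ≤ ∑ U ∈ Z.powerset, |X₁ U| := Finset.sum_nonneg fun _ _ => abs_nonneg _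
    linarith
  have hX0 : 0 ≤ X := by
    have : 0 ≤ ∑ U ∈ Z.powerset, |X₁ U| := Finset.sum_nonneg fun _ _ => abs_nonneg _
    linarith
  have hsub : {p : 𝓞 K × 𝓞 K | p ∈ Bx K X ∧ (Z.filter (fun v => p ∈ Pt v)).card < N} ⊆
      ⋃ U ∈ Z.powerset.filter (fun U => U.card < N),
        {p : 𝓞 K × 𝓞 K | p ∈ Bx K X ∧ ∀ v ∈ Z, rs v.asIdeal p ∈ SU U v} := by
    rintro p ⟨hp, hc⟩
    rw [Set.mem_iUnion₂]
    refine ⟨Z.filter (fun v => p ∈ Pt v), ?_, hp, fun v hv => ?_⟩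
    · rw [Finset.mem_filter, Finset.mem_powerset]
      exact ⟨Finset.filter_subset _ _, hc⟩
    · rw [hSU]
      show rs v.asIdeal p ∈ if v ∈ Z.filter (fun v => p ∈ Pt v) then SqT (𝓞 K ⧸ v.asIdeal)
        else (SqT (𝓞 K ⧸ v.asIdeal))ᶜ
      by_cases hpv : p ∈ Pt v
      · rw [if_pos (Finset.mem_filter.2 ⟨hv, hpv⟩)]
        exact (Dv_Pt v p).1 hpv
      · have hnot : v ∉ Z.filter (fun v => p ∈ Pt v) := fun h => hpv (Finset.mem_filter.1 h).2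
        rw [if_neg hnot]
        exact fun h => hpv ((Dv_Pt v p).2 h)
  have hfin : (⋃ U ∈ Z.powerset.filter (fun U => U.card < N),
        {p : 𝓞 K × 𝓞 K | p ∈ Bx K X ∧ ∀ v ∈ Z, rs v.asIdeal p ∈ SU U v}).Finite := by
    refine ((H36PP.bx_finite K (X ^ 2)).prod (H36PP.bx_finite K (X ^ 3))).subset ?_
    intro p hp
    rw [Set.mem_iUnion₂] at hp
    obtain ⟨U, _, hp'⟩ := hp
    exact ⟨hp'.1.1, hp'.1.2⟩
  have h1 := (Set.ncard_le_ncard hsub hfin).trans (Finset.set_ncard_biUnion_le _ _)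
  have h2 : ({p : 𝓞 K × 𝓞 K | p ∈ Bx K X ∧
      (Z.filter (fun v => p ∈ Pt v)).card < N}.ncard : ℝ) ≤
      ∑ U ∈ Z.powerset.filter (fun U => U.card < N),
        ({p : 𝓞 K × 𝓞 K | p ∈ Bx K X ∧ ∀ v ∈ Z, rs v.asIdeal p ∈ SU U v}.ncard : ℝ) := by
    exact_mod_cast h1
  have h3 : ∀ U ∈ Z.powerset.filter (fun U => U.card < N),
      ({p : 𝓞 K × 𝓞 K | p ∈ Bx K X ∧ ∀ v ∈ Z, rs v.asIdeal p ∈ SU U v}.ncard : ℝ) ≤
      C * X ^ (5 * Module.finrank ℚ K) * ((∏ i ∈ U, a i) * ∏ i ∈ Z \ U, b i) := by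
    intro U hU
    have hUZ : U ⊆ Z := Finset.mem_powerset.1 (Finset.mem_filter.1 hU).1
    have h4 : X₁ U ≤ X := by
      have h5 : |X₁ U| ≤ ∑ U ∈ Z.powerset, |X₁ U| :=
        Finset.single_le_sum (f := fun U => |X₁ U|) (fun _ _ => abs_nonneg _)
          (Finset.mem_filter.1 hU).1
      have h6 := le_abs_self (X₁ U)
      linarith
    have h5 := hX U X h4
    refine h5.trans (le_of_eq ?_)
    have h6 : ∏ v ∈ Z, ((SU U v).ncard : ℝ) / (Nv v : ℝ) ^ 2 =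
        (∏ i ∈ U, a i) * ∏ i ∈ Z \ U, b i := by
      rw [← Finset.prod_sdiff hUZ, mul_comm]
      congr 1
      · refine Finset.prod_congr rfl fun v hv => ?_
        rw [hSU, ha]
        simp only [hv, if_true]
      · refine Finset.prod_congr rfl fun v hv => ?_
        rw [hSU, hb]
        simp only [(Finset.mem_sdiff.1 hv).2, if_false]
    rw [h6]
    ring
  refine (h2.trans (Finset.sum_le_sum h3)).trans ?_
  rw [← Finset.mul_sum]
  have h4 := hN₁ (HeightOneSpectrum (𝓞 K)) Z a b N hN hZ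
    (fun v hv => by rw [ha]; exact (Ty_ab K v (h6 v hv)).1)
    (fun v hv => by rw [hb]; positivity)
    (fun v hv => by rw [ha, hb]; exact (Ty_ab K v (h6 v hv)).2)
  have h5 : 0 ≤ C * X ^ (5 * Module.finrank ℚ K) := by positivity
  refine (mul_le_mul_of_nonneg_left h4 h5).trans (le_of_eq ?_)
  field_simp

end H36MT

end S_H36_MT_Ty

section S_H36_MT_Tw

set_option autoImplicit false
set_option linter.unusedSectionVars false
open scoped Classical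

open WithZero NumberField IsDedekindDomain H38RT
open H76PP H36PP

namespace H36MT

variable {K : Type} [Field K] [NumberField K]

private theorem Tw_eight : ¬ IsUnit (8 : 𝓞 K) := by
  intro h
  have h1 : IsUnit (algebraMap ℤ (𝓞 K) 8) := by
    rw [map_ofNat]
    exact h
  have hloc : IsLocalHom (algebraMap ℤ (𝓞 K)) := Algebra.IsIntegral.isLocalHom ℤ (𝓞 K)
  have h2 : IsUnit (8 : ℤ) := isUnit_of_map_unit _ _ h1
  rw [Int.isUnit_iff] at h2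
  omega

theorem exists_mod {m : Ideal (𝓞 K)} (hm : m ≠ ⊥) (S : Finset (HeightOneSpectrum (𝓞 K))) :
    ∃ m' : Ideal (𝓞 K), m' ≠ ⊥ ∧ m' ≠ ⊤ ∧ m' ≤ m ∧
      (∀ v ∈ S, ∀ x ∈ m', v.valuation K (x : K) < v.valuation K 4) ∧
      ∀ v : HeightOneSpectrum (𝓞 K), m' ≤ v.asIdeal → v ∈ S ∨ m ≤ v.asIdeal ∨
        (2 : 𝓞 K) ∈ v.asIdeal := by
  have h8 : (8 : 𝓞 K) ≠ 0 := by norm_num
  have hp : ∏ v ∈ S, v.asIdeal ≠ ⊥ := by
    rw [← Ideal.zero_eq_bot]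
    refine Finset.prod_ne_zero_iff.2 fun v _ => ?_
    rw [Ideal.zero_eq_bot]
    exact v.ne_bot
  refine ⟨m * Ideal.span {8} * ∏ v ∈ S, v.asIdeal, ?_, ?_, ?_, ?_, ?_⟩
  · rw [← Ideal.zero_eq_bot] at hm hp ⊢
    refine mul_ne_zero (mul_ne_zero hm ?_) hp
    rw [Ideal.zero_eq_bot, Ne, Ideal.span_singleton_eq_bot]
    exact h8
  · intro ht
    have h1 : (⊤ : Ideal (𝓞 K)) ≤ Ideal.span {8} := by
      rw [← ht]
      exact Ideal.mul_le_left.trans Ideal.mul_le_right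
    have h2 := top_le_iff.1 h1
    rw [Ideal.span_singleton_eq_top] at h2
    exact Tw_eight h2
  · exact Ideal.mul_le_left.trans Ideal.mul_le_left
  · intro v hv x hx
    have h1 : m * Ideal.span {8} * ∏ v ∈ S, v.asIdeal ≤ Ideal.span {8} * v.asIdeal :=
      Ideal.mul_mono Ideal.mul_le_right
        (Ideal.le_of_dvd (Finset.dvd_prod_of_mem (fun v : HeightOneSpectrum (𝓞 K) => v.asIdeal) hv))
    obtain ⟨y, hy, rfl⟩ := Ideal.mem_span_singleton_mul.1 (h1 hx)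
    have h2 : v.valuation K (y : K) < 1 := (v.valuation_lt_one_iff_mem (K := K) y).2 hy
    have h3 : v.valuation K (2 : K) ≤ 1 := by
      rw [← map_ofNat (algebraMap (𝓞 K) K) 2]
      exact v.valuation_le_one (K := K) (2 : 𝓞 K)
    have h4 : ((8 * y : 𝓞 K) : K) = 4 * (2 * (y : K)) := by
      have e1 : ((8 * y : 𝓞 K) : K) = algebraMap (𝓞 K) K 8 * (y : K) :=
        map_mul (algebraMap (𝓞 K) K) 8 y
      rw [e1, map_ofNat]
      ring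
    have h5 : v.valuation K (4 : K) ≠ 0 := by
      rw [Valuation.ne_zero_iff]
      norm_num
    have h6 : v.valuation K (2 * (y : K)) < 1 := by
      rw [map_mul]
      calc v.valuation K 2 * v.valuation K (y : K) ≤ 1 * v.valuation K (y : K) :=
            mul_le_mul' h3 le_rfl
        _ = v.valuation K (y : K) := one_mul _
        _ < 1 := h2
    rw [h4, map_mul]
    calc v.valuation K 4 * v.valuation K (2 * (y : K)) < v.valuation K 4 * 1 :=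
          mul_lt_mul_of_pos_left h6 (zero_lt_iff.2 h5)
      _ = v.valuation K 4 := mul_one _
  · intro v hv
    have hvp := v.isPrime
    rcases hvp.mul_le.1 hv with h | h
    · rcases hvp.mul_le.1 h with h | h
      · exact Or.inr (Or.inl h)
      · refine Or.inr (Or.inr ?_)
        have h1 : (8 : 𝓞 K) ∈ v.asIdeal := h (Ideal.mem_span_singleton_self 8)
        have h2 : (8 : 𝓞 K) = 2 ^ 3 := by norm_num
        rw [h2] at h1
        exact hvp.mem_of_pow_mem 3 h1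
    · obtain ⟨u, hu, huv⟩ := (Ideal.IsPrime.prod_le hvp).1 h
      have h1 : u = v := by
        apply HeightOneSpectrum.ext
        exact u.isMaximal.eq_of_le hvp.ne_top huv
      exact Or.inl (h1 ▸ hu)

theorem mem_of_pow {m : Ideal (𝓞 K)} (hm : m ≠ ⊥) {x : 𝓞 K}
    (h : ∀ (v : HeightOneSpectrum (𝓞 K)) (k : ℕ), 0 < k → m ≤ v.asIdeal ^ k →
      x ∈ v.asIdeal ^ k) : x ∈ m := by
  rw [← Ideal.span_singleton_le_iff_mem, ← Ideal.dvd_iff_le,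
    UniqueFactorizationMonoid.dvd_iff_emultiplicity_le (by rwa [Ne, Ideal.zero_eq_bot])]
  intro p hp
  rw [emultiplicity_le_emultiplicity_iff]
  intro n hn
  rcases Nat.eq_zero_or_pos n with h0 | h0
  · rw [h0, pow_zero]
    exact one_dvd _
  · have hp0 : p ≠ ⊥ := by
      have := hp.ne_zero
      rwa [Ne, Ideal.zero_eq_bot] at this
    have h1 := h ⟨p, Ideal.isPrime_of_prime hp, hp0⟩ n h0 (Ideal.dvd_iff_le.1 hn)
    rw [Ideal.dvd_iff_le, Ideal.span_singleton_le_iff_mem]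
    exact h1

private theorem Tw_ind (v : HeightOneSpectrum (𝓞 K)) (k : ℕ) {ι : Type} (J : Finset ι)
    (d : ι → K) (h : ∀ i ∈ J, v.valuation K (d i - 1) ≤ exp (-(k : ℤ))) :
    v.valuation K (∏ i ∈ J, d i - 1) ≤ exp (-(k : ℤ)) := by
  have hk : (exp (-(k : ℤ)) : WithZero (Multiplicative ℤ)) ≤ 1 := by
    rw [← exp_zero, exp_le_exp]
    omega
  induction J using Finset.induction_on with
  | empty => simp
  | insert a J ha ih =>
    rw [Finset.prod_insert ha]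
    have h1 := h a (Finset.mem_insert_self a J)
    have h2 := ih (fun i hi => h i (Finset.mem_insert_of_mem hi))
    have h3 : v.valuation K (∏ i ∈ J, d i) ≤ 1 := by
      have e : ∏ i ∈ J, d i = (∏ i ∈ J, d i - 1) + 1 := by ring
      rw [e]
      refine (Valuation.map_add _ _ _).trans ?_
      rw [map_one]
      exact max_le (h2.trans hk) le_rfl
    have e : d a * ∏ i ∈ J, d i - 1 = (d a - 1) * ∏ i ∈ J, d i + (∏ i ∈ J, d i - 1) := by ring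
    rw [e]
    refine (Valuation.map_add _ _ _).trans (max_le ?_ h2)
    rw [map_mul]
    calc _ ≤ exp (-(k : ℤ)) * (1 : WithZero (Multiplicative ℤ)) := mul_le_mul' h1 h3
      _ = _ := mul_one _

private theorem Tw_mem (v : HeightOneSpectrum (𝓞 K)) (x : 𝓞 K) (n : ℕ) :
    v.valuation K (x : K) ≤ exp (-(n : ℤ)) ↔ x ∈ v.asIdeal ^ n := by
  have h1 : v.valuation K (algebraMap (𝓞 K) K x) = v.intValuation x :=
    v.valuation_of_algebraMap x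
  rw [← v.intValuation_le_pow_iff_mem, ← h1]

private theorem Tw_sub (y : 𝓞 K) : ((y - 1 : 𝓞 K) : K) = (y : K) - 1 := by
  have h : algebraMap (𝓞 K) K (y - 1) = algebraMap (𝓞 K) K y - 1 := by
    rw [map_sub, map_one]
  exact h

private theorem Tw_add (y : 𝓞 K) : ((y + 1 : 𝓞 K) : K) = (y : K) + 1 := by
  have h : algebraMap (𝓞 K) K (y + 1) = algebraMap (𝓞 K) K y + 1 := by
    rw [map_add, map_one]
  exact h

theorem exists_twistS {m : Ideal (𝓞 K)} (hm : m ≠ ⊥) (hmt : m ≠ ⊤)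
    {S : Finset (HeightOneSpectrum (𝓞 K))}
    (hS : ∀ v ∈ S, ∀ x ∈ m, v.valuation K (x : K) < v.valuation K 4)
    {q₀ : HeightOneSpectrum (𝓞 K)} (hq : ¬ m ≤ q₀.asIdeal)
    {J : Finset (HeightOneSpectrum (𝓞 K))} (hJ : ∀ p ∈ J, ∃ D : K, AuxR m q₀ p D) :
    ∃ D : 𝓞 K, D - 1 ∈ m ∧ TwS S q₀ J (D : K) := by
  have hex : ∀ p : HeightOneSpectrum (𝓞 K), ∃ D : K, p ∈ J → AuxR m q₀ p D := by
    intro p
    by_cases hp : p ∈ J
    · obtain ⟨D, hD⟩ := hJ p hp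
      exact ⟨D, fun _ => hD⟩
    · exact ⟨1, fun h => absurd h hp⟩
  choose d hd using hex
  obtain ⟨E, hE⟩ : ∃ E : K, E = ∏ p ∈ J, d p := ⟨_, rfl⟩
  have hE0 : E ≠ 0 := by
    rw [hE]
    exact Finset.prod_ne_zero_iff.2 fun p hp => (hd p hp).ne
  have hpq : ∀ p ∈ J, p ≠ q₀ := by
    intro p hp h0
    have h1 := (hd p hp).at_p
    have h2 := (hd p hp).at_q
    rw [← h0, h1, exp_inj] at h2
    omega
  have hv1 : ∀ v : HeightOneSpectrum (𝓞 K), v ∉ J → v ≠ q₀ → v.valuation K E = 1 := by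
    intro v hv hq'
    rw [hE, map_prod]
    exact Finset.prod_eq_one fun p hp => (hd p hp).oth v (fun h => hv (h ▸ hp)) hq'
  have hv2 : ∀ v ∈ J, v.valuation K E = exp (-1) := by
    intro v hv
    rw [hE, map_prod, Finset.prod_eq_single v]
    · exact (hd v hv).at_p
    · intro p hp hpv
      exact (hd p hp).oth v (Ne.symm hpv) (hpq v hv)
    · intro h
      exact absurd hv h
  have hv3 : q₀.valuation K E = exp (J.card : ℤ) := by
    rw [hE, map_prod, Finset.prod_congr rfl fun p hp => (hd p hp).at_q, Finset.prod_const,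
      ← exp_nsmul]
    simp
  have hcong : ∀ (v : HeightOneSpectrum (𝓞 K)) (k : ℕ), 0 < k → m ≤ v.asIdeal ^ k →
      v.valuation K (E - 1) ≤ exp (-(k : ℤ)) := by
    intro v k hk hmv
    rw [hE]
    exact Tw_ind v k J d fun p hp => (hd p hp).cong v k hk hmv
  -- the element `y`
  have hcop : IsCoprime m (q₀.asIdeal ^ J.card) := by
    refine IsCoprime.pow_right (Ideal.isCoprime_iff_sup_eq.2 ?_)
    refine q₀.isMaximal.out.2 _ (lt_of_le_of_ne le_sup_right fun h => hq ?_)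
    rw [h]
    exact le_sup_left
  obtain ⟨i, hi, y, hy, hiy⟩ := Ideal.isCoprime_iff_exists.1 hcop
  have hy1 : y - 1 ∈ m := by
    have h1 : y - 1 = -i := by
      rw [← hiy]
      ring
    rw [h1]
    exact m.neg_mem hi
  have hy0 : y ≠ 0 := by
    intro h0
    apply hmt
    rw [Ideal.eq_top_iff_one]
    rw [h0, add_zero] at hiy
    rw [← hiy]
    exact hi
  have hy0' : (y : K) ≠ 0 := fun h => hy0 (RingOfIntegers.coe_injective (by
    rw [map_zero]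
    exact h))
  have hyv : ∀ v : HeightOneSpectrum (𝓞 K), v.valuation K (y : K) ≠ 0 := by
    intro v
    rw [Valuation.ne_zero_iff]
    exact hy0'
  have hyle : ∀ v : HeightOneSpectrum (𝓞 K), v.valuation K (y : K) ≤ 1 := fun v =>
    v.valuation_le_one (K := K) y
  have hsq : ∀ v : HeightOneSpectrum (𝓞 K), v.valuation K (y : K) ^ 2 ≤ 1 := fun v =>
    pow_le_one' (hyle v) 2
  -- `D = y² E`
  have hint : ∀ v : HeightOneSpectrum (𝓞 K), v.valuation K ((y : K) ^ 2 * E) ≤ 1 := by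
    intro v
    rw [map_mul, map_pow]
    by_cases hvJ : v ∈ J
    · rw [hv2 v hvJ]
      have h1 : (exp (-1 : ℤ) : WithZero (Multiplicative ℤ)) ≤ 1 := by
        rw [← exp_zero, exp_le_exp]
        omega
      exact mul_le_one' (hsq v) h1
    · by_cases hvq : v = q₀
      · rw [hvq, hv3]
        have h1 : q₀.valuation K (y : K) ≤ exp (-(J.card : ℤ)) := (Tw_mem q₀ y J.card).2 hy
        have h2 : q₀.valuation K (y : K) ^ 2 ≤ exp (-(J.card : ℤ)) := by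
          rw [pow_two]
          calc q₀.valuation K (y : K) * q₀.valuation K (y : K) ≤ exp (-(J.card : ℤ)) * 1 :=
                mul_le_mul' h1 (hyle q₀)
            _ = _ := mul_one _
        calc q₀.valuation K (y : K) ^ 2 * exp (J.card : ℤ) ≤
              exp (-(J.card : ℤ)) * exp (J.card : ℤ) := mul_le_mul' h2 le_rfl
          _ = 1 := by
            rw [← exp_add, neg_add_cancel, exp_zero]
      · rw [hv1 v hvJ hvq, mul_one]
        exact hsq v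
  obtain ⟨D, hD⟩ := HeightOneSpectrum.mem_integers_of_valuation_le_one (R := 𝓞 K) K _ hint
  have hDE : (D : K) = (y : K) ^ 2 * E := hD
  have hDm : D - 1 ∈ m := by
    refine mem_of_pow hm fun v k hk hmv => ?_
    rw [← Tw_mem]
    have hk1 : (exp (-(k : ℤ)) : WithZero (Multiplicative ℤ)) ≤ 1 := by
      rw [← exp_zero, exp_le_exp]
      omega
    have h1 : v.valuation K ((y - 1 : 𝓞 K) : K) ≤ exp (-(k : ℤ)) := (Tw_mem v _ k).2 (hmv hy1)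
    have h2 : v.valuation K ((y + 1 : 𝓞 K) : K) ≤ 1 := v.valuation_le_one (K := K) (y + 1)
    have h3 := hcong v k hk hmv
    have h4 : v.valuation K E ≤ 1 := by
      have e : E = (E - 1) + 1 := by ring
      rw [e]
      refine (Valuation.map_add _ _ _).trans ?_
      rw [map_one]
      exact max_le (h3.trans hk1) le_rfl
    have e : ((D - 1 : 𝓞 K) : K) = ((y - 1 : 𝓞 K) : K) * ((y + 1 : 𝓞 K) : K) * E + (E - 1) := by
      have e1 : ((D - 1 : 𝓞 K) : K) = (D : K) - 1 := Tw_sub D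
      have e2 : ((y - 1 : 𝓞 K) : K) = (y : K) - 1 := Tw_sub y
      have e3 : ((y + 1 : 𝓞 K) : K) = (y : K) + 1 := Tw_add y
      rw [e1, e2, e3, hDE]
      ring
    rw [e]
    refine (Valuation.map_add _ _ _).trans (max_le ?_ h3)
    rw [map_mul, map_mul]
    calc v.valuation K ((y - 1 : 𝓞 K) : K) * v.valuation K ((y + 1 : 𝓞 K) : K) *
          v.valuation K E ≤ exp (-(k : ℤ)) * 1 * 1 := mul_le_mul' (mul_le_mul' h1 h2) h4
      _ = _ := by rw [mul_one, mul_one]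
  refine ⟨D, hDm, ?_, ?_, ?_, ?_, ?_⟩
  · rw [hDE]
    exact mul_ne_zero (pow_ne_zero _ hy0') hE0
  · intro v hv
    rw [hDE, ord, map_mul, map_pow, hv2 v hv, log_mul (pow_ne_zero _ (hyv v)) (by simp),
      log_pow, log_exp]
    refine ⟨- log (v.valuation K (y : K)), ?_⟩
    simp only [nsmul_eq_mul]
    push_cast
    ring
  · intro v _ hv hq'
    rw [hDE, ord, map_mul, map_pow, hv1 v hv hq', mul_one, log_pow]
    refine ⟨- log (v.valuation K (y : K)), ?_⟩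
    simp only [nsmul_eq_mul]
    push_cast
    ring
  · intro v hv
    refine ⟨1, one_ne_zero, ?_⟩
    have h1 := hS v hv (D - 1) hDm
    have e : (D : K) * 1 ^ 2 - 1 = ((D - 1 : 𝓞 K) : K) := by
      rw [Tw_sub D, one_pow, mul_one]
    rw [e]
    exact h1
  · intro s
    rw [hDE, map_mul, map_pow, hE, map_prod]
    have h1 : s (y : K) ≠ 0 := by
      rw [Ne, map_eq_zero]
      exact hy0'
    exact mul_pos (by positivity) (Finset.prod_pos fun p hp => (hd p hp).pos s)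

end H36MT

end S_H36_MT_Tw

section S_H36_MT_Cl

set_option autoImplicit false
set_option linter.unusedSectionVars false
open scoped Classical

open WithZero NumberField IsDedekindDomain H38RT
open H76PP

namespace H36MT

theorem class_lower {K : Type} [Field K] [NumberField K] {m : Ideal (𝓞 K)} (hm : m ≠ ⊥) :
    ∃ c X₀ : ℝ, 0 < c ∧ ∀ X : ℝ, X₀ ≤ X → ∀ a₀ b₀ : 𝓞 K,
      c * X ^ (5 * Module.finrank ℚ K) ≤
        ({p : 𝓞 K × 𝓞 K | p ∈ Bx K X ∧ p.1 - a₀ ∈ m ∧ p.2 - b₀ ∈ m}.ncard : ℝ) := by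
  obtain ⟨c, hc, h⟩ := coset_lower K
  obtain ⟨T₀, hT⟩ := h m hm
  have hfin : Finite (𝓞 K ⧸ m) := Ideal.finiteQuotientOfFreeOfNeBot m hm
  have hN : (0 : ℝ) < (Ideal.absNorm m : ℝ) := by
    have h1 : Ideal.absNorm m ≠ 0 := Ideal.absNorm_eq_zero_iff.not.2 hm
    exact_mod_cast Nat.pos_of_ne_zero h1
  refine ⟨c ^ 2 / (Ideal.absNorm m : ℝ) ^ 2, max 1 T₀, by positivity, fun X hX a₀ b₀ => ?_⟩
  have h1 : (1 : ℝ) ≤ X := le_trans (le_max_left _ _) hX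
  have h2 : T₀ ≤ X := le_trans (le_max_right _ _) hX
  have hX2 : T₀ ≤ X ^ 2 := by nlinarith
  have hX3 : T₀ ≤ X ^ 3 := by
    have : X ≤ X ^ 3 := le_self_pow₀ h1 (by norm_num)
    linarith
  have ha := hT (X ^ 2) hX2 a₀
  have hb := hT (X ^ 3) hX3 b₀
  have hset : {p : 𝓞 K × 𝓞 K | p ∈ Bx K X ∧ p.1 - a₀ ∈ m ∧ p.2 - b₀ ∈ m} =
      {a : 𝓞 K | a ∈ bx K (X ^ 2) ∧ a - a₀ ∈ m} ×ˢ {a : 𝓞 K | a ∈ bx K (X ^ 3) ∧ a - b₀ ∈ m} := by
    ext p
    constructor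
    · rintro ⟨⟨h3, h4⟩, h5, h6⟩
      exact ⟨⟨h3, h5⟩, ⟨h4, h6⟩⟩
    · rintro ⟨⟨h3, h5⟩, ⟨h4, h6⟩⟩
      exact ⟨⟨h3, h4⟩, h5, h6⟩
  rw [hset, Set.ncard_prod]
  push_cast
  calc c ^ 2 / (Ideal.absNorm m : ℝ) ^ 2 * X ^ (5 * Module.finrank ℚ K)
      = (c * ((X ^ 2) ^ (Module.finrank ℚ K) / (Ideal.absNorm m : ℝ))) *
        (c * ((X ^ 3) ^ (Module.finrank ℚ K) / (Ideal.absNorm m : ℝ))) := by
        rw [← pow_mul, ← pow_mul, show 5 * Module.finrank ℚ K = 2 * Module.finrank ℚ K +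
          3 * Module.finrank ℚ K by ring, pow_add]
        field_simp
    _ ≤ _ := by
        apply mul_le_mul ha hb
        · have : (0 : ℝ) ≤ X := by linarith
          positivity
        · positivity

end H36MT

end S_H36_MT_Cl
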