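import Mathlib
import Pool.Agent.H76.PN.A1

/-! This file joins several modules to save build time (B1). -/

set_option autoImplicit false

section S_H54_PP_Fa

set_option autoImplicit false
open scoped Classical

namespace H54PP

lemma Fa_key {k : Type} [Field k] {c d r x₀ y₀ u v l : k} (hl : l ≠ 0)
    (h0 : c * x₀ ^ 2 + d * y₀ ^ 2 = r) (h1 : c * (x₀ + l * u) ^ 2 + d * (y₀ + l * v) ^ 2 = r) :
    l * (c * u ^ 2 + d * v ^ 2) = -2 * (c * x₀ * u + d * y₀ * v) := by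
  apply mul_left_cancel₀ hl
  linear_combination h1 - h0

lemma Fa_ne {k : Type} [Field k] (h2 : (2 : k) ≠ 0) {c d r x₀ y₀ u v l : k} (hc : c ≠ 0)
    (hd : d ≠ 0) (hr : r ≠ 0) (hl : l ≠ 0) (huv : u ≠ 0 ∨ v ≠ 0)
    (h0 : c * x₀ ^ 2 + d * y₀ ^ 2 = r) (h1 : c * (x₀ + l * u) ^ 2 + d * (y₀ + l * v) ^ 2 = r) :
    c * u ^ 2 + d * v ^ 2 ≠ 0 := by
  intro h3
  have h4 := Fa_key hl h0 h1
  rw [h3, mul_zero] at h4
  have h5 : c * x₀ * u + d * y₀ * v = 0 := by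
    rcases mul_eq_zero.1 h4.symm with h | h
    · exact absurd (neg_eq_zero.1 h) h2
    · exact h
  have h6 : (x₀ * v - y₀ * u) ^ 2 = 0 := by
    apply mul_left_cancel₀ (mul_ne_zero hc hd)
    linear_combination (c * x₀ ^ 2 + d * y₀ ^ 2) * h3 - (c * x₀ * u + d * y₀ * v) * h5
  have h7 : x₀ * v = y₀ * u := sub_eq_zero.1 (pow_eq_zero_iff (two_ne_zero)|>.1 h6)
  rcases huv with h | h
  · apply mul_ne_zero hr (pow_ne_zero 2 h)
    rw [← h0]
    linear_combination x₀ ^ 2 * h3 - d * (x₀ * v + y₀ * u) * h7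
  · apply mul_ne_zero hr (pow_ne_zero 2 h)
    rw [← h0]
    linear_combination y₀ ^ 2 * h3 + c * (x₀ * v + y₀ * u) * h7

theorem conic {k : Type} [Field k] [Fintype k] (h2 : (2 : k) ≠ 0) {c d r : k} (hc : c ≠ 0)
    (hd : d ≠ 0) (hr : r ≠ 0) :
    (Finset.univ.filter (fun p : k × k => c * p.1 ^ 2 + d * p.2 ^ 2 = r)).card ≤
      Fintype.card k + 1 := by
  obtain ⟨S, hS⟩ : ∃ S : Finset (k × k),
      S = Finset.univ.filter (fun p : k × k => c * p.1 ^ 2 + d * p.2 ^ 2 = r) := ⟨_, rfl⟩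
  rw [← hS]
  have hSm : ∀ p, p ∈ S ↔ c * p.1 ^ 2 + d * p.2 ^ 2 = r := by
    intro p
    rw [hS, Finset.mem_filter]
    exact ⟨fun h => h.2, fun h => ⟨Finset.mem_univ _, h⟩⟩
  rcases S.eq_empty_or_nonempty with hE | ⟨⟨x₀, y₀⟩, hp0⟩
  · rw [hE, Finset.card_empty]
    exact Nat.zero_le _
  have h0 : c * x₀ ^ 2 + d * y₀ ^ 2 = r := (hSm _).1 hp0
  have hcard : S.card = (S.erase (x₀, y₀)).card + 1 := (Finset.card_erase_add_one hp0).symm
  rw [hcard]
  apply Nat.add_le_add_right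
  obtain ⟨T, hT⟩ : ∃ T : Option k, T = if y₀ = 0 then none else some (-(c * x₀) / (d * y₀)) :=
    ⟨_, rfl⟩
  have hTc : ((Finset.univ : Finset (Option k)).erase T).card = Fintype.card k := by
    rw [Finset.card_erase_of_mem (Finset.mem_univ _), Finset.card_univ, Fintype.card_option,
      Nat.add_sub_cancel]
  rw [← hTc]
  -- the vertical direction
  have hv : ∀ y, (x₀, y) ∈ S.erase (x₀, y₀) → y - y₀ ≠ 0 ∧ (y - y₀) * d = -2 * (d * y₀) := by
    intro y hy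
    rw [Finset.mem_erase, hSm] at hy
    have hl : y - y₀ ≠ 0 := by
      intro h
      exact hy.1 (by rw [sub_eq_zero.1 h])
    refine ⟨hl, ?_⟩
    have h1 : c * (x₀ + (y - y₀) * 0) ^ 2 + d * (y₀ + (y - y₀) * 1) ^ 2 = r := by
      rw [← hy.2]
      ring
    have := Fa_key hl h0 h1
    linear_combination this
  -- the other directions
  have ho : ∀ x y, (x, y) ∈ S.erase (x₀, y₀) → x ≠ x₀ →
      (x - x₀) * (c + d * ((y - y₀) / (x - x₀)) ^ 2) =
        -2 * (c * x₀ + d * y₀ * ((y - y₀) / (x - x₀))) ∧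
      c + d * ((y - y₀) / (x - x₀)) ^ 2 ≠ 0 := by
    intro x y hy hx
    rw [Finset.mem_erase, hSm] at hy
    have hl : x - x₀ ≠ 0 := sub_ne_zero.2 hx
    have h1 : c * (x₀ + (x - x₀) * 1) ^ 2 + d * (y₀ + (x - x₀) * ((y - y₀) / (x - x₀))) ^ 2 = r := by
      rw [mul_div_cancel₀ _ hl, ← hy.2]
      ring
    have h3 := Fa_key hl h0 h1
    have h4 := Fa_ne h2 hc hd hr hl (Or.inl one_ne_zero) h0 h1
    refine ⟨by linear_combination h3, fun h => h4 (by linear_combination h)⟩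
  refine Finset.card_le_card_of_injOn
    (fun p : k × k => if p.1 = x₀ then none else some ((p.2 - y₀) / (p.1 - x₀))) ?_ ?_
  · rintro ⟨x, y⟩ hp
    rw [Finset.mem_coe] at hp
    rw [Finset.mem_coe, Finset.mem_erase]
    refine ⟨?_, Finset.mem_univ _⟩
    dsimp only
    by_cases hx : x = x₀
    · subst hx
      rw [if_pos rfl, hT]
      obtain ⟨hl, h3⟩ := hv y hp
      intro h
      split_ifs at h with hy0
      rw [hy0] at h3 hl
      have : (y - 0) * d = 0 := by rw [h3]; ring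
      exact mul_ne_zero hl hd this
    · rw [if_neg hx, hT]
      obtain ⟨h3, h4⟩ := ho x y hp hx
      intro h
      split_ifs at h with hy0
      have h5 := Option.some.inj h
      rw [h5] at h3 h4
      have h6 : c * x₀ + d * y₀ * (-(c * x₀) / (d * y₀)) = 0 := by
        rw [mul_div_cancel₀ _ (mul_ne_zero hd hy0)]
        ring
      rw [h6, mul_zero] at h3
      exact mul_ne_zero (sub_ne_zero.2 hx) h4 h3
  · rintro ⟨x, y⟩ hp ⟨x', y'⟩ hp' hpp
    rw [Finset.mem_coe] at hp hp'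
    dsimp only at hpp
    by_cases hx : x = x₀
    · by_cases hx' : x' = x₀
      · subst hx
        subst hx'
        obtain ⟨-, h3⟩ := hv y hp
        obtain ⟨-, h3'⟩ := hv y' hp'
        have h4 : y - y₀ = y' - y₀ := mul_right_cancel₀ hd (h3.trans h3'.symm)
        rw [sub_left_injective h4]
      · rw [if_pos hx, if_neg hx'] at hpp
        exact absurd hpp.symm (Option.some_ne_none _)
    · by_cases hx' : x' = x₀
      · rw [if_neg hx, if_pos hx'] at hpp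
        exact absurd hpp (Option.some_ne_none _)
      · rw [if_neg hx, if_neg hx'] at hpp
        have h5 := Option.some.inj hpp
        obtain ⟨h3, h4⟩ := ho x y hp hx
        obtain ⟨h3', -⟩ := ho x' y' hp' hx'
        rw [← h5] at h3'
        have h6 : x - x₀ = x' - x₀ := mul_right_cancel₀ h4 (h3.trans h3'.symm)
        have h7 : x = x' := sub_left_injective h6
        subst h7
        have h8 : y - y₀ = y' - y₀ := by
          rwa [div_left_inj' (sub_ne_zero.2 hx)] at h5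
        rw [sub_left_injective h8]

end H54PP

end S_H54_PP_Fa

section S_H54_PP_Fb

set_option autoImplicit false
open scoped Classical

namespace H54PP

theorem nsq {k : Type} [Field k] [Fintype k] (h2 : (2 : k) ≠ 0) :
    2 * (Finset.univ.filter (fun x : k => ¬ IsSquare x)).card + 1 ≤ Fintype.card k := by
  have hc : ringChar k ≠ 2 := by
    intro h
    apply h2
    have h1 := (ringChar.spec k 2).2 (by rw [h])
    exact_mod_cast h1
  have h1 := quadraticChar_sum_zero hc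
  have h3 : ∀ a : k, quadraticChar k a = 1 - 2 * (if ¬ IsSquare a then 1 else 0) -
      (if a = 0 then 1 else 0) := by
    intro a
    by_cases h0 : a = 0
    · subst h0
      have hs : IsSquare (0 : k) := IsSquare.zero
      simp [hs]
    · by_cases hs : IsSquare a
      · rw [(quadraticChar_one_iff_isSquare h0).2 hs]
        simp [hs, h0]
      · rw [quadraticChar_neg_one_iff_not_isSquare.2 hs]
        simp [hs, h0]
  rw [Finset.sum_congr rfl fun a _ => h3 a, Finset.sum_sub_distrib, Finset.sum_sub_distrib,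
    ← Finset.mul_sum, Finset.sum_ite_eq' Finset.univ (0 : k)] at h1
  rw [Finset.sum_boole, Finset.sum_const, Finset.card_univ] at h1
  simp only [Finset.mem_univ, if_true, nsmul_eq_mul, mul_one] at h1
  have h4 : (2 * ((Finset.univ.filter (fun x : k => ¬ IsSquare x)).card : ℤ) + 1) = (Fintype.card k : ℤ) := by
    linarith
  have h5 : 2 * (Finset.univ.filter (fun x : k => ¬ IsSquare x)).card + 1 = Fintype.card k := by
    exact_mod_cast h4
  exact h5.le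

theorem tcount {k : Type} [Field k] [Fintype k] (h6 : (6 : k) ≠ 0) {α D : k} (hα : α ≠ 0)
    (hD : ¬ IsSquare D) :
    2 * (Finset.univ.filter (fun t : k => IsSquare (α * (9 * t ^ 2 - D)))).card ≤
      Fintype.card k + 1 := by
  have h2 : (2 : k) ≠ 0 := by
    intro h
    apply h6
    calc (6 : k) = 2 * 3 := by norm_num
      _ = 0 := by rw [h, zero_mul]
  have h3 : (3 : k) ≠ 0 := by
    intro h
    apply h6
    calc (6 : k) = 2 * 3 := by norm_num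
      _ = 0 := by rw [h, mul_zero]
  have h9 : (9 : k) ≠ 0 := by
    have : (9 : k) = 3 * 3 := by norm_num
    rw [this]
    exact mul_ne_zero h3 h3
  have hD0 : D ≠ 0 := by
    rintro rfl
    exact hD IsSquare.zero
  set S := Finset.univ.filter (fun t : k => IsSquare (α * (9 * t ^ 2 - D))) with hS
  have hz : ∀ t : k, ∃ z : k, t ∈ S → α * (9 * t ^ 2 - D) = z * z := by
    intro t
    by_cases ht : t ∈ S
    · obtain ⟨z, hz⟩ := (Finset.mem_filter.1 ht).2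
      exact ⟨z, fun _ => hz⟩
    · exact ⟨0, fun h => absurd h ht⟩
  choose z hz using hz
  have hz0 : ∀ t ∈ S, z t ≠ 0 := by
    intro t ht h0
    have h1 := hz t ht
    rw [h0, mul_zero] at h1
    rcases mul_eq_zero.1 h1 with h4 | h4
    · exact hα h4
    · apply hD
      refine ⟨3 * t, ?_⟩
      linear_combination -h4
  have h5 : (S ×ˢ (Finset.univ : Finset Bool)).card ≤
      (Finset.univ.filter (fun p : k × k => 1 * p.1 ^ 2 + (-9 * α) * p.2 ^ 2 = -(α * D))).card := by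
    refine Finset.card_le_card_of_injOn (fun q : k × Bool => (if q.2 then z q.1 else - z q.1, q.1)) ?_ ?_
    · rintro ⟨t, b⟩ hq
      have ht : t ∈ S := (Finset.mem_product.1 hq).1
      have h1 := hz t ht
      rw [Finset.mem_coe, Finset.mem_filter]
      refine ⟨Finset.mem_univ _, ?_⟩
      show 1 * (if b then z t else - z t) ^ 2 + (-9 * α) * t ^ 2 = -(α * D)
      have h4 : (if b then z t else - z t) ^ 2 = z t * z t := by
        split_ifs
        · ring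
        · ring
      rw [h4, ← h1]
      ring
    · rintro ⟨t, b⟩ hq ⟨t', b'⟩ hq' he
      have ht : t ∈ S := (Finset.mem_product.1 hq).1
      simp only [Prod.mk.injEq] at he
      obtain ⟨he1, rfl⟩ := he
      have hne : z t ≠ - z t := by
        intro h
        have h4 : 2 * z t = 0 := by linear_combination h
        rcases mul_eq_zero.1 h4 with h5 | h5
        · exact h2 h5
        · exact hz0 t ht h5
      cases b <;> cases b'
      · rfl
      · exact absurd (by simpa using he1.symm) hne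
      · exact absurd (by simpa using he1) hne
      · rfl
  rw [Finset.card_product, Finset.card_univ, Fintype.card_bool] at h5
  have h6' := conic h2 (c := 1) (d := -9 * α) (r := -(α * D)) one_ne_zero
    (mul_ne_zero (neg_ne_zero.2 h9) hα) (neg_ne_zero.2 (mul_ne_zero hα hD0))
  omega

end H54PP

end S_H54_PP_Fb

section S_H54_PP_Fc

set_option autoImplicit false
open scoped Classical

open scoped Matrix

namespace H54PP

/-- the value of the form in coordinates -/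
private lemma Fc_key {k : Type} [Field k] {M : Matrix (Fin 3) (Fin 3) k} (hM : M.IsSymm)
    (x y : Fin 3 → k) : x ⬝ᵥ M.mulVec y =
      x 0 * (M 0 0 * y 0 + M 0 1 * y 1 + M 0 2 * y 2) +
      x 1 * (M 0 1 * y 0 + M 1 1 * y 1 + M 1 2 * y 2) +
      x 2 * (M 0 2 * y 0 + M 1 2 * y 1 + M 2 2 * y 2) := by
  have s10 : M 1 0 = M 0 1 := hM.apply 0 1
  have s20 : M 2 0 = M 0 2 := hM.apply 0 2
  have s21 : M 2 1 = M 1 2 := hM.apply 1 2
  simp only [Matrix.mulVec, dotProduct, Fin.sum_univ_three, s10, s20, s21]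

private lemma Fc_symm {k : Type} [Field k] {M : Matrix (Fin 3) (Fin 3) k} (hM : M.IsSymm)
    (x y : Fin 3 → k) : x ⬝ᵥ M.mulVec y = y ⬝ᵥ M.mulVec x := by
  rw [Fc_key hM, Fc_key hM]
  ring

private lemma Fc_step1 {k : Type} [Field k] (h2 : (2 : k) ≠ 0) {M : Matrix (Fin 3) (Fin 3) k}
    (hM : M.IsSymm) (hd : M.det ≠ 0) {e : Fin 3 → k} (he : e ⬝ᵥ M.mulVec e ≠ 0) :
    ∃ w : Fin 3 → k, w ⬝ᵥ M.mulVec e = 0 ∧ w ⬝ᵥ M.mulVec w ≠ 0 := by
  by_contra hcon
  push Not at hcon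
  obtain ⟨α, hα⟩ : ∃ α : k, α = e ⬝ᵥ M.mulVec e := ⟨_, rfl⟩
  rw [← hα] at he
  have hx : ∀ x : Fin 3 → k, α * (x ⬝ᵥ M.mulVec x) = (x ⬝ᵥ M.mulVec e) ^ 2 := by
    intro x
    obtain ⟨t, ht⟩ : ∃ t : k, t = x ⬝ᵥ M.mulVec e := ⟨_, rfl⟩
    obtain ⟨w, hw⟩ : ∃ w : Fin 3 → k, w = fun i => α * x i - t * e i := ⟨_, rfl⟩
    have hw1 : w ⬝ᵥ M.mulVec e = α * (x ⬝ᵥ M.mulVec e) - t * (e ⬝ᵥ M.mulVec e) := by
      rw [Fc_key hM, Fc_key hM, Fc_key hM, hw]
      ring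
    have hw2 : w ⬝ᵥ M.mulVec w = α ^ 2 * (x ⬝ᵥ M.mulVec x) - 2 * (α * t) * (x ⬝ᵥ M.mulVec e) +
        t ^ 2 * (e ⬝ᵥ M.mulVec e) := by
      rw [Fc_key hM, Fc_key hM, Fc_key hM, Fc_key hM, hw]
      ring
    have hw3 : w ⬝ᵥ M.mulVec e = 0 := by
      rw [hw1, ← hα, ← ht]
      ring
    have hw4 := hcon w hw3
    rw [hw2, ← hα, ← ht] at hw4
    rw [← ht]
    have h5 : α * (α * (x ⬝ᵥ M.mulVec x) - t ^ 2) = 0 := by
      linear_combination hw4
    rcases mul_eq_zero.1 h5 with h6 | h6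
    · exact absurd h6 he
    · exact sub_eq_zero.1 h6
  obtain ⟨v, hv⟩ : ∃ v : Fin 3 → k, v = M.mulVec e := ⟨_, rfl⟩
  rw [← hv] at hx
  have hx' : ∀ a b c : k, α * (a * (M 0 0 * a + M 0 1 * b + M 0 2 * c) +
      b * (M 0 1 * a + M 1 1 * b + M 1 2 * c) + c * (M 0 2 * a + M 1 2 * b + M 2 2 * c)) =
      (a * v 0 + b * v 1 + c * v 2) ^ 2 := by
    intro a b c
    have h1 := hx ![a, b, c]
    rw [Fc_key hM] at h1
    simpa [dotProduct, Fin.sum_univ_three] using h1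
  have e00 : α * M 0 0 = v 0 ^ 2 := by linear_combination hx' 1 0 0
  have e11 : α * M 1 1 = v 1 ^ 2 := by linear_combination hx' 0 1 0
  have e22 : α * M 2 2 = v 2 ^ 2 := by linear_combination hx' 0 0 1
  have e01 : α * M 0 1 = v 0 * v 1 := by
    apply mul_left_cancel₀ h2
    linear_combination hx' 1 1 0 - e00 - e11
  have e02 : α * M 0 2 = v 0 * v 2 := by
    apply mul_left_cancel₀ h2
    linear_combination hx' 1 0 1 - e00 - e22
  have e12 : α * M 1 2 = v 1 * v 2 := by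
    apply mul_left_cancel₀ h2
    linear_combination hx' 0 1 1 - e11 - e22
  have s10 : M 1 0 = M 0 1 := hM.apply 0 1
  have s20 : M 2 0 = M 0 2 := hM.apply 0 2
  have s21 : M 2 1 = M 1 2 := hM.apply 1 2
  have h7 : α ^ 3 * M.det = 0 := by
    rw [Matrix.det_fin_three, s10, s20, s21]
    have h8 : α ^ 3 * (M 0 0 * M 1 1 * M 2 2 - M 0 0 * M 1 2 * M 1 2 - M 0 1 * M 0 1 * M 2 2 +
        M 0 1 * M 1 2 * M 0 2 + M 0 2 * M 0 1 * M 1 2 - M 0 2 * M 1 1 * M 0 2) =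
        (α * M 0 0) * (α * M 1 1) * (α * M 2 2) - (α * M 0 0) * (α * M 1 2) * (α * M 1 2) -
        (α * M 0 1) * (α * M 0 1) * (α * M 2 2) + (α * M 0 1) * (α * M 1 2) * (α * M 0 2) +
        (α * M 0 2) * (α * M 0 1) * (α * M 1 2) - (α * M 0 2) * (α * M 1 1) * (α * M 0 2) := by
      ring
    rw [h8, e00, e11, e22, e01, e02, e12]
    ring
  rcases mul_eq_zero.1 h7 with h9 | h9
  · exact he (pow_eq_zero_iff (by norm_num) |>.1 h9)
  · exact hd h9

theorem diag_basis {k : Type} [Field k] (h2 : (2 : k) ≠ 0) {M : Matrix (Fin 3) (Fin 3) k}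
    (hM : M.IsSymm) (hd : M.det ≠ 0) {e : Fin 3 → k} (he : e ⬝ᵥ M.mulVec e ≠ 0) :
    ∃ (P : Matrix (Fin 3) (Fin 3) k) (β γ : k), P.det ≠ 0 ∧ β ≠ 0 ∧ γ ≠ 0 ∧
      (∀ i, P i 0 = e i) ∧ Pᵀ * M * P = Matrix.diagonal ![e ⬝ᵥ M.mulVec e, β, γ] := by
  obtain ⟨w, hw1, hw2⟩ := Fc_step1 h2 hM hd he
  have s10 : M 1 0 = M 0 1 := hM.apply 0 1
  have s20 : M 2 0 = M 0 2 := hM.apply 0 2
  have s21 : M 2 1 = M 1 2 := hM.apply 1 2
  obtain ⟨v, hv⟩ : ∃ v : Fin 3 → k, v = M.mulVec e := ⟨_, rfl⟩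
  obtain ⟨u, hu⟩ : ∃ u : Fin 3 → k, u = M.mulVec w := ⟨_, rfl⟩
  obtain ⟨g, hg⟩ : ∃ g : Fin 3 → k, g = ![v 1 * u 2 - v 2 * u 1, v 2 * u 0 - v 0 * u 2,
    v 0 * u 1 - v 1 * u 0] := ⟨_, rfl⟩
  have hg0 : g 0 = v 1 * u 2 - v 2 * u 1 := by rw [hg]; rfl
  have hg1 : g 1 = v 2 * u 0 - v 0 * u 2 := by rw [hg]; rfl
  have hg2 : g 2 = v 0 * u 1 - v 1 * u 0 := by rw [hg]; rfl
  have hev : ∀ x y : Fin 3 → k, x ⬝ᵥ y = x 0 * y 0 + x 1 * y 1 + x 2 * y 2 := fun x y => by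
    simp only [dotProduct, Fin.sum_univ_three]
  have hgv : g ⬝ᵥ M.mulVec e = 0 := by
    rw [← hv, hev, hg0, hg1, hg2]
    ring
  have hgu : g ⬝ᵥ M.mulVec w = 0 := by
    rw [← hu, hev, hg0, hg1, hg2]
    ring
  obtain ⟨C, hC⟩ : ∃ C : Fin 3 → Fin 3 → k, C = ![e, w, g] := ⟨_, rfl⟩
  obtain ⟨P, hP⟩ : ∃ P : Matrix (Fin 3) (Fin 3) k, P = Matrix.of fun i j => C j i := ⟨_, rfl⟩
  have hC0 : C 0 = e := by rw [hC]; rfl
  have hC1 : C 1 = w := by rw [hC]; rfl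
  have hC2 : C 2 = g := by rw [hC]; rfl
  have hPe : ∀ i j, P i j = C j i := fun i j => by rw [hP]; rfl
  have hprod : ∀ i j, (Pᵀ * M * P) i j = C i ⬝ᵥ M.mulVec (C j) := by
    intro i j
    rw [Matrix.mul_assoc, Matrix.mul_apply']
    have h3 : (fun l => (M * P) l j) = M.mulVec (C j) := by
      funext l
      rw [Matrix.mul_apply]
      simp only [Matrix.mulVec, dotProduct, hPe]
    have h4 : Pᵀ i = C i := by
      funext l
      rw [Matrix.transpose_apply, hPe]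
    rw [h3]
    congr 1
  have hdetP : P.det = (e ⬝ᵥ M.mulVec e) * (w ⬝ᵥ M.mulVec w) := by
    have h3 : (w ⬝ᵥ v) = 0 := by rw [hv]; exact hw1
    rw [← hv, ← hu, hev, hev]
    rw [hev] at h3
    rw [Matrix.det_fin_three]
    simp only [hPe, hC0, hC1, hC2]
    rw [hg0, hg1, hg2]
    linear_combination (-(e 0 * u 0 + e 1 * u 1 + e 2 * u 2)) * h3
  have hdiag : Pᵀ * M * P =
      Matrix.diagonal ![e ⬝ᵥ M.mulVec e, w ⬝ᵥ M.mulVec w, g ⬝ᵥ M.mulVec g] := by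
    ext i j
    rw [hprod]
    have hew := Fc_symm hM e w
    have heg := Fc_symm hM e g
    have hwg := Fc_symm hM w g
    rw [hw1] at hew
    rw [hgv] at heg
    rw [hgu] at hwg
    fin_cases i <;> fin_cases j <;>
      simp [hC0, hC1, hC2, hew, heg, hwg, hw1, hgv, hgu]
  have hPne : P.det ≠ 0 := by
    rw [hdetP]
    exact mul_ne_zero he hw2
  refine ⟨P, w ⬝ᵥ M.mulVec w, g ⬝ᵥ M.mulVec g, hPne, hw2, ?_, fun i => by rw [hPe, hC0], hdiag⟩
  intro h0
  have h3 := congrArg Matrix.det hdiag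
  rw [Matrix.det_mul, Matrix.det_mul, Matrix.det_transpose, Matrix.det_diagonal,
    Fin.prod_univ_three] at h3
  have h4 : P.det * M.det * P.det = 0 := by
    rw [h3]
    show (e ⬝ᵥ M.mulVec e) * (w ⬝ᵥ M.mulVec w) * (g ⬝ᵥ M.mulVec g) = 0
    rw [h0, mul_zero]
  exact mul_ne_zero (mul_ne_zero hPne hd) hPne h4

end H54PP

end S_H54_PP_Fc

section S_H54_PP_Fd

set_option autoImplicit false
open scoped Classical

open scoped Matrix

namespace H54PP

theorem par {k : Type} [Field k] (h2 : (2 : k) ≠ 0) {α β γ : k} (hα : α ≠ 0) (hβ : β ≠ 0)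
    (hγ : γ ≠ 0) {N : Matrix (Fin 3) (Fin 3) k} (hNs : N.IsSymm) {a b t : k}
    (hch : ∀ x : k, (x • Matrix.diagonal ![α, β, γ] - N).det =
      (Matrix.diagonal ![α, β, γ]).det * (x ^ 3 + a * x + b))
    (hN : N.mulVec ![1, 0, 0] = t • (Matrix.diagonal ![α, β, γ]).mulVec ![1, 0, 0]) :
    N 0 0 = t * α ∧ N 0 1 = 0 ∧ N 0 2 = 0 ∧ N 1 1 / β + N 2 2 / γ = -t ∧
      -3 * t ^ 2 - 4 * a = 4 * ((N 1 1 / β - N 2 2 / γ) / 2) ^ 2 + 4 / (β * γ) * (N 1 2) ^ 2 := by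
  have h00 : N 0 0 = t * α := by
    have := congrFun hN 0
    rw [Pi.smul_apply, Matrix.mulVec_diagonal] at this
    simpa [Matrix.mulVec, dotProduct, Fin.sum_univ_three] using this
  have h10 : N 1 0 = 0 := by
    have := congrFun hN 1
    rw [Pi.smul_apply, Matrix.mulVec_diagonal] at this
    simpa [Matrix.mulVec, dotProduct, Fin.sum_univ_three] using this
  have h20 : N 2 0 = 0 := by
    have := congrFun hN 2
    rw [Pi.smul_apply, Matrix.mulVec_diagonal] at this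
    simpa [Matrix.mulVec, dotProduct, Fin.sum_univ_three] using this
  have h01 : N 0 1 = 0 := by rw [← hNs.apply 0 1]; exact h10
  have h02 : N 0 2 = 0 := by rw [← hNs.apply 0 2]; exact h20
  have h21 : N 2 1 = N 1 2 := by rw [← hNs.apply 2 1]
  have hdet : ∀ x : k, (x * α - N 0 0) * ((x * β - N 1 1) * (x * γ - N 2 2) - N 1 2 ^ 2) =
      α * β * γ * (x ^ 3 + a * x + b) := by
    intro x
    have := hch x
    rw [Matrix.det_fin_three, Matrix.det_fin_three] at this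
    simp [Matrix.diagonal, h10, h20, h01, h02, h21] at this
    linear_combination this
  have e0 := hdet 0
  have e1 := hdet 1
  have e2 := hdet (-1)
  rw [h00] at e0 e1 e2
  have hx2 : t * β * γ + N 1 1 * γ + N 2 2 * β = 0 := by
    have : 2 * α * (t * β * γ + N 1 1 * γ + N 2 2 * β) = 0 := by
      linear_combination 2 * e0 - e1 - e2
    rcases mul_eq_zero.1 this with h | h
    · rcases mul_eq_zero.1 h with h | h
      · exact absurd h h2
      · exact absurd h hα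
    · exact h
  have hx1 : N 1 1 * N 2 2 - N 1 2 ^ 2 + t * (N 1 1 * γ + N 2 2 * β) = β * γ * a := by
    have : 2 * α * (N 1 1 * N 2 2 - N 1 2 ^ 2 + t * (N 1 1 * γ + N 2 2 * β) - β * γ * a) = 0 := by
      linear_combination e1 - e2
    rcases mul_eq_zero.1 this with h | h
    · rcases mul_eq_zero.1 h with h | h
      · exact absurd h h2
      · exact absurd h hα
    · exact sub_eq_zero.1 h
  refine ⟨h00, h01, h02, ?_, ?_⟩
  · field_simp
    linear_combination hx2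
  · have hs : N 1 1 * γ + N 2 2 * β = - (t * β * γ) := by linear_combination hx2
    rw [hs] at hx1
    have h4 : (2:k) ^ 2 ≠ 0 := pow_ne_zero _ h2
    have hsum : (N 1 1 / β + N 2 2 / γ) ^ 2 = t ^ 2 := by
      have : N 1 1 / β + N 2 2 / γ = -t := by
        field_simp
        linear_combination hx2
      rw [this]; ring
    have ha : a = (N 1 1 / β) * (N 2 2 / γ) - N 1 2 ^ 2 / (β * γ) - t ^ 2 := by
      field_simp
      linear_combination -hx1
    have e5 : 4 * ((N 1 1 / β - N 2 2 / γ) / 2) ^ 2 = (N 1 1 / β - N 2 2 / γ) ^ 2 := by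
      field_simp
      ring
    rw [e5, ha]
    have e6 : (N 1 1 / β - N 2 2 / γ) ^ 2 = t ^ 2 - 4 * ((N 1 1 / β) * (N 2 2 / γ)) := by
      rw [← hsum]; ring
    rw [e6]; ring

end H54PP

end S_H54_PP_Fd

section S_H54_PP_Fe

set_option autoImplicit false
open scoped Classical

open scoped Matrix

namespace H54PP

/-- The residue condition with a given eigenvector. -/
def RsE {k : Type*} [Field k] (M N : Matrix (Fin 3) (Fin 3) k) (e : Fin 3 → k) : Prop :=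
  ∃ a b t : k, (∀ x : k, (x • M - N).det = M.det * (x ^ 3 + a * x + b)) ∧
    N.mulVec e = t • M.mulVec e ∧ ¬ IsSquare (-3 * t ^ 2 - 4 * a) ∧
    e ⬝ᵥ M.mulVec e ≠ 0 ∧ IsSquare ((e ⬝ᵥ M.mulVec e) * (3 * t ^ 2 + a))

theorem Fe_key {k : Type} [Field k] (h2 : (2 : k) ≠ 0) {M N P : Matrix (Fin 3) (Fin 3) k}
    {e : Fin 3 → k} {α β γ : k} (hα : α ≠ 0) (hβ : β ≠ 0) (hγ : γ ≠ 0)
    (hαe : α = e ⬝ᵥ M.mulVec e) (hcol : ∀ i, P i 0 = e i)
    (hdiag : Pᵀ * M * P = Matrix.diagonal ![α, β, γ]) (hN : N.IsSymm) (h : RsE M N e) :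
    (Pᵀ * N * P).IsSymm ∧ (Pᵀ * N * P) 0 1 = 0 ∧ (Pᵀ * N * P) 0 2 = 0 ∧
      (Pᵀ * N * P) 1 1 / β + (Pᵀ * N * P) 2 2 / γ = -((Pᵀ * N * P) 0 0 / α) ∧
      ¬ IsSquare (4 * (((Pᵀ * N * P) 1 1 / β - (Pᵀ * N * P) 2 2 / γ) / 2) ^ 2 +
        4 / (β * γ) * ((Pᵀ * N * P) 1 2) ^ 2) ∧
      IsSquare (α * (9 * ((Pᵀ * N * P) 0 0 / α) ^ 2 -
        (4 * (((Pᵀ * N * P) 1 1 / β - (Pᵀ * N * P) 2 2 / γ) / 2) ^ 2 +
        4 / (β * γ) * ((Pᵀ * N * P) 1 2) ^ 2))) := by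
  obtain ⟨a, b, t, hch, hNe, hns, -, hsq⟩ := h
  have hs : (Pᵀ * N * P).IsSymm := by
    unfold Matrix.IsSymm
    rw [Matrix.transpose_mul, Matrix.transpose_mul, Matrix.transpose_transpose, hN.eq,
      Matrix.mul_assoc]
  have hPe : P.mulVec ![1, 0, 0] = e := by
    funext i
    rw [← hcol i]
    simp [Matrix.mulVec, dotProduct, Fin.sum_univ_three]
  have hch' : ∀ x : k, (x • Matrix.diagonal ![α, β, γ] - Pᵀ * N * P).det =
      (Matrix.diagonal ![α, β, γ]).det * (x ^ 3 + a * x + b) := by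
    intro x
    have e1 : x • Matrix.diagonal ![α, β, γ] - Pᵀ * N * P = Pᵀ * (x • M - N) * P := by
      rw [← hdiag, Matrix.mul_sub, Matrix.sub_mul, Matrix.mul_smul, Matrix.smul_mul]
    rw [e1, ← hdiag, Matrix.det_mul, Matrix.det_mul, Matrix.det_mul, Matrix.det_mul, hch x]
    ring
  have hN' : (Pᵀ * N * P).mulVec ![1, 0, 0] =
      t • (Matrix.diagonal ![α, β, γ]).mulVec ![1, 0, 0] := by
    rw [← hdiag, ← Matrix.mulVec_mulVec, ← Matrix.mulVec_mulVec, hPe, hNe, Matrix.mulVec_smul,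
      ← Matrix.mulVec_mulVec, ← Matrix.mulVec_mulVec, hPe]
  obtain ⟨k1, k2, k3, k4, k5⟩ := par h2 hα hβ hγ hs hch' hN'
  have kt : (Pᵀ * N * P) 0 0 / α = t := by
    rw [k1, mul_div_assoc, div_self hα, mul_one]
  refine ⟨hs, k2, k3, by rw [k4, kt], ?_, ?_⟩
  · rw [← k5]
    exact hns
  · rw [← k5, kt]
    rw [← hαe] at hsq
    obtain ⟨r, hr⟩ := hsq
    refine ⟨2 * r, ?_⟩
    linear_combination 4 * hr

theorem Fe_count {k : Type} [Field k] [Fintype k] (h6 : (6 : k) ≠ 0) {α β γ : k} (hα : α ≠ 0)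
    (hβ : β ≠ 0) (hγ : γ ≠ 0) :
    4 * (Finset.univ.filter (fun p : k × (k × k) =>
      ¬ IsSquare (4 * p.2.1 ^ 2 + 4 / (β * γ) * p.2.2 ^ 2) ∧
      IsSquare (α * (9 * p.1 ^ 2 - (4 * p.2.1 ^ 2 + 4 / (β * γ) * p.2.2 ^ 2))))).card ≤
      (Fintype.card k - 1) * (Fintype.card k + 1) ^ 2 := by
  have h2 : (2 : k) ≠ 0 := by
    intro h
    apply h6
    have : (6 : k) = 2 * 3 := by norm_num
    rw [this, h, zero_mul]
  have h4 : (4 : k) ≠ 0 := by
    have : (4 : k) = 2 * 2 := by norm_num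
    rw [this]
    exact mul_ne_zero h2 h2
  obtain ⟨W, hW⟩ : ∃ W : Finset (k × (k × k)), W = Finset.univ.filter (fun p : k × (k × k) =>
      ¬ IsSquare (4 * p.2.1 ^ 2 + 4 / (β * γ) * p.2.2 ^ 2) ∧
      IsSquare (α * (9 * p.1 ^ 2 - (4 * p.2.1 ^ 2 + 4 / (β * γ) * p.2.2 ^ 2)))) := ⟨_, rfl⟩
  rw [← hW]
  have hWm : ∀ p ∈ W, ¬ IsSquare (4 * p.2.1 ^ 2 + 4 / (β * γ) * p.2.2 ^ 2) ∧
      IsSquare (α * (9 * p.1 ^ 2 - (4 * p.2.1 ^ 2 + 4 / (β * γ) * p.2.2 ^ 2))) := by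
    intro p hp
    rw [hW, Finset.mem_filter] at hp
    exact hp.2
  have hfib := Finset.card_eq_sum_card_fiberwise
    (f := fun p : k × (k × k) => 4 * p.2.1 ^ 2 + 4 / (β * γ) * p.2.2 ^ 2) (s := W)
    (t := Finset.univ.filter (fun x : k => ¬ IsSquare x))
    (fun p hp => Finset.mem_coe.2 (Finset.mem_filter.2 ⟨Finset.mem_univ _,
      (hWm p (Finset.mem_coe.1 hp)).1⟩))
  have hb : ∀ D ∈ Finset.univ.filter (fun x : k => ¬ IsSquare x),
      2 * (W.filter (fun p : k × (k × k) => 4 * p.2.1 ^ 2 + 4 / (β * γ) * p.2.2 ^ 2 = D)).card ≤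
        (Fintype.card k + 1) ^ 2 := by
    intro D hD
    have hD' : ¬ IsSquare D := (Finset.mem_filter.1 hD).2
    have hD0 : D ≠ 0 := by
      rintro rfl
      exact hD' ⟨0, by rw [mul_zero]⟩
    have hsub : W.filter (fun p : k × (k × k) => 4 * p.2.1 ^ 2 + 4 / (β * γ) * p.2.2 ^ 2 = D) ⊆
        (Finset.univ.filter (fun t : k => IsSquare (α * (9 * t ^ 2 - D)))) ×ˢ
        (Finset.univ.filter (fun p : k × k => 4 * p.1 ^ 2 + 4 / (β * γ) * p.2 ^ 2 = D)) := by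
      intro p hp
      rw [Finset.mem_filter] at hp
      rw [Finset.mem_product, Finset.mem_filter, Finset.mem_filter]
      refine ⟨⟨Finset.mem_univ _, ?_⟩, Finset.mem_univ _, hp.2⟩
      have h1 := (hWm p hp.1).2
      rw [hp.2] at h1
      exact h1
    have h1 := Finset.card_le_card hsub
    rw [Finset.card_product] at h1
    have h3 := conic h2 (c := 4) (d := 4 / (β * γ)) (r := D) h4
      (div_ne_zero h4 (mul_ne_zero hβ hγ)) hD0
    have h5 := tcount h6 hα hD'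
    calc 2 * (W.filter (fun p : k × (k × k) =>
          4 * p.2.1 ^ 2 + 4 / (β * γ) * p.2.2 ^ 2 = D)).card ≤
          2 * ((Finset.univ.filter (fun t : k => IsSquare (α * (9 * t ^ 2 - D)))).card *
          (Finset.univ.filter (fun p : k × k => 4 * p.1 ^ 2 + 4 / (β * γ) * p.2 ^ 2 = D)).card) :=
          Nat.mul_le_mul_left 2 h1
      _ = (2 * (Finset.univ.filter (fun t : k => IsSquare (α * (9 * t ^ 2 - D)))).card) *
          (Finset.univ.filter (fun p : k × k => 4 * p.1 ^ 2 + 4 / (β * γ) * p.2 ^ 2 = D)).card := by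
          ring
      _ ≤ (Fintype.card k + 1) * (Fintype.card k + 1) := Nat.mul_le_mul h5 h3
      _ = (Fintype.card k + 1) ^ 2 := by ring
  have hn := nsq (k := k) h2
  have hsum : 2 * W.card ≤ (Finset.univ.filter (fun x : k => ¬ IsSquare x)).card *
      (Fintype.card k + 1) ^ 2 := by
    rw [hfib, Finset.mul_sum]
    refine (Finset.sum_le_sum hb).trans (le_of_eq ?_)
    rw [Finset.sum_const, smul_eq_mul]
  calc 4 * W.card = 2 * (2 * W.card) := by ring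
    _ ≤ 2 * ((Finset.univ.filter (fun x : k => ¬ IsSquare x)).card *
      (Fintype.card k + 1) ^ 2) := Nat.mul_le_mul_left 2 hsum
    _ = (2 * (Finset.univ.filter (fun x : k => ¬ IsSquare x)).card) *
      (Fintype.card k + 1) ^ 2 := by ring
    _ ≤ (Fintype.card k - 1) * (Fintype.card k + 1) ^ 2 :=
      Nat.mul_le_mul_right _ (by omega)

theorem fixed_e {k : Type} [Field k] [Fintype k] (h6 : (6 : k) ≠ 0)
    {M : Matrix (Fin 3) (Fin 3) k} (hM : M.IsSymm) (hd : M.det ≠ 0) (e : Fin 3 → k) :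
    4 * {N : Matrix (Fin 3) (Fin 3) k | N.IsSymm ∧ RsE M N e}.ncard ≤
      (Fintype.card k - 1) * (Fintype.card k + 1) ^ 2 := by
  have h2 : (2 : k) ≠ 0 := by
    intro h
    apply h6
    have : (6 : k) = 2 * 3 := by norm_num
    rw [this, h, zero_mul]
  by_cases he : e ⬝ᵥ M.mulVec e = 0
  · have h0 : {N : Matrix (Fin 3) (Fin 3) k | N.IsSymm ∧ RsE M N e} = ∅ := by
      rw [Set.eq_empty_iff_forall_notMem]
      rintro N ⟨-, a, b, t, -, -, -, h, -⟩
      exact h he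
    rw [h0, Set.ncard_empty, mul_zero]
    exact Nat.zero_le _
  obtain ⟨P, β, γ, hP, hβ, hγ, hcol, hdiag⟩ := diag_basis h2 hM hd he
  obtain ⟨α, hαe⟩ : ∃ α : k, α = e ⬝ᵥ M.mulVec e := ⟨_, rfl⟩
  rw [← hαe] at hdiag he
  have hPu : IsUnit P.det := Ne.isUnit hP
  have hPtu : IsUnit Pᵀ.det := by rwa [Matrix.det_transpose]
  have hinj : Set.InjOn (fun N : Matrix (Fin 3) (Fin 3) k => (((Pᵀ * N * P) 0 0 / α,
      (((Pᵀ * N * P) 1 1 / β - (Pᵀ * N * P) 2 2 / γ) / 2, (Pᵀ * N * P) 1 2)) : k × (k × k)))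
      {N : Matrix (Fin 3) (Fin 3) k | N.IsSymm ∧ RsE M N e} := by
    rintro N₁ ⟨hs₁, hr₁⟩ N₂ ⟨hs₂, hr₂⟩ heq
    obtain ⟨s₁, a₁, b₁, c₁, -, -⟩ := Fe_key h2 he hβ hγ hαe hcol hdiag hs₁ hr₁
    obtain ⟨s₂, a₂, b₂, c₂, -, -⟩ := Fe_key h2 he hβ hγ hαe hcol hdiag hs₂ hr₂
    have e1 : (Pᵀ * N₁ * P) 0 0 / α = (Pᵀ * N₂ * P) 0 0 / α := congrArg Prod.fst heq
    have e2 : ((Pᵀ * N₁ * P) 1 1 / β - (Pᵀ * N₁ * P) 2 2 / γ) / 2 =
        ((Pᵀ * N₂ * P) 1 1 / β - (Pᵀ * N₂ * P) 2 2 / γ) / 2 :=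
      congrArg (fun p : k × (k × k) => p.2.1) heq
    have e3 : (Pᵀ * N₁ * P) 1 2 = (Pᵀ * N₂ * P) 1 2 :=
      congrArg (fun p : k × (k × k) => p.2.2) heq
    have f0 : (Pᵀ * N₁ * P) 0 0 = (Pᵀ * N₂ * P) 0 0 := (div_left_inj' he).1 e1
    have e4 : (Pᵀ * N₁ * P) 1 1 / β - (Pᵀ * N₁ * P) 2 2 / γ =
        (Pᵀ * N₂ * P) 1 1 / β - (Pᵀ * N₂ * P) 2 2 / γ := (div_left_inj' h2).1 e2
    have e5 : (Pᵀ * N₁ * P) 1 1 / β + (Pᵀ * N₁ * P) 2 2 / γ =
        (Pᵀ * N₂ * P) 1 1 / β + (Pᵀ * N₂ * P) 2 2 / γ := by rw [c₁, c₂, e1]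
    have e6 : (Pᵀ * N₁ * P) 1 1 / β = (Pᵀ * N₂ * P) 1 1 / β := by
      apply mul_left_cancel₀ h2
      linear_combination e4 + e5
    have e7 : (Pᵀ * N₁ * P) 2 2 / γ = (Pᵀ * N₂ * P) 2 2 / γ := by
      apply mul_left_cancel₀ h2
      linear_combination e5 - e4
    have f1 : (Pᵀ * N₁ * P) 1 1 = (Pᵀ * N₂ * P) 1 1 := (div_left_inj' hβ).1 e6
    have f2 : (Pᵀ * N₁ * P) 2 2 = (Pᵀ * N₂ * P) 2 2 := (div_left_inj' hγ).1 e7
    have hmat : Pᵀ * N₁ * P = Pᵀ * N₂ * P := by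
      have g10 := (s₁.apply 0 1).trans (a₁.trans (a₂.symm.trans (s₂.apply 0 1).symm))
      have g20 := (s₁.apply 0 2).trans (b₁.trans (b₂.symm.trans (s₂.apply 0 2).symm))
      have g21 := (s₁.apply 1 2).trans (e3.trans (s₂.apply 1 2).symm)
      ext i j
      fin_cases i <;> fin_cases j
      · exact f0
      · exact a₁.trans a₂.symm
      · exact b₁.trans b₂.symm
      · exact g10
      · exact f1
      · exact e3
      · exact g20
      · exact g21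
      · exact f2
    have hrec : ∀ N : Matrix (Fin 3) (Fin 3) k, N = Pᵀ⁻¹ * (Pᵀ * N * P) * P⁻¹ := by
      intro N
      rw [Matrix.mul_assoc, Matrix.mul_assoc Pᵀ N P, Matrix.mul_assoc Pᵀ (N * P),
        Matrix.mul_assoc N P, Matrix.mul_nonsing_inv P hPu, Matrix.mul_one, ← Matrix.mul_assoc,
        Matrix.nonsing_inv_mul _ hPtu, Matrix.one_mul]
    rw [hrec N₁, hrec N₂, hmat]
  have hle := Set.ncard_le_ncard_of_injOn (t := ((Finset.univ.filter (fun p : k × (k × k) =>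
      ¬ IsSquare (4 * p.2.1 ^ 2 + 4 / (β * γ) * p.2.2 ^ 2) ∧
      IsSquare (α * (9 * p.1 ^ 2 - (4 * p.2.1 ^ 2 + 4 / (β * γ) * p.2.2 ^ 2)))) :
      Finset (k × (k × k))) : Set (k × (k × k)))) _ (fun N hN => ?_) hinj
      (Finset.finite_toSet _)
  · rw [Set.ncard_coe_finset] at hle
    exact (Nat.mul_le_mul_left 4 hle).trans (Fe_count h6 he hβ hγ)
  · obtain ⟨-, -, -, -, k1, k2⟩ := Fe_key h2 he hβ hγ hαe hcol hdiag hN.1 hN.2
    exact Finset.mem_coe.2 (Finset.mem_filter.2 ⟨Finset.mem_univ _, k1, k2⟩)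

end H54PP

end S_H54_PP_Fe

section S_H54_PP_Ff

set_option autoImplicit false
open scoped Classical

open H76PP
open scoped Matrix

namespace H54PP

theorem Ff_scale {k : Type} [Field k] {M N : Matrix (Fin 3) (Fin 3) k} {e : Fin 3 → k} {c : k}
    (hc : c ≠ 0) (h : RsE M N e) : RsE M N (c • e) := by
  obtain ⟨a, b, t, h1, h2, h3, h4, h5⟩ := h
  have h6 : (c • e) ⬝ᵥ M.mulVec (c • e) = c * (c * (e ⬝ᵥ M.mulVec e)) := by
    rw [Matrix.mulVec_smul, smul_dotProduct, dotProduct_smul, smul_eq_mul, smul_eq_mul]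
  refine ⟨a, b, t, h1, ?_, h3, ?_, ?_⟩
  · rw [Matrix.mulVec_smul, Matrix.mulVec_smul, h2, smul_comm]
  · rw [h6]
    exact mul_ne_zero hc (mul_ne_zero hc h4)
  · rw [h6]
    obtain ⟨s, hs⟩ := h5
    refine ⟨c * s, ?_⟩
    linear_combination c ^ 2 * hs

theorem Ff_card {k : Type} [Field k] [Fintype k] :
    (Finset.univ.filter (fun e : Fin 3 → k => e ≠ 0)).card = Fintype.card k ^ 3 - 1 := by
  rw [Finset.filter_ne', Finset.card_erase_of_mem (Finset.mem_univ _), Finset.card_univ,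
    Fintype.card_fun, Fintype.card_fin]

theorem Ff_card1 {k : Type} [Field k] [Fintype k] :
    (Finset.univ.filter (fun e : k => e ≠ 0)).card = Fintype.card k - 1 := by
  rw [Finset.filter_ne', Finset.card_erase_of_mem (Finset.mem_univ _), Finset.card_univ]

theorem Rs_count {k : Type} [Field k] [Fintype k] (h6 : (6 : k) ≠ 0)
    {M : Matrix (Fin 3) (Fin 3) k} (hM : M.IsSymm) (hd : M.det ≠ 0) :
    4 * {N : Matrix (Fin 3) (Fin 3) k | N.IsSymm ∧ Rs M N}.ncard ≤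
      Fintype.card k ^ 3 * (Fintype.card k + 1) ^ 2 := by
  obtain ⟨S, hS⟩ : ∃ S : Finset (Matrix (Fin 3) (Fin 3) k),
      S = Finset.univ.filter (fun N => N.IsSymm ∧ Rs M N) := ⟨_, rfl⟩
  have hSc : {N : Matrix (Fin 3) (Fin 3) k | N.IsSymm ∧ Rs M N}.ncard = S.card := by
    rw [← Set.ncard_coe_finset]
    congr 1
    ext N
    simp [hS]
  rw [hSc]
  obtain ⟨q, hq⟩ : ∃ q : ℕ, q = Fintype.card k := ⟨_, rfl⟩
  have hq2 : 2 ≤ q := by
    rw [hq]
    exact Fintype.one_lt_card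
  have key := Finset.card_mul_le_card_mul (s := S)
    (t := Finset.univ.filter (fun e : Fin 3 → k => e ≠ 0))
    (fun N e => N.IsSymm ∧ RsE M N e) (m := q - 1) (n := ((q - 1) * (q + 1) ^ 2) / 4) ?_ ?_
  · rw [Ff_card, ← hq] at key
    rw [← hq]
    have h1 : 4 * ((q - 1) * (q + 1) ^ 2 / 4) ≤ (q - 1) * (q + 1) ^ 2 := Nat.mul_div_le _ _
    have h2 : (q - 1) * (4 * S.card) ≤ (q - 1) * ((q ^ 3 - 1) * (q + 1) ^ 2) := by
      calc (q - 1) * (4 * S.card) = 4 * (S.card * (q - 1)) := by ring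
        _ ≤ 4 * ((q ^ 3 - 1) * ((q - 1) * (q + 1) ^ 2 / 4)) := Nat.mul_le_mul_left _ key
        _ = (q ^ 3 - 1) * (4 * ((q - 1) * (q + 1) ^ 2 / 4)) := by ring
        _ ≤ (q ^ 3 - 1) * ((q - 1) * (q + 1) ^ 2) := Nat.mul_le_mul_left _ h1
        _ = (q - 1) * ((q ^ 3 - 1) * (q + 1) ^ 2) := by ring
    have h3 := Nat.le_of_mul_le_mul_left h2 (by omega : 0 < q - 1)
    exact h3.trans (Nat.mul_le_mul_right _ (Nat.sub_le _ _))
  · intro N hN
    rw [hS, Finset.mem_filter] at hN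
    obtain ⟨-, hN1, a, b, t, e, he, h1, h2, h3, h4, h5⟩ := hN
    have hR : RsE M N e := ⟨a, b, t, h1, h2, h3, h4, h5⟩
    have h6 : ((Finset.univ.filter (fun c : k => c ≠ 0)).image (fun c => c • e)).card = q - 1 := by
      rw [Finset.card_image_of_injective, Ff_card1, hq]
      intro c d hcd
      obtain ⟨i, hi⟩ : ∃ i, e i ≠ 0 := by
        by_contra hne
        push Not at hne
        exact he (funext hne)
      have h7 := congrFun hcd i
      simp only [Pi.smul_apply, smul_eq_mul] at h7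
      exact mul_right_cancel₀ hi h7
    rw [← h6]
    refine Finset.card_le_card ?_
    intro f hf
    rw [Finset.mem_image] at hf
    obtain ⟨c, hc, rfl⟩ := hf
    rw [Finset.mem_filter] at hc
    rw [Finset.mem_bipartiteAbove, Finset.mem_filter]
    exact ⟨⟨Finset.mem_univ _, smul_ne_zero hc.2 he⟩, hN1, Ff_scale hc.2 hR⟩
  · intro e he
    rw [Nat.le_div_iff_mul_le (by norm_num), mul_comm, hq]
    refine le_trans (Nat.mul_le_mul_left 4 ?_) (fixed_e h6 hM hd e)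
    rw [← Set.ncard_coe_finset]
    refine Set.ncard_le_ncard ?_ (Set.toFinite _)
    intro N hN
    rw [Finset.mem_coe, Finset.mem_bipartiteBelow] at hN
    exact hN.2

end H54PP

end S_H54_PP_Ff

section S_H54_PP_Bk

set_option autoImplicit false
open scoped Classical

namespace H54PP

theorem Bk_geom (n : ℕ) : ∑ j ∈ Finset.range n, (1 / 2 : ℝ) ^ j = 2 - 2 * (1 / 2 : ℝ) ^ n := by
  induction n with
  | zero => simp
  | succ n ih =>
    rw [Finset.sum_range_succ, ih, pow_succ]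
    ring

theorem Bk_geom_le (n : ℕ) : ∑ j ∈ Finset.range n, (1 / 2 : ℝ) ^ j ≤ 2 := by
  rw [Bk_geom]
  have : (0 : ℝ) ≤ (1 / 2 : ℝ) ^ n := by positivity
  linarith

theorem Bk_term {n : ℕ} (hn : 1 ≤ n) {c X Q : ℝ} (hc : 0 < c) (hc1 : c ≤ 1 / 4) (hQ : 0 ≤ Q)
    (hQX : Q ^ 2 ≤ (2 * X) ^ n) {J : ℕ} (hJ : 1 ≤ 2 * X * (c / 2 ^ J) ^ 2) {j : ℕ} (hj : j ≤ J) :
    (c / 2 ^ j) ^ n * (1 + Q / (2 * X * (c / 2 ^ j) ^ 2) ^ n) ≤
      1 / 4 * (1 / 2 : ℝ) ^ j + (1 / 2 : ℝ) ^ (J - j) := by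
  have hX : 0 < 2 * X := by
    by_contra h
    have h1 : 2 * X * (c / 2 ^ J) ^ 2 ≤ 0 := mul_nonpos_of_nonpos_of_nonneg (not_lt.1 h) (by positivity)
    linarith
  obtain ⟨r, hr⟩ : ∃ r : ℝ, r = Real.sqrt (2 * X) := ⟨_, rfl⟩
  have hr0 : 0 < r := by rw [hr]; exact Real.sqrt_pos.2 hX
  have hr2 : r ^ 2 = 2 * X := by rw [hr]; exact Real.sq_sqrt hX.le
  have hQr : Q ≤ r ^ n := by
    have h1 : Q ^ 2 ≤ (r ^ n) ^ 2 := by
      rw [← pow_mul, mul_comm n 2, pow_mul, hr2]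
      exact hQX
    exact (pow_le_pow_iff_left₀ hQ (by positivity) two_ne_zero).1 h1
  set τ : ℝ := c / 2 ^ j with hτ
  have hτ0 : 0 < τ := by positivity
  have h2j : (1 : ℝ) ≤ 2 ^ j := one_le_pow₀ (by norm_num)
  have hτc : τ = c * (1 / 2 : ℝ) ^ j := by
    rw [hτ, one_div, inv_pow]
    rfl
  have hτ1 : τ ≤ 1 := (div_le_self hc.le h2j).trans (by linarith)
  have hy : 1 ≤ r * (c / 2 ^ J) := by
    have h1 : (1 : ℝ) ^ 2 ≤ (r * (c / 2 ^ J)) ^ 2 := by
      rw [mul_pow, hr2, one_pow]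
      exact hJ
    exact (pow_le_pow_iff_left₀ zero_le_one (by positivity) two_ne_zero).1 h1
  have hyj : 2 ^ (J - j) ≤ r * τ := by
    have h1 : r * τ = 2 ^ (J - j) * (r * (c / 2 ^ J)) := by
      have h2 : (2 : ℝ) ^ J = 2 ^ (J - j) * 2 ^ j := by
        rw [← pow_add]
        congr 1
        omega
      rw [hτ, h2]
      field_simp
    rw [h1]
    exact le_mul_of_one_le_right (by positivity) hy
  have hy1 : 1 ≤ r * τ := (one_le_pow₀ (by norm_num : (1 : ℝ) ≤ 2)).trans hyj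
  have h1 : τ ^ n ≤ 1 / 4 * (1 / 2 : ℝ) ^ j := by
    have h2 : τ ^ n ≤ τ ^ 1 := pow_le_pow_of_le_one hτ0.le hτ1 hn
    rw [pow_one] at h2
    refine h2.trans ?_
    rw [hτc]
    exact mul_le_mul_of_nonneg_right hc1 (by positivity)
  have h3 : τ ^ n * (Q / (2 * X * τ ^ 2) ^ n) ≤ (1 / 2 : ℝ) ^ (J - j) := by
    have e1 : (2 * X * τ ^ 2) ^ n = ((r * τ) ^ n) ^ 2 := by
      rw [← hr2]
      ring
    rw [e1]
    have e2 : τ ^ n * (Q / ((r * τ) ^ n) ^ 2) ≤ τ ^ n * (r ^ n / ((r * τ) ^ n) ^ 2) := by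
      gcongr
    have e3 : τ ^ n * (r ^ n / ((r * τ) ^ n) ^ 2) = 1 / (r * τ) ^ n := by
      have : (r * τ) ^ n ≠ 0 := by positivity
      rw [mul_div_assoc', ← mul_pow, mul_comm τ r]
      field_simp
    have e4 : 1 / (r * τ) ^ n ≤ 1 / (r * τ) := by
      refine one_div_le_one_div_of_le (by positivity) ?_
      exact le_self_pow₀ hy1 (by omega)
    have e5 : 1 / (r * τ) ≤ 1 / 2 ^ (J - j) := one_div_le_one_div_of_le (by positivity) hyj
    have e6 : (1 : ℝ) / 2 ^ (J - j) = (1 / 2 : ℝ) ^ (J - j) := by rw [one_div_pow]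
    rw [← e6]
    exact e2.trans (e3.le.trans (e4.trans e5))
  calc τ ^ n * (1 + Q / (2 * X * τ ^ 2) ^ n) = τ ^ n + τ ^ n * (Q / (2 * X * τ ^ 2) ^ n) := by ring
    _ ≤ _ := add_le_add h1 h3

theorem dyadic {n : ℕ} (hn : 1 ≤ n) {c X Q : ℝ} (hc : 0 < c) (hc1 : c ≤ 1 / 4) (hQ : 0 ≤ Q)
    (hQX : Q ^ 2 ≤ (2 * X) ^ n) {J : ℕ} (hJ : 1 ≤ 2 * X * (c / 2 ^ J) ^ 2) :
    ∑ j ∈ Finset.range (J + 1),
      (c / 2 ^ j) ^ n * (1 + Q / (2 * X * (c / 2 ^ j) ^ 2) ^ n) ≤ 3 := by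
  calc ∑ j ∈ Finset.range (J + 1),
      (c / 2 ^ j) ^ n * (1 + Q / (2 * X * (c / 2 ^ j) ^ 2) ^ n)
      ≤ ∑ j ∈ Finset.range (J + 1), (1 / 4 * (1 / 2 : ℝ) ^ j + (1 / 2 : ℝ) ^ (J - j)) :=
        Finset.sum_le_sum fun j hj =>
          Bk_term hn hc hc1 hQ hQX hJ (Nat.lt_succ_iff.1 (Finset.mem_range.1 hj))
    _ = 1 / 4 * ∑ j ∈ Finset.range (J + 1), (1 / 2 : ℝ) ^ j +
        ∑ j ∈ Finset.range (J + 1), (1 / 2 : ℝ) ^ (J - j) := by
        rw [Finset.sum_add_distrib, Finset.mul_sum]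
    _ = 1 / 4 * ∑ j ∈ Finset.range (J + 1), (1 / 2 : ℝ) ^ j +
        ∑ j ∈ Finset.range (J + 1), (1 / 2 : ℝ) ^ j := by
        congr 1
        have := Finset.sum_range_reflect (fun j => (1 / 2 : ℝ) ^ j) (J + 1)
        rw [← this]
        refine Finset.sum_congr rfl fun j _ => ?_
        congr 1
    _ ≤ 3 := by
        have := Bk_geom_le (J + 1)
        linarith

theorem exists_dyadic {c x : ℝ} (hc : 0 < c) (hx : 0 < x) (hxc : x < c) :
    ∃ j : ℕ, (c / 2 ^ j) / 2 < x ∧ x ≤ c / 2 ^ j := by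
  have hex : ∃ j : ℕ, (c / 2 ^ j) / 2 < x := by
    obtain ⟨j, hj⟩ := pow_unbounded_of_one_lt (c / x) (by norm_num : (1 : ℝ) < 2)
    refine ⟨j, ?_⟩
    have h1 : c / 2 ^ j < x := by
      rw [div_lt_iff₀ (by positivity)]
      rw [div_lt_iff₀ hx] at hj
      linarith
    have h2 : 0 < c / 2 ^ j := by positivity
    linarith
  refine ⟨Nat.find hex, Nat.find_spec hex, ?_⟩
  rcases Nat.eq_zero_or_pos (Nat.find hex) with h | h
  · rw [h, pow_zero, div_one]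
    exact hxc.le
  · obtain ⟨k, hk⟩ : ∃ k, Nat.find hex = k + 1 := ⟨Nat.find hex - 1, by omega⟩
    have h1 := Nat.find_min hex (m := k) (by omega)
    rw [hk, pow_succ, ← div_div]
    exact not_lt.1 h1

theorem exists_last {c X : ℝ} (hc : 0 < c) (h0 : 1 ≤ 2 * X * c ^ 2) :
    ∃ J : ℕ, 1 ≤ 2 * X * (c / 2 ^ J) ^ 2 ∧ ∀ j : ℕ, 1 ≤ 2 * X * (c / 2 ^ j) ^ 2 → j ≤ J := by
  obtain ⟨N, hN⟩ := pow_unbounded_of_one_lt (2 * X * c ^ 2) (by norm_num : (1 : ℝ) < 4)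
  have hb : ∀ j : ℕ, 1 ≤ 2 * X * (c / 2 ^ j) ^ 2 → j ≤ N := by
    intro j hj
    have h1 : 2 * X * (c / 2 ^ j) ^ 2 = 2 * X * c ^ 2 / 4 ^ j := by
      have : (4 : ℝ) ^ j = (2 ^ j) ^ 2 := by
        rw [← pow_mul, mul_comm, pow_mul]
        norm_num
      rw [this, div_pow, mul_div_assoc]
    rw [h1, le_div_iff₀ (by positivity), one_mul] at hj
    have h2 : (4 : ℝ) ^ j < 4 ^ N := hj.trans_lt hN
    exact ((pow_lt_pow_iff_right₀ (by norm_num : (1 : ℝ) < 4)).1 h2).le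
  refine ⟨Nat.findGreatest (fun j => 1 ≤ 2 * X * (c / 2 ^ j) ^ 2) N, ?_, ?_⟩
  · exact Nat.findGreatest_spec (P := fun j => 1 ≤ 2 * X * (c / 2 ^ j) ^ 2) (Nat.zero_le N)
      (by simpa using h0)
  · intro j hj
    exact Nat.le_findGreatest (hb j hj) hj

end H54PP

end S_H54_PP_Bk
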