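import Mathlib
import Pool.Agent.H76.PN.A1
import Pool.Agent.H76.PN.A3
import Pool.Agent.H76.PN.B2

/-! This file joins several modules to save build time (Z1). -/

set_option autoImplicit false

section S_H76_PP_Za

set_option autoImplicit false
set_option linter.unusedSectionVars false
open scoped Classical

open WithZero NumberField IsDedekindDomain H38RT
open H38T1 (SC sc scu rep eo la si Pri OddP tp unif)

namespace H76PP

theorem Cub.twist {K L : Type} [Field K] [Field L] [Algebra K L] {A B : K} {θ : L}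
    (h : Cub K L A B θ) {D : K} (hD : D ≠ 0) :
    Cub K L (D ^ 2 * A) (D ^ 3 * B) (algebraMap K L D * θ) := by
  have hr := h.root
  have hD' : algebraMap K L D ≠ 0 := (map_ne_zero _).2 hD
  refine ⟨?_, ?_, ?_⟩
  · simp only [map_mul, map_pow]
    linear_combination (algebraMap K L D) ^ 3 * hr
  · intro c₀ c₁ c₂ hc
    have h1 : algebraMap K L c₀ + algebraMap K L (c₁ * D) * θ +
        algebraMap K L (c₂ * D ^ 2) * θ ^ 2 = 0 := by
      simp only [map_mul, map_pow]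
      linear_combination hc
    obtain ⟨h0, h2, h3⟩ := h.li _ _ _ h1
    refine ⟨h0, ?_, ?_⟩
    · exact (mul_eq_zero.1 h2).resolve_right hD
    · exact (mul_eq_zero.1 h3).resolve_right (pow_ne_zero 2 hD)
  · intro x
    obtain ⟨c₀, c₁, c₂, hx⟩ := h.sp x
    refine ⟨c₀, c₁ / D, c₂ / D ^ 2, ?_⟩
    rw [hx]
    simp only [map_div₀, map_pow]
    field_simp

theorem ratio_le {q : ℕ} (hq : 40 ≤ q) :
    (1 + 1 / (q : ℝ)) ^ 2 / 4 ≤ 0.55 * (1 / 2 * (1 - 1 / (q : ℝ))) := by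
  have hq' : (40 : ℝ) ≤ (q : ℝ) := by exact_mod_cast hq
  have hu : 1 / (q : ℝ) ≤ 1 / 40 := one_div_le_one_div_of_le (by norm_num) hq'
  have hu0 : 0 ≤ 1 / (q : ℝ) := by positivity
  set u := 1 / (q : ℝ)
  nlinarith

theorem prod_ratio_le {K : Type} [Field K] [NumberField K]
    {T : Finset (HeightOneSpectrum (𝓞 K))} (hT : ∀ v ∈ T, 40 ≤ Nv v) :
    (∏ v ∈ T, ((1 + 1 / (Nv v : ℝ)) ^ 2 / 4)) ≤
      0.55 ^ T.card * ∏ v ∈ T, (1 / 2 * (1 - 1 / (Nv v : ℝ))) := by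
  rw [← Finset.prod_const, ← Finset.prod_mul_distrib]
  refine Finset.prod_le_prod (fun v _ => by positivity) fun v hv => ratio_le (hT v hv)

theorem fin_norm (K : Type) [Field K] [NumberField K] (N : ℕ) :
    {v : HeightOneSpectrum (𝓞 K) | ¬ N ≤ Nv v}.Finite := by
  have h := Ideal.finite_setOf_absNorm_le (S := 𝓞 K) N
  refine Set.Finite.of_finite_image (f := fun v : HeightOneSpectrum (𝓞 K) => v.asIdeal)
    (h.subset ?_) ?_
  · rintro _ ⟨v, hv, rfl⟩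
    exact (not_le.1 hv).le
  · intro v _ w _ hvw
    exact HeightOneSpectrum.ext hvw

theorem exists_T {K : Type} [Field K] [NumberField K] {Z : Set (HeightOneSpectrum (𝓞 K))}
    (hZ : Z.Infinite) (N k : ℕ) : ∃ T : Finset (HeightOneSpectrum (𝓞 K)),
      (∀ v ∈ T, v ∈ Z ∧ N ≤ Nv v) ∧ T.card = k := by
  have h1 : (Z \ {v : HeightOneSpectrum (𝓞 K) | ¬ N ≤ Nv v}).Infinite :=
    hZ.diff (fin_norm K N)
  obtain ⟨T, hT, hk⟩ := h1.exists_subset_card_eq k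
  refine ⟨T, fun v hv => ?_, hk⟩
  obtain ⟨h2, h3⟩ := hT hv
  exact ⟨h2, not_not.1 h3⟩

theorem bx_int_mul {K : Type} [Field K] [NumberField K] {D A : 𝓞 K} {κ X : ℝ}
    (hD : D ∈ bx K κ) (hA : A ∈ bx K (X ^ 2)) : D ^ 2 * A ∈ bx K ((κ * X) ^ 2) := by
  have h := bx_mul (bx_mul hD hD) hA
  rwa [← pow_two, ← pow_two, ← mul_pow] at h

theorem bx_int_mul3 {K : Type} [Field K] [NumberField K] {D A : 𝓞 K} {κ X : ℝ}
    (hD : D ∈ bx K κ) (hA : A ∈ bx K (X ^ 3)) : D ^ 3 * A ∈ bx K ((κ * X) ^ 3) := by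
  have h := bx_mul (bx_mul (bx_mul hD hD) hD) hA
  have e1 : D * D * D = D ^ 3 := by ring
  have e2 : κ * κ * κ * X ^ 3 = (κ * X) ^ 3 := by ring
  rwa [e1, e2] at h

end H76PP

end S_H76_PP_Za

section S_H76_PP_Zb

set_option autoImplicit false
set_option linter.unusedSectionVars false
open scoped Classical

open WithZero NumberField IsDedekindDomain H38RT
open H38T1 (SC sc scu rep eo la si Pri OddP tp unif)

namespace H76PP

/-- The curve attached to `p` is elliptic, has finitely many points and no two-primary Tate-Shafarevich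
group. -/
def GoodE (K : Type) [Field K] [NumberField K] (p : 𝓞 K × 𝓞 K) : Prop :=
  4 * p.1 ^ 3 + 27 * p.2 ^ 2 ≠ 0 ∧
    Finite (⟨0, 0, 0, (p.1 : K), (p.2 : K)⟩ : WeierstrassCurve K).toAffine.Point ∧
    Pool.Agent.H10.Sha2Trivial K (⟨0, 0, 0, (p.1 : K), (p.2 : K)⟩ : WeierstrassCurve K)

/-- The statements of the blocks. -/
structure Blocks (K : Type) [Field K] [NumberField K] : Prop where
  fin : ∀ X : ℝ, (Bx K X).Finite
  up : ∃ C : ℝ, 0 < C ∧ ∀ X : ℝ, 1 ≤ X →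
    ((Bx K X).ncard : ℝ) ≤ C * X ^ (5 * Module.finrank ℚ K)
  fam : ∀ q₀ : HeightOneSpectrum (𝓞 K), (6 : 𝓞 K) ∉ q₀.asIdeal →
    ∃ c : ℝ, 0 < c ∧ ∀ T : Finset (HeightOneSpectrum (𝓞 K)),
      (∀ v ∈ T, v ≠ q₀ ∧ (6 : 𝓞 K) ∉ v.asIdeal) → ∃ X₀ : ℝ, ∀ X : ℝ, X₀ ≤ X →
        c * (∏ v ∈ T, (1 / 2 * (1 - 1 / (Nv v : ℝ)))) * X ^ (5 * Module.finrank ℚ K) ≤
          ({p : 𝓞 K × 𝓞 K | p ∈ Bx K X ∧ Fam q₀ T p.1 p.2}.ncard : ℝ)
  aux : ∃ q₀ : HeightOneSpectrum (𝓞 K), (6 : 𝓞 K) ∉ q₀.asIdeal ∧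
    {p : HeightOneSpectrum (𝓞 K) | AuxP q₀ p}.Infinite
  tw : ∀ {q₀ : HeightOneSpectrum (𝓞 K)} {J : Finset (HeightOneSpectrum (𝓞 K))},
    (∀ p ∈ J, AuxP q₀ p) → ∃ D : 𝓞 K, TwD q₀ J (D : K)
  bad : ∃ (C : ℝ) (N₀ : ℕ), 0 < C ∧
    ∀ (q₀ : HeightOneSpectrum (𝓞 K)) (T : Finset (HeightOneSpectrum (𝓞 K))),
      (∀ v ∈ T, N₀ ≤ Nv v ∧ (6 : 𝓞 K) ∉ v.asIdeal) → ∃ X₀ : ℝ, ∀ X : ℝ, X₀ ≤ X →
        ({p : 𝓞 K × 𝓞 K | p ∈ Bx K X ∧ Fam q₀ T p.1 p.2 ∧ BadP T p.1 p.2}.ncard : ℝ) ≤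
          C * (∏ v ∈ T, ((1 + 1 / (Nv v : ℝ)) ^ 2 / 4)) * X ^ (5 * Module.finrank ℚ K)
  sel : ∀ {q₀ : HeightOneSpectrum (𝓞 K)} {T : Finset (HeightOneSpectrum (𝓞 K))},
    (6 : 𝓞 K) ∉ q₀.asIdeal → (∀ v ∈ T, v ≠ q₀ ∧ (6 : 𝓞 K) ∉ v.asIdeal) → ∀ {A B : 𝓞 K},
    Fam q₀ T A B → ¬ BadP T A B → ∀ {L : Type} [Field L] [NumberField L] [Algebra K L] {θ : L},
    Cub K L (A : K) (B : K) θ → ∃ J ⊆ T, ∀ D : K, TwD q₀ J D →
      SelTriv K L (D ^ 2 * A) (D ^ 3 * B) (algebraMap K L D * θ)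
  desc : ∀ {L : Type} [Field L] [NumberField L] [Algebra K L] {a b : K} {θ : L},
    Cub K L a b θ → SelTriv K L a b θ →
    Finite (⟨0, 0, 0, a, b⟩ : WeierstrassCurve K).toAffine.Point ∧
      Pool.Agent.H10.Sha2Trivial K (⟨0, 0, 0, a, b⟩ : WeierstrassCurve K)
  cub : ∀ {A B : K}, (∀ t : K, t ^ 3 + A * t + B ≠ 0) →
    ∃ (L : Type) (_ : Field L) (_ : NumberField L) (_ : Algebra K L) (θ : L), Cub K L A B θ
  nr : ∀ {q₀ : HeightOneSpectrum (𝓞 K)} {T : Finset (HeightOneSpectrum (𝓞 K))} {A B : 𝓞 K},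
    Fam q₀ T A B → ∀ x : K, x ^ 3 + (A : K) * x + (B : K) ≠ 0
  dn : ∀ {q₀ : HeightOneSpectrum (𝓞 K)} {T : Finset (HeightOneSpectrum (𝓞 K))} {A B : 𝓞 K},
    Fam q₀ T A B → (4 * (A : K) ^ 3 + 27 * (B : K) ^ 2) ≠ 0

variable {K : Type} [Field K] [NumberField K]

/-- A member of the family which is not bad has a good twist. -/
theorem Blocks.good (H : Blocks K) {q₀ : HeightOneSpectrum (𝓞 K)}
    {T : Finset (HeightOneSpectrum (𝓞 K))} (h6 : (6 : 𝓞 K) ∉ q₀.asIdeal)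
    (hT : ∀ v ∈ T, v ≠ q₀ ∧ (6 : 𝓞 K) ∉ v.asIdeal) {A B : 𝓞 K} (hF : Fam q₀ T A B)
    (hB : ¬ BadP T A B) : ∃ J ⊆ T, ∀ D : 𝓞 K, TwD q₀ J (D : K) →
      GoodE K (D ^ 2 * A, D ^ 3 * B) := by
  obtain ⟨L, _, _, _, θ, hL⟩ := H.cub (H.nr hF)
  obtain ⟨J, hJ, hsel⟩ := H.sel h6 hT hF hB hL
  refine ⟨J, hJ, fun D hD => ?_⟩
  have hD0 : (D : K) ≠ 0 := hD.ne
  have h1 := hsel (D : K) hD
  obtain ⟨h2, h3⟩ := H.desc (hL.twist hD0) h1
  have e1 : ((D ^ 2 * A : 𝓞 K) : K) = (D : K) ^ 2 * (A : K) := by push_cast; rfl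
  have e2 : ((D ^ 3 * B : 𝓞 K) : K) = (D : K) ^ 3 * (B : K) := by push_cast; rfl
  refine ⟨?_, ?_, ?_⟩
  · intro h4
    have h5 : (4 * ((D ^ 2 * A : 𝓞 K) : K) ^ 3 + 27 * ((D ^ 3 * B : 𝓞 K) : K) ^ 2) = 0 := by
      have h6 := congrArg (algebraMap (𝓞 K) K) h4
      simp only [map_add, map_mul, map_pow, map_ofNat, map_zero] at h6 ⊢
      exact h6
    rw [e1, e2] at h5
    have h6 : (D : K) ^ 6 * (4 * (A : K) ^ 3 + 27 * (B : K) ^ 2) = 0 := by
      linear_combination h5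
    exact (mul_ne_zero (pow_ne_zero 6 hD0) (H.dn hF)) h6
  · change Finite (⟨0, 0, 0, ((D ^ 2 * A : 𝓞 K) : K), ((D ^ 3 * B : 𝓞 K) : K)⟩ :
      WeierstrassCurve K).toAffine.Point
    rw [e1, e2]
    exact h2
  · change Pool.Agent.H10.Sha2Trivial K (⟨0, 0, 0, ((D ^ 2 * A : 𝓞 K) : K),
      ((D ^ 3 * B : 𝓞 K) : K)⟩ : WeierstrassCurve K)
    rw [e1, e2]
    exact h3

/-- The auxiliary primes and the number of pairs in the family which are not bad. -/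
theorem Blocks.main (H : Blocks K) : ∃ (q₀ : HeightOneSpectrum (𝓞 K))
    (T : Finset (HeightOneSpectrum (𝓞 K))) (c X₀ : ℝ), (6 : 𝓞 K) ∉ q₀.asIdeal ∧
      (∀ v ∈ T, AuxP q₀ v) ∧ 0 < c ∧ ∀ X : ℝ, X₀ ≤ X →
        c * X ^ (5 * Module.finrank ℚ K) ≤
          ({p : 𝓞 K × 𝓞 K | p ∈ Bx K X ∧ Fam q₀ T p.1 p.2 ∧ ¬ BadP T p.1 p.2}.ncard : ℝ) := by
  obtain ⟨q₀, h6, hinf⟩ := H.aux
  obtain ⟨C₄, N₀, hC, hbad⟩ := H.bad
  obtain ⟨c₃, hc₃, hfam⟩ := H.fam q₀ h6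
  -- the number of auxiliary primes
  obtain ⟨k, hk⟩ := exists_pow_lt_of_lt_one (x := c₃ / (2 * C₄)) (y := (0.55 : ℝ))
    (by positivity) (by norm_num)
  obtain ⟨T, hT, hTk⟩ := exists_T hinf (max N₀ 40) k
  obtain ⟨X₁, h1⟩ := hfam T (fun v hv => ⟨(hT v hv).1.2.1, (hT v hv).1.1⟩)
  obtain ⟨X₂, h2⟩ := hbad q₀ T (fun v hv => ⟨(le_max_left _ _).trans (hT v hv).2, (hT v hv).1.1⟩)
  set P : ℝ := ∏ v ∈ T, (1 / 2 * (1 - 1 / (Nv v : ℝ))) with hP
  have hPpos : 0 < P := by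
    refine Finset.prod_pos fun v hv => ?_
    have h3 : 40 ≤ Nv v := (le_max_right _ _).trans (hT v hv).2
    have h4 : (40 : ℝ) ≤ (Nv v : ℝ) := by exact_mod_cast h3
    have h5 : 1 / (Nv v : ℝ) ≤ 1 / 40 := one_div_le_one_div_of_le (by norm_num) h4
    nlinarith
  refine ⟨q₀, T, c₃ * P / 2, max (max X₁ X₂) 0, h6, fun v hv => (hT v hv).1, by positivity, ?_⟩
  intro X hX
  have hX1 : X₁ ≤ X := (le_max_left _ _).trans ((le_max_left _ _).trans hX)
  have hX2 : X₂ ≤ X := (le_max_right _ _).trans ((le_max_left _ _).trans hX)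
  have hX0 : 0 ≤ X := (le_max_right _ _).trans hX
  have e1 := h1 X hX1
  have e2 := h2 X hX2
  have e3 := prod_ratio_le (T := T) (fun v hv => (le_max_right _ _).trans (hT v hv).2)
  rw [hTk, ← hP] at e3
  have hXp : 0 ≤ X ^ (5 * Module.finrank ℚ K) := by positivity
  have hk' : C₄ * 0.55 ^ k ≤ c₃ / 2 := by
    have h7 : C₄ * 0.55 ^ k ≤ C₄ * (c₃ / (2 * C₄)) := mul_le_mul_of_nonneg_left hk.le hC.le
    have h8 : C₄ * (c₃ / (2 * C₄)) = c₃ / 2 := by field_simp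
    rwa [h8] at h7
  have e4 : C₄ * (∏ v ∈ T, ((1 + 1 / (Nv v : ℝ)) ^ 2 / 4)) * X ^ (5 * Module.finrank ℚ K) ≤
      c₃ / 2 * P * X ^ (5 * Module.finrank ℚ K) := by
    refine mul_le_mul_of_nonneg_right ?_ hXp
    calc C₄ * (∏ v ∈ T, ((1 + 1 / (Nv v : ℝ)) ^ 2 / 4)) ≤ C₄ * (0.55 ^ k * P) :=
          mul_le_mul_of_nonneg_left e3 hC.le
      _ = (C₄ * 0.55 ^ k) * P := by ring
      _ ≤ c₃ / 2 * P := mul_le_mul_of_nonneg_right hk' hPpos.le
  -- the family is the union of the bad and the good pairs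
  have hfin : {p : 𝓞 K × 𝓞 K | p ∈ Bx K X ∧ Fam q₀ T p.1 p.2 ∧ ¬ BadP T p.1 p.2}.Finite :=
    (H.fin X).subset fun p hp => hp.1
  have hfinb : {p : 𝓞 K × 𝓞 K | p ∈ Bx K X ∧ Fam q₀ T p.1 p.2 ∧ BadP T p.1 p.2}.Finite :=
    (H.fin X).subset fun p hp => hp.1
  have e5 : ({p : 𝓞 K × 𝓞 K | p ∈ Bx K X ∧ Fam q₀ T p.1 p.2}.ncard : ℝ) ≤
      ({p : 𝓞 K × 𝓞 K | p ∈ Bx K X ∧ Fam q₀ T p.1 p.2 ∧ BadP T p.1 p.2}.ncard : ℝ) +
      ({p : 𝓞 K × 𝓞 K | p ∈ Bx K X ∧ Fam q₀ T p.1 p.2 ∧ ¬ BadP T p.1 p.2}.ncard : ℝ) := by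
    have h9 : {p : 𝓞 K × 𝓞 K | p ∈ Bx K X ∧ Fam q₀ T p.1 p.2} ⊆
        {p : 𝓞 K × 𝓞 K | p ∈ Bx K X ∧ Fam q₀ T p.1 p.2 ∧ BadP T p.1 p.2} ∪
        {p : 𝓞 K × 𝓞 K | p ∈ Bx K X ∧ Fam q₀ T p.1 p.2 ∧ ¬ BadP T p.1 p.2} := by
      rintro p ⟨h10, h11⟩
      by_cases h12 : BadP T p.1 p.2
      · exact Or.inl ⟨h10, h11, h12⟩
      · exact Or.inr ⟨h10, h11, h12⟩
    have h13 := (Set.ncard_le_ncard h9 (hfinb.union hfin)).trans (Set.ncard_union_le _ _)
    exact_mod_cast h13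
  have e6 : c₃ * P * X ^ (5 * Module.finrank ℚ K) =
      c₃ * P / 2 * X ^ (5 * Module.finrank ℚ K) + c₃ / 2 * P * X ^ (5 * Module.finrank ℚ K) := by
    ring
  linarith

/-- The final theorem from the statements of the blocks. -/
theorem Blocks.result (H : Blocks K) : ∃ (c X₀ : ℝ), 0 < c ∧ ∀ X : ℝ, X₀ ≤ X →
    c * ((Bx K X).ncard : ℝ) ≤
      ({p : 𝓞 K × 𝓞 K | p ∈ Bx K X ∧ GoodE K p}.ncard : ℝ) := by
  obtain ⟨q₀, T, c, X₀, h6, hT, hc, hmain⟩ := H.main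
  obtain ⟨C, hC, hup⟩ := H.up
  have hT' : ∀ v ∈ T, v ≠ q₀ ∧ (6 : 𝓞 K) ∉ v.asIdeal := fun v hv => ⟨(hT v hv).2.1, (hT v hv).1⟩
  -- the twisting factors
  have htw : ∀ J : Finset (HeightOneSpectrum (𝓞 K)), ∃ D : 𝓞 K, J ⊆ T → TwD q₀ J (D : K) := by
    intro J
    by_cases hJ : J ⊆ T
    · obtain ⟨D, hD⟩ := H.tw (fun p hp => hT p (hJ hp))
      exact ⟨D, fun _ => hD⟩
    · exact ⟨0, fun h => absurd h hJ⟩
  choose D hD using htw
  choose t ht using fun J => exists_bx (D J)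
  set κ : ℝ := 1 + ∑ J ∈ T.powerset, |t J| with hκ
  have hκ1 : 1 ≤ κ := by
    have : 0 ≤ ∑ J ∈ T.powerset, |t J| := Finset.sum_nonneg fun _ _ => abs_nonneg _
    linarith
  have hκD : ∀ J ⊆ T, D J ∈ bx K κ := by
    intro J hJ
    refine bx_mono ?_ (ht J)
    have h1 : |t J| ≤ ∑ J ∈ T.powerset, |t J| :=
      Finset.single_le_sum (f := fun J => |t J|) (fun _ _ => abs_nonneg _)
        (Finset.mem_powerset.2 hJ)
    have := le_abs_self (t J)
    linarith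
  set n := Module.finrank ℚ K with hn
  refine ⟨c / (2 ^ T.card * (C * κ ^ (5 * n))), κ * max X₀ 1, by positivity, ?_⟩
  intro Y hY
  set X := Y / κ with hXdef
  have hκ0 : 0 < κ := by linarith
  have hYX : Y = κ * X := by rw [hXdef]; field_simp
  have hX : max X₀ 1 ≤ X := by
    rw [hXdef, le_div_iff₀ hκ0, mul_comm]
    exact hY
  have hX0 : X₀ ≤ X := (le_max_left _ _).trans hX
  have hX1 : 1 ≤ X := (le_max_right _ _).trans hX
  have hY1 : 1 ≤ Y := by rw [hYX]; nlinarith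
  -- the good pairs and the choice of the twisting factor
  set G : Set (𝓞 K × 𝓞 K) := {p | p ∈ Bx K X ∧ Fam q₀ T p.1 p.2 ∧ ¬ BadP T p.1 p.2} with hG
  have hGfin : G.Finite := (H.fin X).subset fun p hp => hp.1
  have hJ : ∀ p : 𝓞 K × 𝓞 K, ∃ J : Finset (HeightOneSpectrum (𝓞 K)), p ∈ G →
      J ⊆ T ∧ GoodE K (D J ^ 2 * p.1, D J ^ 3 * p.2) := by
    intro p
    by_cases hp : p ∈ G
    · obtain ⟨J, hJ, h1⟩ := H.good h6 hT' hp.2.1 hp.2.2
      exact ⟨J, fun _ => ⟨hJ, h1 (D J) (hD J hJ)⟩⟩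
    · exact ⟨∅, fun h => absurd h hp⟩
  choose J hJ using hJ
  -- pigeonhole
  have hpig : ∃ J₀ ∈ T.powerset, (G.ncard : ℝ) ≤
      2 ^ T.card * ({p ∈ hGfin.toFinset | J p = J₀}.card : ℝ) := by
    by_contra hcon
    push Not at hcon
    have h1 : hGfin.toFinset.card = ∑ J₀ ∈ T.powerset, {p ∈ hGfin.toFinset | J p = J₀}.card := by
      refine Finset.card_eq_sum_card_fiberwise fun p hp => ?_
      exact Finset.mem_coe.2 (Finset.mem_powerset.2 (hJ p (by simpa using hp)).1)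
    have h2 : (G.ncard : ℝ) = ∑ J₀ ∈ T.powerset,
        ({p ∈ hGfin.toFinset | J p = J₀}.card : ℝ) := by
      rw [Set.ncard_eq_toFinset_card G hGfin, h1]
      push_cast
      rfl
    have h3 : (2 : ℝ) ^ T.card * ∑ J₀ ∈ T.powerset, ({p ∈ hGfin.toFinset | J p = J₀}.card : ℝ) <
        ∑ J₀ ∈ T.powerset, (G.ncard : ℝ) := by
      rw [Finset.mul_sum]
      exact Finset.sum_lt_sum_of_nonempty ⟨∅, Finset.empty_mem_powerset _⟩ hcon
    rw [← h2, Finset.sum_const, Finset.card_powerset, nsmul_eq_mul] at h3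
    push_cast at h3
    exact lt_irrefl _ h3
  obtain ⟨J₀, hJ₀, hcard⟩ := hpig
  rw [Finset.mem_powerset] at hJ₀
  -- the injection
  have hD0 : D J₀ ≠ 0 := by
    intro h0
    apply (hD J₀ hJ₀).ne
    rw [h0]
    exact map_zero (algebraMap (𝓞 K) K)
  have hinj : ({p ∈ hGfin.toFinset | J p = J₀}.card : ℝ) ≤
      ({p : 𝓞 K × 𝓞 K | p ∈ Bx K Y ∧ GoodE K p}.ncard : ℝ) := by
    have hfin2 : {p : 𝓞 K × 𝓞 K | p ∈ Bx K Y ∧ GoodE K p}.Finite :=
      (H.fin Y).subset fun p hp => hp.1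
    have h1 : {p ∈ hGfin.toFinset | J p = J₀}.card ≤
        {p : 𝓞 K × 𝓞 K | p ∈ Bx K Y ∧ GoodE K p}.ncard := by
      rw [← Set.ncard_coe_finset]
      refine Set.ncard_le_ncard_of_injOn (fun p => (D J₀ ^ 2 * p.1, D J₀ ^ 3 * p.2)) ?_ ?_ hfin2
      · intro p hp
        rw [Finset.mem_coe, Finset.mem_filter, Set.Finite.mem_toFinset] at hp
        obtain ⟨hpG, hpJ⟩ := hp
        have h2 := hJ p hpG
        rw [hpJ] at h2
        refine ⟨⟨?_, ?_⟩, h2.2⟩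
        · rw [hYX]
          exact bx_int_mul (hκD J₀ hJ₀) hpG.1.1
        · rw [hYX]
          exact bx_int_mul3 (hκD J₀ hJ₀) hpG.1.2
      · intro p _ p' _ hpp
        simp only [Prod.mk.injEq] at hpp
        exact Prod.ext (mul_left_cancel₀ (pow_ne_zero 2 hD0) hpp.1)
          (mul_left_cancel₀ (pow_ne_zero 3 hD0) hpp.2)
    exact_mod_cast h1
  have h1 := hmain X hX0
  have h2 := hup Y hY1
  have hpow : Y ^ (5 * n) = κ ^ (5 * n) * X ^ (5 * n) := by rw [hYX, mul_pow]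
  calc c / (2 ^ T.card * (C * κ ^ (5 * n))) * ((Bx K Y).ncard : ℝ)
      ≤ c / (2 ^ T.card * (C * κ ^ (5 * n))) * (C * Y ^ (5 * n)) :=
        mul_le_mul_of_nonneg_left h2 (by positivity)
    _ = c * X ^ (5 * n) / 2 ^ T.card := by
        rw [hpow]
        field_simp
    _ ≤ (G.ncard : ℝ) / 2 ^ T.card := by
        refine div_le_div_of_nonneg_right h1 (by positivity)
    _ ≤ ({p ∈ hGfin.toFinset | J p = J₀}.card : ℝ) := by
        rw [div_le_iff₀ (by positivity), mul_comm]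
        exact hcard
    _ ≤ _ := hinj

end H76PP

end S_H76_PP_Zb

section S_H76_PP_Ya

set_option autoImplicit false
set_option linter.unusedSectionVars false
open scoped Classical

open WithZero NumberField IsDedekindDomain

namespace H76PP

variable {K : Type} [Field K] [NumberField K]

theorem Ya_two_not_unit (K : Type) [Field K] [NumberField K] : ¬ IsUnit (2 : 𝓞 K) := by
  intro h
  obtain ⟨u, hu⟩ := h.exists_right_inv
  have h1 : IsIntegral ℤ ((u : 𝓞 K) : K) := RingOfIntegers.isIntegral_coe u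
  have h2 : ((u : 𝓞 K) : K) = algebraMap ℚ K (1 / 2) := by
    have h3 := congrArg (algebraMap (𝓞 K) K) hu
    rw [map_mul, map_ofNat, map_one] at h3
    rw [map_div₀, map_one, map_ofNat, eq_div_iff (two_ne_zero)]
    rw [mul_comm]
    exact h3
  rw [h2] at h1
  have h3 : IsIntegral ℤ (1 / 2 : ℚ) :=
    (isIntegral_algebraMap_iff (algebraMap ℚ K).injective).1 h1
  obtain ⟨n, hn⟩ := IsIntegrallyClosed.isIntegral_iff.1 h3
  have h4 : (2 * n : ℤ) = 1 := by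
    have h5 : ((2 * n : ℤ) : ℚ) = ((1 : ℤ) : ℚ) := by
      push_cast
      have : (n : ℚ) = 1 / 2 := hn
      rw [this]
      norm_num
    exact_mod_cast h5
  omega

theorem Ya_exists_two (K : Type) [Field K] [NumberField K] :
    ∃ v : HeightOneSpectrum (𝓞 K), (2 : 𝓞 K) ∈ v.asIdeal := by
  obtain ⟨M, hM, h2⟩ := exists_max_ideal_of_mem_nonunits (Ya_two_not_unit K)
  refine ⟨⟨M, hM.isPrime, ?_⟩, h2⟩
  rintro rfl
  exact two_ne_zero (Ideal.mem_bot.1 h2)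

theorem Fam.ne' {q₀ : HeightOneSpectrum (𝓞 K)} {T : Finset (HeightOneSpectrum (𝓞 K))}
    {A B : 𝓞 K} (hF : Fam q₀ T A B) : B ≠ 0 := by
  obtain ⟨v, hv⟩ := Ya_exists_two K
  rintro rfl
  exact hF.two v hv (Submodule.zero_mem _)

private theorem Ya_one {v : HeightOneSpectrum (𝓞 K)} {a : 𝓞 K} (h : a ∉ v.asIdeal) :
    v.valuation K (a : K) = 1 := (v.valuation_eq_one_iff_notMem (K := K)).2 h

private theorem Ya_pow {x : WithZero (Multiplicative ℤ)} {n : ℕ} (hn : n ≠ 0)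
    (h : x ^ n ≤ 1) : x ≤ 1 := (pow_le_one_iff hn).1 h

private theorem Ya_six {x : WithZero (Multiplicative ℤ)} (h : x ^ 6 ≤ exp (1 : ℤ)) : x ≤ 1 := by
  by_cases h0 : x = 0
  · rw [h0]
    exact zero_le
  · rw [← exp_log h0] at h ⊢
    rw [← exp_nsmul, exp_le_exp] at h
    rw [← exp_zero, exp_le_exp]
    rw [nsmul_eq_mul] at h
    push_cast at h
    omega

/-- Two members of the family with the same `j`-invariant are quadratic twists by an integer. -/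
theorem Fam.same_j {q₀ : HeightOneSpectrum (𝓞 K)} {T : Finset (HeightOneSpectrum (𝓞 K))}
    {A B A' B' : 𝓞 K} (hF : Fam q₀ T A B) (hF' : Fam q₀ T A' B')
    (h : A ^ 3 * B' ^ 2 = A' ^ 3 * B ^ 2) : ∃ t : 𝓞 K, A' = t ^ 2 * A ∧ B' = t ^ 3 * B := by
  have hA : (A : K) ≠ 0 := RingOfIntegers.coe_ne_zero_iff.2 hF.ne
  have hA' : (A' : K) ≠ 0 := RingOfIntegers.coe_ne_zero_iff.2 hF'.ne
  have hB : (B : K) ≠ 0 := RingOfIntegers.coe_ne_zero_iff.2 hF.ne'
  have hB' : (B' : K) ≠ 0 := RingOfIntegers.coe_ne_zero_iff.2 hF'.ne'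
  have hK : (A : K) ^ 3 * (B' : K) ^ 2 = (A' : K) ^ 3 * (B : K) ^ 2 := by
    have h1 := congrArg (algebraMap (𝓞 K) K) h
    simpa only [map_mul, map_pow] using h1
  set t : K := (B' : K) * (A : K) / ((B : K) * (A' : K)) with ht
  have e1 : (A' : K) = t ^ 2 * (A : K) := by
    rw [ht]
    field_simp
    linear_combination -hK
  have e2 : (B' : K) = t ^ 3 * (B : K) := by
    have e3 : t ^ 3 * (B : K) = (t ^ 2 * (A : K)) * (t * (B : K) / (A : K)) := by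
      field_simp
    rw [e3, ← e1, ht]
    field_simp
  have e4 : ((dsc A' B' : 𝓞 K) : K) = t ^ 6 * ((dsc A B : 𝓞 K) : K) := by
    have e5 : ((dsc A' B' : 𝓞 K) : K) = 4 * (A' : K) ^ 3 + 27 * (B' : K) ^ 2 := by
      simp only [dsc, map_add, map_mul, map_pow, map_ofNat]
    have e6 : ((dsc A B : 𝓞 K) : K) = 4 * (A : K) ^ 3 + 27 * (B : K) ^ 2 := by
      simp only [dsc, map_add, map_mul, map_pow, map_ofNat]
    rw [e5, e6]
    rw [e1, e2]
    ring
  have hint : ∀ v : HeightOneSpectrum (𝓞 K), v.valuation K t ≤ 1 := by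
    intro v
    by_cases h2 : (2 : 𝓞 K) ∈ v.asIdeal
    · have h3 := congrArg (v.valuation K) e2
      rw [map_mul, map_pow, Ya_one (hF.two v h2), Ya_one (hF'.two v h2), mul_one] at h3
      exact Ya_pow (n := 3) (by norm_num) h3.ge
    · by_cases h3 : (3 : 𝓞 K) ∈ v.asIdeal
      · have h4 := congrArg (v.valuation K) e1
        rw [map_mul, map_pow, Ya_one (hF.three v h3), Ya_one (hF'.three v h3), mul_one] at h4
        exact Ya_pow (n := 2) (by norm_num) h4.ge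
      · have h6 : (6 : 𝓞 K) ∉ v.asIdeal := by
          intro h
          have e7 : (6 : 𝓞 K) = 2 * 3 := by norm_num
          rw [e7] at h
          rcases v.isPrime.mem_or_mem h with h | h
          · exact h2 h
          · exact h3 h
        have h4 := congrArg (v.valuation K) e4
        rw [map_mul, map_pow] at h4
        have h5 : v.valuation K ((dsc A' B' : 𝓞 K) : K) ≤ 1 := v.valuation_le_one _
        have h7 : exp (-1 : ℤ) ≤ v.valuation K ((dsc A B : 𝓞 K) : K) := by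
          by_contra hlt
          apply hF.sqf v h6
          have h8 : v.valuation K ((dsc A B : 𝓞 K) : K) ≤ exp (-2 : ℤ) := by
            rw [not_le] at hlt
            by_cases h0 : v.valuation K ((dsc A B : 𝓞 K) : K) = 0
            · rw [h0]
              exact zero_le
            · rw [← exp_log h0] at hlt ⊢
              rw [exp_lt_exp] at hlt
              rw [exp_le_exp]
              omega
          rw [HeightOneSpectrum.valuation_of_algebraMap] at h8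
          have h9 := (v.intValuation_le_pow_iff_mem (dsc A B) 2).1 (by exact_mod_cast h8)
          exact h9
        apply Ya_six
        rw [h4] at h5
        have h10 : v.valuation K t ^ 6 * exp (-1 : ℤ) ≤ 1 :=
          (mul_le_mul_right h7 _).trans h5
        have h11 : v.valuation K t ^ 6 * exp (-1 : ℤ) * exp (1 : ℤ) ≤ 1 * exp (1 : ℤ) :=
          mul_le_mul_left h10 _
        rwa [mul_assoc, ← exp_add, neg_add_cancel, exp_zero, mul_one, one_mul] at h11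
  obtain ⟨t', ht'⟩ := HeightOneSpectrum.mem_integers_of_valuation_le_one K t hint
  refine ⟨t', ?_, ?_⟩
  · apply RingOfIntegers.coe_injective
    rw [map_mul, map_pow, ht']
    exact e1
  · apply RingOfIntegers.coe_injective
    rw [map_mul, map_pow, ht']
    exact e2

/-- The pairs in the box with a small conjugate of `A` are rare. -/
theorem Blocks.small (H : Blocks K) {δ : ℝ} (hδ : 0 < δ) : ∃ (ε X₁ : ℝ), 0 < ε ∧ ε ≤ 1 ∧
    ∀ X : ℝ, X₁ ≤ X →
      ({p : 𝓞 K × 𝓞 K | p ∈ Bx K X ∧ ∃ s : K →+* ℂ, ‖s (p.1 : K)‖ < ε * X ^ 2}.ncard : ℝ) ≤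
        δ * X ^ (5 * Module.finrank ℚ K) := by
  obtain ⟨C, hC, hup⟩ := H.up
  set n := Module.finrank ℚ K with hn
  set N : ℕ := Fintype.card (K →+* ℂ) with hN
  obtain ⟨k, hk⟩ := exists_nat_gt (max ((N : ℝ) * (C * 2 ^ (5 * n)) / δ) 1)
  have hk1 : (1 : ℝ) < k := (le_max_right _ _).trans_lt hk
  have hk2 : (N : ℝ) * (C * 2 ^ (5 * n)) ≤ k * δ := by
    have h1 := ((le_max_left _ _).trans_lt hk).le
    rwa [div_le_iff₀ hδ] at h1
  refine ⟨1 / (4 * k), 2 * k, by positivity, ?_, fun X hX => ?_⟩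
  · rw [div_le_one (by positivity)]
    linarith
  have hX1 : 1 ≤ X := by linarith
  have hX0 : 0 ≤ X := by linarith
  set m : ℕ := ⌊X ^ 2 / k⌋₊ with hm
  have hm1 : (k : ℝ) * m ≤ X ^ 2 := by
    have h1 : (m : ℝ) ≤ X ^ 2 / k := Nat.floor_le (by positivity)
    rwa [le_div_iff₀ (by positivity), mul_comm] at h1
  have hm2 : 2 * (1 / (4 * k) * X ^ 2) ≤ m := by
    have h1 : X ^ 2 / k < m + 1 := Nat.lt_floor_add_one _
    have h2 : 2 * (1 / (4 * (k : ℝ)) * X ^ 2) = X ^ 2 / k / 2 := by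
      field_simp
      ring
    have h3 : 2 ≤ X ^ 2 / k := by
      rw [le_div_iff₀ (by positivity)]
      nlinarith
    rw [h2]
    linarith
  have hm0 : (0 : ℝ) < m := by
    have : 0 < 2 * (1 / (4 * (k : ℝ)) * X ^ 2) := by positivity
    linarith
  -- one embedding
  have hone : ∀ s : K →+* ℂ,
      ((H.fin X).toFinset.filter fun p => ‖s (p.1 : K)‖ < 1 / (4 * k) * X ^ 2).card * k ≤
        (Bx K (2 * X)).ncard := by
    intro s
    rw [Set.ncard_eq_toFinset_card _ (H.fin (2 * X)), ← Finset.card_range k, ← Finset.card_product,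
      Finset.card_range]
    refine Finset.card_le_card_of_injOn (fun q => (q.1.1 + ((q.2 * m : ℕ) : 𝓞 K), q.1.2)) ?_ ?_
    · rintro ⟨p, j⟩ hp
      simp only [Finset.coe_product, Set.mem_prod, Finset.mem_coe, Finset.mem_filter,
        Set.Finite.mem_toFinset, Finset.mem_range] at hp
      obtain ⟨⟨hp, -⟩, hj⟩ := hp
      simp only [Finset.mem_coe, Set.Finite.mem_toFinset]
      refine ⟨fun s' => ?_, fun s' => (hp.2 s').trans ?_⟩
      · have h1 : ((p.1 + ((j * m : ℕ) : 𝓞 K) : 𝓞 K) : K) = (p.1 : K) + ((j * m : ℕ) : K) := by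
          simp only [map_add, map_natCast]
        change ‖s' ((p.1 + ((j * m : ℕ) : 𝓞 K) : 𝓞 K) : K)‖ ≤ _
        rw [h1, map_add, map_natCast]
        refine (norm_add_le _ _).trans ?_
        have h2 : ‖((j * m : ℕ) : ℂ)‖ = ((j * m : ℕ) : ℝ) := Complex.norm_natCast _
        have h3 : ((j * m : ℕ) : ℝ) ≤ X ^ 2 := by
          refine le_trans ?_ hm1
          push_cast
          have h4 : (j : ℝ) ≤ k := by exact_mod_cast hj.le
          nlinarith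
        have h5 := hp.1 s'
        rw [h2]
        nlinarith
      · have : (2 * X) ^ 3 = 8 * X ^ 3 := by ring
        rw [this]
        have h3 : 0 ≤ X ^ 3 := by positivity
        linarith
    · rintro ⟨p, j⟩ hp ⟨p', j'⟩ hp' heq
      simp only [Finset.coe_product, Set.mem_prod, Finset.mem_coe, Finset.mem_filter,
        Set.Finite.mem_toFinset, Finset.mem_range] at hp hp'
      simp only [Prod.mk.injEq] at heq
      obtain ⟨h1, h2⟩ := heq
      have hjj : j = j' := by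
        by_contra hne
        have h3 : s (p.1 : K) - s (p'.1 : K) = ((j' : ℂ) - (j : ℂ)) * (m : ℂ) := by
          have h4 := congrArg (algebraMap (𝓞 K) K) h1
          simp only [map_add, map_natCast] at h4
          have h5 := congrArg s h4
          simp only [map_add, map_natCast] at h5
          push_cast at h5
          change s (p.1 : K) + _ = s (p'.1 : K) + _ at h5
          linear_combination h5
        have h6 : (1 : ℝ) ≤ ‖(j' : ℂ) - (j : ℂ)‖ := by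
          have h7 : (j' : ℂ) - (j : ℂ) = (((j' : ℤ) - (j : ℤ) : ℤ) : ℂ) := by push_cast; rfl
          rw [h7, Complex.norm_intCast]
          have h8 : (1 : ℤ) ≤ |(j' : ℤ) - (j : ℤ)| := Int.one_le_abs (by omega)
          exact_mod_cast h8
        have h9 : ‖s (p.1 : K) - s (p'.1 : K)‖ < 2 * (1 / (4 * k) * X ^ 2) := by
          refine (norm_sub_le _ _).trans_lt ?_
          linarith [hp.1.2, hp'.1.2]
        rw [h3, norm_mul, Complex.norm_natCast] at h9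
        nlinarith
      subst hjj
      have h10 := add_right_cancel h1
      exact Prod.ext (Prod.ext h10 h2) rfl
  -- all embeddings
  have hall : {p : 𝓞 K × 𝓞 K | p ∈ Bx K X ∧ ∃ s : K →+* ℂ, ‖s (p.1 : K)‖ < 1 / (4 * k) * X ^ 2} =
      ((Finset.univ : Finset (K →+* ℂ)).biUnion fun s =>
        (H.fin X).toFinset.filter fun p => ‖s (p.1 : K)‖ < 1 / (4 * k) * X ^ 2 : Finset _) := by
    ext p
    simp only [Set.mem_ofPred_eq, Finset.coe_biUnion, Finset.mem_coe, Finset.mem_univ,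
      Set.iUnion_true, Set.mem_iUnion, Finset.mem_filter, Set.Finite.mem_toFinset]
    constructor
    · rintro ⟨h1, s, h2⟩
      exact ⟨s, h1, h2⟩
    · rintro ⟨s, h1, h2⟩
      exact ⟨h1, s, h2⟩
  rw [hall, Set.ncard_coe_finset]
  have hsum := Finset.card_biUnion_le (s := (Finset.univ : Finset (K →+* ℂ)))
    (t := fun s => (H.fin X).toFinset.filter fun p => ‖s (p.1 : K)‖ < 1 / (4 * k) * X ^ 2)
  have hsum2 : ((Finset.univ : Finset (K →+* ℂ)).biUnion fun s =>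
        (H.fin X).toFinset.filter fun p => ‖s (p.1 : K)‖ < 1 / (4 * k) * X ^ 2).card * k ≤
        N * (Bx K (2 * X)).ncard := by
    refine (Nat.mul_le_mul_right k hsum).trans ?_
    rw [Finset.sum_mul]
    refine (Finset.sum_le_sum fun s _ => hone s).trans ?_
    rw [Finset.sum_const, Finset.card_univ, smul_eq_mul]
  have hb := hup (2 * X) (by linarith)
  have hkpos : (0 : ℝ) < k := by linarith
  have hsum3 : ((((Finset.univ : Finset (K →+* ℂ)).biUnion fun s =>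
        (H.fin X).toFinset.filter fun p => ‖s (p.1 : K)‖ < 1 / (4 * k) * X ^ 2).card : ℕ) : ℝ) * k ≤
        N * (Bx K (2 * X)).ncard := by exact_mod_cast hsum2
  refine le_of_mul_le_mul_right (hsum3.trans ?_) hkpos
  calc (N : ℝ) * (Bx K (2 * X)).ncard ≤ N * (C * (2 * X) ^ (5 * n)) :=
        mul_le_mul_of_nonneg_left hb (Nat.cast_nonneg _)
    _ = (N * (C * 2 ^ (5 * n))) * X ^ (5 * n) := by rw [mul_pow]; ring
    _ ≤ (k * δ) * X ^ (5 * n) := mul_le_mul_of_nonneg_right hk2 (by positivity)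
    _ = δ * X ^ (5 * n) * k := by ring

end H76PP

end S_H76_PP_Ya

section S_H76_PP_Yb

set_option autoImplicit false
set_option linter.unusedSectionVars false
open scoped Classical

open WithZero NumberField IsDedekindDomain

namespace H76PP

variable {K : Type} [Field K] [NumberField K]

/-- A finite set of members of the family without small conjugates of `A` contains a large subset
of members with pairwise different `j`-invariants. -/
theorem exists_sub (K : Type) [Field K] [NumberField K] {ε : ℝ} (hε : 0 < ε) (hε1 : ε ≤ 1) :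
    ∃ M : ℕ, ∀ (q₀ : HeightOneSpectrum (𝓞 K)) (T : Finset (HeightOneSpectrum (𝓞 K))) (X : ℝ),
      0 < X → ∀ S : Finset (𝓞 K × 𝓞 K), (∀ p ∈ S, p ∈ Bx K X ∧ Fam q₀ T p.1 p.2 ∧
        ∀ s : K →+* ℂ, ε * X ^ 2 ≤ ‖s (p.1 : K)‖) → ∃ G ⊆ S, S.card ≤ M * G.card ∧
          ∀ p ∈ G, ∀ q ∈ G, p.1 ^ 3 * q.2 ^ 2 = q.1 ^ 3 * p.2 ^ 2 → p = q := by
  refine ⟨(bx_finite K (1 / ε)).toFinset.card, fun q₀ T X hX S hS => ?_⟩
  set φ : 𝓞 K × 𝓞 K → K := fun p => (p.1 : K) ^ 3 / (p.2 : K) ^ 2 with hφ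
  have hφ1 : ∀ p ∈ S, ∀ q ∈ S, φ p = φ q ↔ p.1 ^ 3 * q.2 ^ 2 = q.1 ^ 3 * p.2 ^ 2 := by
    intro p hp q hq
    have h1 : (p.2 : K) ≠ 0 := RingOfIntegers.coe_ne_zero_iff.2 (hS p hp).2.1.ne'
    have h2 : (q.2 : K) ≠ 0 := RingOfIntegers.coe_ne_zero_iff.2 (hS q hq).2.1.ne'
    rw [hφ]
    beta_reduce
    rw [div_eq_div_iff (pow_ne_zero 2 h1) (pow_ne_zero 2 h2)]
    constructor
    · intro h
      apply RingOfIntegers.coe_injective
      simp only [map_mul, map_pow]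
      exact h
    · intro h
      have h3 := congrArg (algebraMap (𝓞 K) K) h
      simp only [map_mul, map_pow] at h3
      exact h3
  have hfib : ∀ b ∈ S.image φ, (S.filter fun a => φ a = b).card ≤
      (bx_finite K (1 / ε)).toFinset.card := by
    intro b hb
    obtain ⟨p, hp, rfl⟩ := Finset.mem_image.1 hb
    have htw : ∀ q : 𝓞 K × 𝓞 K, ∃ t : 𝓞 K, q ∈ S → φ q = φ p →
        q.1 = t ^ 2 * p.1 ∧ q.2 = t ^ 3 * p.2 := by
      intro q
      by_cases hq : q ∈ S ∧ φ q = φ p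
      · obtain ⟨t, ht⟩ := (hS p hp).2.1.same_j (hS q hq.1).2.1 ((hφ1 p hp q hq.1).1 hq.2.symm)
        exact ⟨t, fun _ _ => ht⟩
      · exact ⟨0, fun h h' => absurd ⟨h, h'⟩ hq⟩
    choose t ht using htw
    refine Finset.card_le_card_of_injOn t ?_ ?_
    · intro q hq
      rw [Finset.mem_coe, Finset.mem_filter] at hq
      rw [Finset.mem_coe, Set.Finite.mem_toFinset]
      intro s
      obtain ⟨h1, -⟩ := ht q hq.1 hq.2
      have h2 : s (q.1 : K) = s ((t q : 𝓞 K) : K) ^ 2 * s (p.1 : K) := by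
        have h3 := congrArg (algebraMap (𝓞 K) K) h1
        rw [map_mul, map_pow] at h3
        have h4 := congrArg s h3
        rw [map_mul, map_pow] at h4
        exact h4
      have h5 := (hS q hq.1).1.1 s
      have h6 := (hS p hp).2.2 s
      rw [h2, norm_mul, norm_pow] at h5
      set y := ‖s ((t q : 𝓞 K) : K)‖ with hy
      have hy0 : 0 ≤ y := norm_nonneg _
      have h7 : y ^ 2 * (ε * X ^ 2) ≤ X ^ 2 :=
        (mul_le_mul_of_nonneg_left h6 (by positivity)).trans h5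
      have h8 : y ^ 2 * ε ≤ 1 := by
        have hX2 : 0 < X ^ 2 := by positivity
        by_contra hcon
        rw [not_le] at hcon
        nlinarith
      have h9 : (ε * y) ^ 2 ≤ 1 := by
        have h10 : (ε * y) ^ 2 = ε * (y ^ 2 * ε) := by ring
        rw [h10]
        nlinarith
      have h11 : ε * y ≤ 1 := by
        have h12 : 0 ≤ ε * y := by positivity
        nlinarith
      rw [le_div_iff₀ hε, mul_comm]
      exact h11
    · intro q hq q' hq' h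
      rw [Finset.mem_coe, Finset.mem_filter] at hq hq'
      obtain ⟨h1, h2⟩ := ht q hq.1 hq.2
      obtain ⟨h3, h4⟩ := ht q' hq'.1 hq'.2
      rw [h] at h1 h2
      exact Prod.ext (h1.trans h3.symm) (h2.trans h4.symm)
  have hcard := Finset.card_le_mul_card_image S _ hfib
  have hsurj : Set.SurjOn φ (S : Set (𝓞 K × 𝓞 K)) ((S.image φ : Finset K) : Set K) := by
    intro b hb
    rw [Finset.mem_coe, Finset.mem_image] at hb
    obtain ⟨p, hp, hpb⟩ := hb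
    exact ⟨p, hp, hpb⟩
  obtain ⟨G, hGS, hGinj, hGim⟩ :=
    Finset.exists_subset_injOn_image_eq_of_surjOn (S : Set (𝓞 K × 𝓞 K)) (S.image φ) hsurj
  have hGS' : G ⊆ S := fun p hp => by exact_mod_cast hGS (Finset.mem_coe.2 hp)
  refine ⟨G, hGS', ?_, ?_⟩
  · rw [← hGim, Finset.card_image_of_injOn hGinj] at hcard
    exact hcard
  · intro p hp q hq h
    exact hGinj (Finset.mem_coe.2 hp) (Finset.mem_coe.2 hq) ((hφ1 p (hGS' hp) q (hGS' hq)).2 h)

/-- The final theorem from the statements of the blocks, with pairwise different `j`-invariants. -/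
theorem Blocks.result2 (H : Blocks K) : ∃ (c X₀ : ℝ), 0 < c ∧ ∀ X : ℝ, X₀ ≤ X →
    ∃ G : Finset (𝓞 K × 𝓞 K), (∀ p ∈ G, p ∈ Bx K X ∧ GoodE K p) ∧
      (∀ p ∈ G, ∀ q ∈ G, p.1 ^ 3 * q.2 ^ 2 = q.1 ^ 3 * p.2 ^ 2 → p = q) ∧
      c * ((Bx K X).ncard : ℝ) ≤ (G.card : ℝ) := by
  obtain ⟨q₀, T, c, X₀, h6, hT, hc, hmain⟩ := H.main
  obtain ⟨C, hC, hup⟩ := H.up
  obtain ⟨ε, X₁, hε, hε1, hsmall⟩ := H.small (δ := c / 2) (by positivity)
  obtain ⟨M, hM⟩ := exists_sub K hε hε1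
  have hT' : ∀ v ∈ T, v ≠ q₀ ∧ (6 : 𝓞 K) ∉ v.asIdeal := fun v hv => ⟨(hT v hv).2.1, (hT v hv).1⟩
  -- the twisting factors
  have htw : ∀ J : Finset (HeightOneSpectrum (𝓞 K)), ∃ D : 𝓞 K, J ⊆ T → TwD q₀ J (D : K) := by
    intro J
    by_cases hJ : J ⊆ T
    · obtain ⟨D, hD⟩ := H.tw (fun p hp => hT p (hJ hp))
      exact ⟨D, fun _ => hD⟩
    · exact ⟨0, fun h => absurd h hJ⟩
  choose D hD using htw
  choose t ht using fun J => exists_bx (D J)
  set κ : ℝ := 1 + ∑ J ∈ T.powerset, |t J| with hκ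
  have hκ1 : 1 ≤ κ := by
    have : 0 ≤ ∑ J ∈ T.powerset, |t J| := Finset.sum_nonneg fun _ _ => abs_nonneg _
    linarith
  have hκD : ∀ J ⊆ T, D J ∈ bx K κ := by
    intro J hJ
    refine bx_mono ?_ (ht J)
    have h1 : |t J| ≤ ∑ J ∈ T.powerset, |t J| :=
      Finset.single_le_sum (f := fun J => |t J|) (fun _ _ => abs_nonneg _)
        (Finset.mem_powerset.2 hJ)
    have := le_abs_self (t J)
    linarith
  set n := Module.finrank ℚ K with hn
  refine ⟨(c / 2) / ((M + 1) * (2 ^ T.card * (C * κ ^ (5 * n)))), κ * max (max X₀ X₁) 1,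
    by positivity, ?_⟩
  intro Y hY
  set X := Y / κ with hXdef
  have hκ0 : 0 < κ := by linarith
  have hYX : Y = κ * X := by rw [hXdef]; field_simp
  have hX : max (max X₀ X₁) 1 ≤ X := by
    rw [hXdef, le_div_iff₀ hκ0, mul_comm]
    exact hY
  have hX0 : X₀ ≤ X := (le_max_left _ _).trans ((le_max_left _ _).trans hX)
  have hX1' : X₁ ≤ X := (le_max_right _ _).trans ((le_max_left _ _).trans hX)
  have hX1 : 1 ≤ X := (le_max_right _ _).trans hX
  have hY1 : 1 ≤ Y := by rw [hYX]; nlinarith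
  -- the good pairs without small conjugates and the choice of the twisting factor
  set G₀ : Set (𝓞 K × 𝓞 K) := {p | p ∈ Bx K X ∧ Fam q₀ T p.1 p.2 ∧ ¬ BadP T p.1 p.2} with hG₀
  set G : Set (𝓞 K × 𝓞 K) := {p | p ∈ G₀ ∧ ∀ s : K →+* ℂ, ε * X ^ 2 ≤ ‖s (p.1 : K)‖} with hG
  have hG₀fin : G₀.Finite := (H.fin X).subset fun p hp => hp.1
  have hGfin : G.Finite := hG₀fin.subset fun p hp => hp.1
  have hGcard : c / 2 * X ^ (5 * n) ≤ (G.ncard : ℝ) := by
    have h1 := hmain X hX0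
    have h2 := hsmall X hX1'
    have hsfin : {p : 𝓞 K × 𝓞 K | p ∈ Bx K X ∧
        ∃ s : K →+* ℂ, ‖s (p.1 : K)‖ < ε * X ^ 2}.Finite := (H.fin X).subset fun p hp => hp.1
    have h3 : G₀ ⊆ G ∪ {p : 𝓞 K × 𝓞 K | p ∈ Bx K X ∧
        ∃ s : K →+* ℂ, ‖s (p.1 : K)‖ < ε * X ^ 2} := by
      intro p hp
      by_cases h4 : ∀ s : K →+* ℂ, ε * X ^ 2 ≤ ‖s (p.1 : K)‖
      · exact Or.inl ⟨hp, h4⟩
      · push Not at h4
        exact Or.inr ⟨hp.1, h4⟩
    have h5 := (Set.ncard_le_ncard h3 (hGfin.union hsfin)).trans (Set.ncard_union_le _ _)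
    have h6 : (G₀.ncard : ℝ) ≤ (G.ncard : ℝ) + ({p : 𝓞 K × 𝓞 K | p ∈ Bx K X ∧
        ∃ s : K →+* ℂ, ‖s (p.1 : K)‖ < ε * X ^ 2}.ncard : ℝ) := by exact_mod_cast h5
    have h7 : c * X ^ (5 * n) = c / 2 * X ^ (5 * n) + c / 2 * X ^ (5 * n) := by ring
    linarith
  have hJ : ∀ p : 𝓞 K × 𝓞 K, ∃ J : Finset (HeightOneSpectrum (𝓞 K)), p ∈ G →
      J ⊆ T ∧ GoodE K (D J ^ 2 * p.1, D J ^ 3 * p.2) := by
    intro p
    by_cases hp : p ∈ G
    · obtain ⟨J, hJ, h1⟩ := H.good h6 hT' hp.1.2.1 hp.1.2.2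
      exact ⟨J, fun _ => ⟨hJ, h1 (D J) (hD J hJ)⟩⟩
    · exact ⟨∅, fun h => absurd h hp⟩
  choose J hJ using hJ
  -- pigeonhole
  have hpig : ∃ J₀ ∈ T.powerset, (G.ncard : ℝ) ≤
      2 ^ T.card * ({p ∈ hGfin.toFinset | J p = J₀}.card : ℝ) := by
    by_contra hcon
    push Not at hcon
    have h1 : hGfin.toFinset.card = ∑ J₀ ∈ T.powerset, {p ∈ hGfin.toFinset | J p = J₀}.card := by
      refine Finset.card_eq_sum_card_fiberwise fun p hp => ?_
      exact Finset.mem_coe.2 (Finset.mem_powerset.2 (hJ p (by simpa using hp)).1)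
    have h2 : (G.ncard : ℝ) = ∑ J₀ ∈ T.powerset,
        ({p ∈ hGfin.toFinset | J p = J₀}.card : ℝ) := by
      rw [Set.ncard_eq_toFinset_card G hGfin, h1]
      push_cast
      rfl
    have h3 : (2 : ℝ) ^ T.card * ∑ J₀ ∈ T.powerset, ({p ∈ hGfin.toFinset | J p = J₀}.card : ℝ) <
        ∑ J₀ ∈ T.powerset, (G.ncard : ℝ) := by
      rw [Finset.mul_sum]
      exact Finset.sum_lt_sum_of_nonempty ⟨∅, Finset.empty_mem_powerset _⟩ hcon
    rw [← h2, Finset.sum_const, Finset.card_powerset, nsmul_eq_mul] at h3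
    push_cast at h3
    exact lt_irrefl _ h3
  obtain ⟨J₀, hJ₀, hcard⟩ := hpig
  rw [Finset.mem_powerset] at hJ₀
  obtain ⟨G₁, hG₁, hcard₁, hinj₁⟩ := hM q₀ T X (by linarith)
    ({p ∈ hGfin.toFinset | J p = J₀}) (by
      intro p hp
      rw [Finset.mem_filter, Set.Finite.mem_toFinset] at hp
      exact ⟨hp.1.1.1, hp.1.1.2.1, hp.1.2⟩)
  -- the injection
  have hD0 : D J₀ ≠ 0 := by
    intro h0
    apply (hD J₀ hJ₀).ne
    rw [h0]
    exact map_zero (algebraMap (𝓞 K) K)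
  have hi : Set.InjOn (fun p : 𝓞 K × 𝓞 K => (D J₀ ^ 2 * p.1, D J₀ ^ 3 * p.2)) (G₁ : Set _) := by
    intro p _ p' _ hpp
    simp only [Prod.mk.injEq] at hpp
    exact Prod.ext (mul_left_cancel₀ (pow_ne_zero 2 hD0) hpp.1)
      (mul_left_cancel₀ (pow_ne_zero 3 hD0) hpp.2)
  refine ⟨G₁.image (fun p => (D J₀ ^ 2 * p.1, D J₀ ^ 3 * p.2)), ?_, ?_, ?_⟩
  · intro q hq
    rw [Finset.mem_image] at hq
    obtain ⟨p, hp, rfl⟩ := hq
    have hp' := hG₁ hp
    rw [Finset.mem_filter, Set.Finite.mem_toFinset] at hp'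
    obtain ⟨hpG, hpJ⟩ := hp'
    have h2 := hJ p hpG
    rw [hpJ] at h2
    refine ⟨⟨?_, ?_⟩, h2.2⟩
    · rw [hYX]
      exact bx_int_mul (hκD J₀ hJ₀) hpG.1.1.1
    · rw [hYX]
      exact bx_int_mul3 (hκD J₀ hJ₀) hpG.1.1.2
  · intro q hq q' hq' h
    rw [Finset.mem_image] at hq hq'
    obtain ⟨p, hp, rfl⟩ := hq
    obtain ⟨p', hp', rfl⟩ := hq'
    have h1 : p = p' := by
      refine hinj₁ p hp p' hp' ?_
      have h2 : D J₀ ^ 12 * (p.1 ^ 3 * p'.2 ^ 2) = D J₀ ^ 12 * (p'.1 ^ 3 * p.2 ^ 2) := by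
        change (D J₀ ^ 2 * p.1) ^ 3 * (D J₀ ^ 3 * p'.2) ^ 2 =
          (D J₀ ^ 2 * p'.1) ^ 3 * (D J₀ ^ 3 * p.2) ^ 2 at h
        linear_combination h
      exact mul_left_cancel₀ (pow_ne_zero 12 hD0) h2
    rw [h1]
  · rw [Finset.card_image_of_injOn hi]
    have h2 := hup Y hY1
    have hpow : Y ^ (5 * n) = κ ^ (5 * n) * X ^ (5 * n) := by rw [hYX, mul_pow]
    have h3 : (({p ∈ hGfin.toFinset | J p = J₀}.card : ℕ) : ℝ) ≤ (M + 1) * (G₁.card : ℝ) := by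
      have h4 : (({p ∈ hGfin.toFinset | J p = J₀}.card : ℕ) : ℝ) ≤ M * (G₁.card : ℝ) := by
        exact_mod_cast hcard₁
      have h5 : (0 : ℝ) ≤ (G₁.card : ℝ) := Nat.cast_nonneg _
      linarith
    calc (c / 2) / ((M + 1) * (2 ^ T.card * (C * κ ^ (5 * n)))) * ((Bx K Y).ncard : ℝ)
        ≤ (c / 2) / ((M + 1) * (2 ^ T.card * (C * κ ^ (5 * n)))) * (C * Y ^ (5 * n)) :=
          mul_le_mul_of_nonneg_left h2 (by positivity)
      _ = (c / 2 * X ^ (5 * n)) / 2 ^ T.card / (M + 1) := by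
          rw [hpow]
          field_simp
      _ ≤ (G.ncard : ℝ) / 2 ^ T.card / (M + 1) := by
          refine div_le_div_of_nonneg_right (div_le_div_of_nonneg_right hGcard (by positivity))
            (by positivity)
      _ ≤ ({p ∈ hGfin.toFinset | J p = J₀}.card : ℝ) / (M + 1) := by
          refine div_le_div_of_nonneg_right ?_ (by positivity)
          rw [div_le_iff₀ (by positivity), mul_comm]
          exact hcard
      _ ≤ (G₁.card : ℝ) := by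
          rw [div_le_iff₀ (by positivity), mul_comm]
          exact h3

end H76PP

end S_H76_PP_Yb

section S_H76_PP_Zc

set_option autoImplicit false
set_option linter.unusedSectionVars false
open scoped Classical

open WithZero NumberField IsDedekindDomain H38RT
open H38T1 (SC sc scu rep eo la si Pri OddP tp unif)

namespace H76PP

theorem bad_count (K : Type) [Field K] [NumberField K] (hfin : ∀ X : ℝ, (Bx K X).Finite) :
    ∃ (C : ℝ) (N₀ : ℕ), 0 < C ∧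
    ∀ (q₀ : HeightOneSpectrum (𝓞 K)) (T : Finset (HeightOneSpectrum (𝓞 K))),
      (∀ v ∈ T, N₀ ≤ Nv v ∧ (6 : 𝓞 K) ∉ v.asIdeal) → ∃ X₀ : ℝ, ∀ X : ℝ, X₀ ≤ X →
        ({p : 𝓞 K × 𝓞 K | p ∈ Bx K X ∧ Fam q₀ T p.1 p.2 ∧ BadP T p.1 p.2}.ncard : ℝ) ≤
          C * (∏ v ∈ T, ((1 + 1 / (Nv v : ℝ)) ^ 2 / 4)) * X ^ (5 * Module.finrank ℚ K) := by
  obtain ⟨C₂, hC₂, hdat⟩ := exists_dat K
  obtain ⟨C, N₀, hC, h⟩ := H54PP.dat_count K C₂
  refine ⟨C, N₀, hC, fun q₀ T hT => ?_⟩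
  obtain ⟨X₀, hX₀⟩ := h T hT
  refine ⟨max X₀ 0, fun X hX => ?_⟩
  refine le_trans ?_ (hX₀ X ((le_max_left _ _).trans hX))
  have hf : {p : 𝓞 K × 𝓞 K | p ∈ Bx K X ∧ ∃ (l : Fin 3 → ℝ)
      (M N : Matrix (Fin 3) (Fin 3) (𝓞 K)), Dat X C₂ T p.1 p.2 l M N}.Finite :=
    (hfin X).subset fun p hp => hp.1
  have hsub : {p : 𝓞 K × 𝓞 K | p ∈ Bx K X ∧ Fam q₀ T p.1 p.2 ∧ BadP T p.1 p.2} ⊆
      {p : 𝓞 K × 𝓞 K | p ∈ Bx K X ∧ ∃ (l : Fin 3 → ℝ)
      (M N : Matrix (Fin 3) (Fin 3) (𝓞 K)), Dat X C₂ T p.1 p.2 l M N} := fun p hp =>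
    ⟨hp.1, hdat q₀ T (fun v hv => (hT v hv).2) p.1 p.2 X
      ((le_max_right _ _).trans hX) hp.1 hp.2.1 hp.2.2⟩
  have h1 := Set.ncard_le_ncard hsub hf
  exact_mod_cast h1

end H76PP

end S_H76_PP_Zc
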