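import Mathlib
import Pool.Agent.H76.PN.A4
import Pool.Agent.H76.PN.A5
import Pool.Agent.H76.PN.N2
import Pool.Agent.H76.PN.Z1

/-! This file joins several modules to save build time (N3). -/

set_option autoImplicit false

section S_H36_MT_Tc

set_option autoImplicit false
set_option linter.unusedSectionVars false
open scoped Classical

open WithZero NumberField IsDedekindDomain H38RT
open H76PP

namespace H36MT

variable {K L : Type} [Field K] [NumberField K] [Field L] [NumberField L] [Algebra K L]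

theorem Tc_sL {A B : 𝓞 K} {θ : L} (h : Cub K L (A : K) (B : K) θ)
    {v : HeightOneSpectrum (𝓞 K)} (hd : dsc A B ∉ v.asIdeal ^ 2) {t : 𝓞 L} (ht : (t : L) = θ)
    (a : 𝓞 K) (y : 𝓞 L) : ∃ s : 𝓞 K, ∀ w : HeightOneSpectrum (𝓞 L), dn K w = v →
      algebraMap (𝓞 K) (𝓞 L) a - t ∈ w.asIdeal → y - algebraMap (𝓞 K) (𝓞 L) s ∈ w.asIdeal := by
  have hl : LB h v := lb_of h hd
  obtain ⟨m, hm, c, hc⟩ := hl.den y
  obtain ⟨m', i, hi, hmi⟩ := v.isMaximal.exists_inv hm
  refine ⟨m' * (c 0 + c 1 * a + c 2 * a ^ 2), fun w hw hmem => ?_⟩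
  have h1 : algebraMap (𝓞 K) (𝓞 L) m * y - algebraMap (𝓞 K) (𝓞 L) (c 0 + c 1 * a + c 2 * a ^ 2) ∈
      w.asIdeal := by
    have e : algebraMap (𝓞 K) (𝓞 L) m * y -
        algebraMap (𝓞 K) (𝓞 L) (c 0 + c 1 * a + c 2 * a ^ 2) =
        (algebraMap (𝓞 K) (𝓞 L) a - t) * -(algebraMap (𝓞 K) (𝓞 L) (c 1) +
          algebraMap (𝓞 K) (𝓞 L) (c 2) * (t + algebraMap (𝓞 K) (𝓞 L) a)) := by
      apply RingOfIntegers.ext
      have e := h.eq_co (y : L)
      have e0 : algebraMap K L (m : K) * (y : L) = algebraMap K L (c 0 : K) +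
          algebraMap K L (c 1 : K) * θ + algebraMap K L (c 2 : K) * θ ^ 2 := by
        rw [← hc, ← hc, ← hc, map_mul, map_mul, map_mul]
        linear_combination (algebraMap K L (m : K)) * e
      change algebraMap K L (m : K) * (y : L) -
          algebraMap K L ((c 0 : K) + (c 1 : K) * (a : K) + (c 2 : K) * (a : K) ^ 2) =
        (algebraMap K L (a : K) - (t : L)) * -(algebraMap K L (c 1 : K) +
          algebraMap K L (c 2 : K) * ((t : L) + algebraMap K L (a : K)))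
      rw [e0, ht]
      simp only [map_add, map_mul, map_pow]
      ring
    rw [e]
    exact Ideal.mul_mem_right _ _ hmem
  have h2 : algebraMap (𝓞 K) (𝓞 L) i ∈ w.asIdeal := by
    rw [← hw] at hi
    exact hi
  have e2 : y - algebraMap (𝓞 K) (𝓞 L) (m' * (c 0 + c 1 * a + c 2 * a ^ 2)) =
      y * algebraMap (𝓞 K) (𝓞 L) i + algebraMap (𝓞 K) (𝓞 L) m' *
        (algebraMap (𝓞 K) (𝓞 L) m * y -
          algebraMap (𝓞 K) (𝓞 L) (c 0 + c 1 * a + c 2 * a ^ 2)) := by
    have e3 : algebraMap (𝓞 K) (𝓞 L) i = 1 - algebraMap (𝓞 K) (𝓞 L) m' *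
        algebraMap (𝓞 K) (𝓞 L) m := by
      rw [← map_mul, ← map_one (algebraMap (𝓞 K) (𝓞 L)), ← map_sub, ← hmi]
      congr 1
      ring
    rw [e3, map_mul (algebraMap (𝓞 K) (𝓞 L)) m']
    ring
  rw [e2]
  exact Ideal.add_mem _ (Ideal.mul_mem_left _ _ h2) (Ideal.mul_mem_left _ _ h1)

theorem Tc_inertiaL {A B : 𝓞 K} {θ : L} (h : Cub K L (A : K) (B : K) θ)
    {v : HeightOneSpectrum (𝓞 K)} (hd : dsc A B ∉ v.asIdeal ^ 2) {t : 𝓞 L} (ht : (t : L) = θ)
    (a : 𝓞 K) {w : HeightOneSpectrum (𝓞 L)} (hv : dn K w = v)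
    (hw : algebraMap (𝓞 K) (𝓞 L) a - t ∈ w.asIdeal) :
    w.asIdeal.inertiaDeg (𝓞 K) = 1 := by
  have hm1 := w.isMaximal
  have hm2 := (dn K w).isMaximal
  have hl : w.asIdeal.LiesOver (dn K w).asIdeal := ⟨rfl⟩
  rw [Ideal.inertiaDeg_eq_of_isMaximal (dn K w).asIdeal w.asIdeal]
  refine finrank_eq_one (1 : 𝓞 L ⧸ w.asIdeal) one_ne_zero fun z => ?_
  obtain ⟨y, rfl⟩ := Ideal.Quotient.mk_surjective z
  obtain ⟨s, hs⟩ := Tc_sL h hd ht a y
  refine ⟨Ideal.Quotient.mk _ s, ?_⟩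
  have h1 : y - algebraMap (𝓞 K) (𝓞 L) s ∈ w.asIdeal := hs w hv hw
  have h2 : Ideal.Quotient.mk w.asIdeal y = Ideal.Quotient.mk w.asIdeal (algebraMap (𝓞 K) (𝓞 L) s) :=
    Ideal.Quotient.eq.2 h1
  rw [h2, Algebra.smul_def, mul_one]
  rfl

theorem Tc_uniqL {A B : 𝓞 K} {θ : L} (h : Cub K L (A : K) (B : K) θ)
    {v : HeightOneSpectrum (𝓞 K)} (hd : dsc A B ∉ v.asIdeal ^ 2) {t : 𝓞 L} (ht : (t : L) = θ)
    (a : 𝓞 K) {w w' : HeightOneSpectrum (𝓞 L)} (hv : dn K w = v) (hv' : dn K w' = v)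
    (hw : algebraMap (𝓞 K) (𝓞 L) a - t ∈ w.asIdeal)
    (hw' : algebraMap (𝓞 K) (𝓞 L) a - t ∈ w'.asIdeal) : w = w' := by
  by_contra hne
  have hle : ¬ (w.asIdeal ≤ w'.asIdeal) := fun hle =>
    hne (HeightOneSpectrum.ext (w.isMaximal.eq_of_le w'.isPrime.ne_top hle))
  obtain ⟨y, hy, hy'⟩ := SetLike.not_le_iff_exists.1 hle
  obtain ⟨s, hs⟩ := Tc_sL h hd ht a y
  have hs1 : y - algebraMap (𝓞 K) (𝓞 L) s ∈ w.asIdeal := hs w hv hw
  have hs2 : y - algebraMap (𝓞 K) (𝓞 L) s ∈ w'.asIdeal := hs w' hv' hw'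
  have hsw : algebraMap (𝓞 K) (𝓞 L) s ∈ w.asIdeal := by
    have h3 := Ideal.sub_mem _ hy hs1
    rwa [sub_sub_cancel] at h3
  have hsv : s ∈ (dn K w).asIdeal := hsw
  rw [hv, ← hv'] at hsv
  have hsw' : algebraMap (𝓞 K) (𝓞 L) s ∈ w'.asIdeal := hsv
  apply hy'
  have h3 := Ideal.add_mem _ hs2 hsw'
  rwa [sub_add_cancel] at h3

theorem Tc_intL {A B : 𝓞 K} {θ : L} (h : Cub K L (A : K) (B : K) θ)
    {v : HeightOneSpectrum (𝓞 K)} (hd : dsc A B ∉ v.asIdeal ^ 2)
    (a : 𝓞 K) (hfx : (a : K) ^ 3 + (A : K) * (a : K) + (B : K) ≠ 0) :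
    ∃ w₁ : HeightOneSpectrum (𝓞 L), dn K w₁ = v ∧
      ord (w₁.valuation L) (algebraMap K L (a : K) - θ) =
        ord (v.valuation K) ((a : K) ^ 3 + (A : K) * (a : K) + (B : K)) ∧
      ∀ w : HeightOneSpectrum (𝓞 L), dn K w = v → w ≠ w₁ →
        w.valuation L (algebraMap K L (a : K) - θ) = 1 := by
  obtain ⟨t, ht⟩ := theta_int h
  have hn := h.norm_sub (a : K)
  have hu : algebraMap K L (a : K) - θ ≠ 0 := by
    intro h0
    rw [h0, Algebra.norm_zero] at hn
    exact hfx hn.symm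
  have hval : ∀ w : HeightOneSpectrum (𝓞 L), algebraMap (𝓞 K) (𝓞 L) a - t ∉ w.asIdeal →
      w.valuation L (algebraMap K L (a : K) - θ) = 1 := by
    intro w hw
    have h1 := (HeightOneSpectrum.valuation_eq_one_iff_notMem (K := L) (v := w)).2 hw
    rw [← ht]
    exact h1
  have hsum := ord_norm (K := K) v hu
  rw [hn] at hsum
  by_cases hex : ∃ w : HeightOneSpectrum (𝓞 L), dn K w = v ∧ algebraMap (𝓞 K) (𝓞 L) a - t ∈ w.asIdeal
  · obtain ⟨w₁, hw1, hw2⟩ := hex
    have hother : ∀ w : HeightOneSpectrum (𝓞 L), dn K w = v → w ≠ w₁ →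
        w.valuation L (algebraMap K L (a : K) - θ) = 1 := by
      intro w hw hne
      refine hval w fun hmem => hne ?_
      exact Tc_uniqL h hd ht a hw hw1 hmem hw2
    refine ⟨w₁, hw1, ?_, hother⟩
    rw [hsum, finsum_eq_single _ (⟨w₁, hw1⟩ : {w : HeightOneSpectrum (𝓞 L) // dn K w = v})]
    · change _ = (w₁.asIdeal.inertiaDeg (𝓞 K) : ℤ) * ord (w₁.valuation L) (algebraMap K L (a : K) - θ)
      rw [Tc_inertiaL h hd ht a hw1 hw2, Nat.cast_one, one_mul]
    · rintro ⟨w, hw⟩ hne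
      have hne' : w ≠ w₁ := fun h0 => hne (Subtype.ext h0)
      change (w.asIdeal.inertiaDeg (𝓞 K) : ℤ) * ord (w.valuation L) (algebraMap K L (a : K) - θ) = 0
      rw [Tc_ord_one (hother w hw hne'), mul_zero]
  · have hall : ∀ w : HeightOneSpectrum (𝓞 L), dn K w = v → w.valuation L (algebraMap K L (a : K) - θ) = 1 :=
      fun w hw => hval w fun hmem => hex ⟨w, hw, hmem⟩
    obtain ⟨w₁, hw1⟩ := exists_above (L := L) v
    refine ⟨w₁, hw1, ?_, fun w hw _ => hall w hw⟩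
    rw [Tc_ord_one (hall w₁ hw1), hsum, finsum_eq_zero_of_forall_eq_zero]
    rintro ⟨w, hw⟩
    change (w.asIdeal.inertiaDeg (𝓞 K) : ℤ) * ord (w.valuation L) (algebraMap K L (a : K) - θ) = 0
    rw [Tc_ord_one (hall w hw), mul_zero]

theorem ord_subL {A B : 𝓞 K} {θ : L} (h : Cub K L (A : K) (B : K) θ)
    {v : HeightOneSpectrum (𝓞 K)} (hd : dsc A B ∉ v.asIdeal ^ 2)
    {x : K} (hx : v.valuation K x ≤ 1) (hfx : x ^ 3 + (A : K) * x + (B : K) ≠ 0) :
    ∃ w₁ : HeightOneSpectrum (𝓞 L), dn K w₁ = v ∧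
      ord (w₁.valuation L) (algebraMap K L x - θ) =
        ord (v.valuation K) (x ^ 3 + (A : K) * x + (B : K)) ∧
      ∀ w : HeightOneSpectrum (𝓞 L), dn K w = v → w ≠ w₁ →
        w.valuation L (algebraMap K L x - θ) = 1 := by
  have hn := h.norm_sub x
  have hu : algebraMap K L x - θ ≠ 0 := by
    intro h0
    rw [h0, Algebra.norm_zero] at hn
    exact hfx hn.symm
  obtain ⟨N1, hN1, hN1'⟩ := Tc_small (fin_above (K := K) (L := L) v).toFinset
    (fun w => w.valuation L (algebraMap K L x - θ)) (fun w _ => (Valuation.ne_zero_iff _).2 hu)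
  obtain ⟨N2, hN2, hN2'⟩ := Tc_small ({0} : Finset ℕ)
    (fun _ => v.valuation K (x ^ 3 + (A : K) * x + (B : K))) (fun w _ => (Valuation.ne_zero_iff _).2 hfx)
  have hN2'' := hN2' 0 (Finset.mem_singleton_self _)
  obtain ⟨N, hN⟩ : ∃ N, N = N1 + N2 := ⟨_, rfl⟩
  have hN0 : 0 ≤ N := by omega
  have hNN1 : exp (-N) ≤ (exp (-N1) : ℤᵐ⁰) := by rw [exp_le_exp]; omega
  have hNN2 : exp (-N) ≤ (exp (-N2) : ℤᵐ⁰) := by rw [exp_le_exp]; omega
  obtain ⟨a, ha⟩ := v.exists_valuation_sub_lt_of_integer hx (Units.mk0 (exp (-N)) exp_ne_zero)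
  rw [Units.val_mk0] at ha
  have ha' : v.valuation K ((a : K) - x) < exp (-N) := ha
  -- the value of f
  have hvA : v.valuation K (A : K) ≤ 1 := v.valuation_le_one A
  have hva : v.valuation K (a : K) ≤ 1 := v.valuation_le_one a
  have hfd : v.valuation K (((a : K) ^ 3 + (A : K) * (a : K) + (B : K)) - (x ^ 3 + (A : K) * x + (B : K))) <
      v.valuation K (x ^ 3 + (A : K) * x + (B : K)) := by
    have e1 : ((a : K) ^ 3 + (A : K) * (a : K) + (B : K)) - (x ^ 3 + (A : K) * x + (B : K)) =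
        ((a : K) - x) * ((a : K) ^ 2 + (a : K) * x + x ^ 2 + (A : K)) := by ring
    have e2 : v.valuation K ((a : K) ^ 2 + (a : K) * x + x ^ 2 + (A : K)) ≤ 1 := by
      refine (v.valuation K).map_add_le ((v.valuation K).map_add_le ((v.valuation K).map_add_le ?_ ?_) ?_) hvA
      · rw [map_pow]; exact pow_le_one' hva 2
      · rw [map_mul]; exact mul_le_one' hva hx
      · rw [map_pow]; exact pow_le_one' hx 2
    rw [e1, map_mul]
    calc _ ≤ v.valuation K ((a : K) - x) * 1 := mul_le_mul_right e2 _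
      _ < _ := by rw [mul_one]; exact ha'.trans_le (hNN2.trans hN2''.le)
  have hfa : v.valuation K ((a : K) ^ 3 + (A : K) * (a : K) + (B : K)) =
      v.valuation K (x ^ 3 + (A : K) * x + (B : K)) := Valuation.map_eq_of_sub_lt _ hfd
  have hfa0 : (a : K) ^ 3 + (A : K) * (a : K) + (B : K) ≠ 0 := by
    rw [← Valuation.ne_zero_iff (v.valuation K), hfa]
    exact (Valuation.ne_zero_iff _).2 hfx
  have hwa : ∀ w : HeightOneSpectrum (𝓞 L), dn K w = v →
      w.valuation L (algebraMap K L (a : K) - θ) = w.valuation L (algebraMap K L x - θ) := by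
    intro w hw
    refine Valuation.map_eq_of_sub_lt _ ?_
    have e1 : (algebraMap K L (a : K) - θ) - (algebraMap K L x - θ) = algebraMap K L ((a : K) - x) := by
      rw [map_sub]; ring
    rw [e1]
    have e2 : w.valuation L (algebraMap K L ((a : K) - x)) ≤ exp (-N) := by
      refine val_exp_le hN0 ?_
      rw [hw]
      exact ha'.le
    refine lt_of_le_of_lt (e2.trans hNN1) (hN1' w ?_)
    rw [Set.Finite.mem_toFinset]
    exact hw
  obtain ⟨w₁, hw1, hw2, hw3⟩ := Tc_intL h hd a hfa0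
  refine ⟨w₁, hw1, ?_, fun w hw hne => ?_⟩
  · unfold ord at hw2 ⊢
    rw [← hwa w₁ hw1, ← hfa]
    exact hw2
  · rw [← hwa w hw]
    exact hw3 w hw hne

theorem ord_sub_loc {a b : K} {θ : L} (h : Cub K L a b θ) {v : HeightOneSpectrum (𝓞 K)}
    (ha : v.valuation K a ≤ 1) (hb : v.valuation K b ≤ 1)
    (hd : exp (-1 : ℤ) ≤ v.valuation K (4 * a ^ 3 + 27 * b ^ 2))
    {x : K} (hx : v.valuation K x ≤ 1) (hfx : x ^ 3 + a * x + b ≠ 0) :
    ∃ w₁ : HeightOneSpectrum (𝓞 L), dn K w₁ = v ∧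
      ord (w₁.valuation L) (algebraMap K L x - θ) = ord (v.valuation K) (x ^ 3 + a * x + b) ∧
      ∀ w : HeightOneSpectrum (𝓞 L), dn K w = v → w ≠ w₁ →
        w.valuation L (algebraMap K L x - θ) = 1 := by
  obtain ⟨na, ⟨da, hda⟩, ea⟩ := v.exists_primeCompl_mul_eq_of_integer a ha
  obtain ⟨nb, ⟨db, hdb⟩, eb⟩ := v.exists_primeCompl_mul_eq_of_integer b hb
  have ea' : a * (da : K) = (na : K) := ea
  have eb' : b * (db : K) = (nb : K) := eb
  have hda' : da ∉ v.asIdeal := hda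
  have hdb' : db ∉ v.asIdeal := hdb
  obtain ⟨s, hs⟩ : ∃ s : 𝓞 K, s = da * db := ⟨_, rfl⟩
  have hsv : s ∉ v.asIdeal := by
    rw [hs]
    intro h0
    rcases v.isPrime.mem_or_mem h0 with h1 | h1
    · exact hda' h1
    · exact hdb' h1
  have hsK : (s : K) = (da : K) * (db : K) := by
    rw [hs]
    rfl
  have hvs : v.valuation K (s : K) = 1 :=
    (HeightOneSpectrum.valuation_eq_one_iff_notMem (K := K) (v := v)).2 hsv
  have hs0 : (s : K) ≠ 0 := by
    rw [← Valuation.ne_zero_iff (v.valuation K), hvs]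
    exact one_ne_zero
  obtain ⟨A, hA⟩ : ∃ A : 𝓞 K, (A : K) = (s : K) ^ 2 * a := by
    refine ⟨s * db * na, ?_⟩
    change (s : K) * (db : K) * (na : K) = (s : K) ^ 2 * a
    rw [← ea', hsK]
    ring
  obtain ⟨B, hB⟩ : ∃ B : 𝓞 K, (B : K) = (s : K) ^ 3 * b := by
    refine ⟨s ^ 2 * da * nb, ?_⟩
    change (s : K) ^ 2 * (da : K) * (nb : K) = (s : K) ^ 3 * b
    rw [← eb', hsK]
    ring
  have hC : Cub K L (A : K) (B : K) (algebraMap K L (s : K) * θ) := by
    rw [hA, hB]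
    exact h.twist hs0
  have hdsc : dsc A B ∉ v.asIdeal ^ 2 := by
    rw [← v.intValuation_le_pow_iff_mem]
    have e1 : ((dsc A B : 𝓞 K) : K) = (s : K) ^ 6 * (4 * a ^ 3 + 27 * b ^ 2) := by
      change algebraMap (𝓞 K) K (dsc A B) = _
      unfold dsc
      rw [map_add, map_mul, map_mul, map_pow, map_pow]
      change algebraMap (𝓞 K) K 4 * (A : K) ^ 3 + algebraMap (𝓞 K) K 27 * (B : K) ^ 2 = _
      rw [hA, hB, map_ofNat, map_ofNat]
      ring
    have e2 : v.intValuation (dsc A B) = v.valuation K ((s : K) ^ 6 * (4 * a ^ 3 + 27 * b ^ 2)) := by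
      rw [← e1]
      exact (v.valuation_of_algebraMap (dsc A B)).symm
    rw [e2, map_mul, map_pow, hvs, one_pow, one_mul, not_le]
    refine lt_of_lt_of_le ?_ hd
    rw [exp_lt_exp]
    norm_num
  have hx' : v.valuation K ((s : K) * x) ≤ 1 := by
    rw [map_mul, hvs, one_mul]
    exact hx
  have e3 : ((s : K) * x) ^ 3 + (A : K) * ((s : K) * x) + (B : K) =
      (s : K) ^ 3 * (x ^ 3 + a * x + b) := by
    rw [hA, hB]
    ring
  have hfx' : ((s : K) * x) ^ 3 + (A : K) * ((s : K) * x) + (B : K) ≠ 0 := by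
    rw [e3]
    exact mul_ne_zero (pow_ne_zero 3 hs0) hfx
  have e4 : algebraMap K L ((s : K) * x) - algebraMap K L (s : K) * θ =
      algebraMap K L (s : K) * (algebraMap K L x - θ) := by
    rw [map_mul]
    ring
  have hws : ∀ w : HeightOneSpectrum (𝓞 L), dn K w = v →
      w.valuation L (algebraMap K L (s : K)) = 1 := by
    intro w hw
    exact val_one (by rw [hw]; exact hvs)
  obtain ⟨w₁, hw1, hw2, hw3⟩ := ord_subL hC hdsc hx' hfx'
  refine ⟨w₁, hw1, ?_, fun w hw hne => ?_⟩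
  · rw [e3, e4] at hw2
    unfold ord at hw2 ⊢
    rw [map_mul, map_mul, map_pow, hws w₁ hw1, hvs, one_pow, one_mul, one_mul] at hw2
    exact hw2
  · have h5 := hw3 w hw hne
    rw [e4, map_mul, hws w hw, one_mul] at h5
    exact h5

end H36MT

end S_H36_MT_Tc

section S_H36_MT_Tf

set_option autoImplicit false
set_option linter.unusedSectionVars false
open scoped Classical

open WithZero NumberField IsDedekindDomain H38RT
open H38T1 (SC sc scu rep eo la si Pri OddP tp unif)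
open H76PP

namespace H36MT

variable {K L : Type} [Field K] [NumberField K] [Field L] [NumberField L] [Algebra K L]

theorem even_offS {S : Finset (HeightOneSpectrum (𝓞 K))} {e : ℕ} {q₀ : HeightOneSpectrum (𝓞 K)}
    {T J : Finset (HeightOneSpectrum (𝓞 K))}
    {A B : 𝓞 K} (hF : FamS S e q₀ T A B) {θ : L} (h : Cub K L (A : K) (B : K) θ) {D : K}
    (hD : TwS S q₀ J D) {d : Fin 3 → K} (hd : ev (algebraMap K L D * θ) d ≠ 0)
    {w : HeightOneSpectrum (𝓞 L)} (hwS : dn K w ∉ S) (hw : dn K w ∉ J)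
    (hLC : LC (algebraMap K ((dn K w).adicCompletion K)) (D ^ 2 * A) (D ^ 3 * B) d) :
    eo w (sc (ev (algebraMap K L D * θ) d)) = 0 := by
  have hD0 := hD.ne
  have hDL : algebraMap K L D ≠ 0 := (map_ne_zero _).2 hD0
  obtain ⟨x', y, z, hy, hz, h1, h2⟩ := LC_approx (Tf_twist h hD0) hd (dn K w) hLC
  have h2w := h2 w rfl
  obtain ⟨x, rfl⟩ : ∃ x : K, x' = D * x := ⟨x' / D, by field_simp⟩
  obtain ⟨h3, h4⟩ := Tf_ratio ((dn K w).valuation K) (pow_ne_zero 2 hy) h1
  obtain ⟨h5, h6⟩ := Tf_ratio (w.valuation L) (pow_ne_zero 2 hz) h2w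
  have e1 : (D * x) ^ 3 + D ^ 2 * (A : K) * (D * x) + D ^ 3 * (B : K) =
      D ^ 3 * (x ^ 3 + (A : K) * x + (B : K)) := by ring
  have e2 : ev (algebraMap K L D * θ) d * (algebraMap K L (D * x) - algebraMap K L D * θ) =
      ev (algebraMap K L D * θ) d * (algebraMap K L D * (algebraMap K L x - θ)) := by
    rw [map_mul]
    ring
  rw [e1] at h3 h4
  rw [e2] at h5 h6
  have hf : x ^ 3 + (A : K) * x + (B : K) ≠ 0 := right_ne_zero_of_mul h3
  have hxt : algebraMap K L x - θ ≠ 0 := right_ne_zero_of_mul (right_ne_zero_of_mul h5)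
  rw [ord_mul (pow_ne_zero 3 hD0) hf, Tf_ord_pow, Tf_ord_pow] at h4
  rw [ord_mul hd (mul_ne_zero hDL hxt), ord_mul hDL hxt, Tf_ord_pow] at h6
  obtain ⟨e, -, he⟩ := ord_dn (K := K) w
  have key : Even (ord (w.valuation L) (algebraMap K L D) +
      ord (w.valuation L) (algebraMap K L x - θ)) := by
    rw [he D hD0]
    by_cases hx : (dn K w).valuation K x ≤ 1
    · obtain ⟨w₁, -, hw1, hw2⟩ := ord_subL h (hF.sqf _ hwS) hx hf
      have hcase : Even (ord ((dn K w).valuation K) (x ^ 3 + (A : K) * x + (B : K))) →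
          Even (ord (w.valuation L) (algebraMap K L x - θ)) := by
        intro hev
        by_cases hww : w = w₁
        · rw [hww, hw1]
          exact hev
        · rw [Tf_ord_one _ (hw2 w rfl hww)]
          exact Even.zero
      have hf0 : Even (ord ((dn K w).valuation K) (x ^ 3 + (A : K) * x + (B : K))) := by
        by_cases hq : dn K w = q₀
        · rw [Tf_ord_one]
          · exact Even.zero
          · refine Tf_unit (dn K w) ?_ hx
            rw [hq]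
            exact hF.irr
        · obtain ⟨m, hm⟩ := hD.even (dn K w) hwS hw hq
          refine ⟨ord ((dn K w).valuation K) y - 3 * m, ?_⟩
          push_cast at h4
          rw [hm] at h4
          linarith
      have hDe : Even (ord ((dn K w).valuation K) D) := by
        obtain ⟨m, hm⟩ := hf0
        refine ⟨ord ((dn K w).valuation K) y - m - ord ((dn K w).valuation K) D, ?_⟩
        push_cast at h4
        linarith
      exact (hDe.mul_left _).add (hcase hf0)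
    · rw [not_le] at hx
      obtain ⟨g1, -, -, g4⟩ := ord_sub_big (w := w) h hx
      have hx0 : x ≠ 0 := by
        rintro rfl
        rw [map_zero] at hx
        exact absurd hx (not_lt.2 zero_le)
      have g5 : ord (w.valuation L) (algebraMap K L x - θ) =
          e * ord ((dn K w).valuation K) x := by
        rw [← he x hx0]
        unfold ord
        rw [g1]
      have g6 : ord ((dn K w).valuation K) (x ^ 3 + (A : K) * x + (B : K)) =
          3 * ord ((dn K w).valuation K) x := by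
        have g7 := Tf_ord_pow ((dn K w).valuation K) x 3
        rw [Nat.cast_ofNat] at g7
        rw [← g7]
        unfold ord
        rw [g4, map_pow]
      rw [g5, ← mul_add]
      refine Even.mul_left ?_ _
      refine ⟨ord ((dn K w).valuation K) y - ord ((dn K w).valuation K) D -
        ord ((dn K w).valuation K) x, ?_⟩
      rw [g6] at h4
      push_cast at h4
      linarith
  rw [H38T1.eo_sc hd]
  obtain ⟨m, hm⟩ := key
  have h7 : ord (w.valuation L) (ev (algebraMap K L D * θ) d) =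
      (ord (w.valuation L) z - m) + (ord (w.valuation L) z - m) := by
    push_cast at h6
    linarith
  rw [h7, Int.cast_add]
  exact CharTwo.add_self_eq_zero _

end H36MT

end S_H36_MT_Tf

section S_H36_MT_Td

set_option autoImplicit false
set_option linter.unusedSectionVars false
open scoped Classical

open WithZero NumberField IsDedekindDomain H38RT
open H76PP

namespace H36MT

variable {K L : Type} [Field K] [NumberField K] [Field L] [NumberField L] [Algebra K L]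

section Abstract

variable {R S : Type*} [CommRing R] [CommRing S] {a : R →+* S} {θ : S} {A B : R}

/-- the coordinates of an element of the extended ideal -/
private theorem TdL_V (hroot : θ ^ 3 + a A * θ + a B = 0) (P : Ideal R) (hP : P.IsPrime)
    (hden : ∀ y : S, ∃ m : R, m ∉ P ∧ ∃ c0 c1 c2 : R, a m * y = a c0 + a c1 * θ + a c2 * θ ^ 2)
    {y : S} (hy : y ∈ P.map a) : ∃ m : R, m ∉ P ∧ ∃ c0 ∈ P, ∃ c1 ∈ P, ∃ c2 ∈ P,
      a m * y = a c0 + a c1 * θ + a c2 * θ ^ 2 := by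
  have h1P : (1 : R) ∉ P := fun h => hP.ne_top ((Ideal.eq_top_iff_one P).2 h)
  have hmul : ∀ x y : R, x ∉ P → y ∉ P → x * y ∉ P := fun x y hx hy hxy =>
    (hP.mem_or_mem hxy).elim hx hy
  let V : Ideal S :=
    { carrier := {y | ∃ m : R, m ∉ P ∧ ∃ c0 ∈ P, ∃ c1 ∈ P, ∃ c2 ∈ P,
        a m * y = a c0 + a c1 * θ + a c2 * θ ^ 2}
      add_mem' := by
        rintro x y ⟨m, hm, c0, h0, c1, h1, c2, h2, e⟩ ⟨n, hn, d0, k0, d1, k1, d2, k2, e'⟩
        refine ⟨m * n, hmul m n hm hn, n * c0 + m * d0,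
          P.add_mem (P.mul_mem_left _ h0) (P.mul_mem_left _ k0), n * c1 + m * d1,
          P.add_mem (P.mul_mem_left _ h1) (P.mul_mem_left _ k1), n * c2 + m * d2,
          P.add_mem (P.mul_mem_left _ h2) (P.mul_mem_left _ k2), ?_⟩
        simp only [map_add, map_mul]
        linear_combination a n * e + a m * e'
      zero_mem' := ⟨1, h1P, 0, P.zero_mem, 0, P.zero_mem, 0, P.zero_mem, by simp⟩
      smul_mem' := by
        rintro z y ⟨m, hm, c0, h0, c1, h1, c2, h2, e⟩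
        obtain ⟨n, hn, d0, d1, d2, e'⟩ := hden z
        refine ⟨n * m, hmul n m hn hm, d0 * c0 - B * (d1 * c2 + d2 * c1), ?_,
          d0 * c1 + d1 * c0 - A * (d1 * c2 + d2 * c1) - B * (d2 * c2), ?_,
          d0 * c2 + d1 * c1 + d2 * c0 - A * (d2 * c2), ?_, ?_⟩
        · exact P.sub_mem (P.mul_mem_left _ h0) (P.mul_mem_left _
            (P.add_mem (P.mul_mem_left _ h2) (P.mul_mem_left _ h1)))
        · exact P.sub_mem (P.sub_mem (P.add_mem (P.mul_mem_left _ h1) (P.mul_mem_left _ h0))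
            (P.mul_mem_left _ (P.add_mem (P.mul_mem_left _ h2) (P.mul_mem_left _ h1))))
            (P.mul_mem_left _ (P.mul_mem_left _ h2))
        · exact P.sub_mem (P.add_mem (P.add_mem (P.mul_mem_left _ h2) (P.mul_mem_left _ h1))
            (P.mul_mem_left _ h0)) (P.mul_mem_left _ (P.mul_mem_left _ h2))
        · simp only [smul_eq_mul, map_add, map_sub, map_mul]
          have e2 : a n * a m * (z * y) = (a n * z) * (a m * y) := by ring
          rw [e2, e, e']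
          linear_combination (a d1 * a c2 + a d2 * a c1 + a d2 * a c2 * θ) * hroot }
  have h1 : P.map a ≤ V := by
    rw [Ideal.map_le_iff_le_comap]
    intro p hp
    exact ⟨1, h1P, p, hp, 0, P.zero_mem, 0, P.zero_mem, by simp⟩
  exact h1 hy

/-- the second place: `J = P + (g)` -/
private theorem TdL_J (hroot : θ ^ 3 + a A * θ + a B = 0)
    (hli : ∀ c0 c1 c2 : R, a c0 + a c1 * θ + a c2 * θ ^ 2 = 0 → c0 = 0 ∧ c1 = 0 ∧ c2 = 0)
    {P : Ideal R} (hP : P.IsMaximal)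
    (hden : ∀ y : S, ∃ m : R, m ∉ P ∧ ∃ c0 c1 c2 : R, a m * y = a c0 + a c1 * θ + a c2 * θ ^ 2) {t : R} (ht : t ^ 3 + A * t + B ∈ P)
    (hs : ∀ s : R, -3 * t ^ 2 - 4 * A - s ^ 2 ∉ P) {J : Ideal S}
    (hJ : J = P.map a ⊔ Ideal.span {θ ^ 2 + a t * θ + a t ^ 2 + a A}) :
    (θ - a t) * (θ ^ 2 + a t * θ + a t ^ 2 + a A) ∈ P.map a ∧ J.IsMaximal ∧
      (∀ x : R, a x ∈ J ↔ x ∈ P) ∧ ∀ b : R, θ - a b ∉ J := by
  obtain ⟨g, hg⟩ : ∃ g, g = θ ^ 2 + a t * θ + a t ^ 2 + a A := ⟨_, rfl⟩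
  rw [← hg] at hJ ⊢
  have hVJ : P.map a ≤ J := by
    rw [hJ]
    exact le_sup_left
  have hgJ : g ∈ J := by
    rw [hJ]
    exact Ideal.mem_sup_right (Ideal.mem_span_singleton_self g)
  have hτg : (θ - a t) * g ∈ P.map a := by
    have h1 : (θ - a t) * g = a (-(t ^ 3 + A * t + B)) := by
      rw [hg]
      simp only [map_neg, map_add, map_mul, map_pow]
      linear_combination hroot
    rw [h1]
    exact Ideal.mem_map_of_mem a (P.neg_mem ht)
  have h1P : (1 : R) ∉ P := fun h => hP.ne_top ((Ideal.eq_top_iff_one P).2 h)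
  have h1J : (1 : S) ∉ J := by
    intro h
    rw [hJ] at h
    obtain ⟨α, hα, γ, hγ, he⟩ := Submodule.mem_sup.1 h
    obtain ⟨β, hβ⟩ := Ideal.mem_span_singleton'.1 hγ
    have h2 : θ - a t ∈ P.map a := by
      have h3 : θ - a t = (θ - a t) * α + β * ((θ - a t) * g) := by
        have h4 : θ - a t = (θ - a t) * (α + γ) := by rw [he, mul_one]
        rw [← hβ] at h4
        linear_combination h4
      rw [h3]
      exact Ideal.add_mem _ (Ideal.mul_mem_left _ _ hα) (Ideal.mul_mem_left _ _ hτg)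
    obtain ⟨m, hm, c0, h0, c1, h1, c2, h2', he2⟩ := TdL_V hroot P hP.isPrime hden h2
    obtain ⟨-, e1, -⟩ := hli (c0 + m * t) (c1 - m) c2 (by
      rw [map_add, map_sub, map_mul]
      linear_combination -he2)
    apply hm
    rw [← sub_eq_zero.1 e1]
    exact h1
  have hcomap : ∀ x : R, a x ∈ J ↔ x ∈ P := by
    have h2 : P = J.comap a := by
      refine hP.eq_of_le ?_ ?_
      · rw [Ne, Ideal.eq_top_iff_one, Ideal.mem_comap, map_one]
        exact h1J
      · rw [← Ideal.map_le_iff_le_comap]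
        exact hVJ
    intro x
    rw [h2, Ideal.mem_comap]
  have hb : ∀ b : R, θ - a b ∉ J := by
    intro b hb
    have h2 : a (b ^ 2 + t * b + t ^ 2 + A) ∈ J := by
      have h3 : a (b ^ 2 + t * b + t ^ 2 + A) = g - (θ + a b + a t) * (θ - a b) := by
        rw [hg]
        simp only [map_add, map_mul, map_pow]
        ring
      rw [h3]
      exact J.sub_mem hgJ (J.mul_mem_left _ hb)
    rw [hcomap] at h2
    apply hs (2 * b + t)
    have h3 : -3 * t ^ 2 - 4 * A - (2 * b + t) ^ 2 = (-4) * (b ^ 2 + t * b + t ^ 2 + A) := by ring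
    rw [h3]
    exact P.mul_mem_left _ h2
  refine ⟨hτg, ?_, hcomap, hb⟩
  rw [Ideal.isMaximal_iff]
  refine ⟨h1J, fun I x₀ hJI hx₀ hxI₀ => ?_⟩
  have hinv : ∀ x : R, x ∉ P → ∃ y, x * y - 1 ∈ P := by
    intro x hx
    obtain ⟨y, i, hi, he⟩ := hP.exists_inv hx
    refine ⟨y, ?_⟩
    have h2 : x * y - 1 = -i := by linear_combination he
    rw [h2]
    exact P.neg_mem hi
  obtain ⟨m, hm, c0, c1, c2, hx₁⟩ := hden x₀
  have hx : a c0 + a c1 * θ + a c2 * θ ^ 2 ∉ J := by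
    intro hcon
    apply hx₀
    obtain ⟨m', hm'⟩ := hinv m hm
    have e0 : x₀ = a m' * (a c0 + a c1 * θ + a c2 * θ ^ 2) - x₀ * a (m * m' - 1) := by
      rw [← hx₁]
      simp only [map_sub, map_mul, map_one]
      ring
    rw [e0]
    exact J.sub_mem (J.mul_mem_left _ hcon)
      (J.mul_mem_left _ (hVJ (Ideal.mem_map_of_mem a hm')))
  have hxI : a c0 + a c1 * θ + a c2 * θ ^ 2 ∈ I := by
    rw [← hx₁]
    exact I.mul_mem_left _ hxI₀
  obtain ⟨p, hp⟩ : ∃ p, p = c0 - c2 * (t ^ 2 + A) := ⟨_, rfl⟩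
  obtain ⟨q, hq⟩ : ∃ q, q = c1 - c2 * t := ⟨_, rfl⟩
  have e1 : a c0 + a c1 * θ + a c2 * θ ^ 2 = a p + a q * θ + a c2 * g := by
    rw [hp, hq, hg]
    simp only [map_add, map_mul, map_pow, map_sub]
    ring
  have hpq : p ∈ P → q ∉ P := by
    intro h1 h2
    apply hx
    rw [e1]
    exact J.add_mem (J.add_mem ((hcomap p).2 h1) (J.mul_mem_right _ ((hcomap q).2 h2)))
      (J.mul_mem_left _ hgJ)
  obtain ⟨n, hn⟩ : ∃ n, n = p ^ 2 - p * q * t + q ^ 2 * (t ^ 2 + A) := ⟨_, rfl⟩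
  have hnP : n ∉ P := by
    intro hnP
    by_cases hqP : q ∈ P
    · have h2 : p ^ 2 ∈ P := by
        have h3 : p ^ 2 = n + (p * t - q * (t ^ 2 + A)) * q := by
          rw [hn]
          ring
        rw [h3]
        exact P.add_mem hnP (P.mul_mem_left _ hqP)
      exact hpq (hP.isPrime.mem_of_pow_mem 2 h2) hqP
    · obtain ⟨q', hq'⟩ := hinv q hqP
      apply hs ((2 * p - q * t) * q')
      have h3 : -3 * t ^ 2 - 4 * A - ((2 * p - q * t) * q') ^ 2 =
          (-4 * q' ^ 2) * n + ((3 * t ^ 2 + 4 * A) * (q * q' + 1)) * (q * q' - 1) := by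
        rw [hn]
        ring
      rw [h3]
      exact P.add_mem (P.mul_mem_left _ hnP) (P.mul_mem_left _ hq')
  obtain ⟨n', hn'⟩ := hinv n hnP
  have h5 : (a c0 + a c1 * θ + a c2 * θ ^ 2) * ((a p - a q * a t - a q * θ) * a n') ∈ I :=
    I.mul_mem_right _ hxI
  have h6 : (a c0 + a c1 * θ + a c2 * θ ^ 2) * ((a p - a q * a t - a q * θ) * a n') - 1 ∈ J := by
    have h7 : (a c0 + a c1 * θ + a c2 * θ ^ 2) * ((a p - a q * a t - a q * θ) * a n') - 1 =
        a (n * n' - 1) + ((a c2 * (a p - a q * a t - a q * θ) - a q ^ 2) * a n') * g := by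
      rw [e1, hn, hg]
      simp only [map_add, map_mul, map_pow, map_sub, map_one]
      ring
    rw [h7]
    exact J.add_mem ((hcomap _).2 hn') (J.mul_mem_left _ hgJ)
  have h8 := I.sub_mem h5 (hJI h6)
  rwa [sub_sub_cancel] at h8

end Abstract

private theorem TdL_ord {w w' : HeightOneSpectrum (𝓞 L)} {v : HeightOneSpectrum (𝓞 K)}
    (hne : w ≠ w') (hdn : dn K w = v)
    (hle : w.asIdeal * w'.asIdeal ≤ v.asIdeal.map (algebraMap (𝓞 K) (𝓞 L))) (x : K)
    (hx : x ≠ 0) : ord (w.valuation L) (algebraMap K L x) = ord (v.valuation K) x := by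
  obtain ⟨e, he, hord⟩ := ord_dn (K := K) w
  have he1 : e = 1 := by
    by_contra hne1
    have he2 : (2 : ℤ) ≤ e := by
      have : 2 ≤ e := by omega
      exact_mod_cast this
    have hV : v.asIdeal.map (algebraMap (𝓞 K) (𝓞 L)) ≤ w.asIdeal ^ 2 := by
      rw [Ideal.map_le_iff_le_comap]
      intro p hp
      rw [Ideal.mem_comap]
      rcases eq_or_ne p 0 with rfl | hp0
      · rw [map_zero]
        exact zero_mem _
      have hpK : (p : K) ≠ 0 := RingOfIntegers.coe_ne_zero_iff.mpr hp0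
      have h1 : v.valuation K (p : K) < 1 := (v.valuation_lt_one_iff_mem (K := K) p).2 hp
      have h2 : 1 ≤ ord (v.valuation K) (p : K) := by
        unfold ord
        have h3 : v.valuation K (p : K) ≠ 0 := (Valuation.ne_zero_iff _).2 hpK
        rw [← exp_zero, ← log_lt_iff_lt_exp h3] at h1
        omega
      have h4 := hord (p : K) hpK
      rw [hdn] at h4
      rw [← w.intValuation_le_pow_iff_mem, ← w.valuation_of_algebraMap (K := L)]
      have h5 : algebraMap (𝓞 L) L (algebraMap (𝓞 K) (𝓞 L) p) = algebraMap K L (p : K) := rfl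
      change w.valuation L (algebraMap (𝓞 L) L (algebraMap (𝓞 K) (𝓞 L) p)) ≤ _
      rw [h5]
      have h6 : w.valuation L (algebraMap K L (p : K)) ≠ 0 :=
        (Valuation.ne_zero_iff _).2 ((map_ne_zero _).2 hpK)
      rw [← exp_log h6, exp_le_exp]
      unfold ord at h4 h2
      push_cast
      nlinarith
    have h1 : w.asIdeal ^ 2 ∣ w.asIdeal * w'.asIdeal := Ideal.dvd_iff_le.2 (hle.trans hV)
    rw [sq] at h1
    have h2 : w.asIdeal ∣ w'.asIdeal := (mul_dvd_mul_iff_left (show w.asIdeal ≠ 0 from w.ne_bot)).1 h1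
    have h3 := Ideal.dvd_iff_le.1 h2
    exact hne (HeightOneSpectrum.ext (w'.isMaximal.eq_of_le w.isPrime.ne_top h3).symm)
  have h1 := hord x hx
  rw [he1, hdn] at h1
  rw [h1]
  push_cast
  rw [one_mul]

theorem exists_twoL {A B : 𝓞 K} {θ : L} (h : Cub K L (A : K) (B : K) θ)
    {v : HeightOneSpectrum (𝓞 K)} (hd : dsc A B ∉ v.asIdeal ^ 2) (h6 : (6 : 𝓞 K) ∉ v.asIdeal)
    (ht : ∃ t : 𝓞 K, t ^ 3 + A * t + B ∈ v.asIdeal ∧
      ∀ s : 𝓞 K, -3 * t ^ 2 - 4 * A - s ^ 2 ∉ v.asIdeal) :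
    ∃ w₁ w₂ : HeightOneSpectrum (𝓞 L), Two K θ v w₁ w₂ := by
  obtain ⟨t, ht, hs⟩ := ht
  have hl : LB h v := lb_of h hd
  obtain ⟨θ', hθ'⟩ := theta_int h
  obtain ⟨w₁, χ, hd1, hχ, hχa, hχc⟩ := exists_placeL h hl ht
  have hinjL := FaithfulSMul.algebraMap_injective (𝓞 L) L
  have hsc : ∀ r : 𝓞 K, algebraMap (𝓞 L) L (algebraMap (𝓞 K) (𝓞 L) r) = algebraMap K L (r : K) :=
    fun _ => rfl
  have hθL : algebraMap (𝓞 L) L θ' = θ := hθ'
  have hden : ∀ y : 𝓞 L, ∃ m : 𝓞 K, m ∉ v.asIdeal ∧ ∃ c0 c1 c2 : 𝓞 K,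
      algebraMap (𝓞 K) (𝓞 L) m * y = algebraMap (𝓞 K) (𝓞 L) c0 +
      algebraMap (𝓞 K) (𝓞 L) c1 * θ' + algebraMap (𝓞 K) (𝓞 L) c2 * θ' ^ 2 := by
    intro y
    obtain ⟨m, hm, c, hc⟩ := hl.den y
    refine ⟨m, hm, c 0, c 1, c 2, hinjL ?_⟩
    rw [map_add, map_add, map_mul, map_mul, map_mul, map_pow, hsc, hsc, hsc, hsc, hθL, ← hc, ← hc,
      ← hc, map_mul, map_mul, map_mul]
    have e1 := h.eq_co (y : L)
    have e2 : algebraMap (𝓞 L) L y = (y : L) := rfl
    rw [e2]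
    linear_combination (algebraMap K L (m : K)) * e1
  have hli : ∀ c0 c1 c2 : 𝓞 K, algebraMap (𝓞 K) (𝓞 L) c0 + algebraMap (𝓞 K) (𝓞 L) c1 * θ' +
      algebraMap (𝓞 K) (𝓞 L) c2 * θ' ^ 2 = 0 → c0 = 0 ∧ c1 = 0 ∧ c2 = 0 := by
    intro c0 c1 c2 h0
    have h1 := congrArg (algebraMap (𝓞 L) L) h0
    rw [map_add, map_add, map_mul, map_mul, map_pow, hsc, hsc, hsc, hθL, map_zero] at h1
    obtain ⟨e0, e1, e2⟩ := h.li _ _ _ h1
    exact ⟨RingOfIntegers.ext e0, RingOfIntegers.ext e1, RingOfIntegers.ext e2⟩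
  have hroot : θ' ^ 3 + algebraMap (𝓞 K) (𝓞 L) A * θ' + algebraMap (𝓞 K) (𝓞 L) B = 0 := by
    apply hinjL
    rw [map_add, map_add, map_mul, map_pow, hsc, hsc, hθL, map_zero]
    exact h.root
  have hχθ : χ θ' = Ideal.Quotient.mk v.asIdeal t := by
    have h1 := hχc θ' ![0, 1, 0] (by
      intro i
      have e0 : ((0 : 𝓞 K) : K) = 0 := rfl
      have e1 : ((1 : 𝓞 K) : K) = 1 := rfl
      rw [hθ']
      fin_cases i
      · exact h.co_theta.1.trans e0.symm
      · exact h.co_theta.2.1.trans e1.symm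
      · exact h.co_theta.2.2.trans e0.symm)
    rw [h1]
    congr 1
    simp
  obtain ⟨J, hJ⟩ : ∃ J, J = v.asIdeal.map (algebraMap (𝓞 K) (𝓞 L)) ⊔ Ideal.span
    {θ' ^ 2 + algebraMap (𝓞 K) (𝓞 L) t * θ' + algebraMap (𝓞 K) (𝓞 L) t ^ 2 +
      algebraMap (𝓞 K) (𝓞 L) A} := ⟨_, rfl⟩
  obtain ⟨hτg, hJm, hJc, hJb⟩ := TdL_J hroot hli v.isMaximal hden ht hs hJ
  obtain ⟨g, hg⟩ : ∃ g, g = θ' ^ 2 + algebraMap (𝓞 K) (𝓞 L) t * θ' +
    algebraMap (𝓞 K) (𝓞 L) t ^ 2 + algebraMap (𝓞 K) (𝓞 L) A := ⟨_, rfl⟩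
  obtain ⟨τ, hτ⟩ : ∃ τ, τ = θ' - algebraMap (𝓞 K) (𝓞 L) t := ⟨_, rfl⟩
  rw [← hg] at hJ hτg
  rw [← hτ] at hτg
  have hVJ : v.asIdeal.map (algebraMap (𝓞 K) (𝓞 L)) ≤ J := by
    rw [hJ]
    exact le_sup_left
  have hJ0 : J ≠ ⊥ := by
    rintro rfl
    obtain ⟨p, hp, hp0⟩ := Submodule.exists_mem_ne_zero_of_ne_bot v.ne_bot
    have h1 := hVJ (Ideal.mem_map_of_mem (algebraMap (𝓞 K) (𝓞 L)) hp)
    rw [Ideal.mem_bot] at h1
    exact hp0 ((map_eq_zero_iff _ (FaithfulSMul.algebraMap_injective (𝓞 K) (𝓞 L))).1 h1)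
  obtain ⟨w₂, hw2⟩ : ∃ w₂ : HeightOneSpectrum (𝓞 L), w₂.asIdeal = J := ⟨⟨J, hJm.isPrime, hJ0⟩, rfl⟩
  have hτ1 : τ ∈ w₁.asIdeal := by
    rw [← hχ, hτ, map_sub, hχθ, hχa, sub_self]
  have hτ2 : τ ∉ w₂.asIdeal := by
    rw [hw2, hτ]
    exact hJb t
  have hd2 : dn K w₂ = v := by
    apply HeightOneSpectrum.ext
    ext r
    show algebraMap (𝓞 K) (𝓞 L) r ∈ w₂.asIdeal ↔ r ∈ v.asIdeal
    rw [hw2]
    exact hJc r
  have hdV : ∀ w : HeightOneSpectrum (𝓞 L), dn K w = v →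
      v.asIdeal.map (algebraMap (𝓞 K) (𝓞 L)) ≤ w.asIdeal := by
    intro w hw
    rw [Ideal.map_le_iff_le_comap, ← hw]
    exact le_rfl
  have hw1 : ∀ y ∈ w₁.asIdeal, ∃ α ∈ v.asIdeal.map (algebraMap (𝓞 K) (𝓞 L)), ∃ β : 𝓞 L,
      y = α + β * τ := by
    intro y hy
    obtain ⟨m, hm, c0, c1, c2, e1⟩ := hden y
    obtain ⟨m', i, hi, hmi⟩ := v.isMaximal.exists_inv hm
    have hy' : algebraMap (𝓞 K) (𝓞 L) m * y ∈ w₁.asIdeal := Ideal.mul_mem_left _ _ hy
    rw [e1, ← hχ] at hy'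
    rw [map_add, map_add, map_mul, map_mul, map_pow, hχa, hχa, hχa, hχθ, ← map_pow, ← map_mul,
      ← map_mul, ← map_add, ← map_add, Ideal.Quotient.eq_zero_iff_mem] at hy'
    refine ⟨y * algebraMap (𝓞 K) (𝓞 L) i + algebraMap (𝓞 K) (𝓞 L) m' *
      algebraMap (𝓞 K) (𝓞 L) (c0 + c1 * t + c2 * t ^ 2),
      Ideal.add_mem _ (Ideal.mul_mem_left _ _ (Ideal.mem_map_of_mem (algebraMap (𝓞 K) (𝓞 L)) hi))
        (Ideal.mul_mem_left _ _ (Ideal.mem_map_of_mem (algebraMap (𝓞 K) (𝓞 L)) hy')),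
      algebraMap (𝓞 K) (𝓞 L) m' * (algebraMap (𝓞 K) (𝓞 L) c1 +
        algebraMap (𝓞 K) (𝓞 L) c2 * (θ' + algebraMap (𝓞 K) (𝓞 L) t)), ?_⟩
    have e3 : algebraMap (𝓞 K) (𝓞 L) m' * algebraMap (𝓞 K) (𝓞 L) m +
        algebraMap (𝓞 K) (𝓞 L) i = 1 := by
      rw [← map_mul, ← map_add, hmi, map_one]
    rw [hτ]
    simp only [map_add, map_mul, map_pow]
    linear_combination (-y) * e3 + algebraMap (𝓞 K) (𝓞 L) m' * e1
  have hw2' : ∀ y ∈ w₂.asIdeal, ∃ α ∈ v.asIdeal.map (algebraMap (𝓞 K) (𝓞 L)), ∃ β : 𝓞 L,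
      y = α + β * g := by
    intro y hy
    rw [hw2, hJ] at hy
    obtain ⟨α, hα, γ, hγ, he⟩ := Submodule.mem_sup.1 hy
    obtain ⟨β, hβ⟩ := Ideal.mem_span_singleton'.1 hγ
    exact ⟨α, hα, β, by rw [hβ, he]⟩
  have hne : w₁ ≠ w₂ := by
    intro h'
    rw [h'] at hτ1
    exact hτ2 hτ1
  have hle : w₁.asIdeal * w₂.asIdeal ≤ v.asIdeal.map (algebraMap (𝓞 K) (𝓞 L)) := by
    rw [Ideal.mul_le]
    intro r hr s hs
    obtain ⟨α, hα, β, rfl⟩ := hw1 r hr
    obtain ⟨α', hα', β', rfl⟩ := hw2' s hs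
    have h1 : (α + β * τ) * (α' + β' * g) = (α' + β' * g) * α + (β * τ) * α' +
        (β * β') * (τ * g) := by ring
    rw [h1]
    exact Ideal.add_mem _ (Ideal.add_mem _ (Ideal.mul_mem_left _ _ hα) (Ideal.mul_mem_left _ _ hα'))
      (Ideal.mul_mem_left _ _ hτg)
  refine ⟨w₁, w₂, ⟨hne, hd1, hd2, ?_, fun x hx => TdL_ord hne hd1 hle x hx, fun x hx =>
    TdL_ord hne.symm hd2 (by rw [mul_comm]; exact hle) x hx, ?_⟩⟩
  · intro w hw
    have hV := hdV w hw
    rcases w.isPrime.mem_or_mem (hV hτg) with h1 | h1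
    · left
      have h2 : w₁.asIdeal ≤ w.asIdeal := by
        intro y hy
        obtain ⟨α, hα, β, rfl⟩ := hw1 y hy
        exact Ideal.add_mem _ (hV hα) (Ideal.mul_mem_left _ _ h1)
      exact HeightOneSpectrum.ext (w₁.isMaximal.eq_of_le w.isPrime.ne_top h2).symm
    · right
      have h2 : w₂.asIdeal ≤ w.asIdeal := by
        intro y hy
        obtain ⟨α, hα, β, rfl⟩ := hw2' y hy
        exact Ideal.add_mem _ (hV hα) (Ideal.mul_mem_left _ _ h1)
      exact HeightOneSpectrum.ext (w₂.isMaximal.eq_of_le w.isPrime.ne_top h2).symm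
  · intro x hx
    have h1 : w₂.valuation L (algebraMap K L x) ≤ 1 := val_le (by rw [hd2]; exact hx)
    have h2 : w₂.valuation L θ ≤ 1 := by
      rw [← hθL]
      exact w₂.valuation_le_one θ'
    have h3 : w₂.valuation L (algebraMap K L x - θ) ≤ 1 :=
      (Valuation.map_sub _ _ _).trans (max_le h1 h2)
    refine le_antisymm h3 (not_lt.1 fun h4 => ?_)
    obtain ⟨b, hb⟩ := v.exists_valuation_sub_lt_of_integer hx
      (Units.mk0 (1 : WithZero (Multiplicative ℤ)) one_ne_zero)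
    have hb' : v.valuation K ((b : K) - x) < 1 := hb
    have h5 : w₂.valuation L (algebraMap K L ((b : K) - x)) < 1 := val_lt (by rw [hd2]; exact hb')
    apply hJb b
    rw [← hw2, ← w₂.valuation_lt_one_iff_mem (K := L)]
    have h6 : algebraMap (𝓞 L) L (θ' - algebraMap (𝓞 K) (𝓞 L) b) =
        -((algebraMap K L x - θ) + algebraMap K L ((b : K) - x)) := by
      rw [map_sub (algebraMap (𝓞 L) L), hsc, hθL, map_sub]
      ring
    change w₂.valuation L (algebraMap (𝓞 L) L (θ' - algebraMap (𝓞 K) (𝓞 L) b)) < 1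
    rw [h6, Valuation.map_neg]
    exact (Valuation.map_add _ _ _).trans_lt (max_lt h4 h5)

end H36MT

end S_H36_MT_Td

section S_H36_MT_Tg

set_option autoImplicit false
set_option linter.unusedSectionVars false
open scoped Classical

open WithZero NumberField IsDedekindDomain H38RT
open H38T1 (SC sc scu rep eo la si Pri OddP tp unif)
open H76PP

namespace H36MT

variable {K L : Type} [Field K] [NumberField K] [Field L] [NumberField L] [Algebra K L]

theorem at_JS {S : Finset (HeightOneSpectrum (𝓞 K))} {e : ℕ} {q₀ : HeightOneSpectrum (𝓞 K)}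
    {T J : Finset (HeightOneSpectrum (𝓞 K))}
    {A B : 𝓞 K} (hF : FamS S e q₀ T A B) {θ : L} (h : Cub K L (A : K) (B : K) θ) {D : K}
    (hD : TwS S q₀ J D) {d : Fin 3 → K} (hd : ev (algebraMap K L D * θ) d ≠ 0)
    {v : HeightOneSpectrum (𝓞 K)} (hv : v ∈ J) (hvS : v ∉ S) (h6 : (6 : 𝓞 K) ∉ v.asIdeal)
    {w₁ w₂ : HeightOneSpectrum (𝓞 L)} (h2 : Two K θ v w₁ w₂)
    (hLC : LC (algebraMap K (v.adicCompletion K)) (D ^ 2 * A) (D ^ 3 * B) d) :
    eo w₁ (sc (ev (algebraMap K L D * θ) d)) = 0 ∧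
    (eo w₂ (sc (ev (algebraMap K L D * θ) d)) = 0 →
      la w₁ (sc (ev (algebraMap K L D * θ) d)) = 0 ∧
      la w₂ (sc (ev (algebraMap K L D * θ) d)) = 0) := by
  have h' := Tg_twist h hD.ne
  obtain ⟨x', y, z, hy, hz, h1, hw⟩ := LC_approx h' hd v hLC
  obtain ⟨δ, hδ⟩ : ∃ δ, δ = ev (algebraMap K L D * θ) d := ⟨_, rfl⟩
  rw [← hδ] at hd hw ⊢
  obtain ⟨x, hx'⟩ : ∃ x, x' = D * x := ⟨x' / D, by rw [mul_div_cancel₀ _ hD.ne]⟩
  rw [hx'] at h1 hw
  have hDne := hD.ne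
  have hD' : algebraMap K L D ≠ 0 := (map_ne_zero _).2 hDne
  have e1 : (D * x) ^ 3 + D ^ 2 * (A : K) * (D * x) + D ^ 3 * (B : K) =
      D ^ 3 * (x ^ 3 + (A : K) * x + (B : K)) := by ring
  rw [e1] at h1
  have e2 : δ * (algebraMap K L (D * x) - algebraMap K L D * θ) =
      δ * (algebraMap K L D * (algebraMap K L x - θ)) := by
    rw [map_mul]
    ring
  rw [e2] at hw
  have hoddv : OddP v := by
    by_contra hno
    rw [H38T1.not_oddP] at hno
    apply h6
    have h3 : (2 : 𝓞 K) ∈ v.asIdeal := by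
      rw [← HeightOneSpectrum.valuation_lt_one_iff_mem (K := K)]
      have h4 : (algebraMap (𝓞 K) K) 2 = 2 := map_ofNat (algebraMap (𝓞 K) K) 2
      change v.valuation K (algebraMap (𝓞 K) K 2) < 1
      rw [h4]
      exact hno
    have h5 : (6 : 𝓞 K) = 3 * 2 := by norm_num
    rw [h5]
    exact v.asIdeal.mul_mem_left _ h3
  have hodd1 : OddP w₁ := by
    rw [oddP_dn (K := K), h2.dn1]
    exact hoddv
  have hodd2 : OddP w₂ := by
    rw [oddP_dn (K := K), h2.dn2]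
    exact hoddv
  obtain ⟨f, hf⟩ : ∃ f, f = x ^ 3 + (A : K) * x + (B : K) := ⟨_, rfl⟩
  have r0 := Tg_rel h1 hy
  rw [← hf] at r0
  obtain ⟨n0, r0⟩ := r0
  have hf0 : f ≠ 0 := right_ne_zero_of_mul n0
  have hDDD : ord (v.valuation K) (D ^ 3) = 3 * ord (v.valuation K) D := by
    have h3 : D ^ 3 = D * D * D := by ring
    rw [h3, ord_mul (mul_ne_zero hDne hDne) hDne, ord_mul hDne hDne]
    ring
  rw [ord_mul (pow_ne_zero 3 hDne) hf0, hDDD] at r0
  obtain ⟨n1, r1⟩ := Tg_rel (hw w₁ h2.dn1) hz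
  obtain ⟨n2, r2⟩ := Tg_rel (hw w₂ h2.dn2) hz
  have hxt : algebraMap K L x - θ ≠ 0 := right_ne_zero_of_mul (right_ne_zero_of_mul n1)
  rw [ord_mul hd (mul_ne_zero hD' hxt), ord_mul hD' hxt, h2.ord1 D hDne] at r1
  rw [ord_mul hd (mul_ne_zero hD' hxt), ord_mul hD' hxt, h2.ord2 D hDne] at r2
  have hodd := hD.odd v hv
  rw [H38T1.eo_sc hd, H38T1.eo_sc hd, Tg_even, Tg_even]
  rcases le_or_gt (v.valuation K x) 1 with hx | hx
  · have g1 := h2.unit2 x hx
    have g2 : ord (w₂.valuation L) (algebraMap K L x - θ) = 0 := by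
      unfold ord
      rw [g1, WithZero.log_one, neg_zero]
    rw [g2] at r2
    obtain ⟨w', g3, g4, g5⟩ := ord_subL h (hF.sqf v hvS) hx (by rw [← hf]; exact hf0)
    rw [← hf] at g4
    have g6 : w' = w₁ := by
      rcases h2.only w' g3 with h3 | h3
      · exact h3
      · exfalso
        rw [h3, g2] at g4
        rw [← g4] at r0
        obtain ⟨m, hm⟩ := hodd
        omega
    rw [g6] at g4
    rw [g4] at r1
    obtain ⟨m, hm⟩ := hodd
    constructor
    · rw [Int.even_iff]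
      omega
    · intro h3
      exfalso
      obtain ⟨m', hm'⟩ := h3
      omega
  · have hx1 : 1 < (dn K w₁).valuation K x := by rw [h2.dn1]; exact hx
    have hx2 : 1 < (dn K w₂).valuation K x := by rw [h2.dn2]; exact hx
    have hx0 : x ≠ 0 := by
      rintro rfl
      rw [map_zero] at hx
      exact absurd hx (not_lt.2 zero_le_one)
    obtain ⟨b1, -, -, b4⟩ := ord_sub_big h hx1
    obtain ⟨b1', -, -, -⟩ := ord_sub_big h hx2
    rw [h2.dn1, ← hf] at b4
    have o1 : ord (w₁.valuation L) (algebraMap K L x - θ) = ord (v.valuation K) x := by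
      rw [← h2.ord1 x hx0]
      unfold ord
      rw [b1]
    have o2 : ord (w₂.valuation L) (algebraMap K L x - θ) = ord (v.valuation K) x := by
      rw [← h2.ord2 x hx0]
      unfold ord
      rw [b1']
    have of : ord (v.valuation K) f = 3 * ord (v.valuation K) x := by
      have h3 : ord (v.valuation K) f = ord (v.valuation K) (x * x * x) := by
        unfold ord
        rw [b4, map_mul, map_mul, pow_succ, pow_two]
      rw [h3, ord_mul (mul_ne_zero hx0 hx0) hx0, ord_mul hx0 hx0]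
      ring
    rw [of] at r0
    rw [o1] at r1
    rw [o2] at r2
    obtain ⟨m, hm⟩ := hodd
    refine ⟨?_, fun _ => ⟨?_, ?_⟩⟩
    · rw [Int.even_iff]
      omega
    · refine Tg_big h hDne hy hz hodd1 hx1 ?_ (hw w₁ h2.dn1)
      rw [h2.dn1]
      exact h1
    · refine Tg_big h hDne hy hz hodd2 hx2 ?_ (hw w₂ h2.dn2)
      rw [h2.dn2]
      exact h1

end H36MT

end S_H36_MT_Tg

section S_H36_MT_Th

set_option autoImplicit false
set_option linter.unusedSectionVars false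
open scoped Classical

open WithZero NumberField IsDedekindDomain H38RT
open H76PP

namespace H36MT

theorem sq_S {K : Type} [Field K] [NumberField K] {v : HeightOneSpectrum (𝓞 K)}
    {D m : K} (hm : m ≠ 0) (h : v.valuation K (D * m ^ 2 - 1) < v.valuation K 4) :
    ∃ r : v.adicCompletion K, algebraMap K (v.adicCompletion K) D = r ^ 2 := by
  have hval : ∀ k : K, (Valued.v (algebraMap K (v.adicCompletion K) k) :
      WithZero (Multiplicative ℤ)) = v.valuation K k := fun k =>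
    HeightOneSpectrum.valuedAdicCompletion_eq_valuation' v k
  have h20 : (2 : v.adicCompletion K) ≠ 0 := by
    have e : (2 : v.adicCompletion K) = algebraMap K (v.adicCompletion K) 2 := by
      rw [map_ofNat]
    rw [e, Ne, map_eq_zero]
    exact two_ne_zero
  have h4 : (Valued.v (algebraMap K (v.adicCompletion K) (D * m ^ 2 - 1)) :
      WithZero (Multiplicative ℤ)) < Valued.v (4 : v.adicCompletion K) := by
    have e : (4 : v.adicCompletion K) = algebraMap K (v.adicCompletion K) 4 := by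
      rw [map_ofNat]
    rw [e, hval, hval]
    exact h
  obtain ⟨t, ht⟩ := Pool.Agent.H10.isSquare_one_add h20 h4
  have e3 : 1 + algebraMap K (v.adicCompletion K) (D * m ^ 2 - 1) =
      algebraMap K (v.adicCompletion K) D * algebraMap K (v.adicCompletion K) m ^ 2 := by
    rw [map_sub, map_one, map_mul, map_pow]
    ring
  rw [e3] at ht
  have hm0 : algebraMap K (v.adicCompletion K) m ≠ 0 := by
    rw [Ne, map_eq_zero]
    exact hm
  refine ⟨t / algebraMap K (v.adicCompletion K) m, ?_⟩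
  rw [div_pow, eq_div_iff (pow_ne_zero 2 hm0), ht]
  ring

end H36MT

end S_H36_MT_Th
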