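import Mathlib
import Pool.Agent.H38.RT.Pr
import Pool.Agent.H38.T1.Ea
import Pool.Agent.H76.PN.A1
import Pool.Agent.H76.PN.A4

/-! This file joins several modules to save build time (R1). -/

set_option autoImplicit false

section S_H54_PR_D1

set_option autoImplicit false
set_option linter.unusedSectionVars false
open scoped Classical

open WithZero NumberField IsDedekindDomain H38RT H76PP
open H38T1 (SC sc scu rep eo la si Pri OddP tp unif)

namespace H54PR

/-- The element `y` is a square modulo eight at the places above two. -/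
def Sq8 (F : Type) [Field F] [NumberField F] (y : F) : Prop :=
  ∀ v : HeightOneSpectrum (𝓞 F), v.valuation F 2 < 1 → ∃ m : F, m ≠ 0 ∧
    v.valuation F (y * m ^ 2 - 1) ≤ v.valuation F 8

/-- (8.6): reciprocity for the tame symbols. -/
def RecT (F : Type) [Field F] [NumberField F] : Prop :=
  ∀ x y : F, x ≠ 0 → y ≠ 0 → Sq8 F y → (∀ s : F →+* ℝ, 0 < s y) →
    ∑ᶠ v : HeightOneSpectrum (𝓞 F), (if OddP v then tp v (sc x) (sc y) else 0) = 0

/-- (8.4): the projection formula for the tame symbols. -/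
def ProjT (K L : Type) [Field K] [NumberField K] [Field L] [NumberField L] [Algebra K L] : Prop :=
  ∀ v : HeightOneSpectrum (𝓞 K), OddP v → ∀ u : L, u ≠ 0 → ∀ c : K, c ≠ 0 →
    ∑ᶠ w : {w : HeightOneSpectrum (𝓞 L) // dn K w = v},
      tp w.1 (sc u) (sc (algebraMap K L c)) = tp v (sc (Algebra.norm K u)) (sc c)

/-- The value of the cubic polynomial. -/
def ff {F : Type*} [Field F] (a b x : F) : F := x ^ 3 + a * x + b

theorem ff_map {F F' : Type*} [Field F] [Field F'] (s : F →+* F') (a b x : F) :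
    s (ff a b x) = ff (s a) (s b) (s x) := by
  unfold ff
  rw [map_add, map_add, map_mul, map_pow]

/-- Multiplication in coordinates. -/
theorem ev_m3 {K L : Type*} [Field K] [Field L] [Algebra K L] {A B : K} {θ : L}
    (h : θ ^ 3 + algebraMap K L A * θ + algebraMap K L B = 0) (u v : Fin 3 → K) :
    ev θ (m3 A B u v) = ev θ u * ev θ v := by
  unfold ev m3
  simp only [Matrix.cons_val_zero, Matrix.cons_val_one, Matrix.cons_val, map_add, map_sub,
    map_mul]
  linear_combination (-(algebraMap K L (u 1)) * algebraMap K L (v 2) -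
    algebraMap K L (u 2) * algebraMap K L (v 1) - algebraMap K L (u 2) * algebraMap K L (v 2) * θ) * h

/-- The coordinates of `x - θ`. -/
theorem ev_sub {K L : Type*} [Field K] [Field L] [Algebra K L] (θ : L) (x : K) :
    ev θ ![x, -1, 0] = algebraMap K L x - θ := by
  unfold ev
  simp
  ring

/-- `x - θ` divides the value of the cubic polynomial. -/
theorem sub_mul_quad {K L : Type*} [Field K] [Field L] [Algebra K L] {A B : K} {θ : L}
    (h : θ ^ 3 + algebraMap K L A * θ + algebraMap K L B = 0) (x : K) :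
    (algebraMap K L x - θ) * (θ ^ 2 + algebraMap K L x * θ + algebraMap K L x ^ 2 +
      algebraMap K L A) = algebraMap K L (ff A B x) := by
  unfold ff
  rw [map_add, map_add, map_mul, map_pow]
  linear_combination h * (-1)

theorem sub_ne {K L : Type} [Field K] [Field L] [Algebra K L] {A B : K} {θ : L}
    (h : Cub K L A B θ) (x : K) : algebraMap K L x - θ ≠ 0 := by
  intro h0
  have h1 := h.li x (-1) 0 (by
    rw [map_neg, map_one, map_zero]
    linear_combination h0)
  exact absurd h1.2.1 (neg_ne_zero.2 one_ne_zero)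

theorem ff_ne {K L : Type} [Field K] [Field L] [Algebra K L] {A B : K} {θ : L}
    (h : Cub K L A B θ) (x : K) : ff A B x ≠ 0 := by
  intro h0
  have h1 := sub_mul_quad h.root x
  rw [h0, map_zero] at h1
  rcases mul_eq_zero.1 h1 with h2 | h2
  · exact sub_ne h x h2
  · have h3 := h.li (x ^ 2 + A) x 1 (by
      rw [map_add, map_pow, map_one]
      linear_combination h2)
    exact absurd h3.2.2 one_ne_zero

end H54PR

end S_H54_PR_D1

section S_H54_PR_Sa

set_option autoImplicit false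
set_option linter.unusedSectionVars false
open scoped Classical

open WithZero NumberField IsDedekindDomain H38RT H76PP
open H38T1 (SC sc scu rep eo la si Pri OddP tp unif)

namespace H54PR

variable {F : Type} [Field F] [NumberField F] {v : HeightOneSpectrum (𝓞 F)}

private theorem Sa_ord {y : F} (h : v.valuation F y = 1) : ord (v.valuation F) y = 0 := by
  unfold ord
  rw [h, log_one, neg_zero]

private theorem Sa_ne {y : F} (h : v.valuation F y = 1) : y ≠ 0 := by
  rintro rfl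
  rw [map_zero] at h
  exact zero_ne_one h

private theorem Sa_eo {y : F} (h : v.valuation F y = 1) : eo v (sc y) = 0 := by
  rw [H38T1.eo_sc (Sa_ne h), Sa_ord h]
  exact Int.cast_zero

private theorem Sa_near {y : F} (h : v.valuation F (y - 1) < 1) : v.valuation F y = 1 := by
  have h1 := Valuation.map_one_add_of_lt (v.valuation F) h
  rwa [add_sub_cancel] at h1

private theorem Sa_zero (hv : OddP v) {y : F} (h : v.valuation F (y - 1) < 1) (c : SC F) :
    tp v c (sc y) = 0 := by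
  have h1 := Sa_near h
  have h2 : la v (sc y) = 0 := by
    rw [H38T1.la_sc hv (Sa_ne h1), lam_unit h1]
    refine if_pos ⟨1, ?_⟩
    rwa [one_pow]
  unfold tp
  rw [Sa_eo h1, h2]
  ring

private theorem Sa_two (c : SC F) : c + c = 0 := (two_nsmul c).symm.trans (H38T1.SC.two_smul c)

private theorem Sa_div {a b : F} (ha : a ≠ 0) (hb : b ≠ 0) : sc (a / b) = sc a + sc b := by
  have h1 : sc a = sc (a / b) + sc b := by
    rw [← H38T1.sc_mul (div_ne_zero ha hb) hb, div_mul_cancel₀ a hb]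
  rw [h1, add_assoc, Sa_two, add_zero]

theorem tp_add_right (hv : OddP v) (d c c' : SC F) :
    tp v d (c + c') = tp v d c + tp v d c' := by
  rw [H38T1.tp_comm, H38T1.tp_add_left hv, H38T1.tp_comm, H38T1.tp_comm c']

theorem tp_stein (hv : OddP v) {x : F} (hx : x ≠ 0) (hx1 : x ≠ 1) :
    tp v (sc x) (sc (1 - x)) = 0 := by
  rcases lt_trichotomy (v.valuation F x) 1 with h | h | h
  · refine Sa_zero hv ?_ _
    have h1 : (1 - x) - 1 = - x := by ring
    rw [h1, Valuation.map_neg]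
    exact h
  · by_cases h2 : v.valuation F (1 - x) < 1
    · rw [H38T1.tp_comm]
      refine Sa_zero hv ?_ _
      rwa [Valuation.map_sub_swap]
    · have h3 : v.valuation F (1 - x) ≤ 1 := by
        refine (Valuation.map_sub (v.valuation F) 1 x).trans ?_
        rw [map_one, h, max_self]
      have h4 : v.valuation F (1 - x) = 1 := le_antisymm h3 (not_lt.1 h2)
      unfold tp
      rw [Sa_eo h, Sa_eo h4]
      ring
  · have h1 : 1 - x = (-x) * (1 - x⁻¹) := by
      field_simp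
      ring
    have h2 : v.valuation F ((1 - x⁻¹) - 1) < 1 := by
      have h3 : (1 - x⁻¹) - 1 = - x⁻¹ := by ring
      rw [h3, Valuation.map_neg]
      exact (Valuation.one_lt_val_iff (v.valuation F) hx).1 h
    rw [h1, H38T1.sc_mul (neg_ne_zero.2 hx) (Sa_ne (Sa_near h2)), tp_add_right hv, H38T1.tp_neg hv hx,
      Sa_zero hv h2, add_zero]

theorem tp_sub (hv : OddP v) {U W : F} (hU : U ≠ 0) (hW : W ≠ 0) (hc : U - W ≠ 0) :
    tp v (sc U) (sc W) = tp v (sc U) (sc (-(U - W))) + tp v (sc W) (sc (U - W)) := by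
  obtain ⟨c, hcd⟩ : ∃ c, c = U - W := ⟨_, rfl⟩
  rw [← hcd] at hc ⊢
  have h1 : U / c ≠ 1 := by
    intro h
    rw [div_eq_one_iff_eq hc, hcd] at h
    exact hW (by linear_combination h)
  have h2 := tp_stein hv (div_ne_zero hU hc) h1
  have h3 : 1 - U / c = W / (-c) := by
    rw [div_neg, one_sub_div hc, ← neg_div]
    congr 1
    rw [hcd]
    ring
  rw [h3, Sa_div hU hc, Sa_div hW (neg_ne_zero.2 hc), H38T1.tp_add_left hv, tp_add_right hv, tp_add_right hv,
    H38T1.tp_neg hv hc, add_zero] at h2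
  rw [H38T1.tp_comm (sc W)]
  have h4 : tp v (sc U) (sc W) + (tp v (sc U) (sc (-c)) + tp v (sc c) (sc W)) = 0 := by
    rw [← add_assoc]
    exact h2
  have h5 := eq_neg_of_add_eq_zero_left h4
  rwa [CharTwo.neg_eq] at h5

end H54PR

end S_H54_PR_Sa

section S_H54_PR_Sb

set_option autoImplicit false
set_option linter.unusedSectionVars false
open scoped Classical

open WithZero NumberField IsDedekindDomain H38RT H76PP
open H38T1 (SC sc scu rep eo la si Pri OddP tp unif)

namespace H54PR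

private theorem Sb_fiber {α β M : Type*} [AddCommMonoid M] (f : α → β) (g : α → M)
    (hg : (Function.support g).Finite) :
    ∑ᶠ a, g a = ∑ᶠ b, ∑ᶠ a : {a // f a = b}, g a.1 := by
  have h1 : ∀ b, ∑ᶠ a : {a // f a = b}, g a.1 = ∑ a ∈ hg.toFinset with f a = b, g a := by
    intro b
    exact (finsum_set_coe_eq_finsum_mem (f := g) {a | f a = b}).trans
      (finsum_mem_eq_sum_filter g {a | f a = b} hg)
  rw [finsum_congr h1, finsum_eq_sum g hg]
  rw [finsum_eq_sum_of_support_subset (s := hg.toFinset.image f)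
    (fun b => ∑ a ∈ hg.toFinset with f a = b, g a)]
  · exact (Finset.sum_fiberwise_of_maps_to
      (fun a ha => Finset.mem_image_of_mem f ha) g).symm
  · intro b hb
    by_contra hn
    apply hb
    refine Finset.sum_eq_zero fun a ha => ?_
    rw [Finset.mem_filter] at ha
    exfalso
    apply hn
    rw [Finset.mem_coe, ← ha.2]
    exact Finset.mem_image_of_mem f ha.1

theorem tp_fin {F : Type} [Field F] [NumberField F] {x y : F} (hx : x ≠ 0) (hy : y ≠ 0) :
    (Function.support (fun v : HeightOneSpectrum (𝓞 F) =>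
      if OddP v then tp v (sc x) (sc y) else 0)).Finite := by
  refine ((fin_bad hx).union (fin_bad hy)).subset ?_
  intro v hv
  by_contra h
  rw [Set.mem_union, not_or] at h
  have h1 : v.valuation F x = 1 := by
    by_contra h'
    exact h.1 h'
  have h2 : v.valuation F y = 1 := by
    by_contra h'
    exact h.2 h'
  apply hv
  have e1 : eo v (sc x) = 0 := by
    rw [H38T1.eo_sc hx]
    unfold ord
    rw [h1, log_one, neg_zero, Int.cast_zero]
  have e2 : eo v (sc y) = 0 := by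
    rw [H38T1.eo_sc hy]
    unfold ord
    rw [h2, log_one, neg_zero, Int.cast_zero]
  have e3 : tp v (sc x) (sc y) = 0 := by
    unfold tp
    rw [e1, e2]
    ring
  show (if OddP v then tp v (sc x) (sc y) else 0) = 0
  rw [e3, ite_self]

variable {K L : Type} [Field K] [NumberField K] [Field L] [NumberField L] [Algebra K L]

theorem sum_dn (hP : ProjT K L) {u : L} (hu : u ≠ 0) {c : K} (hc : c ≠ 0) :
    ∑ᶠ w : HeightOneSpectrum (𝓞 L),
      (if OddP w then tp w (sc u) (sc (algebraMap K L c)) else 0) =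
    ∑ᶠ v : HeightOneSpectrum (𝓞 K),
      (if OddP v then tp v (sc (Algebra.norm K u)) (sc c) else 0) := by
  have hc' : algebraMap K L c ≠ 0 := fun h => hc ((algebraMap K L).injective (by rw [h, map_zero]))
  rw [Sb_fiber (dn K) _ (tp_fin hu hc')]
  refine finsum_congr fun v => ?_
  by_cases hv : OddP v
  · rw [if_pos hv, ← hP v hv u hu c hc]
    refine finsum_congr fun w => ?_
    have hw : OddP w.1 := by
      rw [oddP_dn (K := K), w.2]
      exact hv
    rw [if_pos hw]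
  · rw [if_neg hv]
    have h0 : ∀ w : {w : HeightOneSpectrum (𝓞 L) // dn K w = v},
        (if OddP w.1 then tp w.1 (sc u) (sc (algebraMap K L c)) else 0) = 0 := by
      intro w
      have hw : ¬ OddP w.1 := by
        rw [oddP_dn (K := K), w.2]
        exact hv
      rw [if_neg hw]
    rw [finsum_congr h0, finsum_zero]

end H54PR

end S_H54_PR_Sb

section S_H54_PR_Wa

set_option autoImplicit false
open scoped Classical

open NumberField

namespace H54PR

variable (K : Type) [Field K] [NumberField K]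

/-- The absolute value of a real embedding. -/
noncomputable def Wa_av {K : Type} [Field K] (s : K →+* ℝ) : AbsoluteValue K ℝ where
  toFun x := |s x|
  map_mul' x y := by
    change |s (x * y)| = |s x| * |s y|
    rw [map_mul, abs_mul]
  nonneg' x := abs_nonneg _
  eq_zero' x := by
    change |s x| = 0 ↔ x = 0
    rw [abs_eq_zero, map_eq_zero]
  add_le' x y := by
    change |s (x + y)| ≤ |s x| + |s y|
    rw [map_add]
    exact abs_add_le _ _

theorem Wa_inj {s s' : K →+* ℝ} (h : (Wa_av s).IsEquiv (Wa_av s')) : s = s' := by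
  have h1 : ∀ (x : K) (a b : ℚ), |s x - a| ≤ |(b : ℝ)| ↔ |s' x - a| ≤ |(b : ℝ)| := by
    intro x a b
    have h2 := h (x - (a : K)) (b : K)
    change |s (x - (a : K))| ≤ |s (b : K)| ↔ |s' (x - (a : K))| ≤ |s' (b : K)| at h2
    rw [map_sub, map_sub, map_ratCast, map_ratCast, map_ratCast, map_ratCast] at h2
    exact h2
  have h3 : ∀ x : K, s x ≤ s' x := by
    intro x
    by_contra hlt
    rw [not_le] at hlt
    obtain ⟨q, hq1, hq2⟩ := exists_rat_btwn hlt
    obtain ⟨M, hM⟩ := exists_rat_gt (|s x| + |(q : ℝ)|)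
    have hM0 : (0 : ℝ) < M := lt_of_le_of_lt (by positivity) hM
    have h4 := (h1 x (q + M) M).1 (by
      rw [abs_of_pos hM0, abs_le]
      have h5 := le_abs_self (s x)
      have h6 := neg_abs_le (q : ℝ)
      push_cast
      constructor <;> linarith)
    rw [abs_of_pos hM0, abs_le] at h4
    push_cast at h4
    linarith [h4.1]
  refine RingHom.ext fun x => le_antisymm (h3 x) ?_
  have h5 := h3 (-x)
  rw [map_neg, map_neg] at h5
  linarith

theorem real_dense (r : (K →+* ℝ) → ℝ) {ε : ℝ} (hε : 0 < ε) :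
    ∃ t : K, ∀ s : K →+* ℝ, |s t - r s| < ε := by
  have hq : ∀ s : K →+* ℝ, ∃ q : ℚ, |r s - q| < ε / 2 := fun s => exists_rat_near (r s) (by linarith)
  choose q hq using hq
  have hnt : ∀ s : K →+* ℝ, (Wa_av s).IsNontrivial := by
    intro s
    refine ⟨2, two_ne_zero, ?_⟩
    change |s 2| ≠ 1
    rw [map_ofNat]
    norm_num
  have hfin : Finite (K →+* ℝ) := by
    refine Finite.of_injective (fun s : K →+* ℝ => (Complex.ofRealHom).comp s) fun s s' hs => ?_
    ext x
    have h1 := congrArg (fun f : K →+* ℂ => f x) hs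
    exact Complex.ofReal_injective h1
  have hd := AbsoluteValue.denseRange_algebraMap_pi (v := fun s : K →+* ℝ => Wa_av s) hnt
    (fun s s' hne h => hne (Wa_inj K h))
  have hft := Fintype.ofFinite (K →+* ℝ)
  obtain ⟨t, ht⟩ := Metric.denseRange_iff.1 hd (fun s => WithAbs.toAbs (Wa_av s) ((q s : K))) (ε / 2) (by linarith)
  refine ⟨t, fun s => ?_⟩
  have h1 := lt_of_le_of_lt (dist_le_pi_dist _ _ s) ht
  rw [dist_eq_norm] at h1
  have h2 : |s ((q s : K) - t)| < ε / 2 := h1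
  rw [map_sub, map_ratCast] at h2
  have h3 := hq s
  rw [abs_lt] at *
  constructor <;> linarith [h2.1, h2.2, h3.1, h3.2]

end H54PR

end S_H54_PR_Wa

section S_H54_PR_Wb

set_option autoImplicit false
set_option linter.unusedSectionVars false
open scoped Classical

open WithZero NumberField IsDedekindDomain H38RT

namespace H54PR

variable {K : Type} [Field K] [NumberField K]

private theorem Wb_two (v : HeightOneSpectrum (𝓞 K)) (h : v.valuation K 2 < 1) (k : ℕ) :
    v.valuation K ((2 : K) ^ k) ≤ exp (-(k : ℤ)) := by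
  have h0 : v.valuation K 2 ≠ 0 := (Valuation.ne_zero_iff _).2 two_ne_zero
  have h1 : v.valuation K 2 ≤ exp (-1 : ℤ) := by
    have h2 := exp_log h0
    rw [← h2] at h ⊢
    rw [← exp_zero, exp_lt_exp] at h
    rw [exp_le_exp]
    omega
  induction k with
  | zero => simp
  | succ k ih =>
    rw [pow_succ, map_mul]
    have h3 : (exp (-((k + 1 : ℕ) : ℤ)) : WithZero (Multiplicative ℤ)) =
        exp (-(k : ℤ)) * exp (-1 : ℤ) := by
      rw [← exp_add]
      congr 1
      push_cast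
      ring
    rw [h3]
    exact mul_le_mul' ih h1

private theorem Wb_big (v : HeightOneSpectrum (𝓞 K)) (h : v.valuation K 2 < 1) (a : K) (N : ℕ) :
    ∃ k0 : ℕ, ∀ k ≥ k0, v.valuation K ((2 : K) ^ k * a) ≤ exp (-(N : ℤ)) := by
  by_cases ha : a = 0
  · refine ⟨0, fun k _ => ?_⟩
    rw [ha, mul_zero, map_zero]
    exact zero_le
  · have h0 : v.valuation K a ≠ 0 := (Valuation.ne_zero_iff _).2 ha
    refine ⟨(log (v.valuation K a) + N).toNat, fun k hk => ?_⟩
    have h1 : log (v.valuation K a) + N ≤ k := by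
      have h2 := Int.self_le_toNat (log (v.valuation K a) + N)
      omega
    rw [map_mul]
    refine (mul_le_mul' (Wb_two v h k) le_rfl).trans ?_
    have h2 := exp_log h0
    conv_lhs => rw [← h2]
    rw [← exp_add, exp_le_exp]
    omega

private theorem Wb_unif (S : Finset (HeightOneSpectrum (𝓞 K)))
    (hS : ∀ v ∈ S, v.valuation K 2 < 1) (a : HeightOneSpectrum (𝓞 K) → K) (N : ℕ) :
    ∃ k0 : ℕ, ∀ k ≥ k0, ∀ v ∈ S, v.valuation K ((2 : K) ^ k * a v) ≤ exp (-(N : ℤ)) := by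
  have h1 : ∀ v ∈ S, ∃ k0 : ℕ, ∀ k ≥ k0, v.valuation K ((2 : K) ^ k * a v) ≤ exp (-(N : ℤ)) :=
    fun v hv => Wb_big v (hS v hv) (a v) N
  choose! f hf using h1
  refine ⟨S.sup f, fun k hk v hv => hf v hv k ?_⟩
  exact (Finset.le_sup hv).trans hk

theorem fin_app (S : Finset (HeightOneSpectrum (𝓞 K))) (hS : ∀ v ∈ S, v.valuation K 2 < 1)
    (a : HeightOneSpectrum (𝓞 K) → K) (N : ℕ) :
    ∃ x : K, ∀ v ∈ S, v.valuation K (x - a v) ≤ exp (-(N : ℤ)) := by
  obtain ⟨k, hk⟩ := Wb_unif S hS a 0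
  have hk1 : ∀ v ∈ S, v.valuation K ((2 : K) ^ k * a v) ≤ 1 := by
    intro v hv
    have h1 := hk k le_rfl v hv
    simpa using h1
  have h2k : (2 : K) ^ k ≠ 0 := pow_ne_zero _ two_ne_zero
  have h2v : ∀ v : HeightOneSpectrum (𝓞 K), v.valuation K ((2 : K) ^ k) ≠ 0 :=
    fun v => (Valuation.ne_zero_iff _).2 h2k
  obtain ⟨y, hy⟩ := Pr_app S (fun v => (2 : K) ^ k * a v) hk1
    (fun v => v.valuation K ((2 : K) ^ k) * exp (-(N : ℤ)))
    (fun v _ => mul_ne_zero (h2v v) exp_ne_zero)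
  refine ⟨(y : K) / 2 ^ k, fun v hv => ?_⟩
  have h1 := hy v hv
  have h2 : (y : K) - 2 ^ k * a v = 2 ^ k * ((y : K) / 2 ^ k - a v) := by
    field_simp
  rw [h2, map_mul] at h1
  exact (lt_of_mul_lt_mul_left' h1).le

theorem weak2 (S : Finset (HeightOneSpectrum (𝓞 K))) (hS : ∀ v ∈ S, v.valuation K 2 < 1)
    (a : HeightOneSpectrum (𝓞 K) → K) (N : ℕ) (r : (K →+* ℝ) → ℝ) {ε : ℝ} (hε : 0 < ε)
    (c : K) : ∃ x : K, x ≠ c ∧ (∀ v ∈ S, v.valuation K (x - a v) ≤ exp (-(N : ℤ))) ∧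
      ∀ s : K →+* ℝ, |s x - r s| < ε := by
  obtain ⟨x1, hx1⟩ := fin_app S hS a N
  obtain ⟨t, ht⟩ := real_dense K (fun s => r s - s x1) (show (0 : ℝ) < ε / 4 by linarith)
  obtain ⟨M1, hM1⟩ := Wb_unif S hS (fun _ => t) N
  obtain ⟨M2, hM2⟩ := Wb_unif S hS (fun _ => 1) N
  obtain ⟨M, hMa, hMb, hMc⟩ : ∃ M : ℕ, M1 ≤ M ∧ M2 ≤ M ∧ 1 ≤ M :=
    ⟨max (max M1 M2) 1, (le_max_left _ _).trans (le_max_left _ _),
      (le_max_right _ _).trans (le_max_left _ _), le_max_right _ _⟩
  have hvt : ∀ v ∈ S, v.valuation K ((2 : K) ^ M * t) ≤ exp (-(N : ℤ)) := hM1 M hMa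
  have hv1 : ∀ v ∈ S, v.valuation K ((2 : K) ^ M) ≤ exp (-(N : ℤ)) := by
    intro v hv
    have h1 := hM2 M hMb v hv
    rwa [mul_one] at h1
  have hpow : (1 : ℝ) ≤ (2 : ℝ) ^ M := one_le_pow₀ (by norm_num)
  have hpos : (0 : ℝ) < (2 : ℝ) ^ M := by positivity
  -- the correction
  obtain ⟨j, hj⟩ := exists_nat_gt ((∑ s : K →+* ℝ, |s t|) / (ε / 4))
  have hj0 : (∑ s : K →+* ℝ, |s t|) < (j : ℝ) * (ε / 4) := by
    rwa [div_lt_iff₀ (by linarith)] at hj
  have hn : Odd (2 ^ M * j + 1) := by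
    refine Even.add_one ?_
    exact (Even.mul_right ((Nat.even_pow).2 ⟨even_two, by omega⟩) j)
  have hnK : ((2 ^ M * j + 1 : ℕ) : K) ≠ 0 := by
    rw [Nat.cast_ne_zero]
    omega
  obtain ⟨x2, hx2v, hx2s⟩ : ∃ x2 : K, (∀ v ∈ S, v.valuation K (x2 - a v) ≤ exp (-(N : ℤ))) ∧
      ∀ s : K →+* ℝ, |s x2 - r s| < ε / 2 := by
    refine ⟨x1 + (2 ^ M * t) * (j : K) / ((2 ^ M * j + 1 : ℕ) : K), fun v hv => ?_, fun s => ?_⟩
    · have h1 : x1 + (2 ^ M * t) * (j : K) / ((2 ^ M * j + 1 : ℕ) : K) - a v =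
          (x1 - a v) + (2 ^ M * t) * (j : K) / ((2 ^ M * j + 1 : ℕ) : K) := by ring
      rw [h1]
      refine (Valuation.map_add _ _ _).trans (max_le (hx1 v hv) ?_)
      rw [map_div₀, Pr_odd v (hS v hv) hn, div_one, map_mul]
      exact (mul_le_mul' (hvt v hv) (Pr_nat v j)).trans (by rw [mul_one])
    · have h1 : s (x1 + (2 ^ M * t) * (j : K) / ((2 ^ M * j + 1 : ℕ) : K)) =
          s x1 + s t * (2 ^ M * j / (2 ^ M * j + 1)) := by
        rw [map_add, map_div₀, map_mul, map_mul, map_pow, map_ofNat, map_natCast, map_natCast]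
        push_cast
        ring
      have hjj : (0 : ℝ) ≤ (j : ℝ) := Nat.cast_nonneg j
      have hden : (0 : ℝ) < 2 ^ M * j + 1 := by positivity
      have h2 : s x1 + s t * (2 ^ M * j / (2 ^ M * j + 1)) - r s =
          (s t - (r s - s x1)) + (-(s t) / (2 ^ M * j + 1)) := by
        field_simp
        ring
      have h3 : |-(s t) / (2 ^ M * j + 1)| < ε / 4 := by
        rw [abs_div, abs_neg, abs_of_pos hden, div_lt_iff₀ hden]
        have h4 : |s t| ≤ ∑ s : K →+* ℝ, |s t| :=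
          Finset.single_le_sum (f := fun s : K →+* ℝ => |s t|) (fun _ _ => abs_nonneg _)
            (Finset.mem_univ s)
        have h5 : (j : ℝ) ≤ 2 ^ M * j + 1 := by nlinarith
        have h6 : (j : ℝ) * (ε / 4) ≤ (2 ^ M * j + 1) * (ε / 4) :=
          mul_le_mul_of_nonneg_right h5 (by linarith)
        linarith
      rw [h1, h2]
      refine (abs_add_le _ _).trans_lt ?_
      have h4 := ht s
      linarith
  by_cases hc : x2 = c
  · obtain ⟨k, hk⟩ := exists_nat_gt ((2 : ℝ) ^ M / (ε / 2))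
    have hk0 : (2 : ℝ) ^ M < (k : ℝ) * (ε / 2) := by
      rwa [div_lt_iff₀ (by linarith)] at hk
    have hodd : Odd (2 * k + 1) := ⟨k, rfl⟩
    have hkK : ((2 * k + 1 : ℕ) : K) ≠ 0 := by
      rw [Nat.cast_ne_zero]
      omega
    have hw0 : (2 : K) ^ M / ((2 * k + 1 : ℕ) : K) ≠ 0 :=
      div_ne_zero (pow_ne_zero _ two_ne_zero) hkK
    refine ⟨x2 + (2 : K) ^ M / ((2 * k + 1 : ℕ) : K), ?_, fun v hv => ?_, fun s => ?_⟩
    · intro h1
      apply hw0
      rw [hc] at h1
      exact (add_eq_left).1 h1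
    · have h1 : x2 + (2 : K) ^ M / ((2 * k + 1 : ℕ) : K) - a v =
          (x2 - a v) + (2 : K) ^ M / ((2 * k + 1 : ℕ) : K) := by ring
      rw [h1]
      refine (Valuation.map_add _ _ _).trans (max_le (hx2v v hv) ?_)
      rw [map_div₀, Pr_odd v (hS v hv) hodd, div_one]
      exact hv1 v hv
    · have h1 : s (x2 + (2 : K) ^ M / ((2 * k + 1 : ℕ) : K)) =
          s x2 + (2 : ℝ) ^ M / (2 * k + 1) := by
        rw [map_add, map_div₀, map_pow, map_ofNat, map_natCast]
        push_cast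
        rfl
      have hkk : (0 : ℝ) ≤ (k : ℝ) := Nat.cast_nonneg k
      have hden : (0 : ℝ) < 2 * (k : ℝ) + 1 := by positivity
      have h2 : |(2 : ℝ) ^ M / (2 * k + 1)| < ε / 2 := by
        rw [abs_of_pos (div_pos hpos hden), div_lt_iff₀ hden]
        nlinarith
      rw [h1, show s x2 + (2 : ℝ) ^ M / (2 * k + 1) - r s =
        (s x2 - r s) + (2 : ℝ) ^ M / (2 * k + 1) by ring]
      refine (abs_add_le _ _).trans_lt ?_
      have h4 := hx2s s
      linarith
  · exact ⟨x2, hc, hx2v, fun s => (hx2s s).trans (by linarith)⟩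

end H54PR

end S_H54_PR_Wb

section S_H54_PR_Va

set_option autoImplicit false
set_option linter.unusedSectionVars false
open scoped Classical

open WithZero NumberField IsDedekindDomain H38RT H76PP

namespace H54PR

variable {K : Type} [Field K] [NumberField K]

/-- Two nearby elements of bounded value. -/
structure Va_Nr {F : Type*} [Field F] (V : Valuation F (WithZero (Multiplicative ℤ))) (C M : ℤ)
    (x x₀ : F) : Prop where
  b1 : V x ≤ exp C
  b0 : V x₀ ≤ exp C
  nr : V (x - x₀) ≤ exp (-M)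

section Va

variable {F : Type*} [Field F] {V : Valuation F (WithZero (Multiplicative ℤ))} {C D M N : ℤ}
  {x y x₀ y₀ : F}

theorem Va_weak (h : Va_Nr V C M x x₀) {C' M' : ℤ} (hC : C ≤ C') (hM : M' ≤ M) :
    Va_Nr V C' M' x x₀ :=
  ⟨h.b1.trans (exp_le_exp.2 hC), h.b0.trans (exp_le_exp.2 hC),
    h.nr.trans (exp_le_exp.2 (by omega))⟩

theorem Va_add (h : Va_Nr V C M x x₀) (h' : Va_Nr V C M y y₀) :
    Va_Nr V C M (x + y) (x₀ + y₀) := by
  refine ⟨V.map_add_le h.b1 h'.b1, V.map_add_le h.b0 h'.b0, ?_⟩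
  rw [add_sub_add_comm]
  exact V.map_add_le h.nr h'.nr

theorem Va_neg (h : Va_Nr V C M x x₀) : Va_Nr V C M (-x) (-x₀) := by
  refine ⟨?_, ?_, ?_⟩
  · rw [Valuation.map_neg]
    exact h.b1
  · rw [Valuation.map_neg]
    exact h.b0
  · rw [show -x - -x₀ = -(x - x₀) by ring, Valuation.map_neg]
    exact h.nr

theorem Va_sub (h : Va_Nr V C M x x₀) (h' : Va_Nr V C M y y₀) :
    Va_Nr V C M (x - y) (x₀ - y₀) := by
  rw [sub_eq_add_neg, sub_eq_add_neg]
  exact Va_add h (Va_neg h')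

theorem Va_mul (h : Va_Nr V C M x x₀) (h' : Va_Nr V D N y y₀) :
    Va_Nr V (C + D) (min (M - D) (N - C)) (x * y) (x₀ * y₀) := by
  refine ⟨?_, ?_, ?_⟩
  · rw [map_mul, exp_add]
    exact mul_le_mul' h.b1 h'.b1
  · rw [map_mul, exp_add]
    exact mul_le_mul' h.b0 h'.b0
  · rw [show x * y - x₀ * y₀ = (x - x₀) * y + x₀ * (y - y₀) by ring]
    refine V.map_add_le ?_ ?_
    · rw [map_mul]
      refine (mul_le_mul' h.nr h'.b1).trans ?_
      rw [← exp_add, exp_le_exp]
      omega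
    · rw [map_mul]
      refine (mul_le_mul' h.b0 h'.nr).trans ?_
      rw [← exp_add, exp_le_exp]
      omega

theorem Va_mul2 (hC : 0 ≤ C) (h : Va_Nr V C M x x₀) (h' : Va_Nr V C M y y₀) :
    Va_Nr V (3 * C) (M - 2 * C) (x * y) (x₀ * y₀) :=
  Va_weak (Va_mul h h') (by omega) (by omega)

theorem Va_mul3 {z z₀ : F} (hC : 0 ≤ C) (h : Va_Nr V C M x x₀) (h' : Va_Nr V C M y y₀)
    (h'' : Va_Nr V C M z z₀) :
    Va_Nr V (3 * C) (M - 2 * C) (x * (y * z)) (x₀ * (y₀ * z₀)) :=
  Va_weak (Va_mul h (Va_mul h' h'')) (by omega) (by omega)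

theorem Va_m3 {a b a₀ b₀ : F} {u w u₀ w₀ : Fin 3 → F} (hC : 0 ≤ C) (ha : Va_Nr V C M a a₀)
    (hb : Va_Nr V C M b b₀) (hu : ∀ j, Va_Nr V C M (u j) (u₀ j))
    (hw : ∀ j, Va_Nr V C M (w j) (w₀ j)) (j : Fin 3) :
    Va_Nr V (3 * C) (M - 2 * C) (m3 a b u w j) (m3 a₀ b₀ u₀ w₀ j) := by
  have e0 : ∀ (a b : F) (u w : Fin 3 → F), m3 a b u w 0 =
      u 0 * w 0 - (b * (u 1 * w 2) + b * (u 2 * w 1)) := fun a b u w => by
    change u 0 * w 0 - b * (u 1 * w 2 + u 2 * w 1) = _
    ring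
  have e1 : ∀ (a b : F) (u w : Fin 3 → F), m3 a b u w 1 =
      u 0 * w 1 + u 1 * w 0 - (a * (u 1 * w 2) + a * (u 2 * w 1)) - b * (u 2 * w 2) :=
    fun a b u w => by
    change u 0 * w 1 + u 1 * w 0 - a * (u 1 * w 2 + u 2 * w 1) - b * (u 2 * w 2) = _
    ring
  have e2 : ∀ (a b : F) (u w : Fin 3 → F), m3 a b u w 2 =
      u 0 * w 2 + u 1 * w 1 + u 2 * w 0 - a * (u 2 * w 2) := fun a b u w => rfl
  fin_cases j
  · change Va_Nr V (3 * C) (M - 2 * C) (m3 a b u w 0) (m3 a₀ b₀ u₀ w₀ 0)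
    rw [e0, e0]
    exact Va_sub (Va_mul2 hC (hu 0) (hw 0)) (Va_add (Va_mul3 hC hb (hu 1) (hw 2))
      (Va_mul3 hC hb (hu 2) (hw 1)))
  · change Va_Nr V (3 * C) (M - 2 * C) (m3 a b u w 1) (m3 a₀ b₀ u₀ w₀ 1)
    rw [e1, e1]
    exact Va_sub (Va_sub (Va_add (Va_mul2 hC (hu 0) (hw 1)) (Va_mul2 hC (hu 1) (hw 0)))
      (Va_add (Va_mul3 hC ha (hu 1) (hw 2)) (Va_mul3 hC ha (hu 2) (hw 1))))
      (Va_mul3 hC hb (hu 2) (hw 2))
  · change Va_Nr V (3 * C) (M - 2 * C) (m3 a b u w 2) (m3 a₀ b₀ u₀ w₀ 2)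
    rw [e2, e2]
    exact Va_sub (Va_add (Va_add (Va_mul2 hC (hu 0) (hw 2)) (Va_mul2 hC (hu 1) (hw 1)))
      (Va_mul2 hC (hu 2) (hw 0))) (Va_mul3 hC ha (hu 2) (hw 2))

theorem Va_ff {a b a₀ b₀ : F} (hC : 0 ≤ C) (ha : Va_Nr V C M a a₀) (hb : Va_Nr V C M b b₀)
    (hx : Va_Nr V C M x x₀) (hy : Va_Nr V C M y y₀) :
    Va_Nr V (3 * C) (M - 2 * C) (ff a b x - y ^ 2) (ff a₀ b₀ x₀ - y₀ ^ 2) := by
  have e : ∀ a b x y : F, ff a b x - y ^ 2 = x * (x * x) + a * x + b - y * y :=
    fun a b x y => by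
    unfold ff
    ring
  rw [e, e]
  exact Va_sub (Va_add (Va_add (Va_mul3 hC hx hx hx) (Va_mul2 hC ha hx))
    (Va_weak hb (by omega) (by omega))) (Va_mul2 hC hy hy)

theorem Va_up (t : WithZero (Multiplicative ℤ)) : ∃ C : ℕ, t ≤ exp (C : ℤ) := by
  by_cases h : t = 0
  · exact ⟨0, by rw [h]; exact zero_le⟩
  · refine ⟨(log t).toNat, ?_⟩
    rw [← log_le_iff_le_exp h]
    exact Int.self_le_toNat _

theorem Va_down {t : WithZero (Multiplicative ℤ)} (h : t ≠ 0) : ∃ C : ℕ, exp (-(C : ℤ)) ≤ t := by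
  refine ⟨(-(log t)).toNat, ?_⟩
  rw [← le_log_iff_exp_le h]
  have := Int.self_le_toNat (-(log t))
  omega

theorem Va_const (c : F) (h : V c ≤ exp C) : Va_Nr V C M c c :=
  ⟨h, h, by rw [sub_self, map_zero]; exact zero_le⟩

theorem Va_of (h0 : V x₀ ≤ exp C) (h : V (x - x₀) ≤ exp (-M)) (hM : -M ≤ C) :
    Va_Nr V C M x x₀ := by
  refine ⟨?_, h0, h⟩
  rw [show x = (x - x₀) + x₀ by ring]
  exact V.map_add_le (h.trans (exp_le_exp.2 hM)) h0

end Va

theorem Va_dense (v : HeightOneSpectrum (𝓞 K)) (x : v.adicCompletion K) (n : ℕ) :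
    ∃ k : K, Valued.v (algebraMap K (v.adicCompletion K) k - x) ≤ exp (-(n : ℤ)) := by
  have hd := HeightOneSpectrum.denseRange_algebraMap (K := K) v
  have hopen : IsOpen {y : v.adicCompletion K | Valued.v (y - x) < exp (-(n : ℤ))} := by
    have h1 : IsOpen {y : v.adicCompletion K | Valued.v y < exp (-(n : ℤ))} := by
      obtain ⟨t, ht⟩ := v.valuedAdicCompletion_surjective K (exp (-(n : ℤ)))
      have := Valued.isOpen_ball (v.adicCompletion K) (Valued.v.restrict t)
      simp_rw [Valuation.restrict_lt_iff] at this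
      rwa [ht] at this
    exact h1.preimage (continuous_sub_right x)
  obtain ⟨k, hk⟩ := hd.exists_mem_open hopen ⟨x, by simp⟩
  exact ⟨k, le_of_lt hk⟩


theorem LC_near {a b : K} {d : Fin 3 → K} (v : HeightOneSpectrum (𝓞 K))
    (hLC : LC (algebraMap K (v.adicCompletion K)) a b d) :
    ∃ R : ℕ, ∀ M : ℕ, ∃ (x y : K) (z : Fin 3 → K), v.valuation K x ≤ exp (R : ℤ) ∧
      exp (-(R : ℤ)) ≤ v.valuation K y ∧ v.valuation K (ff a b x - y ^ 2) ≤ exp (-(M : ℤ)) ∧
      ∀ j, v.valuation K (m3 a b d ![x, -1, 0] j - m3 a b z z j) ≤ exp (-(M : ℤ)) := by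
  obtain ⟨x₀, y₀, z₀, hy0, hxy, hz⟩ := hLC
  obtain ⟨V, hV⟩ : ∃ V : Valuation (v.adicCompletion K) (WithZero (Multiplicative ℤ)),
      V = Valued.v := ⟨_, rfl⟩
  have hdense : ∀ (x : v.adicCompletion K) (n : ℕ),
      ∃ k : K, V (algebraMap K (v.adicCompletion K) k - x) ≤ exp (-(n : ℤ)) := by
    intro x n
    rw [hV]
    exact Va_dense v x n
  have hval : ∀ x : K, V (algebraMap K (v.adicCompletion K) x) = v.valuation K x := by
    intro x
    rw [hV]
    exact v.valuedAdicCompletion_eq_valuation' (K := K) x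
  obtain ⟨i, hi⟩ : ∃ i : K →+* v.adicCompletion K, i = algebraMap K (v.adicCompletion K) :=
    ⟨_, rfl⟩
  rw [← hi] at hxy hz hval hdense
  clear hi hV
  obtain ⟨C1, h1⟩ := Va_up (V x₀)
  obtain ⟨C2, h2⟩ := Va_up (V y₀)
  choose C3 h3 using fun j => Va_up (V (z₀ j))
  obtain ⟨C4, h4⟩ := Va_up (V (i a))
  obtain ⟨C5, h5⟩ := Va_up (V (i b))
  choose C6 h6 using fun j => Va_up (V (i (d j)))
  obtain ⟨C7, h7⟩ := Va_down ((Valuation.ne_zero_iff V).2 hy0)
  obtain ⟨C, hC⟩ : ∃ C : ℕ, C = C1 + C2 + (C3 0 + C3 1 + C3 2) + C4 + C5 +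
      (C6 0 + C6 1 + C6 2) + C7 := ⟨_, rfl⟩
  have g1 : V x₀ ≤ exp (C : ℤ) := h1.trans (exp_le_exp.2 (by omega))
  have g2 : V y₀ ≤ exp (C : ℤ) := h2.trans (exp_le_exp.2 (by omega))
  have g3 : ∀ j, V (z₀ j) ≤ exp (C : ℤ) := by
    intro j
    refine (h3 j).trans (exp_le_exp.2 ?_)
    fin_cases j
    · change (C3 0 : ℤ) ≤ C
      omega
    · change (C3 1 : ℤ) ≤ C
      omega
    · change (C3 2 : ℤ) ≤ C
      omega
  have g4 : V (i a) ≤ exp (C : ℤ) := h4.trans (exp_le_exp.2 (by omega))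
  have g5 : V (i b) ≤ exp (C : ℤ) := h5.trans (exp_le_exp.2 (by omega))
  have g6 : ∀ j, V (i (d j)) ≤ exp (C : ℤ) := by
    intro j
    refine (h6 j).trans (exp_le_exp.2 ?_)
    fin_cases j
    · change (C6 0 : ℤ) ≤ C
      omega
    · change (C6 1 : ℤ) ≤ C
      omega
    · change (C6 2 : ℤ) ≤ C
      omega
  have g7 : exp (-(C : ℤ)) ≤ V y₀ := (exp_le_exp.2 (by omega)).trans h7
  refine ⟨C, fun M => ?_⟩
  obtain ⟨M', hM'⟩ : ∃ M' : ℕ, M' = M + 2 * C + 1 := ⟨_, rfl⟩
  obtain ⟨x, hx⟩ := hdense x₀ M'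
  obtain ⟨y, hy⟩ := hdense y₀ M'
  choose z hz' using fun j => hdense (z₀ j) M'
  have kx := Va_of (M := (M' : ℤ)) g1 hx (by omega)
  have ky := Va_of (M := (M' : ℤ)) g2 hy (by omega)
  have kz : ∀ j, Va_Nr V (C : ℤ) (M' : ℤ) (i (z j)) (z₀ j) := fun j =>
    Va_of (g3 j) (hz' j) (by omega)
  have ka : Va_Nr V (C : ℤ) (M' : ℤ) (i a) (i a) := Va_const _ g4
  have kb : Va_Nr V (C : ℤ) (M' : ℤ) (i b) (i b) := Va_const _ g5
  have kd : ∀ j, Va_Nr V (C : ℤ) (M' : ℤ) (i (d j)) (i (d j)) := fun j => Va_const _ (g6 j)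
  have hC0 : (0 : ℤ) ≤ (C : ℤ) := by omega
  have hone : V 1 ≤ exp (C : ℤ) := by
    rw [map_one, ← exp_zero, exp_le_exp]
    exact hC0
  have kw : ∀ j, Va_Nr V (C : ℤ) (M' : ℤ) ((![i x, -1, 0] : Fin 3 → v.adicCompletion K) j)
      ((![x₀, -1, 0] : Fin 3 → v.adicCompletion K) j) := by
    intro j
    fin_cases j
    · exact kx
    · exact Va_neg (Va_const _ hone)
    · exact Va_const (0 : v.adicCompletion K) (by rw [map_zero]; exact zero_le)
  have hmap : ∀ (u w : Fin 3 → K) (j : Fin 3), i (m3 a b u w j) =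
      m3 (i a) (i b) (fun j => i (u j)) (fun j => i (w j)) j := by
    intro u w j
    fin_cases j <;> simp [m3]
  refine ⟨x, y, z, ?_, ?_, ?_, ?_⟩
  · rw [← hval]
    exact kx.b1
  · rw [← hval]
    by_contra hcon
    rw [not_le] at hcon
    have e1 : V y₀ < exp (-(C : ℤ)) := by
      have e2 : y₀ = i y - (i y - y₀) := by ring
      rw [e2]
      refine lt_of_le_of_lt (Valuation.map_sub _ _ _) (max_lt hcon (lt_of_le_of_lt hy ?_))
      rw [exp_lt_exp]
      omega
    exact absurd g7 (not_le.2 e1)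
  · rw [← hval, map_sub, ff_map, map_pow]
    have e1 := (Va_ff hC0 ka kb kx ky).nr
    have e2 : ff (i a) (i b) x₀ - y₀ ^ 2 = 0 := by
      rw [hxy]
      unfold ff
      ring
    rw [e2, sub_zero] at e1
    exact e1.trans (exp_le_exp.2 (by omega))
  · intro j
    rw [← hval, map_sub, hmap, hmap]
    have e0 : (fun j => i ((![x, -1, 0] : Fin 3 → K) j)) = ![i x, -1, 0] := by
      funext j
      fin_cases j
      · rfl
      · change i (-1) = -1
        rw [map_neg, map_one]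
      · change i 0 = 0
        exact map_zero i
    rw [e0]
    have e1 := (Va_m3 hC0 ka kb kd kw j).nr
    have e2 := (Va_m3 hC0 ka kb kz kz j).nr
    have e3 := congrFun hz j
    have e4 : m3 (i a) (i b) (fun j => i (d j)) ![i x, -1, 0] j -
        m3 (i a) (i b) (fun j => i (z j)) (fun j => i (z j)) j =
        (m3 (i a) (i b) (fun j => i (d j)) ![i x, -1, 0] j -
          m3 (i a) (i b) (fun j => i (d j)) ![x₀, -1, 0] j) -
        (m3 (i a) (i b) (fun j => i (z j)) (fun j => i (z j)) j - m3 (i a) (i b) z₀ z₀ j) := by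
      rw [e3]
      ring
    rw [e4]
    refine (Valuation.map_sub _ _ _).trans (max_le (e1.trans (exp_le_exp.2 (by omega)))
      (e2.trans (exp_le_exp.2 (by omega))))

end H54PR

end S_H54_PR_Va

section S_H54_PR_Vb

set_option autoImplicit false
set_option linter.unusedSectionVars false
open scoped Classical

open WithZero NumberField IsDedekindDomain H38RT H76PP

namespace H54PR

variable {K L : Type} [Field K] [NumberField K] [Field L] [NumberField L] [Algebra K L]

private theorem Vb_le {F : Type} [Field F] [NumberField F] (v : HeightOneSpectrum (𝓞 F)) :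
    exp (-((ord (v.valuation F) 8).toNat : ℤ)) ≤ v.valuation F 8 := by
  have h8 : (8 : F) ≠ 0 := by norm_num
  have h1 : v.valuation F 8 = exp (- ord (v.valuation F) 8) := V_eq h8
  conv_rhs => rw [h1]
  rw [exp_le_exp]
  have := Int.self_le_toNat (ord (v.valuation F) 8)
  omega

private theorem Vb_ne {F : Type} [Field F] [NumberField F] {v : HeightOneSpectrum (𝓞 F)} {y : F}
    {k : ℤ} (h : exp k ≤ v.valuation F y) : y ≠ 0 := by
  rintro rfl
  rw [map_zero] at h
  exact absurd h (not_le.2 exp_pos)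

theorem two_v (v : HeightOneSpectrum (𝓞 K)) (R : ℕ) : ∃ M : ℕ, ∀ F y : K,
    exp (-(R : ℤ)) ≤ v.valuation K y → v.valuation K (F - y ^ 2) ≤ exp (-(M : ℤ)) →
      ∃ m : K, m ≠ 0 ∧ v.valuation K (F * m ^ 2 - 1) ≤ v.valuation K 8 := by
  refine ⟨2 * R + (ord (v.valuation K) 8).toNat, fun F y hy hF => ?_⟩
  have hy0 : y ≠ 0 := Vb_ne hy
  refine ⟨y⁻¹, inv_ne_zero hy0, ?_⟩
  have e1 : F * y⁻¹ ^ 2 - 1 = (F - y ^ 2) / y ^ 2 := by
    field_simp
  have hy2 : 0 < v.valuation K (y ^ 2) := by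
    rw [Valuation.pos_iff]
    exact pow_ne_zero 2 hy0
  rw [e1, map_div₀, div_le_iff₀ hy2]
  refine hF.trans ?_
  have h1 : exp (-(R : ℤ)) * exp (-(R : ℤ)) ≤ v.valuation K (y ^ 2) := by
    rw [map_pow, sq]
    exact mul_le_mul' hy hy
  refine le_trans (le_of_eq ?_) (mul_le_mul' (Vb_le v) h1)
  rw [← exp_add, ← exp_add]
  congr 1
  push_cast
  ring

private theorem Vb_up {w : HeightOneSpectrum (𝓞 L)} {e : ℕ} (he : ∀ x : K, x ≠ 0 →
    ord (w.valuation L) (algebraMap K L x) = e * ord ((dn K w).valuation K) x) {x : K} {k : ℤ}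
    (hx : (dn K w).valuation K x ≤ exp k) : w.valuation L (algebraMap K L x) ≤ exp (e * k) := by
  by_cases h0 : x = 0
  · rw [h0, map_zero, map_zero]
    exact zero_le
  have h0' : algebraMap K L x ≠ 0 := (map_ne_zero _).2 h0
  rw [V_eq h0, exp_le_exp] at hx
  rw [V_eq h0', he x h0, exp_le_exp]
  have := mul_le_mul_of_nonneg_left hx (Int.natCast_nonneg e)
  linarith

private theorem Vb_low {w : HeightOneSpectrum (𝓞 L)} {e : ℕ} (he : ∀ x : K, x ≠ 0 →
    ord (w.valuation L) (algebraMap K L x) = e * ord ((dn K w).valuation K) x) {x : K} {k : ℤ}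
    (hx : exp k ≤ (dn K w).valuation K x) : exp (e * k) ≤ w.valuation L (algebraMap K L x) := by
  have h0 : x ≠ 0 := Vb_ne hx
  have h0' : algebraMap K L x ≠ 0 := (map_ne_zero _).2 h0
  rw [V_eq h0, exp_le_exp] at hx
  rw [V_eq h0', he x h0, exp_le_exp]
  have := mul_le_mul_of_nonneg_left hx (Int.natCast_nonneg e)
  linarith

private theorem Vb_theta {A B : 𝓞 K} {θ : L} (h : Cub K L (A : K) (B : K) θ)
    (w : HeightOneSpectrum (𝓞 L)) : w.valuation L θ ≤ 1 := by
  by_contra hn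
  rw [not_le] at hn
  have hA : w.valuation L (algebraMap K L (A : K)) ≤ 1 := val_le ((dn K w).valuation_le_one A)
  have hB : w.valuation L (algebraMap K L (B : K)) ≤ 1 := val_le ((dn K w).valuation_le_one B)
  have e1 : θ ^ 3 = -(algebraMap K L (A : K) * θ + algebraMap K L (B : K)) := by
    linear_combination h.root
  have e2 : w.valuation L (θ ^ 3) ≤ w.valuation L θ := by
    rw [e1, Valuation.map_neg]
    refine (Valuation.map_add _ _ _).trans (max_le ?_ (hB.trans hn.le))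
    rw [map_mul]
    calc _ ≤ 1 * w.valuation L θ := mul_le_mul' hA le_rfl
      _ = _ := one_mul _
  rw [map_pow] at e2
  have e3 : w.valuation L θ < w.valuation L θ ^ 3 := by
    have h1 : w.valuation L θ ^ 1 < w.valuation L θ ^ 3 := pow_lt_pow_right₀ hn (by norm_num)
    rwa [pow_one] at h1
  exact absurd e2 (not_le.2 e3)

private theorem Vb_ev {w : HeightOneSpectrum (𝓞 L)} {θ : L} (hθ : w.valuation L θ ≤ 1)
    {E : Fin 3 → K} {M : ℕ} (hE : ∀ j, (dn K w).valuation K (E j) ≤ exp (-(M : ℤ))) :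
    w.valuation L (ev θ E) ≤ exp (-(M : ℤ)) := by
  have h1 : ∀ j, w.valuation L (algebraMap K L (E j)) ≤ exp (-(M : ℤ)) := fun j =>
    val_exp_le (Int.natCast_nonneg M) (hE j)
  unfold ev
  refine (Valuation.map_add _ _ _).trans (max_le ((Valuation.map_add _ _ _).trans
    (max_le (h1 0) ?_)) ?_)
  · rw [map_mul]
    calc _ ≤ exp (-(M : ℤ)) * 1 := mul_le_mul' (h1 1) hθ
      _ = _ := mul_one _
  · rw [map_mul, map_pow]
    calc _ ≤ exp (-(M : ℤ)) * 1 := mul_le_mul' (h1 2) (pow_le_one₀ zero_le hθ)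
      _ = _ := mul_one _

theorem two_w {A B : 𝓞 K} {θ : L} (h : Cub K L (A : K) (B : K) θ) {d : Fin 3 → K}
    (hd : ev θ d ≠ 0) (w : HeightOneSpectrum (𝓞 L)) (R : ℕ) :
    ∃ M : ℕ, ∀ (x y : K) (z : Fin 3 → K), (dn K w).valuation K x ≤ exp (R : ℤ) →
      exp (-(R : ℤ)) ≤ (dn K w).valuation K y →
      (dn K w).valuation K (ff (A : K) (B : K) x - y ^ 2) ≤ exp (-(M : ℤ)) →
      (∀ j, (dn K w).valuation K (m3 (A : K) (B : K) d ![x, -1, 0] j -
        m3 (A : K) (B : K) z z j) ≤ exp (-(M : ℤ))) →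
      ∃ m : L, m ≠ 0 ∧
        w.valuation L (ev θ d * (algebraMap K L x - θ) * m ^ 2 - 1) ≤ w.valuation L 8 := by
  obtain ⟨e, -, he⟩ := ord_dn (K := K) w
  have hθ := Vb_theta h w
  obtain ⟨R₁, hR₁⟩ : ∃ R₁ : ℕ, exp (-(R₁ : ℤ)) ≤
      w.valuation L (ev θ d) * exp (-(4 * e * R : ℤ)) := by
    refine ⟨(ord (w.valuation L) (ev θ d) + 4 * e * R).toNat, ?_⟩
    rw [V_eq hd, ← exp_add, exp_le_exp]
    have := Int.self_le_toNat (ord (w.valuation L) (ev θ d) + 4 * e * R)
    linarith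
  obtain ⟨M, hM⟩ : ∃ M : ℕ, M = R₁ + (ord (w.valuation L) 8).toNat + 2 * R + 1 := ⟨_, rfl⟩
  refine ⟨M, fun x y z hx hy hF hE => ?_⟩
  have hy0 : y ≠ 0 := Vb_ne hy
  -- the value of `f x`
  have hy2 : exp (-(2 * R : ℤ)) ≤ (dn K w).valuation K (y ^ 2) := by
    have h1 : exp (-(R : ℤ)) * exp (-(R : ℤ)) ≤ (dn K w).valuation K (y ^ 2) := by
      rw [map_pow, sq]
      exact mul_le_mul' hy hy
    refine le_trans (le_of_eq ?_) h1
    rw [← exp_add]
    congr 1
    ring
  have hFv : (dn K w).valuation K (ff (A : K) (B : K) x) = (dn K w).valuation K (y ^ 2) := by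
    refine Valuation.map_eq_of_sub_lt _ (lt_of_le_of_lt hF (lt_of_lt_of_le ?_ hy2))
    rw [exp_lt_exp, hM]
    push_cast
    omega
  have hFw : exp (e * (-(2 * R : ℤ))) ≤
      w.valuation L (algebraMap K L (ff (A : K) (B : K) x)) := by
    refine Vb_low he ?_
    rw [hFv]
    exact hy2
  have hxw : w.valuation L (algebraMap K L x) ≤ exp (e * (R : ℤ)) := Vb_up he hx
  have h1e : (1 : WithZero (Multiplicative ℤ)) ≤ exp (e * (R : ℤ)) := by
    rw [← exp_zero, exp_le_exp]
    positivity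
  have hxx : exp (e * (R : ℤ)) * exp (e * (R : ℤ)) = exp (e * (2 * R : ℤ)) := by
    rw [← exp_add]
    congr 1
    ring
  have h1ee : (1 : WithZero (Multiplicative ℤ)) ≤ exp (e * (2 * R : ℤ)) := by
    rw [← exp_zero, exp_le_exp]
    positivity
  have hA : w.valuation L (algebraMap K L (A : K)) ≤ 1 := val_le ((dn K w).valuation_le_one A)
  have hQ : w.valuation L (θ ^ 2 + algebraMap K L x * θ + algebraMap K L x ^ 2 +
      algebraMap K L (A : K)) ≤ exp (e * (2 * R : ℤ)) := by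
    refine (Valuation.map_add _ _ _).trans (max_le ((Valuation.map_add _ _ _).trans
      (max_le ((Valuation.map_add _ _ _).trans (max_le ?_ ?_)) ?_)) (hA.trans h1ee))
    · rw [map_pow]
      exact (pow_le_one₀ zero_le hθ).trans h1ee
    · rw [map_mul, ← hxx]
      exact mul_le_mul' hxw (hθ.trans h1e)
    · rw [map_pow, sq, ← hxx]
      exact mul_le_mul' hxw hxw
  have hsub : exp (-(4 * e * R : ℤ)) ≤ w.valuation L (algebraMap K L x - θ) := by
    have h1 := sub_mul_quad h.root x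
    rw [← h1, map_mul] at hFw
    have h2 := hFw.trans (mul_le_mul' (le_refl (w.valuation L (algebraMap K L x - θ))) hQ)
    have h3 : exp (-(4 * e * R : ℤ)) * exp (e * (2 * R : ℤ)) = exp (e * (-(2 * R : ℤ))) := by
      rw [← exp_add]
      congr 1
      ring
    rw [← h3] at h2
    exact le_of_mul_le_mul_right h2 exp_pos
  set P := ev θ d * (algebraMap K L x - θ) with hP
  have hPw : exp (-(R₁ : ℤ)) ≤ w.valuation L P := by
    rw [hP, map_mul]
    exact hR₁.trans (mul_le_mul' le_rfl hsub)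
  have hPZ : P - ev θ z ^ 2 = ev θ (fun j => m3 (A : K) (B : K) d ![x, -1, 0] j -
        m3 (A : K) (B : K) z z j) := by
    have h1 : P = ev θ (m3 (A : K) (B : K) d ![x, -1, 0]) := by
      rw [ev_m3 h.root, ev_sub, hP]
    have h2 : ev θ z ^ 2 = ev θ (m3 (A : K) (B : K) z z) := by
      rw [ev_m3 h.root, sq]
    rw [h1, h2]
    unfold ev
    simp only [map_sub]
    ring
  have hsm : w.valuation L (P - ev θ z ^ 2) ≤ exp (-(M : ℤ)) := by
    rw [hPZ]
    exact Vb_ev hθ hE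
  have hZ : w.valuation L (ev θ z ^ 2) = w.valuation L P := by
    refine Valuation.map_eq_of_sub_lt _ ?_
    rw [Valuation.map_sub_swap]
    refine lt_of_le_of_lt hsm (lt_of_lt_of_le ?_ hPw)
    rw [exp_lt_exp, hM]
    push_cast
    omega
  have hP0 : P ≠ 0 := Vb_ne hPw
  have hZ0 : ev θ z ≠ 0 := by
    intro h0
    rw [h0, zero_pow two_ne_zero, map_zero] at hZ
    exact hP0 ((Valuation.zero_iff _).1 hZ.symm)
  refine ⟨(ev θ z)⁻¹, inv_ne_zero hZ0, ?_⟩
  have e1 : P * (ev θ z)⁻¹ ^ 2 - 1 = (P - ev θ z ^ 2) / ev θ z ^ 2 := by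
    field_simp
  have hz2 : 0 < w.valuation L (ev θ z ^ 2) := by
    rw [Valuation.pos_iff]
    exact pow_ne_zero 2 hZ0
  rw [e1, map_div₀, div_le_iff₀ hz2, hZ]
  refine hsm.trans ?_
  refine le_trans ?_ (mul_le_mul' (Vb_le w) hPw)
  rw [← exp_add, exp_le_exp, hM]
  push_cast
  omega

end H54PR

end S_H54_PR_Vb

section S_H54_PR_Vc

set_option autoImplicit false
set_option linter.unusedSectionVars false
open scoped Classical

open WithZero NumberField IsDedekindDomain H38RT H76PP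

namespace H54PR

variable {K L : Type} [Field K] [NumberField K] [Field L] [NumberField L] [Algebra K L]

private lemma Vc_le {a b : ℤ} (h : a ≤ b) :
    (exp a : WithZero (Multiplicative ℤ)) ≤ exp b := WithZero.exp_le_exp.2 h

private lemma Vc_bd (v : HeightOneSpectrum (𝓞 K)) (t : K) :
    ∃ D : ℕ, v.valuation K t ≤ exp (D : ℤ) := by
  by_cases h : v.valuation K t = 0
  · exact ⟨0, by rw [h]; exact zero_le⟩
  · refine ⟨(WithZero.log (v.valuation K t)).toNat, ?_⟩
    rw [← WithZero.exp_log h]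
    rw [WithZero.log_exp]
    exact Vc_le (Int.self_le_toNat _)

private lemma Vc_add {v : HeightOneSpectrum (𝓞 K)} {s t : K} {n : ℤ}
    (hs : v.valuation K s ≤ exp n) (ht : v.valuation K t ≤ exp n) :
    v.valuation K (s + t) ≤ exp n :=
  (Valuation.map_add _ _ _).trans (max_le hs ht)

private lemma Vc_mul {v : HeightOneSpectrum (𝓞 K)} {s t : K} {a b n : ℤ}
    (hs : v.valuation K s ≤ exp a) (ht : v.valuation K t ≤ exp b) (h : a + b ≤ n) :
    v.valuation K (s * t) ≤ exp n := by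
  rw [map_mul]
  refine (mul_le_mul' hs ht).trans ?_
  rw [← WithZero.exp_add]
  exact Vc_le h

theorem LC_two {A B : 𝓞 K} {θ : L} (h : Cub K L (A : K) (B : K) θ) {d : Fin 3 → K}
    (hd : ev θ d ≠ 0) (v : HeightOneSpectrum (𝓞 K))
    (hLC : LC (algebraMap K (v.adicCompletion K)) (A : K) (B : K) d) :
    ∃ (x₀ : K) (N : ℕ), ∀ x : K, v.valuation K (x - x₀) ≤ exp (-(N : ℤ)) →
      (∃ m : K, m ≠ 0 ∧
        v.valuation K (ff (A : K) (B : K) x * m ^ 2 - 1) ≤ v.valuation K 8) ∧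
      ∀ w : HeightOneSpectrum (𝓞 L), dn K w = v → ∃ m : L, m ≠ 0 ∧
        w.valuation L (ev θ d * (algebraMap K L x - θ) * m ^ 2 - 1) ≤ w.valuation L 8 := by
  obtain ⟨R, hR⟩ := LC_near v hLC
  obtain ⟨Mv, hMv⟩ := two_v v R
  choose Mw hMw using fun w : HeightOneSpectrum (𝓞 L) => two_w h hd w R
  set S : Finset (HeightOneSpectrum (𝓞 L)) := (fin_above (L := L) v).toFinset with hS
  set M : ℕ := S.sup Mw + Mv with hM
  obtain ⟨x₀, y, z, hx₀, hy, hF, hm⟩ := hR M
  obtain ⟨D0, hD0⟩ := Vc_bd v (d 0)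
  obtain ⟨D1, hD1⟩ := Vc_bd v (d 1)
  obtain ⟨D2, hD2⟩ := Vc_bd v (d 2)
  refine ⟨x₀, M + (D0 + D1 + D2) + 2 * R, ?_⟩
  intro x hx
  have hA : v.valuation K (A : K) ≤ exp (0 : ℤ) := by
    rw [WithZero.exp_zero]
    exact v.valuation_le_one A
  have hxR : v.valuation K x ≤ exp (R : ℤ) := by
    have h1 : x = (x - x₀) + x₀ := by ring
    rw [h1]
    exact Vc_add (hx.trans (Vc_le (by push_cast; omega))) hx₀
  have hFx : v.valuation K (ff (A : K) (B : K) x - y ^ 2) ≤ exp (-(M : ℤ)) := by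
    have h1 : ff (A : K) (B : K) x - y ^ 2 =
        (x - x₀) * (x * x + x * x₀ + x₀ * x₀ + A) + (ff (A : K) (B : K) x₀ - y ^ 2) := by
      unfold ff
      ring
    rw [h1]
    refine Vc_add (Vc_mul hx (b := 2 * (R : ℤ)) ?_ (by push_cast; omega)) hF
    refine Vc_add (Vc_add (Vc_add ?_ ?_) ?_) ?_
    · exact Vc_mul hxR hxR (by omega)
    · exact Vc_mul hxR hx₀ (by omega)
    · exact Vc_mul hx₀ hx₀ (by omega)
    · exact hA.trans (Vc_le (by omega))
  have hmx : ∀ j, v.valuation K (m3 (A : K) (B : K) d ![x, -1, 0] j -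
      m3 (A : K) (B : K) z z j) ≤ exp (-(M : ℤ)) := by
    intro j
    have h1 : m3 (A : K) (B : K) d ![x, -1, 0] j - m3 (A : K) (B : K) z z j =
        d j * (x - x₀) + (m3 (A : K) (B : K) d ![x₀, -1, 0] j - m3 (A : K) (B : K) z z j) := by
      have h2 : m3 (A : K) (B : K) d ![x, -1, 0] j - m3 (A : K) (B : K) d ![x₀, -1, 0] j =
          d j * (x - x₀) := by
        unfold m3
        fin_cases j
        · simp
          ring
        · simp
          ring
        · simp
          ring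
      linear_combination h2
    rw [h1]
    refine Vc_add ?_ (hm j)
    have hDj : v.valuation K (d j) ≤ exp ((D0 + D1 + D2 : ℕ) : ℤ) := by
      fin_cases j
      · exact hD0.trans (Vc_le (by push_cast; omega))
      · exact hD1.trans (Vc_le (by push_cast; omega))
      · exact hD2.trans (Vc_le (by push_cast; omega))
    exact Vc_mul hDj hx (by push_cast; omega)
  refine ⟨hMv _ y hy (hFx.trans (Vc_le (by omega))), ?_⟩
  intro w hw
  have hwM : Mw w ≤ M := by
    have h1 : w ∈ S := by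
      rw [hS, Set.Finite.mem_toFinset]
      exact hw
    have h2 := Finset.le_sup (f := Mw) h1
    omega
  have h3 := hMw w x y z
  rw [hw] at h3
  exact h3 hxR hy (hFx.trans (Vc_le (by omega))) (fun j => (hmx j).trans (Vc_le (by omega)))

end H54PR

end S_H54_PR_Vc

section S_H54_PR_Vd

set_option autoImplicit false
set_option linter.unusedSectionVars false
open scoped Classical

open WithZero NumberField IsDedekindDomain H38RT H76PP

namespace H54PR

variable {K L : Type} [Field K] [NumberField K] [Field L] [NumberField L] [Algebra K L]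

theorem Vd_fin : Finite (L →+* ℝ) := by
  have : Finite (L →+* ℂ) := inferInstance
  refine Finite.of_injective (fun σ : L →+* ℝ => (Complex.ofRealHom.comp σ : L →+* ℂ)) ?_
  intro σ τ h
  ext x
  have h1 := congrArg (fun φ : L →+* ℂ => φ x) h
  simpa using h1

theorem LC_real {a b : K} {θ : L} (h : Cub K L a b θ) {d : Fin 3 → K} (hd : ev θ d ≠ 0)
    (s : K →+* ℝ) (hLC : LC s a b d) :
    ∃ r ε : ℝ, 0 < ε ∧ ∀ x : K, |s x - r| < ε → 0 < s (ff a b x) ∧
      ∀ σ : L →+* ℝ, (∀ y : K, σ (algebraMap K L y) = s y) →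
        0 < σ (ev θ d * (algebraMap K L x - θ)) := by
  obtain ⟨r, y, z, hy, hyr, hz⟩ := hLC
  have hf : ff (s a) (s b) r = y ^ 2 := by
    unfold ff
    rw [hyr]
  have hf0 : 0 < ff (s a) (s b) r := by
    rw [hf]
    positivity
  have hfin : Finite (L →+* ℝ) := Vd_fin
  have hc1 : Continuous (fun t : ℝ => ff (s a) (s b) t) := by
    unfold ff
    fun_prop
  have e1 : ∀ᶠ t in nhds r, 0 < ff (s a) (s b) t :=
    hc1.continuousAt.eventually (lt_mem_nhds hf0)
  have e2 : ∀ σ : L →+* ℝ, (∀ y : K, σ (algebraMap K L y) = s y) →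
      ∀ᶠ t in nhds r, 0 < σ (ev θ d) * (t - σ θ) := by
    intro σ hσ
    have hroot : (σ θ) ^ 3 + algebraMap ℝ ℝ (s a) * (σ θ) + algebraMap ℝ ℝ (s b) = 0 := by
      have h1 := congrArg σ h.root
      rw [map_add, map_add, map_mul, map_pow, hσ, hσ, map_zero] at h1
      exact h1
    have hev : σ (ev θ d) = ev (σ θ) (fun j => s (d j)) := by
      unfold ev
      simp only [map_add, map_mul, map_pow, hσ]
      rfl
    have h3 : ev (σ θ) (fun j => s (d j)) * (r - σ θ) = ev (σ θ) z * ev (σ θ) z := by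
      rw [← ev_m3 hroot, ← hz, ev_m3 hroot, ev_sub]
      rfl
    have h4 : σ (ev θ d) ≠ 0 := (map_ne_zero σ).2 hd
    have h5 : r - σ θ ≠ 0 := by
      intro h0
      have h6 := sub_mul_quad hroot r
      have h7 : algebraMap ℝ ℝ r - σ θ = 0 := h0
      rw [h7, zero_mul] at h6
      have h8 : algebraMap ℝ ℝ (ff (s a) (s b) r) = ff (s a) (s b) r := rfl
      rw [h8] at h6
      exact hf0.ne h6
    have h6 : 0 < σ (ev θ d) * (r - σ θ) := by
      have h7 : σ (ev θ d) * (r - σ θ) ≠ 0 := mul_ne_zero h4 h5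
      have h8 : 0 ≤ σ (ev θ d) * (r - σ θ) := by
        rw [hev, h3]
        exact mul_self_nonneg _
      exact lt_of_le_of_ne h8 (Ne.symm h7)
    have hc2 : Continuous (fun t : ℝ => σ (ev θ d) * (t - σ θ)) := by fun_prop
    exact hc2.continuousAt.eventually (lt_mem_nhds h6)
  have e3 : ∀ᶠ t in nhds r, ∀ σ : L →+* ℝ, (∀ y : K, σ (algebraMap K L y) = s y) →
      0 < σ (ev θ d) * (t - σ θ) := by
    rw [Filter.eventually_all]
    intro σ
    by_cases hσ : ∀ y : K, σ (algebraMap K L y) = s y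
    · exact (e2 σ hσ).mono fun t ht _ => ht
    · exact Filter.Eventually.of_forall fun t ht => absurd ht hσ
  obtain ⟨ε, hε, hball⟩ := Metric.eventually_nhds_iff.1 (e1.and e3)
  refine ⟨r, ε, hε, fun x hx => ?_⟩
  have h1 := hball (y := s x) (by rw [Real.dist_eq]; exact hx)
  refine ⟨?_, fun σ hσ => ?_⟩
  · rw [ff_map]
    exact h1.1
  · rw [map_mul, map_sub, hσ]
    exact h1.2 σ hσ

end H54PR

end S_H54_PR_Vd

section S_H54_PR_Sd

set_option autoImplicit false
set_option linter.unusedSectionVars false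
open scoped Classical

open WithZero NumberField IsDedekindDomain H38RT H76PP
open H38T1 (SC sc scu rep eo la si Pri OddP tp unif)

namespace H54PR

variable {K L : Type} [Field K] [NumberField K] [Field L] [NumberField L] [Algebra K L]

theorem exists_pt {A B : 𝓞 K} {θ : L} (h : Cub K L (A : K) (B : K) θ) {d : Fin 3 → K}
    (hd : ev θ d ≠ 0)
    (h2 : ∀ v : HeightOneSpectrum (𝓞 K), v.valuation K 2 < 1 →
      LC (algebraMap K (v.adicCompletion K)) (A : K) (B : K) d)
    (hr : ∀ s : K →+* ℝ, LC s (A : K) (B : K) d) (c : K) :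
    ∃ x : K, x ≠ c ∧ Sq8 K (ff (A : K) (B : K) x) ∧
      (∀ s : K →+* ℝ, 0 < s (ff (A : K) (B : K) x)) ∧
      Sq8 L (ev θ d * (algebraMap K L x - θ)) ∧
      ∀ σ : L →+* ℝ, 0 < σ (ev θ d * (algebraMap K L x - θ)) := by
  have hfin : {v : HeightOneSpectrum (𝓞 K) | v.valuation K 2 < 1}.Finite :=
    (fin_bad (K := K) (x := 2) two_ne_zero).subset (fun v hv => ne_of_lt hv)
  choose! x₀ N hN using fun (v : HeightOneSpectrum (𝓞 K)) (hv : v.valuation K 2 < 1) =>
    LC_two h hd v (h2 v hv)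
  choose r ε hε hr' using fun (s : K →+* ℝ) => LC_real (L := L) h hd s (hr s)
  obtain ⟨ε₀, hε₀, hle⟩ : ∃ e : ℝ, 0 < e ∧ ∀ s, e ≤ ε s := by
    by_cases hne : Nonempty (K →+* ℝ)
    · obtain ⟨s0, hs0⟩ := Finite.exists_min ε
      exact ⟨ε s0, hε s0, hs0⟩
    · exact ⟨1, one_pos, fun s => absurd ⟨s⟩ hne⟩
  have hmem : ∀ v, v ∈ hfin.toFinset ↔ v.valuation K 2 < 1 := fun v => by
    rw [Set.Finite.mem_toFinset, Set.mem_setOf_eq]
  obtain ⟨x, hxc, hx1, hx2⟩ := weak2 hfin.toFinset (fun v hv => (hmem v).1 hv) x₀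
    (hfin.toFinset.sup N) r hε₀ c
  have hx3 : ∀ v : HeightOneSpectrum (𝓞 K), v.valuation K 2 < 1 →
      v.valuation K (x - x₀ v) ≤ exp (-(N v : ℤ)) := by
    intro v hv
    refine (hx1 v ((hmem v).2 hv)).trans ?_
    rw [exp_le_exp]
    have h1 : N v ≤ hfin.toFinset.sup N := Finset.le_sup ((hmem v).2 hv)
    omega
  refine ⟨x, hxc, ?_, ?_, ?_, ?_⟩
  · intro v hv
    exact (hN v hv x (hx3 v hv)).1
  · intro s
    exact (hr' s x ((hx2 s).trans_le (hle s))).1
  · intro w hw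
    have hv : (dn K w).valuation K 2 < 1 := by
      by_contra hcon
      have h1 : (dn K w).valuation K 2 = 1 := le_antisymm (val_two_le _) (not_lt.1 hcon)
      have h3 := val_one h1
      rw [map_ofNat] at h3
      exact absurd h3 (ne_of_lt hw)
    exact (hN _ hv x (hx3 _ hv)).2 w rfl
  · intro σ
    exact (hr' (σ.comp (algebraMap K L)) x ((hx2 _).trans_le (hle _))).2 σ (fun y => rfl)

end H54PR

end S_H54_PR_Sd

section S_H54_PR_Fin

set_option autoImplicit false
set_option linter.unusedSectionVars false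
open scoped Classical

open WithZero NumberField IsDedekindDomain H38RT H76PP
open H38T1 (SC sc scu rep eo la si Pri OddP tp unif)

namespace H54PR

variable {K L : Type} [Field K] [NumberField K] [Field L] [NumberField L] [Algebra K L]

theorem sc_two_add {F : Type} [Field F] (c d : SC F) : (c + d) + d = c := by
  rw [add_assoc]
  have h := SC.two_smul d
  rw [two_nsmul] at h
  rw [h, add_zero]

theorem sum_zero (hK : RecT K) (hP : ProjT K L) {A B : 𝓞 K} {θ : L}
    (h : Cub K L (A : K) (B : K) θ) {x c : K} (hc : c ≠ 0)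
    (h8 : Sq8 K (ff (A : K) (B : K) x)) (hs : ∀ s : K →+* ℝ, 0 < s (ff (A : K) (B : K) x)) :
    ∑ᶠ w : HeightOneSpectrum (𝓞 L), (if OddP w then
      tp w (sc (algebraMap K L x - θ)) (sc (algebraMap K L c)) else 0) = 0 := by
  rw [sum_dn hP (sub_ne h x) hc, h.norm_sub x]
  have h1 := hK c (ff (A : K) (B : K) x) hc (ff_ne h x) h8 hs
  refine Eq.trans (finsum_congr fun v => ?_) h1
  by_cases hv : OddP v
  · rw [if_pos hv, if_pos hv, H38T1.tp_comm]
    rfl
  · rw [if_neg hv, if_neg hv]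

theorem iso_sum' (hK : RecT K) (hL : RecT L) (hP : ProjT K L) {A B : 𝓞 K} {θ : L}
    (h : Cub K L (A : K) (B : K) θ) {d d' : Fin 3 → K} (hd0 : ev θ d ≠ 0)
    (hd0' : ev θ d' ≠ 0)
    (h2 : ∀ v : HeightOneSpectrum (𝓞 K), v.valuation K 2 < 1 →
      LC (algebraMap K (v.adicCompletion K)) (A : K) (B : K) d ∧
      LC (algebraMap K (v.adicCompletion K)) (A : K) (B : K) d')
    (hr : ∀ s : K →+* ℝ, LC s (A : K) (B : K) d ∧ LC s (A : K) (B : K) d') :
    ∑ᶠ w : HeightOneSpectrum (𝓞 L),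
      (if OddP w then tp w (sc (ev θ d)) (sc (ev θ d')) else 0) = 0 := by
  obtain ⟨a, -, ha1, ha2, ha3, ha4⟩ := exists_pt h hd0 (fun v hv => (h2 v hv).1)
    (fun s => (hr s).1) 0
  obtain ⟨b, hab, hb1, hb2, hb3, hb4⟩ := exists_pt h hd0' (fun v hv => (h2 v hv).2)
    (fun s => (hr s).2) a
  set δ := ev θ d with hδ
  set δ' := ev θ d' with hδ'
  set U : L := algebraMap K L a - θ with hU
  set W : L := algebraMap K L b - θ with hW
  have hU0 : U ≠ 0 := sub_ne h a
  have hW0 : W ≠ 0 := sub_ne h b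
  have hc : a - b ≠ 0 := sub_ne_zero.2 (Ne.symm hab)
  have hUW : U - W = algebraMap K L (a - b) := by
    rw [hU, hW, map_sub]
    ring
  have hUW0 : U - W ≠ 0 := by
    rw [hUW]
    exact (map_ne_zero (algebraMap K L)).2 hc
  have s1 := hL δ' (δ * U) hd0' (mul_ne_zero hd0 hU0) ha3 ha4
  have s2 := hL U (δ' * W) hU0 (mul_ne_zero hd0' hW0) hb3 hb4
  have s3 := sum_zero hK hP h (neg_ne_zero.2 hc) ha1 ha2
  have s4 := sum_zero hK hP h hc hb1 hb2
  have f1 := tp_fin hd0' (mul_ne_zero hd0 hU0)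
  have f2 := tp_fin hU0 (mul_ne_zero hd0' hW0)
  have f3 := tp_fin hU0 (neg_ne_zero.2 hUW0)
  have f4 := tp_fin hW0 hUW0
  have key : ∀ w : HeightOneSpectrum (𝓞 L),
      (if OddP w then tp w (sc δ) (sc δ') else 0) =
      ((if OddP w then tp w (sc δ') (sc (δ * U)) else 0) +
        (if OddP w then tp w (sc U) (sc (δ' * W)) else 0)) +
      ((if OddP w then tp w (sc U) (sc (-(U - W))) else 0) +
        (if OddP w then tp w (sc W) (sc (U - W)) else 0)) := by
    intro w
    by_cases hw : OddP w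
    · simp only [if_pos hw]
      rw [← tp_sub hw hU0 hW0 hUW0, H38T1.sc_mul hd0 hU0, H38T1.sc_mul hd0' hW0,
        tp_add_right hw, tp_add_right hw, H38T1.tp_comm (sc δ) (sc δ'),
        H38T1.tp_comm (sc U) (sc δ')]
      have e1 : ∀ x y z : ZMod 2, x = x + y + (y + z) + z := by decide
      exact e1 _ _ _
    · simp only [if_neg hw, add_zero]
  rw [finsum_congr key, finsum_add_distrib, finsum_add_distrib f1 f2, finsum_add_distrib f3 f4,
    s1, s2]
  · rw [map_neg] at s3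
    rw [hUW, s3, s4, add_zero, add_zero]
  · exact (f1.union f2).subset (Function.support_add _ _)
  · exact (f3.union f4).subset (Function.support_add _ _)

/-- (8.5), in the form of `IfR.lean`, for every reciprocity law and projection formula. -/
theorem iso_sum (hK : RecT K) (hL : RecT L) (hP : ProjT K L) {A B : 𝓞 K} {θ : L}
    (h : Cub K L (A : K) (B : K) θ) {d d' : Fin 3 → K} (hd0 : ev θ d ≠ 0)
    (hd0' : ev θ d' ≠ 0) (_hN : IsSquare (Algebra.norm K (ev θ d)))
    (_hN' : IsSquare (Algebra.norm K (ev θ d')))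
    (h2 : ∀ v : HeightOneSpectrum (𝓞 K), v.valuation K 2 < 1 →
      LC (algebraMap K (v.adicCompletion K)) (A : K) (B : K) d ∧
      LC (algebraMap K (v.adicCompletion K)) (A : K) (B : K) d')
    (hr : ∀ s : K →+* ℝ, LC s (A : K) (B : K) d ∧ LC s (A : K) (B : K) d') :
    ∑ᶠ w : HeightOneSpectrum (𝓞 L),
      (if OddP w then tp w (sc (ev θ d)) (sc (ev θ d')) else 0) = 0 :=
  iso_sum' hK hL hP h hd0 hd0' h2 hr

end H54PR

end S_H54_PR_Fin
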