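import Mathlib
import Pool.Agent.H38.T1.Ea
import Pool.Agent.H76.PN.A4
import Pool.Agent.H76.PN.A5
import Pool.Agent.H76.PN.N2
import Pool.Agent.H76.PN.N3
import Pool.Agent.H76.PN.R1

/-! This file joins several modules to save build time (N4). -/

set_option autoImplicit false

section S_H54_MT_La

set_option autoImplicit false
set_option linter.unusedSectionVars false
open scoped Classical

open WithZero NumberField IsDedekindDomain H38RT H76PP
open H38T1 (SC sc scu rep eo la si Pri OddP tp unif)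

namespace H54MT

section one

variable {F : Type} [Field F] [NumberField F] {v : HeightOneSpectrum (𝓞 F)}

theorem two_add (c : SC F) : c + c = 0 := (two_nsmul c).symm.trans (H38T1.SC.two_smul c)

theorem near_one {y : F} (h : v.valuation F (y - 1) < 1) : v.valuation F y = 1 := by
  have h1 := Valuation.map_one_add_of_lt (v.valuation F) h
  rwa [add_sub_cancel] at h1

theorem tp_near (hv : OddP v) {y : F} (h : v.valuation F (y - 1) < 1) (c : SC F) :
    tp v c (sc y) = 0 := by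
  have h1 := near_one h
  have hy : y ≠ 0 := by
    rintro rfl
    rw [map_zero] at h1
    exact zero_ne_one h1
  have h3 : eo v (sc y) = 0 := by
    rw [H38T1.eo_sc hy]
    unfold ord
    rw [h1, log_one, neg_zero, Int.cast_zero]
  have h2 : la v (sc y) = 0 := by
    rw [H38T1.la_sc hv hy, lam_unit h1]
    refine if_pos ⟨1, ?_⟩
    rwa [one_pow]
  unfold tp
  rw [h3, h2]
  ring

theorem sc_sq {z : F} (hz : z ≠ 0) : sc (z ^ 2) = 0 :=
  (H38T1.sc_eq_zero (pow_ne_zero 2 hz)).2 ⟨z, sq z⟩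

theorem tp_near_sq (hv : OddP v) {y z : F} (hy : y ≠ 0) (hz : z ≠ 0)
    (h : v.valuation F (y / z ^ 2 - 1) < 1) (c : SC F) : tp v c (sc y) = 0 := by
  have h1 : sc y = sc (y / z ^ 2) := by
    have h2 := H38T1.sc_mul (div_ne_zero hy (pow_ne_zero 2 hz)) (pow_ne_zero 2 hz)
    rw [div_mul_cancel₀ _ (pow_ne_zero 2 hz), sc_sq hz, add_zero] at h2
    exact h2
  rw [h1]
  exact tp_near hv h c

end one

variable {K L : Type} [Field K] [NumberField K] [Field L] [NumberField L] [Algebra K L]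

/-- The sum over the places above an odd place vanishes. -/
theorem loc_iso {A B : 𝓞 K} {θ : L} (h : Cub K L (A : K) (B : K) θ) (hR : HR2 K L A B θ)
    {v : HeightOneSpectrum (𝓞 K)} (hv : OddP v) {d d' : Fin 3 → K} (hd : ev θ d ≠ 0)
    (hd' : ev θ d' ≠ 0) (h1 : LC (algebraMap K (v.adicCompletion K)) (A : K) (B : K) d)
    (h2 : LC (algebraMap K (v.adicCompletion K)) (A : K) (B : K) d') :
    ∑ᶠ w : {w : HeightOneSpectrum (𝓞 L) // dn K w = v},
      tp w.1 (sc (ev θ d)) (sc (ev θ d')) = 0 := by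
  obtain ⟨x, y, z, hy, hz, hf, hw⟩ := LC_approx h hd v h1
  obtain ⟨x', y', z', hy', hz', hf', hw'⟩ := LC_approx h hd' v h2
  set U : L := algebraMap K L x - θ with hU
  set W : L := algebraMap K L x' - θ with hW
  have hU0 : U ≠ 0 := H54PR.sub_ne h x
  have hW0 : W ≠ 0 := H54PR.sub_ne h x'
  have hfx : x ^ 3 + (A : K) * x + (B : K) ≠ 0 := H54PR.ff_ne h x
  have hfx' : x' ^ 3 + (A : K) * x' + (B : K) ≠ 0 := H54PR.ff_ne h x'
  have hodd : ∀ w : {w : HeightOneSpectrum (𝓞 L) // dn K w = v}, OddP w.1 := by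
    intro w
    rw [oddP_dn (K := K), w.2]
    exact hv
  have e1 : ∀ w : {w : HeightOneSpectrum (𝓞 L) // dn K w = v},
      tp w.1 (sc (ev θ d)) (sc (ev θ d')) = tp w.1 (sc U) (sc W) := by
    intro w
    have a1 := tp_near_sq (hodd w) (mul_ne_zero hd hU0) hz (hw w.1 w.2) (sc (ev θ d'))
    have a2 := tp_near_sq (hodd w) (mul_ne_zero hd' hW0) hz' (hw' w.1 w.2) (sc U)
    rw [H38T1.sc_mul hd hU0, H54PR.tp_add_right (hodd w), H38T1.tp_comm,
      H38T1.tp_comm (sc (ev θ d')) (sc U)] at a1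
    rw [H38T1.sc_mul hd' hW0, H54PR.tp_add_right (hodd w)] at a2
    have e3 : ∀ p q r : ZMod 2, p + q = 0 → q + r = 0 → p = r := by decide
    exact e3 _ _ _ a1 a2
  rw [finsum_congr e1]
  have hfin : Finite {w : HeightOneSpectrum (𝓞 L) // dn K w = v} := (fin_above v).to_subtype
  by_cases hxx : x = x'
  · have e2 : ∀ w : {w : HeightOneSpectrum (𝓞 L) // dn K w = v},
        tp w.1 (sc U) (sc W) = tp w.1 (sc U) (sc (algebraMap K L (-1))) := by
      intro w
      have b1 := H38T1.tp_neg (hodd w) hU0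
      have b2 : sc (-U) = sc (-1 : L) + sc U := by
        rw [← H38T1.sc_mul (neg_ne_zero.2 one_ne_zero) hU0, neg_one_mul]
      rw [b2, H54PR.tp_add_right (hodd w)] at b1
      have b3 : W = U := by rw [hU, hW, hxx]
      rw [b3, map_neg, map_one]
      have e3 : ∀ p q : ZMod 2, p + q = 0 → q = p := by decide
      exact e3 _ _ b1
    rw [finsum_congr e2, hR.proj hv hU0 (neg_ne_zero.2 one_ne_zero), h.norm_sub x, H38T1.tp_comm]
    exact tp_near_sq hv hfx hy hf _
  · have hc : x - x' ≠ 0 := sub_ne_zero.2 hxx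
    have hUW : U - W = algebraMap K L (x - x') := by
      rw [hU, hW, map_sub]
      ring
    have hUW0 : U - W ≠ 0 := by
      rw [hUW]
      exact (map_ne_zero (algebraMap K L)).2 hc
    have e2 : ∀ w : {w : HeightOneSpectrum (𝓞 L) // dn K w = v},
        tp w.1 (sc U) (sc W) = tp w.1 (sc U) (sc (algebraMap K L (-(x - x')))) +
          tp w.1 (sc W) (sc (algebraMap K L (x - x'))) := by
      intro w
      rw [H54PR.tp_sub (hodd w) hU0 hW0 hUW0, map_neg, hUW]
    rw [finsum_congr e2, finsum_add_distrib (Set.toFinite _) (Set.toFinite _),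
      hR.proj hv hU0 (neg_ne_zero.2 hc), hR.proj hv hW0 hc, h.norm_sub x, h.norm_sub x',
      H38T1.tp_comm, tp_near_sq hv hfx hy hf, H38T1.tp_comm, tp_near_sq hv hfx' hy' hf', add_zero]

theorem fiber_sum {α β M : Type*} [AddCommMonoid M] (f : α → β) (g : α → M)
    (hg : (Function.support g).Finite) :
    ∑ᶠ a, g a = ∑ᶠ b, ∑ᶠ a : {a // f a = b}, g a.1 := by
  have h1 : ∀ b, ∑ᶠ a : {a // f a = b}, g a.1 = ∑ a ∈ hg.toFinset with f a = b, g a := by
    intro b
    exact (finsum_set_coe_eq_finsum_mem (f := g) {a | f a = b}).trans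
      (finsum_mem_eq_sum_filter g {a | f a = b} hg)
  rw [finsum_congr h1, finsum_eq_sum g hg]
  rw [finsum_eq_sum_of_support_subset (s := hg.toFinset.image f)
    (fun b => ∑ a ∈ hg.toFinset with f a = b, g a)]
  · exact (Finset.sum_fiberwise_of_maps_to
      (fun a ha => Finset.mem_image_of_mem f ha) g).symm
  · intro b hb
    by_contra hn
    apply hb
    refine Finset.sum_eq_zero fun a ha => ?_
    rw [Finset.mem_filter] at ha
    exfalso
    apply hn
    rw [Finset.mem_coe, ← ha.2]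
    exact Finset.mem_image_of_mem f ha.1

/-- The sum over the places outside `S` vanishes. -/
theorem iso_S {A B : 𝓞 K} {θ : L} (h : Cub K L (A : K) (B : K) θ) (hR : HR2 K L A B θ)
    {S : Finset (HeightOneSpectrum (𝓞 K))}
    (hS : ∀ v : HeightOneSpectrum (𝓞 K), v.valuation K 2 < 1 → v ∈ S) {d d' : Fin 3 → K}
    (hd : ev θ d ≠ 0) (hd' : ev θ d' ≠ 0) (hN : IsSquare (Algebra.norm K (ev θ d)))
    (hN' : IsSquare (Algebra.norm K (ev θ d')))
    (hL : ∀ v ∈ S, LC (algebraMap K (v.adicCompletion K)) (A : K) (B : K) d ∧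
      LC (algebraMap K (v.adicCompletion K)) (A : K) (B : K) d')
    (hr : ∀ s : K →+* ℝ, LC s (A : K) (B : K) d ∧ LC s (A : K) (B : K) d') :
    ∑ᶠ w : HeightOneSpectrum (𝓞 L),
      (if dn K w ∉ S then tp w (sc (ev θ d)) (sc (ev θ d')) else 0) = 0 := by
  have h1 := hR.iso hd hd' hN hN' (fun v hv => hL v (hS v hv)) hr
  set g : HeightOneSpectrum (𝓞 L) → ZMod 2 :=
    fun w => if OddP w then tp w (sc (ev θ d)) (sc (ev θ d')) else 0 with hg
  have hfin : (Function.support g).Finite := H54PR.tp_fin hd hd'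
  set p : HeightOneSpectrum (𝓞 L) → ZMod 2 := fun w => if dn K w ∉ S then g w else 0 with hp
  set q : HeightOneSpectrum (𝓞 L) → ZMod 2 := fun w => if dn K w ∈ S then g w else 0 with hq
  have hpq : ∀ w, g w = p w + q w := by
    intro w
    by_cases hw : dn K w ∈ S
    · simp only [hp, hq, hw, not_true_eq_false, if_true, if_false, zero_add]
    · simp only [hp, hq, hw, not_false_eq_true, if_true, if_false, add_zero]
  have hpf : (Function.support p).Finite := by
    refine hfin.subset fun w hw => ?_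
    intro h0
    apply hw
    simp only [hp, h0, ite_self]
  have hqf : (Function.support q).Finite := by
    refine hfin.subset fun w hw => ?_
    intro h0
    apply hw
    simp only [hq, h0, ite_self]
  have hq0 : ∑ᶠ w, q w = 0 := by
    rw [fiber_sum (dn K) q hqf]
    have h2 : ∀ v : HeightOneSpectrum (𝓞 K),
        ∑ᶠ w : {w : HeightOneSpectrum (𝓞 L) // dn K w = v}, q w.1 = 0 := by
      intro v
      by_cases hv : v ∈ S
      · by_cases ho : OddP v
        · have h3 : ∀ w : {w : HeightOneSpectrum (𝓞 L) // dn K w = v},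
              q w.1 = tp w.1 (sc (ev θ d)) (sc (ev θ d')) := by
            intro w
            have hw : OddP w.1 := by
              rw [oddP_dn (K := K), w.2]
              exact ho
            simp only [hq, hg, w.2, hv, hw, if_true]
          rw [finsum_congr h3]
          exact loc_iso h hR ho hd hd' (hL v hv).1 (hL v hv).2
        · have h3 : ∀ w : {w : HeightOneSpectrum (𝓞 L) // dn K w = v}, q w.1 = 0 := by
            intro w
            have hw : ¬ OddP w.1 := by
              rw [oddP_dn (K := K), w.2]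
              exact ho
            simp only [hq, hg, hw, if_false, ite_self]
          rw [finsum_congr h3, finsum_zero]
      · have h3 : ∀ w : {w : HeightOneSpectrum (𝓞 L) // dn K w = v}, q w.1 = 0 := by
          intro w
          simp only [hq, w.2, hv, if_false]
        rw [finsum_congr h3, finsum_zero]
    rw [finsum_congr h2, finsum_zero]
  have hp0 : ∑ᶠ w, p w = 0 := by
    have h2 : ∑ᶠ w, g w = ∑ᶠ w, p w + ∑ᶠ w, q w := by
      rw [← finsum_add_distrib hpf hqf]
      exact finsum_congr hpq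
    rw [h1, hq0, add_zero] at h2
    exact h2.symm
  refine Eq.trans (finsum_congr fun w => ?_) hp0
  by_cases hw : dn K w ∈ S
  · simp only [hp, hw, not_true_eq_false, if_false]
  · have ho : OddP w := by
      rw [oddP_dn (K := K)]
      by_contra hn
      exact hw (hS _ (H38T1.not_oddP.1 hn))
    simp only [hp, hg, hw, ho, not_false_eq_true, if_true]

end H54MT

end S_H54_MT_La

section S_H36_MT_Tj

set_option autoImplicit false
set_option linter.unusedSectionVars false
open scoped Classical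

open WithZero NumberField IsDedekindDomain H38RT
open H38T1 (SC sc scu rep eo la si Pri OddP tp unif)
open H76PP

namespace H36MT

theorem TjS_odd {K : Type} [Field K] [NumberField K] {v : HeightOneSpectrum (𝓞 K)}
    (h6 : (6 : 𝓞 K) ∉ v.asIdeal) : OddP v := by
  have h2 : (2 : 𝓞 K) ∉ v.asIdeal := by
    intro h
    apply h6
    have : (6 : 𝓞 K) = 3 * 2 := by norm_num
    rw [this]
    exact v.asIdeal.mul_mem_left _ h
  have h3 := (v.valuation_eq_one_iff_notMem (K := K) (r := (2 : 𝓞 K))).2 h2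
  unfold H38T1.OddP
  rw [← h3]
  congr 1

theorem TjS_unif_ne {K : Type} [Field K] [NumberField K] (v : HeightOneSpectrum (𝓞 K)) :
    unif v ≠ 0 := by
  intro h
  have h1 := H38T1.unif_spec v
  rw [h, map_zero] at h1
  exact exp_ne_zero h1.symm

theorem TjS_neg {L : Type} [Field L] (c : SC L) : -c = c := by
  have h := H38T1.SC.two_smul c
  rw [two_nsmul] at h
  exact neg_eq_of_add_eq_zero_left h

theorem TjS_la {K L : Type} [Field K] [NumberField K] [Field L] [NumberField L]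
    [Algebra K L] {A B : 𝓞 K} {θ : L} (hR : HR2 K L A B θ) {v : HeightOneSpectrum (𝓞 K)}
    (hv : OddP v) {w₁ w₂ : HeightOneSpectrum (𝓞 L)} (h2 : Two K θ v w₁ w₂) {c : SC L}
    (h1 : eo w₁ c = 0) (h1' : eo w₂ c = 0) (hc : scm (Algebra.norm K : L →* K) c = 0) :
    la w₁ c = la w₂ c := by
  obtain ⟨y, hy, rfl⟩ := H38T1.sc_surj c
  have hu := TjS_unif_ne v
  have h3 := hR.proj hv hy hu
  rw [scm_sc _ hy] at hc
  have h4 : sc (Algebra.norm K y) = (0 : SC K) := hc
  have h5 : tp v (sc (Algebra.norm K y)) (sc (unif v)) = 0 := by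
    rw [h4]
    unfold H38T1.tp
    rw [H38T1.eo_zero, H38T1.la_zero hv]
    ring
  have e1 : (ord (v.valuation K) (unif v) : ZMod 2) = 1 := by
    have : ord (v.valuation K) (unif v) = 1 := by
      unfold ord
      rw [H38T1.unif_spec]
      simp
    rw [this]
    simp
  have hne : algebraMap K L (unif v) ≠ 0 := (map_ne_zero _).2 hu
  have t1 : tp w₁ (sc y) (sc (algebraMap K L (unif v))) = la w₁ (sc y) := by
    unfold H38T1.tp
    rw [h1, H38T1.eo_sc hne, h2.ord1 _ hu, e1]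
    ring
  have t2 : tp w₂ (sc y) (sc (algebraMap K L (unif v))) = la w₂ (sc y) := by
    unfold H38T1.tp
    rw [h1', H38T1.eo_sc hne, h2.ord2 _ hu, e1]
    ring
  have h6 : ∑ᶠ w : {w : HeightOneSpectrum (𝓞 L) // dn K w = v},
      tp w.1 (sc y) (sc (algebraMap K L (unif v))) = la w₁ (sc y) + la w₂ (sc y) := by
    rw [← t1, ← t2, ← finsum_mem_pair (f := fun w => tp w (sc y) (sc (algebraMap K L (unif v)))) h2.ne,
      finsum_subtype_eq_finsum_cond (f := fun w => tp w (sc y) (sc (algebraMap K L (unif v))))]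
    refine finsum_congr fun w => ?_
    have hw : (dn K w = v) ↔ w ∈ ({w₁, w₂} : Set (HeightOneSpectrum (𝓞 L))) := by
      constructor
      · intro h
        rcases h2.only w h with h | h
        · exact Or.inl h
        · exact Or.inr h
      · rintro (h | h)
        · rw [h]
          exact h2.dn1
        · rw [Set.mem_singleton_iff.1 h]
          exact h2.dn2
    rw [finsum_congr_Prop (propext hw) fun _ => rfl]
  rw [h6, h5] at h3
  exact CharTwo.add_eq_zero.1 h3

theorem rel_S {K : Type} [Field K] [NumberField K] {S : Finset (HeightOneSpectrum (𝓞 K))}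
    (hS6 : ∀ v : HeightOneSpectrum (𝓞 K), (6 : 𝓞 K) ∈ v.asIdeal → v ∈ S) {e₀ : ℕ}
    {q₀ : HeightOneSpectrum (𝓞 K)}
    {T : Finset (HeightOneSpectrum (𝓞 K))} (hT : ∀ v ∈ T, v ≠ q₀ ∧ v ∉ S)
    {A B : 𝓞 K} (hF : FamS S e₀ q₀ T A B) (hB : ¬ BadS S T A B) {L : Type} [Field L] [NumberField L]
    [Algebra K L] {θ : L} (hL : Cub K L (A : K) (B : K) θ) (hR : HR2 K L A B θ) :
    ∃ J ⊆ T, ∀ D : K, TwS S q₀ J D → ∀ P : Finset (HeightOneSpectrum (𝓞 K)), S ⊆ P → J ⊆ P →
      RelTriv K L P (D ^ 2 * A) (D ^ 3 * B) (algebraMap K L D * θ) := by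
  obtain ⟨w₀, -⟩ := exists_above (L := L) q₀
  have : Nonempty (HeightOneSpectrum (𝓞 L)) := ⟨w₀⟩
  have h6 : ∀ v ∈ T, (6 : 𝓞 K) ∉ v.asIdeal := fun v hv h => (hT v hv).2 (hS6 v h)
  have hS2 : ∀ v : HeightOneSpectrum (𝓞 K), v.valuation K 2 < 1 → v ∈ S := by
    intro v hv
    refine hS6 v ?_
    have h3 : (2 : 𝓞 K) ∈ v.asIdeal := by
      by_contra h
      have h4 := (v.valuation_eq_one_iff_notMem (K := K) (r := (2 : 𝓞 K))).2 h
      have h5 : v.valuation K (2 : K) = 1 := by
        rw [← h4]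
        congr 1
      exact absurd h5 hv.ne
    have : (6 : 𝓞 K) = 3 * 2 := by norm_num
    rw [this]
    exact v.asIdeal.mul_mem_left _ h3
  have h2 : ∀ v ∈ T, ∃ w₁ w₂ : HeightOneSpectrum (𝓞 L), Two K θ v w₁ w₂ := fun v hv =>
    exists_twoL hL (hF.sqf v (hT v hv).2) (h6 v hv) (hF.typ v hv)
  choose! w₁ w₂ hw using h2
  have hodd : ∀ v ∈ T, OddP v := fun v hv => TjS_odd (h6 v hv)
  have hodd1 : ∀ v ∈ T, OddP (w₁ v) := fun v hv => by
    rw [oddP_dn (K := K), (hw v hv).dn1]
    exact hodd v hv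
  have hodd2 : ∀ v ∈ T, OddP (w₂ v) := fun v hv => by
    rw [oddP_dn (K := K), (hw v hv).dn2]
    exact hodd v hv
  have hu : ∃ u : HeightOneSpectrum (𝓞 K) → SC L →+ ZMod 2, ∀ v ∈ T, ∀ c, u v c = la (w₁ v) c := by
    refine ⟨fun v => if h : v ∈ T then ⟨⟨la (w₁ v), H38T1.la_zero (hodd1 v h)⟩,
      H38T1.la_add (hodd1 v h)⟩ else 0, fun v hv c => ?_⟩
    beta_reduce
    rw [dif_pos hv]
    rfl
  obtain ⟨u, hu⟩ := hu
  let Y : Set (SC L) := {c | ∃ d : Fin 3 → K, ev θ d ≠ 0 ∧ c = sc (ev θ d) ∧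
    IsSquare (Algebra.norm K (ev θ d)) ∧ (∀ w, dn K w ∉ S → eo w c = 0) ∧
    (∀ v ∈ S, LC (algebraMap K (v.adicCompletion K)) (A : K) (B : K) d) ∧
    ∀ s : K →+* ℝ, LC s (A : K) (B : K) d}
  have hYn : ∀ c ∈ Y, scm (Algebra.norm K : L →* K) c = 0 := by
    rintro c ⟨d, hd, rfl, hs, -⟩
    rw [scm_sc _ hd]
    exact (H38T1.sc_eq_zero (scm_ne _ hd)).2 hs
  have hH : ∀ c ∈ AddSubgroup.closure Y, (∀ w, dn K w ∉ S → eo w c = 0) ∧
      scm (Algebra.norm K : L →* K) c = 0 := by
    intro c hc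
    induction hc using AddSubgroup.closure_induction with
    | mem c hc =>
      refine ⟨?_, hYn c hc⟩
      obtain ⟨d, -, -, -, h, -⟩ := hc
      exact h
    | zero => exact ⟨fun w _ => H38T1.eo_zero w, map_zero _⟩
    | add c c' _ _ h h' =>
      refine ⟨fun w hwS => ?_, ?_⟩
      · rw [H38T1.eo_add, h.1 w hwS, h'.1 w hwS, add_zero]
      · rw [map_add, h.2, h'.2, add_zero]
    | neg c _ h =>
      rw [TjS_neg]
      exact h
  have hla : ∀ v ∈ T, ∀ c ∈ AddSubgroup.closure Y, la (w₁ v) c = la (w₂ v) c := fun v hv c hc =>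
    TjS_la hR (hodd v hv) (hw v hv)
      ((hH c hc).1 _ (by rw [(hw v hv).dn1]; exact (hT v hv).2))
      ((hH c hc).1 _ (by rw [(hw v hv).dn2]; exact (hT v hv).2)) (hH c hc).2
  have hker : ∀ y ∈ AddSubgroup.closure Y, (∀ v ∈ T, u v y = 0) → y = 0 := by
    intro c hc h
    by_contra hne
    refine hB ⟨L, _, _, _, θ, c, hL, hne, (hH c hc).2, (hH c hc).1, fun w hwT => ?_⟩
    have h3 : la (w₁ (dn K w)) c = 0 := by
      rw [← hu _ hwT]
      exact h _ hwT
    rcases (hw _ hwT).only w rfl with h4 | h4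
    · rw [h4]
      exact h3
    · rw [h4, ← hla _ hwT c hc]
      exact h3
  obtain ⟨J, hJT, hJ1, hJ2⟩ := exists_J (AddSubgroup.closure Y) T u hker
  refine ⟨J, hJT, fun D hD P hSP hJP d' hd' hsq heoP hLC hLCr => ?_⟩
  set δ := ev (algebraMap K L D * θ) d' with hδ
  have hev : ev θ (fun j => d' j * D ^ (j : ℕ)) = δ := by
    rw [hδ]
    simp only [ev, map_mul, map_pow, Fin.val_zero, Fin.val_one, Fin.val_two]
    ring
  have hd : ev θ (fun j => d' j * D ^ (j : ℕ)) ≠ 0 := by
    rw [hev]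
    exact hd'
  have hLS : ∀ v ∈ S,
      LC (algebraMap K (v.adicCompletion K)) (A : K) (B : K) (fun j => d' j * D ^ (j : ℕ)) := by
    intro v hv
    obtain ⟨m, hm, h⟩ := hD.loc v hv
    obtain ⟨r, hr⟩ := sq_S hm h
    exact LC_twist _ hD.ne hr (hLC v (hSP hv))
  have hLr : ∀ s : K →+* ℝ, LC s (A : K) (B : K) (fun j => d' j * D ^ (j : ℕ)) := by
    intro s
    exact LC_twist _ hD.ne (Real.sq_sqrt (hD.pos s).le).symm (hLCr s)
  have hoff : ∀ w : HeightOneSpectrum (𝓞 L), dn K w ∉ S → dn K w ∉ J → eo w (sc δ) = 0 := by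
    intro w hwS hwJ
    by_cases hwP : dn K w ∈ P
    · exact even_offS hF hL hD hd' hwS hwJ (hLC _ hwP)
    · exact heoP w hwP
  have hat : ∀ v ∈ J, eo (w₁ v) (sc δ) = 0 ∧ (eo (w₂ v) (sc δ) = 0 → la (w₁ v) (sc δ) = 0 ∧
      la (w₂ v) (sc δ) = 0) := fun v hv =>
    at_JS hF hL hD hd' hv (hT v (hJT hv)).2 (h6 v (hJT hv)) (hw v (hJT hv)) (hLC _ (hJP hv))
  have hrel : ∀ y ∈ AddSubgroup.closure Y, ∑ v ∈ J, eo (w₂ v) (sc δ) * u v y = 0 := by
    intro y hy
    induction hy using AddSubgroup.closure_induction with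
    | mem y hy =>
      have hyH : y ∈ AddSubgroup.closure Y := AddSubgroup.subset_closure hy
      obtain ⟨d₁, hd₁, rfl, hs₁, he₁, hl₁, hr₁⟩ := hy
      have h3 := H54MT.iso_S hL hR hS2 (d := fun j => d' j * D ^ (j : ℕ)) (d' := d₁) hd hd₁
        (by rw [hev]; exact hsq) hs₁
        (fun v hv => ⟨hLS v hv, hl₁ v hv⟩) fun s => ⟨hLr s, hr₁ s⟩
      rw [hev] at h3
      have ht : ∀ w : HeightOneSpectrum (𝓞 L), dn K w ∉ S → tp w (sc δ) (sc (ev θ d₁)) =
          eo w (sc δ) * la w (sc (ev θ d₁)) := by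
        intro w hwS
        unfold H38T1.tp
        rw [he₁ w hwS]
        ring
      have hsub : Function.support (fun w : HeightOneSpectrum (𝓞 L) =>
          if dn K w ∉ S then tp w (sc δ) (sc (ev θ d₁)) else 0) ⊆
            ((J.image w₂ : Finset _) : Set _) := by
        intro w hwS
        by_contra hn
        apply hwS
        change (if dn K w ∉ S then tp w (sc δ) (sc (ev θ d₁)) else 0) = 0
        by_cases hS : dn K w ∉ S
        · have h5 : eo w (sc δ) = 0 := by
            by_cases hwJ : dn K w ∈ J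
            · rcases (hw _ (hJT hwJ)).only w rfl with h4 | h4
              · rw [h4]
                exact (hat _ hwJ).1
              · exact absurd (Finset.mem_coe.2 (Finset.mem_image.2 ⟨_, hwJ, h4.symm⟩)) hn
            · exact hoff w hS hwJ
          rw [ht w hS, h5, zero_mul, ite_self]
        · rw [if_neg hS]
      rw [finsum_eq_sum_of_support_subset _ hsub, Finset.sum_image] at h3
      · rw [← h3]
        refine Finset.sum_congr rfl fun v hv => ?_
        have hnS : dn K (w₂ v) ∉ S := by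
          rw [(hw v (hJT hv)).dn2]
          exact (hT v (hJT hv)).2
        rw [if_pos hnS, ht _ hnS, hu v (hJT hv), hla v (hJT hv) _ hyH]
      · intro v hv v' hv' h
        rw [← (hw v (hJT hv)).dn2, ← (hw v' (hJT hv')).dn2, h]
    | zero => simp
    | add y y' _ _ h h' =>
      simp only [map_add, mul_add, Finset.sum_add_distrib]
      rw [h, h', add_zero]
    | neg y _ h =>
      rw [TjS_neg]
      exact h
  have hr := hJ2 (fun v => eo (w₂ v) (sc δ)) hrel
  have heo : ∀ w : HeightOneSpectrum (𝓞 L), dn K w ∉ S → eo w (sc δ) = 0 := by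
    intro w hwS
    by_cases hwJ : dn K w ∈ J
    · rcases (hw _ (hJT hwJ)).only w rfl with h4 | h4
      · rw [h4]
        exact (hat _ hwJ).1
      · rw [h4]
        exact hr _ hwJ
    · exact hoff w hwS hwJ
  have hmem : sc δ ∈ AddSubgroup.closure Y := by
    refine AddSubgroup.subset_closure ⟨fun j => d' j * D ^ (j : ℕ), hd, by rw [hev], ?_, heo, hLS, hLr⟩
    rw [hev]
    exact hsq
  have h0 := hJ1 _ hmem fun v hv => by
    rw [hu v (hJT hv)]
    exact ((hat v hv).2 (hr v hv)).1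
  exact (H38T1.sc_eq_zero hd').1 h0

end H36MT

end S_H36_MT_Tj

section S_H36_MT_Eq

set_option autoImplicit false
set_option linter.unusedSectionVars false
open scoped Classical

open WithZero NumberField IsDedekindDomain H38RT
open H38T1 (SC sc scu rep eo la si Pri OddP tp unif)
open H76PP

namespace H36MT

section iso

variable {K L L' : Type} [Field K] [Field L] [Algebra K L] [Field L'] [Algebra K L']

theorem Eq_hom {a b : K} {θ : L} {θ' : L'} (h : Cub K L a b θ) (h' : Cub K L' a b θ') :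
    ∃ φ : L ≃ₐ[K] L', ∀ d : Fin 3 → K, φ (ev θ d) = ev θ' d := by
  let f : L →ₗ[K] L' :=
    { toFun := fun x => algebraMap K L' (h.co 0 x) + algebraMap K L' (h.co 1 x) * θ' +
        algebraMap K L' (h.co 2 x) * θ' ^ 2
      map_add' := fun x y => by
        simp only [map_add]
        ring
      map_smul' := fun c x => by
        have hs : ∀ i, h.co i (c • x) = c * h.co i x := fun i => map_smul (h.co i) c x
        rw [hs, hs, hs, map_mul, map_mul, map_mul, RingHom.id_apply, Algebra.smul_def]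
        ring }
  have hf : ∀ x, f x = algebraMap K L' (h.co 0 x) + algebraMap K L' (h.co 1 x) * θ' +
        algebraMap K L' (h.co 2 x) * θ' ^ 2 := fun _ => rfl
  have hf1 : f 1 = 1 := by
    obtain ⟨e0, e1, e2⟩ := h.co_one
    rw [hf, e0, e1, e2, map_one, map_zero, zero_mul, zero_mul, add_zero, add_zero]
  have hfm : ∀ x y, f (x * y) = f x * f y := by
    intro x y
    obtain ⟨e0, e1, e2⟩ := h.co_mul x y
    rw [hf, hf, hf, e0, e1, e2]
    simp only [map_sub, map_add, map_mul]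
    linear_combination (-((algebraMap K L' (h.co 1 x) * algebraMap K L' (h.co 2 y) +
      algebraMap K L' (h.co 2 x) * algebraMap K L' (h.co 1 y)) +
      algebraMap K L' (h.co 2 x) * algebraMap K L' (h.co 2 y) * θ')) * h'.root
  let φ : L →ₐ[K] L' := AlgHom.ofLinearMap f hf1 hfm
  have hφ : ∀ d : Fin 3 → K, φ (ev θ d) = ev θ' d := by
    intro d
    change f (ev θ d) = ev θ' d
    unfold ev
    rw [hf, h.co_mk, h.co_mk, h.co_mk]
  have hbij : Function.Bijective φ := by
    refine ⟨φ.toRingHom.injective, fun y => ?_⟩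
    obtain ⟨c0, c1, c2, hy⟩ := h'.sp y
    refine ⟨ev θ ![c0, c1, c2], ?_⟩
    rw [hφ, hy]
    rfl
  exact ⟨AlgEquiv.ofBijective φ hbij, hφ⟩

end iso

section place

variable {K L L' : Type} [Field K] [NumberField K] [Field L] [NumberField L]
    [Algebra K L] [Field L'] [NumberField L'] [Algebra K L']

/-- The isomorphism of the rings of integers. -/
noncomputable def Eq_O (ψ : L' ≃ₐ[K] L) : 𝓞 L' ≃+* 𝓞 L := RingOfIntegers.mapRingEquiv ψ.toRingEquiv

theorem Eq_coe (ψ : L' ≃ₐ[K] L) (x : 𝓞 L') : ((Eq_O ψ x : 𝓞 L) : L) = ψ (x : L') := rfl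

/-- The corresponding place. -/
noncomputable def Eq_mv (ψ : L' ≃ₐ[K] L) (w : HeightOneSpectrum (𝓞 L)) : HeightOneSpectrum (𝓞 L') where
  asIdeal := w.asIdeal.comap (Eq_O ψ : 𝓞 L' →+* 𝓞 L)
  isPrime := Ideal.comap_isPrime _ _
  ne_bot := by
    intro h0
    apply w.ne_bot
    rw [eq_bot_iff]
    intro x hx
    have h1 : (Eq_O ψ).symm x ∈ w.asIdeal.comap (Eq_O ψ : 𝓞 L' →+* 𝓞 L) := by
      rw [Ideal.mem_comap]
      have h2 : (Eq_O ψ : 𝓞 L' →+* 𝓞 L) ((Eq_O ψ).symm x) = x := (Eq_O ψ).apply_symm_apply x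
      rw [h2]
      exact hx
    rw [h0, Ideal.mem_bot] at h1
    rw [Ideal.mem_bot]
    exact (map_eq_zero_iff _ (Eq_O ψ).symm.injective).1 h1

theorem Eq_mem {ψ : L' ≃ₐ[K] L} {w : HeightOneSpectrum (𝓞 L)} {x : 𝓞 L'} :
    x ∈ (Eq_mv ψ w).asIdeal ↔ Eq_O ψ x ∈ w.asIdeal := Iff.rfl

theorem Eq_dn (ψ : L' ≃ₐ[K] L) (w : HeightOneSpectrum (𝓞 L)) : dn K (Eq_mv ψ w) = dn K w := by
  apply HeightOneSpectrum.ext
  ext x
  change Eq_O ψ (algebraMap (𝓞 K) (𝓞 L') x) ∈ w.asIdeal ↔ algebraMap (𝓞 K) (𝓞 L) x ∈ w.asIdeal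
  have h1 : Eq_O ψ (algebraMap (𝓞 K) (𝓞 L') x) = algebraMap (𝓞 K) (𝓞 L) x := by
    apply RingOfIntegers.ext
    rw [Eq_coe]
    exact ψ.commutes (x : K)
  rw [h1]

theorem Eq_pow (ψ : L' ≃ₐ[K] L) (w : HeightOneSpectrum (𝓞 L)) (a : 𝓞 L') (n : ℕ) :
    a ∈ (Eq_mv ψ w).asIdeal ^ n ↔ Eq_O ψ a ∈ w.asIdeal ^ n := by
  constructor
  · intro ha
    have h1 : (Eq_mv ψ w).asIdeal ≤ w.asIdeal.comap (Eq_O ψ : 𝓞 L' →+* 𝓞 L) := le_rfl
    have h2 : (Eq_mv ψ w).asIdeal ^ n ≤ (w.asIdeal ^ n).comap (Eq_O ψ : 𝓞 L' →+* 𝓞 L) :=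
      (Ideal.pow_right_mono h1 n).trans (Ideal.le_comap_pow _ n)
    exact h2 ha
  · intro ha
    have h1 : w.asIdeal ≤ (Eq_mv ψ w).asIdeal.comap ((Eq_O ψ).symm : 𝓞 L →+* 𝓞 L') := by
      intro x hx
      rw [Ideal.mem_comap, Eq_mem]
      have h2 : Eq_O ψ (((Eq_O ψ).symm : 𝓞 L →+* 𝓞 L') x) = x := (Eq_O ψ).apply_symm_apply x
      rw [h2]
      exact hx
    have h2 : w.asIdeal ^ n ≤ ((Eq_mv ψ w).asIdeal ^ n).comap ((Eq_O ψ).symm : 𝓞 L →+* 𝓞 L') :=
      (Ideal.pow_right_mono h1 n).trans (Ideal.le_comap_pow _ n)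
    have h3 := h2 ha
    rw [Ideal.mem_comap] at h3
    have h4 : ((Eq_O ψ).symm : 𝓞 L →+* 𝓞 L') (Eq_O ψ a) = a := (Eq_O ψ).symm_apply_apply a
    rwa [h4] at h3

theorem Eq_int (ψ : L' ≃ₐ[K] L) (w : HeightOneSpectrum (𝓞 L)) (a : 𝓞 L') :
    (Eq_mv ψ w).intValuation a = w.intValuation (Eq_O ψ a) := by
  by_cases ha : a = 0
  · rw [ha, map_zero, map_zero, map_zero]
  · have hb : Eq_O ψ a ≠ 0 := fun h => ha ((map_eq_zero_iff _ (Eq_O ψ).injective).1 h)
    apply le_antisymm
    · have h1 := w.intValuation_if_neg hb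
      have h2 : Eq_O ψ a ∈ w.asIdeal ^ ((Associates.mk w.asIdeal).count
          (Associates.mk (Ideal.span {Eq_O ψ a} : Ideal (𝓞 L))).factors) := by
        rw [← w.intValuation_le_pow_iff_mem, h1]
      rw [h1, (Eq_mv ψ w).intValuation_le_pow_iff_mem, Eq_pow]
      exact h2
    · have h1 := (Eq_mv ψ w).intValuation_if_neg ha
      have h2 : a ∈ (Eq_mv ψ w).asIdeal ^ ((Associates.mk (Eq_mv ψ w).asIdeal).count
          (Associates.mk (Ideal.span {a} : Ideal (𝓞 L'))).factors) := by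
        rw [← (Eq_mv ψ w).intValuation_le_pow_iff_mem, h1]
      rw [h1, w.intValuation_le_pow_iff_mem, ← Eq_pow]
      exact h2

theorem Eq_val (ψ : L' ≃ₐ[K] L) (w : HeightOneSpectrum (𝓞 L)) (x : L') :
    (Eq_mv ψ w).valuation L' x = w.valuation L (ψ x) := by
  obtain ⟨a, b, hb, hab⟩ := IsFractionRing.div_surjective (A := 𝓞 L') x
  have h0 : ∀ c : 𝓞 L', (Eq_mv ψ w).valuation L' (c : L') = w.valuation L (ψ (c : L')) := by
    intro c
    have h3 : (Eq_mv ψ w).valuation L' (c : L') = (Eq_mv ψ w).intValuation c :=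
      (Eq_mv ψ w).valuation_of_algebraMap c
    have h4 : w.valuation L ((Eq_O ψ c : 𝓞 L) : L) = w.intValuation (Eq_O ψ c) :=
      w.valuation_of_algebraMap _
    rw [h3, Eq_int, ← h4, Eq_coe]
  rw [← hab, map_div₀, map_div₀, map_div₀]
  exact congrArg₂ (· / ·) (h0 a) (h0 b)

end place

theorem RelTriv.equiv {K L L' : Type} [Field K] [NumberField K] [Field L] [NumberField L]
    [Algebra K L] [Field L'] [NumberField L'] [Algebra K L']
    {P : Finset (HeightOneSpectrum (𝓞 K))} {a b : K} {θ : L} {θ' : L'} (h : Cub K L a b θ)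
    (h' : Cub K L' a b θ') (hR : RelTriv K L P a b θ) : RelTriv K L' P a b θ' := by
  obtain ⟨φ, hφ⟩ := Eq_hom h h'
  intro d hd hn he hl hs
  have hd' : ev θ d ≠ 0 := by
    intro h0
    apply hd
    rw [← hφ, h0, map_zero]
  have hnorm : Algebra.norm K (ev θ d) = Algebra.norm K (ev θ' d) := by
    rw [← hφ]
    exact (Algebra.norm_eq_of_algEquiv φ (ev θ d)).symm
  obtain ⟨y, hy⟩ := hR d hd' (by rw [hnorm]; exact hn) (fun w hw => by
    have h1 := he (Eq_mv φ.symm w) (by rw [Eq_dn]; exact hw)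
    rw [H38T1.eo_sc hd] at h1
    rw [H38T1.eo_sc hd']
    unfold ord at h1 ⊢
    rw [Eq_val, ← hφ, AlgEquiv.symm_apply_apply] at h1
    exact h1) hl hs
  refine ⟨φ y, ?_⟩
  rw [← hφ, hy, map_mul]

end H36MT

end S_H36_MT_Eq
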