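import Mathlib
import Pool.Agent.H10.Q.Step
import Pool.Agent.H11.Divis2
import Pool.Agent.H38.T1.Ea
import Pool.Agent.H76.PN.A4
import Pool.Agent.H76.PN.D1

/-! This file joins several modules to save build time (P1). -/

set_option autoImplicit false

section S_H73_P2_Df

set_option autoImplicit false
set_option linter.unusedSectionVars false
open scoped Classical

open WithZero NumberField IsDedekindDomain H38RT
open H38T1 (SC sc scu rep eo la si Pri OddP tp unif)
open H76PP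

namespace H73P2

section Local

variable {k : Type} [Field k] [NumberField k]

/-- Up to the change `a = c ^ 4 a'`, `b = c ^ 6 b'` the polynomial is integral at `u` and the order of its
discriminant is at most one. -/
def NiceAt (u : HeightOneSpectrum (𝓞 k)) (a b : k) : Prop :=
  ∃ c a' b' : k, c ≠ 0 ∧ a = c ^ 4 * a' ∧ b = c ^ 6 * b' ∧ u.valuation k a' ≤ 1 ∧
    u.valuation k b' ≤ 1 ∧ exp (-1 : ℤ) ≤ u.valuation k (4 * a' ^ 3 + 27 * b' ^ 2)

/-- Up to the change `a = c ^ 4 a'`, `b = c ^ 6 b'` the polynomial is integral at `u` and has no root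
modulo `u`. -/
def NoRootAt (u : HeightOneSpectrum (𝓞 k)) (a b : k) : Prop :=
  ∃ c a' b' : k, c ≠ 0 ∧ a = c ^ 4 * a' ∧ b = c ^ 6 * b' ∧ u.valuation k a' ≤ 1 ∧
    u.valuation k b' ≤ 1 ∧ ∀ t : k, u.valuation k t ≤ 1 → u.valuation k (t ^ 3 + a' * t + b') = 1

end Local

/-- The local condition at a place `v` of `K` for an extension `k` of `K`: the local condition for all
embeddings of `k` into `K_v` over `K`. -/
def LCv (K : Type) {k : Type} [Field K] [NumberField K] [Field k] [Algebra K k]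
    (v : HeightOneSpectrum (𝓞 K)) (a b : K) (d : Fin 3 → k) : Prop :=
  ∀ j : k →+* v.adicCompletion K,
    (∀ x : K, j (algebraMap K k x) = algebraMap K (v.adicCompletion K) x) →
    LC j (algebraMap K k a) (algebraMap K k b) d

section Rel

variable (K k L : Type) [Field K] [NumberField K] [Field k] [NumberField k] [Field L] [NumberField L]
  [Algebra K k] [Algebra k L]

/-- The relaxed Selmer condition: square norm, even orders away from `S`, the local conditions at
the places of `S` and at the real places. -/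
structure Rel (S : Finset (HeightOneSpectrum (𝓞 K))) (a b : K) (θ : L) (d : Fin 3 → k) : Prop where
  ne : ev θ d ≠ 0
  sq : IsSquare (Algebra.norm k (ev θ d))
  even : ∀ w : HeightOneSpectrum (𝓞 L), dn K (dn k w) ∉ S → eo w (sc (ev θ d)) = 0
  loc : ∀ v ∈ S, LCv K v a b d
  real : ∀ s : k →+* ℝ, LC s (algebraMap K k a) (algebraMap K k b) d

/-- The relaxed Selmer group is trivial. -/
def RelT (S : Finset (HeightOneSpectrum (𝓞 K))) (a b : K) (θ : L) : Prop :=
  ∀ d : Fin 3 → k, Rel K k L S a b θ d → IsSquare (ev θ d)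

end Rel

/-- The prime `V` of `N` is ramified over `K`. -/
def Ram (K : Type) {N : Type} [Field K] [NumberField K] [Field N] [NumberField N] [Algebra K N]
    (V : HeightOneSpectrum (𝓞 N)) : Prop :=
  (dn K V).asIdeal.map (algebraMap (𝓞 K) (𝓞 N)) ≤ V.asIdeal ^ 2

/-- The quadratic step: `k' / k` quadratic, `L = k(θ)`, `L' = k'(θ)` cubic. -/
structure QS (k L k' L' : Type) [Field k] [Field L] [Field k'] [Field L'] [Algebra k L]
    [Algebra k k'] [Algebra L L'] [Algebra k' L'] (a b : k) (θ : L) (θ' : L') : Prop where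
  two : Module.finrank k k' = 2
  cub : Cub k L a b θ
  cub' : Cub k' L' (algebraMap k k' a) (algebraMap k k' b) θ'
  th : algebraMap L L' θ = θ'

end H73P2

end S_H73_P2_Df

section S_H73_P2_La

set_option autoImplicit false
set_option linter.unusedSectionVars false
open scoped Classical

open WithZero NumberField IsDedekindDomain H38RT
open H38T1 (SC sc scu rep eo la si Pri OddP tp unif)
open H76PP

namespace H73P2

variable {F : Type} [Field F]

private lemma La_par {a b x₁ y₁ x₂ y₂ l : F} (e₁ : y₁ ^ 2 = x₁ ^ 3 + a * x₁ + b)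
    (e₂ : y₂ ^ 2 = x₂ ^ 3 + a * x₂ + b) (hx : x₁ ≠ x₂) (hl : l = (y₁ - y₂) / (x₁ - x₂)) :
    ∃ μ : F, y₁ = l * x₁ + μ ∧ y₂ = l * x₂ + μ ∧
      a = 2 * l * μ + l ^ 2 * (x₁ + x₂) - (x₁ ^ 2 + x₁ * x₂ + x₂ ^ 2) ∧
      b = (l * x₁ + μ) ^ 2 - x₁ ^ 3 -
        (2 * l * μ + l ^ 2 * (x₁ + x₂) - (x₁ ^ 2 + x₁ * x₂ + x₂ ^ 2)) * x₁ := by
  have h0 : x₁ - x₂ ≠ 0 := sub_ne_zero.2 hx
  have h1 : l * (x₁ - x₂) = y₁ - y₂ := by
    rw [hl, div_mul_cancel₀ _ h0]
  have h2 : y₁ = l * x₁ + (y₁ - l * x₁) := by ring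
  have h3 : y₂ = l * x₂ + (y₁ - l * x₁) := by linear_combination h1
  have h4 : a = 2 * l * (y₁ - l * x₁) + l ^ 2 * (x₁ + x₂) - (x₁ ^ 2 + x₁ * x₂ + x₂ ^ 2) := by
    apply mul_left_cancel₀ h0
    obtain ⟨μ, hμ⟩ : ∃ μ : F, μ = y₁ - l * x₁ := ⟨_, rfl⟩
    rw [← hμ] at h2 h3 ⊢
    rw [h2] at e₁
    rw [h3] at e₂
    linear_combination e₂ - e₁
  refine ⟨y₁ - l * x₁, h2, h3, h4, ?_⟩
  rw [← h4]
  linear_combination -e₁

theorem La_curve {a b x₁ y₁ x₂ y₂ l : F} (e₁ : y₁ ^ 2 = x₁ ^ 3 + a * x₁ + b)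
    (e₂ : y₂ ^ 2 = x₂ ^ 3 + a * x₂ + b) (hx : x₁ ≠ x₂) (hl : l = (y₁ - y₂) / (x₁ - x₂)) :
    (l * (l ^ 2 - x₁ - x₂ - x₁) + y₁) ^ 2 =
      (l ^ 2 - x₁ - x₂) ^ 3 + a * (l ^ 2 - x₁ - x₂) + b := by
  obtain ⟨μ, h1, h2, h3, h4⟩ := La_par e₁ e₂ hx hl
  rw [h4, h3, h1]
  ring

private lemma La_comm (a b : F) (u v : Fin 3 → F) : m3 a b u v = m3 a b v u := by
  funext j
  fin_cases j <;> simp [m3] <;> ring

private lemma La_assoc (a b : F) (u v w : Fin 3 → F) :
    m3 a b (m3 a b u v) w = m3 a b u (m3 a b v w) := by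
  funext j
  fin_cases j <;> simp [m3] <;> ring

private lemma La_one (a b : F) (u : Fin 3 → F) : m3 a b u ![1, 0, 0] = u := by
  funext j
  fin_cases j <;> simp [m3]

private lemma La_smul (a b c : F) (u v : Fin 3 → F) :
    m3 a b u (fun j => c * v j) = fun j => c * m3 a b u v j := by
  funext j
  fin_cases j <;> simp [m3] <;> ring

private lemma La_key {l μ x₁ x₂ a b : F}
    (ha : a = 2 * l * μ + l ^ 2 * (x₁ + x₂) - (x₁ ^ 2 + x₁ * x₂ + x₂ ^ 2))
    (hb : b = (l * x₁ + μ) ^ 2 - x₁ ^ 3 -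
        (2 * l * μ + l ^ 2 * (x₁ + x₂) - (x₁ ^ 2 + x₁ * x₂ + x₂ ^ 2)) * x₁) :
    m3 a b (m3 a b ![x₁, -1, 0] ![x₂, -1, 0]) ![l ^ 2 - x₁ - x₂, -1, 0] =
      m3 a b ![μ, l, 0] ![μ, l, 0] := by
  funext j
  fin_cases j
  · simp [m3]
    rw [hb]
    ring
  · simp [m3]
    rw [ha]
    ring
  · simp [m3]
    ring

private lemma La_nf (a b x : F) : Te_nf a b ![x, -1, 0] = x ^ 3 + a * x + b := by
  simp [Te_nf]
  ring

theorem La_add {a b : F} {d₁ d₂ z₁ z₂ : Fin 3 → F} {x₁ y₁ x₂ y₂ l : F} (hy₁ : y₁ ≠ 0) (hy₂ : y₂ ≠ 0)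
    (e₁ : y₁ ^ 2 = x₁ ^ 3 + a * x₁ + b) (e₂ : y₂ ^ 2 = x₂ ^ 3 + a * x₂ + b) (hx : x₁ ≠ x₂)
    (hl : l = (y₁ - y₂) / (x₁ - x₂)) (h₁ : m3 a b d₁ ![x₁, -1, 0] = m3 a b z₁ z₁)
    (h₂ : m3 a b d₂ ![x₂, -1, 0] = m3 a b z₂ z₂)
    (hy₃ : l * (l ^ 2 - x₁ - x₂ - x₁) + y₁ ≠ 0) :
    ∃ z : Fin 3 → F, m3 a b (m3 a b d₁ d₂) ![l ^ 2 - x₁ - x₂, -1, 0] = m3 a b z z := by
  have e₃ := La_curve e₁ e₂ hx hl
  obtain ⟨μ, -, -, h3, h4⟩ := La_par e₁ e₂ hx hl
  have key := La_key h3 h4
  have hn : Te_nf a b ![μ, l, 0] ≠ 0 := by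
    intro h0
    have h5 := congrArg (Te_nf a b) key
    rw [Te_nf_mul, Te_nf_mul, Te_nf_mul, La_nf, La_nf, La_nf, h0, mul_zero, ← e₁, ← e₂, ← e₃] at h5
    exact mul_ne_zero (mul_ne_zero (pow_ne_zero 2 hy₁) (pow_ne_zero 2 hy₂)) (pow_ne_zero 2 hy₃) h5
  obtain ⟨X₁, hX₁⟩ : ∃ X : Fin 3 → F, X = ![x₁, -1, 0] := ⟨_, rfl⟩
  obtain ⟨X₂, hX₂⟩ : ∃ X : Fin 3 → F, X = ![x₂, -1, 0] := ⟨_, rfl⟩
  obtain ⟨X₃, hX₃⟩ : ∃ X : Fin 3 → F, X = ![l ^ 2 - x₁ - x₂, -1, 0] := ⟨_, rfl⟩
  obtain ⟨p, hp⟩ : ∃ X : Fin 3 → F, X = ![μ, l, 0] := ⟨_, rfl⟩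
  rw [← hX₁] at h₁ key
  rw [← hX₂] at h₂ key
  rw [← hX₃] at key ⊢
  rw [← hp] at key hn
  obtain ⟨p', hp'⟩ : ∃ X : Fin 3 → F, X = fun j => (Te_nf a b p)⁻¹ * Te_C a b p j := ⟨_, rfl⟩
  have hpp : m3 a b p p' = ![1, 0, 0] := by
    rw [hp', La_smul, Te_m3_adj]
    funext j
    fin_cases j
    · simp [hn]
    · simp
    · simp
  have : Std.Associative (m3 a b) := ⟨La_assoc a b⟩
  have : Std.Commutative (m3 a b) := ⟨La_comm a b⟩
  refine ⟨m3 a b (m3 a b z₁ z₂) (m3 a b X₃ p'), ?_⟩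
  calc m3 a b (m3 a b d₁ d₂) X₃
      = m3 a b (m3 a b (m3 a b d₁ d₂) X₃) (m3 a b (m3 a b p p') (m3 a b p p')) := by
        rw [hpp, La_one, La_one]
    _ = m3 a b (m3 a b (m3 a b d₁ d₂) X₃) (m3 a b (m3 a b p p) (m3 a b p' p')) := by
        ac_rfl
    _ = m3 a b (m3 a b (m3 a b d₁ d₂) X₃) (m3 a b (m3 a b (m3 a b X₁ X₂) X₃) (m3 a b p' p')) := by
        rw [key]
    _ = m3 a b (m3 a b (m3 a b d₁ X₁) (m3 a b d₂ X₂)) (m3 a b (m3 a b X₃ X₃) (m3 a b p' p')) := by
        ac_rfl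
    _ = m3 a b (m3 a b (m3 a b z₁ z₁) (m3 a b z₂ z₂)) (m3 a b (m3 a b X₃ X₃) (m3 a b p' p')) := by
        rw [h₁, h₂]
    _ = _ := by ac_rfl

theorem La_dbl {a b x y l : F} (h2 : (2 : F) ≠ 0) (hy : y ≠ 0) (e : y ^ 2 = x ^ 3 + a * x + b)
    (hl : l = (3 * x ^ 2 + a) / (2 * y)) :
    ∃ z : Fin 3 → F, m3 a b ![1, 0, 0] ![l ^ 2 - 2 * x, -1, 0] = m3 a b z z := by
  have hb : b = y ^ 2 - x ^ 3 - a * x := by linear_combination -e
  subst hb
  subst hl
  refine ⟨![(x ^ 2 - a) / (2 * y), -x / y, -1 / y], ?_⟩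
  rw [La_comm, La_one]
  funext j
  fin_cases j
  · simp [m3]
    field_simp
    ring
  · simp [m3]
    field_simp
    ring
  · simp [m3]
    field_simp
    ring

end H73P2

end S_H73_P2_La

section S_H73_P2_Lb

set_option autoImplicit false
set_option linter.unusedSectionVars false
open scoped Classical

open WithZero NumberField IsDedekindDomain H38RT
open H38T1 (SC sc scu rep eo la si Pri OddP tp unif)
open H76PP

open WeierstrassCurve

namespace H73P2

/-- The class of the point. -/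
def Lb_P {F : Type} [Field F] (A B : F) (d : Fin 3 → F)
    (P : (⟨0, 0, 0, A, B⟩ : WeierstrassCurve F).toAffine.Point) : Prop :=
  ∃ (x y : F) (h : (⟨0, 0, 0, A, B⟩ : WeierstrassCurve F).toAffine.Nonsingular x y)
    (z : Fin 3 → F), P = Affine.Point.some x y h ∧ y ≠ 0 ∧
      m3 A B d ![x, -1, 0] = m3 A B z z

lemma Lb_eqn {F : Type} [Field F] {A B x y : F}
    (h : (⟨0, 0, 0, A, B⟩ : WeierstrassCurve F).toAffine.Nonsingular x y) :
    y ^ 2 = x ^ 3 + A * x + B := by
  have h1 := (Affine.equation_iff _ _).1 h.1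
  linear_combination h1

lemma Lb_ns {F : Type} [Field F] {A B x y : F} (h2 : (2 : F) ≠ 0) (hy : y ≠ 0)
    (h : y ^ 2 = x ^ 3 + A * x + B) :
    (⟨0, 0, 0, A, B⟩ : WeierstrassCurve F).toAffine.Nonsingular x y := by
  rw [Affine.nonsingular_iff]
  refine ⟨?_, Or.inr ?_⟩
  · rw [Affine.equation_iff]
    linear_combination h
  · intro h3
    have h4 : (2 : F) * y = 0 := by linear_combination h3
    exact (mul_ne_zero h2 hy) h4

lemma Lb_negY {F : Type} [Field F] (A B x y : F) :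
    (⟨0, 0, 0, A, B⟩ : WeierstrassCurve F).toAffine.negY x y = -y := by
  simp [Affine.negY]

lemma Lb_y_ne {F : Type} [Field F] {A B x y : F}
    (h : (⟨0, 0, 0, A, B⟩ : WeierstrassCurve F).toAffine.Nonsingular x y)
    (h0 : Affine.Point.some x y h + Affine.Point.some x y h ≠ 0) : y ≠ 0 := by
  intro hy
  apply h0
  apply Affine.Point.add_self_of_Y_eq
  rw [Lb_negY, hy, neg_zero]

lemma Lb_dbl {F : Type} [Field F] {A B : F} (h2 : (2 : F) ≠ 0)
    (P : (⟨0, 0, 0, A, B⟩ : WeierstrassCurve F).toAffine.Point) (h0 : P + P ≠ 0)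
    (h1 : P + P + (P + P) ≠ 0) : Lb_P A B ![1, 0, 0] (P + P) := by
  rcases P with _ | ⟨x, y, h⟩
  · exact absurd (by rfl) h0
  have hy : y ≠ 0 := Lb_y_ne h h0
  have hny : y ≠ (⟨0, 0, 0, A, B⟩ : WeierstrassCurve F).toAffine.negY x y := by
    rw [Lb_negY]
    intro h3
    apply mul_ne_zero h2 hy
    linear_combination h3
  have hadd := Affine.Point.add_self_of_Y_ne (h₁ := h) hny
  obtain ⟨z, hz⟩ := La_dbl (a := A) (b := B) h2 hy (Lb_eqn h)
    (l := (3 * x ^ 2 + A) / (2 * y)) rfl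
  rw [hadd] at h1 ⊢
  refine ⟨_, _, _, z, rfl, Lb_y_ne _ h1, ?_⟩
  rw [← hz]
  congr 2
  rw [Affine.slope_of_Y_ne rfl hny, Lb_negY]
  simp only [Affine.addX]
  have : (3 * x ^ 2 + 2 * 0 * x + A - 0 * y) / (y - -y) = (3 * x ^ 2 + A) / (2 * y) := by
    congr 1 <;> ring
  rw [this]
  ring

lemma Lb_add {F : Type} [Field F] {A B : F} {d₁ d₂ : Fin 3 → F}
    {P₁ P₂ : (⟨0, 0, 0, A, B⟩ : WeierstrassCurve F).toAffine.Point} (h₁ : Lb_P A B d₁ P₁)
    (h₂ : Lb_P A B d₂ P₂) (hne : P₁ ≠ P₂) (hne' : P₁ ≠ -P₂)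
    (h0 : P₁ + P₂ + (P₁ + P₂) ≠ 0) : Lb_P A B (m3 A B d₁ d₂) (P₁ + P₂) := by
  obtain ⟨x₁, y₁, n₁, z₁, rfl, hy₁, hz₁⟩ := h₁
  obtain ⟨x₂, y₂, n₂, z₂, rfl, hy₂, hz₂⟩ := h₂
  have e₁ := Lb_eqn n₁
  have e₂ := Lb_eqn n₂
  have hx : x₁ ≠ x₂ := by
    rintro rfl
    have h3 : (y₁ - y₂) * (y₁ + y₂) = 0 := by linear_combination e₁ - e₂
    rcases mul_eq_zero.1 h3 with h4 | h4
    · apply hne
      have : y₁ = y₂ := sub_eq_zero.1 h4
      subst this
      rfl
    · apply hne'
      rw [Affine.Point.neg_some]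
      have : y₁ = (⟨0, 0, 0, A, B⟩ : WeierstrassCurve F).toAffine.negY x₁ y₂ := by
        rw [Lb_negY]
        linear_combination h4
      rw [Affine.Point.some.injEq]
      exact ⟨rfl, this⟩
  have hadd := Affine.Point.add_some (h₁ := n₁) (h₂ := n₂) (fun hxy => hx hxy.1)
  rw [hadd] at h0 ⊢
  have hy₃ := Lb_y_ne _ h0
  have hsl : (⟨0, 0, 0, A, B⟩ : WeierstrassCurve F).toAffine.slope x₁ x₂ y₁ y₂ =
      (y₁ - y₂) / (x₁ - x₂) := Affine.slope_of_X_ne hx
  rw [hsl] at hy₃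
  have hX : (⟨0, 0, 0, A, B⟩ : WeierstrassCurve F).toAffine.addX x₁ x₂ ((y₁ - y₂) / (x₁ - x₂)) =
      ((y₁ - y₂) / (x₁ - x₂)) ^ 2 - x₁ - x₂ := by
    simp only [Affine.addX]
    ring
  have hY : ((y₁ - y₂) / (x₁ - x₂)) * (((y₁ - y₂) / (x₁ - x₂)) ^ 2 - x₁ - x₂ - x₁) + y₁ ≠ 0 := by
    intro h5
    apply hy₃
    rw [Affine.addY, Lb_negY, Affine.negAddY, hX, h5, neg_zero]
  obtain ⟨z, hz⟩ := La_add hy₁ hy₂ e₁ e₂ hx rfl hz₁ hz₂ hY
  refine ⟨_, _, _, z, rfl, Lb_y_ne _ h0, ?_⟩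
  rw [← hz, hsl, hX]

lemma Lb_one {F : Type} [Field F] (A B : F) (d : Fin 3 → F) : m3 A B d ![1, 0, 0] = d := by
  funext j
  fin_cases j <;> simp [m3]

lemma Lb_avoid {F : Type} [Field F] [CharZero F] {A B : F} (hd : 4 * A ^ 3 + 27 * B ^ 2 ≠ 0)
    (hinf : Infinite (⟨0, 0, 0, A, B⟩ : WeierstrassCurve F).toAffine.Point)
    (S : Set (⟨0, 0, 0, A, B⟩ : WeierstrassCurve F).toAffine.Point) (hS : S.Finite) :
    ∃ Q : (⟨0, 0, 0, A, B⟩ : WeierstrassCurve F).toAffine.Point, ∀ R ∈ S, 4 • Q ≠ R := by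
  have hell : (⟨0, 0, 0, A, B⟩ : WeierstrassCurve F).IsElliptic := by
    refine ⟨?_⟩
    rw [isUnit_iff_ne_zero]
    have h16 : (16 : F) ≠ 0 := by norm_num
    intro h0
    apply mul_ne_zero h16 hd
    simp only [WeierstrassCurve.Δ, WeierstrassCurve.b₂, WeierstrassCurve.b₄,
      WeierstrassCurve.b₆, WeierstrassCurve.b₈] at h0
    linear_combination -h0
  have hfinM := Pool.Agent.H11.finite_torsion
    ((⟨0, 0, 0, A, B⟩ : WeierstrassCurve F).map (algebraMap F (AlgebraicClosure F))) 4 (by norm_num)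
  have hfin0 : {Q : (⟨0, 0, 0, A, B⟩ : WeierstrassCurve F).toAffine.Point | 4 • Q = 0}.Finite := by
    refine Set.Finite.of_injOn (f := Pool.Agent.H10.pm (algebraMap F (AlgebraicClosure F)) rfl) ?_
      (Pool.Agent.H10.pm_injective _ rfl).injOn hfinM
    intro Q hQ
    have hQ' : 4 • Q = 0 := hQ
    change 4 • (Pool.Agent.H10.pm (algebraMap F (AlgebraicClosure F)) rfl Q) = 0
    rw [← map_nsmul, hQ', map_zero]
  have hfinR : ∀ R : (⟨0, 0, 0, A, B⟩ : WeierstrassCurve F).toAffine.Point,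
      {Q : (⟨0, 0, 0, A, B⟩ : WeierstrassCurve F).toAffine.Point | 4 • Q = R}.Finite := by
    intro R
    by_cases hne : ∃ Q₀ : (⟨0, 0, 0, A, B⟩ : WeierstrassCurve F).toAffine.Point, 4 • Q₀ = R
    · obtain ⟨Q₀, hQ₀⟩ := hne
      refine Set.Finite.of_injOn (f := fun Q => Q - Q₀) ?_ (sub_left_injective.injOn) hfin0
      intro Q hQ
      have hQ' : 4 • Q = R := hQ
      change 4 • (Q - Q₀) = 0
      rw [smul_sub, hQ', hQ₀, sub_self]
    · refine Set.finite_empty.subset fun Q hQ => ?_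
      exact absurd ⟨Q, hQ⟩ hne
  have hfin : (⋃ R ∈ S, {Q : (⟨0, 0, 0, A, B⟩ : WeierstrassCurve F).toAffine.Point |
      4 • Q = R}).Finite := hS.biUnion (fun R _ => hfinR R)
  obtain ⟨Q, hQ⟩ := hfin.exists_notMem
  refine ⟨Q, fun R hR h => hQ ?_⟩
  rw [Set.mem_iUnion₂]
  exact ⟨R, hR, h⟩

theorem LC_mul {k F : Type} [Field k] [Field F] [CharZero F] (i : k →+* F) {a b : k}
    (hd : 4 * i a ^ 3 + 27 * i b ^ 2 ≠ 0)
    (hinf : Infinite (⟨0, 0, 0, i a, i b⟩ : WeierstrassCurve F).toAffine.Point)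
    {d₁ d₂ : Fin 3 → k} (h₁ : LC i a b d₁) (h₂ : LC i a b d₂) : LC i a b (m3 a b d₁ d₂) := by
  have h2 : (2 : F) ≠ 0 := two_ne_zero
  obtain ⟨x₁, y₁, z₁, hy₁, e₁, hz₁⟩ := h₁
  obtain ⟨x₂, y₂, z₂, hy₂, e₂, hz₂⟩ := h₂
  set P₁ : (⟨0, 0, 0, i a, i b⟩ : WeierstrassCurve F).toAffine.Point :=
    Affine.Point.some x₁ y₁ (Lb_ns h2 hy₁ e₁) with hP₁
  set P₂ : (⟨0, 0, 0, i a, i b⟩ : WeierstrassCurve F).toAffine.Point :=
    Affine.Point.some x₂ y₂ (Lb_ns h2 hy₂ e₂) with hP₂
  have L₁ : Lb_P (i a) (i b) (fun j => i (d₁ j)) P₁ := ⟨x₁, y₁, _, z₁, hP₁, hy₁, hz₁⟩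
  have L₂ : Lb_P (i a) (i b) (fun j => i (d₂ j)) P₂ := ⟨x₂, y₂, _, z₂, hP₂, hy₂, hz₂⟩
  obtain ⟨Q, hQ⟩ := Lb_avoid hd hinf
    {0, P₁ + P₁, -(P₁ + P₁), (P₂ - P₁) + (P₂ - P₁), -((P₁ + P₂) + (P₁ + P₂))} (by simp)
  have q0 : 4 • Q ≠ 0 := hQ _ (by simp)
  have q1 : 4 • Q ≠ P₁ + P₁ := hQ _ (by simp)
  have q2 : 4 • Q ≠ -(P₁ + P₁) := hQ _ (by simp)
  have q3 : 4 • Q ≠ (P₂ - P₁) + (P₂ - P₁) := hQ _ (by simp)
  have q4 : 4 • Q ≠ -((P₁ + P₂) + (P₁ + P₂)) := hQ _ (by simp)
  have h4 : 4 • Q = (Q + Q) + (Q + Q) := by abel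
  have hT : Lb_P (i a) (i b) ![1, 0, 0] (Q + Q) := by
    refine Lb_dbl h2 Q ?_ ?_
    · intro h
      apply q0
      rw [h4, h, add_zero]
    · rw [← h4]
      exact q0
  have hA : Lb_P (i a) (i b) (fun j => i (d₁ j)) (P₁ + (Q + Q)) := by
    have := Lb_add L₁ hT ?_ ?_ ?_
    · rwa [Lb_one] at this
    · intro h
      apply q1
      rw [h4, ← h]
    · intro h
      apply q2
      rw [h4, h]
      abel
    · intro h
      apply q2
      rw [h4, eq_neg_iff_add_eq_zero, ← h]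
      abel
  have hB := Lb_add hA L₂ ?_ ?_ ?_
  · obtain ⟨x, y, n, z, -, hy, hz⟩ := hB
    refine ⟨x, y, z, hy, Lb_eqn n, ?_⟩
    rw [← hz]
    congr 1
    funext j
    exact (Te_m3_map i a b d₁ d₂ j).symm
  · intro h
    apply q3
    rw [h4, ← h]
    abel
  · intro h
    apply q4
    rw [h4]
    have : P₂ = -(P₁ + (Q + Q)) := by rw [h, neg_neg]
    rw [this]
    abel
  · intro h
    apply q4
    rw [h4, eq_neg_iff_add_eq_zero, ← h]
    abel

theorem LC_sq {k F : Type} [Field k] [Field F] (i : k →+* F) {a b : k} {d : Fin 3 → k}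
    (u : Fin 3 → k) (h : LC i a b d) : LC i a b (m3 a b d (m3 a b u u)) := by
  obtain ⟨x, y, z, hy, e, hz⟩ := h
  refine ⟨x, y, m3 (i a) (i b) z (fun j => i (u j)), hy, e, ?_⟩
  have h1 : (fun j => i (m3 a b d (m3 a b u u) j)) =
      m3 (i a) (i b) (fun j => i (d j)) (m3 (i a) (i b) (fun j => i (u j)) (fun j => i (u j))) := by
    funext j
    rw [← Te_m3_map]
    congr 1
    funext j'
    exact (Te_m3_map i a b u u j').symm
  rw [h1]
  generalize (i a) = A at hz ⊢
  generalize (i b) = B at hz ⊢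
  generalize (fun j => i (d j)) = D at hz ⊢
  generalize (fun j => i (u j)) = U
  have h2 : m3 A B (m3 A B D (m3 A B U U)) ![x, -1, 0] =
      m3 A B (m3 A B D ![x, -1, 0]) (m3 A B U U) := by
    funext j
    fin_cases j <;> simp [m3] <;> ring
  rw [h2, hz]
  funext j
  fin_cases j <;> simp [m3] <;> ring

end H73P2

end S_H73_P2_Lb

section S_H73_P2_Lc

set_option autoImplicit false
set_option linter.unusedSectionVars false
open scoped Classical

open WithZero NumberField IsDedekindDomain H38RT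
open H38T1 (SC sc scu rep eo la si Pri OddP tp unif)
open H76PP

namespace H73P2

/-- value at the real root -/
private noncomputable def Lc_E (e : ℝ) (c : Fin 3 → ℝ) : ℝ := c 0 + c 1 * e + c 2 * e ^ 2

/-- real part of the value at the complex root -/
private noncomputable def Lc_P (e τ : ℝ) (c : Fin 3 → ℝ) : ℝ := c 0 - c 1 * e / 2 + c 2 * (e ^ 2 - τ ^ 2) / 4

/-- imaginary part of the value at the complex root -/
private noncomputable def Lc_Q (e τ : ℝ) (c : Fin 3 → ℝ) : ℝ := τ * (c 1 - c 2 * e) / 2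

private lemma Lc_mulE (e τ : ℝ) (u v : Fin 3 → ℝ) :
    Lc_E e (m3 ((τ ^ 2 - 3 * e ^ 2) / 4) (-e * (e ^ 2 + τ ^ 2) / 4) u v) = Lc_E e u * Lc_E e v := by
  simp only [Lc_E, m3, Matrix.cons_val_zero, Matrix.cons_val_one, Matrix.cons_val_two,
    Matrix.head_cons, Matrix.tail_cons]
  ring

private lemma Lc_mulP (e τ : ℝ) (u v : Fin 3 → ℝ) :
    Lc_P e τ (m3 ((τ ^ 2 - 3 * e ^ 2) / 4) (-e * (e ^ 2 + τ ^ 2) / 4) u v) =
      Lc_P e τ u * Lc_P e τ v - Lc_Q e τ u * Lc_Q e τ v := by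
  simp only [Lc_P, Lc_Q, m3, Matrix.cons_val_zero, Matrix.cons_val_one, Matrix.cons_val_two,
    Matrix.head_cons, Matrix.tail_cons]
  ring

private lemma Lc_mulQ (e τ : ℝ) (u v : Fin 3 → ℝ) :
    Lc_Q e τ (m3 ((τ ^ 2 - 3 * e ^ 2) / 4) (-e * (e ^ 2 + τ ^ 2) / 4) u v) =
      Lc_P e τ u * Lc_Q e τ v + Lc_Q e τ u * Lc_P e τ v := by
  simp only [Lc_P, Lc_Q, m3, Matrix.cons_val_zero, Matrix.cons_val_one, Matrix.cons_val_two,
    Matrix.head_cons, Matrix.tail_cons]
  ring

private lemma Lc_nf (e τ : ℝ) (u : Fin 3 → ℝ) :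
    Te_nf ((τ ^ 2 - 3 * e ^ 2) / 4) (-e * (e ^ 2 + τ ^ 2) / 4) u =
      Lc_E e u * (Lc_P e τ u ^ 2 + Lc_Q e τ u ^ 2) := by
  simp only [Te_nf, Lc_E, Lc_P, Lc_Q]
  ring

private lemma Lc_inj {e τ : ℝ} (hτ : 0 < τ) {u v : Fin 3 → ℝ} (h1 : Lc_E e u = Lc_E e v)
    (h2 : Lc_P e τ u = Lc_P e τ v) (h3 : Lc_Q e τ u = Lc_Q e τ v) : u = v := by
  have h4 : u 1 - u 2 * e = v 1 - v 2 * e := by
    simp only [Lc_Q] at h3
    have : τ * ((u 1 - u 2 * e) - (v 1 - v 2 * e)) = 0 := by linarith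
    rcases mul_eq_zero.mp this with h | h
    · exact absurd h hτ.ne'
    · linarith
  simp only [Lc_E] at h1
  simp only [Lc_P] at h2
  have h5 : (u 2 - v 2) * (9 * e ^ 2 + τ ^ 2) = 0 := by
    have e1 : u 1 = v 1 + (u 2 - v 2) * e := by linarith
    have e0 : u 0 = v 0 + v 1 * e + v 2 * e ^ 2 - u 1 * e - u 2 * e ^ 2 := by linarith
    rw [e0, e1] at h2
    linarith
  have h6 : u 2 = v 2 := by
    rcases mul_eq_zero.mp h5 with h | h
    · linarith
    · have : 0 < 9 * e ^ 2 + τ ^ 2 := by positivity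
      linarith
  have h7 : u 1 = v 1 := by rw [h6] at h4; linarith
  have h8 : u 0 = v 0 := by rw [h6, h7] at h1; linarith
  funext j
  fin_cases j
  · exact h8
  · exact h7
  · exact h6

private lemma Lc_surj {e τ : ℝ} (hτ : 0 < τ) (g p q : ℝ) :
    ∃ z : Fin 3 → ℝ, Lc_E e z = g ∧ Lc_P e τ z = p ∧ Lc_Q e τ z = q := by
  have hs : 0 < 9 * e ^ 2 + τ ^ 2 := by positivity
  obtain ⟨z2, hz2⟩ : ∃ t : ℝ, t * (9 * e ^ 2 + τ ^ 2) = 4 * (g - p - 3 * e * (q / τ)) :=
    ⟨4 * (g - p - 3 * e * (q / τ)) / (9 * e ^ 2 + τ ^ 2), by field_simp⟩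
  have hq : τ * (q / τ) = q := by field_simp
  refine ⟨![g - (2 * (q / τ) + z2 * e) * e - z2 * e ^ 2, 2 * (q / τ) + z2 * e, z2], ?_, ?_, ?_⟩
  · simp only [Lc_E, Matrix.cons_val_zero, Matrix.cons_val_one, Matrix.cons_val_two,
      Matrix.head_cons, Matrix.tail_cons]
    ring
  · simp only [Lc_P, Matrix.cons_val_zero, Matrix.cons_val_one, Matrix.cons_val_two,
      Matrix.head_cons, Matrix.tail_cons]
    linarith
  · simp only [Lc_Q, Matrix.cons_val_zero, Matrix.cons_val_one, Matrix.cons_val_two,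
      Matrix.head_cons, Matrix.tail_cons]
    linarith

private lemma Lc_root (A B : ℝ) : ∃ e : ℝ, e ^ 3 + A * e + B = 0 := by
  obtain ⟨M, hM⟩ : ∃ M : ℝ, M = 1 + |A| + |B| := ⟨_, rfl⟩
  have hA := abs_nonneg A
  have hB := abs_nonneg B
  have hM1 : 1 ≤ M := by linarith
  have hA1 := le_abs_self A
  have hA2 := neg_abs_le A
  have hB1 := le_abs_self B
  have hB2 := neg_abs_le B
  have hkey : |A| * M + |B| ≤ M ^ 3 := by
    have h1 : |B| ≤ |B| * M := by nlinarith
    have h2 : |A| * M + |B| * M ≤ M * M := by nlinarith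
    have h3 : M * M ≤ M ^ 3 := by nlinarith [mul_nonneg (mul_nonneg (by linarith : (0:ℝ) ≤ M) (by linarith : (0:ℝ) ≤ M)) (by linarith : (0:ℝ) ≤ M - 1)]
    linarith
  have hAM : -(|A| * M) ≤ A * M := by nlinarith
  have hAM' : A * M ≤ |A| * M := by nlinarith
  have hc : ContinuousOn (fun t : ℝ => t ^ 3 + A * t + B) (Set.Icc (-M) M) := by fun_prop
  have h := intermediate_value_Icc (by linarith : -M ≤ M) hc
  have h0 : (0 : ℝ) ∈ Set.Icc ((-M) ^ 3 + A * (-M) + B) (M ^ 3 + A * M + B) := by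
    constructor
    · have : (-M) ^ 3 = -(M ^ 3) := by ring
      rw [this]
      linarith
    · linarith
  obtain ⟨e, -, he⟩ := h h0
  exact ⟨e, he⟩

private lemma Lc_main (A B : ℝ) (D : Fin 3 → ℝ) (hd : 0 < 4 * A ^ 3 + 27 * B ^ 2)
    (hn : 0 < Te_nf A B D) : ∃ (x y : ℝ) (z : Fin 3 → ℝ), y ≠ 0 ∧ y ^ 2 = x ^ 3 + A * x + B ∧
      m3 A B D ![x, -1, 0] = m3 A B z z := by
  obtain ⟨e, he⟩ := Lc_root A B
  have hB : B = -e ^ 3 - A * e := by linarith
  have hτ0 : 0 < 3 * e ^ 2 + 4 * A := by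
    have h1 : 4 * A ^ 3 + 27 * B ^ 2 = (3 * e ^ 2 + 4 * A) * (3 * e ^ 2 + A) ^ 2 := by
      rw [hB]; ring
    rw [h1] at hd
    by_contra h
    have h2 := mul_nonpos_of_nonpos_of_nonneg (not_lt.mp h) (sq_nonneg (3 * e ^ 2 + A))
    linarith
  obtain ⟨τ, hτ, hτ2⟩ : ∃ τ : ℝ, 0 < τ ∧ τ ^ 2 = 3 * e ^ 2 + 4 * A :=
    ⟨Real.sqrt _, Real.sqrt_pos.mpr hτ0, Real.sq_sqrt hτ0.le⟩
  have hA : A = (τ ^ 2 - 3 * e ^ 2) / 4 := by linarith
  have hB' : B = -e * (e ^ 2 + τ ^ 2) / 4 := by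
    rw [hB, hA]; ring
  rw [hA, hB'] at hn ⊢
  rw [Lc_nf] at hn
  have hE : 0 < Lc_E e D := by
    by_contra h
    have h2 := mul_nonpos_of_nonpos_of_nonneg (not_lt.mp h)
      (add_nonneg (sq_nonneg (Lc_P e τ D)) (sq_nonneg (Lc_Q e τ D)))
    linarith
  obtain ⟨w, hw⟩ := IsAlgClosed.exists_pow_nat_eq
    (⟨Lc_P e τ (m3 ((τ ^ 2 - 3 * e ^ 2) / 4) (-e * (e ^ 2 + τ ^ 2) / 4) D ![e + 1, -1, 0]),
      Lc_Q e τ (m3 ((τ ^ 2 - 3 * e ^ 2) / 4) (-e * (e ^ 2 + τ ^ 2) / 4) D ![e + 1, -1, 0])⟩ : ℂ)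
    (n := 2) (by norm_num)
  have hre := congrArg Complex.re hw
  have him := congrArg Complex.im hw
  rw [pow_two, Complex.mul_re] at hre
  rw [pow_two, Complex.mul_im] at him
  simp only at hre him
  obtain ⟨z, hz1, hz2, hz3⟩ := Lc_surj (e := e) hτ (Real.sqrt (Lc_E e D)) w.re w.im
  have hf : 0 < (e + 1) ^ 3 + (τ ^ 2 - 3 * e ^ 2) / 4 * (e + 1) + -e * (e ^ 2 + τ ^ 2) / 4 := by
    have : (e + 1) ^ 3 + (τ ^ 2 - 3 * e ^ 2) / 4 * (e + 1) + -e * (e ^ 2 + τ ^ 2) / 4 =
        (e + 1 + e / 2) ^ 2 + τ ^ 2 / 4 := by ring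
    rw [this]
    positivity
  refine ⟨e + 1, Real.sqrt ((e + 1) ^ 3 + (τ ^ 2 - 3 * e ^ 2) / 4 * (e + 1) +
    -e * (e ^ 2 + τ ^ 2) / 4), z, (Real.sqrt_pos.mpr hf).ne', Real.sq_sqrt hf.le, ?_⟩
  refine Lc_inj (e := e) hτ ?_ ?_ ?_
  · rw [Lc_mulE, Lc_mulE, hz1, Real.mul_self_sqrt hE.le]
    have : Lc_E e ![e + 1, -1, 0] = 1 := by
      simp [Lc_E]
    rw [this, mul_one]
  · rw [← hre, Lc_mulP, hz2, hz3]
  · rw [← him, Lc_mulQ, hz2, hz3]

theorem LC_real {k : Type} [Field k] (s : k →+* ℝ) {a b : k} (hd : 0 < s (4 * a ^ 3 + 27 * b ^ 2))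
    {d : Fin 3 → k} (hn : 0 < s (Te_nf a b d)) : LC s a b d := by
  have h1 : s (4 * a ^ 3 + 27 * b ^ 2) = 4 * (s a) ^ 3 + 27 * (s b) ^ 2 := by
    rw [map_add, map_mul, map_mul, map_pow, map_pow, map_ofNat, map_ofNat]
  rw [h1] at hd
  rw [← Te_nf_map] at hn
  exact Lc_main (s a) (s b) (fun j => s (d j)) hd hn

end H73P2

end S_H73_P2_Lc

section S_H73_P2_Sb

set_option autoImplicit false
set_option linter.unusedSectionVars false
open scoped Classical

open WithZero NumberField IsDedekindDomain H38RT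
open H38T1 (SC sc scu rep eo la si Pri OddP tp unif)
open H76PP

namespace H73P2

theorem exists_sub {k k' L' : Type} [Field k] [NumberField k] [Field k'] [NumberField k'] [Field L']
    [NumberField L'] [Algebra k k'] [Algebra k' L'] [Algebra k L'] [IsScalarTower k k' L'] {a b : k}
    {θ' : L'} (h : Cub k' L' (algebraMap k k' a) (algebraMap k k' b) θ') :
    ∃ (L : Type) (_ : Field L) (_ : NumberField L) (_ : Algebra k L) (_ : Algebra L L')
      (_ : IsScalarTower k L L') (θ : L), Cub k L a b θ ∧ algebraMap L L' θ = θ' := by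
  have hint : IsIntegral k θ' := Algebra.IsIntegral.isIntegral θ'
  refine ⟨(IntermediateField.adjoin k {θ'} : IntermediateField k L'), inferInstance,
    NumberField.of_intermediateField _, inferInstance, inferInstance, inferInstance,
    IntermediateField.AdjoinSimple.gen k θ', ?_, IntermediateField.AdjoinSimple.algebraMap_gen k θ'⟩
  set E : IntermediateField k L' := IntermediateField.adjoin k {θ'} with hE
  set θ : E := IntermediateField.AdjoinSimple.gen k θ' with hθ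
  have hθ' : algebraMap E L' θ = θ' := IntermediateField.AdjoinSimple.algebraMap_gen k θ'
  have hinj : Function.Injective (algebraMap E L') := (algebraMap E L').injective
  have hmap : ∀ x : k, algebraMap E L' (algebraMap k E x) = algebraMap k' L' (algebraMap k k' x) := by
    intro x
    rw [← IsScalarTower.algebraMap_apply k E L', ← IsScalarTower.algebraMap_apply k k' L']
  have hroot : θ ^ 3 + algebraMap k E a * θ + algebraMap k E b = 0 := by
    apply hinj
    rw [map_add, map_add, map_mul, map_pow, map_zero, hθ', hmap, hmap]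
    exact h.root
  have hred : ∀ p : Polynomial k, ∃ c₀ c₁ c₂ : k, Polynomial.aeval θ p =
      algebraMap k E c₀ + algebraMap k E c₁ * θ + algebraMap k E c₂ * θ ^ 2 := by
    intro p
    induction p using Polynomial.induction_on with
    | C c => exact ⟨c, 0, 0, by simp⟩
    | add p q hp hq =>
      obtain ⟨c₀, c₁, c₂, hp⟩ := hp
      obtain ⟨d₀, d₁, d₂, hq⟩ := hq
      refine ⟨c₀ + d₀, c₁ + d₁, c₂ + d₂, ?_⟩
      rw [map_add, hp, hq, map_add, map_add, map_add]
      ring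
    | monomial n c hp =>
      obtain ⟨c₀, c₁, c₂, hp⟩ := hp
      refine ⟨- (c₂ * b), c₀ - c₂ * a, c₁, ?_⟩
      have e1 : Polynomial.aeval θ (Polynomial.C c * Polynomial.X ^ (n + 1)) =
          Polynomial.aeval θ (Polynomial.C c * Polynomial.X ^ n) * θ := by
        rw [pow_succ, ← mul_assoc, map_mul, Polynomial.aeval_X]
      rw [e1, hp, map_neg, map_mul, map_sub, map_mul]
      linear_combination (algebraMap k E c₂) * hroot
  refine ⟨hroot, ?_, ?_⟩
  · intro c₀ c₁ c₂ hc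
    have h1 := congrArg (algebraMap E L') hc
    rw [map_add, map_add, map_mul, map_mul, map_pow, map_zero, hθ', hmap, hmap, hmap] at h1
    obtain ⟨e0, e1, e2⟩ := h.li _ _ _ h1
    have hi : Function.Injective (algebraMap k k') := (algebraMap k k').injective
    exact ⟨hi (by rw [e0, map_zero]), hi (by rw [e1, map_zero]), hi (by rw [e2, map_zero])⟩
  · intro x
    have hx : (x : L') ∈ (IntermediateField.adjoin k {θ'}).toSubalgebra := x.2
    rw [IntermediateField.adjoin_simple_toSubalgebra_of_isAlgebraic hint.isAlgebraic,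
      Algebra.adjoin_singleton_eq_range_aeval] at hx
    obtain ⟨p, hp⟩ := hx
    obtain ⟨c₀, c₁, c₂, hc⟩ := hred p
    refine ⟨c₀, c₁, c₂, ?_⟩
    rw [← hc]
    apply hinj
    rw [← Polynomial.aeval_algebraMap_apply, hθ']
    exact hp.symm

theorem QS.fin2 {k L k' L' : Type} [Field k] [NumberField k] [Field L] [NumberField L] [Field k']
    [NumberField k'] [Field L'] [NumberField L'] [Algebra k L] [Algebra k k'] [Algebra L L']
    [Algebra k' L'] [Algebra k L'] [IsScalarTower k L L'] [IsScalarTower k k' L'] {a b : k} {θ : L}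
    {θ' : L'} (S : QS k L k' L' a b θ θ') : Module.finrank L L' = 2 := by
  have h1 : Module.finrank k L = 3 := S.cub.finrank
  have h2 : Module.finrank k' L' = 3 := S.cub'.finrank
  have h3 := Module.finrank_mul_finrank k L L'
  have h4 := Module.finrank_mul_finrank k k' L'
  rw [S.two, h2] at h4
  rw [h1, ← h4] at h3
  omega

end H73P2

end S_H73_P2_Sb

section S_H73_P2_Co

set_option autoImplicit false
set_option linter.unusedSectionVars false
open scoped Classical

open WithZero NumberField IsDedekindDomain H38RT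
open H38T1 (SC sc scu rep eo la si Pri OddP tp unif)
open H76PP

namespace H73P2

theorem exists_gen0 {k k' : Type} [Field k] [CharZero k] [Field k'] [Algebra k k']
    (h : Module.finrank k k' = 2) :
    ∃ (D : k) (d : k'), d ^ 2 = algebraMap k k' D ∧ ∀ y : k, algebraMap k k' y ≠ d := by
  have hc0 : CharZero k' := charZero_of_injective_algebraMap (algebraMap k k').injective
  obtain ⟨y, hy⟩ : ∃ y : k', ∀ c : k, algebraMap k k' c ≠ y := by
    by_contra hcon
    push Not at hcon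
    have h1 : Module.finrank k k' = 1 :=
      (finrank_eq_one_iff_of_nonzero' (1 : k') one_ne_zero).2 (fun w => by
        obtain ⟨c, hc⟩ := hcon w
        exact ⟨c, by rw [Algebra.smul_def, mul_one, hc]⟩)
    omega
  have hr := Pool.Agent.H10.Q.quad_rel h y
  refine ⟨Algebra.trace k k' y ^ 2 - 4 * Algebra.norm k y,
    2 * y - algebraMap k k' (Algebra.trace k k' y), ?_, ?_⟩
  · rw [map_sub, map_pow, map_mul, map_ofNat]
    linear_combination 4 * hr
  · intro c hc
    apply hy ((c + Algebra.trace k k' y) / 2)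
    rw [map_div₀, map_add, map_ofNat, div_eq_iff two_ne_zero]
    linear_combination hc

section

variable {k L k' L' : Type} [Field k] [NumberField k] [Field L] [NumberField L] [Field k']
  [NumberField k'] [Field L'] [NumberField L'] [Algebra k L] [Algebra k k'] [Algebra L L']
  [Algebra k' L'] [Algebra k L'] [IsScalarTower k L L'] [IsScalarTower k k' L'] {a b : k} {θ : L}
  {θ' : L'}

theorem QS.core (S : QS k L k' L' a b θ θ') (f2 : Module.finrank L L' = 2) {x : L'} (hx : x ≠ 0)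
    (hN : IsSquare (Algebra.norm k' x)) (hsq : IsSquare (Algebra.norm L x)) :
    ∃ (t : L) (z : L'), t ≠ 0 ∧ z ≠ 0 ∧ x = algebraMap L L' t * z ^ 2 ∧
      IsSquare (Algebra.norm k t) := by
  obtain ⟨D, d, hdK2, hdK⟩ := exists_gen0 S.two
  have hodd : Odd (Module.finrank k L) := by
    rw [S.cub.finrank]
    exact ⟨1, rfl⟩
  have hfin : FiniteDimensional k L := Module.finite_of_finrank_pos (by rw [S.cub.finrank]; norm_num)
  have hdL := Pool.Agent.H10.Q.notMem_up (L := L) (L2 := L') hodd hdK2 hdK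
  have hd0 : d ≠ 0 := by
    intro h
    exact hdK 0 (by rw [map_zero, h])
  have hδ0 : D ≠ 0 := by
    intro h
    rw [h, map_zero] at hdK2
    exact hd0 (pow_eq_zero_iff two_ne_zero |>.mp hdK2)
  -- first descent
  obtain ⟨y, hy⟩ := hsq
  have hNx : Algebra.norm L x ≠ 0 := by rw [Ne, Algebra.norm_eq_zero_iff]; exact hx
  have hy0 : y ≠ 0 := by
    rintro rfl
    rw [mul_zero] at hy
    exact hNx hy
  have hyL : algebraMap L L' y ≠ 0 := by rwa [Ne, map_eq_zero]
  have hu : Algebra.norm L (x / algebraMap L L' y) = 1 := by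
    have h1 : Algebra.norm L (x / algebraMap L L' y) * Algebra.norm L (algebraMap L L' y) =
        Algebra.norm L x := by
      rw [← map_mul, div_mul_cancel₀ _ hyL]
    rw [Algebra.norm_algebraMap, f2, hy, pow_two] at h1
    exact mul_right_cancel₀ (mul_ne_zero hy0 hy0) (by rw [h1, one_mul])
  obtain ⟨t1, z, ht1, hz, hxz⟩ := Pool.Agent.H10.Q.hilb f2 hu
  have hx2 : x = algebraMap L L' (y * t1) * z ^ 2 := by
    rw [map_mul, mul_assoc, ← hxz, mul_div_cancel₀ _ hyL]
  have ht2 : y * t1 ≠ 0 := mul_ne_zero hy0 ht1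
  -- the norm to `k`
  have hNt : IsSquare (algebraMap k k' (Algebra.norm k (y * t1))) := by
    rw [← Pool.Agent.H10.Q.norm_compat S.two f2 hdL]
    have hz2 : Algebra.norm k' z ≠ 0 := by rw [Ne, Algebra.norm_eq_zero_iff]; exact hz
    obtain ⟨c, hc⟩ := hN
    rw [hx2, map_mul, map_pow] at hc
    refine ⟨c / Algebra.norm k' z, ?_⟩
    field_simp
    rw [hc]
    ring
  rcases Pool.Agent.H10.Q.sq_of_sq S.two hdK2 hdK two_ne_zero hNt with h | h
  · exact ⟨y * t1, z, ht2, hz, hx2, h⟩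
  · have hdL2 : algebraMap k' L' d ≠ 0 := by rwa [Ne, map_eq_zero]
    refine ⟨y * t1 * algebraMap k L D, z / algebraMap k' L' d,
      mul_ne_zero ht2 (by rwa [Ne, map_eq_zero]), div_ne_zero hz hdL2, ?_, ?_⟩
    · have e : algebraMap L L' (algebraMap k L D) = (algebraMap k' L' d) ^ 2 := by
        rw [← map_pow, hdK2, ← IsScalarTower.algebraMap_apply k L L',
          ← IsScalarTower.algebraMap_apply k k' L']
      rw [map_mul, e, hx2]
      field_simp
    · obtain ⟨c, hc⟩ := h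
      rw [map_mul, Algebra.norm_algebraMap, S.cub.finrank]
      refine ⟨c * D, ?_⟩
      calc Algebra.norm k (y * t1) * D ^ 3
          = (Algebra.norm k (y * t1) * D) * (D * D) := by ring
        _ = _ := by rw [hc]; ring

theorem QS.norm_sq (S : QS k L k' L' a b θ θ') (f2 : Module.finrank L L' = 2) {x : L'}
    (hN : IsSquare (Algebra.norm k' x)) : IsSquare (Algebra.norm k (Algebra.norm L x)) := by
  have h1 : FiniteDimensional k k' := Module.finite_of_finrank_pos (by rw [S.two]; norm_num)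
  have h2 : FiniteDimensional L L' := Module.finite_of_finrank_pos (by rw [f2]; norm_num)
  rw [Algebra.norm_norm, ← Algebra.norm_norm (S := k')]
  exact hN.map _

theorem QS.coord (S : QS k L k' L' a b θ θ') (e : Fin 3 → k) :
    algebraMap L L' (ev θ e) = ev θ' (fun i => algebraMap k k' (e i)) := by
  unfold ev
  rw [map_add, map_add, map_mul, map_mul, map_pow, S.th]
  simp only [← IsScalarTower.algebraMap_apply k L L', ← IsScalarTower.algebraMap_apply k k' L']

theorem QS.sigma (S : QS k L k' L' a b θ θ') (f2 : Module.finrank L L' = 2) :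
    ∃ (τ : k' ≃ₐ[k] k') (σ : L' ≃ₐ[L] L'),
      (∀ x : L', algebraMap L L' (Algebra.norm L x) = x * σ x) ∧
      ∀ (d : Fin 3 → k') (e : Fin 3 → k), ev θ e = Algebra.norm L (ev θ' d) →
        (fun i => algebraMap k k' (e i)) =
          m3 (algebraMap k k' a) (algebraMap k k' b) d (fun i => τ (d i)) := by
  obtain ⟨σ, hσ⟩ := Pool.Agent.H10.Q.exists_sigma f2
  have hq : Algebra.IsQuadraticExtension k k' := ⟨S.two⟩
  have hg : IsGalois k k' := inferInstance
  have hn : Normal k k' := inferInstance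
  obtain ⟨τ, hτ⟩ : ∃ τ : k' ≃ₐ[k] k', ∀ x : k', algebraMap k' L' (τ x) = σ (algebraMap k' L' x) :=
    ⟨(σ.restrictScalars k).restrictNormal k', fun x =>
      AlgEquiv.restrictNormal_commutes (σ.restrictScalars k) k' x⟩
  have hθ : σ θ' = θ' := by
    rw [← S.th]
    exact σ.commutes θ
  refine ⟨τ, σ, hσ, fun d e he => ?_⟩
  have h1 : ev θ' (fun i => algebraMap k k' (e i)) =
      ev θ' (m3 (algebraMap k k' a) (algebraMap k k' b) d (fun i => τ (d i))) := by
    have h2 : σ (ev θ' d) = ev θ' (fun i => τ (d i)) := by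
      unfold ev
      rw [map_add, map_add, map_mul, map_mul, map_pow, hθ, hτ, hτ, hτ]
    rw [← S.coord e, he, hσ, h2, Te_ev_mul S.cub']
  funext i
  have e1 := S.cub'.co_mk (fun i => algebraMap k k' (e i)) i
  have e2 := S.cub'.co_mk (m3 (algebraMap k k' a) (algebraMap k k' b) d (fun i => τ (d i))) i
  unfold ev at h1
  rw [h1] at e1
  exact e1.symm.trans e2

end

end H73P2

end S_H73_P2_Co

section S_H73_P2_Nq

set_option autoImplicit false
set_option linter.unusedSectionVars false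
open scoped Classical

open WithZero NumberField IsDedekindDomain H38RT
open H38T1 (SC sc scu rep eo la si Pri OddP tp unif)
open H76PP

namespace H73P2

section Val

variable {F Γ : Type*} [Field F] [LinearOrderedCommGroupWithZero Γ] {V : Valuation F Γ}

private lemma Nq_mul_lt {p q : F} (hp : V p ≤ 1) (hq : V q < 1) : V (p * q) < 1 := by
  rw [map_mul]
  calc V p * V q ≤ 1 * V q := mul_le_mul' hp le_rfl
    _ = V q := one_mul _
    _ < 1 := hq

private lemma Nq_mul_le {p q : F} (hp : V p ≤ 1) (hq : V q ≤ 1) : V (p * q) ≤ 1 := by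
  rw [map_mul]
  exact mul_le_one' hp hq

private lemma Nq_add_one {p q : F} (hp : V p = 1) (hq : V q < 1) : V (p + q) = 1 := by
  rw [← hp]
  exact Valuation.map_add_eq_of_lt_left V (by rw [hp]; exact hq)

private lemma Nq_form {a b : F} (hr : ∀ t : F, V t ≤ 1 → V (t ^ 3 + a * t + b) = 1)
    {x y : F} (hx : V x ≤ 1) (hy : V y = 1) : V (x ^ 3 + a * x * y ^ 2 - b * y ^ 3) = 1 := by
  have hy0 : y ≠ 0 := by
    rintro rfl
    rw [map_zero] at hy
    exact zero_ne_one hy
  have h1 := hr (-x / y) (by rw [map_div₀, Valuation.map_neg, hy, div_one]; exact hx)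
  have h2 : x ^ 3 + a * x * y ^ 2 - b * y ^ 3 = -(y ^ 3 * ((-x / y) ^ 3 + a * (-x / y) + b)) := by
    field_simp
    ring
  rw [h2, Valuation.map_neg, map_mul, h1, map_pow, hy, one_pow, one_mul]

private lemma Nq_nf {a b : F} (ha : V a ≤ 1) (hb : V b ≤ 1)
    (hr : ∀ t : F, V t ≤ 1 → V (t ^ 3 + a * t + b) = 1) {c : Fin 3 → F} (hc : ∀ j, V (c j) ≤ 1)
    {j : Fin 3} (hj : V (c j) = 1) : V (Te_nf a b c) = 1 := by
  have hx := hc 0
  have hy := hc 1
  have hz := hc 2
  by_cases h2 : V (c 2) = 1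
  · have hz0 : c 2 ≠ 0 := by
      intro h
      rw [h, map_zero] at h2
      exact zero_ne_one h2
    obtain ⟨m, hm⟩ : ∃ m : F, m = -(c 1) / c 2 := ⟨_, rfl⟩
    have hmV : V m ≤ 1 := by
      rw [hm, map_div₀, Valuation.map_neg, h2, div_one]
      exact hy
    have hym : c 1 = -(m * c 2) := by
      rw [hm, div_mul_cancel₀ _ hz0, neg_neg]
    obtain ⟨P, hP⟩ : ∃ P : F, P = c 0 * m - b * c 2 := ⟨_, rfl⟩
    obtain ⟨Q, hQ⟩ : ∃ Q : F, Q = c 0 + c 1 * m - a * c 2 := ⟨_, rfl⟩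
    have hM : V (m ^ 3 + a * m - b) = 1 := by
      have h3 := hr (-m) (by rw [Valuation.map_neg]; exact hmV)
      have h4 : m ^ 3 + a * m - b = -((-m) ^ 3 + a * (-m) + b) := by ring
      rw [h4, Valuation.map_neg, h3]
    have hmul : Te_nf a b c * (m ^ 3 + a * m - b) = P ^ 3 + a * P * Q ^ 2 - b * Q ^ 3 := by
      have h3 := Te_nf_mul a b c ![m, 1, 0]
      have h4 : Te_nf a b ![m, 1, 0] = m ^ 3 + a * m - b := by
        simp only [Te_nf, Matrix.cons_val_zero, Matrix.cons_val_one, Matrix.cons_val_two,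
          Matrix.head_cons, Matrix.tail_cons]
        ring
      have h5 : m3 a b c ![m, 1, 0] = ![P, Q, 0] := by
        funext i
        fin_cases i
        · simp [m3, hP]
        · simp [m3, hQ]
        · simp [m3, hym]
          ring
      rw [← h4, ← h3, h5]
      simp only [Te_nf, Matrix.cons_val_zero, Matrix.cons_val_one, Matrix.cons_val_two,
        Matrix.head_cons, Matrix.tail_cons]
      ring
    have hPV : V P ≤ 1 := by
      have : P ∈ V.integer := by
        rw [hP]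
        exact sub_mem (mul_mem hx hmV) (mul_mem hb hz)
      exact this
    have hQV : V Q ≤ 1 := by
      have : Q ∈ V.integer := by
        rw [hQ]
        exact sub_mem (add_mem hx (mul_mem hy hmV)) (mul_mem ha hz)
      exact this
    have hkey : V (P ^ 3 + a * P * Q ^ 2 - b * Q ^ 3) = 1 := by
      by_cases hQ1 : V Q = 1
      · exact Nq_form hr hPV hQ1
      · have hQ2 : V Q < 1 := lt_of_le_of_ne hQV hQ1
        have hP1 : V P = 1 := by
          have e : P = c 2 * (m ^ 3 + a * m - b) + m * Q := by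
            rw [hP, hQ, hym]
            ring
          rw [e]
          apply Nq_add_one
          · rw [map_mul, h2, hM, one_mul]
          · exact Nq_mul_lt hmV hQ2
        have e : P ^ 3 + a * P * Q ^ 2 - b * Q ^ 3 = P ^ 3 + ((a * P - b * Q) * Q) * Q := by ring
        rw [e]
        apply Nq_add_one
        · rw [map_pow, hP1, one_pow]
        · apply Nq_mul_lt _ hQ2
          have : (a * P - b * Q) * Q ∈ V.integer :=
            mul_mem (sub_mem (mul_mem ha hPV) (mul_mem hb hQV)) hQV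
          exact this
    rw [← hmul, map_mul, hM, mul_one] at hkey
    exact hkey
  · have h2' : V (c 2) < 1 := lt_of_le_of_ne hz h2
    have e : Te_nf a b c = (c 0 ^ 3 + a * c 0 * c 1 ^ 2 - b * c 1 ^ 3) +
        (-(a * c 0 ^ 2 + a * c 0 ^ 2) + a ^ 2 * c 0 * c 2 + (b * c 0 * c 1 + b * c 0 * c 1 +
          b * c 0 * c 1) + b ^ 2 * c 2 ^ 2 - a * b * c 1 * c 2) * c 2 := by
      simp only [Te_nf]
      ring
    have hE : -(a * c 0 ^ 2 + a * c 0 ^ 2) + a ^ 2 * c 0 * c 2 + (b * c 0 * c 1 + b * c 0 * c 1 +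
          b * c 0 * c 1) + b ^ 2 * c 2 ^ 2 - a * b * c 1 * c 2 ∈ V.integer := by
      have ha' : a ∈ V.integer := ha
      have hb' : b ∈ V.integer := hb
      have hx' : c 0 ∈ V.integer := hx
      have hy' : c 1 ∈ V.integer := hy
      have hz' : c 2 ∈ V.integer := hz
      have e1 : b * c 0 * c 1 ∈ V.integer := mul_mem (mul_mem hb' hx') hy'
      exact sub_mem (add_mem (add_mem (add_mem (neg_mem (add_mem (mul_mem ha' (pow_mem hx' 2))
        (mul_mem ha' (pow_mem hx' 2)))) (mul_mem (mul_mem (pow_mem ha' 2) hx') hz'))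
        (add_mem (add_mem e1 e1) e1)) (mul_mem (pow_mem hb' 2) (pow_mem hz' 2)))
        (mul_mem (mul_mem (mul_mem ha' hb') hy') hz')
    rw [e]
    apply Nq_add_one _ (Nq_mul_lt hE h2')
    by_cases h1 : V (c 1) = 1
    · exact Nq_form hr hx h1
    · have h1' : V (c 1) < 1 := lt_of_le_of_ne hy h1
      have h0 : V (c 0) = 1 := by
        fin_cases j
        · exact hj
        · exact absurd hj h1
        · exact absurd hj h2
      have e2 : c 0 ^ 3 + a * c 0 * c 1 ^ 2 - b * c 1 ^ 3 =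
          c 0 ^ 3 + ((a * c 0 - b * c 1) * c 1) * c 1 := by ring
      rw [e2]
      apply Nq_add_one
      · rw [map_pow, h0, one_pow]
      · apply Nq_mul_lt _ h1'
        have : (a * c 0 - b * c 1) * c 1 ∈ V.integer :=
          mul_mem (sub_mem (mul_mem ha hx) (mul_mem hb hy)) hy
        exact this

private lemma Nq_theta {a b θ : F} (hr : θ ^ 3 + a * θ + b = 0) (ha : V a ≤ 1) (hb : V b ≤ 1) :
    V θ ≤ 1 := by
  by_contra h
  have h1 : 1 < V θ := not_le.1 h
  have h0 : θ ≠ 0 := by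
    rintro rfl
    rw [map_zero] at h1
    exact absurd h1 (not_lt.2 zero_le_one)
  have h2 : V θ⁻¹ < 1 := by
    rw [map_inv₀]
    exact inv_lt_one_of_one_lt₀ h1
  have h3 : (1 : F) + (a * θ⁻¹ + b * θ⁻¹ * θ⁻¹) * θ⁻¹ = 0 := by
    have h4 : (1 : F) + (a * θ⁻¹ + b * θ⁻¹ * θ⁻¹) * θ⁻¹ = (θ ^ 3 + a * θ + b) * (θ⁻¹) ^ 3 := by
      field_simp
      ring
    rw [h4, hr, zero_mul]
  have h5 : V ((a * θ⁻¹ + b * θ⁻¹ * θ⁻¹) * θ⁻¹) < 1 := by
    apply Nq_mul_lt _ h2
    have hi : θ⁻¹ ∈ V.integer := h2.le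
    have : a * θ⁻¹ + b * θ⁻¹ * θ⁻¹ ∈ V.integer :=
      add_mem (mul_mem ha hi) (mul_mem (mul_mem hb hi) hi)
    exact this
  have h6 := Nq_add_one (map_one V) h5
  rw [h3, map_zero] at h6
  exact zero_ne_one h6

end Val

variable {k L : Type} [Field k] [NumberField k] [Field L] [NumberField L] [Algebra k L]

omit [NumberField k] [NumberField L] in
/-- The cubic after scaling. -/
private lemma Nq_cub {a b : k} {θ : L} (h : Cub k L a b θ) {c a' b' : k} (hc : c ≠ 0)
    (ha : a = c ^ 4 * a') (hb : b = c ^ 6 * b') : Cub k L a' b' (θ / algebraMap k L c ^ 2) := by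
  have hC : algebraMap k L c ≠ 0 := by
    rw [Ne, map_eq_zero]
    exact hc
  refine ⟨?_, ?_, ?_⟩
  · have h1 := h.root
    rw [ha, hb, map_mul, map_mul, map_pow, map_pow] at h1
    have h2 : (θ / algebraMap k L c ^ 2) ^ 3 + algebraMap k L a' * (θ / algebraMap k L c ^ 2) +
        algebraMap k L b' = (θ ^ 3 + algebraMap k L c ^ 4 * algebraMap k L a' * θ +
          algebraMap k L c ^ 6 * algebraMap k L b') / algebraMap k L c ^ 6 := by
      field_simp
    rw [h2, h1, zero_div]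
  · intro c₀ c₁ c₂ h1
    have h2 : algebraMap k L c₀ + algebraMap k L (c₁ / c ^ 2) * θ +
        algebraMap k L (c₂ / c ^ 4) * θ ^ 2 = 0 := by
      rw [← h1, map_div₀, map_div₀, map_pow, map_pow]
      field_simp
    obtain ⟨e0, e1, e2⟩ := h.li _ _ _ h2
    refine ⟨e0, ?_, ?_⟩
    · rw [div_eq_zero_iff] at e1
      exact e1.resolve_right (pow_ne_zero _ hc)
    · rw [div_eq_zero_iff] at e2
      exact e2.resolve_right (pow_ne_zero _ hc)
  · intro x
    obtain ⟨c₀, c₁, c₂, hx⟩ := h.sp x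
    refine ⟨c₀, c₁ * c ^ 2, c₂ * c ^ 4, ?_⟩
    rw [hx, map_mul, map_mul, map_pow, map_pow]
    field_simp

/-- The valuation of an element with integral coordinates, one of which is a unit. -/
private lemma Nq_one {a b : k} {θ : L} (h : Cub k L a b θ) {u : HeightOneSpectrum (𝓞 k)}
    (ha : u.valuation k a ≤ 1) (hb : u.valuation k b ≤ 1)
    (hr : ∀ t : k, u.valuation k t ≤ 1 → u.valuation k (t ^ 3 + a * t + b) = 1)
    {w : HeightOneSpectrum (𝓞 L)} (hw : dn k w = u) {c : Fin 3 → k}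
    (hc : ∀ j, u.valuation k (c j) ≤ 1) {j : Fin 3} (hj : u.valuation k (c j) = 1) :
    w.valuation L (ev θ c) = 1 := by
  subst hw
  have hθ : w.valuation L θ ≤ 1 := Nq_theta h.root (val_le ha) (val_le hb)
  have hev : ∀ d : Fin 3 → k, (∀ j, (dn k w).valuation k (d j) ≤ 1) → w.valuation L (ev θ d) ≤ 1 := by
    intro d hd
    have hθ' : θ ∈ (w.valuation L).integer := hθ
    have h0 : algebraMap k L (d 0) ∈ (w.valuation L).integer := val_le (hd 0)
    have h1 : algebraMap k L (d 1) ∈ (w.valuation L).integer := val_le (hd 1)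
    have h2 : algebraMap k L (d 2) ∈ (w.valuation L).integer := val_le (hd 2)
    have : ev θ d ∈ (w.valuation L).integer :=
      add_mem (add_mem h0 (mul_mem h1 hθ')) (mul_mem h2 (pow_mem hθ' 2))
    exact this
  have hN := val_one (w := w) (Nq_nf ha hb hr hc hj)
  rw [← Te_ev_adj h, map_mul] at hN
  have h1 := hev c hc
  have h2 := hev (Te_C a b c) (by
    have ha' : a ∈ ((dn k w).valuation k).integer := ha
    have hb' : b ∈ ((dn k w).valuation k).integer := hb
    have hx' : c 0 ∈ ((dn k w).valuation k).integer := hc 0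
    have hy' : c 1 ∈ ((dn k w).valuation k).integer := hc 1
    have hz' : c 2 ∈ ((dn k w).valuation k).integer := hc 2
    intro i
    fin_cases i
    · have : (c 0 - a * c 2) ^ 2 + a * c 1 ^ 2 + b * c 1 * c 2 ∈ ((dn k w).valuation k).integer :=
        add_mem (add_mem (pow_mem (sub_mem hx' (mul_mem ha' hz')) 2) (mul_mem ha' (pow_mem hy' 2)))
          (mul_mem (mul_mem hb' hy') hz')
      exact this
    · have : -(c 0 * c 1 + b * c 2 ^ 2) ∈ ((dn k w).valuation k).integer :=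
        neg_mem (add_mem (mul_mem hx' hy') (mul_mem hb' (pow_mem hz' 2)))
      exact this
    · have : c 1 ^ 2 - c 0 * c 2 + a * c 2 ^ 2 ∈ ((dn k w).valuation k).integer :=
        add_mem (sub_mem (pow_mem hy' 2) (mul_mem hx' hz')) (mul_mem ha' (pow_mem hz' 2))
      exact this)
  apply le_antisymm h1
  rw [← hN]
  calc w.valuation L (ev θ c) * w.valuation L (ev θ (Te_C a b c)) ≤ w.valuation L (ev θ c) * 1 :=
        mul_le_mul' le_rfl h2
    _ = _ := mul_one _

/-- All the places above `u` have the same ideal. -/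
private lemma Nq_sub {a b : k} {θ : L} (h : Cub k L a b θ) {u : HeightOneSpectrum (𝓞 k)}
    (ha : u.valuation k a ≤ 1) (hb : u.valuation k b ≤ 1)
    (hr : ∀ t : k, u.valuation k t ≤ 1 → u.valuation k (t ^ 3 + a * t + b) = 1)
    {w w' : HeightOneSpectrum (𝓞 L)} (hw : dn k w = u) (hw' : dn k w' = u) :
    w.asIdeal ≤ w'.asIdeal := by
  intro x hx
  by_cases hx0 : x = 0
  · rw [hx0]
    exact w'.asIdeal.zero_mem
  have hy0 : (algebraMap (𝓞 L) L x) ≠ 0 := by
    rw [Ne, FaithfulSMul.algebraMap_eq_zero_iff]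
    exact hx0
  obtain ⟨c₀, c₁, c₂, hy⟩ := h.sp (algebraMap (𝓞 L) L x)
  obtain ⟨c, hcd⟩ : ∃ c : Fin 3 → k, c = ![c₀, c₁, c₂] := ⟨_, rfl⟩
  have hyc : algebraMap (𝓞 L) L x = ev θ c := by
    rw [hy, hcd]
    simp [ev]
  obtain ⟨j, hj⟩ := Finite.exists_max (fun j => u.valuation k (c j))
  have hg0 : c j ≠ 0 := by
    intro h0
    apply hy0
    have hz : ∀ i, c i = 0 := by
      intro i
      have h1 := hj i
      simp only [h0, map_zero, le_zero_iff] at h1
      exact (Valuation.zero_iff _).1 h1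
    rw [hyc]
    simp [ev, hz]
  have hscale : ev θ c = algebraMap k L (c j) * ev θ (fun i => c i / c j) := by
    have hgL : algebraMap k L (c j) ≠ 0 := by
      rw [Ne, map_eq_zero]
      exact hg0
    simp only [ev, map_div₀]
    field_simp
  have hgV : u.valuation k (c j) ≠ 0 := (Valuation.ne_zero_iff _).2 hg0
  have hval : ∀ w₁ : HeightOneSpectrum (𝓞 L), dn k w₁ = u →
      w₁.valuation L (algebraMap (𝓞 L) L x) = w₁.valuation L (algebraMap k L (c j)) := by
    intro w₁ hw₁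
    have hle : ∀ i, u.valuation k ((fun i => c i / c j) i) ≤ 1 := by
      intro i
      simp only [map_div₀]
      exact div_le_one_of_le₀ (hj i) zero_le
    have hone : u.valuation k ((fun i => c i / c j) j) = 1 := by
      simp only [map_div₀]
      exact div_self hgV
    rw [hyc, hscale, map_mul, Nq_one h ha hb hr hw₁ hle hone, mul_one]
  have h1 : w.valuation L (algebraMap (𝓞 L) L x) < 1 :=
    (w.valuation_lt_one_iff_mem (K := L) x).2 hx
  rw [hval w hw] at h1
  have h2 : u.valuation k (c j) < 1 := by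
    by_contra h3
    have h4 : (dn k w).valuation k (c j)⁻¹ ≤ 1 := by
      rw [hw, map_inv₀]
      exact inv_le_one_of_one_le₀ (not_lt.1 h3)
    have h5 := val_le h4
    rw [map_inv₀, map_inv₀] at h5
    have h6 : w.valuation L (algebraMap k L (c j)) ≠ 0 := by
      rw [Ne, Valuation.zero_iff, map_eq_zero]
      exact hg0
    have h7 := (inv_le_one₀ (zero_lt_iff.2 h6)).1 h5
    exact absurd h1 (not_lt.2 h7)
  have h3 : w'.valuation L (algebraMap (𝓞 L) L x) < 1 := by
    rw [hval w' hw']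
    apply val_lt
    rw [hw']
    exact h2
  exact (w'.valuation_lt_one_iff_mem (K := L) x).1 h3

theorem even_unique {k L : Type} [Field k] [NumberField k] [Field L] [NumberField L] [Algebra k L]
    {a b : k} {θ : L} (h : Cub k L a b θ) (w : HeightOneSpectrum (𝓞 L))
    (hN : NoRootAt (dn k w) a b) {x : L} (hx : x ≠ 0) (hs : IsSquare (Algebra.norm k x)) :
    eo w (sc x) = 0 := by
  obtain ⟨c, a', b', hc, ha, hb, ha', hb', hr⟩ := hN
  have h1 := Nq_cub h hc ha hb
  have hU : Pool.Agent.H10.UniqueOver k L (dn k w).asIdeal := by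
    have key : ∀ P : Ideal (𝓞 L), P.IsPrime →
        (dn k w).asIdeal.map (algebraMap (𝓞 k) (𝓞 L)) ≤ P → P = w.asIdeal := by
      intro P hP hle
      have hne : P ≠ ⊥ := by
        rintro rfl
        have h2 : (dn k w).asIdeal.map (algebraMap (𝓞 k) (𝓞 L)) = ⊥ := le_bot_iff.1 hle
        have h3 := (Ideal.map_eq_bot_iff_of_injective
          (FaithfulSMul.algebraMap_injective (𝓞 k) (𝓞 L))).1 h2
        exact (dn k w).ne_bot h3
      have hdn : dn k (⟨P, hP, hne⟩ : HeightOneSpectrum (𝓞 L)) = dn k w := by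
        apply HeightOneSpectrum.ext
        have h4 : (dn k w).asIdeal ≤ P.comap (algebraMap (𝓞 k) (𝓞 L)) :=
          Ideal.map_le_iff_le_comap.1 hle
        have h5 : (P.comap (algebraMap (𝓞 k) (𝓞 L))) ≠ ⊤ := Ideal.comap_ne_top _ hP.ne_top
        exact ((dn k w).isMaximal.eq_of_le h5 h4).symm
      have h6 := Nq_sub h1 ha' hb' hr (w := w) (w' := ⟨P, hP, hne⟩) rfl hdn
      exact (w.isMaximal.eq_of_le hP.ne_top h6).symm
    intro P Q hP hQ hPl hQl
    rw [key P hP hPl, key Q hQ hQl]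
  have hodd : Odd (Module.finrank k L) := by
    rw [h.finrank]
    exact ⟨1, rfl⟩
  have h2 := Pool.Agent.H10.even_of_norm_sq hodd hU (w := w) Ideal.map_comap_le hx hs
  rw [H38T1.eo_sc hx]
  unfold ord
  obtain ⟨n, hn⟩ := h2
  rw [hn]
  have h3 : ((-(n + n) : ℤ) : ZMod 2) = -((n : ZMod 2) + n) := by push_cast; ring
  rw [h3, CharTwo.add_self_eq_zero, neg_zero]

end H73P2

end S_H73_P2_Nq

section S_H73_P2_Nu

set_option autoImplicit false
set_option linter.unusedSectionVars false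
open scoped Classical

open WithZero NumberField IsDedekindDomain H38RT
open H38T1 (SC sc scu rep eo la si Pri OddP tp unif)
open H76PP

namespace H73P2

section Nu

variable {F : Type} [Field F] {V : Valuation F (WithZero (Multiplicative ℤ))}

private theorem Nu_mul_lt {x y : F} (hx : V x < 1) (hy : V y ≤ 1) : V (x * y) < 1 := by
  rw [map_mul]
  calc V x * V y ≤ V x * 1 := mul_le_mul_right hy _
    _ = V x := mul_one _
    _ < 1 := hx

private theorem Nu_mul_le {x y : F} (hx : V x ≤ 1) (hy : V y ≤ 1) : V (x * y) ≤ 1 := by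
  rw [map_mul]
  calc V x * V y ≤ V x * 1 := mul_le_mul_right hy _
    _ = V x := mul_one _
    _ ≤ 1 := hx

private theorem Nu_pow_le {x : F} (hx : V x ≤ 1) : ∀ n : ℕ, V (x ^ n) ≤ 1 := by
  intro n
  induction n with
  | zero => rw [pow_zero, map_one]
  | succ n ih => rw [pow_succ]; exact Nu_mul_le ih hx

private theorem Nu_neg_lt {x : F} (hx : V x < 1) : V (-x) < 1 := by
  rwa [Valuation.map_neg]

private theorem Nu_neg_le {x : F} (hx : V x ≤ 1) : V (-x) ≤ 1 := by
  rwa [Valuation.map_neg]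

private theorem Nu_cub_le {a b t : F} (ha : V a ≤ 1) (hb : V b ≤ 1) (ht : V t ≤ 1) :
    V (t ^ 3 + a * t + b) ≤ 1 :=
  V.map_add_le (V.map_add_le (Nu_pow_le ht 3) (Nu_mul_le ha ht)) hb

/-- changing the argument of the cubic by something small -/
private theorem Nu_close {a b s t : F} (ha : V a ≤ 1) (hs : V s ≤ 1) (ht : V t ≤ 1)
    (hst : V (s - t) < 1) (h : V (t ^ 3 + a * t + b) < 1) : V (s ^ 3 + a * s + b) < 1 := by
  have h1 : s ^ 3 + a * s + b = (s - t) * (s ^ 2 + s * t + t ^ 2 + a) + (t ^ 3 + a * t + b) := by ring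
  rw [h1]
  refine V.map_add_lt (Nu_mul_lt hst ?_) h
  exact V.map_add_le (V.map_add_le (V.map_add_le (Nu_pow_le hs 2) (Nu_mul_le hs ht))
    (Nu_pow_le ht 2)) ha

end Nu

private theorem Nu_quad {F E : Type} [Field F] [Field E] [Algebra F E]
    (h : Module.finrank F E = 2) (u : E) :
    u ^ 2 - algebraMap F E (Algebra.trace F E u) * u + algebraMap F E (Algebra.norm F u) = 0 := by
  haveI : FiniteDimensional F E := Module.finite_of_finrank_pos (by rw [h]; norm_num)
  let b : Module.Basis (Fin 2) F E := Module.finBasisOfFinrankEq F E h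
  apply Algebra.leftMulMatrix_injective b
  have h1 := Matrix.aeval_self_charpoly (Algebra.leftMulMatrix b u)
  rw [Matrix.charpoly_fin_two] at h1
  rw [Algebra.trace_eq_matrix_trace b, Algebra.norm_eq_matrix_det b]
  simp only [map_add, map_sub, map_mul, map_pow, Polynomial.aeval_X, Polynomial.aeval_C,
    AlgHom.commutes, map_zero] at h1 ⊢
  exact h1

private theorem Nu_int_le {k : Type} [Field k] [NumberField k] (u : HeightOneSpectrum (𝓞 k)) {x : k}
    (hx : IsIntegral ℤ x) : u.valuation k x ≤ 1 := by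
  have h1 := u.valuation_le_one (K := k) (⟨x, hx⟩ : 𝓞 k)
  exact h1

theorem NoRootAt.up {k k' : Type} [Field k] [NumberField k] [Field k'] [NumberField k'] [Algebra k k']
    (two : Module.finrank k k' = 2) (u' : HeightOneSpectrum (𝓞 k')) {a b : k}
    (h : NoRootAt (dn k u') a b) : NoRootAt u' (algebraMap k k' a) (algebraMap k k' b) := by
  obtain ⟨c, a', b', hc, ha, hb, ha1, hb1, hroot⟩ := h
  haveI : FiniteDimensional k k' := Module.finite_of_finrank_pos (by rw [two]; norm_num)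
  refine ⟨algebraMap k k' c, algebraMap k k' a', algebraMap k k' b', ?_, ?_, ?_, val_le ha1,
    val_le hb1, ?_⟩
  · exact fun h0 => hc ((algebraMap k k').injective (by rw [h0, map_zero]))
  · rw [ha, map_mul, map_pow]
  · rw [hb, map_mul, map_pow]
  · intro t ht
    by_contra hne
    have hA := val_le (w := u') ha1
    have hB := val_le (w := u') hb1
    have hlt : u'.valuation k' (t ^ 3 + algebraMap k k' a' * t + algebraMap k k' b') < 1 :=
      lt_of_le_of_ne (Nu_cub_le hA hB ht) hne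
    -- no point of `k` can be a root
    have hno : ∀ y : k, (dn k u').valuation k y ≤ 1 →
        ¬ u'.valuation k' ((algebraMap k k' y) ^ 3 + algebraMap k k' a' * algebraMap k k' y +
          algebraMap k k' b') < 1 := by
      intro y hy hlt'
      have h1 := val_one (w := u') (hroot y hy)
      have e : algebraMap k k' (y ^ 3 + a' * y + b') = (algebraMap k k' y) ^ 3 +
          algebraMap k k' a' * algebraMap k k' y + algebraMap k k' b' := by
        simp only [map_add, map_mul, map_pow]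
      rw [e] at h1
      rw [h1] at hlt'
      exact lt_irrefl _ hlt'
    obtain ⟨s, hs⟩ := u'.exists_valuation_sub_lt_of_integer ht 1
    rw [Units.val_one] at hs
    set S : k' := algebraMap (𝓞 k') k' s with hS
    have hS1 : u'.valuation k' S ≤ 1 := u'.valuation_le_one _
    have hfS := Nu_close (b := algebraMap k k' b') hA hS1 ht hs hlt
    have hSint : IsIntegral ℤ S := s.2
    have hTi : IsIntegral ℤ (Algebra.trace k k' S) := Algebra.isIntegral_trace hSint
    have hNi : IsIntegral ℤ (Algebra.norm k S) := Algebra.isIntegral_norm k hSint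
    have hT := Nu_int_le (dn k u') hTi
    have hN := Nu_int_le (dn k u') hNi
    have hq := Nu_quad two S
    set T : k := Algebra.trace k k' S with hTdef
    set N : k := Algebra.norm k S with hNdef
    set r1 : k := T ^ 2 - N + a' with hr1
    set r0 : k := b' - N * T with hr0
    have hr1le : (dn k u').valuation k r1 ≤ 1 := by
      rw [hr1, sub_eq_add_neg]
      exact Valuation.map_add_le _ (Valuation.map_add_le _ (Nu_pow_le hT 2) (Nu_neg_le hN)) ha1
    have hr0le : (dn k u').valuation k r0 ≤ 1 := by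
      rw [hr0, sub_eq_add_neg]
      exact Valuation.map_add_le _ hb1 (Nu_neg_le (Nu_mul_le hN hT))
    have hf : S ^ 3 + algebraMap k k' a' * S + algebraMap k k' b' =
        algebraMap k k' r1 * S + algebraMap k k' r0 := by
      rw [hr1, hr0]
      simp only [map_add, map_sub, map_mul, map_pow]
      linear_combination (S + algebraMap k k' T) * hq
    rw [hf] at hfS
    rcases lt_or_eq_of_le hr1le with hlt1 | heq1
    · -- `r1` is small
      have h1 : u'.valuation k' (algebraMap k k' r1) < 1 := val_lt hlt1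
      have h2 : u'.valuation k' (algebraMap k k' r0) < 1 := by
        have e : algebraMap k k' r0 =
            (algebraMap k k' r1 * S + algebraMap k k' r0) + -(algebraMap k k' r1 * S) := by ring
        rw [e]
        exact Valuation.map_add_lt _ hfS (Nu_neg_lt (Nu_mul_lt h1 hS1))
      apply hno (-T) (Nu_neg_le hT)
      have e : (algebraMap k k' (-T)) ^ 3 + algebraMap k k' a' * algebraMap k k' (-T) +
          algebraMap k k' b' = algebraMap k k' r1 * (-(algebraMap k k' T)) + algebraMap k k' r0 := by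
        rw [hr1, hr0]
        simp only [map_add, map_sub, map_mul, map_pow, map_neg]
        ring
      rw [e]
      exact Valuation.map_add_lt _ (Nu_mul_lt h1 (Nu_neg_le (val_le hT))) h2
    · have hr1ne : r1 ≠ 0 := by
        intro h0
        rw [h0, map_zero] at heq1
        exact zero_ne_one heq1
      have hr1ne' : algebraMap k k' r1 ≠ 0 := fun h0 =>
        hr1ne ((algebraMap k k').injective (by rw [h0, map_zero]))
      have hinv : (dn k u').valuation k r1⁻¹ ≤ 1 := by rw [map_inv₀, heq1, inv_one]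
      have hy : (dn k u').valuation k (-(r0 * r1⁻¹)) ≤ 1 := Nu_neg_le (Nu_mul_le hr0le hinv)
      apply hno _ hy
      have hyS : u'.valuation k' (algebraMap k k' (-(r0 * r1⁻¹)) - S) < 1 := by
        have e : algebraMap k k' (-(r0 * r1⁻¹)) - S =
            -((algebraMap k k' r1 * S + algebraMap k k' r0) * algebraMap k k' r1⁻¹) := by
          rw [map_neg, map_mul, map_inv₀]
          field_simp
          ring
        rw [e]
        exact Nu_neg_lt (Nu_mul_lt hfS (val_le hinv))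
      refine Nu_close hA (val_le hy) hS1 hyS ?_
      rw [hf]
      exact hfS

end H73P2

end S_H73_P2_Nu
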