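import Mathlib
import Pool.Agent.H10.Comp
import Pool.Agent.H10.StarGal
import Pool.Agent.H38.T1.Ea
import Pool.Agent.H76.PN.D1
import Pool.Agent.H76.PN.N1
import Pool.Agent.H76.PN.P1

/-! This file joins several modules to save build time (P2). -/

set_option autoImplicit false

section S_H73_P2_Ua

set_option autoImplicit false
set_option linter.unusedSectionVars false
open scoped Classical

open WithZero NumberField IsDedekindDomain H38RT
open H38T1 (SC sc scu rep eo la si Pri OddP tp unif)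
open H76PP

namespace H73P2

section

variable {K N : Type} [Field K] [NumberField K] [Field N] [NumberField N] [Algebra K N]

private theorem Ua_eq {F : Type} [Field F] {V : Valuation F (WithZero (Multiplicative ℤ))} {x : F}
    (hx : x ≠ 0) : V x = exp (- ord V x) := by
  unfold ord
  rw [neg_neg, exp_log ((Valuation.ne_zero_iff V).2 hx)]

private theorem Ua_unif {F : Type} [Field F] [NumberField F] (v : HeightOneSpectrum (𝓞 F)) :
    ∃ ϖ : F, ϖ ≠ 0 ∧ ord (v.valuation F) ϖ = 1 := by
  obtain ⟨π, hπ⟩ := v.valuation_exists_uniformizer F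
  refine ⟨π, ?_, ?_⟩
  · rintro rfl
    rw [map_zero] at hπ
    exact exp_ne_zero hπ.symm
  · unfold ord
    rw [hπ, log_exp]
    norm_num

theorem unram_ord {V : HeightOneSpectrum (𝓞 N)} (h : ¬ Ram K V) {x : K} (hx : x ≠ 0) :
    ord (V.valuation N) (algebraMap K N x) = ord ((dn K V).valuation K) x := by
  obtain ⟨e, he, h1⟩ := ord_dn (K := K) V
  have h2 : ∃ p ∈ (dn K V).asIdeal, algebraMap (𝓞 K) (𝓞 N) p ∉ V.asIdeal ^ 2 := by
    by_contra hcon
    push Not at hcon
    apply h
    unfold Ram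
    rw [Ideal.map_le_iff_le_comap]
    intro p hp
    exact hcon p hp
  obtain ⟨p, hp, hpV⟩ := h2
  have hp0 : p ≠ 0 := by
    rintro rfl
    apply hpV
    rw [map_zero]
    exact Ideal.zero_mem _
  have hpK : algebraMap (𝓞 K) K p ≠ 0 := by
    intro h3
    exact hp0 (RingOfIntegers.coe_injective (by rw [h3, map_zero]))
  have h3 : (1 : ℤ) ≤ ord ((dn K V).valuation K) (algebraMap (𝓞 K) K p) := by
    have h4 := ((dn K V).valuation_lt_one_iff_mem (K := K) p).2 hp
    rw [Ua_eq hpK, ← exp_zero, exp_lt_exp] at h4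
    omega
  have hpN : algebraMap K N (algebraMap (𝓞 K) K p) ≠ 0 := by
    intro h4
    exact hpK ((algebraMap K N).injective (by rw [h4, map_zero]))
  have h4 : ord (V.valuation N) (algebraMap K N (algebraMap (𝓞 K) K p)) ≤ 1 := by
    by_contra h5
    apply hpV
    rw [← V.intValuation_le_pow_iff_mem, ← HeightOneSpectrum.valuation_of_algebraMap (K := N)]
    change V.valuation N (algebraMap K N (algebraMap (𝓞 K) K p)) ≤ _
    rw [Ua_eq hpN, exp_le_exp]
    push_cast
    omega
  have h5 := h1 _ hpK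
  have h6 : (1 : ℤ) ≤ e := by exact_mod_cast he
  have h7 : (e : ℤ) = 1 := by nlinarith
  rw [h1 x hx, h7, one_mul]

variable {k : Type} [Field k] [NumberField k] [Algebra K k] [Algebra k N] [IsScalarTower K k N]

theorem dn_dn (V : HeightOneSpectrum (𝓞 N)) : dn K (dn k V) = dn K V := by
  apply HeightOneSpectrum.ext
  ext x
  have e1 : algebraMap (𝓞 k) (𝓞 N) (algebraMap (𝓞 K) (𝓞 k) x) = algebraMap (𝓞 K) (𝓞 N) x := by
    apply RingOfIntegers.coe_injective
    change algebraMap k N (algebraMap K k (algebraMap (𝓞 K) K x)) =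
      algebraMap K N (algebraMap (𝓞 K) K x)
    rw [← IsScalarTower.algebraMap_apply]
  change algebraMap (𝓞 k) (𝓞 N) (algebraMap (𝓞 K) (𝓞 k) x) ∈ V.asIdeal ↔
    algebraMap (𝓞 K) (𝓞 N) x ∈ V.asIdeal
  rw [e1]

theorem unram_mid {V : HeightOneSpectrum (𝓞 N)} (h : ¬ Ram K V) :
    (∀ x : k, x ≠ 0 → ord (V.valuation N) (algebraMap k N x) = ord ((dn k V).valuation k) x) ∧
    ∀ x : K, x ≠ 0 → ord ((dn k V).valuation k) (algebraMap K k x) = ord ((dn K V).valuation K) x := by
  obtain ⟨e1, he1, h1⟩ := ord_dn (K := k) V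
  obtain ⟨e2, he2, h2⟩ := ord_dn (K := K) (dn k V)
  rw [dn_dn] at h2
  obtain ⟨ϖ, h0, hϖ⟩ := Ua_unif (dn K V)
  have h0k : algebraMap K k ϖ ≠ 0 := by
    intro h3
    exact h0 ((algebraMap K k).injective (by rw [h3, map_zero]))
  have h3 := unram_ord h h0
  rw [IsScalarTower.algebraMap_apply K k N, h1 _ h0k, h2 _ h0, hϖ, mul_one] at h3
  have h4 : e1 * e2 = 1 := by exact_mod_cast h3
  have h5 : e1 = 1 := Nat.eq_one_of_mul_eq_one_right h4
  have h6 : e2 = 1 := Nat.eq_one_of_mul_eq_one_left h4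
  refine ⟨fun x hx => ?_, fun x hx => ?_⟩
  · rw [h1 x hx, h5]
    push_cast
    ring
  · rw [h2 x hx, h6]
    push_cast
    ring

theorem exists_gen {k' : Type} [Field k'] [NumberField k'] [Algebra k k'] [Algebra k' N]
    [IsScalarTower k k' N] (two : Module.finrank k k' = 2) {V : HeightOneSpectrum (𝓞 N)}
    (h : ∀ x : k, x ≠ 0 → ord (V.valuation N) (algebraMap k N x) = ord ((dn k V).valuation k) x) :
    ∃ (D : k) (ρ : k'), ρ ^ 2 = algebraMap k k' D ∧ (∀ y : k, algebraMap k k' y ≠ ρ) ∧
      (dn k V).valuation k D = 1 := by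
  obtain ⟨D₀, ρ₀, hD, hρ⟩ := exists_gen0 (k := k) (k' := k') two
  have hρ0 : ρ₀ ≠ 0 := fun h1 => hρ 0 (by rw [map_zero, h1])
  have hD0 : D₀ ≠ 0 := by
    rintro rfl
    rw [map_zero] at hD
    exact hρ0 (pow_eq_zero_iff two_ne_zero |>.1 hD)
  have hN0 : algebraMap k' N ρ₀ ≠ 0 := by
    intro h3
    exact hρ0 ((algebraMap k' N).injective (by rw [h3, map_zero]))
  have hk0 : algebraMap k N D₀ ≠ 0 := by
    intro h3
    exact hD0 ((algebraMap k N).injective (by rw [h3, map_zero]))
  obtain ⟨m, hm⟩ : ∃ m : ℤ, ord ((dn k V).valuation k) D₀ = 2 * m := by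
    refine ⟨ord (V.valuation N) (algebraMap k' N ρ₀), ?_⟩
    rw [← h D₀ hD0, IsScalarTower.algebraMap_apply k k' N, ← hD, map_pow]
    unfold ord
    rw [map_pow, log_pow, nsmul_eq_mul]
    push_cast
    ring
  obtain ⟨ϖ, h0, hϖ⟩ := Ua_unif (dn k V)
  have hc0 : ϖ ^ (-m) ≠ 0 := zpow_ne_zero _ h0
  refine ⟨(ϖ ^ (-m)) ^ 2 * D₀, algebraMap k k' (ϖ ^ (-m)) * ρ₀, ?_, ?_, ?_⟩
  · rw [mul_pow, hD, map_mul, map_pow]
  · intro y hy
    apply hρ (y / ϖ ^ (-m))
    rw [map_div₀, hy, mul_comm, mul_div_assoc, div_self, mul_one]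
    intro h3
    exact hc0 ((algebraMap k k').injective (by rw [h3, map_zero]))
  · have h1 : (ϖ ^ (-m)) ^ 2 * D₀ ≠ 0 := mul_ne_zero (pow_ne_zero 2 hc0) hD0
    rw [Ua_eq h1]
    have h2 : ord ((dn k V).valuation k) ((ϖ ^ (-m)) ^ 2 * D₀) = 0 := by
      unfold ord at hm hϖ ⊢
      have g1 : (dn k V).valuation k ϖ ≠ 0 := (Valuation.ne_zero_iff _).2 h0
      have g2 : (dn k V).valuation k D₀ ≠ 0 := (Valuation.ne_zero_iff _).2 hD0
      rw [map_mul, map_pow, map_zpow₀, log_mul (pow_ne_zero 2 (zpow_ne_zero _ g1)) g2, log_pow,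
        log_zpow, nsmul_eq_mul, smul_eq_mul]
      have g3 : ((dn k V).valuation k ϖ).log = -1 := by linarith
      have g4 : ((dn k V).valuation k D₀).log = -(2 * m) := by linarith
      rw [g3, g4]
      push_cast
      ring
    rw [h2, neg_zero, exp_zero]

end

end H73P2

end S_H73_P2_Ua

section S_H73_P2_Ub

set_option autoImplicit false
set_option linter.unusedSectionVars false
open scoped Classical

open WithZero NumberField IsDedekindDomain H38RT
open H38T1 (SC sc scu rep eo la si Pri OddP tp unif)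
open H76PP

namespace H73P2

theorem even_unram {k L k' L' : Type} [Field k] [NumberField k] [Field L] [NumberField L] [Field k']
    [NumberField k'] [Field L'] [NumberField L'] [Algebra k L] [Algebra k k'] [Algebra L L']
    [Algebra k' L'] [Algebra k L'] [IsScalarTower k L L'] [IsScalarTower k k' L'] {a b : k} {θ : L}
    {θ' : L'} (S : QS k L k' L' a b θ θ') (f2 : Module.finrank L L' = 2)
    (w : HeightOneSpectrum (𝓞 L)) (hodd : OddP w) {D : k} {ρ : k'}
    (hρ : ρ ^ 2 = algebraMap k k' D) (hρk : ∀ y : k, algebraMap k k' y ≠ ρ)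
    (hD : (dn k w).valuation k D = 1) {x : L} (hx : x ≠ 0)
    (he : ∀ w' : HeightOneSpectrum (𝓞 L'), dn L w' = w → eo w' (sc (algebraMap L L' x)) = 0) :
    eo w (sc x) = 0 := by
  -- an integral representative of the class of `D`
  obtain ⟨n, ⟨m, hm⟩, hnm⟩ := (dn k w).exists_primeCompl_mul_eq_of_integer D hD.le
  have hnm' : D * algebraMap (𝓞 k) k m = algebraMap (𝓞 k) k n := hnm
  have hm' : m ∉ (dn k w).asIdeal := hm
  have hmem : ∀ z : 𝓞 k, (dn k w).valuation k (z : k) < 1 ↔ z ∈ (dn k w).asIdeal :=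
    fun z => (dn k w).valuation_lt_one_iff_mem z
  have hvm : (dn k w).valuation k (algebraMap (𝓞 k) k m) = 1 :=
    le_antisymm ((dn k w).valuation_le_one m) (not_lt.1 fun h => hm' ((hmem m).1 h))
  have hm0 : algebraMap (𝓞 k) k m ≠ 0 := by
    intro h0
    rw [h0, map_zero] at hvm
    exact zero_ne_one hvm
  obtain ⟨δ, hδ⟩ : ∃ δ : 𝓞 k, algebraMap (𝓞 k) k δ = D * algebraMap (𝓞 k) k m ^ 2 :=
    ⟨n * m, by rw [map_mul, ← hnm']; ring⟩
  have hδu : δ ∉ (dn k w).asIdeal := by
    rw [← hmem]
    change ¬ (dn k w).valuation k (algebraMap (𝓞 k) k δ) < 1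
    rw [hδ, map_mul, map_pow, hD, hvm, one_pow, mul_one]
    exact lt_irrefl _
  have hd2 : (ρ * algebraMap k k' (algebraMap (𝓞 k) k m)) ^ 2 =
      algebraMap k k' (algebraMap (𝓞 k) k δ) := by
    rw [mul_pow, hρ, hδ, map_mul, map_pow]
  have hint : IsIntegral ℤ (ρ * algebraMap k k' (algebraMap (𝓞 k) k m)) := by
    refine IsIntegral.of_pow (n := 2) (by norm_num) ?_
    rw [hd2]
    exact (algebraMap (𝓞 k) (𝓞 k') δ : 𝓞 k').isIntegral_coe
  obtain ⟨d, hdd⟩ : ∃ d : 𝓞 k', (d : k') = ρ * algebraMap k k' (algebraMap (𝓞 k) k m) :=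
    ⟨⟨_, hint⟩, rfl⟩
  have hdK2 : (d : k') ^ 2 = algebraMap k k' (algebraMap (𝓞 k) k δ) := by rw [hdd, hd2]
  have hdK : ∀ y : k, algebraMap k k' y ≠ (d : k') := by
    intro y hy
    apply hρk (y / algebraMap (𝓞 k) k m)
    have hm1 : algebraMap k k' (algebraMap (𝓞 k) k m) ≠ 0 := by rwa [Ne, map_eq_zero]
    rw [map_div₀, hy, hdd, mul_div_assoc, div_self hm1, mul_one]
  have h3 : Module.finrank k L = 3 := S.cub.finrank
  haveI : FiniteDimensional k L := Module.finite_of_finrank_pos (by rw [h3]; norm_num)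
  have hdL := Pool.Agent.H10.Q.notMem_up (L := L) (L2 := L') (by rw [h3]; decide) hdK2 hdK
  obtain ⟨W, hW⟩ := Pool.Agent.H10.Q.exists_above (E := L') w
  have hram : w.asIdeal.ramificationIdx' W.asIdeal = 1 := by
    refine Pool.Agent.H10.Q.ram_one f2 (d := algebraMap (𝓞 k') (𝓞 L') d)
      (δ := algebraMap (𝓞 k) (𝓞 L) δ) ?_ ?_ w W ?_
    · apply RingOfIntegers.coe_injective
      rw [map_pow]
      change (algebraMap k' L' (d : k')) ^ 2 = algebraMap L L' (algebraMap k L (algebraMap (𝓞 k) k δ))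
      rw [← map_pow, hdK2, ← IsScalarTower.algebraMap_apply k L L',
        ← IsScalarTower.algebraMap_apply k k' L']
    · exact hdL
    · intro h
      rcases w.isPrime.mem_or_mem h with h2 | h2
      · have h4 : w.valuation L ((2 : 𝓞 L) : L) < 1 := (w.valuation_lt_one_iff_mem 2).2 h2
        have h5 : ((2 : 𝓞 L) : L) = 2 := map_ofNat (algebraMap (𝓞 L) L) 2
        rw [h5] at h4
        exact absurd hodd h4.ne
      · exact hδu h2
  have h1 := Pool.Agent.H10.Q.val_above w W x
  rw [hram, pow_one] at h1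
  have hdn : dn L W = w := HeightOneSpectrum.ext hW.over.symm
  have h2 := he W hdn
  have hx' : algebraMap L L' x ≠ 0 := by rwa [Ne, map_eq_zero]
  rw [H38T1.eo_sc hx'] at h2
  rw [H38T1.eo_sc hx]
  unfold ord at h2 ⊢
  rw [h1]
  exact h2

end H73P2

end S_H73_P2_Ub

section S_H73_P2_Qs

set_option autoImplicit false
set_option linter.unusedSectionVars false
open scoped Classical

open WithZero NumberField IsDedekindDomain H38RT
open H38T1 (SC sc scu rep eo la si Pri OddP tp unif)
open H76PP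

namespace H73P2

section Ext

variable {K k k' N : Type} [Field K] [NumberField K] [Field k] [NumberField k] [Field k']
  [NumberField k'] [Field N] [NumberField N] [Algebra K k] [Algebra K k'] [Algebra k k']
  [Algebra K N] [Algebra k N] [Algebra k' N] [IsScalarTower K k N] [IsScalarTower K k' N]
  [IsScalarTower k k' N] [IsGalois K N]

theorem ext_of {F : Type} [Field F] (i : K →+* F) (hι : ∃ ι : N →+* F, ∀ x : K,
    ι (algebraMap K N x) = i x) (j : k →+* F) (hj : ∀ x : K, j (algebraMap K k x) = i x) :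
    ∃ j' : k' →+* F, ∀ x : k, j' (algebraMap k k' x) = j x := by
  let _ : Algebra K F := i.toAlgebra
  obtain ⟨ι, hι⟩ := hι
  have _ : FiniteDimensional K N := Module.Finite.of_restrictScalars_finite ℚ K N
  obtain ⟨J, hJ⟩ := exists_ext (K := K) (N := N) (F := F) (k := k) ({ ι with commutes' := hι } :
    N →ₐ[K] F) ({ j with commutes' := hj } : k →ₐ[K] F)
  refine ⟨(J : N →+* F).comp (algebraMap k' N), fun x => ?_⟩
  have h1 : algebraMap k' N (algebraMap k k' x) = algebraMap k N x :=
    (IsScalarTower.algebraMap_apply k k' N x).symm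
  change J (algebraMap k' N (algebraMap k k' x)) = j x
  rw [h1]
  exact hJ x

end Ext

section Dn

variable {K k k' L L' : Type} [Field K] [NumberField K] [Field k] [NumberField k] [Field k']
  [NumberField k'] [Field L] [NumberField L] [Field L'] [NumberField L'] [Algebra K k]
  [Algebra K k'] [Algebra k k'] [Algebra k L] [Algebra L L'] [Algebra k' L'] [Algebra k L']
  [IsScalarTower K k k'] [IsScalarTower k L L'] [IsScalarTower k k' L']

theorem dn_sq (W : HeightOneSpectrum (𝓞 L')) : dn K (dn k (dn L W)) = dn K (dn k' W) := by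
  have h1 : dn k (dn L W) = dn k W := dn_dn W
  have h2 : dn k (dn k' W) = dn k W := dn_dn W
  have h3 : dn K (dn k (dn k' W)) = dn K (dn k' W) := dn_dn (dn k' W)
  rw [h1, ← h2, h3]

theorem eo_conj (σ : L' ≃ₐ[L] L') (W : HeightOneSpectrum (𝓞 L')) : ∃ W' : HeightOneSpectrum (𝓞 L'),
    dn L W' = dn L W ∧ ∀ x : L', x ≠ 0 → eo W (sc (σ x)) = eo W' (sc x) := by
  obtain ⟨W', h1, h2⟩ := Pool.Agent.H10.exists_conj σ W
  refine ⟨W', ?_, fun x hx => ?_⟩
  · apply HeightOneSpectrum.ext
    ext x
    exact h2 x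
  · rw [H38T1.eo_sc hx, H38T1.eo_sc ((map_ne_zero σ).2 hx)]
    have : ord (W.valuation L') (σ x) = ord (W'.valuation L') x := by
      unfold ord
      rw [h1]
    rw [this]

end Dn

section Down

variable {K k L k' L' N : Type} [Field K] [NumberField K] [Field k] [NumberField k] [Field L]
  [NumberField L] [Field k'] [NumberField k'] [Field L'] [NumberField L'] [Field N] [NumberField N]
  [Algebra K k] [Algebra K k'] [Algebra k k'] [Algebra k L] [Algebra L L'] [Algebra k' L']
  [Algebra k L'] [IsScalarTower K k k'] [IsScalarTower k L L'] [IsScalarTower k k' L']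
  [Algebra K N] [Algebra k N] [Algebra k' N] [IsScalarTower K k N] [IsScalarTower K k' N]
  [IsScalarTower k k' N] [IsGalois K N]

theorem rel_down {S : Finset (HeightOneSpectrum (𝓞 K))}
    (h2S : ∀ v : HeightOneSpectrum (𝓞 K), v.valuation K 2 < 1 → v ∈ S) {a b : K}
    (hsplit : ∀ v ∈ S, ∃ ι : N →+* v.adicCompletion K, ∀ x : K,
      ι (algebraMap K N x) = algebraMap K (v.adicCompletion K) x)
    (hreal : ∀ s : K →+* ℝ, 0 < s (4 * a ^ 3 + 27 * b ^ 2) ∨ ∃ s' : N →+* ℝ, ∀ x : K,
      s' (algebraMap K N x) = s x)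
    (hram : ∀ V : HeightOneSpectrum (𝓞 N), dn K V ∉ S → Ram K V → NoRootAt (dn K V) a b)
    (hNR : ∀ u : HeightOneSpectrum (𝓞 k), NoRootAt (dn K u) a b →
      NoRootAt u (algebraMap K k a) (algebraMap K k b))
    {θ : L} {θ' : L'} (Q : QS k L k' L' (algebraMap K k a) (algebraMap K k b) θ θ')
    (f2 : Module.finrank L L' = 2) {e : Fin 3 → k} (hne : ev θ e ≠ 0)
    (hsq : IsSquare (Algebra.norm k (ev θ e)))
    (hev : ∀ w' : HeightOneSpectrum (𝓞 L'), dn K (dn k' w') ∉ S →
      eo w' (sc (algebraMap L L' (ev θ e))) = 0)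
    (hloc : ∀ v ∈ S, LCv K v a b (fun i => algebraMap k k' (e i)))
    (hre : ∀ s : k' →+* ℝ, LC s (algebraMap K k' a) (algebraMap K k' b)
      (fun i => algebraMap k k' (e i))) : Rel K k L S a b θ e := by
  have hab : ∀ x : K, algebraMap K k' x = algebraMap k k' (algebraMap K k x) :=
    IsScalarTower.algebraMap_apply K k k'
  refine ⟨hne, hsq, ?_, ?_, ?_⟩
  · intro w hw
    obtain ⟨V, hV⟩ := exists_above (L := N) (dn k w)
    have hKV : dn K V = dn K (dn k w) := by
      rw [← hV]
      exact (dn_dn V).symm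
    by_cases hr : Ram K V
    · have h1 := hram V (by rw [hKV]; exact hw) hr
      rw [hKV] at h1
      exact even_unique Q.cub w (hNR _ h1) hne hsq
    · obtain ⟨h1, -⟩ := unram_mid (k := k) hr
      obtain ⟨D, ρ, hρ, hρk, hD⟩ := exists_gen (k' := k') Q.two h1
      rw [hV] at hD
      have hodd : OddP w := by
        rw [oddP_dn (K := k)]
        rw [oddP_dn (K := K)]
        unfold OddP
        by_contra hne1
        apply hw
        apply h2S
        refine lt_of_le_of_ne ?_ hne1
        have h2 := (dn K (dn k w)).valuation_le_one (K := K) (2 : 𝓞 K)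
        have h3 : algebraMap (𝓞 K) K 2 = 2 := map_ofNat (algebraMap (𝓞 K) K) 2
        rw [← h3]
        exact h2
      refine even_unram Q f2 w hodd hρ hρk hD hne fun w' hw' => hev w' ?_
      rw [← dn_sq (k := k) (L := L), hw']
      exact hw
  · intro v hv j hj
    obtain ⟨j', hj'⟩ := ext_of (k' := k') (algebraMap K (v.adicCompletion K)) (hsplit v hv) j hj
    have h1 := hloc v hv j' (fun x => by rw [hab, hj', hj])
    unfold LC at h1 ⊢
    simp only [hab, hj'] at h1
    exact h1
  · intro s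
    rcases hreal (s.comp (algebraMap K k)) with h | h
    · refine LC_real s ?_ ?_
      · rw [RingHom.comp_apply] at h
        simpa only [map_add, map_mul, map_pow, map_ofNat] using h
      · have h1 := Te_norm Q.cub e
        rw [← h1]
        obtain ⟨c, hc⟩ := hsq
        have h2 : Algebra.norm k (ev θ e) ≠ 0 := by
          rw [Ne, Algebra.norm_eq_zero_iff]
          exact hne
        rw [hc] at h2 ⊢
        rw [map_mul]
        have h3 : s c ≠ 0 := (map_ne_zero s).2 (left_ne_zero_of_mul h2)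
        exact mul_self_pos.2 h3
    · obtain ⟨s', hs'⟩ := ext_of (k' := k') (s.comp (algebraMap K k)) h s (fun x => rfl)
      have h1 := hre s'
      unfold LC at h1 ⊢
      simp only [hab, hs'] at h1
      exact h1

end Down

section Step

variable {K k k' N : Type} [Field K] [NumberField K] [Field k] [NumberField k] [Field k']
  [NumberField k'] [Field N] [NumberField N] [Algebra K k] [Algebra K k'] [Algebra k k']
  [IsScalarTower K k k'] [Algebra K N] [Algebra k N] [Algebra k' N] [IsScalarTower K k N]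
  [IsScalarTower K k' N] [IsScalarTower k k' N] [IsGalois K N]

theorem lcv_mul {a b : K} (hd : 4 * a ^ 3 + 27 * b ^ 2 ≠ 0) {d₁ d₂ : Fin 3 → k'} (v : HeightOneSpectrum (𝓞 K))
    (h₁ : LCv K v a b d₁) (h₂ : LCv K v a b d₂) :
    LCv K v a b (m3 (algebraMap K k' a) (algebraMap K k' b) d₁ d₂) := by
  intro j hj
  have hc : CharZero (v.adicCompletion K) :=
    charZero_of_injective_algebraMap (algebraMap K (v.adicCompletion K)).injective
  refine LC_mul j ?_ ?_ (h₁ j hj) (h₂ j hj)
  · rw [hj, hj]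
    have h1 := (map_ne_zero (algebraMap K (v.adicCompletion K))).2 hd
    simpa only [map_add, map_mul, map_pow, map_ofNat] using h1
  · exact H24PD.inf_fin v _ _

theorem lcr_mul {a b : K} (hd : 4 * a ^ 3 + 27 * b ^ 2 ≠ 0) {d₁ d₂ : Fin 3 → k'} (s : k' →+* ℝ)
    (h₁ : LC s (algebraMap K k' a) (algebraMap K k' b) d₁)
    (h₂ : LC s (algebraMap K k' a) (algebraMap K k' b) d₂) :
    LC s (algebraMap K k' a) (algebraMap K k' b)
      (m3 (algebraMap K k' a) (algebraMap K k' b) d₁ d₂) := by
  refine LC_mul s ?_ ?_ h₁ h₂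
  · have h1 := (map_ne_zero (s.comp (algebraMap K k'))).2 hd
    simpa only [map_add, map_mul, map_pow, map_ofNat, RingHom.comp_apply] using h1
  · exact H24PD.inf_real _ _

theorem quad_step (two : Module.finrank k k' = 2) {S : Finset (HeightOneSpectrum (𝓞 K))}
    (h2S : ∀ v : HeightOneSpectrum (𝓞 K), v.valuation K 2 < 1 → v ∈ S) {a b : K}
    (hd : 4 * a ^ 3 + 27 * b ^ 2 ≠ 0)
    (hsplit : ∀ v ∈ S, ∃ ι : N →+* v.adicCompletion K, ∀ x : K,
      ι (algebraMap K N x) = algebraMap K (v.adicCompletion K) x)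
    (hreal : ∀ s : K →+* ℝ, 0 < s (4 * a ^ 3 + 27 * b ^ 2) ∨ ∃ s' : N →+* ℝ, ∀ x : K,
      s' (algebraMap K N x) = s x)
    (hram : ∀ V : HeightOneSpectrum (𝓞 N), dn K V ∉ S → Ram K V → NoRootAt (dn K V) a b)
    (hNR : ∀ u : HeightOneSpectrum (𝓞 k), NoRootAt (dn K u) a b →
      NoRootAt u (algebraMap K k a) (algebraMap K k b))
    (hT : ∀ (L : Type) [Field L] [NumberField L] [Algebra k L] (θ : L),
      Cub k L (algebraMap K k a) (algebraMap K k b) θ → RelT K k L S a b θ)
    (L' : Type) [Field L'] [NumberField L'] [Algebra k' L'] (θ' : L')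
    (h' : Cub k' L' (algebraMap K k' a) (algebraMap K k' b) θ') : RelT K k' L' S a b θ' := by
  intro d hR
  have hab : ∀ x : K, algebraMap K k' x = algebraMap k k' (algebraMap K k x) :=
    IsScalarTower.algebraMap_apply K k k'
  let _ : Algebra k L' := ((algebraMap k' L').comp (algebraMap k k')).toAlgebra
  have _ : IsScalarTower k k' L' := IsScalarTower.of_algebraMap_eq fun _ => rfl
  have h'' : Cub k' L' (algebraMap k k' (algebraMap K k a)) (algebraMap k k' (algebraMap K k b)) θ' := by
    rw [← hab, ← hab]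
    exact h'
  obtain ⟨L, _, _, _, _, _, θ, hc, hθ⟩ := exists_sub h''
  have Q : QS k L k' L' (algebraMap K k a) (algebraMap K k b) θ θ' := ⟨two, hc, h'', hθ⟩
  have f2 := Q.fin2
  obtain ⟨τ, σ, hσ, hτ⟩ := Q.sigma f2
  set x : L' := ev θ' d with hx
  have hx0 : x ≠ 0 := hR.ne
  -- the coordinates of an element of `L`
  have hco : ∀ y : L, ev θ (fun i => hc.co i y) = y := fun y => (hc.eq_co y).symm
  have hn0 : Algebra.norm L x ≠ 0 := by
    rw [Ne, Algebra.norm_eq_zero_iff]
    exact hx0
  -- first descent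
  have hsq1 : IsSquare (Algebra.norm L x) := by
    set e : Fin 3 → k := fun i => hc.co i (Algebra.norm L x) with he
    have he1 : ev θ e = Algebra.norm L x := hco _
    have he2 := hτ d e he1
    rw [← he1]
    refine hT L θ hc e (rel_down h2S hsplit hreal hram hNR Q f2 ?_ ?_ ?_ ?_ ?_)
    · rw [he1]
      exact hn0
    · rw [he1]
      exact Q.norm_sq f2 hR.sq
    · intro w' hw'
      rw [he1, hσ, H38T1.sc_mul hx0 ((map_ne_zero σ).2 hx0), H38T1.eo_add, hR.even w' hw', zero_add]
      obtain ⟨W', h1, h2⟩ := eo_conj σ w'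
      rw [h2 x hx0]
      apply hR.even
      rw [← dn_sq (K := K) (k := k) (k' := k') (L := L) W', h1,
        dn_sq (K := K) (k := k) (k' := k') (L := L) w']
      exact hw'
    · intro v hv
      rw [he2, ← hab, ← hab]
      refine lcv_mul hd v (hR.loc v hv) ?_
      intro j hj
      have h1 := hR.loc v hv (j.comp (τ : k' →+* k')) (fun y => by
        change j (τ (algebraMap K k' y)) = _
        rw [hab, τ.commutes, ← hab, hj])
      unfold LC at h1 ⊢
      simp only [RingHom.comp_apply, RingHom.coe_coe, hab, τ.commutes] at h1 ⊢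
      exact h1
    · intro s
      rw [he2, ← hab, ← hab]
      refine lcr_mul hd s (hR.real s) ?_
      have h1 := hR.real (s.comp (τ : k' →+* k'))
      unfold LC at h1 ⊢
      simp only [RingHom.comp_apply, RingHom.coe_coe, hab, τ.commutes] at h1 ⊢
      exact h1
  -- second descent
  obtain ⟨t, z, ht, hz, hxt, hNt⟩ := Q.core f2 hx0 hR.sq hsq1
  have hsq2 : IsSquare t := by
    set e : Fin 3 → k := fun i => hc.co i t with he
    have he1 : ev θ e = t := hco _
    -- the coordinates of the inverse of `z`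
    set u : Fin 3 → k' := fun i => h''.co i z⁻¹ with hu
    have hu1 : ev θ' u = z⁻¹ := (h''.eq_co z⁻¹).symm
    have he2 : (fun i => algebraMap k k' (e i)) = m3 (algebraMap k k' (algebraMap K k a))
        (algebraMap k k' (algebraMap K k b)) d (m3 (algebraMap k k' (algebraMap K k a))
        (algebraMap k k' (algebraMap K k b)) u u) := by
      have h1 : ev θ' (fun i => algebraMap k k' (e i)) = ev θ' (m3 (algebraMap k k' (algebraMap K k a))
        (algebraMap k k' (algebraMap K k b)) d (m3 (algebraMap k k' (algebraMap K k a))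
        (algebraMap k k' (algebraMap K k b)) u u)) := by
        rw [← Q.coord, he1, ← Te_ev_mul h'', ← Te_ev_mul h'', hu1, ← hx, hxt]
        field_simp
      funext i
      have h2 := h''.co_mk (fun i => algebraMap k k' (e i)) i
      have h3 := h''.co_mk (m3 (algebraMap k k' (algebraMap K k a))
        (algebraMap k k' (algebraMap K k b)) d (m3 (algebraMap k k' (algebraMap K k a))
        (algebraMap k k' (algebraMap K k b)) u u)) i
      unfold ev at h1
      rw [← h2, ← h3, h1]
    rw [← he1]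
    refine hT L θ hc e (rel_down h2S hsplit hreal hram hNR Q f2 ?_ ?_ ?_ ?_ ?_)
    · rw [he1]
      exact ht
    · rw [he1]
      exact hNt
    · intro w' hw'
      rw [he1]
      have h1 := hR.even w' hw'
      have htL : algebraMap L L' t ≠ 0 := (map_ne_zero _).2 ht
      rw [← hx, hxt, H38T1.sc_mul htL (pow_ne_zero 2 hz)] at h1
      have h2 : sc (z ^ 2) = (0 : SC L') := (H38T1.sc_eq_zero (pow_ne_zero 2 hz)).2 ⟨z, pow_two z⟩
      rwa [h2, add_zero] at h1
    · intro v hv j hj
      have h1 := LC_sq j u (hR.loc v hv j hj)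
      rw [hab, hab] at h1 ⊢
      rw [he2]
      exact h1
    · intro s
      have h1 := LC_sq s u (hR.real s)
      rw [hab, hab] at h1 ⊢
      rw [he2]
      exact h1
  rw [hxt]
  obtain ⟨c, rfl⟩ := hsq2
  exact ⟨algebraMap L L' c * z, by rw [map_mul]; ring⟩

end Step

end H73P2

end S_H73_P2_Qs

section S_H73_P2_Bs

set_option autoImplicit false
set_option linter.unusedSectionVars false
open scoped Classical

open WithZero NumberField IsDedekindDomain H38RT
open H38T1 (SC sc scu rep eo la si Pri OddP tp unif)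
open H76PP

namespace H73P2

section

variable {K k : Type} [Field K] [NumberField K] [Field k] [NumberField k] [Algebra K k]

private lemma Bs_surj (h1 : Module.finrank K k = 1) : Function.Surjective (algebraMap K k) := by
  rw [Algebra.surjective_algebraMap_iff]
  exact (Subalgebra.bot_eq_top_iff_finrank_eq_one.2 h1).symm

private lemma Bs_LC {F : Type*} [Field F] {a b : K} {d : Fin 3 → K} (j : K →+* F) (j' : k →+* F)
    (hj : ∀ x : K, j' (algebraMap K k x) = j x)
    (h : LC j' (algebraMap K k a) (algebraMap K k b) (fun i => algebraMap K k (d i))) :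
    LC j a b d := by
  obtain ⟨x, y, z, hy, h1, h2⟩ := h
  simp only [hj] at h1 h2
  exact ⟨x, y, z, hy, h1, h2⟩

theorem rel_base (h1 : Module.finrank K k = 1) {S : Finset (HeightOneSpectrum (𝓞 K))} {a b : K}
    (hT : ∀ (L : Type) [Field L] [NumberField L] [Algebra K L] (θ : L), Cub K L a b θ →
      RelT K K L S a b θ)
    (L : Type) [Field L] [NumberField L] [Algebra k L] (θ : L)
    (h : Cub k L (algebraMap K k a) (algebraMap K k b) θ) : RelT K k L S a b θ := by
  have hs := Bs_surj h1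
  have hi : Function.Injective (algebraMap K k) := (algebraMap K k).injective
  letI : Algebra K L := ((algebraMap k L).comp (algebraMap K k)).toAlgebra
  have hal : ∀ x : K, algebraMap K L x = algebraMap k L (algebraMap K k x) := fun _ => rfl
  have hcub : Cub K L a b θ := by
    refine ⟨?_, ?_, ?_⟩
    · rw [hal, hal]
      exact h.root
    · intro c₀ c₁ c₂ hc
      rw [hal, hal, hal] at hc
      obtain ⟨e0, e1, e2⟩ := h.li _ _ _ hc
      exact ⟨(map_eq_zero _).1 e0, (map_eq_zero _).1 e1, (map_eq_zero _).1 e2⟩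
    · intro x
      obtain ⟨c₀, c₁, c₂, hx⟩ := h.sp x
      obtain ⟨d₀, rfl⟩ := hs c₀
      obtain ⟨d₁, rfl⟩ := hs c₁
      obtain ⟨d₂, rfl⟩ := hs c₂
      exact ⟨d₀, d₁, d₂, hx⟩
  intro d hR
  choose d₀ hd₀ using fun i => hs (d i)
  obtain rfl : d = fun i => algebraMap K k (d₀ i) := funext fun i => (hd₀ i).symm
  have hev : ev θ d₀ = ev θ (fun i => algebraMap K k (d₀ i)) := rfl
  have hRel : Rel K K L S a b θ d₀ := by
    refine ⟨?_, ?_, ?_, ?_, ?_⟩
    · rw [hev]
      exact hR.ne
    · rw [Te_norm hcub]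
      have h2 := hR.sq
      rw [Te_norm h, Te_nf_map] at h2
      obtain ⟨r, hr⟩ := h2
      obtain ⟨r₀, rfl⟩ := hs r
      refine ⟨r₀, hi ?_⟩
      rw [hr, map_mul]
    · intro w hw
      rw [hev]
      apply hR.even w
      have h3 : dn K (dn K w) = dn K (dn k w) := by
        apply HeightOneSpectrum.ext
        ext x
        have h4 : algebraMap (𝓞 K) (𝓞 L) (algebraMap (𝓞 K) (𝓞 K) x) =
            algebraMap (𝓞 k) (𝓞 L) (algebraMap (𝓞 K) (𝓞 k) x) := by
          apply RingOfIntegers.coe_injective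
          rfl
        change algebraMap (𝓞 K) (𝓞 L) (algebraMap (𝓞 K) (𝓞 K) x) ∈ w.asIdeal ↔
          algebraMap (𝓞 k) (𝓞 L) (algebraMap (𝓞 K) (𝓞 k) x) ∈ w.asIdeal
        rw [h4]
      rw [← h3]
      exact hw
    · intro v hv j hj
      let e : K ≃+* k := RingEquiv.ofBijective (algebraMap K k) ⟨hi, hs⟩
      let j' : k →+* v.adicCompletion K := j.comp (e.symm : k →+* K)
      have hj' : ∀ x : K, j' (algebraMap K k x) = j x := by
        intro x
        change j (e.symm (e x)) = j x
        rw [RingEquiv.symm_apply_apply]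
      refine Bs_LC (k := k) j j' hj' ?_
      apply hR.loc v hv j'
      intro x
      rw [hj']
      exact hj x
    · intro s
      let e : K ≃+* k := RingEquiv.ofBijective (algebraMap K k) ⟨hi, hs⟩
      let s' : k →+* ℝ := s.comp (e.symm : k →+* K)
      have hs' : ∀ x : K, s' (algebraMap K k x) = s x := by
        intro x
        change s (e.symm (e x)) = s x
        rw [RingEquiv.symm_apply_apply]
      exact Bs_LC (k := k) s s' hs' (hR.real s')
  have h5 := hT L θ hcub d₀ hRel
  rw [hev] at h5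
  exact h5

theorem nr_base (h1 : Module.finrank K k = 1) {a b : K} (u : HeightOneSpectrum (𝓞 k))
    (h : NoRootAt (dn K u) a b) : NoRootAt u (algebraMap K k a) (algebraMap K k b) := by
  have hs := Bs_surj h1
  obtain ⟨c, a', b', hc, ha, hb, ha', hb', ht⟩ := h
  refine ⟨algebraMap K k c, algebraMap K k a', algebraMap K k b', ?_, ?_, ?_, val_le ha', val_le hb', ?_⟩
  · intro h0
    exact hc ((map_eq_zero _).1 h0)
  · rw [ha, map_mul, map_pow]
  · rw [hb, map_mul, map_pow]
  · intro t htu
    obtain ⟨t₀, rfl⟩ := hs t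
    have h2 : (dn K u).valuation K t₀ ≤ 1 := by
      by_contra hcon
      rw [not_le] at hcon
      have h3 : (dn K u).valuation K t₀⁻¹ < 1 := by
        rw [map_inv₀]
        exact inv_lt_one_of_one_lt₀ hcon
      have h4 := val_lt h3
      rw [map_inv₀, map_inv₀] at h4
      have h5 : t₀ ≠ 0 := by
        rintro rfl
        rw [map_zero] at hcon
        exact absurd hcon (not_lt.2 zero_le)
      have h6 : u.valuation k (algebraMap K k t₀) ≠ 0 := by
        rw [Ne, Valuation.zero_iff, map_eq_zero]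
        exact h5
      have h7 : 1 < u.valuation k (algebraMap K k t₀) := (inv_lt_one₀ (zero_lt_iff.2 h6)).1 h4
      exact absurd htu (not_le.2 h7)
    have h3 := val_one (ht t₀ h2)
    have h8 : algebraMap K k (t₀ ^ 3 + a' * t₀ + b') =
        algebraMap K k t₀ ^ 3 + algebraMap K k a' * algebraMap K k t₀ + algebraMap K k b' := by
      simp only [map_add, map_mul, map_pow]
    rw [← h8]
    exact h3

end

end H73P2

end S_H73_P2_Bs

section S_H73_P2_Ch

set_option autoImplicit false
set_option linter.unusedSectionVars false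
open scoped Classical

open WithZero NumberField IsDedekindDomain H38RT
open H38T1 (SC sc scu rep eo la si Pri OddP tp unif)
open H76PP

namespace H73P2

theorem chain {K N : Type} [Field K] [NumberField K] [Field N] [NumberField N] [Algebra K N]
    [IsGalois K N] {r : ℕ} (hr : Module.finrank K N = 2 ^ r) {S : Finset (HeightOneSpectrum (𝓞 K))}
    (h2S : ∀ v : HeightOneSpectrum (𝓞 K), v.valuation K 2 < 1 → v ∈ S) {a b : K}
    (hd : 4 * a ^ 3 + 27 * b ^ 2 ≠ 0)
    (hsplit : ∀ v ∈ S, ∃ ι : N →+* v.adicCompletion K, ∀ x : K,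
      ι (algebraMap K N x) = algebraMap K (v.adicCompletion K) x)
    (hreal : ∀ s : K →+* ℝ, 0 < s (4 * a ^ 3 + 27 * b ^ 2) ∨ ∃ s' : N →+* ℝ, ∀ x : K,
      s' (algebraMap K N x) = s x)
    (hram : ∀ V : HeightOneSpectrum (𝓞 N), dn K V ∉ S → Ram K V → NoRootAt (dn K V) a b)
    (hT : ∀ (L : Type) [Field L] [NumberField L] [Algebra K L] (θ : L), Cub K L a b θ →
      RelT K K L S a b θ) (n : ℕ) :
    ∀ (k : Type) [Field k] [NumberField k] [Algebra K k] [Algebra k N] [IsScalarTower K k N],
      Module.finrank K k = n →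
      (∀ u : HeightOneSpectrum (𝓞 k), NoRootAt (dn K u) a b →
        NoRootAt u (algebraMap K k a) (algebraMap K k b)) ∧
      ∀ (L : Type) [Field L] [NumberField L] [Algebra k L] (θ : L),
        Cub k L (algebraMap K k a) (algebraMap K k b) θ → RelT K k L S a b θ := by
  have _ : FiniteDimensional K N := Module.Finite.of_restrictScalars_finite ℚ K N
  induction n using Nat.strong_induction_on with
  | _ n ih =>
    intro k _ _ _ _ _ hn
    by_cases h1 : Module.finrank K k = 1
    · exact ⟨fun u hu => nr_base h1 u hu, fun L _ _ _ θ h => rel_base h1 hT L θ h⟩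
    · obtain ⟨k₀, hk₀⟩ := exists_half (K := K) (N := N) (k' := k) hr h1
      have _ : FiniteDimensional K k := Module.Finite.of_restrictScalars_finite ℚ K k
      have _ : NumberField k₀ := NumberField.of_module_finite K k₀
      have _ : IsScalarTower k₀ k N := inferInstance
      have _ : IsScalarTower K k₀ N := IsScalarTower.of_algebraMap_eq fun x => by
        rw [IsScalarTower.algebraMap_apply K k N, IsScalarTower.algebraMap_apply K k₀ k]
        rfl
      have hmul := Module.finrank_mul_finrank K k₀ k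
      rw [hk₀] at hmul
      have hpos : 0 < Module.finrank K k₀ := Module.finrank_pos
      obtain ⟨ih1, ih2⟩ := ih (Module.finrank K k₀) (by omega) k₀ rfl
      have hab : ∀ x : K, algebraMap K k x = algebraMap k₀ k (algebraMap K k₀ x) :=
        IsScalarTower.algebraMap_apply K k₀ k
      refine ⟨fun u hu => ?_, fun L _ _ _ θ h =>
        quad_step (N := N) hk₀ h2S hd hsplit hreal hram ih1 ih2 L θ h⟩
      have h2 : dn K (dn k₀ u) = dn K u := dn_dn u
      rw [hab, hab]
      refine NoRootAt.up hk₀ u (ih1 _ ?_)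
      rw [h2]
      exact hu

end H73P2

end S_H73_P2_Ch

section S_H73_P2_Cm

set_option autoImplicit false
set_option linter.unusedSectionVars false
open scoped Classical

open WithZero NumberField IsDedekindDomain H38RT
open H38T1 (SC sc scu rep eo la si Pri OddP tp unif)
open H76PP

namespace H73P2

/-- Integers of `M` have value at most one. -/
lemma Cm_int {M : Type} [Field M] [NumberField M] {Γ : Type} [LinearOrderedCommGroupWithZero Γ]
    (w : Valuation M Γ) (x : 𝓞 M) : w (algebraMap (𝓞 M) M x) ≤ 1 := by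
  have h1 : IsIntegral ℤ (algebraMap (𝓞 M) M x) := x.2
  have h2 : IsIntegral w.valuationSubring (algebraMap (𝓞 M) M x) := h1.tower_top
  obtain ⟨y, hy⟩ := IsIntegrallyClosed.isIntegral_iff.1 h2
  rw [← hy]
  exact y.2

lemma Cm_le_one {K M : Type} [Field K] [NumberField K] [Field M] [NumberField M] [Algebra K M]
    (v : HeightOneSpectrum (𝓞 K)) (j : M →+* v.adicCompletion K)
    (hj : ∀ x : K, j (algebraMap K M x) = algebraMap K (v.adicCompletion K) x) (x : 𝓞 M) :
    Valued.v (j (algebraMap (𝓞 M) M x)) ≤ 1 := by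
  exact Cm_int (Valued.v.comap j) x

lemma Cm_val {K M : Type} [Field K] [NumberField K] [Field M] [NumberField M] [Algebra K M]
    (v : HeightOneSpectrum (𝓞 K)) (j : M →+* v.adicCompletion K)
    (hj : ∀ x : K, j (algebraMap K M x) = algebraMap K (v.adicCompletion K) x) (x : K) :
    Valued.v (j (algebraMap K M x)) = v.valuation K x := by
  have h2 := v.valuedAdicCompletion_eq_valuation' (K := K) x
  change Valued.v (algebraMap K (v.adicCompletion K) x) = _ at h2
  rw [hj, h2]

/-- The ideal of the place of `M`. -/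
noncomputable def Cm_id {K M : Type} [Field K] [NumberField K] [Field M] [NumberField M] [Algebra K M]
    (v : HeightOneSpectrum (𝓞 K)) (j : M →+* v.adicCompletion K)
    (hj : ∀ x : K, j (algebraMap K M x) = algebraMap K (v.adicCompletion K) x) : Ideal (𝓞 M) where
  carrier := {x | Valued.v (j (algebraMap (𝓞 M) M x)) < 1}
  zero_mem' := by
    change Valued.v (j (algebraMap (𝓞 M) M 0)) < 1
    rw [map_zero, map_zero, map_zero]
    exact zero_lt_one
  add_mem' := by
    intro x y hx hy
    change Valued.v (j (algebraMap (𝓞 M) M (x + y))) < 1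
    rw [map_add, map_add]
    exact Valuation.map_add_lt _ hx hy
  smul_mem' := by
    intro c x hx
    change Valued.v (j (algebraMap (𝓞 M) M (c * x))) < 1
    rw [map_mul, map_mul, map_mul]
    exact mul_lt_one_of_nonneg_of_lt_one_right (Cm_le_one v j hj c) zero_le' hx

lemma Cm_mem {K M : Type} [Field K] [NumberField K] [Field M] [NumberField M] [Algebra K M]
    (v : HeightOneSpectrum (𝓞 K)) (j : M →+* v.adicCompletion K)
    (hj : ∀ x : K, j (algebraMap K M x) = algebraMap K (v.adicCompletion K) x) (x : 𝓞 M) :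
    x ∈ Cm_id v j hj ↔ Valued.v (j (algebraMap (𝓞 M) M x)) < 1 := Iff.rfl

/-- The place of `M`. -/
noncomputable def Cm_pl {K M : Type} [Field K] [NumberField K] [Field M] [NumberField M] [Algebra K M]
    (v : HeightOneSpectrum (𝓞 K)) (j : M →+* v.adicCompletion K)
    (hj : ∀ x : K, j (algebraMap K M x) = algebraMap K (v.adicCompletion K) x) :
    HeightOneSpectrum (𝓞 M) where
  asIdeal := Cm_id v j hj
  isPrime := by
    refine Ideal.isPrime_iff.2 ⟨?_, ?_⟩
    · rw [Ne, Ideal.eq_top_iff_one, Cm_mem, map_one, map_one, map_one]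
      exact lt_irrefl _
    · intro x y hxy
      by_contra hh
      rw [not_or, Cm_mem, Cm_mem, not_lt, not_lt] at hh
      have hx : Valued.v (j (algebraMap (𝓞 M) M x)) = 1 := le_antisymm (Cm_le_one v j hj x) hh.1
      have hy : Valued.v (j (algebraMap (𝓞 M) M y)) = 1 := le_antisymm (Cm_le_one v j hj y) hh.2
      rw [Cm_mem, map_mul, map_mul, map_mul, hx, hy, mul_one] at hxy
      exact lt_irrefl _ hxy
  ne_bot := by
    obtain ⟨p, hp, hp0⟩ := Submodule.exists_mem_ne_zero_of_ne_bot v.ne_bot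
    intro hb
    have h1 : algebraMap (𝓞 K) (𝓞 M) p ∈ Cm_id v j hj := by
      rw [Cm_mem, ← IsScalarTower.algebraMap_apply (𝓞 K) (𝓞 M) M,
        IsScalarTower.algebraMap_apply (𝓞 K) K M, Cm_val v j hj]
      exact (v.valuation_lt_one_iff_mem (K := K) p).2 hp
    rw [hb, Ideal.mem_bot] at h1
    exact hp0 ((FaithfulSMul.algebraMap_injective (𝓞 K) (𝓞 M)) (by rw [h1, map_zero]))

lemma Cm_pl_le {K M : Type} [Field K] [NumberField K] [Field M] [NumberField M] [Algebra K M]
    (v : HeightOneSpectrum (𝓞 K)) (j : M →+* v.adicCompletion K)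
    (hj : ∀ x : K, j (algebraMap K M x) = algebraMap K (v.adicCompletion K) x) (x : M)
    (hx : (Cm_pl v j hj).valuation M x ≤ 1) : Valued.v (j x) ≤ 1 := by
  obtain ⟨n, ⟨d, hd⟩, hnd⟩ := HeightOneSpectrum.exists_primeCompl_mul_eq_of_integer (Cm_pl v j hj) x hx
  change ¬ (d ∈ Cm_id v j hj) at hd
  change x * algebraMap (𝓞 M) M d = algebraMap (𝓞 M) M n at hnd
  rw [Cm_mem, not_lt] at hd
  have hd1 : Valued.v (j (algebraMap (𝓞 M) M d)) = 1 := le_antisymm (Cm_le_one v j hj d) hd
  have h := congrArg (fun t => Valued.v (j t)) hnd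
  change Valued.v (j (x * algebraMap (𝓞 M) M d)) = Valued.v (j (algebraMap (𝓞 M) M n)) at h
  rw [map_mul, map_mul, hd1, mul_one] at h
  rw [h]
  exact Cm_le_one v j hj n

lemma Cm_small {K M : Type} [Field K] [NumberField K] [Field M] [NumberField M] [Algebra K M]
    (v : HeightOneSpectrum (𝓞 K)) (j : M →+* v.adicCompletion K)
    (hj : ∀ x : K, j (algebraMap K M x) = algebraMap K (v.adicCompletion K) x) (n : ℕ) :
    ∃ k : ℕ, ∀ x : M, (Cm_pl v j hj).valuation M x ≤ exp (-(k : ℤ)) → Valued.v (j x) ≤ exp (-(n : ℤ)) := by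
  obtain ⟨t, ht⟩ := v.valuation_surjective K (exp (-(n : ℤ)))
  have ht0 : t ≠ 0 := by
    rintro rfl
    rw [map_zero] at ht
    exact exp_ne_zero ht.symm
  have ht1 : algebraMap K M t ≠ 0 := by
    rw [Ne, map_eq_zero]
    exact ht0
  obtain ⟨k, hk⟩ := exists_exp_neg_natCast_lt (x := (Cm_pl v j hj).valuation M (algebraMap K M t))
    (by simpa using ht0)
  refine ⟨k, fun x hx => ?_⟩
  have h1 : (Cm_pl v j hj).valuation M (x / algebraMap K M t) ≤ 1 := by
    rw [map_div₀]
    refine (div_le_one₀ ?_).2 (hx.trans hk.le)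
    exact zero_lt_iff.2 (by simpa using ht0)
  have h2 := Cm_pl_le v j hj _ h1
  rw [map_div₀, map_div₀, Cm_val v j hj, ht] at h2
  exact (div_le_one₀ exp_pos).1 h2

lemma Cm_nhds {K M : Type} [Field K] [NumberField K] [Field M] [NumberField M] [Algebra K M]
    (v : HeightOneSpectrum (𝓞 K)) (j : M →+* v.adicCompletion K)
    (hj : ∀ x : K, j (algebraMap K M x) = algebraMap K (v.adicCompletion K) x) :
    ∀ U ∈ nhds (0 : v.adicCompletion K), ∃ k : ℕ, ∀ x : M,
      (Cm_pl v j hj).valuation M x ≤ exp (-(k : ℤ)) → j x ∈ U := by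
  intro U hU
  rw [Valued.mem_nhds_zero] at hU
  obtain ⟨γ, hγ⟩ := hU
  obtain ⟨n, hn⟩ := exists_exp_neg_natCast_lt
    (x := MonoidWithZeroHom.ValueGroup₀.embedding γ.1) (by simp)
  obtain ⟨k, hk⟩ := Cm_small v j hj n
  refine ⟨k, fun x hx => hγ ?_⟩
  change Valued.v.restrict _ < γ.1
  rw [Valuation.restrict_lt_iff_lt_embedding]
  exact lt_of_le_of_lt (hk x hx) hn

theorem exists_map {K M : Type} [Field K] [NumberField K] [Field M] [NumberField M] [Algebra K M]
    (v : HeightOneSpectrum (𝓞 K)) (j : M →+* v.adicCompletion K)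
    (hj : ∀ x : K, j (algebraMap K M x) = algebraMap K (v.adicCompletion K) x) :
    ∃ (u : HeightOneSpectrum (𝓞 M)) (φ : u.adicCompletion M →+* v.adicCompletion K),
      ∀ x : M, φ (algebraMap M (u.adicCompletion M) x) = j x := by
  exact ⟨Cm_pl v j hj, Pool.Agent.H10.adicLift (Cm_pl v j hj) j
    (Pool.Agent.H10.continuous_fromVal (Cm_pl v j hj) j (Cm_nhds v j hj)),
    fun x => Pool.Agent.H10.adicLift_algebraMap (Cm_pl v j hj) _ _ x⟩

theorem LC_of_places {K M : Type} [Field K] [NumberField K] [Field M] [NumberField M] [Algebra K M]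
    {a b : M} {d : Fin 3 → M}
    (h : ∀ u : HeightOneSpectrum (𝓞 M), LC (algebraMap M (u.adicCompletion M)) a b d)
    (v : HeightOneSpectrum (𝓞 K)) (j : M →+* v.adicCompletion K)
    (hj : ∀ x : K, j (algebraMap K M x) = algebraMap K (v.adicCompletion K) x) : LC j a b d := by
  obtain ⟨u, φ, hφ⟩ := exists_map v j hj
  obtain ⟨x, y, z, hy, hxy, hm⟩ := h u
  refine ⟨φ x, φ y, fun i => φ (z i), ?_, ?_, ?_⟩
  · rw [Ne, map_eq_zero]
    exact hy
  · rw [← hφ a, ← hφ b, ← map_pow, hxy, map_add, map_add, map_mul, map_pow]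
  · have e1 : (fun i => φ ((![x, -1, 0] : Fin 3 → u.adicCompletion M) i)) = ![φ x, -1, 0] := by
      funext i
      fin_cases i <;> simp
    have e2 : (fun i => j (d i)) = fun i => φ (algebraMap M (u.adicCompletion M) (d i)) := by
      funext i
      rw [hφ]
    funext i
    have h1 := Te_m3_map φ (algebraMap M (u.adicCompletion M) a) (algebraMap M (u.adicCompletion M) b)
      (fun i => algebraMap M (u.adicCompletion M) (d i)) ![x, -1, 0] i
    have h2 := Te_m3_map φ (algebraMap M (u.adicCompletion M) a) (algebraMap M (u.adicCompletion M) b)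
      z z i
    rw [e1, hφ, hφ] at h1
    rw [hφ, hφ] at h2
    rw [e2, h1, h2, hm]

end H73P2

end S_H73_P2_Cm

section S_H73_P2_Ev

set_option autoImplicit false
set_option linter.unusedSectionVars false
open scoped Classical

open WithZero NumberField IsDedekindDomain H38RT
open H38T1 (SC sc scu rep eo la si Pri OddP tp unif)
open H76PP

namespace H73P2

/-- The statement of the local version of `ord_sub`. -/
def OrdSub : Prop := ∀ {k L : Type} [Field k] [NumberField k] [Field L] [NumberField L] [Algebra k L]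
    {a b : k} {θ : L}, Cub k L a b θ → ∀ (v : HeightOneSpectrum (𝓞 k)), v.valuation k a ≤ 1 →
    v.valuation k b ≤ 1 → exp (-1 : ℤ) ≤ v.valuation k (4 * a ^ 3 + 27 * b ^ 2) → ∀ {x : k},
    v.valuation k x ≤ 1 → x ^ 3 + a * x + b ≠ 0 →
    ∃ w₁ : HeightOneSpectrum (𝓞 L), dn k w₁ = v ∧
      ord (w₁.valuation L) (algebraMap k L x - θ) = ord (v.valuation k) (x ^ 3 + a * x + b) ∧
      ∀ w : HeightOneSpectrum (𝓞 L), dn k w = v → w ≠ w₁ →
        w.valuation L (algebraMap k L x - θ) = 1

section Ev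

variable {F : Type} [Field F]

theorem Ev_V {V : Valuation F (WithZero (Multiplicative ℤ))} {x : F} (hx : x ≠ 0) :
    V x = exp (- ord V x) := by
  unfold ord
  rw [neg_neg, exp_log ((Valuation.ne_zero_iff V).2 hx)]

theorem Ev_ratio (V : Valuation F (WithZero (Multiplicative ℤ))) {a b : F}
    (hb : b ≠ 0) (h : V (a / b - 1) < 1) : a ≠ 0 ∧ ord V a = ord V b := by
  have h1 : V (a / b) = 1 := by
    have e : a / b = 1 + (a / b - 1) := by ring
    rw [e]
    exact V.map_one_add_of_lt h
  have ha : a ≠ 0 := by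
    rintro rfl
    rw [zero_div, map_zero] at h1
    exact zero_ne_one h1
  refine ⟨ha, ?_⟩
  have e : a = a / b * b := by field_simp
  have h2 : V a = V b := by
    rw [e, map_mul, h1, one_mul]
  unfold ord
  rw [h2]

theorem Ev_ord_one (V : Valuation F (WithZero (Multiplicative ℤ))) {a : F}
    (h : V a = 1) : ord V a = 0 := by
  unfold ord
  rw [h, log_one, neg_zero]

theorem Ev_ord_pow (V : Valuation F (WithZero (Multiplicative ℤ))) (a : F)
    (n : ℕ) : ord V (a ^ n) = n * ord V a := by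
  unfold ord
  rw [map_pow, log_pow, nsmul_eq_mul]
  ring

end Ev

theorem Ev_twist {k L : Type} [Field k] [Field L] [Algebra k L] {A B : k} {θ : L}
    (h : Cub k L A B θ) {D : k} (hD : D ≠ 0) :
    Cub k L (D ^ 2 * A) (D ^ 3 * B) (algebraMap k L D * θ) := by
  have hr := h.root
  have hD' : algebraMap k L D ≠ 0 := (map_ne_zero _).2 hD
  refine ⟨?_, ?_, ?_⟩
  · simp only [map_mul, map_pow]
    linear_combination (algebraMap k L D) ^ 3 * hr
  · intro c₀ c₁ c₂ hc
    have h1 : algebraMap k L c₀ + algebraMap k L (c₁ * D) * θ +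
        algebraMap k L (c₂ * D ^ 2) * θ ^ 2 = 0 := by
      simp only [map_mul, map_pow]
      linear_combination hc
    obtain ⟨h0, h2, h3⟩ := h.li _ _ _ h1
    refine ⟨h0, ?_, ?_⟩
    · exact (mul_eq_zero.1 h2).resolve_right hD
    · exact (mul_eq_zero.1 h3).resolve_right (pow_ne_zero 2 hD)
  · intro x
    obtain ⟨c₀, c₁, c₂, hx⟩ := h.sp x
    refine ⟨c₀, c₁ / D, c₂ / D ^ 2, ?_⟩
    rw [hx]
    simp only [map_div₀, map_pow]
    field_simp

/-- An element with a denominator. -/
theorem Ev_big {k L : Type} [Field k] [NumberField k] [Field L] [NumberField L] [Algebra k L]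
    {a b : k} {θ : L} (hr : θ ^ 3 + algebraMap k L a * θ + algebraMap k L b = 0)
    {w : HeightOneSpectrum (𝓞 L)} (ha : (dn k w).valuation k a ≤ 1)
    (hb : (dn k w).valuation k b ≤ 1) {x : k} (hx : 1 < (dn k w).valuation k x) :
    w.valuation L (algebraMap k L x - θ) = w.valuation L (algebraMap k L x) ∧
    (dn k w).valuation k (x ^ 3 + a * x + b) = (dn k w).valuation k x ^ 3 := by
  have hx0 : x ≠ 0 := by
    rintro rfl
    rw [map_zero] at hx
    exact absurd hx (not_lt.2 zero_le_one)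
  have hxi : (dn k w).valuation k x⁻¹ < 1 := by
    rw [map_inv₀]
    exact inv_lt_one_of_one_lt₀ hx
  have hwi : w.valuation L (algebraMap k L x⁻¹) < 1 := val_lt hxi
  have hwx0 : w.valuation L (algebraMap k L x) ≠ 0 :=
    (Valuation.ne_zero_iff _).2 ((map_ne_zero _).2 hx0)
  have hwx : 1 < w.valuation L (algebraMap k L x) := by
    rw [map_inv₀, map_inv₀] at hwi
    exact (inv_lt_one₀ (zero_lt_iff.2 hwx0)).1 hwi
  have hwa : w.valuation L (algebraMap k L a) ≤ 1 := val_le ha
  have hwb : w.valuation L (algebraMap k L b) ≤ 1 := val_le hb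
  have hwt : w.valuation L θ ≤ 1 := by
    by_contra hcon
    rw [not_le] at hcon
    have h0 : 0 < w.valuation L θ := lt_trans zero_lt_one hcon
    have e1 : θ ^ 3 = -(algebraMap k L a * θ + algebraMap k L b) := by linear_combination hr
    have e2 : w.valuation L θ ^ 3 ≤ w.valuation L θ := by
      rw [← map_pow, e1, Valuation.map_neg]
      refine (w.valuation L).map_add_le ?_ (hwb.trans hcon.le)
      rw [map_mul]
      exact mul_le_of_le_one_left' hwa
    have e3 : w.valuation L θ < w.valuation L θ ^ 3 := by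
      calc w.valuation L θ = w.valuation L θ ^ 1 := (pow_one _).symm
        _ < w.valuation L θ ^ 3 := pow_lt_pow_right₀ hcon (by norm_num)
    exact absurd e2 (not_le.2 e3)
  have h3 : (dn k w).valuation k ((x ^ 3 + a * x + b) / x ^ 3 - 1) < 1 := by
    have e1 : (x ^ 3 + a * x + b) / x ^ 3 - 1 = x⁻¹ * (x⁻¹ * (a + b * x⁻¹)) := by
      field_simp
      ring
    have e2 : (dn k w).valuation k (a + b * x⁻¹) ≤ 1 := by
      refine ((dn k w).valuation k).map_add_le ha ?_
      rw [map_mul]
      exact mul_le_one' hb hxi.le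
    rw [e1, map_mul, map_mul]
    calc _ ≤ (dn k w).valuation k x⁻¹ * 1 := mul_le_mul_right (mul_le_one' hxi.le e2) _
      _ < 1 := by rw [mul_one]; exact hxi
  refine ⟨?_, ?_⟩
  · refine Valuation.map_eq_of_sub_lt _ ?_
    have e1 : algebraMap k L x - θ - algebraMap k L x = -θ := by ring
    rw [e1, Valuation.map_neg]
    exact lt_of_le_of_lt hwt hwx
  · have h4 : (dn k w).valuation k ((x ^ 3 + a * x + b) / x ^ 3) = 1 := by
      have h5 := Valuation.map_eq_of_sub_lt ((dn k w).valuation k) (x := 1)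
        (y := (x ^ 3 + a * x + b) / x ^ 3) (by rw [map_one]; exact h3)
      rw [h5, map_one]
    rw [map_div₀, map_pow] at h4
    have h6 : (dn k w).valuation k x ^ 3 ≠ 0 := pow_ne_zero 3 ((Valuation.ne_zero_iff _).2 hx0)
    exact (div_eq_one_iff_eq h6).1 h4

theorem even_nice (hos : OrdSub) {k L : Type} [Field k] [NumberField k] [Field L] [NumberField L]
    [Algebra k L] {a b : k} {θ : L} (h : Cub k L a b θ) (w : HeightOneSpectrum (𝓞 L))
    (hN : NiceAt (dn k w) a b) {d : Fin 3 → k} (hd : ev θ d ≠ 0)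
    (hLC : LC (algebraMap k ((dn k w).adicCompletion k)) a b d) : eo w (sc (ev θ d)) = 0 := by
  obtain ⟨c, a', b', hc, ha, hb, ha', hb', hD⟩ := hN
  have hc2 : (c ^ 2)⁻¹ ≠ 0 := inv_ne_zero (pow_ne_zero 2 hc)
  have ha2 : ((c ^ 2)⁻¹) ^ 2 * a = a' := by rw [ha]; field_simp
  have hb2 : ((c ^ 2)⁻¹) ^ 3 * b = b' := by rw [hb]; field_simp
  have h1' := Ev_twist h hc2
  rw [ha2, hb2] at h1'
  obtain ⟨θ₁, hθ₁⟩ : ∃ θ₁ : L, θ₁ = algebraMap k L (c ^ 2)⁻¹ * θ := ⟨_, rfl⟩
  rw [← hθ₁] at h1'
  have hcL : algebraMap k L c ≠ 0 := (map_ne_zero _).2 hc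
  have hθ : θ = algebraMap k L c ^ 2 * θ₁ := by
    rw [hθ₁, map_inv₀, map_pow]
    field_simp
  obtain ⟨x', y, z, hy, hz, g1, g2⟩ := LC_approx h hd (dn k w) hLC
  have g2w := g2 w rfl
  obtain ⟨x, rfl⟩ : ∃ x : k, x' = c ^ 2 * x := ⟨x' / c ^ 2, by field_simp⟩
  obtain ⟨h3, h4⟩ := Ev_ratio ((dn k w).valuation k) (pow_ne_zero 2 hy) g1
  obtain ⟨h5, h6⟩ := Ev_ratio (w.valuation L) (pow_ne_zero 2 hz) g2w
  have e1 : (c ^ 2 * x) ^ 3 + a * (c ^ 2 * x) + b = c ^ 6 * (x ^ 3 + a' * x + b') := by
    rw [ha, hb]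
    ring
  have e2 : ev θ d * (algebraMap k L (c ^ 2 * x) - θ) =
      ev θ d * (algebraMap k L c ^ 2 * (algebraMap k L x - θ₁)) := by
    rw [map_mul, map_pow, hθ]
    ring
  rw [e1] at h3 h4
  rw [e2] at h5 h6
  have hf : x ^ 3 + a' * x + b' ≠ 0 := right_ne_zero_of_mul h3
  have hxt : algebraMap k L x - θ₁ ≠ 0 := right_ne_zero_of_mul (right_ne_zero_of_mul h5)
  rw [ord_mul (pow_ne_zero 6 hc) hf, Ev_ord_pow, Ev_ord_pow] at h4
  rw [ord_mul hd (mul_ne_zero (pow_ne_zero 2 hcL) hxt), ord_mul (pow_ne_zero 2 hcL) hxt,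
    Ev_ord_pow, Ev_ord_pow] at h6
  have key : Even (ord (w.valuation L) (algebraMap k L x - θ₁)) := by
    by_cases hx : (dn k w).valuation k x ≤ 1
    · obtain ⟨w₁, -, hw1, hw2⟩ := hos h1' (dn k w) ha' hb' hD hx hf
      by_cases hww : w = w₁
      · rw [hww, hw1]
        refine ⟨ord ((dn k w).valuation k) y - 3 * ord ((dn k w).valuation k) c, ?_⟩
        push_cast at h4
        linarith
      · rw [Ev_ord_one _ (hw2 w rfl hww)]
        exact Even.zero
    · rw [not_le] at hx
      obtain ⟨q1, q2⟩ := Ev_big h1'.root ha' hb' hx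
      have hx0 : x ≠ 0 := by
        rintro rfl
        rw [map_zero] at hx
        exact absurd hx (not_lt.2 zero_le)
      obtain ⟨e, -, he⟩ := ord_dn (K := k) w
      have g5 : ord (w.valuation L) (algebraMap k L x - θ₁) =
          e * ord ((dn k w).valuation k) x := by
        rw [← he x hx0]
        unfold ord
        rw [q1]
      have g6 : ord ((dn k w).valuation k) (x ^ 3 + a' * x + b') =
          3 * ord ((dn k w).valuation k) x := by
        have g7 := Ev_ord_pow ((dn k w).valuation k) x 3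
        rw [Nat.cast_ofNat] at g7
        rw [← g7]
        unfold ord
        rw [q2, map_pow]
      rw [g5]
      refine Even.mul_left ?_ _
      refine ⟨ord ((dn k w).valuation k) y - ord ((dn k w).valuation k) x -
        3 * ord ((dn k w).valuation k) c, ?_⟩
      rw [g6] at h4
      push_cast at h4
      linarith
  rw [H38T1.eo_sc hd]
  obtain ⟨m, hm⟩ := key
  have h7 : ord (w.valuation L) (ev θ d) =
      (ord (w.valuation L) z - m - ord (w.valuation L) (algebraMap k L c)) +
      (ord (w.valuation L) z - m - ord (w.valuation L) (algebraMap k L c)) := by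
    push_cast at h6
    linarith
  rw [h7, Int.cast_add]
  exact CharTwo.add_self_eq_zero _

theorem NiceAt.up {K k : Type} [Field K] [NumberField K] [Field k] [NumberField k] [Algebra K k]
    {u : HeightOneSpectrum (𝓞 k)} (he : ∀ x : K, x ≠ 0 →
      ord (u.valuation k) (algebraMap K k x) = ord ((dn K u).valuation K) x) {a b : K}
    (h : NiceAt (dn K u) a b) : NiceAt u (algebraMap K k a) (algebraMap K k b) := by
  obtain ⟨c, a', b', hc, ha, hb, ha', hb', hD⟩ := h
  refine ⟨algebraMap K k c, algebraMap K k a', algebraMap K k b', (map_ne_zero _).2 hc, ?_, ?_,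
    val_le ha', val_le hb', ?_⟩
  · rw [ha, map_mul, map_pow]
  · rw [hb, map_mul, map_pow]
  · have h0 : 4 * a' ^ 3 + 27 * b' ^ 2 ≠ 0 := by
      intro h0
      rw [h0, map_zero] at hD
      exact absurd (le_zero_iff.1 hD) exp_ne_zero
    have h0' : algebraMap K k (4 * a' ^ 3 + 27 * b' ^ 2) ≠ 0 := (map_ne_zero _).2 h0
    have e1 : 4 * algebraMap K k a' ^ 3 + 27 * algebraMap K k b' ^ 2 =
        algebraMap K k (4 * a' ^ 3 + 27 * b' ^ 2) := by
      simp only [map_add, map_mul, map_pow, map_ofNat]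
    rw [e1, Ev_V h0', he _ h0, ← Ev_V h0]
    exact hD

end H73P2

end S_H73_P2_Ev

section S_H73_P2_Rl

set_option autoImplicit false
set_option linter.unusedSectionVars false
open scoped Classical

open WithZero NumberField IsDedekindDomain H38RT
open H38T1 (SC sc scu rep eo la si Pri OddP tp unif)
open H76PP

namespace H73P2

section

variable {K N : Type} [Field K] [NumberField K] [Field N] [NumberField N] [Algebra K N]
  [IsGalois K N]

/-- The Selmer group over a field between `K` and `N`. -/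
theorem sel_mid (hos : OrdSub) {r : ℕ} (hr : Module.finrank K N = 2 ^ r)
    {S : Finset (HeightOneSpectrum (𝓞 K))}
    (h2S : ∀ v : HeightOneSpectrum (𝓞 K), v.valuation K 2 < 1 → v ∈ S) {a b : K}
    (hd : 4 * a ^ 3 + 27 * b ^ 2 ≠ 0)
    (hnice : ∀ v : HeightOneSpectrum (𝓞 K), v ∉ S → NiceAt v a b)
    (hsplit : ∀ v ∈ S, ∃ ι : N →+* v.adicCompletion K, ∀ x : K,
      ι (algebraMap K N x) = algebraMap K (v.adicCompletion K) x)
    (hreal : ∀ s : K →+* ℝ, 0 < s (4 * a ^ 3 + 27 * b ^ 2) ∨ ∃ s' : N →+* ℝ, ∀ x : K,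
      s' (algebraMap K N x) = s x)
    (hram : ∀ V : HeightOneSpectrum (𝓞 N), dn K V ∉ S → Ram K V → NoRootAt (dn K V) a b)
    (hT : ∀ (L : Type) [Field L] [NumberField L] [Algebra K L] (θ : L), Cub K L a b θ →
      RelT K K L S a b θ)
    (k : Type) [Field k] [NumberField k] [Algebra K k] [Algebra k N] [IsScalarTower K k N]
    (L : Type) [Field L] [NumberField L] [Algebra k L] (θ : L)
    (h : Cub k L (algebraMap K k a) (algebraMap K k b) θ) :
    SelTriv k L (algebraMap K k a) (algebraMap K k b) θ := by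
  obtain ⟨hNR, hRT⟩ := chain hr h2S hd hsplit hreal hram hT _ k rfl
  intro d hd0 hsq hfin hre
  refine hRT L θ h d ⟨hd0, hsq, ?_, ?_, hre⟩
  · intro w hw
    obtain ⟨V, hV⟩ := exists_above (L := N) (dn k w)
    have hKV : dn K V = dn K (dn k w) := by
      rw [← hV]
      exact (dn_dn V).symm
    by_cases hr' : Ram K V
    · have h1 := hram V (by rw [hKV]; exact hw) hr'
      rw [hKV] at h1
      exact even_unique h w (hNR _ h1) hd0 hsq
    · obtain ⟨-, h1⟩ := unram_mid (k := k) hr'
      rw [hV, hKV] at h1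
      exact even_nice hos h w (NiceAt.up h1 (hnice _ hw)) hd0 (hfin _)
  · intro v _ j hj
    exact LC_of_places hfin v j hj

/-- The relative theorem. -/
theorem rel_main (hos : OrdSub) {r : ℕ} (hr : Module.finrank K N = 2 ^ r)
    {S : Finset (HeightOneSpectrum (𝓞 K))}
    (h2S : ∀ v : HeightOneSpectrum (𝓞 K), v.valuation K 2 < 1 → v ∈ S) {a b : K}
    (hd : 4 * a ^ 3 + 27 * b ^ 2 ≠ 0) (hirr : ∀ t : K, t ^ 3 + a * t + b ≠ 0)
    (hnice : ∀ v : HeightOneSpectrum (𝓞 K), v ∉ S → NiceAt v a b)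
    (hsplit : ∀ v ∈ S, ∃ ι : N →+* v.adicCompletion K, ∀ x : K,
      ι (algebraMap K N x) = algebraMap K (v.adicCompletion K) x)
    (hreal : ∀ s : K →+* ℝ, 0 < s (4 * a ^ 3 + 27 * b ^ 2) ∨ ∃ s' : N →+* ℝ, ∀ x : K,
      s' (algebraMap K N x) = s x)
    (hram : ∀ V : HeightOneSpectrum (𝓞 N), dn K V ∉ S → Ram K V → NoRootAt (dn K V) a b)
    (hT : ∀ (L : Type) [Field L] [NumberField L] [Algebra K L] (θ : L), Cub K L a b θ →
      RelT K K L S a b θ)
    (M : IntermediateField K N) [NumberField M] :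
    Finite (⟨0, 0, 0, algebraMap K M a, algebraMap K M b⟩ : WeierstrassCurve M).toAffine.Point ∧
      Pool.Agent.H10.Sha2Trivial M
        (⟨0, 0, 0, algebraMap K M a, algebraMap K M b⟩ : WeierstrassCurve M) := by
  have _ : FiniteDimensional K N := Module.Finite.of_restrictScalars_finite ℚ K N
  obtain ⟨L, _, _, _, θ, hL⟩ := H24PD.exists_cub (K := M)
    (noroot (K := K) (N := N) (k := M) hr hirr)
  exact H24PD.descent hL (sel_mid hos hr h2S hd hnice hsplit hreal hram hT M L θ hL)

end

end H73P2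

end S_H73_P2_Rl
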