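import Mathlib
import Pool.Agent.H10.Pm
import Pool.Agent.H10.Q.Val
import Pool.Agent.H38.T1.Ga
import Pool.Agent.H93.T1.Cf
import Pool.Agent.H76.PN.A5
import Pool.Agent.H76.PN.N1
import Pool.Agent.H76.PN.N2
import Pool.Agent.H76.PN.N5
import Pool.Agent.H76.PN.P1
import Pool.Agent.H76.PN.P2

/-! This file joins several modules to save build time (P3). -/

set_option autoImplicit false

section S_H73_P2_Wa

set_option autoImplicit false
set_option linter.unusedSectionVars false
open scoped Classical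

open WithZero NumberField IsDedekindDomain H38RT
open H38T1 (SC sc scu rep eo la si Pri OddP tp unif)
open H76PP

namespace H73P2

theorem aux_in {K : Type} [Field K] [NumberField K] {Z₀ : Set (HeightOneSpectrum (𝓞 K))}
    (hZ : Z₀.Infinite) {m : Ideal (𝓞 K)} (hm : m ≠ ⊥) :
    ∃ Z : Set (HeightOneSpectrum (𝓞 K)), Z ⊆ Z₀ ∧ Z.Infinite ∧
      (∀ v ∈ Z, ¬ m ≤ v.asIdeal ∧ (6 : 𝓞 K) ∉ v.asIdeal) ∧
      ∀ q ∈ Z, ∀ p ∈ Z, p ≠ q → ∃ D : K, H36MT.AuxR m q p D := by
  have hI : ∀ c : ClassGroup (𝓞 K), ∃ I : (nonZeroDivisors (Ideal (𝓞 K))),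
      ClassGroup.mk0 I = c⁻¹ := fun c => ClassGroup.mk0_surjective c⁻¹
  choose I hI using hI
  have hI0 : ∀ c, (I c : Ideal (𝓞 K)) ≠ ⊥ := fun c => by
    have := nonZeroDivisors.ne_zero (I c).2
    simpa using this
  obtain ⟨N, hN0, hNI⟩ : ∃ N : ℕ, N ≠ 0 ∧ ∀ c, (N : 𝓞 K) ∈ (I c : Ideal (𝓞 K)) := by
    refine ⟨∏ c, Ideal.absNorm (I c : Ideal (𝓞 K)), ?_, ?_⟩
    · refine Finset.prod_ne_zero_iff.2 fun c _ => ?_
      rw [Ne, Ideal.absNorm_eq_zero_iff]
      exact hI0 c
    · intro c
      obtain ⟨k, hk⟩ : Ideal.absNorm (I c : Ideal (𝓞 K)) ∣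
          ∏ c, Ideal.absNorm (I c : Ideal (𝓞 K)) := Finset.dvd_prod_of_mem _ (Finset.mem_univ c)
      rw [hk]
      push_cast
      exact Ideal.mul_mem_right _ _ (Ideal.absNorm_mem _)
  let cl : HeightOneSpectrum (𝓞 K) → ClassGroup (𝓞 K) := fun v =>
    ClassGroup.mk0 ⟨v.asIdeal, mem_nonZeroDivisors_iff_ne_zero.2 v.ne_bot⟩
  have hg : ∀ v : HeightOneSpectrum (𝓞 K), ∃ g : 𝓞 K,
      v.asIdeal * (I (cl v) : Ideal (𝓞 K)) = Ideal.span {g} := by
    intro v
    have h1 : ClassGroup.mk0 (⟨v.asIdeal, mem_nonZeroDivisors_iff_ne_zero.2 v.ne_bot⟩ *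
        I (cl v)) = 1 := by
      rw [map_mul, hI]
      exact mul_inv_cancel _
    rw [ClassGroup.mk0_eq_one_iff] at h1
    obtain ⟨g, hg⟩ := h1.principal
    exact ⟨g, hg⟩
  choose g hg using hg
  have : Finite (K →+* ℝ) := by
    refine Finite.of_injective (fun s : K →+* ℝ => (Complex.ofRealHom.comp s : K →+* ℂ)) ?_
    intro s t hst
    ext x
    have := congrArg (fun f : K →+* ℂ => f x) hst
    simpa using this
  have hNK : (N : 𝓞 K) ≠ 0 := by exact_mod_cast hN0
  have hmN : m * Ideal.span {(N : 𝓞 K)} ≠ ⊥ := by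
    rw [Ne, Ideal.mul_eq_bot, not_or]
    exact ⟨hm, by simpa using hNK⟩
  have : Finite (𝓞 K ⧸ (m * Ideal.span {(N : 𝓞 K)})) :=
    Ideal.finiteQuotientOfFreeOfNeBot _ hmN
  have hfin : {v : HeightOneSpectrum (𝓞 K) | m ≤ v.asIdeal}.Finite := by
    refine (Ideal.finite_factors hm).subset ?_
    intro v hv
    exact Ideal.dvd_iff_le.2 hv
  have h6 : (Ideal.span {(6 : 𝓞 K)}) ≠ ⊥ := by
    rw [Ne, Ideal.span_singleton_eq_bot]
    norm_num
  have hfin6 : {v : HeightOneSpectrum (𝓞 K) | (6 : 𝓞 K) ∈ v.asIdeal}.Finite := by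
    refine (Ideal.finite_factors h6).subset ?_
    intro v hv
    exact Ideal.dvd_iff_le.2 ((Ideal.span_singleton_le_iff_mem _).2 hv)
  have hinf0 : {v : HeightOneSpectrum (𝓞 K) |
      v ∈ Z₀ ∧ ¬ m ≤ v.asIdeal ∧ (6 : 𝓞 K) ∉ v.asIdeal}.Infinite := by
    refine (hZ.sdiff (hfin.union hfin6)).mono ?_
    rintro v ⟨h1, h2⟩
    exact ⟨h1, fun h => h2 (Or.inl h), fun h => h2 (Or.inr h)⟩
  have : Infinite {v : HeightOneSpectrum (𝓞 K) |
      v ∈ Z₀ ∧ ¬ m ≤ v.asIdeal ∧ (6 : 𝓞 K) ∉ v.asIdeal} := hinf0.to_subtype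
  let f : {v : HeightOneSpectrum (𝓞 K) |
      v ∈ Z₀ ∧ ¬ m ≤ v.asIdeal ∧ (6 : 𝓞 K) ∉ v.asIdeal} →
      ClassGroup (𝓞 K) × (𝓞 K ⧸ (m * Ideal.span {(N : 𝓞 K)})) × Set (K →+* ℝ) := fun v =>
    (cl v.1, Ideal.Quotient.mk _ (g v.1), {s | 0 < s (g v.1 : K)})
  obtain ⟨y, hy⟩ := Finite.exists_infinite_fiber f
  have := hy
  refine ⟨Set.range (fun p : f ⁻¹' {y} => p.1.1), ?_, ?_, ?_, ?_⟩
  · rintro _ ⟨p, rfl⟩
    exact p.1.2.1
  · refine Set.infinite_range_of_injective ?_
    intro a b hab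
    exact Subtype.ext (Subtype.ext hab)
  · rintro _ ⟨p, rfl⟩
    exact p.1.2.2
  · rintro _ ⟨q, rfl⟩ _ ⟨p, rfl⟩ hpq
    have hpq' : p.1.1 ≠ q.1.1 := hpq
    have hfe : f p.1 = f q.1 := by
      have h1 : f p.1 = y := p.2
      have h2 : f q.1 = y := q.2
      rw [h1, h2]
    have e1 : cl p.1.1 = cl q.1.1 := congrArg Prod.fst hfe
    have e2 : Ideal.Quotient.mk (m * Ideal.span {(N : 𝓞 K)}) (g p.1.1) =
        Ideal.Quotient.mk _ (g q.1.1) := congrArg (fun z => z.2.1) hfe
    have e3 : {s : K →+* ℝ | 0 < s (g p.1.1 : K)} = {s | 0 < s (g q.1.1 : K)} :=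
      congrArg (fun z => z.2.2) hfe
    have ha := hg p.1.1
    have hb := hg q.1.1
    rw [e1] at ha
    obtain ⟨ha0, hb0, hv1, hv2, hv3⟩ := H36PP.quot_val hpq' (hI0 _) ha hb
    have ha0' : (g p.1.1 : K) ≠ 0 := by
      intro h
      exact ha0 (by exact_mod_cast h)
    have hb0' : (g q.1.1 : K) ≠ 0 := by
      intro h
      exact hb0 (by exact_mod_cast h)
    refine ⟨(g p.1.1 : K) / (g q.1.1 : K), div_ne_zero ha0' hb0', hv1, hv2, hv3, ?_, ?_⟩
    · intro v k hk hv
      refine H36MT.quot_cong q.1.2.2.1 (hI0 _) hb ?_ hk hv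
      have h1 := Ideal.Quotient.eq.1 e2
      have hle : m * Ideal.span {(N : 𝓞 K)} ≤ m * (I (cl q.1.1) : Ideal (𝓞 K)) := by
        refine Ideal.mul_mono_right ?_
        rw [Ideal.span_le, Set.singleton_subset_iff]
        exact hNI _
      exact hle h1
    · intro s
      rw [map_div₀]
      have hsa : s (g p.1.1 : K) ≠ 0 := by
        rw [Ne, map_eq_zero]
        exact ha0'
      have hsb : s (g q.1.1 : K) ≠ 0 := by
        rw [Ne, map_eq_zero]
        exact hb0'
      have hiff : 0 < s (g p.1.1 : K) ↔ 0 < s (g q.1.1 : K) := by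
        have := Set.ext_iff.1 e3 s
        simpa using this
      rcases lt_or_gt_of_ne hsa with h | h
      · have hb' : s (g q.1.1 : K) < 0 := by
          rcases lt_or_gt_of_ne hsb with h' | h'
          · exact h'
          · exact absurd (hiff.2 h') (not_lt.2 h.le)
        exact div_pos_of_neg_of_neg h hb'
      · exact div_pos h (hiff.1 h)

end H73P2

end S_H73_P2_Wa

section S_H73_P2_Wc

set_option autoImplicit false
set_option linter.unusedSectionVars false
open scoped Classical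

open WithZero NumberField IsDedekindDomain H38RT
open H38T1 (SC sc scu rep eo la si Pri OddP tp unif)
open H76PP

namespace H73P2

/-- the algebra structure over the rationals does not matter -/
theorem Wc_gal {L : Type} [Field L] (i j : Algebra ℚ L) (h : @IsGalois ℚ _ L _ i) :
    @IsGalois ℚ _ L _ j := by
  rw [Subsingleton.elim j i]
  exact h

/-- a Galois field with a root -/
theorem Wc_field {K : Type} [Field K] [NumberField K] (a b : K) :
    ∃ (L : Type) (_ : Field L) (_ : NumberField L) (_ : IsGalois ℚ L) (_ : Algebra K L),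
      ∃ θ : L, θ ^ 3 + algebraMap K L a * θ + algebraMap K L b = 0 := by
  have hdeg : (Polynomial.X ^ 3 + Polynomial.C (algebraMap K (AlgebraicClosure K) a) * Polynomial.X +
      Polynomial.C (algebraMap K (AlgebraicClosure K) b)).degree ≠ 0 := by
    have h1 : (Polynomial.X ^ 3 + Polynomial.C (algebraMap K (AlgebraicClosure K) a) * Polynomial.X +
      Polynomial.C (algebraMap K (AlgebraicClosure K) b)).degree = 3 := by
      compute_degree!
    rw [h1]; norm_num
  obtain ⟨θ, hθ⟩ := IsAlgClosed.exists_root _ hdeg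
  simp only [Polynomial.IsRoot.def, Polynomial.eval_add, Polynomial.eval_pow, Polynomial.eval_X,
    Polynomial.eval_mul, Polynomial.eval_C] at hθ
  have hint : IsIntegral K θ := Algebra.IsIntegral.isIntegral θ
  let E : IntermediateField K (AlgebraicClosure K) := IntermediateField.adjoin K {θ}
  have : FiniteDimensional K E := IntermediateField.adjoin.finiteDimensional hint
  have : FiniteDimensional ℚ E := FiniteDimensional.trans ℚ K E
  have hN : Normal ℚ (AlgebraicClosure K) := by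
    have h1 : Algebra.IsAlgebraic ℚ (AlgebraicClosure K) := Algebra.IsAlgebraic.trans ℚ K _
    have h2 : IsAlgClosure ℚ (AlgebraicClosure K) := ⟨inferInstance, h1⟩
    exact IsAlgClosure.normal ℚ (AlgebraicClosure K)
  let L := IntermediateField.normalClosure ℚ E (AlgebraicClosure K)
  have i1 : FiniteDimensional ℚ L := inferInstance
  have i2 : Normal ℚ L := normalClosure.normal ℚ E (AlgebraicClosure K)
  have i3 : NumberField L := ⟨⟩
  have i4 : IsGalois ℚ L := ⟨⟩
  refine ⟨L, inferInstance, i3, Wc_gal _ _ i4, ((algebraMap E L).comp (algebraMap K E)).toAlgebra,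
    algebraMap E L ⟨θ, IntermediateField.mem_adjoin_simple_self K θ⟩, ?_⟩
  apply (algebraMap L (AlgebraicClosure K)).injective
  rw [map_zero, ← hθ, map_add, map_add, map_pow, map_mul]
  rfl


/-- two different primes are not in one prime ideal -/
theorem Wc_coprime {R : Type} [CommRing R] {I : Ideal R} (hI : I ≠ ⊤) {p n : ℕ} (hp : p.Prime)
    (h1 : (p : R) ∈ I) (h2 : (n : R) ∈ I) : p ∣ n := by
  by_contra hpn
  have hc : p.Coprime n := (hp.coprime_iff_not_dvd).2 hpn
  have h3 : IsCoprime (p : ℤ) (n : ℤ) := Nat.isCoprime_iff_coprime.2 hc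
  obtain ⟨x, y, hxy⟩ := h3
  apply hI
  rw [Ideal.eq_top_iff_one]
  have h4 : (x : R) * p + (y : R) * n = 1 := by exact_mod_cast congrArg (Int.cast : ℤ → R) hxy
  rw [← h4]
  exact I.add_mem (I.mul_mem_left _ h1) (I.mul_mem_left _ h2)

/-- it suffices to look at the integers of the field -/
theorem Wc_noroot {K : Type} [Field K] [NumberField K] {a b : K} (m A B : 𝓞 K) (hm : m ≠ 0)
    (hA : (A : K) = (m : K) ^ 4 * a) (hB : (B : K) = (m : K) ^ 6 * b)
    (v : HeightOneSpectrum (𝓞 K)) (h : ∀ t : 𝓞 K, t ^ 3 + A * t + B ∉ v.asIdeal) :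
    NoRootAt v a b := by
  have hm' : (m : K) ≠ 0 := by
    intro h0
    exact hm (RingOfIntegers.coe_eq_zero_iff.1 h0)
  refine ⟨(m : K)⁻¹, A, B, inv_ne_zero hm', ?_, ?_, v.valuation_le_one A, v.valuation_le_one B, ?_⟩
  · rw [hA]; field_simp
  · rw [hB]; field_simp
  · intro t ht
    have hle : v.valuation K (t ^ 3 + A * t + B) ≤ 1 := by
      have hi : t ^ 3 + A * t + B ∈ (v.valuation K).integer := by
        refine Subring.add_mem _ (Subring.add_mem _ (Subring.pow_mem _ ht 3)
          (Subring.mul_mem _ (v.valuation_le_one A) ht)) (v.valuation_le_one B)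
      exact hi
    refine le_antisymm hle (not_lt.1 fun hlt => ?_)
    obtain ⟨s, hs⟩ := v.exists_valuation_sub_lt_of_integer ht 1
    rw [Units.val_one] at hs
    refine h s ?_
    have hs1 : v.valuation K (s : K) ≤ 1 := v.valuation_le_one s
    have e : ((s ^ 3 + A * s + B : 𝓞 K) : K) = (t ^ 3 + A * t + B) +
        ((s : K) - t) * ((s : K) ^ 2 + s * t + t ^ 2 + A) := by
      push_cast; ring
    have h5 : v.valuation K ((s : K) ^ 2 + s * t + t ^ 2 + A) ≤ 1 := by
      have hi : (s : K) ^ 2 + s * t + t ^ 2 + A ∈ (v.valuation K).integer :=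
        Subring.add_mem _ (Subring.add_mem _ (Subring.add_mem _ (Subring.pow_mem _ hs1 2)
          (Subring.mul_mem _ hs1 ht)) (Subring.pow_mem _ ht 2)) (v.valuation_le_one A)
      exact hi
    have h6 : v.valuation K ((s ^ 3 + A * s + B : 𝓞 K) : K) < 1 := by
      rw [e]
      refine lt_of_le_of_lt (Valuation.map_add _ _ _) (max_lt hlt ?_)
      rw [map_mul]
      exact mul_lt_one_of_nonneg_of_lt_one_left (zero_le) hs h5
    exact (v.valuation_lt_one_iff_mem _).1 h6

/-- the argument at one prime ideal -/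
theorem Wc_one {K L : Type} [Field K] [NumberField K] [Field L] [NumberField L] [Algebra K L]
    (A B : 𝓞 K) (σ : L ≃ₐ[K] L)
    (hfix : ∀ θ : L, θ ^ 3 + algebraMap K L A * θ + algebraMap K L B = 0 → σ θ ≠ θ)
    (x : Fin 3 → 𝓞 L) (hsplit : ∀ t : 𝓞 L, t ^ 3 + algebraMap (𝓞 K) (𝓞 L) A * t +
      algebraMap (𝓞 K) (𝓞 L) B = (t - x 0) * (t - x 1) * (t - x 2))
    (w : HeightOneSpectrum (𝓞 L)) {p j : ℕ}
    (hj : j.Coprime (orderOf (σ.restrictScalars ℚ)))
    (hw : ∀ x : 𝓞 L, ((σ.restrictScalars ℚ) ^ j) • x - x ^ p ∈ w.asIdeal)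
    (hδ : (x 0 - x 1) * (x 0 - x 2) * (x 1 - x 2) ∉ w.asIdeal) (t : 𝓞 K) :
    algebraMap (𝓞 K) (𝓞 L) (t ^ 3 + A * t + B) ∉ w.asIdeal := by
  intro hmem
  set τ : L ≃ₐ[ℚ] L := σ.restrictScalars ℚ with hτ
  set s : 𝓞 L := algebraMap (𝓞 K) (𝓞 L) t with hs
  have hsm : ∀ (g : L ≃ₐ[ℚ] L) (y : 𝓞 L), ((g • y : 𝓞 L) : L) = g (y : L) := fun g y => rfl
  -- the powers of `τ` fix `s`
  have hfixs : ∀ n : ℕ, (τ ^ n) • s = s := by
    intro n
    induction n with
    | zero => rw [pow_zero, one_smul]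
    | succ n ih =>
      rw [pow_succ, mul_smul]
      have h1 : τ • s = s := by
        apply RingOfIntegers.ext
        rw [hsm]
        exact σ.commutes (t : K)
      rw [h1, ih]
  have hmem2 : (s - x 0) * (s - x 1) * (s - x 2) ∈ w.asIdeal := by
    rw [← hsplit, hs, ← map_pow, ← map_mul, ← map_add, ← map_add]
    exact hmem
  have hi : ∃ i : Fin 3, s - x i ∈ w.asIdeal := by
    rcases w.isPrime.mem_or_mem hmem2 with h1 | h1
    · rcases w.isPrime.mem_or_mem h1 with h2 | h2
      · exact ⟨0, h2⟩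
      · exact ⟨1, h2⟩
    · exact ⟨2, h1⟩
  obtain ⟨i, hi⟩ := hi
  have h1 : s - s ^ p ∈ w.asIdeal := by
    have := hw s
    rwa [hfixs] at this
  have h2 : (τ ^ j) • x i - x i ^ p ∈ w.asIdeal := hw (x i)
  have h3 : s ^ p - x i ^ p ∈ w.asIdeal := by
    obtain ⟨c, hc⟩ := sub_dvd_pow_sub_pow s (x i) p
    rw [hc]
    exact w.asIdeal.mul_mem_right _ hi
  have h4 : (τ ^ j) • x i - x i ∈ w.asIdeal := by
    have e : (τ ^ j) • x i - x i = ((τ ^ j) • x i - x i ^ p) - (s ^ p - x i ^ p) - (s - s ^ p) +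
        (s - x i) := by ring
    rw [e]
    exact w.asIdeal.add_mem (w.asIdeal.sub_mem (w.asIdeal.sub_mem h2 h3) h1) hi
  -- the image is a root
  have hroots : ∀ k : Fin 3, (x k) ^ 3 + algebraMap (𝓞 K) (𝓞 L) A * x k +
      algebraMap (𝓞 K) (𝓞 L) B = 0 := by
    intro k
    rw [hsplit]
    fin_cases k <;> simp
  have hcomm : ∀ (n : ℕ) (C : 𝓞 K), (τ ^ n) • (algebraMap (𝓞 K) (𝓞 L) C) =
      algebraMap (𝓞 K) (𝓞 L) C := by
    intro n C
    induction n with
    | zero => rw [pow_zero, one_smul]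
    | succ n ih =>
      rw [pow_succ, mul_smul]
      have h1 : τ • (algebraMap (𝓞 K) (𝓞 L) C) = algebraMap (𝓞 K) (𝓞 L) C := by
        apply RingOfIntegers.ext
        rw [hsm]
        exact σ.commutes (C : K)
      rw [h1, ih]
  have hroot' : ((τ ^ j) • x i) ^ 3 + algebraMap (𝓞 K) (𝓞 L) A * ((τ ^ j) • x i) +
      algebraMap (𝓞 K) (𝓞 L) B = 0 := by
    have h5 := congrArg (fun y : 𝓞 L => (τ ^ j) • y) (hroots i)
    simp only [smul_add, smul_mul', smul_pow', smul_zero, hcomm] at h5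
    exact h5
  have hk : ∃ k : Fin 3, (τ ^ j) • x i = x k := by
    rw [hsplit] at hroot'
    rcases mul_eq_zero.1 hroot' with h5 | h5
    · rcases mul_eq_zero.1 h5 with h6 | h6
      · exact ⟨0, sub_eq_zero.1 h6⟩
      · exact ⟨1, sub_eq_zero.1 h6⟩
    · exact ⟨2, sub_eq_zero.1 h5⟩
  obtain ⟨k, hk⟩ := hk
  rw [hk] at h4
  have hki : k = i := by
    by_contra hne
    apply hδ
    have key : ∀ i k : Fin 3, k ≠ i → x k - x i ∈ w.asIdeal →
        (x 0 - x 1) * (x 0 - x 2) * (x 1 - x 2) ∈ w.asIdeal := by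
      intro i k hne h
      have h' : x i - x k ∈ w.asIdeal := by
        rw [← neg_sub]; exact w.asIdeal.neg_mem h
      fin_cases i <;> fin_cases k <;> first
        | exact absurd rfl hne
        | exact w.asIdeal.mul_mem_right _ (w.asIdeal.mul_mem_right _ h)
        | exact w.asIdeal.mul_mem_right _ (w.asIdeal.mul_mem_right _ h')
        | exact w.asIdeal.mul_mem_right _ (w.asIdeal.mul_mem_left _ h)
        | exact w.asIdeal.mul_mem_right _ (w.asIdeal.mul_mem_left _ h')
        | exact w.asIdeal.mul_mem_left _ h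
        | exact w.asIdeal.mul_mem_left _ h'
    exact key i k hne h4
  rw [hki] at hk
  -- so `τ` fixes the root
  obtain ⟨n, hn⟩ := exists_pow_eq_self_of_coprime hj
  have h7 : ∀ n : ℕ, ((τ ^ j) ^ n) • x i = x i := by
    intro n
    induction n with
    | zero => rw [pow_zero, one_smul]
    | succ n ih => rw [pow_succ, mul_smul, hk, ih]
  have h8 : τ • x i = x i := by
    have := h7 n
    rwa [hn] at this
  have h9 : σ ((x i : 𝓞 L) : L) = ((x i : 𝓞 L) : L) := by
    have h10 := congrArg (fun y : 𝓞 L => (y : L)) h8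
    exact h10
  refine hfix _ ?_ h9
  have h11 := congrArg (algebraMap (𝓞 L) L) (hroots i)
  rw [map_add, map_add, map_pow, map_mul, map_zero] at h11
  exact h11

theorem inf_noroot {K : Type} [Field K] [NumberField K] {a b : K}
    (hirr : ∀ t : K, t ^ 3 + a * t + b ≠ 0) :
    {v : HeightOneSpectrum (𝓞 K) | NoRootAt v a b}.Infinite := by
  -- integral coefficients
  obtain ⟨m, A, B, hm, hA, hB⟩ : ∃ m A B : 𝓞 K, m ≠ 0 ∧ (A : K) = (m : K) ^ 4 * a ∧
      (B : K) = (m : K) ^ 6 * b := by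
    obtain ⟨⟨A₁, m₁⟩, h1⟩ := IsLocalization.surj (nonZeroDivisors (𝓞 K)) a
    obtain ⟨⟨B₁, m₂⟩, h2⟩ := IsLocalization.surj (nonZeroDivisors (𝓞 K)) b
    simp only at h1 h2
    refine ⟨m₁ * m₂, m₁ ^ 3 * m₂ ^ 4 * A₁, m₁ ^ 6 * m₂ ^ 5 * B₁, ?_, ?_, ?_⟩
    · exact mul_ne_zero (nonZeroDivisors.ne_zero m₁.2) (nonZeroDivisors.ne_zero m₂.2)
    · change algebraMap (𝓞 K) K _ = (algebraMap (𝓞 K) K _) ^ 4 * a
      rw [map_mul, map_mul, map_mul, map_pow, map_pow, ← h1]; ring
    · change algebraMap (𝓞 K) K _ = (algebraMap (𝓞 K) K _) ^ 6 * b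
      rw [map_mul, map_mul, map_mul, map_pow, map_pow, ← h2]; ring
  have hm' : (m : K) ≠ 0 := fun h0 => hm (RingOfIntegers.coe_eq_zero_iff.1 h0)
  have hirr' : ∀ t : K, t ^ 3 + (A : K) * t + (B : K) ≠ 0 := by
    intro t ht
    apply hirr (t / (m : K) ^ 2)
    rw [hA, hB] at ht
    have h1 : (t / (m : K) ^ 2) ^ 3 + a * (t / (m : K) ^ 2) + b =
        (t ^ 3 + (m : K) ^ 4 * a * t + (m : K) ^ 6 * b) / (m : K) ^ 6 := by
      field_simp
    rw [h1, ht, zero_div]
  -- the field
  obtain ⟨L, _, _, _, _, θ, hθ⟩ := Wc_field (A : K) (B : K)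
  have : FiniteDimensional K L := FiniteDimensional.right ℚ K L
  have : IsGalois K L := IsGalois.tower_top_of_isGalois ℚ K L
  obtain ⟨σ, hσ⟩ := exists_fixfree hirr' ⟨θ, hθ⟩
  -- the three roots
  have hroot2 : (σ θ) ^ 3 + algebraMap K L A * σ θ + algebraMap K L B = 0 := by
    have h1 := congrArg σ hθ
    rw [map_add, map_add, map_pow, map_mul, map_zero, AlgEquiv.commutes, AlgEquiv.commutes] at h1
    exact h1
  have hne : σ θ - θ ≠ 0 := sub_ne_zero.2 (hσ θ hθ)
  have hAe : algebraMap K L A = -(θ ^ 2 + θ * σ θ + (σ θ) ^ 2) := by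
    have h1 : (σ θ - θ) * (θ ^ 2 + θ * σ θ + (σ θ) ^ 2 + algebraMap K L A) = 0 := by
      linear_combination hroot2 - hθ
    rcases mul_eq_zero.1 h1 with h2 | h2
    · exact absurd h2 hne
    · linear_combination h2
  have hBe : algebraMap K L B = θ * σ θ * (θ + σ θ) := by
    rw [hAe] at hθ
    linear_combination hθ
  have hroot3 : (-(θ + σ θ)) ^ 3 + algebraMap K L A * (-(θ + σ θ)) + algebraMap K L B = 0 := by
    rw [hAe, hBe]; ring
  have hsplit : ∀ t : L, t ^ 3 + algebraMap K L A * t + algebraMap K L B =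
      (t - θ) * (t - σ θ) * (t - (-(θ + σ θ))) := by
    intro t
    rw [hAe, hBe]; ring
  have hswap : σ (σ θ) ≠ θ := by
    intro h1
    apply hσ _ hroot3
    rw [map_neg, map_add, h1, add_comm]
  have hss : ∀ t : L, t ^ 3 + algebraMap K L A * t + algebraMap K L B = 0 →
      t = θ ∨ t = σ θ ∨ t = -(θ + σ θ) := by
    intro t ht
    rw [hsplit t, mul_eq_zero, mul_eq_zero, sub_eq_zero, sub_eq_zero, sub_eq_zero] at ht
    tauto
  have hroot22 : (σ (σ θ)) ^ 3 + algebraMap K L A * σ (σ θ) + algebraMap K L B = 0 := by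
    have h1 := congrArg σ hroot2
    rw [map_add, map_add, map_pow, map_mul, map_zero, AlgEquiv.commutes, AlgEquiv.commutes] at h1
    exact h1
  have h33 : σ (σ θ) = -(θ + σ θ) := by
    rcases hss _ hroot22 with h1 | h1 | h1
    · exact absurd h1 hswap
    · exact absurd h1 (hσ _ hroot2)
    · exact h1
  have hne13 : θ - (-(θ + σ θ)) ≠ 0 := by
    rw [← h33]
    exact sub_ne_zero.2 (Ne.symm hswap)
  have hne23 : σ θ - (-(θ + σ θ)) ≠ 0 := by
    rw [← h33]
    exact sub_ne_zero.2 (Ne.symm (hσ _ hroot2))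
  have hne12 : θ - σ θ ≠ 0 := sub_ne_zero.2 (Ne.symm (hσ θ hθ))
  -- the roots are integral
  have hint : ∀ z : L, z ^ 3 + algebraMap K L A * z + algebraMap K L B = 0 → IsIntegral ℤ z := by
    intro z hz
    have h1 : IsIntegral (𝓞 K) z := by
      refine ⟨Polynomial.X ^ 3 + Polynomial.C A * Polynomial.X + Polynomial.C B, by monicity!, ?_⟩
      simp only [Polynomial.eval₂_add, Polynomial.eval₂_mul, Polynomial.eval₂_pow,
        Polynomial.eval₂_X, Polynomial.eval₂_C]
      exact hz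
    exact isIntegral_trans z h1
  let x : Fin 3 → 𝓞 L := ![⟨θ, hint _ hθ⟩, ⟨σ θ, hint _ hroot2⟩, ⟨-(θ + σ θ), hint _ hroot3⟩]
  have hx : ∀ t : 𝓞 L, t ^ 3 + algebraMap (𝓞 K) (𝓞 L) A * t + algebraMap (𝓞 K) (𝓞 L) B =
      (t - x 0) * (t - x 1) * (t - x 2) := by
    intro t
    apply RingOfIntegers.ext
    exact hsplit (t : L)
  set δ : 𝓞 L := (x 0 - x 1) * (x 0 - x 2) * (x 1 - x 2) with hδ
  have hδ0 : δ ≠ 0 := by
    intro h0
    have h1 : (θ - σ θ) * (θ - (-(θ + σ θ))) * (σ θ - (-(θ + σ θ))) = 0 :=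
      congrArg (algebraMap (𝓞 L) L) h0
    exact mul_ne_zero (mul_ne_zero hne12 hne13) hne23 h1
  set n : ℕ := Ideal.absNorm (Ideal.span {δ}) with hn
  have hn0 : n ≠ 0 := by
    rw [hn, Ne, Ideal.absNorm_eq_zero_iff, Ideal.span_singleton_eq_bot]
    exact hδ0
  -- the primes
  have hP := H93T1.frob_inf (σ.restrictScalars ℚ)
  have hfin : {p : ℕ | p ∣ n}.Finite :=
    (Nat.divisors n).finite_toSet.subset fun p hp => by
      simpa using ⟨hp, hn0⟩
  have hP' := hP.sdiff hfin
  intro hT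
  apply hP'
  refine (hT.biUnion (t := fun v => {p : ℕ | p.Prime ∧ (p : 𝓞 K) ∈ v.asIdeal}) fun v _ => ?_).subset
    ?_
  · refine Set.Subsingleton.finite fun p hp q hq => ?_
    exact (Nat.prime_dvd_prime_iff_eq hp.1 hq.1).1 (Wc_coprime v.isPrime.ne_top hp.1 hp.2 hq.2)
  · rintro p ⟨⟨hp, j, w, hj, hpw, hw⟩, hpn⟩
    have hδw : δ ∉ w.asIdeal := by
      intro h1
      apply hpn
      refine Wc_coprime w.isPrime.ne_top hp hpw ?_
      exact (Ideal.span_singleton_le_iff_mem _).2 h1 (Ideal.absNorm_mem (Ideal.span {δ}))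
    have hpv : (p : 𝓞 K) ∈ w.asIdeal.comap (algebraMap (𝓞 K) (𝓞 L)) := by
      rw [Ideal.mem_comap, map_natCast]
      exact hpw
    have hprime : (w.asIdeal.comap (algebraMap (𝓞 K) (𝓞 L))).IsPrime := by
      have := w.isPrime
      exact Ideal.comap_isPrime _ _
    have hbot : w.asIdeal.comap (algebraMap (𝓞 K) (𝓞 L)) ≠ ⊥ := by
      intro h0
      rw [h0, Ideal.mem_bot] at hpv
      exact hp.ne_zero (by exact_mod_cast hpv)
    refine Set.mem_iUnion₂.2 ⟨⟨_, hprime, hbot⟩, ?_, hp, hpv⟩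
    refine Wc_noroot m A B hm hA hB _ fun t ht => ?_
    exact Wc_one A B σ hσ x hx w hj hw hδw t ht

end H73P2

end S_H73_P2_Wc

section S_H73_P2_Wd

set_option autoImplicit false
set_option linter.unusedSectionVars false
open scoped Classical

open WithZero NumberField IsDedekindDomain H38RT
open H38T1 (SC sc scu rep eo la si Pri OddP tp unif)
open H76PP

namespace H73P2

theorem exists_mod {K : Type} [Field K] [NumberField K] (S : Finset (HeightOneSpectrum (𝓞 K))) :
    ∃ m : Ideal (𝓞 K), m ≠ ⊥ ∧ ∀ v ∈ S, ∃ k : ℕ, 0 < k ∧ m ≤ v.asIdeal ^ k ∧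
      exp (-(k : ℤ)) < v.valuation K 4 := by
  have h80 : (8 : 𝓞 K) ≠ 0 := by norm_num
  refine ⟨Ideal.span {8} * ∏ v ∈ S, v.asIdeal, ?_, ?_⟩
  · rw [← Ideal.zero_eq_bot]
    refine mul_ne_zero ?_ (Finset.prod_ne_zero_iff.2 fun v _ => ?_)
    · rw [Ideal.zero_eq_bot, Ne, Ideal.span_singleton_eq_bot]
      exact h80
    · rw [Ideal.zero_eq_bot]
      exact v.ne_bot
  · intro v hv
    obtain ⟨t, ht⟩ : ∃ t : ℤ, v.intValuation (8 : 𝓞 K) = exp t :=
      ⟨_, (exp_log (v.intValuation_ne_zero _ h80)).symm⟩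
    have ht0 : t ≤ 0 := by
      have h := v.intValuation_le_one (8 : 𝓞 K)
      rw [ht, ← exp_zero, exp_le_exp] at h
      exact h
    obtain ⟨j, hj⟩ : ∃ j : ℕ, t = -(j : ℤ) := ⟨(-t).toNat, by omega⟩
    have h8 : (8 : 𝓞 K) ∈ v.asIdeal ^ j := by
      rw [← v.intValuation_le_pow_iff_mem, ht, hj]
    refine ⟨j + 1, Nat.succ_pos j, ?_, ?_⟩
    · rw [pow_succ]
      refine Ideal.mul_mono ?_ (Ideal.le_of_dvd (Finset.dvd_prod_of_mem _ hv))
      rw [Ideal.span_singleton_le_iff_mem]
      exact h8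
    · have e8 : v.valuation K 8 = exp (-(j : ℤ)) := by
        have e : (8 : K) = algebraMap (𝓞 K) K 8 := by rw [map_ofNat]
        rw [e, v.valuation_of_algebraMap, ht, hj]
      have h2 : v.valuation K 2 ≤ 1 := val_two_le v
      have h48 : v.valuation K 8 ≤ v.valuation K 4 := by
        have e1 : (8 : K) = 4 * 2 := by norm_num
        rw [e1, map_mul]
        calc v.valuation K 4 * v.valuation K 2 ≤ v.valuation K 4 * 1 := mul_le_mul_right h2 _
          _ = v.valuation K 4 := mul_one _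
      refine lt_of_lt_of_le ?_ h48
      rw [e8, exp_lt_exp]
      push_cast
      omega

theorem sq_loc {K : Type} [Field K] [NumberField K] {v : HeightOneSpectrum (𝓞 K)} {D : K}
    (h : v.valuation K (D - 1) < v.valuation K 4) :
    ∃ r : v.adicCompletion K, algebraMap K (v.adicCompletion K) D = r ^ 2 := by
  have hval : ∀ k : K, (Valued.v (algebraMap K (v.adicCompletion K) k) :
      WithZero (Multiplicative ℤ)) = v.valuation K k := fun k =>
    HeightOneSpectrum.valuedAdicCompletion_eq_valuation' v k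
  have h20 : (2 : v.adicCompletion K) ≠ 0 := by
    have e : (2 : v.adicCompletion K) = algebraMap K (v.adicCompletion K) 2 := by
      rw [map_ofNat]
    rw [e, Ne, map_eq_zero]
    exact two_ne_zero
  have h4 : (Valued.v (algebraMap K (v.adicCompletion K) (D - 1)) :
      WithZero (Multiplicative ℤ)) < Valued.v (4 : v.adicCompletion K) := by
    have e : (4 : v.adicCompletion K) = algebraMap K (v.adicCompletion K) 4 := by
      rw [map_ofNat]
    rw [e, hval, hval]
    exact h
  obtain ⟨t, ht⟩ := Pool.Agent.H10.isSquare_one_add h20 h4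
  have e3 : 1 + algebraMap K (v.adicCompletion K) (D - 1) =
      algebraMap K (v.adicCompletion K) D := by
    rw [map_sub, map_one]
    ring
  rw [e3] at ht
  exact ⟨t, by rw [ht, sq]⟩

end H73P2

end S_H73_P2_Wd

section S_H73_P2_Wf

set_option autoImplicit false
set_option linter.unusedSectionVars false
open scoped Classical

open WithZero NumberField IsDedekindDomain H38RT
open H38T1 (SC sc scu rep eo la si Pri OddP tp unif)
open H76PP

namespace H73P2

/-- An element of the inertia group fixes the square roots of units at an odd place. -/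
private theorem Wf_fix {K N : Type} [Field K] [NumberField K] [Field N] [NumberField N] [Algebra K N]
    (V : HeightOneSpectrum (𝓞 N)) (hodd : OddP (dn K V)) {D : K}
    (hD : (dn K V).valuation K D = 1) (x : N) (hx : x ^ 2 = algebraMap K N D) (σ : N ≃ₐ[K] N)
    (hσ : ∀ y : 𝓞 N, σ • y - y ∈ V.asIdeal) : σ x = x := by
  have h1 : (σ x) ^ 2 = x ^ 2 := by
    rw [← map_pow, hx, AlgEquiv.commutes]
  rcases sq_eq_sq_iff_eq_or_eq_neg.1 h1 with h2 | h2
  · exact h2
  exfalso
  obtain ⟨n, ⟨d, hd⟩, hnd⟩ := (dn K V).exists_primeCompl_mul_eq_of_integer D hD.le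
  have hnd' : D * algebraMap (𝓞 K) K d = algebraMap (𝓞 K) K n := hnd
  have hd' : algebraMap (𝓞 K) (𝓞 N) d ∉ V.asIdeal := fun h' => hd h'
  have hint : IsIntegral ℤ (x * algebraMap K N (algebraMap (𝓞 K) K d)) := by
    have h3 : (x * algebraMap K N (algebraMap (𝓞 K) K d)) ^ 2 =
        algebraMap (𝓞 N) N (algebraMap (𝓞 K) (𝓞 N) (n * d)) := by
      change _ = algebraMap K N (algebraMap (𝓞 K) K (n * d))
      rw [mul_pow, hx, map_mul, ← hnd', map_mul, map_mul]
      ring
    have h4 : IsIntegral ℤ ((x * algebraMap K N (algebraMap (𝓞 K) K d)) ^ 2) := by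
      rw [h3]
      exact RingOfIntegers.isIntegral_coe _
    exact IsIntegral.of_pow (by norm_num) h4
  let y : 𝓞 N := ⟨x * algebraMap K N (algebraMap (𝓞 K) K d), hint⟩
  have hy : (y : N) = x * algebraMap K N (algebraMap (𝓞 K) K d) := rfl
  have hy2 : y * y = algebraMap (𝓞 K) (𝓞 N) (n * d) := by
    apply RingOfIntegers.coe_injective
    rw [map_mul]
    change (y : N) * (y : N) = algebraMap K N (algebraMap (𝓞 K) K (n * d))
    rw [hy, map_mul, ← hnd', map_mul, map_mul, ← hx]
    ring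
  have hyV : y ∉ V.asIdeal := by
    intro h3
    have h4 : algebraMap (𝓞 K) (𝓞 N) (n * d) ∈ V.asIdeal := by
      rw [← hy2]
      exact Ideal.mul_mem_left _ _ h3
    rw [map_mul] at h4
    rcases V.isPrime.mem_or_mem h4 with h5 | h5
    · have h6 : n ∈ (dn K V).asIdeal := h5
      have h7 : (dn K V).valuation K (algebraMap (𝓞 K) K n) < 1 :=
        ((dn K V).valuation_lt_one_iff_mem (K := K) n).2 h6
      have h8 : (dn K V).valuation K (algebraMap (𝓞 K) K d) = 1 :=
        ((dn K V).valuation_eq_one_iff_notMem (K := K)).2 hd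
      rw [← hnd', map_mul, hD, h8, mul_one] at h7
      exact lt_irrefl _ h7
    · exact hd' h5
  have h2V : (2 : 𝓞 N) ∉ V.asIdeal := by
    intro h3
    have h4 : (2 : 𝓞 K) ∈ (dn K V).asIdeal := by
      change algebraMap (𝓞 K) (𝓞 N) 2 ∈ V.asIdeal
      rw [map_ofNat]
      exact h3
    have h5 : (dn K V).valuation K (algebraMap (𝓞 K) K 2) < 1 :=
      ((dn K V).valuation_lt_one_iff_mem (K := K) 2).2 h4
    have h6 : (dn K V).valuation K 2 = 1 := hodd
    rw [map_ofNat, h6] at h5
    exact lt_irrefl _ h5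
  have hs : σ • y - y = - (2 * y) := by
    apply RingOfIntegers.coe_injective
    rw [map_sub, map_neg, map_mul, map_ofNat]
    have h3 : algebraMap (𝓞 N) N (σ • y) = σ (y : N) := rfl
    have h4 : σ (y : N) = - (y : N) := by
      rw [hy, map_mul, h2, AlgEquiv.commutes]
      ring
    rw [h3, h4]
    ring
  have h3 := hσ y
  rw [hs] at h3
  have h4 : 2 * y ∈ V.asIdeal := by
    have := V.asIdeal.neg_mem h3
    rwa [neg_neg] at this
  rcases V.isPrime.mem_or_mem h4 with h5 | h5
  · exact h2V h5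
  · exact hyV h5

/-- An automorphism of `mq K I` which fixes all the square roots of the elements of `I` is trivial. -/
private theorem Wf_triv {K : Type} [Field K] {I : Set K} (σ : mq K I ≃ₐ[K] mq K I)
    (h : ∀ D ∈ I, ∀ x : mq K I, x ^ 2 = algebraMap K (mq K I) D → σ x = x) : σ = 1 := by
  have h1 : (σ : mq K I →ₐ[K] mq K I) = AlgHom.id K (mq K I) := by
    apply IntermediateField.algHom_ext_of_eq_adjoin K (S := mq K I)
      (s := {x | ∃ D ∈ I, x ^ 2 = algebraMap K (AlgebraicClosure K) D}) rfl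
    rintro x ⟨D, hD, hx⟩
    apply h D hD
    apply Subtype.ext
    exact hx
  apply AlgEquiv.ext
  intro x
  exact DFunLike.congr_fun h1 x

private theorem Wf_inertia {K N : Type} [Field K] [NumberField K] [Field N] [NumberField N]
    [Algebra K N] [IsGalois K N] (V : HeightOneSpectrum (𝓞 N))
    (h : ∀ σ : N ≃ₐ[K] N, (∀ y : 𝓞 N, σ • y - y ∈ V.asIdeal) → σ = 1) : ¬ Ram K V := by
  have hover : V.asIdeal.LiesOver (dn K V).asIdeal := ⟨rfl⟩
  have hmax := (dn K V).isPrime.isMaximal (dn K V).ne_bot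
  have hcard : Nat.card (V.asIdeal.inertia (N ≃ₐ[K] N)) = 1 := by
    rw [Nat.card_eq_one_iff_unique]
    refine ⟨⟨?_⟩, ⟨1⟩⟩
    rintro ⟨a, ha⟩ ⟨b, hb⟩
    apply Subtype.ext
    change a = b
    rw [h a ha, h b hb]
  have hfin : Finite (𝓞 K ⧸ (dn K V).asIdeal) :=
    Ideal.finiteQuotientOfFreeOfNeBot _ (dn K V).ne_bot
  have hperf : PerfectField (dn K V).asIdeal.ResidueField := by
    infer_instance
  have h1 := Ideal.card_inertia_eq_ramificationIdxIn (G := N ≃ₐ[K] N) (dn K V).asIdeal V.asIdeal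
  rw [hcard, Ideal.ramificationIdxIn_eq_ramificationIdx (dn K V).asIdeal V.asIdeal (N ≃ₐ[K] N),
    ← Ideal.ramificationIdx'_eq_ramificationIdx _ _ (dn K V).ne_bot] at h1
  intro hram
  have h2 : (dn K V).asIdeal.map (algebraMap (𝓞 K) (𝓞 N)) ≤ V.asIdeal := by
    rw [Ideal.map_le_iff_le_comap]
    exact le_of_eq hover.over
  exact (Ideal.ramificationIdx'_ne_one_iff h2).2 hram h1.symm

theorem mq_unram {K : Type} [Field K] [NumberField K] {I : Set K} (hI : I.Finite)
    [NumberField (mq K I)] (V : HeightOneSpectrum (𝓞 (mq K I))) (hodd : OddP (dn K V))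
    (hD : ∀ D ∈ I, (dn K V).valuation K D = 1) : ¬ Ram K V := by
  have hgal := (mq_galois hI).2
  apply Wf_inertia V
  intro σ hσ
  apply Wf_triv σ
  intro D hDI x hx
  exact Wf_fix V hodd (hD D hDI) x hx σ hσ

end H73P2

end S_H73_P2_Wf

section S_H73_P2_Wg

set_option autoImplicit false
set_option linter.unusedSectionVars false

open WithZero NumberField IsDedekindDomain

namespace H73P2

theorem mq_fin {K : Type} [Field K] {I : Set K} {M : IntermediateField K (AlgebraicClosure K)}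
    (hM : M ≤ mq K I) [FiniteDimensional K M] : ∃ J : Set K, J ⊆ I ∧ J.Finite ∧ M ≤ mq K J := by
  classical
  set X : Set (AlgebraicClosure K) := {x | ∃ D ∈ I, x ^ 2 = algebraMap K (AlgebraicClosure K) D}
    with hX
  have hmq : mq K I = IntermediateField.adjoin K X := rfl
  have key : ∀ x : M, ∃ T : Finset (AlgebraicClosure K), (T : Set (AlgebraicClosure K)) ⊆ X ∧
      (x : AlgebraicClosure K) ∈ IntermediateField.adjoin K (T : Set (AlgebraicClosure K)) := by
    intro x
    have hx : (x : AlgebraicClosure K) ∈ IntermediateField.adjoin K X := by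
      rw [← hmq]; exact hM x.2
    exact IntermediateField.exists_finset_of_mem_adjoin hx
  choose T hT1 hT2 using key
  let b := Module.finBasis K M
  set U : Finset (AlgebraicClosure K) := Finset.univ.biUnion (fun i => T (b i)) with hU
  have hUX : ∀ u ∈ U, ∃ D : K, D ∈ I ∧ u ^ 2 = algebraMap K (AlgebraicClosure K) D := by
    intro u hu
    rw [hU, Finset.mem_biUnion] at hu
    obtain ⟨i, _, hi⟩ := hu
    obtain ⟨D, hD, hD2⟩ := hT1 (b i) hi
    exact ⟨D, hD, hD2⟩
  choose! d hd1 hd2 using hUX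
  refine ⟨(U.image d : Finset K), ?_, (U.image d).finite_toSet, ?_⟩
  · intro D hD
    rw [Finset.mem_coe, Finset.mem_image] at hD
    obtain ⟨u, hu, rfl⟩ := hD
    exact hd1 u hu
  · have hle : IntermediateField.adjoin K (U : Set (AlgebraicClosure K)) ≤
        mq K ((U.image d : Finset K) : Set K) := by
      unfold mq
      apply IntermediateField.adjoin.mono
      intro u hu
      exact ⟨d u, Finset.mem_coe.2 (Finset.mem_image_of_mem d hu), hd2 u hu⟩
    refine le_trans ?_ hle
    have hb : ∀ i, ((b i : M) : AlgebraicClosure K) ∈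
        IntermediateField.adjoin K (U : Set (AlgebraicClosure K)) := by
      intro i
      have h1 := hT2 (b i)
      refine IntermediateField.adjoin.mono K _ _ ?_ h1
      intro u hu
      rw [Finset.mem_coe, hU, Finset.mem_biUnion]
      exact ⟨i, Finset.mem_univ _, hu⟩
    intro x hx
    have h2 := b.sum_repr ⟨x, hx⟩
    have h3 : x = ∑ i, (b.repr ⟨x, hx⟩ i) • ((b i : M) : AlgebraicClosure K) := by
      have h4 := congrArg M.val h2
      rw [map_sum] at h4
      refine Eq.trans (show x = M.val ⟨x, hx⟩ from rfl) (h4.symm.trans ?_)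
      refine Finset.sum_congr rfl (fun i _ => ?_)
      rw [map_smul]
      rfl
    rw [h3]
    exact sum_mem (fun i _ => IntermediateField.smul_mem _ (hb i))

end H73P2

end S_H73_P2_Wg

section S_H73_P2_Wz

set_option autoImplicit false
set_option linter.unusedSectionVars false
open scoped Classical

open WithZero NumberField IsDedekindDomain H38RT
open H38T1 (SC sc scu rep eo la si Pri OddP tp unif)
open H76PP

namespace H73P2

/-- For an irreducible cubic and a finite set `S` of primes there is an infinite multiquadratic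
extension of `K` whose finite subextensions lie in finite Galois extensions of two-power degree in
which `S` and the real places split completely and which are ramified only at primes modulo which the
cubic has no root. -/
theorem tower {K : Type} [Field K] [NumberField K] (S : Finset (HeightOneSpectrum (𝓞 K)))
    (h2S : ∀ v : HeightOneSpectrum (𝓞 K), v.valuation K 2 < 1 → v ∈ S) {a b : K}
    (hirr : ∀ t : K, t ^ 3 + a * t + b ≠ 0) :
    ∃ I : Set K, ¬ FiniteDimensional K (mq K I) ∧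
      (∀ v ∈ S, ∃ ι : mq K I →+* v.adicCompletion K, ∀ x : K,
        ι (algebraMap K (mq K I) x) = algebraMap K (v.adicCompletion K) x) ∧
      ∀ M : IntermediateField K (AlgebraicClosure K), M ≤ mq K I → FiniteDimensional K M →
        ∃ (N : IntermediateField K (AlgebraicClosure K)) (_ : NumberField N), M ≤ N ∧
          IsGalois K N ∧ (∃ r : ℕ, Module.finrank K N = 2 ^ r) ∧
          (∀ v ∈ S, ∃ ι : N →+* v.adicCompletion K, ∀ x : K,
            ι (algebraMap K N x) = algebraMap K (v.adicCompletion K) x) ∧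
          (∀ s : K →+* ℝ, ∃ s' : N →+* ℝ, ∀ x : K, s' (algebraMap K N x) = s x) ∧
          ∀ V : HeightOneSpectrum (𝓞 N), OddP (dn K V) → Ram K V → NoRootAt (dn K V) a b := by
  obtain ⟨m, hm, hmS⟩ := exists_mod S
  obtain ⟨Z, hZ0, hZ, hZ1, hZ2⟩ := aux_in (inf_noroot hirr) hm
  obtain ⟨q, hq⟩ := hZ.nonempty
  choose! D hD using hZ2 q hq
  set Z' := Z \ {q} with hZ'
  have hZinf : Z'.Infinite := hZ.sdiff (Set.finite_singleton q)
  set I : Set K := D '' Z' with hI
  have hval : ∀ p ∈ Z', ∀ v : HeightOneSpectrum (𝓞 K), v ∉ Z → v.valuation K (D p) = 1 := by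
    intro p hp v hv
    exact (hD p hp.1 hp.2).oth v (fun h => hv (h ▸ hp.1)) (fun h => hv (h ▸ hq))
  have hsqv : ∀ x ∈ I, ∀ v ∈ S, ∃ r : v.adicCompletion K,
      algebraMap K (v.adicCompletion K) x = r ^ 2 := by
    rintro _ ⟨p, hp, rfl⟩ v hv
    obtain ⟨k, hk, hmk, hlt⟩ := hmS v hv
    exact sq_loc (((hD p hp.1 hp.2).cong v k hk hmk).trans_lt hlt)
  have hsqr : ∀ x ∈ I, ∀ s : K →+* ℝ, ∃ r : ℝ, s x = r ^ 2 := by
    rintro _ ⟨p, hp, rfl⟩ s
    exact ⟨Real.sqrt (s (D p)), (Real.sq_sqrt ((hD p hp.1 hp.2).pos s).le).symm⟩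
  have hodd : ∀ v : HeightOneSpectrum (𝓞 K), v ∉ S → OddP v := by
    intro v hv
    unfold OddP
    by_contra hne1
    apply hv
    apply h2S
    refine lt_of_le_of_ne ?_ hne1
    have h2 := v.valuation_le_one (K := K) (2 : 𝓞 K)
    have h3 : algebraMap (𝓞 K) K 2 = 2 := map_ofNat (algebraMap (𝓞 K) K) 2
    rw [← h3]
    exact h2
  refine ⟨I, ?_, fun v hv => mq_embed _ fun x hx => hsqv x hx v hv, ?_⟩
  · intro hfin
    obtain ⟨J, hJI, hJ, hle⟩ := mq_fin (le_refl (mq K I))
    have hFJ := (mq_galois (K := K) hJ).1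
    have _ : NumberField (mq K J) := NumberField.of_module_finite K (mq K J)
    -- the primes of the elements of `J`
    obtain ⟨P, hPZ, hPfin, hPJ⟩ : ∃ P ⊆ Z', P.Finite ∧ D '' P = J := by
      exact Set.exists_subset_image_finite_and.1 ⟨J, hJI, hJ, rfl⟩ |>.imp fun P hP => by
        exact ⟨hP.1, hP.2.1, hP.2.2.symm⟩
    have hS6 : {v : HeightOneSpectrum (𝓞 K) | v ∈ S}.Finite := S.finite_toSet
    obtain ⟨p, hp, hpn⟩ := ((hZinf.sdiff hPfin).sdiff hS6).nonempty
    have hpJ : ∀ x ∈ J, p.valuation K x = 1 := by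
      intro x hx
      rw [← hPJ] at hx
      obtain ⟨p', hp', rfl⟩ := hx
      have h1 := hPZ hp'
      refine (hD p' h1.1 h1.2).oth p (fun h => hp.2 (h ▸ hp')) (fun h => hp.1.2 (by
        rw [h]
        exact Set.mem_singleton _))
    obtain ⟨V, hV⟩ := exists_above (L := mq K J) p
    have hun : ¬ Ram K V := mq_unram hJ V (by rw [hV]; exact hodd p hpn) (by rw [hV]; exact hpJ)
    have hDp := hD p hp.1.1 hp.1.2
    have h1 := unram_ord hun hDp.ne
    rw [hV] at h1
    have h2 : ord (p.valuation K) (D p) = 1 := by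
      unfold ord
      rw [hDp.at_p, log_exp]
      norm_num
    -- the square root
    obtain ⟨x, hx⟩ := IsAlgClosed.exists_pow_nat_eq (algebraMap K (AlgebraicClosure K) (D p))
      (n := 2) (by norm_num)
    have hxI : x ∈ mq K I := IntermediateField.subset_adjoin _ _ ⟨D p, ⟨p, hp.1, rfl⟩, hx⟩
    have hxJ : x ∈ mq K J := hle hxI
    have h3 : algebraMap K (mq K J) (D p) = (⟨x, hxJ⟩ : mq K J) ^ 2 := by
      apply Subtype.ext
      change algebraMap K (AlgebraicClosure K) (D p) = x ^ 2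
      rw [hx]
    have hx0 : (⟨x, hxJ⟩ : mq K J) ≠ 0 := by
      intro h0
      rw [h0, zero_pow two_ne_zero, map_eq_zero] at h3
      exact hDp.ne h3
    rw [h3, h2, pow_two, ord_mul hx0 hx0] at h1
    omega
  · intro M hM hMfin
    obtain ⟨J, hJI, hJ, hle⟩ := mq_fin hM
    obtain ⟨hFJ, hG⟩ := mq_galois (K := K) hJ
    refine ⟨mq K J, NumberField.of_module_finite K (mq K J), hle, hG, mq_deg hJ, ?_, ?_, ?_⟩
    · intro v hv
      exact mq_embed _ fun x hx => hsqv x (hJI hx) v hv
    · intro s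
      exact mq_embed _ fun x hx => hsqr x (hJI hx) s
    · intro V hVS hr
      have _ : NumberField (mq K J) := NumberField.of_module_finite K (mq K J)
      by_contra hno
      refine mq_unram hJ V hVS (fun x hx => ?_) hr
      obtain ⟨p, hp, rfl⟩ := hJI hx
      exact hval p hp _ fun h => hno (hZ0 h)

end H73P2

end S_H73_P2_Wz

section S_H73_P2_Wh

set_option autoImplicit false
set_option linter.unusedSectionVars false

open WithZero NumberField IsDedekindDomain

namespace H73P2

private theorem Wh_Gd_val {F : Type*} [Field F] (A : ValuationSubring F) {l : ℕ} (hl : l.Prime)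
    (h : A.valuation (l : F) < 1) {k : ℤ} (hk : ¬ (l : ℤ) ∣ k) : A.valuation (k : F) = 1 := by
  have hle : ∀ j : ℤ, A.valuation (j : F) ≤ 1 := fun j =>
    (A.valuation_le_one_iff _).2 (intCast_mem A j)
  refine le_antisymm (hle k) (not_lt.1 fun hlt => ?_)
  have hco : IsCoprime (l : ℤ) k := ((Nat.prime_iff_prime_int.1 hl).coprime_iff_not_dvd).2 hk
  obtain ⟨u, v, huv⟩ := hco
  have h1 : A.valuation ((u * (l : ℤ) + v * k : ℤ) : F) < 1 := by
    rw [Int.cast_add, Int.cast_mul, Int.cast_mul, Int.cast_natCast]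
    refine (A.valuation.map_add _ _).trans_lt (max_lt ?_ ?_)
    · rw [map_mul]
      exact (mul_le_of_le_one_left' (hle u)).trans_lt h
    · rw [map_mul]
      exact (mul_le_of_le_one_left' (hle v)).trans_lt hlt
  rw [huv, Int.cast_one, map_one] at h1
  exact lt_irrefl _ h1

private theorem Wh_Gd_valn {F : Type*} [Field F] (A : ValuationSubring F) {l : ℕ} (hl : l.Prime)
    (h : A.valuation (l : F) < 1) (n : ℕ) (hn : n.Coprime l) : A.valuation (n : F) = 1 := by
  have h1 := Wh_Gd_val A hl h (k := (n : ℤ)) (fun hd => by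
    have h2 : l ∣ n := Int.natCast_dvd_natCast.1 hd
    exact (Nat.Prime.coprime_iff_not_dvd hl).1 hn.symm h2)
  rwa [Int.cast_natCast] at h1

private lemma Wh_nhd {F : Type*} [Field F] {Γ₀ : Type*} [LinearOrderedCommGroupWithZero Γ₀]
    [Valued F Γ₀] (x₀ : F) : {y | Valued.v (y - x₀) < 1} ∈ nhds x₀ := by
  rw [Valued.mem_nhds]
  have h' : Valued.v.restrict (1 : F) ≠ 0 := by simp
  exact ⟨Units.mk0 _ h', fun y hy => by
    rw [Set.mem_ofPred_eq, Units.val_mk0] at hy
    have h1 := Valued.v.restrict_lt_iff.mp hy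
    rwa [map_one] at h1⟩

section

variable {K : Type} [Field K] [NumberField K] {F : Type} [Field F] [Algebra K F]
  {v : HeightOneSpectrum (𝓞 K)}

private lemma Wh_le (ι : F →+* v.adicCompletion K) (x : F) :
    ((v.adicCompletionIntegers K).comap ι).valuation x ≤ 1 ↔ Valued.v (ι x) ≤ 1 := by
  rw [ValuationSubring.valuation_le_one_iff, ValuationSubring.mem_comap,
    HeightOneSpectrum.mem_adicCompletionIntegers]

private lemma Wh_lt (ι : F →+* v.adicCompletion K) (x : F) :
    ((v.adicCompletionIntegers K).comap ι).valuation x < 1 ↔ Valued.v (ι x) < 1 := by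
  rw [← ValuationSubring.mem_nonunits_iff, ValuationSubring.mem_nonunits_iff_or,
    ValuationSubring.mem_comap, HeightOneSpectrum.notMem_adicCompletionIntegers, map_inv₀,
    map_inv₀]
  by_cases hx : x = 0
  · simp [hx]
  · have h1 : Valued.v (ι x) ≠ 0 := by
      rw [Valuation.ne_zero_iff, Ne, map_eq_zero]
      exact hx
    rw [or_iff_right hx, one_lt_inv₀ (zero_lt_iff.2 h1)]

private lemma Wh_eq (ι : F →+* v.adicCompletion K) (x : F) :
    ((v.adicCompletionIntegers K).comap ι).valuation x = 1 ↔ Valued.v (ι x) = 1 := by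
  have h1 := Wh_le ι x
  have h2 := Wh_lt ι x
  constructor
  · intro h
    exact le_antisymm (h1.1 h.le) (not_lt.1 fun h' => (h2.2 h').ne h)
  · intro h
    exact le_antisymm (h1.2 h.le) (not_lt.1 fun h' => (h2.1 h').ne h)

private lemma Wh_alg {ι : F →+* v.adicCompletion K}
    (hι : ∀ x : K, ι (algebraMap K F x) = algebraMap K (v.adicCompletion K) x) (x : K) :
    Valued.v (ι (algebraMap K F x)) = v.valuation K x := by
  rw [hι]
  exact HeightOneSpectrum.valuedAdicCompletion_eq_valuation' v x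

private lemma Wh_fin {ι : F →+* v.adicCompletion K}
    (hι : ∀ x : K, ι (algebraMap K F x) = algebraMap K (v.adicCompletion K) x) :
    Finite (IsLocalRing.ResidueField ((v.adicCompletionIntegers K).comap ι)) := by
  obtain ⟨R, hR⟩ : ∃ R, R = (v.adicCompletionIntegers K).comap ι := ⟨_, rfl⟩
  rw [← hR]
  have hlt : ∀ z : F, R.valuation z < 1 ↔ Valued.v (ι z) < 1 := by
    rw [hR]
    exact Wh_lt ι
  have hmem : ∀ a : 𝓞 K, ((algebraMap K F).comp (algebraMap (𝓞 K) K)) a ∈ R := by
    intro a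
    rw [hR, ← ValuationSubring.valuation_le_one_iff, Wh_le, RingHom.comp_apply, Wh_alg hι]
    exact v.valuation_le_one a
  let φ₀ : 𝓞 K →+* R := ((algebraMap K F).comp (algebraMap (𝓞 K) K)).codRestrict R hmem
  have hφ₀ : ∀ a : 𝓞 K, ((φ₀ a : R) : F) = algebraMap K F (algebraMap (𝓞 K) K a) := fun a => rfl
  let φ : 𝓞 K →+* IsLocalRing.ResidueField R := (IsLocalRing.residue R).comp φ₀
  have hker : ∀ a ∈ v.asIdeal, φ a = 0 := by
    intro a ha
    rw [RingHom.comp_apply, IsLocalRing.residue_eq_zero_iff, ValuationSubring.valuation_lt_one_iff,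
      hφ₀, hlt, Wh_alg hι]
    exact (v.valuation_lt_one_iff_mem a).2 ha
  have hsurj : Function.Surjective φ := by
    intro y
    obtain ⟨x, rfl⟩ := IsLocalRing.residue_surjective y
    have hdense : DenseRange (algebraMap K (v.adicCompletion K)) :=
      HeightOneSpectrum.denseRange_algebraMap (K := K) v
    obtain ⟨c, hc⟩ := hdense.mem_nhds (Wh_nhd (ι (x : F)))
    rw [Set.mem_ofPred_eq] at hc
    have hx : Valued.v (ι (x : F)) ≤ 1 := by
      rw [← Wh_le, ← hR]
      exact (R.valuation_le_one_iff _).2 x.2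
    have hc1 : v.valuation K c ≤ 1 := by
      rw [← HeightOneSpectrum.valuedAdicCompletion_eq_valuation' v c]
      have e : algebraMap K (v.adicCompletion K) c =
          (algebraMap K (v.adicCompletion K) c - ι (x : F)) + ι (x : F) := by ring
      change Valued.v (algebraMap K (v.adicCompletion K) c) ≤ 1
      rw [e]
      exact (Valuation.map_add _ _ _).trans (max_le hc.le hx)
    obtain ⟨a, ha⟩ := v.exists_valuation_sub_lt_of_integer (K := K) hc1 1
    rw [Units.val_one] at ha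
    refine ⟨a, ?_⟩
    rw [RingHom.comp_apply, ← sub_eq_zero, ← map_sub, IsLocalRing.residue_eq_zero_iff,
      ValuationSubring.valuation_lt_one_iff]
    have e1 : ((φ₀ a - x : R) : F) = algebraMap K F (algebraMap (𝓞 K) K a) - (x : F) := rfl
    rw [e1, hlt, map_sub, hι]
    have e2 : algebraMap K (v.adicCompletion K) (algebraMap (𝓞 K) K a) - ι (x : F) =
        algebraMap K (v.adicCompletion K) (algebraMap (𝓞 K) K a - c) +
        (algebraMap K (v.adicCompletion K) c - ι (x : F)) := by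
      rw [map_sub]
      ring
    rw [e2]
    refine (Valuation.map_add _ _ _).trans_lt (max_lt ?_ hc)
    rw [← HeightOneSpectrum.valuedAdicCompletion_eq_valuation' v] at ha
    exact ha
  have hfin : Finite (𝓞 K ⧸ v.asIdeal) := Ideal.finiteQuotientOfFreeOfNeBot v.asIdeal v.ne_bot
  exact Finite.of_surjective (Ideal.Quotient.lift v.asIdeal φ hker)
    (Ideal.Quotient.lift_surjective_of_surjective _ _ hsurj)

private lemma Wh_l {ι : F →+* v.adicCompletion K}
    (hι : ∀ x : K, ι (algebraMap K F x) = algebraMap K (v.adicCompletion K) x) {l : ℕ}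
    (hv : (l : 𝓞 K) ∈ v.asIdeal) :
    ((v.adicCompletionIntegers K).comap ι).valuation (l : F) < 1 := by
  have e : (l : F) = algebraMap K F (algebraMap (𝓞 K) K (l : 𝓞 K)) := by
    rw [map_natCast, map_natCast]
  rw [e, Wh_lt, Wh_alg hι]
  exact (v.valuation_lt_one_iff_mem _).2 hv

private lemma Wh_Δ {ι : F →+* v.adicCompletion K}
    (hι : ∀ x : K, ι (algebraMap K F x) = algebraMap K (v.adicCompletion K) x) {A B : 𝓞 K}
    (hg : 2 * (4 * A ^ 3 + 27 * B ^ 2) ∉ v.asIdeal) :
    ((v.adicCompletionIntegers K).comap ι).valuation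
      (⟨0, 0, 0, algebraMap K F A, algebraMap K F B⟩ : WeierstrassCurve F).Δ = 1 := by
  have e : (⟨0, 0, 0, algebraMap K F A, algebraMap K F B⟩ : WeierstrassCurve F).Δ =
      algebraMap K F (algebraMap (𝓞 K) K (-8 * (2 * (4 * A ^ 3 + 27 * B ^ 2)))) := by
    simp only [WeierstrassCurve.Δ, WeierstrassCurve.b₂, WeierstrassCurve.b₄, WeierstrassCurve.b₆,
      WeierstrassCurve.b₈, map_mul, map_add, map_pow, map_neg, map_ofNat]
    ring
  rw [e, Wh_eq, Wh_alg hι]
  refine le_antisymm (v.valuation_le_one _) (not_lt.1 fun hlt => ?_)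
  rw [v.valuation_lt_one_iff_mem] at hlt
  rcases v.isPrime.mem_or_mem hlt with h | h
  · have h2 : (2 : 𝓞 K) ∈ v.asIdeal := by
      have h3 : (2 : 𝓞 K) ^ 3 ∈ v.asIdeal := by
        have h4 := v.asIdeal.neg_mem h
        have e2 : -(-8 : 𝓞 K) = 2 ^ 3 := by norm_num
        rwa [e2] at h4
      exact v.isPrime.mem_of_pow_mem 3 h3
    exact hg (v.asIdeal.mul_mem_right _ h2)
  · exact hg h

private lemma Wh_int {ι : F →+* v.adicCompletion K}
    (hι : ∀ x : K, ι (algebraMap K F x) = algebraMap K (v.adicCompletion K) x) (A B : 𝓞 K) :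
    Pool.Agent.H11.Integral ((v.adicCompletionIntegers K).comap ι)
      (⟨0, 0, 0, algebraMap K F A, algebraMap K F B⟩ : WeierstrassCurve F) := by
  have h : ∀ a : 𝓞 K, algebraMap K F (algebraMap (𝓞 K) K a) ∈
      (v.adicCompletionIntegers K).comap ι := by
    intro a
    rw [← ValuationSubring.valuation_le_one_iff, Wh_le, Wh_alg hι]
    exact v.valuation_le_one a
  exact ⟨zero_mem _, zero_mem _, zero_mem _, h A, h B⟩

end

theorem tors_emb {K : Type} [Field K] [NumberField K] {A B : 𝓞 K} {F : Type} [Field F] [DecidableEq F]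
    [Algebra K F] {v v' : HeightOneSpectrum (𝓞 K)} {l l' : ℕ} (hl : l.Prime) (hl' : l'.Prime)
    (hne : l ≠ l') (hv : (l : 𝓞 K) ∈ v.asIdeal) (hv' : (l' : 𝓞 K) ∈ v'.asIdeal)
    (hg : 2 * (4 * A ^ 3 + 27 * B ^ 2) ∉ v.asIdeal) (hg' : 2 * (4 * A ^ 3 + 27 * B ^ 2) ∉ v'.asIdeal)
    (ι : F →+* v.adicCompletion K)
    (hι : ∀ x : K, ι (algebraMap K F x) = algebraMap K (v.adicCompletion K) x)
    (ι' : F →+* v'.adicCompletion K)
    (hι' : ∀ x : K, ι' (algebraMap K F x) = algebraMap K (v'.adicCompletion K) x) :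
    {P : (⟨0, 0, 0, algebraMap K F A, algebraMap K F B⟩ : WeierstrassCurve F).toAffine.Point |
      ∃ n : ℕ, n ≠ 0 ∧ n • P = 0}.Finite := by
  have hΔ := Wh_Δ hι hg
  have hΔ' := Wh_Δ hι' hg'
  have hell : (⟨0, 0, 0, algebraMap K F A, algebraMap K F B⟩ : WeierstrassCurve F).IsElliptic := by
    refine ⟨isUnit_iff_ne_zero.2 fun h0 => ?_⟩
    rw [h0, map_zero] at hΔ
    exact zero_ne_one hΔ
  have hf := Wh_fin hι
  have hf' := Wh_fin hι'
  have key := H38T1.tors_of_two ((v.adicCompletionIntegers K).comap ι)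
    ((v'.adicCompletionIntegers K).comap ι') hl hl' hne
    (Wh_Gd_valn _ hl (Wh_l hι hv)) (Wh_Gd_valn _ hl' (Wh_l hι' hv'))
    (Wh_int hι A B) hΔ (Wh_int hι' A B) hΔ'
  have hD : (‹DecidableEq F› : DecidableEq F) = fun a b => Classical.propDecidable (a = b) :=
    Subsingleton.elim _ _
  subst hD
  exact key

end H73P2

end S_H73_P2_Wh

section S_H73_P2_Wj

set_option autoImplicit false
set_option linter.unusedSectionVars false

open WithZero NumberField IsDedekindDomain

namespace H73P2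

theorem fin_mq {K : Type} [Field K] [NumberField K] {I : Set K} {A B : 𝓞 K}
    (hM : ∀ (M : IntermediateField K (AlgebraicClosure K)) [NumberField M], M ≤ mq K I →
      Finite (⟨0, 0, 0, algebraMap K M A, algebraMap K M B⟩ : WeierstrassCurve M).toAffine.Point)
    [DecidableEq (mq K I)]
    (ht : {P : (⟨0, 0, 0, algebraMap K (mq K I) A, algebraMap K (mq K I) B⟩ :
      WeierstrassCurve (mq K I)).toAffine.Point | ∃ n : ℕ, n ≠ 0 ∧ n • P = 0}.Finite) :
    Finite (⟨0, 0, 0, algebraMap K (mq K I) A, algebraMap K (mq K I) B⟩ :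
      WeierstrassCurve (mq K I)).toAffine.Point := by
  have hall : ∀ P : (⟨0, 0, 0, algebraMap K (mq K I) A, algebraMap K (mq K I) B⟩ :
      WeierstrassCurve (mq K I)).toAffine.Point, ∃ n : ℕ, n ≠ 0 ∧ n • P = 0 := by
    rintro (_ | ⟨x, y, hxy⟩)
    · exact ⟨1, one_ne_zero, one_nsmul 0⟩
    · let M : IntermediateField K (AlgebraicClosure K) :=
        IntermediateField.adjoin K {(x : AlgebraicClosure K), (y : AlgebraicClosure K)}
      have hxM : (x : AlgebraicClosure K) ∈ M :=
        IntermediateField.subset_adjoin K _ (Set.mem_insert _ _)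
      have hyM : (y : AlgebraicClosure K) ∈ M :=
        IntermediateField.subset_adjoin K _ (Set.mem_insert_of_mem _ (Set.mem_singleton _))
      have hle : M ≤ mq K I := by
        refine IntermediateField.adjoin_le_iff.2 ?_
        rintro z (rfl | rfl)
        · exact x.2
        · exact y.2
      have hfd : FiniteDimensional K M :=
        IntermediateField.finiteDimensional_adjoin
          (fun z _ => (AlgebraicClosure.isAlgebraic K).isIntegral.1 z)
      have hnf : NumberField M := NumberField.of_module_finite K M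
      have hfin := hM M hle
      classical
      let ι : M →+* mq K I := (IntermediateField.inclusion hle).toRingHom
      have hι : ∀ a : K, ι (algebraMap K M a) = algebraMap K (mq K I) a := fun a =>
        (IntermediateField.inclusion hle).commutes a
      have hV : (⟨0, 0, 0, algebraMap K M A, algebraMap K M B⟩ : WeierstrassCurve M).map ι =
          ⟨0, 0, 0, algebraMap K (mq K I) A, algebraMap K (mq K I) B⟩ := by
        simp only [WeierstrassCurve.map, hι, map_zero]
      have hns : (⟨0, 0, 0, algebraMap K M A, algebraMap K M B⟩ :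
          WeierstrassCurve M).toAffine.Nonsingular ⟨x, hxM⟩ ⟨y, hyM⟩ := by
        rw [← WeierstrassCurve.Affine.map_nonsingular _ ι.injective]
        exact (congrArg (fun W => WeierstrassCurve.Affine.Nonsingular W x y) hV).mpr hxy
      have hP : Pool.Agent.H10.pm ι hV (.some _ _ hns) = .some x y hxy := rfl
      obtain ⟨m, hm0, hm⟩ := isOfFinAddOrder_iff_nsmul_eq_zero.1
        (isOfFinAddOrder_of_finite (WeierstrassCurve.Affine.Point.some _ _ hns))
      refine ⟨m, hm0.ne', ?_⟩
      rw [← hP, ← map_nsmul, hm, map_zero]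
  rw [← Set.finite_univ_iff]
  exact ht.subset fun P _ => hall P

end H73P2

end S_H73_P2_Wj

section S_H73_P2_Gd

set_option autoImplicit false
set_option linter.unusedSectionVars false
open scoped Classical

open WithZero NumberField IsDedekindDomain H38RT
open H38T1 (SC sc scu rep eo la si Pri OddP tp unif)
open H76PP

namespace H73P2

/-- `N / K` is an admissible extension for the curve `y ^ 2 = x ^ 3 + A x + B`: a finite Galois extension
of two-power degree in which the primes of `S` split completely, and also the real places at which the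
cubic has three real roots, and which is ramified only at primes modulo which the cubic has no root. -/
structure Admi {K : Type} [Field K] [NumberField K] (S : Finset (HeightOneSpectrum (𝓞 K)))
    (A B : 𝓞 K) (N : Type) [Field N] [NumberField N] [Algebra K N] : Prop where
  gal : IsGalois K N
  deg : ∃ r : ℕ, Module.finrank K N = 2 ^ r
  spl : ∀ v ∈ S, ∃ ι : N →+* v.adicCompletion K, ∀ x : K,
    ι (algebraMap K N x) = algebraMap K (v.adicCompletion K) x
  real : ∀ s : K →+* ℝ, 0 < s (4 * (A : K) ^ 3 + 27 * (B : K) ^ 2) ∨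
    ∃ s' : N →+* ℝ, ∀ x : K, s' (algebraMap K N x) = s x
  ram : ∀ V : HeightOneSpectrum (𝓞 N),
    (V.asIdeal.under (𝓞 K)).map (algebraMap (𝓞 K) (𝓞 N)) ≤ V.asIdeal ^ 2 →
    ∀ t : 𝓞 K, t ^ 3 + A * t + B ∉ V.asIdeal.under (𝓞 K)

/-- Finitely many points and trivial two-primary part of the Tate-Shafarevich group over `M`. -/
def Triv2 (K : Type) [Field K] [NumberField K] (A B : 𝓞 K) (M : Type) [Field M] [NumberField M]
    [Algebra K M] : Prop :=
  Finite (⟨0, 0, 0, algebraMap K M A, algebraMap K M B⟩ : WeierstrassCurve M).toAffine.Point ∧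
    Pool.Agent.H10.Sha2Trivial M
      (⟨0, 0, 0, algebraMap K M A, algebraMap K M B⟩ : WeierstrassCurve M)

theorem noRootAt_of {K : Type} [Field K] [NumberField K] {v : HeightOneSpectrum (𝓞 K)} {A B : 𝓞 K}
    (h : ∀ t : 𝓞 K, t ^ 3 + A * t + B ∉ v.asIdeal) : NoRootAt v (A : K) (B : K) :=
  ⟨1, A, B, one_ne_zero, by ring, by ring, v.valuation_le_one A, v.valuation_le_one B,
    fun _ ht => Tf_unit v h ht⟩

/-- From the triviality of the relaxed Selmer group over `K` to all admissible extensions. -/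
theorem all_of_rel (hos : OrdSub) {K : Type} [Field K] [NumberField K]
    {S : Finset (HeightOneSpectrum (𝓞 K))}
    (h2S : ∀ v : HeightOneSpectrum (𝓞 K), v.valuation K 2 < 1 → v ∈ S) {A B : 𝓞 K}
    (hd : 4 * A ^ 3 + 27 * B ^ 2 ≠ 0) (hirr : ∀ t : K, t ^ 3 + (A : K) * t + (B : K) ≠ 0)
    (hnice : ∀ v : HeightOneSpectrum (𝓞 K), v ∉ S → NiceAt v (A : K) (B : K))
    (hT : ∀ (L : Type) [Field L] [NumberField L] [Algebra K L] (θ : L), Cub K L (A : K) (B : K) θ →
      RelT K K L S (A : K) (B : K) θ)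
    (N : Type) [Field N] [NumberField N] [Algebra K N] (hN : Admi S A B N)
    (M : IntermediateField K N) [NumberField M] : Triv2 K A B M := by
  have _ := hN.gal
  obtain ⟨r, hr⟩ := hN.deg
  have hd' : 4 * (A : K) ^ 3 + 27 * (B : K) ^ 2 ≠ 0 := by
    intro h
    apply hd
    apply RingOfIntegers.coe_injective
    simpa only [map_add, map_mul, map_pow, map_ofNat, map_zero] using h
  exact rel_main (N := N) hos hr h2S hd' hirr hnice hN.spl hN.real
    (fun V _ hV => noRootAt_of (hN.ram V hV)) hT M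

/-- From the triviality of the relaxed Selmer group over `K` to an infinite multiquadratic
extension. -/
theorem tower_of_rel (hos : OrdSub) {K : Type} [Field K] [NumberField K]
    {S : Finset (HeightOneSpectrum (𝓞 K))}
    (h2S : ∀ v : HeightOneSpectrum (𝓞 K), v.valuation K 2 < 1 → v ∈ S) {A B : 𝓞 K}
    (hd : 4 * A ^ 3 + 27 * B ^ 2 ≠ 0) (hirr : ∀ t : K, t ^ 3 + (A : K) * t + (B : K) ≠ 0)
    (hnice : ∀ v : HeightOneSpectrum (𝓞 K), v ∉ S → NiceAt v (A : K) (B : K))
    (hT : ∀ (L : Type) [Field L] [NumberField L] [Algebra K L] (θ : L), Cub K L (A : K) (B : K) θ →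
      RelT K K L S (A : K) (B : K) θ) :
    ∃ F : IntermediateField K (AlgebraicClosure K), ¬ FiniteDimensional K F ∧
      (∃ I : Set K, F = IntermediateField.adjoin K
        {x | ∃ D ∈ I, x ^ 2 = algebraMap K (AlgebraicClosure K) D}) ∧
      Finite (⟨0, 0, 0, algebraMap K F A, algebraMap K F B⟩ : WeierstrassCurve F).toAffine.Point ∧
      ∀ (M : IntermediateField K (AlgebraicClosure K)) [NumberField M], M ≤ F → Triv2 K A B M := by
  have hd' : 4 * (A : K) ^ 3 + 27 * (B : K) ^ 2 ≠ 0 := by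
    intro h
    apply hd
    apply RingOfIntegers.coe_injective
    simpa only [map_add, map_mul, map_pow, map_ofNat, map_zero] using h
  obtain ⟨l, l', v, v', hl, hl', hne, hv, hv', hg, hg'⟩ := exists_two_good hd
  obtain ⟨I, hI, hemb, hM⟩ := tower (S ∪ {v, v'}) (fun w hw => Finset.mem_union_left _ (h2S w hw))
    hirr
  have hall : ∀ (M : IntermediateField K (AlgebraicClosure K)) [NumberField M], M ≤ mq K I →
      Triv2 K A B M := by
    intro M _ hMI
    have hfM : FiniteDimensional K M := Module.Finite.of_restrictScalars_finite ℚ K M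
    obtain ⟨N, _, hMN, _, ⟨r, hr⟩, hspl, hreal, hram⟩ := hM M hMI hfM
    let _ : Algebra M N := (IntermediateField.inclusion hMN).toRingHom.toAlgebra
    have _ : IsScalarTower K M N := IsScalarTower.of_algebraMap_eq fun _ => rfl
    have _ : FiniteDimensional K N := Module.Finite.of_restrictScalars_finite ℚ K N
    obtain ⟨L, _, _, _, θ, hL⟩ := H24PD.exists_cub (K := M)
      (noroot (K := K) (N := N) (k := M) hr hirr)
    refine H24PD.descent hL (sel_mid (N := N) hos hr h2S hd' hnice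
      (fun w hw => hspl w (Finset.mem_union_left _ hw)) (fun s => Or.inr (hreal s))
      (fun V hV => hram V ?_) hT M L θ hL)
    unfold OddP
    by_contra hne1
    apply hV
    apply h2S
    refine lt_of_le_of_ne ?_ hne1
    have h2 := (dn K V).valuation_le_one (K := K) (2 : 𝓞 K)
    have h3 : algebraMap (𝓞 K) K 2 = 2 := map_ofNat (algebraMap (𝓞 K) K) 2
    rw [← h3]
    exact h2
  refine ⟨mq K I, hI, ⟨I, rfl⟩, ?_, fun M _ hMI => hall M hMI⟩
  obtain ⟨ι, hι⟩ := hemb v (by simp)
  obtain ⟨ι', hι'⟩ := hemb v' (by simp)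
  exact fin_mq (fun M _ hMI => (hall M hMI).1) (tors_emb hl hl' hne hv hv' hg hg' ι hι ι' hι')

end H73P2

end S_H73_P2_Gd
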