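import Mathlib
import Pool.Agent.H38.RT.Pr
import Pool.Agent.H38.RT.Rk
import Pool.Agent.H38.T1.Ea
import Pool.Agent.H88.T7.Un
import Pool.Agent.H76.PN.A1
import Pool.Agent.H76.PN.A2
import Pool.Agent.H76.PN.A3
import Pool.Agent.H76.PN.A4
import Pool.Agent.H76.PN.A5

/-! This file joins several modules to save build time (R2). -/

set_option autoImplicit false

section S_H85_PP_Re

set_option autoImplicit false
set_option linter.unusedSectionVars false
open scoped Classical

open WithZero NumberField IsDedekindDomain H38RT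
open H38T1 (SC sc scu rep eo la si Pri ka OddP tp unif)

namespace H76PP

/-- (8.6) reciprocity, from `H88T7.recip7` -/
theorem rec_tame {F : Type} [Field F] [NumberField F] {x y : F} (hx : x ≠ 0) (hy : y ≠ 0)
    (h2 : ∀ v : HeightOneSpectrum (𝓞 F), v.valuation F 2 < 1 → ∃ m : F, m ≠ 0 ∧
      v.valuation F (y * m ^ 2 - 1) ≤ v.valuation F 8) (hr : ∀ s : F →+* ℝ, 0 < s y) :
    ∑ᶠ v : HeightOneSpectrum (𝓞 F), (if OddP v then tp v (sc x) (sc y) else 0) = 0 := by
  have h20 : (2 : F) ≠ 0 := two_ne_zero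
  have hform : ∀ v : HeightOneSpectrum (𝓞 F), v.valuation F 2 < 1 → ∃ m e : F, m ≠ 0 ∧
      v.valuation F e ≤ 1 ∧ y = m ^ 2 * ((1 : F) ^ 2 - 4 * (-2 * e)) := by
    intro v hv
    obtain ⟨m, hm, h⟩ := h2 v hv
    refine ⟨m⁻¹, (y * m ^ 2 - 1) / 8, inv_ne_zero hm, ?_, ?_⟩
    · have h8 : v.valuation F 8 ≠ 0 := by
        rw [Ne, map_eq_zero]
        norm_num
      rw [map_div₀]
      exact div_le_one_of_le₀ h zero_le
    · field_simp
      ring
  have hp : ∀ v : HeightOneSpectrum (𝓞 F), ¬ OddP v → Pri v (sc y) ∧ ka v (sc y) = 0 := by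
    intro v hv
    have hv2 := H38T1.not_oddP.1 hv
    obtain ⟨m, e, hm, he, hye⟩ := hform v hv2
    have hc : v.valuation F (-2 * e) < 1 := by
      rw [map_mul, Valuation.map_neg]
      exact mul_lt_one_of_nonneg_of_lt_one_left zero_le hv2 he
    have hP : Prm (v.valuation F) y := ⟨m, 1, -2 * e, hm, map_one _, hc.le, hye⟩
    refine ⟨(H38T1.pri_sc hv hy).2 hP, ?_⟩
    obtain ⟨q, d, ψ, hl⟩ := H38T1.loc_of v
    rw [H38T1.ka_sc hv hy hP, kp_eq hl hv2 h20 hm (map_one _) hc.le hye]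
    unfold kap
    rw [if_pos ⟨0, by simpa using hc⟩]
  have hsi : ∀ w : F →+* ℝ, si w (sc y) = 0 := by
    intro w
    rw [H38T1.si_sc w hy]
    unfold sw
    rw [if_neg (not_lt.2 (hr w).le)]
  set T : Finset (HeightOneSpectrum (𝓞 F)) :=
    (fin_bad hx).toFinset ∪ ((fin_bad hy).toFinset ∪ (fin_bad h20).toFinset) with hT
  have hmem : ∀ v, v ∉ T → v.valuation F x = 1 ∧ v.valuation F y = 1 ∧
      v.valuation F 2 = 1 := by
    intro v hv
    rw [hT, Finset.mem_union, Finset.mem_union, not_or, not_or] at hv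
    refine ⟨?_, ?_, ?_⟩
    · by_contra h
      exact hv.1 (by simpa using h)
    · by_contra h
      exact hv.2.1 (by simpa using h)
    · by_contra h
      exact hv.2.2 (by simpa using h)
  have heo : ∀ v, v ∉ T → eo v (sc x) = 0 ∧ eo v (sc y) = 0 := by
    intro v hv
    obtain ⟨h1, h3, -⟩ := hmem v hv
    rw [H38T1.eo_sc hx, H38T1.eo_sc hy]
    unfold ord
    rw [h1, h3]
    simp
  have key := H88T7.recip_sc7 (c := sc x) (c' := sc y) T (by
    intro v hv
    by_contra h
    exact hv (hmem v h).2.2) (fun v hv => (heo v hv).1) (fun v hv => (heo v hv).2)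
    (fun v hv => (hp v hv).1)
  rw [Finset.sum_eq_zero (s := (Finset.univ : Finset (F →+* ℝ))) (f := fun w =>
    si w (sc x) * si w (sc y)) (fun w _ => by rw [hsi w, mul_zero]), add_zero] at key
  rw [finsum_eq_sum_of_support_subset (s := T)]
  · refine Eq.trans (Finset.sum_congr rfl fun v _ => ?_) key
    by_cases hv : OddP v
    · simp only [if_pos hv]
    · simp only [if_neg hv]
      rw [(hp v hv).2, mul_zero]
  · intro v hv
    by_contra h
    apply hv
    obtain ⟨h1, h3⟩ := heo v h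
    have : tp v (sc x) (sc y) = 0 := by
      unfold tp
      rw [h1, h3]
      ring
    change (if OddP v then tp v (sc x) (sc y) else 0) = 0
    rw [this, ite_self]

end H76PP

end S_H85_PP_Re

section S_H85_PP_Sa

set_option autoImplicit false
open scoped Classical

namespace H76PP

/-- The Legendre class: zero for squares and one otherwise. -/
noncomputable def leg {R : Type*} [Mul R] (x : R) : ZMod 2 := if IsSquare x then 0 else 1

theorem Sa_ring {k : Type*} [Field k] (h2 : (2 : k) ≠ 0) : ringChar k ≠ 2 := by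
  intro h
  apply h2
  have h1 := ringChar.Nat.cast_ringChar (R := k)
  rw [h] at h1
  exact_mod_cast h1

theorem leg_mul {k : Type*} [Field k] [Finite k] (h2 : (2 : k) ≠ 0) {x y : k} (hx : x ≠ 0)
    (hy : y ≠ 0) : leg (x * y) = leg x + leg y := by
  have hf : Fintype k := Fintype.ofFinite k
  have hF := Sa_ring h2
  have hxy : x * y ≠ 0 := mul_ne_zero hx hy
  have h11 : (-1 : k) ≠ 1 := Ring.neg_one_ne_one_of_char_ne_two hF
  have key : ∀ z : k, z ≠ 0 → (z ^ (Fintype.card k / 2) = 1 ∧ leg z = 0) ∨ (z ^ (Fintype.card k / 2) = -1 ∧ leg z = 1) := by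
    intro z hz
    rcases FiniteField.pow_dichotomy hF hz with h | h
    · left
      refine ⟨h, ?_⟩
      unfold leg
      rw [if_pos ((FiniteField.isSquare_iff hF hz).2 h)]
    · right
      refine ⟨h, ?_⟩
      unfold leg
      rw [if_neg]
      intro hs
      rw [FiniteField.isSquare_iff hF hz, h] at hs
      exact h11 hs
  have hm := mul_pow x y (Fintype.card k / 2)
  rcases key x hx with ⟨a1, a2⟩ | ⟨a1, a2⟩ <;> rcases key y hy with ⟨b1, b2⟩ | ⟨b1, b2⟩ <;>
    rcases key (x * y) hxy with ⟨c1, c2⟩ | ⟨c1, c2⟩ <;> rw [a1, b1, c1] at hm <;> rw [a2, b2, c2]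
  · rfl
  · exact absurd (by simpa using hm) h11
  · exact absurd (by simpa using hm.symm) h11
  · rfl
  · exact absurd (by simpa using hm.symm) h11
  · rfl
  · rfl
  · exact absurd (by simpa using hm) h11

theorem leg_norm {k k' : Type*} [Field k] [Field k'] [Finite k] [Finite k'] [Algebra k k']
    (h2 : (2 : k) ≠ 0) {x : k'} (hx : x ≠ 0) : leg (Algebra.norm k x) = leg x := by
  have hfin : Module.Finite k k' := Module.Finite.of_finite
  have h2' : (2 : k') ≠ 0 := by
    have h3 := (map_ne_zero (algebraMap k k')).2 h2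
    rwa [map_ofNat] at h3
  have hN : ∀ y : k', y ≠ 0 → Algebra.norm k y ≠ 0 := fun y hy => Algebra.norm_ne_zero_iff.2 hy
  have hsq : ∀ y : k', IsSquare y → IsSquare (Algebra.norm k y) := fun y hy => hy.map _
  by_cases hxs : IsSquare x
  · unfold leg
    rw [if_pos hxs, if_pos (hsq x hxs)]
  · have hlx : leg x = 1 := by
      unfold leg
      rw [if_neg hxs]
    by_cases hns : IsSquare (Algebra.norm k x)
    · exfalso
      obtain ⟨a, ha⟩ := FiniteField.exists_nonsquare (Sa_ring h2)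
      obtain ⟨y, hy⟩ := FiniteField.norm_surjective k k' a
      have hy0 : y ≠ 0 := by
        rintro rfl
        apply ha
        rw [← hy, Algebra.norm_zero]
        exact ⟨0, by simp⟩
      have hys : ¬ IsSquare y := fun h => ha (hy ▸ hsq y h)
      have hly : leg y = 1 := by
        unfold leg
        rw [if_neg hys]
      have h3 := leg_mul h2' hy0 hx
      rw [hlx, hly] at h3
      have h4 : IsSquare (y * x) := by
        by_contra hc
        unfold leg at h3
        rw [if_neg hc] at h3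
        exact absurd h3 (by decide)
      have h5 := hsq _ h4
      rw [map_mul] at h5
      have h6 := leg_mul h2 (hN y hy0) (hN x hx)
      unfold leg at h6
      rw [if_pos h5, if_pos hns, hy, if_neg ha] at h6
      exact absurd h6 (by decide)
    · rw [hlx]
      unfold leg
      rw [if_neg hns]

theorem leg_prod {k : Type*} [Field k] [Finite k] (h2 : (2 : k) ≠ 0) {ι : Type*} (s : Finset ι)
    (f : ι → k) (hf : ∀ i ∈ s, f i ≠ 0) : leg (∏ i ∈ s, f i) = ∑ i ∈ s, leg (f i) := by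
  induction s using Finset.induction_on with
  | empty =>
    rw [Finset.prod_empty, Finset.sum_empty]
    unfold leg
    rw [if_pos ⟨1, by simp⟩]
  | insert i s hi ih =>
    rw [Finset.prod_insert hi, Finset.sum_insert hi, leg_mul h2 (hf i (Finset.mem_insert_self _ _))
      (Finset.prod_ne_zero_iff.2 fun j hj => hf j (Finset.mem_insert_of_mem hj)),
      ih fun j hj => hf j (Finset.mem_insert_of_mem hj)]

theorem leg_equiv {R S : Type*} [Mul R] [Mul S] (e : R ≃* S) (x : R) : leg (e x) = leg x := by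
  have h : IsSquare (e x) ↔ IsSquare x := by
    constructor
    · rintro ⟨y, hy⟩
      refine ⟨e.symm y, e.injective ?_⟩
      rw [map_mul, e.apply_symm_apply, hy]
    · rintro ⟨y, hy⟩
      exact ⟨e y, by rw [← map_mul, hy]⟩
  unfold leg
  by_cases hx : IsSquare x
  · rw [if_pos hx, if_pos (h.2 hx)]
  · rw [if_neg hx, if_neg (mt h.1 hx)]

end H76PP

end S_H85_PP_Sa

section S_H85_PP_Sb

set_option autoImplicit false
open scoped Classical

namespace H76PP

theorem Sb_dec {k n : Type} [Field k] [Fintype n] (M : Matrix n n k) (i j : DecidableEq n) :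
    @Matrix.det n i _ k _ M = @Matrix.det n j _ k _ M := by
  rw [Subsingleton.elim i j]

theorem Sb_dec2 {k : Type} [Field k] {ι : Type} {m : ι → Type}
    (d : ∀ i, Matrix (m i) (m i) k) (i j : DecidableEq ι) :
    @Matrix.blockDiagonal' ι m m k i _ d = @Matrix.blockDiagonal' ι m m k j _ d := by
  rw [Subsingleton.elim i j]

theorem Sb_det {k : Type} [Field k] {ι : Type} [Fintype ι] {m : ι → Type} [∀ i, Fintype (m i)]
    (d : ∀ i, Matrix (m i) (m i) k) :
    (Matrix.blockDiagonal' d).det = ∏ i, (d i).det := by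
  let _ : LinearOrder ι := LinearOrder.lift' (Fintype.equivFin ι) (Fintype.equivFin ι).injective
  have h0 := (Matrix.blockTriangular_blockDiagonal' d).det_fintype
  have h1 := Sb_dec2 d (fun a b => Classical.propDecidable (a = b))
    (fun a b => LinearOrder.toDecidableEq a b)
  rw [h1]
  refine (Sb_dec _ _ _).trans (h0.trans ?_)
  refine Finset.prod_congr rfl fun i _ => ?_
  rw [← Matrix.det_submatrix_equiv_self (Equiv.sigmaSubtype i).symm]
  refine (congrArg _ ?_).trans (Sb_dec _ _ _)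
  ext a c
  exact Matrix.blockDiagonal'_apply_eq d i a c

theorem norm_pi {k : Type} [Field k] {ι : Type} [Fintype ι] {A : ι → Type} [∀ i, CommRing (A i)]
    [∀ i, Algebra k (A i)] [∀ i, Module.Finite k (A i)] (y : ∀ i, A i) :
    Algebra.norm k y = ∏ i, Algebra.norm k (y i) := by
  let b := fun i => Module.Free.chooseBasis k (A i)
  let B := Pi.basis b
  rw [Algebra.norm_eq_matrix_det B]
  have h1 : Algebra.leftMulMatrix B y =
      Matrix.blockDiagonal' (fun i => Algebra.leftMulMatrix (b i) (y i)) := by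
    ext ⟨i₁, i₂⟩ ⟨j₁, j₂⟩
    rw [Algebra.leftMulMatrix_eq_repr_mul, Matrix.blockDiagonal'_apply]
    unfold B
    rw [Pi.basis_repr, Pi.basis_apply]
    show (b i₁).repr (y i₁ * Pi.single (M := A) j₁ (b j₁ j₂) i₁) i₂ = _
    by_cases h : i₁ = j₁
    · subst h
      rw [dif_pos rfl, Pi.single_eq_same, cast_eq, Algebra.leftMulMatrix_eq_repr_mul]
    · rw [dif_neg h, Pi.single_eq_of_ne h, mul_zero, map_zero, Finsupp.coe_zero, Pi.zero_apply]
  rw [h1, Sb_det]
  refine Finset.prod_congr rfl fun i _ => ?_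
  rw [Algebra.norm_eq_matrix_det (b i)]

theorem leg_max {k R : Type} [Field k] [Finite k] [CommRing R] [Algebra k R] [Module.Finite k R]
    [IsReduced R] (h2 : (2 : k) ≠ 0) {x : R} (hx : IsUnit x) :
    leg (Algebra.norm k x) = ∑ᶠ M : MaximalSpectrum R, leg (Ideal.Quotient.mk M.asIdeal x) := by
  have hart : IsArtinianRing R := isArtinian_of_tower k inferInstance
  have hfR : Finite R := Module.finite_of_finite k
  have hft : Fintype (MaximalSpectrum R) := Fintype.ofFinite _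
  have h1 : Algebra.norm k x =
      ∏ I : MaximalSpectrum R, Algebra.norm k (Ideal.Quotient.mk I.asIdeal x) := by
    have h2 := Algebra.norm_eq_of_algEquiv ((IsArtinianRing.equivPi R).restrictScalars k) x
    rw [← h2, norm_pi]
    refine Finset.prod_congr rfl fun I _ => ?_
    rfl
  have hu : ∀ I : MaximalSpectrum R, IsUnit (Ideal.Quotient.mk I.asIdeal x) := fun I => hx.map _
  rw [h1, leg_prod h2 Finset.univ _ (fun I _ => ((hu I).map (Algebra.norm k)).ne_zero),
    finsum_eq_sum_of_fintype]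
  refine Finset.sum_congr rfl fun I _ => ?_
  have hfin : Finite (R ⧸ I.asIdeal) :=
    Finite.of_surjective (Ideal.Quotient.mk I.asIdeal) Ideal.Quotient.mk_surjective
  let _ : Field (R ⧸ I.asIdeal) := @Ideal.Quotient.field R _ I.asIdeal I.isMaximal
  exact leg_norm (k := k) (k' := R ⧸ I.asIdeal) h2 (hu I).ne_zero

end H76PP

end S_H85_PP_Sb

section S_H85_PP_Sc

set_option autoImplicit false

namespace H76PP

/-- `R = k[T] / (T^3 + a T + b)`. -/
structure CubA (k R : Type) [Field k] [CommRing R] [Algebra k R] (a b : k) (t : R) : Prop where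
  root : t ^ 3 + algebraMap k R a * t + algebraMap k R b = 0
  sp : ∀ x : R, ∃ c₀ c₁ c₂ : k,
    x = algebraMap k R c₀ + algebraMap k R c₁ * t + algebraMap k R c₂ * t ^ 2
  rank : Module.finrank k R = 3

section

variable {k R : Type} [Field k] [CommRing R] [Algebra k R] {a b : k} {t : R}

/-- The basis `1, t, t^2`. -/
noncomputable def CubA.basis (h : CubA k R a b t) : Module.Basis (Fin 3) k R :=
  basisOfTopLeSpanOfCardEqFinrank ![1, t, t ^ 2] (by
    intro x _
    obtain ⟨c₀, c₁, c₂, rfl⟩ := h.sp x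
    have h0 : (1 : R) ∈ Submodule.span k (Set.range ![1, t, t ^ 2]) :=
      Submodule.subset_span ⟨0, rfl⟩
    have h1 : t ∈ Submodule.span k (Set.range ![1, t, t ^ 2]) :=
      Submodule.subset_span ⟨1, rfl⟩
    have h2 : t ^ 2 ∈ Submodule.span k (Set.range ![1, t, t ^ 2]) :=
      Submodule.subset_span ⟨2, rfl⟩
    have e0 := Submodule.smul_mem _ c₀ h0
    have e1 := Submodule.smul_mem _ c₁ h1
    have e2 := Submodule.smul_mem _ c₂ h2
    rw [Algebra.smul_def] at e0 e1 e2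
    rw [mul_one] at e0
    exact Submodule.add_mem _ (Submodule.add_mem _ e0 e1) e2) (by
    rw [h.rank, Fintype.card_fin])

lemma CubA.basis_coe (h : CubA k R a b t) : ⇑h.basis = ![1, t, t ^ 2] :=
  coe_basisOfTopLeSpanOfCardEqFinrank _ _ _

/-- The coordinates with respect to `1, t, t^2`. -/
noncomputable def CubA.co (h : CubA k R a b t) (i : Fin 3) : R →ₗ[k] k := h.basis.coord i

lemma CubA.eq_co (h : CubA k R a b t) (x : R) :
    x = algebraMap k R (h.co 0 x) + algebraMap k R (h.co 1 x) * t +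
      algebraMap k R (h.co 2 x) * t ^ 2 := by
  have h1 := h.basis.sum_repr x
  rw [Fin.sum_univ_three, h.basis_coe] at h1
  simp only [Matrix.cons_val_zero, Matrix.cons_val_one, Matrix.cons_val_two, Matrix.head_cons,
      Matrix.tail_cons, Algebra.smul_def, mul_one] at h1
  exact h1.symm

lemma CubA.co_mk (h : CubA k R a b t) (c : Fin 3 → k) (i : Fin 3) :
    h.co i (algebraMap k R (c 0) + algebraMap k R (c 1) * t + algebraMap k R (c 2) * t ^ 2) =
      c i := by
  have h1 : algebraMap k R (c 0) + algebraMap k R (c 1) * t + algebraMap k R (c 2) * t ^ 2 =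
      ∑ j, c j • h.basis j := by
    rw [Fin.sum_univ_three, h.basis_coe]
    simp only [Matrix.cons_val_zero, Matrix.cons_val_one, Matrix.cons_val_two, Matrix.head_cons,
      Matrix.tail_cons, Algebra.smul_def, mul_one]
  rw [h1]
  show h.basis.repr (∑ j, c j • h.basis j) i = c i
  rw [h.basis.repr_sum_self]

lemma CubA.co_mk' (h : CubA k R a b t) (c₀ c₁ c₂ : k) :
    h.co 0 (algebraMap k R c₀ + algebraMap k R c₁ * t + algebraMap k R c₂ * t ^ 2) = c₀ ∧
    h.co 1 (algebraMap k R c₀ + algebraMap k R c₁ * t + algebraMap k R c₂ * t ^ 2) = c₁ ∧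
    h.co 2 (algebraMap k R c₀ + algebraMap k R c₁ * t + algebraMap k R c₂ * t ^ 2) = c₂ :=
  ⟨h.co_mk ![c₀, c₁, c₂] 0, h.co_mk ![c₀, c₁, c₂] 1, h.co_mk ![c₀, c₁, c₂] 2⟩

/-- The coordinates of a product. -/
theorem CubA.co_mul (h : CubA k R a b t) (x y : R) :
    h.co 0 (x * y) = h.co 0 x * h.co 0 y - b * (h.co 1 x * h.co 2 y + h.co 2 x * h.co 1 y) ∧
    h.co 1 (x * y) = h.co 0 x * h.co 1 y + h.co 1 x * h.co 0 y -
      a * (h.co 1 x * h.co 2 y + h.co 2 x * h.co 1 y) - b * (h.co 2 x * h.co 2 y) ∧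
    h.co 2 (x * y) = h.co 0 x * h.co 2 y + h.co 1 x * h.co 1 y + h.co 2 x * h.co 0 y -
      a * (h.co 2 x * h.co 2 y) := by
  have hr := h.root
  have e : x * y = algebraMap k R (h.co 0 x * h.co 0 y -
        b * (h.co 1 x * h.co 2 y + h.co 2 x * h.co 1 y)) +
      algebraMap k R (h.co 0 x * h.co 1 y + h.co 1 x * h.co 0 y -
        a * (h.co 1 x * h.co 2 y + h.co 2 x * h.co 1 y) - b * (h.co 2 x * h.co 2 y)) * t +
      algebraMap k R (h.co 0 x * h.co 2 y + h.co 1 x * h.co 1 y + h.co 2 x * h.co 0 y -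
        a * (h.co 2 x * h.co 2 y)) * t ^ 2 := by
    conv_lhs => rw [h.eq_co x, h.eq_co y]
    simp only [map_add, map_sub, map_mul]
    generalize algebraMap k R (h.co 0 x) = a0
    generalize algebraMap k R (h.co 1 x) = a1
    generalize algebraMap k R (h.co 2 x) = a2
    generalize algebraMap k R (h.co 0 y) = b0
    generalize algebraMap k R (h.co 1 y) = b1
    generalize algebraMap k R (h.co 2 y) = b2
    linear_combination (a1 * b2 + a2 * b1 + a2 * b2 * t) * hr
  have e2 := congrArg (fun z => (h.co 0 z, h.co 1 z, h.co 2 z)) e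
  simp only [Prod.mk.injEq] at e2
  obtain ⟨i0, i1, i2⟩ := h.co_mk' (h.co 0 x * h.co 0 y -
        b * (h.co 1 x * h.co 2 y + h.co 2 x * h.co 1 y))
      (h.co 0 x * h.co 1 y + h.co 1 x * h.co 0 y -
        a * (h.co 1 x * h.co 2 y + h.co 2 x * h.co 1 y) - b * (h.co 2 x * h.co 2 y))
      (h.co 0 x * h.co 2 y + h.co 1 x * h.co 1 y + h.co 2 x * h.co 0 y -
        a * (h.co 2 x * h.co 2 y))
  exact ⟨e2.1.trans i0, e2.2.1.trans i1, e2.2.2.trans i2⟩

lemma CubA.co_t (h : CubA k R a b t) : h.co 0 t = 0 ∧ h.co 1 t = 1 ∧ h.co 2 t = 0 := by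
  have := h.co_mk' 0 1 0
  simpa using this

lemma CubA.co_t_sq (h : CubA k R a b t) :
    h.co 0 (t ^ 2) = 0 ∧ h.co 1 (t ^ 2) = 0 ∧ h.co 2 (t ^ 2) = 1 := by
  have := h.co_mk' 0 0 1
  simpa using this

/-- The matrix of the multiplication by `x`. -/
theorem CubA.leftMul (h : CubA k R a b t) (x : R) : Algebra.leftMulMatrix h.basis x =
    !![h.co 0 x, -b * h.co 2 x, -b * h.co 1 x;
      h.co 1 x, h.co 0 x - a * h.co 2 x, -a * h.co 1 x - b * h.co 2 x;
      h.co 2 x, h.co 1 x, h.co 0 x - a * h.co 2 x] := by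
  have key : ∀ i j, Algebra.leftMulMatrix h.basis x i j = h.co i (x * h.basis j) := by
    intro i j
    rw [Algebra.leftMulMatrix_eq_repr_mul]
    rfl
  obtain ⟨a0, a1, a2⟩ := h.co_t
  obtain ⟨b0, b1, b2⟩ := h.co_t_sq
  obtain ⟨c0, c1, c2⟩ := h.co_mul x t
  obtain ⟨d0, d1, d2⟩ := h.co_mul x (t ^ 2)
  rw [a0, a1, a2] at c0 c1 c2
  rw [b0, b1, b2] at d0 d1 d2
  ext i j
  rw [key, h.basis_coe]
  fin_cases i <;> fin_cases j <;> simp [c0, c1, c2, d0, d1, d2]

theorem CubA.trace (h : CubA k R a b t) (x : R) :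
    Algebra.trace k R x = 3 * h.co 0 x - 2 * a * h.co 2 x := by
  rw [Algebra.trace_eq_matrix_trace h.basis, h.leftMul, Matrix.trace_fin_three]
  simp
  ring

theorem CubA.norm (h : CubA k R a b t) (x : R) :
    Algebra.norm k x = (!![h.co 0 x, -b * h.co 2 x, -b * h.co 1 x;
      h.co 1 x, h.co 0 x - a * h.co 2 x, -a * h.co 1 x - b * h.co 2 x;
      h.co 2 x, h.co 1 x, h.co 0 x - a * h.co 2 x]).det := by
  rw [Algebra.norm_eq_matrix_det h.basis, h.leftMul]

end

theorem alg_norm {k R : Type} [Field k] [CommRing R] [Algebra k R] {a b : k} {t : R}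
    (h : CubA k R a b t) (c₀ c₁ c₂ : k) :
    Algebra.norm k (algebraMap k R c₀ + algebraMap k R c₁ * t + algebraMap k R c₂ * t ^ 2) =
      (!![c₀, -b * c₂, -b * c₁; c₁, c₀ - a * c₂, -a * c₁ - b * c₂; c₂, c₁, c₀ - a * c₂]).det := by
  obtain ⟨e0, e1, e2⟩ := h.co_mk' c₀ c₁ c₂
  rw [h.norm, e0, e1, e2]

theorem alg_trace {k R : Type} [Field k] [CommRing R] [Algebra k R] {a b : k} {t : R}
    (h : CubA k R a b t) (c₀ c₁ c₂ : k) :
    Algebra.trace k R (algebraMap k R c₀ + algebraMap k R c₁ * t + algebraMap k R c₂ * t ^ 2) =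
      3 * c₀ - 2 * a * c₂ := by
  obtain ⟨e0, e1, e2⟩ := h.co_mk' c₀ c₁ c₂
  rw [h.trace, e0, e2]

theorem alg_red {k R : Type} [Field k] [CommRing R] [Algebra k R] {a b : k} {t : R}
    (h : CubA k R a b t) (hd : 4 * a ^ 3 + 27 * b ^ 2 ≠ 0) : IsReduced R := by
  refine ⟨fun x hx => ?_⟩
  have hn : ∀ y : R, Algebra.trace k R (x * y) = 0 := by
    intro y
    have h1 : IsNilpotent (x * y) := (Commute.all x y).isNilpotent_mul_right hx
    have h2 : IsNilpotent (LinearMap.mul k R (x * y)) := by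
      obtain ⟨n, hn⟩ := h1
      refine ⟨n, ?_⟩
      have h3 : (Algebra.lmul k R (x * y)) ^ n = 0 := by
        rw [← map_pow, hn, map_zero]
      exact h3
    exact (LinearMap.isNilpotent_trace_of_isNilpotent h2).eq_zero
  obtain ⟨a0, a1, a2⟩ := h.co_t
  obtain ⟨b0, b1, b2⟩ := h.co_t_sq
  obtain ⟨c0, c1, c2⟩ := h.co_mul x t
  obtain ⟨d0, d1, d2⟩ := h.co_mul x (t ^ 2)
  rw [a0, a1, a2] at c0 c1 c2
  rw [b0, b1, b2] at d0 d1 d2
  have e1 := hn 1
  have e2 := hn t
  have e3 := hn (t ^ 2)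
  rw [mul_one, h.trace] at e1
  rw [h.trace, c0, c2] at e2
  rw [h.trace, d0, d2] at e3
  have hx0 := h.eq_co x
  generalize h.co 0 x = u at *
  generalize h.co 1 x = v at *
  generalize h.co 2 x = w at *
  have f0 : (4 * a ^ 3 + 27 * b ^ 2) * u = 0 := by
    linear_combination (4 * a ^ 3 + 9 * b ^ 2) * e1 - 6 * a * b * e2 + 4 * a ^ 2 * e3
  have f1 : (4 * a ^ 3 + 27 * b ^ 2) * v = 0 := by
    linear_combination (-6) * a * b * e1 - 2 * a ^ 2 * e2 - 9 * b * e3
  have f2 : (4 * a ^ 3 + 27 * b ^ 2) * w = 0 := by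
    linear_combination 4 * a ^ 2 * e1 - 9 * b * e2 + 6 * a * e3
  have g0 := (mul_eq_zero.1 f0).resolve_left hd
  have g1 := (mul_eq_zero.1 f1).resolve_left hd
  have g2 := (mul_eq_zero.1 f2).resolve_left hd
  rw [hx0, g0, g1, g2]
  simp

end H76PP

end S_H85_PP_Sc

section S_H85_PP_Sd

set_option autoImplicit false
set_option linter.unusedSectionVars false
open scoped Classical

open WithZero NumberField IsDedekindDomain H38RT
open H38T1 (SC sc scu rep eo la si Pri OddP tp unif)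

namespace H76PP

variable {K L : Type} [Field K] [NumberField K] [Field L] [NumberField L] [Algebra K L]

theorem den_coord {A B : 𝓞 K} {θ : L} (h : Cub K L (A : K) (B : K) θ) (x : 𝓞 L) :
    ∃ c : Fin 3 → 𝓞 K, ∀ i, (c i : K) = (dsc A B : 𝓞 K) * h.co i (x : L) := by
  obtain ⟨t, ht⟩ := theta_int h
  obtain ⟨s, hs⟩ := Ea_tr (K := K) (x * x)
  obtain ⟨t0, ht0⟩ := Ea_tr (K := K) x
  obtain ⟨t1, ht1⟩ := Ea_tr (K := K) (x * t)
  obtain ⟨t2, ht2⟩ := Ea_tr (K := K) (x * (t * t))
  have e1 : ((x * x : 𝓞 L) : L) = (x : L) * (x : L) := by push_cast; rfl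
  have e2 : ((x * t : 𝓞 L) : L) = (x : L) * θ := by rw [← ht]; push_cast; rfl
  have e3 : ((x * (t * t) : 𝓞 L) : L) = (x : L) * θ ^ 2 := by
    rw [← ht, sq]
    push_cast
    rfl
  rw [e1, h.trace, (h.co_mul _ _).1, (h.co_mul _ _).2.2] at hs
  rw [h.trace] at ht0
  rw [e2, h.trace, (h.co_mul _ _).1, (h.co_mul _ _).2.2, h.co_theta.1, h.co_theta.2.1,
    h.co_theta.2.2] at ht1
  rw [e3, h.trace, (h.co_mul _ _).1, (h.co_mul _ _).2.2, h.co_theta_sq.1, h.co_theta_sq.2.1,
    h.co_theta_sq.2.2] at ht2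
  obtain ⟨a, ha⟩ : ∃ a, a = algebraMap (𝓞 K) K A := ⟨_, rfl⟩
  obtain ⟨b, hb⟩ : ∃ b, b = algebraMap (𝓞 K) K B := ⟨_, rfl⟩
  obtain ⟨c0, hc0⟩ : ∃ c0, c0 = h.co 0 (x : L) := ⟨_, rfl⟩
  obtain ⟨c1, hc1⟩ : ∃ c1, c1 = h.co 1 (x : L) := ⟨_, rfl⟩
  obtain ⟨c2, hc2⟩ : ∃ c2, c2 = h.co 2 (x : L) := ⟨_, rfl⟩
  have hs' : algebraMap (𝓞 K) K s = 3 * (c0 * c0 - b * (c1 * c2 + c2 * c1)) -
      2 * a * (c0 * c2 + c1 * c1 + c2 * c0 - a * (c2 * c2)) := by
    rw [hc0, hc1, hc2, ha, hb]
    exact hs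
  have ht0' : algebraMap (𝓞 K) K t0 = 3 * c0 - 2 * a * c2 := by
    rw [hc0, hc2, ha]
    exact ht0
  have ht1' : algebraMap (𝓞 K) K t1 = 3 * (c0 * 0 - b * (c1 * 0 + c2 * 1)) -
      2 * a * (c0 * 0 + c1 * 1 + c2 * 0 - a * (c2 * 0)) := by
    rw [hc0, hc1, hc2, ha, hb]
    exact ht1
  have ht2' : algebraMap (𝓞 K) K t2 = 3 * (c0 * 0 - b * (c1 * 1 + c2 * 0)) -
      2 * a * (c0 * 1 + c1 * 0 + c2 * 0 - a * (c2 * 1)) := by
    rw [hc0, hc1, hc2, ha, hb]
    exact ht2
  have hd : ((dsc A B : 𝓞 K) : K) = 4 * a ^ 3 + 27 * b ^ 2 := by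
    rw [ha, hb]
    exact Ea_cast A B
  have key0 : ∃ E : 𝓞 K, (E : K) = -(h.co 0 (x : L) ^ 2 * ((dsc A B : 𝓞 K) : K)) := by
    refine ⟨s * ((-2 * A) * (2 * A ^ 2) - 9 * B ^ 2) - t1 * (t1 * (2 * A ^ 2) + 3 * B * t2) +
        t2 * (t1 * (-3 * B) + 2 * A * t2), ?_⟩
    rw [hd, ← hc0]
    show algebraMap (𝓞 K) K _ = _
    simp only [map_add, map_mul, map_sub, map_pow, map_neg, map_ofNat, hs', ht1', ht2', ← ha, ← hb]
    ring
  have key1 : ∃ E : 𝓞 K, (E : K) = -(h.co 1 (x : L) ^ 2 * ((dsc A B : 𝓞 K) : K)) := by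
    refine ⟨3 * (s * (2 * A ^ 2) - t2 * t2) - t0 * (t0 * (2 * A ^ 2) + 2 * A * t2) +
        (-2 * A) * (t0 * t2 + 2 * A * s), ?_⟩
    rw [hd, ← hc1]
    show algebraMap (𝓞 K) K _ = _
    simp only [map_add, map_mul, map_sub, map_pow, map_neg, map_ofNat, hs', ht0', ht2', ← ha, ← hb]
    ring
  have key2 : ∃ E : 𝓞 K, (E : K) = -(h.co 2 (x : L) ^ 2 * ((dsc A B : 𝓞 K) : K)) := by
    refine ⟨3 * (-2 * A * s - t1 * t1) + t0 * (2 * A * t0), ?_⟩
    rw [hd, ← hc2]
    show algebraMap (𝓞 K) K _ = _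
    simp only [map_add, map_mul, map_sub, map_pow, map_neg, map_ofNat, hs', ht0', ht1', ← ha, ← hb]
    ring
  have key : ∀ i, ∃ E : 𝓞 K, (E : K) = -(h.co i (x : L) ^ 2 * ((dsc A B : 𝓞 K) : K)) := by
    intro i
    fin_cases i
    · exact key0
    · exact key1
    · exact key2
  have hint : ∀ i, IsIntegral ℤ (((dsc A B : 𝓞 K) : K) * h.co i (x : L)) := by
    intro i
    obtain ⟨E, hE⟩ := key i
    refine IsIntegral.of_pow (n := 2) (by norm_num) ?_
    have e : (((dsc A B : 𝓞 K) : K) * h.co i (x : L)) ^ 2 = ((-(dsc A B * E) : 𝓞 K) : K) := by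
      have e1 : ((-(dsc A B * E) : 𝓞 K) : K) = -(((dsc A B : 𝓞 K) : K) * (E : K)) := by
        show algebraMap (𝓞 K) K _ = _
        rw [map_neg, map_mul]
      rw [e1, hE]
      ring
    rw [e]
    exact (-(dsc A B * E) : 𝓞 K).isIntegral_coe
  exact ⟨fun i => ⟨_, hint i⟩, fun i => rfl⟩

theorem leg_res {w : HeightOneSpectrum (𝓞 L)} (hw : OddP w) {x : 𝓞 L} (hx : x ∉ w.asIdeal) :
    la w (sc (x : L)) = leg (Ideal.Quotient.mk w.asIdeal x) := by
  have hmem : ∀ z : 𝓞 L, w.valuation L (z : L) < 1 ↔ z ∈ w.asIdeal :=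
    fun z => w.valuation_lt_one_iff_mem z
  have hv : w.valuation L (x : L) = 1 :=
    le_antisymm (w.valuation_le_one x) (not_lt.1 fun h => hx ((hmem x).1 h))
  have hx0 : (x : L) ≠ 0 := by
    intro h0
    rw [h0, map_zero] at hv
    exact zero_ne_one hv
  have hiff : Sq (w.valuation L) (x : L) ↔ IsSquare (Ideal.Quotient.mk w.asIdeal x) := by
    constructor
    · rintro ⟨t, ht⟩
      have ht2 : w.valuation L (t ^ 2) = 1 := by
        have e : t ^ 2 = (x : L) - ((x : L) - t ^ 2) := by ring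
        rw [e, Valuation.map_sub_eq_of_lt_left _ (by rw [hv]; exact ht), hv]
      rw [map_pow] at ht2
      have ht1 : w.valuation L t = 1 := (pow_eq_one_iff.1 ht2).resolve_right two_ne_zero
      obtain ⟨s, hs⟩ := Tf_approx w ht1.le
      have hs1 : w.valuation L (t + (s : L)) ≤ 1 :=
        Valuation.map_add_le _ ht1.le (w.valuation_le_one s)
      have h1 : w.valuation L ((x - s * s : 𝓞 L) : L) < 1 := by
        have e : ((x - s * s : 𝓞 L) : L) = ((x : L) - t ^ 2) + (t - (s : L)) * (t + (s : L)) := by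
          show algebraMap (𝓞 L) L _ = _
          rw [map_sub, map_mul]
          ring
        rw [e]
        refine Valuation.map_add_lt _ ht ?_
        rw [map_mul]
        exact mul_lt_one_of_nonneg_of_lt_one_left zero_le hs hs1
      rw [hmem, ← Ideal.Quotient.eq_zero_iff_mem, map_sub, map_mul, sub_eq_zero] at h1
      exact ⟨_, h1⟩
    · rintro ⟨r, hr⟩
      obtain ⟨s, rfl⟩ := Ideal.Quotient.mk_surjective r
      refine ⟨(s : L), ?_⟩
      have h1 : x - s * s ∈ w.asIdeal := by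
        rw [← Ideal.Quotient.eq_zero_iff_mem, map_sub, map_mul, sub_eq_zero]
        exact hr
      have e : (x : L) - (s : L) ^ 2 = ((x - s * s : 𝓞 L) : L) := by
        show _ = algebraMap (𝓞 L) L _
        rw [map_sub, map_mul]
        ring
      rw [e, hmem]
      exact h1
  rw [H38T1.la_sc hw hx0, lam_unit hv]
  unfold leg
  by_cases hsq : Sq (w.valuation L) (x : L)
  · rw [if_pos hsq, if_pos (hiff.1 hsq)]
  · rw [if_neg hsq, if_neg (fun h => hsq (hiff.2 h))]

end H76PP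

end S_H85_PP_Sd

section S_H85_PP_Se

set_option autoImplicit false
set_option linter.unusedSectionVars false
open scoped Classical

open WithZero NumberField IsDedekindDomain H38RT
open H38T1 (SC sc scu rep eo la si Pri OddP tp unif)

namespace H76PP

variable {K L : Type} [Field K] [NumberField K] [Field L] [NumberField L] [Algebra K L]

theorem Se_coe (a : 𝓞 K) :
    algebraMap (𝓞 L) L (algebraMap (𝓞 K) (𝓞 L) a) = algebraMap K L (a : K) := by
  rw [← IsScalarTower.algebraMap_apply (𝓞 K) (𝓞 L) L]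
  exact IsScalarTower.algebraMap_apply (𝓞 K) K L a

theorem Se_eq {A B : 𝓞 K} {θ : L} (h : Cub K L (A : K) (B : K) θ) {t : 𝓞 L} (ht : (t : L) = θ)
    {y : 𝓞 L} {c : Fin 3 → 𝓞 K} (hc : ∀ i, (c i : K) = (dsc A B : 𝓞 K) * h.co i (y : L)) :
    algebraMap (𝓞 K) (𝓞 L) (dsc A B) * y = algebraMap (𝓞 K) (𝓞 L) (c 0) +
      algebraMap (𝓞 K) (𝓞 L) (c 1) * t + algebraMap (𝓞 K) (𝓞 L) (c 2) * t ^ 2 := by
  have ht' : algebraMap (𝓞 L) L t = θ := ht
  apply RingOfIntegers.ext
  have e1 : algebraMap (𝓞 L) L (algebraMap (𝓞 K) (𝓞 L) (dsc A B) * y) =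
      algebraMap K L ((dsc A B : 𝓞 K) : K) * (y : L) := by
    rw [map_mul, Se_coe]
  have e2 : algebraMap (𝓞 L) L (algebraMap (𝓞 K) (𝓞 L) (c 0) + algebraMap (𝓞 K) (𝓞 L) (c 1) * t +
      algebraMap (𝓞 K) (𝓞 L) (c 2) * t ^ 2) = algebraMap K L (c 0 : K) +
      algebraMap K L (c 1 : K) * θ + algebraMap K L (c 2 : K) * θ ^ 2 := by
    rw [map_add, map_add, map_mul, map_mul, map_pow, Se_coe, Se_coe, Se_coe, ht']
  refine e1.trans (Eq.trans ?_ e2.symm)
  rw [hc 0, hc 1, hc 2, map_mul, map_mul, map_mul]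
  conv_lhs => rw [h.eq_co (y : L)]
  ring

theorem Se_root {A B : 𝓞 K} {θ : L} (h : Cub K L (A : K) (B : K) θ) {t : 𝓞 L} (ht : (t : L) = θ) :
    t ^ 3 + algebraMap (𝓞 K) (𝓞 L) A * t + algebraMap (𝓞 K) (𝓞 L) B = 0 := by
  have ht' : algebraMap (𝓞 L) L t = θ := ht
  apply RingOfIntegers.ext
  have e1 : algebraMap (𝓞 L) L (t ^ 3 + algebraMap (𝓞 K) (𝓞 L) A * t +
      algebraMap (𝓞 K) (𝓞 L) B) = 0 := by
    rw [map_add, map_add, map_mul, map_pow, Se_coe, Se_coe, ht']
    exact h.root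
  exact e1.trans (map_zero _).symm

theorem Se_D {A B : 𝓞 K} {v : HeightOneSpectrum (𝓞 K)} (hd : dsc A B ∉ v.asIdeal) :
    (Ideal.Quotient.mk v.asIdeal (dsc A B) : 𝓞 K ⧸ v.asIdeal) ≠ 0 := by
  intro h0
  exact hd (Ideal.Quotient.eq_zero_iff_mem.1 h0)

theorem cubA_res {A B : 𝓞 K} {θ : L} (h : Cub K L (A : K) (B : K) θ) {t : 𝓞 L} (ht : (t : L) = θ)
    {v : HeightOneSpectrum (𝓞 K)} (hd : dsc A B ∉ v.asIdeal) :
    CubA (𝓞 K ⧸ v.asIdeal) (𝓞 L ⧸ v.asIdeal.map (algebraMap (𝓞 K) (𝓞 L)))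
      (Ideal.Quotient.mk v.asIdeal A) (Ideal.Quotient.mk v.asIdeal B)
      (Ideal.Quotient.mk (v.asIdeal.map (algebraMap (𝓞 K) (𝓞 L))) t) := by
  refine ⟨?_, ?_, ?_⟩
  · have h1 := congrArg (Ideal.Quotient.mk (v.asIdeal.map (algebraMap (𝓞 K) (𝓞 L))))
      (Se_root h ht)
    rw [map_add, map_add, map_mul, map_pow, map_zero] at h1
    exact h1
  · intro x
    obtain ⟨y, rfl⟩ := Ideal.Quotient.mk_surjective x
    obtain ⟨c, hc⟩ := den_coord h y
    have h1 := congrArg (Ideal.Quotient.mk (v.asIdeal.map (algebraMap (𝓞 K) (𝓞 L))))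
      (Se_eq h ht hc)
    rw [map_add, map_add, map_mul, map_mul, map_mul, map_pow] at h1
    have hD := Se_D hd
    set D : 𝓞 K ⧸ v.asIdeal := Ideal.Quotient.mk v.asIdeal (dsc A B) with hDdef
    set f := algebraMap (𝓞 K ⧸ v.asIdeal) (𝓞 L ⧸ v.asIdeal.map (algebraMap (𝓞 K) (𝓞 L))) with hf
    have h2 : f D * Ideal.Quotient.mk (v.asIdeal.map (algebraMap (𝓞 K) (𝓞 L))) y =
        f (Ideal.Quotient.mk v.asIdeal (c 0)) + f (Ideal.Quotient.mk v.asIdeal (c 1)) *
          Ideal.Quotient.mk (v.asIdeal.map (algebraMap (𝓞 K) (𝓞 L))) t +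
        f (Ideal.Quotient.mk v.asIdeal (c 2)) *
          Ideal.Quotient.mk (v.asIdeal.map (algebraMap (𝓞 K) (𝓞 L))) t ^ 2 := h1
    have h3 : f D⁻¹ * f D = 1 := by rw [← map_mul, inv_mul_cancel₀ hD, map_one]
    refine ⟨D⁻¹ * Ideal.Quotient.mk v.asIdeal (c 0), D⁻¹ * Ideal.Quotient.mk v.asIdeal (c 1),
      D⁻¹ * Ideal.Quotient.mk v.asIdeal (c 2), ?_⟩
    rw [map_mul, map_mul, map_mul]
    linear_combination f D⁻¹ * h2 - Ideal.Quotient.mk (v.asIdeal.map (algebraMap (𝓞 K) (𝓞 L))) y * h3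
  · rw [← h.finrank]
    haveI := v.isMaximal
    exact Ideal.finrank_quotient_map v.asIdeal K L

theorem red_res {A B : 𝓞 K} {θ : L} (h : Cub K L (A : K) (B : K) θ)
    {v : HeightOneSpectrum (𝓞 K)} (hd : dsc A B ∉ v.asIdeal) :
    IsReduced (𝓞 L ⧸ v.asIdeal.map (algebraMap (𝓞 K) (𝓞 L))) := by
  obtain ⟨t, ht⟩ := theta_int h
  refine alg_red (cubA_res h ht hd) ?_
  intro h0
  refine Se_D hd ?_
  rw [← h0]
  unfold dsc
  rw [map_add, map_mul, map_mul, map_pow, map_pow, map_ofNat, map_ofNat]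

theorem norm_mk {A B : 𝓞 K} {θ : L} (h : Cub K L (A : K) (B : K) θ)
    {v : HeightOneSpectrum (𝓞 K)} (hd : dsc A B ∉ v.asIdeal) {x : 𝓞 L} {n : 𝓞 K}
    (hn : (n : K) = Algebra.norm K (x : L)) :
    Ideal.Quotient.mk v.asIdeal n = Algebra.norm (𝓞 K ⧸ v.asIdeal)
      (Ideal.Quotient.mk (v.asIdeal.map (algebraMap (𝓞 K) (𝓞 L))) x) := by
  obtain ⟨t, ht⟩ := theta_int h
  obtain ⟨c, hc⟩ := den_coord h x
  have hA := cubA_res h ht hd
  have hD := Se_D hd
  -- the identity in the integers of K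
  have e1 : dsc A B ^ 3 * n = (!![c 0, -B * c 2, -B * c 1; c 1, c 0 - A * c 2, -A * c 1 - B * c 2;
      c 2, c 1, c 0 - A * c 2]).det := by
    apply RingOfIntegers.ext
    have g1 : algebraMap (𝓞 K) K (dsc A B ^ 3 * n) = ((dsc A B : 𝓞 K) : K) ^ 3 * (n : K) := by
      rw [map_mul, map_pow]
    have c0 : algebraMap (𝓞 K) K (c 0) = ((dsc A B : 𝓞 K) : K) * h.co 0 (x : L) := hc 0
    have c1 : algebraMap (𝓞 K) K (c 1) = ((dsc A B : 𝓞 K) : K) * h.co 1 (x : L) := hc 1
    have c2 : algebraMap (𝓞 K) K (c 2) = ((dsc A B : 𝓞 K) : K) * h.co 2 (x : L) := hc 2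
    refine g1.trans ?_
    rw [hn, h.norm, Matrix.det_fin_three, Matrix.det_fin_three]
    simp only [Matrix.of_apply, Matrix.cons_val', Matrix.cons_val_zero, Matrix.cons_val_one,
      Matrix.cons_val_two, Matrix.head_cons, Matrix.tail_cons, Matrix.head_fin_const,
      Matrix.empty_val', Matrix.cons_val_fin_one]
    change _ = algebraMap (𝓞 K) K _
    simp only [map_add, map_sub, map_mul, map_neg, c0, c1, c2]
    ring
  have h1 := congrArg (Ideal.Quotient.mk (v.asIdeal.map (algebraMap (𝓞 K) (𝓞 L))))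
    (Se_eq h ht hc)
  rw [map_add, map_add, map_mul, map_mul, map_mul, map_pow] at h1
  set D : 𝓞 K ⧸ v.asIdeal := Ideal.Quotient.mk v.asIdeal (dsc A B) with hDdef
  set f := algebraMap (𝓞 K ⧸ v.asIdeal) (𝓞 L ⧸ v.asIdeal.map (algebraMap (𝓞 K) (𝓞 L))) with hf
  have h2 : f D * Ideal.Quotient.mk (v.asIdeal.map (algebraMap (𝓞 K) (𝓞 L))) x =
      f (Ideal.Quotient.mk v.asIdeal (c 0)) + f (Ideal.Quotient.mk v.asIdeal (c 1)) *
        Ideal.Quotient.mk (v.asIdeal.map (algebraMap (𝓞 K) (𝓞 L))) t +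
      f (Ideal.Quotient.mk v.asIdeal (c 2)) *
        Ideal.Quotient.mk (v.asIdeal.map (algebraMap (𝓞 K) (𝓞 L))) t ^ 2 := h1
  have h3 := congrArg (Algebra.norm (𝓞 K ⧸ v.asIdeal)) h2
  rw [alg_norm hA, map_mul, hf, Algebra.norm_algebraMap, hA.rank] at h3
  have h4 := congrArg (Ideal.Quotient.mk v.asIdeal) e1
  have h5 : D ^ 3 * Ideal.Quotient.mk v.asIdeal n = D ^ 3 * Algebra.norm (𝓞 K ⧸ v.asIdeal)
      (Ideal.Quotient.mk (v.asIdeal.map (algebraMap (𝓞 K) (𝓞 L))) x) := by
    rw [h3]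
    rw [map_mul, map_pow] at h4
    rw [h4, Matrix.det_fin_three, Matrix.det_fin_three]
    simp only [Matrix.of_apply, Matrix.cons_val', Matrix.cons_val_zero, Matrix.cons_val_one,
      Matrix.cons_val_two, Matrix.head_cons, Matrix.tail_cons, Matrix.head_fin_const,
      Matrix.empty_val', Matrix.cons_val_fin_one]
    simp only [map_add, map_sub, map_mul, map_neg]
  exact mul_left_cancel₀ (pow_ne_zero 3 hD) h5

end H76PP

end S_H85_PP_Se

section S_H85_PP_Sf

set_option autoImplicit false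
set_option linter.unusedSectionVars false
open scoped Classical

open WithZero NumberField IsDedekindDomain H38RT
open H38T1 (SC sc scu rep eo la si Pri OddP tp unif)

namespace H76PP

variable {K L : Type} [Field K] [NumberField K] [Field L] [NumberField L] [Algebra K L]

private theorem Sf_leg {A R : Type} [CommRing A] [CommRing R] (f : A →+* R)
    (hf : Function.Surjective f) (M : Ideal R) (x : A) :
    leg (Ideal.Quotient.mk M (f x)) = leg (Ideal.Quotient.mk (M.comap f) x) := by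
  have h : IsSquare (Ideal.Quotient.mk M (f x)) ↔ IsSquare (Ideal.Quotient.mk (M.comap f) x) := by
    constructor
    · rintro ⟨r, hr⟩
      obtain ⟨s, rfl⟩ := Ideal.Quotient.mk_surjective r
      obtain ⟨y, rfl⟩ := hf s
      refine ⟨Ideal.Quotient.mk _ y, ?_⟩
      rw [← map_mul, Ideal.Quotient.eq] at hr ⊢
      rw [Ideal.mem_comap, map_sub, map_mul]
      exact hr
    · rintro ⟨r, hr⟩
      obtain ⟨y, rfl⟩ := Ideal.Quotient.mk_surjective r
      refine ⟨Ideal.Quotient.mk _ (f y), ?_⟩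
      rw [← map_mul, Ideal.Quotient.eq] at hr ⊢
      rw [Ideal.mem_comap, map_sub, map_mul] at hr
      exact hr
  unfold leg
  by_cases h1 : IsSquare (Ideal.Quotient.mk M (f x))
  · rw [if_pos h1, if_pos (h.1 h1)]
  · rw [if_neg h1, if_neg (fun h2 => h1 (h.2 h2))]

private theorem Sf_inj : Function.Injective (algebraMap (𝓞 K) (𝓞 L)) := by
  intro x y h
  have h1 : algebraMap K L (algebraMap (𝓞 K) K x) = algebraMap K L (algebraMap (𝓞 K) K y) := by
    have h2 : ∀ z : 𝓞 K, algebraMap K L (algebraMap (𝓞 K) K z) =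
      algebraMap (𝓞 L) L (algebraMap (𝓞 K) (𝓞 L) z) := fun _ => rfl
    rw [h2, h2, h]
  exact RingOfIntegers.coe_injective ((algebraMap K L).injective h1)

private theorem Sf_dn {v : HeightOneSpectrum (𝓞 K)} (w : HeightOneSpectrum (𝓞 L)) :
    dn K w = v ↔ v.asIdeal.map (algebraMap (𝓞 K) (𝓞 L)) ≤ w.asIdeal := by
  rw [Ideal.map_le_iff_le_comap]
  constructor
  · rintro rfl
    exact le_rfl
  · intro h
    apply HeightOneSpectrum.ext
    have h1 : (dn K w).asIdeal ≠ ⊤ := (dn K w).isPrime.ne_top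
    exact (v.isMaximal.eq_of_le h1 h).symm

/-- The maximal ideals of `𝓞 L / v` are the places above `v`. -/
private theorem Sf_bij (v : HeightOneSpectrum (𝓞 K)) :
    ∃ e : MaximalSpectrum (𝓞 L ⧸ v.asIdeal.map (algebraMap (𝓞 K) (𝓞 L))) →
      {w : HeightOneSpectrum (𝓞 L) // dn K w = v}, Function.Bijective e ∧
      ∀ M, (e M).1.asIdeal = M.asIdeal.comap
        (Ideal.Quotient.mk (v.asIdeal.map (algebraMap (𝓞 K) (𝓞 L)))) := by
  have hsurj : Function.Surjective
      (Ideal.Quotient.mk (v.asIdeal.map (algebraMap (𝓞 K) (𝓞 L)))) := Ideal.Quotient.mk_surjective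
  have key : ∀ M : MaximalSpectrum (𝓞 L ⧸ v.asIdeal.map (algebraMap (𝓞 K) (𝓞 L))),
      ∃ w : {w : HeightOneSpectrum (𝓞 L) // dn K w = v}, w.1.asIdeal = M.asIdeal.comap
        (Ideal.Quotient.mk (v.asIdeal.map (algebraMap (𝓞 K) (𝓞 L)))) := by
    intro M
    have hMp : M.asIdeal.IsPrime := M.isMaximal.isPrime
    have hle : v.asIdeal.map (algebraMap (𝓞 K) (𝓞 L)) ≤ M.asIdeal.comap
        (Ideal.Quotient.mk (v.asIdeal.map (algebraMap (𝓞 K) (𝓞 L)))) := by
      intro z hz
      rw [Ideal.mem_comap, Ideal.Quotient.eq_zero_iff_mem.2 hz]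
      exact M.asIdeal.zero_mem
    have hne : M.asIdeal.comap
        (Ideal.Quotient.mk (v.asIdeal.map (algebraMap (𝓞 K) (𝓞 L)))) ≠ ⊥ := by
      intro h0
      rw [h0, le_bot_iff, Ideal.map_eq_bot_iff_of_injective Sf_inj] at hle
      exact v.ne_bot hle
    exact ⟨⟨⟨_, hMp.comap _, hne⟩, (Sf_dn _).2 hle⟩, rfl⟩
  choose e he using key
  refine ⟨e, ⟨?_, ?_⟩, he⟩
  · intro M N hMN
    have h1 : M.asIdeal.comap (Ideal.Quotient.mk (v.asIdeal.map (algebraMap (𝓞 K) (𝓞 L)))) =
        N.asIdeal.comap (Ideal.Quotient.mk (v.asIdeal.map (algebraMap (𝓞 K) (𝓞 L)))) := by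
      rw [← he M, ← he N, hMN]
    exact MaximalSpectrum.ext (Ideal.comap_injective_of_surjective _ hsurj h1)
  · intro w
    have hwm : w.1.asIdeal.IsMaximal := w.1.isMaximal
    have hle := (Sf_dn (K := K) w.1).1 w.2
    have hcm : (w.1.asIdeal.map
        (Ideal.Quotient.mk (v.asIdeal.map (algebraMap (𝓞 K) (𝓞 L))))).comap
        (Ideal.Quotient.mk (v.asIdeal.map (algebraMap (𝓞 K) (𝓞 L)))) = w.1.asIdeal := by
      rw [Ideal.comap_map_of_surjective _ hsurj]
      have h1 : Ideal.comap (Ideal.Quotient.mk (v.asIdeal.map (algebraMap (𝓞 K) (𝓞 L)))) ⊥ =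
          v.asIdeal.map (algebraMap (𝓞 K) (𝓞 L)) := by
        ext z
        rw [Ideal.mem_comap, Ideal.mem_bot, Ideal.Quotient.eq_zero_iff_mem]
      rw [h1]
      exact sup_eq_left.2 hle
    have hmax : (w.1.asIdeal.map
        (Ideal.Quotient.mk (v.asIdeal.map (algebraMap (𝓞 K) (𝓞 L))))).IsMaximal := by
      rcases Ideal.map_eq_top_or_isMaximal_of_surjective _ hsurj hwm with h | h
      · exfalso
        rw [h, Ideal.comap_top] at hcm
        exact hwm.ne_top hcm.symm
      · exact h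
    refine ⟨⟨_, hmax⟩, ?_⟩
    apply Subtype.ext
    apply HeightOneSpectrum.ext
    rw [he]
    exact hcm

theorem leg_above {A B : 𝓞 K} {θ : L} (h : Cub K L (A : K) (B : K) θ)
    {v : HeightOneSpectrum (𝓞 K)} (hv : OddP v) (hd : dsc A B ∉ v.asIdeal) {x : 𝓞 L}
    (hx : ∀ w : HeightOneSpectrum (𝓞 L), dn K w = v → x ∉ w.asIdeal) :
    v.valuation K (Algebra.norm K (x : L)) = 1 ∧
      la v (sc (Algebra.norm K (x : L))) =
        ∑ᶠ w : {w : HeightOneSpectrum (𝓞 L) // dn K w = v}, la w.1 (sc (x : L)) := by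
  obtain ⟨t, ht⟩ := theta_int h
  have hred := red_res h hd
  have hfin : Finite (𝓞 K ⧸ v.asIdeal) := Ideal.finiteQuotientOfFreeOfNeBot _ v.ne_bot
  have hmf : Module.Finite (𝓞 K ⧸ v.asIdeal)
      (𝓞 L ⧸ v.asIdeal.map (algebraMap (𝓞 K) (𝓞 L))) :=
    Module.finite_of_finrank_pos (by rw [(cubA_res h ht hd).rank]; norm_num)
  have h2 : (2 : 𝓞 K ⧸ v.asIdeal) ≠ 0 := by
    intro h0
    have h1 : Ideal.Quotient.mk v.asIdeal (2 : 𝓞 K) = 0 := by
      rw [map_ofNat]
      exact h0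
    rw [Ideal.Quotient.eq_zero_iff_mem] at h1
    have h3 : v.valuation K (algebraMap (𝓞 K) K 2) < 1 :=
      (v.valuation_lt_one_iff_mem (K := K) (2 : 𝓞 K)).2 h1
    have h5 : algebraMap (𝓞 K) K 2 = 2 := map_ofNat (algebraMap (𝓞 K) K) 2
    rw [h5, hv] at h3
    exact lt_irrefl _ h3
  obtain ⟨e, hbij, he⟩ := Sf_bij (L := L) v
  -- `x` is a unit modulo `v`
  have hu : IsUnit (Ideal.Quotient.mk (v.asIdeal.map (algebraMap (𝓞 K) (𝓞 L))) x) := by
    by_contra hcon
    obtain ⟨M, hM, hxM⟩ := exists_max_ideal_of_mem_nonunits (mem_nonunits_iff.2 hcon)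
    refine hx (e ⟨M, hM⟩).1 (e ⟨M, hM⟩).2 ?_
    rw [he, Ideal.mem_comap]
    exact hxM
  obtain ⟨n, hn⟩ : ∃ n : 𝓞 K, (n : K) = Algebra.norm K (x : L) :=
    ⟨⟨_, Algebra.isIntegral_norm K x.isIntegral_coe⟩, rfl⟩
  have hnm := norm_mk h hd hn
  have hnv : n ∉ v.asIdeal := by
    intro h0
    have h1 : Ideal.Quotient.mk v.asIdeal n = 0 := Ideal.Quotient.eq_zero_iff_mem.2 h0
    have h3 : IsUnit (Algebra.norm (𝓞 K ⧸ v.asIdeal)
      (Ideal.Quotient.mk (v.asIdeal.map (algebraMap (𝓞 K) (𝓞 L))) x)) := hu.map _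
    rw [← hnm, h1] at h3
    exact not_isUnit_zero h3
  constructor
  · rw [← hn]
    exact (v.valuation_eq_one_iff_notMem (K := K)).2 hnv
  · rw [← hn, leg_res hv hnv, hnm, leg_max h2 hu,
      finsum_eq_of_bijective e hbij (g := fun w => leg (Ideal.Quotient.mk w.1.asIdeal x))]
    · refine finsum_congr fun w => ?_
      have hw : OddP w.1 := by
        rw [oddP_dn (K := K), w.2]
        exact hv
      exact (leg_res hw (hx w.1 w.2)).symm
    · intro M
      rw [he M]
      exact Sf_leg _ Ideal.Quotient.mk_surjective M.asIdeal x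

end H76PP

end S_H85_PP_Sf

section S_H85_PP_Sg

set_option autoImplicit false
set_option linter.unusedSectionVars false
open scoped Classical

open WithZero NumberField IsDedekindDomain H38RT
open H38T1 (SC sc scu rep eo la si Pri OddP tp unif)

namespace H76PP

variable {K L : Type} [Field K] [NumberField K] [Field L] [NumberField L] [Algebra K L]

private theorem Sg_inj : Function.Injective (algebraMap (𝓞 K) (𝓞 L)) := by
  intro x y h
  have h1 : algebraMap K L (algebraMap (𝓞 K) K x) = algebraMap K L (algebraMap (𝓞 K) K y) := by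
    show algebraMap (𝓞 L) L (algebraMap (𝓞 K) (𝓞 L) x) =
      algebraMap (𝓞 L) L (algebraMap (𝓞 K) (𝓞 L) y)
    rw [h]
  exact RingOfIntegers.coe_injective ((algebraMap K L).injective h1)

private theorem Sg_eq {F : Type} [Field F] {V : Valuation F (WithZero (Multiplicative ℤ))} {x : F}
    (hx : x ≠ 0) : V x = exp (- ord V x) := by
  unfold ord
  rw [neg_neg, exp_log ((Valuation.ne_zero_iff V).2 hx)]

theorem ord_unr {A B : 𝓞 K} {θ : L} (h : Cub K L (A : K) (B : K) θ)
    {w : HeightOneSpectrum (𝓞 L)} (hd : dsc A B ∉ (dn K w).asIdeal) {x : K} (hx : x ≠ 0) :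
    ord (w.valuation L) (algebraMap K L x) = ord ((dn K w).valuation K) x := by
  obtain ⟨e, he, h1⟩ := ord_dn (K := K) w
  rw [h1 x hx]
  by_cases he2 : 2 ≤ e
  · exfalso
    obtain ⟨I, hI⟩ : ∃ I : Ideal (𝓞 L), I = (dn K w).asIdeal.map (algebraMap (𝓞 K) (𝓞 L)) :=
      ⟨_, rfl⟩
    have hIb : I ≠ 0 := by
      intro h0
      rw [hI] at h0
      exact (dn K w).ne_bot
        ((Ideal.map_eq_bot_iff_of_injective (Sg_inj (K := K) (L := L))).1 h0)
    have hI2 : I ≤ w.asIdeal ^ 2 := by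
      rw [hI, Ideal.map_le_iff_le_comap]
      intro y hy
      rw [Ideal.mem_comap]
      by_cases hy0 : y = 0
      · rw [hy0, map_zero]
        exact zero_mem _
      have hyK : algebraMap (𝓞 K) K y ≠ 0 := fun h0 => hy0
        (RingOfIntegers.coe_injective (by rw [h0, map_zero]))
      have h2 : (dn K w).valuation K (algebraMap (𝓞 K) K y) < 1 :=
        ((dn K w).valuation_lt_one_iff_mem (K := K) y).2 hy
      rw [Sg_eq (V := (dn K w).valuation K) hyK, ← exp_zero, exp_lt_exp] at h2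
      have h3 := h1 _ hyK
      have hyL : algebraMap K L (algebraMap (𝓞 K) K y) ≠ 0 := fun h0 =>
        hyK ((algebraMap K L).injective (by rw [h0, map_zero]))
      have h4 : w.valuation L (algebraMap (𝓞 L) L (algebraMap (𝓞 K) (𝓞 L) y)) ≤
          exp (-((2 : ℕ) : ℤ)) := by
        have h5 : w.valuation L (algebraMap K L (algebraMap (𝓞 K) K y)) ≤
            exp (-((2 : ℕ) : ℤ)) := by
          rw [Sg_eq (V := w.valuation L) hyL, exp_le_exp, h3]
          have he' : (2 : ℤ) ≤ e := by exact_mod_cast he2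
          push_cast
          nlinarith
        exact h5
      rw [w.valuation_of_algebraMap] at h4
      exact (w.intValuation_le_pow_iff_mem _ 2).1 h4
    obtain ⟨J, hJ⟩ := Ideal.dvd_iff_le.2 hI2
    have hred : IsReduced (𝓞 L ⧸ I) := by
      rw [hI]
      exact red_res h hd
    have hwJ : w.asIdeal * J ≤ I := by
      intro y hy
      have h3 : y ^ 2 ∈ I := by
        have h2 : (w.asIdeal * J) ^ 2 ≤ I := by
          have h6 : (w.asIdeal * J) ^ 2 = I * J := by
            rw [hJ]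
            ring
          rw [h6]
          exact (Ideal.mul_le_inf (I := I) (J := J)).trans inf_le_left
        exact h2 (Ideal.pow_mem_pow hy 2)
      have h4 : IsNilpotent (Ideal.Quotient.mk I y) :=
        ⟨2, by rw [← map_pow]; exact Ideal.Quotient.eq_zero_iff_mem.2 h3⟩
      exact Ideal.Quotient.eq_zero_iff_mem.1 (hred.eq_zero _ h4)
    have h5 : w.asIdeal * (w.asIdeal * J) ∣ 1 * (w.asIdeal * J) := by
      rw [one_mul, ← mul_assoc, ← pow_two, ← hJ]
      exact Ideal.dvd_iff_le.2 hwJ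
    have h6 : w.asIdeal * J ≠ 0 := by
      intro h0
      apply hIb
      rw [hJ, pow_two, mul_assoc, h0, mul_zero]
    have h7 : w.asIdeal ∣ 1 := (mul_dvd_mul_iff_right h6).1 h5
    exact w.isPrime.ne_top (Ideal.isUnit_iff.1 (isUnit_of_dvd_one h7))
  · have h2 : e = 1 := by omega
    rw [h2]
    simp

end H76PP

end S_H85_PP_Sg

section S_H85_PP_Sh

set_option autoImplicit false
set_option linter.unusedSectionVars false
open scoped Classical

open WithZero NumberField IsDedekindDomain H38RT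
open H38T1 (SC sc scu rep eo la si Pri OddP tp unif)

namespace H76PP

lemma PPSSh_nat1 {K : Type} [Field K] [NumberField K] (v : HeightOneSpectrum (𝓞 K))
    {γ : WithZero (Multiplicative ℤ)} (hγ : γ ≠ 0) :
    ∃ n : ℕ, n ≠ 0 ∧ v.valuation K (n : K) < γ := by
  have hp0 : Ideal.absNorm v.asIdeal ≠ 0 := by
    rw [Ne, Ideal.absNorm_eq_zero_iff]
    exact v.ne_bot
  obtain ⟨N, hN⟩ := Pr_small hγ
  refine ⟨Ideal.absNorm v.asIdeal ^ N, pow_ne_zero _ hp0, ?_⟩
  have h1 : v.intValuation ((Ideal.absNorm v.asIdeal : 𝓞 K) ^ N) ≤ exp (-(N : ℤ)) :=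
    (v.intValuation_le_pow_iff_mem _ _).2 (Ideal.pow_mem_pow (Ideal.absNorm_mem v.asIdeal) N)
  have h2 : v.valuation K (algebraMap (𝓞 K) K ((Ideal.absNorm v.asIdeal : 𝓞 K) ^ N)) ≤
      exp (-(N : ℤ)) := by
    rw [HeightOneSpectrum.valuation_of_algebraMap]
    exact h1
  rw [map_pow, map_natCast] at h2
  push_cast
  exact h2.trans_lt hN

lemma PPSSh_nat {K : Type} [Field K] [NumberField K] (S : Finset (HeightOneSpectrum (𝓞 K)))
    (γ : HeightOneSpectrum (𝓞 K) → WithZero (Multiplicative ℤ)) :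
    (∀ v ∈ S, γ v ≠ 0) → ∃ n : ℕ, n ≠ 0 ∧ ∀ v ∈ S, v.valuation K (n : K) < γ v := by
  induction S using Finset.induction_on with
  | empty =>
    intro _
    exact ⟨1, one_ne_zero, fun v hv => absurd hv (Finset.notMem_empty v)⟩
  | insert a T ha ih =>
    intro h
    obtain ⟨n, hn0, hn⟩ := ih (fun v hv => h v (Finset.mem_insert_of_mem hv))
    obtain ⟨m, hm0, hm⟩ := PPSSh_nat1 a (h a (Finset.mem_insert_self a T))
    refine ⟨m * n, mul_ne_zero hm0 hn0, fun v hv => ?_⟩
    have e : ((m * n : ℕ) : K) = (m : K) * (n : K) := by push_cast; ring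
    rw [e, map_mul]
    rcases Finset.mem_insert.1 hv with rfl | hv
    · exact (mul_le_of_le_one_right' (Pr_nat v n)).trans_lt hm
    · exact (mul_le_of_le_one_left' (Pr_nat v m)).trans_lt (hn v hv)

lemma PPSSh_pos {K : Type} [Field K] [NumberField K] (y : K) {M : ℕ} (hM : M ≠ 0) :
    ∃ j : ℕ, ∀ s : K →+* ℝ, 0 < s (y + (j : K) * (M : K)) := by
  obtain ⟨B, hB⟩ := (Set.finite_range (fun s : K →+* ℝ => -s y)).bddAbove
  obtain ⟨j, hj⟩ := exists_nat_gt B
  refine ⟨j, fun s => ?_⟩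
  have h1 : -s y ≤ B := hB ⟨s, rfl⟩
  have h2 : (1 : ℝ) ≤ (M : ℝ) := by exact_mod_cast Nat.one_le_iff_ne_zero.2 hM
  have h3 : (0 : ℝ) ≤ (j : ℝ) := Nat.cast_nonneg j
  rw [map_add, map_mul, map_natCast, map_natCast]
  nlinarith

theorem approx_pos {K : Type} [Field K] [NumberField K] (v : HeightOneSpectrum (𝓞 K))
    (S : Finset (HeightOneSpectrum (𝓞 K))) {c : K} (hc : c ≠ 0) :
    ∃ c' : K, c' ≠ 0 ∧ v.valuation K (c' / c - 1) < 1 ∧
      (∀ v' ∈ S, v' ≠ v → v'.valuation K (c' - 1) < 1 ∧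
        v'.valuation K (c' - 1) ≤ v'.valuation K 8) ∧ ∀ s : K →+* ℝ, 0 < s c' := by
  have hvc : v.valuation K c ≠ 0 := (Valuation.ne_zero_iff _).2 hc
  obtain ⟨D, hD0, hD⟩ := PPSSh_nat1 v (inv_ne_zero hvc)
  have hDK : (D : K) ≠ 0 := Nat.cast_ne_zero.2 hD0
  have hDc : v.valuation K ((D : K) * c) ≤ 1 := by
    rw [map_mul]
    have := mul_le_mul_left hD.le (v.valuation K c)
    rwa [inv_mul_cancel₀ hvc] at this
  set x : HeightOneSpectrum (𝓞 K) → K := fun w => if w = v then (D : K) * c else (D : K) with hx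
  set γ : HeightOneSpectrum (𝓞 K) → WithZero (Multiplicative ℤ) :=
    fun w => if w = v then v.valuation K ((D : K) * c) else w.valuation K (8 * (D : K)) with hγ
  have hγ0 : ∀ w ∈ insert v S, γ w ≠ 0 := by
    intro w _
    rw [hγ]
    dsimp only
    split_ifs
    · exact (Valuation.ne_zero_iff _).2 (mul_ne_zero hDK hc)
    · exact (Valuation.ne_zero_iff _).2 (mul_ne_zero (by norm_num) hDK)
  obtain ⟨y, hy⟩ := Pr_app (insert v S) x (by
    intro w _
    rw [hx]
    dsimp only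
    split_ifs with h
    · rw [h]; exact hDc
    · exact Pr_nat w D) γ hγ0
  obtain ⟨M, hM0, hM⟩ := PPSSh_nat (insert v S) γ hγ0
  obtain ⟨j, hj⟩ := PPSSh_pos (y : K) hM0
  set y' : K := (y : K) + (j : K) * (M : K) with hy'
  have hyy : ∀ w ∈ insert v S, w.valuation K (y' - x w) < γ w := by
    intro w hw
    have e : y' - x w = ((y : K) - x w) + (j : K) * (M : K) := by rw [hy']; ring
    rw [e]
    refine (Valuation.map_add _ _ _).trans_lt (max_lt (hy w hw) ?_)
    rw [map_mul]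
    exact (mul_le_of_le_one_left' (Pr_nat w j)).trans_lt (hM w hw)
  have h1 : v.valuation K (y' / (D : K) / c - 1) < 1 := by
    have h := hyy v (Finset.mem_insert_self v S)
    rw [hx, hγ] at h
    dsimp only at h
    rw [if_pos rfl, if_pos rfl] at h
    have e : y' / (D : K) / c - 1 = (y' - (D : K) * c) / ((D : K) * c) := by
      field_simp
    rw [e, map_div₀]
    exact (div_lt_one₀ (zero_lt_iff.2 ((Valuation.ne_zero_iff _).2 (mul_ne_zero hDK hc)))).2 h
  refine ⟨y' / (D : K), ?_, h1, ?_, ?_⟩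
  · intro h0
    rw [h0, zero_div, zero_sub, Valuation.map_neg, map_one] at h1
    exact lt_irrefl _ h1
  · intro w hw hwv
    have h := hyy w (Finset.mem_insert_of_mem hw)
    rw [hx, hγ] at h
    dsimp only at h
    rw [if_neg hwv, if_neg hwv] at h
    have e : y' / (D : K) - 1 = (y' - (D : K)) / (D : K) := by
      field_simp
    have h2 : w.valuation K (y' / (D : K) - 1) < w.valuation K 8 := by
      rw [e, map_div₀]
      rw [map_mul] at h
      exact (div_lt_iff₀ (zero_lt_iff.2 ((Valuation.ne_zero_iff _).2 hDK))).2 h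
    have h8 : w.valuation K (8 : K) ≤ 1 := by
      have := Pr_nat w 8
      rwa [Nat.cast_ofNat] at this
    exact ⟨h2.trans_le h8, h2.le⟩
  · intro s
    rw [map_div₀, map_natCast]
    exact div_pos (hj s) (Nat.cast_pos.2 (Nat.pos_of_ne_zero hD0))

end H76PP

end S_H85_PP_Sh

section S_H85_PP_Sn

set_option autoImplicit false
set_option linter.unusedSectionVars false
open scoped Classical

open WithZero NumberField IsDedekindDomain H38RT
open H38T1 (SC sc scu rep eo la si Pri OddP tp unif)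

namespace H76PP

variable {K L : Type} [Field K] [NumberField K] [Field L] [NumberField L] [Algebra K L]

theorem near_tp {w : HeightOneSpectrum (𝓞 K)} (hw : OddP w) {g : K}
    (hg : w.valuation K (g - 1) < 1) (a : SC K) : tp w a (sc g) = 0 := by
  have h1 : w.valuation K g = 1 := by
    have h2 : g = 1 + (g - 1) := by ring
    rw [h2]
    exact (w.valuation K).map_one_add_of_lt hg
  have h0 : g ≠ 0 := by
    rintro rfl
    rw [map_zero] at h1
    exact zero_ne_one h1
  have h3 : eo w (sc g) = 0 := by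
    rw [H38T1.eo_sc h0]
    have h5 : ord (w.valuation K) g = 0 := by
      unfold ord
      rw [h1, WithZero.log_one, neg_zero]
    rw [h5, Int.cast_zero]
  have h4 : la w (sc g) = 0 := by
    rw [H38T1.la_sc hw h0, lam_unit h1, if_pos]
    exact ⟨1, by rwa [one_pow]⟩
  unfold tp
  rw [h3, h4]
  ring

theorem finsum_dn (F : HeightOneSpectrum (𝓞 L) → ZMod 2) (hF : (Function.support F).Finite) :
    ∑ᶠ w, F w = ∑ᶠ v : HeightOneSpectrum (𝓞 K),
      ∑ᶠ w : {w : HeightOneSpectrum (𝓞 L) // dn K w = v}, F w.1 := by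
  have h1 : ∀ v : HeightOneSpectrum (𝓞 K),
      ∑ᶠ w : {w : HeightOneSpectrum (𝓞 L) // dn K w = v}, F w.1 =
        ∑ w ∈ hF.toFinset with dn K w = v, F w := by
    intro v
    have h2 : ∑ᶠ w : {w : HeightOneSpectrum (𝓞 L) // dn K w = v}, F w.1 =
        ∑ᶠ w ∈ {w : HeightOneSpectrum (𝓞 L) | dn K w = v}, F w :=
      finsum_set_coe_eq_finsum_mem {w : HeightOneSpectrum (𝓞 L) | dn K w = v}
    rw [h2]
    apply finsum_mem_eq_sum_of_inter_support_eq
    ext w
    simp only [Set.mem_inter_iff, Set.mem_ofPred_eq, Finset.coe_filter, Set.Finite.mem_toFinset]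
    tauto
  rw [finsum_congr h1]
  rw [finsum_eq_sum_of_support_subset (s := hF.toFinset) F (by simp)]
  rw [finsum_eq_sum_of_support_subset (s := hF.toFinset.image (dn K)) _ ?_]
  · exact (Finset.sum_fiberwise_of_maps_to (fun w hw => Finset.mem_image_of_mem _ hw) _).symm
  · intro v hv
    by_contra hcon
    apply hv
    apply Finset.sum_eq_zero
    intro w hw
    rw [Finset.mem_filter] at hw
    refine absurd ?_ hcon
    rw [← hw.2]
    exact Finset.mem_coe.2 (Finset.mem_image_of_mem _ hw.1)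

end H76PP

end S_H85_PP_Sn

section S_H85_PP_Si

set_option autoImplicit false
set_option linter.unusedSectionVars false
open scoped Classical

open WithZero NumberField IsDedekindDomain H38RT
open H38T1 (SC sc scu rep eo la si Pri OddP tp unif)

namespace H76PP

variable {K L : Type} [Field K] [NumberField K] [Field L] [NumberField L] [Algebra K L]

private theorem Si_eo {F : Type} [Field F] [NumberField F] {w : HeightOneSpectrum (𝓞 F)} {x : F}
    (hx : x ≠ 0) (h : w.valuation F x = 1) : eo w (sc x) = 0 := by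
  rw [H38T1.eo_sc hx]
  unfold ord
  rw [h]
  simp

private theorem Si_tp {F : Type} [Field F] [NumberField F] {w : HeightOneSpectrum (𝓞 F)}
    {a b : SC F} (h : eo w a = 0) : tp w a b = eo w b * la w a := by
  unfold tp
  rw [h]
  ring

private theorem Si_shift {F : Type} [Field F] [NumberField F] {w : HeightOneSpectrum (𝓞 F)}
    (hw : OddP w) (a : SC F) {g g' : F} (hg : g ≠ 0) (hg' : g' ≠ 0)
    (h : w.valuation F (g' / g - 1) < 1) : tp w a (sc g') = tp w a (sc g) := by
  have h1 : g' = g * (g' / g) := by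
    field_simp
  have h2 : tp w a (sc (g' / g)) = 0 := near_tp hw h a
  conv_lhs => rw [h1, H38T1.sc_mul hg (div_ne_zero hg' hg), H38T1.tp_comm, H38T1.tp_add_left hw]
  rw [H38T1.tp_comm (sc g) a, H38T1.tp_comm (sc (g' / g)) a, h2, add_zero]

private theorem Si_notMem {F : Type} [Field F] [NumberField F] {w : HeightOneSpectrum (𝓞 F)}
    {x : 𝓞 F} (h : w.valuation F (x : F) = 1) : x ∉ w.asIdeal := by
  intro h1
  have h2 := (w.valuation_lt_one_iff_mem (K := F) x).2 h1
  exact absurd h2 (not_lt.2 (le_of_eq h.symm))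

private theorem Si_supp {F : Type} [Field F] [NumberField F] {x y : F} (hx : x ≠ 0) (hy : y ≠ 0) :
    (Function.support (fun w : HeightOneSpectrum (𝓞 F) =>
      (if OddP w then tp w (sc x) (sc y) else 0))).Finite := by
  refine ((fin_bad hx).union (fin_bad hy)).subset ?_
  intro w hw
  by_contra h
  rw [Set.mem_union, not_or] at h
  apply hw
  have h1 : w.valuation F x = 1 := by
    by_contra h3
    exact h.1 h3
  have h2 : w.valuation F y = 1 := by
    by_contra h3
    exact h.2 h3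
  have h3 : tp w (sc x) (sc y) = 0 := by
    rw [Si_tp (Si_eo hx h1), Si_eo hy h2, zero_mul]
  simp only [h3, ite_self]

private theorem Si_local {v' : HeightOneSpectrum (𝓞 K)} (hv' : OddP v') {x : 𝓞 L} (hx : x ≠ 0)
    {c : K} (hc : c ≠ 0) {A B : 𝓞 K} {θ : L} (h : Cub K L (A : K) (B : K) θ)
    (hd : dsc A B ∉ v'.asIdeal)
    (hw : ∀ w : HeightOneSpectrum (𝓞 L), dn K w = v' → w.valuation L (x : L) = 1) :
    ∑ᶠ w : {w : HeightOneSpectrum (𝓞 L) // dn K w = v'},
      tp w.1 (sc (x : L)) (sc (algebraMap K L c)) =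
        tp v' (sc (Algebra.norm K (x : L))) (sc c) := by
  have hxL : (x : L) ≠ 0 := by
    simpa using hx
  have hN : Algebra.norm K (x : L) ≠ 0 := by
    rw [Algebra.norm_ne_zero_iff]
    exact hxL
  obtain ⟨h1, h2⟩ := leg_above h hv' hd (x := x) (fun w hw' => Si_notMem (hw w hw'))
  have hCL : algebraMap K L c ≠ 0 := by
    rw [Ne, map_eq_zero]
    exact hc
  have h3 : ∀ w : {w : HeightOneSpectrum (𝓞 L) // dn K w = v'},
      tp w.1 (sc (x : L)) (sc (algebraMap K L c)) = eo v' (sc c) * la w.1 (sc (x : L)) := by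
    rintro ⟨w, rfl⟩
    rw [Si_tp (Si_eo hxL (hw w rfl)), H38T1.eo_sc hCL, H38T1.eo_sc hc, ord_unr h hd hc]
  rw [finsum_congr h3, ← mul_finsum, ← h2, Si_tp (Si_eo hN h1)]

theorem proj_int {v : HeightOneSpectrum (𝓞 K)} (hv : OddP v) {x : 𝓞 L} (hx : x ≠ 0) {c : K}
    (hc : c ≠ 0) {A B : 𝓞 K} {θ : L} (h : Cub K L (A : K) (B : K) θ)
    (hd : 4 * (A : K) ^ 3 + 27 * (B : K) ^ 2 ≠ 0) :
    ∑ᶠ w : {w : HeightOneSpectrum (𝓞 L) // dn K w = v},
      tp w.1 (sc (x : L)) (sc (algebraMap K L c)) =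
        tp v (sc (Algebra.norm K (x : L))) (sc c) := by
  have hxL : (x : L) ≠ 0 := by
    simpa using hx
  have hN : Algebra.norm K (x : L) ≠ 0 := by
    rw [Algebra.norm_ne_zero_iff]
    exact hxL
  have hdK : ((dsc A B : 𝓞 K) : K) ≠ 0 := by
    rw [Ea_cast]
    exact hd
  have h2K : (2 : K) ≠ 0 := two_ne_zero
  set S : Finset (HeightOneSpectrum (𝓞 K)) := (fin_bad h2K).toFinset ∪
    ((fin_bad hdK).toFinset ∪ (fin_bad hxL).toFinset.image (dn K)) with hS
  have hS2 : ∀ v' : HeightOneSpectrum (𝓞 K), v'.valuation K 2 ≠ 1 → v' ∈ S := by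
    intro v' h1
    rw [hS, Finset.mem_union, Set.Finite.mem_toFinset]
    exact Or.inl h1
  have hS3 : ∀ v' : HeightOneSpectrum (𝓞 K), v' ∉ S → dsc A B ∉ v'.asIdeal ∧
      ∀ w : HeightOneSpectrum (𝓞 L), dn K w = v' → w.valuation L (x : L) = 1 := by
    intro v' h1
    rw [hS, Finset.mem_union, Finset.mem_union, not_or, not_or] at h1
    refine ⟨Si_notMem ?_, ?_⟩
    · by_contra h2
      apply h1.2.1
      rw [Set.Finite.mem_toFinset]
      exact h2
    · intro w hw
      by_contra h2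
      apply h1.2.2
      rw [Finset.mem_image]
      refine ⟨w, ?_, hw⟩
      rw [Set.Finite.mem_toFinset]
      exact h2
  obtain ⟨c', hc', hcv, hcS, hcp⟩ := approx_pos v S hc
  have hCL : algebraMap K L c ≠ 0 := by
    rw [Ne, map_eq_zero]
    exact hc
  have hCL' : algebraMap K L c' ≠ 0 := by
    rw [Ne, map_eq_zero]
    exact hc'
  -- reciprocity in L
  have hrL := rec_tame (F := L) (x := (x : L)) (y := algebraMap K L c') hxL hCL' (by
    intro w hw
    have h1 : ¬ OddP (dn K w) := by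
      intro h1
      have h2 := oddP_dn.2 h1
      unfold OddP at h2
      rw [h2] at hw
      exact lt_irrefl _ hw
    have h2 : dn K w ≠ v := by
      intro h2
      rw [h2] at h1
      exact h1 hv
    obtain ⟨-, h3⟩ := hcS (dn K w) (hS2 _ h1) h2
    refine ⟨1, one_ne_zero, ?_⟩
    have h80 : (8 : K) ≠ 0 := by norm_num
    have h8 : (dn K w).valuation K 8 ≠ 0 := (Valuation.ne_zero_iff _).2 h80
    have h4 : (dn K w).valuation K ((c' - 1) / 8) ≤ 1 := by
      rw [map_div₀]
      exact div_le_one_of_le₀ h3 zero_le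
    have h5 := val_le h4
    have h80L : (8 : L) ≠ 0 := by norm_num
    have h6 : w.valuation L 8 ≠ 0 := (Valuation.ne_zero_iff _).2 h80L
    rw [map_div₀ (algebraMap K L), map_ofNat, map_sub, map_one, map_div₀,
      div_le_one₀ (zero_lt_iff.2 h6)] at h5
    rw [one_pow, mul_one]
    exact h5) (fun s => hcp (s.comp (algebraMap K L)))
  -- reciprocity in K
  have hrK := rec_tame (F := K) (x := Algebra.norm K (x : L)) (y := c') hN hc' (by
    intro v' hv'
    have h1 : v'.valuation K 2 ≠ 1 := hv'.ne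
    have h2 : v' ≠ v := by
      rintro rfl
      exact h1 hv
    refine ⟨1, one_ne_zero, ?_⟩
    rw [one_pow, mul_one]
    exact (hcS v' (hS2 _ h1) h2).2) hcp
  rw [finsum_dn (K := K) _ (Si_supp hxL hCL')] at hrL
  -- local identities away from v
  have hloc : ∀ v' : HeightOneSpectrum (𝓞 K), v' ≠ v →
      ∑ᶠ w : {w : HeightOneSpectrum (𝓞 L) // dn K w = v'},
        (if OddP w.1 then tp w.1 (sc (x : L)) (sc (algebraMap K L c')) else 0) =
      (if OddP v' then tp v' (sc (Algebra.norm K (x : L))) (sc c') else 0) := by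
    intro v' hv'
    by_cases ho : OddP v'
    · rw [if_pos ho]
      have ho' : ∀ w : {w : HeightOneSpectrum (𝓞 L) // dn K w = v'}, OddP w.1 := by
        rintro ⟨w, rfl⟩
        exact oddP_dn.2 ho
      rw [finsum_congr (fun w => if_pos (ho' w))]
      by_cases hs : v' ∈ S
      · obtain ⟨h1, -⟩ := hcS v' hs hv'
        rw [near_tp ho h1]
        refine (finsum_congr ?_).trans finsum_zero
        rintro ⟨w, rfl⟩
        refine near_tp (oddP_dn.2 ho) ?_ _
        have h2 := val_lt h1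
        rwa [map_sub, map_one] at h2
      · obtain ⟨h1, h2⟩ := hS3 v' hs
        exact Si_local ho hx hc' h h1 h2
    · rw [if_neg ho]
      refine (finsum_congr ?_).trans finsum_zero
      rintro ⟨w, rfl⟩
      refine if_neg ?_
      intro h1
      exact ho (oddP_dn.1 h1)
  have hsG : (Function.support (fun v' : HeightOneSpectrum (𝓞 K) =>
      (if OddP v' then tp v' (sc (Algebra.norm K (x : L))) (sc c') else 0))).Finite :=
    Si_supp hN hc'
  have hsF : (Function.support (fun v' : HeightOneSpectrum (𝓞 K) =>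
      ∑ᶠ w : {w : HeightOneSpectrum (𝓞 L) // dn K w = v'},
        (if OddP w.1 then tp w.1 (sc (x : L)) (sc (algebraMap K L c')) else 0))).Finite := by
    refine (hsG.union (Set.finite_singleton v)).subset ?_
    intro v' h1
    by_cases h2 : v' = v
    · exact Or.inr h2
    · refine Or.inl ?_
      rw [Function.mem_support] at h1 ⊢
      rwa [hloc v' h2] at h1
  have hdiff := finsum_sub_distrib hsF hsG
  rw [hrL, hrK, sub_zero, finsum_eq_single _ v (fun v' h1 => by
    rw [hloc v' h1, sub_self])] at hdiff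
  rw [sub_eq_zero, if_pos hv] at hdiff
  rw [← Si_shift hv _ hc hc' hcv, ← hdiff]
  refine finsum_congr ?_
  rintro ⟨w, rfl⟩
  have hwo : OddP w := oddP_dn.2 hv
  rw [if_pos hwo]
  refine (Si_shift hwo _ hCL hCL' ?_).symm
  have h2 := val_lt hcv
  rwa [map_sub, map_one, map_div₀] at h2

end H76PP

end S_H85_PP_Si

section S_H85_PP_Pt

set_option autoImplicit false
set_option linter.unusedSectionVars false
open scoped Classical

open WithZero NumberField IsDedekindDomain H38RT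
open H38T1 (SC sc scu rep eo la si Pri OddP tp unif)

namespace H76PP

variable {K L : Type} [Field K] [NumberField K] [Field L] [NumberField L] [Algebra K L]

/-- (8.4) projection formula for tame symbols -/
theorem proj_tame {v : HeightOneSpectrum (𝓞 K)} (hv : OddP v) {u : L} (hu : u ≠ 0) {c : K}
    (hc : c ≠ 0) {A B : 𝓞 K} {θ : L} (h : Cub K L (A : K) (B : K) θ)
    (hd : 4 * (A : K) ^ 3 + 27 * (B : K) ^ 2 ≠ 0) :
    ∑ᶠ w : {w : HeightOneSpectrum (𝓞 L) // dn K w = v},
      tp w.1 (sc u) (sc (algebraMap K L c)) = tp v (sc (Algebra.norm K u)) (sc c) := by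
  obtain ⟨x, y, hy, hxy⟩ := IsFractionRing.div_surjective (A := 𝓞 L) u
  have hy0 : y ≠ 0 := nonZeroDivisors.ne_zero hy
  have hyL : (y : L) ≠ 0 := by
    intro h0
    exact hy0 (by exact_mod_cast h0)
  have hxy' : u * (y : L) = (x : L) := by
    rw [← hxy]
    exact div_mul_cancel₀ _ hyL
  have hxL : (x : L) ≠ 0 := by
    rw [← hxy']
    exact mul_ne_zero hu hyL
  have hx0 : x ≠ 0 := by
    rintro rfl
    exact hxL (by simp)
  have hNu : Algebra.norm K u ≠ 0 := (Algebra.norm_ne_zero_iff).2 hu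
  have hNy : Algebra.norm K (y : L) ≠ 0 := (Algebra.norm_ne_zero_iff).2 hyL
  have h1 := proj_int hv hx0 hc h hd
  have h2 := proj_int hv hy0 hc h hd
  have hfin : Finite {w : HeightOneSpectrum (𝓞 L) // dn K w = v} := (fin_above v).to_subtype
  have h3 : ∀ w : {w : HeightOneSpectrum (𝓞 L) // dn K w = v},
      tp w.1 (sc (x : L)) (sc (algebraMap K L c)) =
        tp w.1 (sc u) (sc (algebraMap K L c)) + tp w.1 (sc (y : L)) (sc (algebraMap K L c)) := by
    intro w
    have hw : OddP w.1 := by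
      rw [oddP_dn (K := K), w.2]
      exact hv
    rw [← H38T1.tp_add_left hw, ← H38T1.sc_mul hu hyL, hxy']
  have h4 : tp v (sc (Algebra.norm K (x : L))) (sc c) =
      tp v (sc (Algebra.norm K u)) (sc c) + tp v (sc (Algebra.norm K (y : L))) (sc c) := by
    rw [← H38T1.tp_add_left hv, ← H38T1.sc_mul hNu hNy, ← map_mul, hxy']
  rw [finsum_congr h3, finsum_add_distrib (Set.toFinite _) (Set.toFinite _), h4, h2] at h1
  exact add_right_cancel h1

end H76PP

end S_H85_PP_Pt
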