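import Mathlib
import Pool.Agent.H76.PN.B2
import Pool.Agent.H76.PN.C2
import Pool.Agent.H76.PN.N1
import Pool.Agent.H76.PN.N2
import Pool.Agent.H76.PN.N4
import Pool.Agent.H76.PN.N5
import Pool.Agent.H76.PN.P1
import Pool.Agent.H76.PN.P3
import Pool.Agent.H76.PN.Z1
import Pool.Agent.H76.PN.Z2

/-! This file joins several modules to save build time (N6). -/

set_option autoImplicit false

section S_H36_MT_Ni

set_option autoImplicit false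
set_option linter.unusedSectionVars false
open scoped Classical

open WithZero NumberField IsDedekindDomain H38RT
open H38T1 (SC sc scu rep eo la si Pri OddP tp unif)
open H76PP

namespace H36MT

variable {K : Type} [Field K] [NumberField K]

theorem Ni_dsc_le {A B : 𝓞 K} {v : HeightOneSpectrum (𝓞 K)} (h : dsc A B ∉ v.asIdeal ^ 2) :
    exp (-1 : ℤ) ≤ v.valuation K ((dsc A B : 𝓞 K) : K) := by
  have h0 : dsc A B ≠ 0 := by
    intro h0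
    rw [h0] at h
    exact h (Submodule.zero_mem _)
  by_contra hlt
  rw [not_le] at hlt
  apply h
  have h1 : v.valuation K ((dsc A B : 𝓞 K) : K) = v.intValuation (dsc A B) :=
    v.valuation_of_algebraMap (dsc A B)
  rw [h1] at hlt
  rw [← v.intValuation_le_pow_iff_mem]
  have h2 : v.intValuation (dsc A B) ≠ 0 := v.intValuation_ne_zero _ h0
  rw [← exp_log h2] at hlt ⊢
  rw [exp_lt_exp] at hlt
  rw [exp_le_exp]
  push_cast
  omega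

theorem nice_tw {S : Finset (HeightOneSpectrum (𝓞 K))} {e : ℕ} {q₀ : HeightOneSpectrum (𝓞 K)}
    {T J : Finset (HeightOneSpectrum (𝓞 K))} {A B : 𝓞 K} (hF : FamS S e q₀ T A B) {D : K}
    (hD : TwS S q₀ J D) {v : HeightOneSpectrum (𝓞 K)} (hS : v ∉ S) (hJ : v ∉ J) (hq : v ≠ q₀) :
    H73P2.NiceAt v (D ^ 2 * A) (D ^ 3 * B) := by
  have hDne := hD.ne
  obtain ⟨j, hj⟩ := hD.even v hS hJ hq
  have hvD : v.valuation K D = exp (-(j + j)) := by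
    rw [Ta_V_eq (V := v.valuation K) hDne, hj]
  have hπ := H38T1.unif_spec (K := K) v
  have hπ0 : unif (K := K) v ≠ 0 := by
    intro h
    rw [h, map_zero] at hπ
    exact exp_ne_zero hπ.symm
  have hc0 : (unif (K := K) v) ^ j ≠ 0 := zpow_ne_zero _ hπ0
  have hvc : v.valuation K ((unif (K := K) v) ^ j) = exp (-j) := by
    rw [map_zpow₀, hπ, ← exp_zsmul]
    congr 1
    simp
  obtain ⟨c, hc⟩ : ∃ c : K, c = (unif (K := K) v) ^ j := ⟨_, rfl⟩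
  rw [← hc] at hc0 hvc
  obtain ⟨u, hu⟩ : ∃ u : K, u = D / c ^ 2 := ⟨_, rfl⟩
  have hDu : D = c ^ 2 * u := by
    rw [hu]
    field_simp
  have hvu : v.valuation K u = 1 := by
    rw [hu, map_div₀, map_pow, hvD, hvc, ← exp_nsmul, ← exp_sub, ← exp_zero]
    congr 1
    simp
    ring
  have hA : v.valuation K (A : K) ≤ 1 := v.valuation_le_one A
  have hB : v.valuation K (B : K) ≤ 1 := v.valuation_le_one B
  refine ⟨c, u ^ 2 * A, u ^ 3 * B, hc0, ?_, ?_, ?_, ?_, ?_⟩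
  · rw [hDu]; ring
  · rw [hDu]; ring
  · rw [map_mul, map_pow, hvu, one_pow, one_mul]; exact hA
  · rw [map_mul, map_pow, hvu, one_pow, one_mul]; exact hB
  · have h1 : 4 * (u ^ 2 * (A : K)) ^ 3 + 27 * (u ^ 3 * (B : K)) ^ 2 =
        u ^ 6 * ((dsc A B : 𝓞 K) : K) := by
      unfold dsc
      simp only [map_add, map_mul, map_pow, map_ofNat]
      ring
    rw [h1, map_mul, map_pow, hvu, one_pow, one_mul]
    exact Ni_dsc_le (hF.sqf v hS)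

theorem Ni_dn (w : HeightOneSpectrum (𝓞 K)) : dn K w = w := by
  apply HeightOneSpectrum.ext
  change w.asIdeal.comap (algebraMap (𝓞 K) (𝓞 K)) = w.asIdeal
  ext x
  rw [Ideal.mem_comap]
  rfl

theorem RelTriv.toRelT {L : Type} [Field L] [NumberField L] [Algebra K L]
    {P : Finset (HeightOneSpectrum (𝓞 K))} {a b : K} {θ : L} (hR : RelTriv K L P a b θ) :
    H73P2.RelT K K L P a b θ := by
  intro d hd
  refine hR d hd.ne hd.sq ?_ ?_ ?_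
  · intro w hw
    apply hd.even w
    rw [Ni_dn]
    exact hw
  · intro v hv
    exact hd.loc v hv (algebraMap K (v.adicCompletion K)) (fun x => rfl)
  · intro s
    exact hd.real s

end H36MT

end S_H36_MT_Ni

section S_H36_MT_As1

set_option autoImplicit false
set_option linter.unusedSectionVars false
open scoped Classical

open WithZero NumberField IsDedekindDomain H38RT
open H38T1 (SC sc scu rep eo la si Pri OddP tp unif)
open H76PP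

namespace H36MT

theorem ordSub : H73P2.OrdSub := by
  intro k L _ _ _ _ _ a b θ h v ha hb hd x hx hfx
  exact ord_sub_loc h ha hb hd hx hfx

theorem dsc_coe {K : Type} [Field K] [NumberField K] (A B : 𝓞 K) :
    (algebraMap (𝓞 K) K) (4 * A ^ 3 + 27 * B ^ 2) = 4 * (A : K) ^ 3 + 27 * (B : K) ^ 2 := by
  simp only [map_add, map_mul, map_pow, map_ofNat]

theorem not_ram {K : Type} [Field K] [NumberField K] (V : HeightOneSpectrum (𝓞 K)) :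
    ¬ H73P2.Ram K V := by
  intro h
  unfold H73P2.Ram at h
  have h1 : V.asIdeal ≤ V.asIdeal ^ 2 := by
    intro x hx
    have h2 : x ∈ (dn K V).asIdeal := hx
    exact h (Ideal.mem_map_of_mem _ h2)
  have h3 : V.asIdeal ^ 2 < V.asIdeal ^ 1 :=
    Ideal.pow_right_strictAnti V.asIdeal V.ne_bot V.isPrime.ne_top (by norm_num)
  rw [pow_one] at h3
  exact absurd h1 (not_le_of_gt h3)

/-- The hypotheses of the relative theorem. -/
structure RelG (K : Type) [Field K] [NumberField K] (Sg : Finset (HeightOneSpectrum (𝓞 K)))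
    (A B : 𝓞 K) : Prop where
  two : ∀ v : HeightOneSpectrum (𝓞 K), v.valuation K 2 < 1 → v ∈ Sg
  ne : 4 * A ^ 3 + 27 * B ^ 2 ≠ 0
  irr : ∀ t : K, t ^ 3 + (A : K) * t + (B : K) ≠ 0
  nice : ∀ v : HeightOneSpectrum (𝓞 K), v ∉ Sg → H73P2.NiceAt v (A : K) (B : K)
  rel : ∀ (L : Type) [Field L] [NumberField L] [Algebra K L] (θ : L),
    Cub K L (A : K) (B : K) θ → H73P2.RelT K K L Sg (A : K) (B : K) θ

/-- The curve `y^2 = x^3 + A x + B` is elliptic, has finitely many points over `K` and its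
Tate-Shafarevich group over `K` has no nontrivial element of two-power order; the same holds over all
fields between `K` and an admissible extension of `K`, and there is an infinite multiquadratic
extension of `K` with this property. -/
structure GoodT (K : Type) [Field K] [NumberField K] (Sg : Finset (HeightOneSpectrum (𝓞 K)))
    (p : 𝓞 K × 𝓞 K) : Prop where
  ne : 4 * p.1 ^ 3 + 27 * p.2 ^ 2 ≠ 0
  fin : Finite (⟨0, 0, 0, (p.1 : K), (p.2 : K)⟩ : WeierstrassCurve K).toAffine.Point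
  sha : Pool.Agent.H10.Sha2Trivial K (⟨0, 0, 0, (p.1 : K), (p.2 : K)⟩ : WeierstrassCurve K)
  adm : ∀ (N : Type) [Field N] [NumberField N] [Algebra K N], H73P2.Admi Sg p.1 p.2 N →
    ∀ (M : IntermediateField K N) [NumberField M], H73P2.Triv2 K p.1 p.2 M
  tow : ∃ F : IntermediateField K (AlgebraicClosure K), ¬ FiniteDimensional K F ∧
    (∃ I : Set K, F = IntermediateField.adjoin K
      {x | ∃ D ∈ I, x ^ 2 = algebraMap K (AlgebraicClosure K) D}) ∧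
    Finite (⟨0, 0, 0, algebraMap K F p.1, algebraMap K F p.2⟩ :
      WeierstrassCurve F).toAffine.Point ∧
    ∀ (M : IntermediateField K (AlgebraicClosure K)) [NumberField M], M ≤ F →
      H73P2.Triv2 K p.1 p.2 M

theorem RelG.good {K : Type} [Field K] [NumberField K] {Sg : Finset (HeightOneSpectrum (𝓞 K))}
    {A B : 𝓞 K} (h : RelG K Sg A B) : GoodT K Sg (A, B) := by
  obtain ⟨h2, hd, hirr, hnice, hT⟩ := h
  have hd' : 4 * (A : K) ^ 3 + 27 * (B : K) ^ 2 ≠ 0 := by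
    intro h
    apply hd
    apply RingOfIntegers.coe_injective
    simpa only [map_add, map_mul, map_pow, map_ofNat, map_zero] using h
  have hbase : Finite (⟨0, 0, 0, (A : K), (B : K)⟩ : WeierstrassCurve K).toAffine.Point ∧
      Pool.Agent.H10.Sha2Trivial K (⟨0, 0, 0, (A : K), (B : K)⟩ : WeierstrassCurve K) := by
    obtain ⟨L, _, _, _, θ, hL⟩ := H24PD.exists_cub hirr
    exact H24PD.descent hL (H73P2.sel_mid (K := K) (N := K) ordSub (r := 0)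
      (by rw [pow_zero, Module.finrank_self]) (S := Sg) h2 hd' hnice
      (fun v _ => ⟨algebraMap K _, fun _ => rfl⟩) (fun s => Or.inr ⟨s, fun _ => rfl⟩)
      (fun V _ hV => absurd hV (not_ram V)) hT K L θ hL)
  refine ⟨hd, hbase.1, hbase.2, ?_, ?_⟩
  · intro N _ _ _ hN M _
    exact H73P2.all_of_rel ordSub h2 hd hirr hnice hT N hN M
  · exact H73P2.tower_of_rel ordSub h2 hd hirr hnice hT

theorem good_S {K : Type} [Field K] [NumberField K] {S : Finset (HeightOneSpectrum (𝓞 K))}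
    (hS6 : ∀ v : HeightOneSpectrum (𝓞 K), (6 : 𝓞 K) ∈ v.asIdeal → v ∈ S) {e₀ : ℕ}
    {q₀ : HeightOneSpectrum (𝓞 K)}
    {T : Finset (HeightOneSpectrum (𝓞 K))} (hT : ∀ v ∈ T, v ≠ q₀ ∧ v ∉ S)
    {A B : 𝓞 K} (hF : FamS S e₀ q₀ T A B) (hB : ¬ BadS S T A B) :
    ∃ J ⊆ T, ∀ D : 𝓞 K, TwS S q₀ J (D : K) → ∀ Sg : Finset (HeightOneSpectrum (𝓞 K)),
      S ⊆ Sg → T ⊆ Sg → q₀ ∈ Sg → RelG K Sg (D ^ 2 * A) (D ^ 3 * B) := by
  obtain ⟨L, _, _, _, θ, hL⟩ := H24PD.exists_cub (fun t => hF.no_root t)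
  obtain ⟨J, hJ, hrel⟩ := rel_S hS6 hT hF hB hL (hr2 hL hF.dsc_ne)
  refine ⟨J, hJ, fun D hD Sg hSSg hTSg hq => ?_⟩
  have hD0 : (D : K) ≠ 0 := hD.ne
  have e1 : ((D ^ 2 * A : 𝓞 K) : K) = (D : K) ^ 2 * (A : K) := by push_cast; rfl
  have e2 : ((D ^ 3 * B : 𝓞 K) : K) = (D : K) ^ 3 * (B : K) := by push_cast; rfl
  refine ⟨?_, ?_, ?_, ?_, ?_⟩
  · intro v hv
    refine hSSg (hS6 v ?_)
    have h3 : (2 : 𝓞 K) ∈ v.asIdeal := by
      by_contra h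
      have h4 := (v.valuation_eq_one_iff_notMem (K := K) (r := (2 : 𝓞 K))).2 h
      have h5 : v.valuation K (2 : K) = 1 := by
        rw [← h4]
        congr 1
      exact absurd h5 hv.ne
    have : (6 : 𝓞 K) = 3 * 2 := by norm_num
    rw [this]
    exact v.asIdeal.mul_mem_left _ h3
  · intro h4
    have h5 : (4 * ((D : K) ^ 2 * (A : K)) ^ 3 + 27 * ((D : K) ^ 3 * (B : K)) ^ 2) = 0 := by
      rw [← e1, ← e2, ← dsc_coe, h4, map_zero]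
    have h6 : (D : K) ^ 6 * (4 * (A : K) ^ 3 + 27 * (B : K) ^ 2) = 0 := by
      linear_combination h5
    exact (mul_ne_zero (pow_ne_zero 6 hD0) hF.dsc_ne) h6
  · rw [e1, e2]
    intro t ht
    apply hF.no_root (t / (D : K))
    have h7 : (D : K) ^ 3 * ((t / (D : K)) ^ 3 + (A : K) * (t / (D : K)) + (B : K)) = 0 := by
      field_simp
      linear_combination ht
    exact (mul_eq_zero.1 h7).resolve_left (pow_ne_zero 3 hD0)
  · rw [e1, e2]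
    intro v hv
    exact nice_tw hF hD (fun h => hv (hSSg h)) (fun h => hv (hTSg (hJ h)))
      (fun h => hv (h ▸ hq))
  · rw [e1, e2]
    intro L' _ _ _ θ' hL'
    exact (RelTriv.equiv (hL.twist hD0) hL'
      (hrel (D : K) hD Sg hSSg (hJ.trans hTSg))).toRelT

end H36MT

end S_H36_MT_As1

section S_H36_MT_Zc

set_option autoImplicit false
set_option linter.unusedSectionVars false
open scoped Classical

open WithZero NumberField IsDedekindDomain H38RT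
open H38T1 (SC sc scu rep eo la si Pri OddP tp unif)
open H76PP

namespace H36MT

theorem bad_countS (K : Type) [Field K] [NumberField K] (hfin : ∀ X : ℝ, (Bx K X).Finite)
    (S : Finset (HeightOneSpectrum (𝓞 K))) (e : ℕ) (he : 1 ≤ e) :
    ∃ (C : ℝ) (N₀ : ℕ), 0 < C ∧
    ∀ (q₀ : HeightOneSpectrum (𝓞 K)) (T : Finset (HeightOneSpectrum (𝓞 K))),
      (∀ v ∈ T, N₀ ≤ Nv v ∧ (6 : 𝓞 K) ∉ v.asIdeal ∧ v ∉ S) → ∃ X₀ : ℝ, ∀ X : ℝ, X₀ ≤ X →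
        ({p : 𝓞 K × 𝓞 K | p ∈ Bx K X ∧ FamS S e q₀ T p.1 p.2 ∧ BadS S T p.1 p.2}.ncard : ℝ) ≤
          C * (∏ v ∈ T, ((1 + 1 / (Nv v : ℝ)) ^ 2 / 4)) * X ^ (5 * Module.finrank ℚ K) := by
  obtain ⟨C₂, hC₂, hdat⟩ := exists_datS K S e he
  obtain ⟨C, N₀, hC, h⟩ := H54PP.dat_count K C₂
  refine ⟨C, N₀, hC, fun q₀ T hT => ?_⟩
  obtain ⟨X₀, hX₀⟩ := h T fun v hv => ⟨(hT v hv).1, (hT v hv).2.1⟩
  refine ⟨max X₀ 0, fun X hX => ?_⟩
  refine le_trans ?_ (hX₀ X ((le_max_left _ _).trans hX))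
  have hf : {p : 𝓞 K × 𝓞 K | p ∈ Bx K X ∧ ∃ (l : Fin 3 → ℝ)
      (M N : Matrix (Fin 3) (Fin 3) (𝓞 K)), Dat X C₂ T p.1 p.2 l M N}.Finite :=
    (hfin X).subset fun p hp => hp.1
  have hsub : {p : 𝓞 K × 𝓞 K | p ∈ Bx K X ∧ FamS S e q₀ T p.1 p.2 ∧ BadS S T p.1 p.2} ⊆
      {p : 𝓞 K × 𝓞 K | p ∈ Bx K X ∧ ∃ (l : Fin 3 → ℝ)
      (M N : Matrix (Fin 3) (Fin 3) (𝓞 K)), Dat X C₂ T p.1 p.2 l M N} := fun p hp =>
    ⟨hp.1, hdat q₀ T (fun v hv => (hT v hv).2) p.1 p.2 X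
      ((le_max_right _ _).trans hX) hp.1 hp.2.1 hp.2.2⟩
  have h1 := Set.ncard_le_ncard hsub hf
  exact_mod_cast h1

end H36MT

end S_H36_MT_Zc

section S_H36_MT_As2

set_option autoImplicit false
set_option linter.unusedSectionVars false
open scoped Classical

open WithZero NumberField IsDedekindDomain H38RT
open H76PP H36PP

namespace H36MT

theorem ratio9 {q : ℕ} (hq : 9 ≤ q) : (1 + 1 / (q : ℝ)) ^ 2 / 4 ≤ 0.31 := by
  have h1 : (9 : ℝ) ≤ q := by exact_mod_cast hq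
  have h2 : 1 / (q : ℝ) ≤ 1 / 9 := one_div_le_one_div_of_le (by norm_num) h1
  have h3 : 0 ≤ 1 / (q : ℝ) := by positivity
  nlinarith

theorem prod9 {K : Type} [Field K] [NumberField K]
    {T : Finset (HeightOneSpectrum (𝓞 K))} (hT : ∀ v ∈ T, 9 ≤ Nv v) :
    (∏ v ∈ T, ((1 + 1 / (Nv v : ℝ)) ^ 2 / 4)) ≤ 0.31 ^ T.card := by
  rw [← Finset.prod_const]
  exact Finset.prod_le_prod (fun v _ => by positivity) fun v hv => ratio9 (hT v hv)

theorem main_count (K : Type) [Field K] [NumberField K] {m : Ideal (𝓞 K)} (hm : m ≠ ⊥) {ε : ℝ}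
    (hε : 0 < ε) :
    ∃ (S : Finset (HeightOneSpectrum (𝓞 K))) (e : ℕ) (Z₁ Z₂ : Finset (HeightOneSpectrum (𝓞 K)))
      (m' : Ideal (𝓞 K)) (X₀ : ℝ),
      (∀ v : HeightOneSpectrum (𝓞 K), (6 : 𝓞 K) ∈ v.asIdeal → v ∈ S) ∧ m' ≠ ⊥ ∧ m' ≠ ⊤ ∧ m' ≤ m ∧
      (∀ v ∈ S, ∀ x ∈ m', v.valuation K (x : K) < v.valuation K 4) ∧
      (∀ q ∈ Z₁, q ∉ S ∧ q ∉ Z₂ ∧ ¬ m' ≤ q.asIdeal) ∧ (∀ p ∈ Z₂, p ∉ S) ∧
      (∀ q ∈ Z₁, ∀ p ∈ Z₂, ∃ D : K, AuxR m' q p D) ∧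
      ∀ X : ℝ, X₀ ≤ X →
        ({p : 𝓞 K × 𝓞 K | p ∈ Bx K X ∧ ¬ ∃ q ∈ Z₁, ∃ T ⊆ Z₂, FamS S e q T p.1 p.2 ∧
          ¬ BadS S T p.1 p.2}.ncard : ℝ) ≤ ε * X ^ (5 * Module.finrank ℚ K) := by
  obtain ⟨δ, hδ⟩ : ∃ δ : ℝ, δ = ε / 6 := ⟨_, rfl⟩
  have hδ0 : 0 < δ := by rw [hδ]; positivity
  obtain ⟨CU, hCU, hU⟩ := coset_upper K
  obtain ⟨M₀, X₁, h1⟩ := tail_bound K (le_trans zero_le_one hCU) hU hδ0
  -- the set `S`
  obtain ⟨S, hS⟩ : ∃ S : Finset (HeightOneSpectrum (𝓞 K)), ∀ v, v ∈ S ↔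
      ((6 : 𝓞 K) ∈ v.asIdeal ∨ ¬ M₀ < Nv v) := by
    have hf1 : {v : HeightOneSpectrum (𝓞 K) | ¬ (M₀ + 1) ≤ Nv v}.Finite := fin_norm K (M₀ + 1)
    have hf2 : {v : HeightOneSpectrum (𝓞 K) | (6 : 𝓞 K) ∈ v.asIdeal}.Finite := by
      refine (nv_finite K (Ideal.absNorm (Ideal.span {(6 : 𝓞 K)}) : ℝ)).subset fun v hv => ?_
      have h6 : (6 : 𝓞 K) ≠ 0 := by norm_num
      have h7 : v.asIdeal ∣ Ideal.span {(6 : 𝓞 K)} :=
        Ideal.dvd_span_singleton.2 hv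
      have h8 : Ideal.absNorm v.asIdeal ∣ Ideal.absNorm (Ideal.span {(6 : 𝓞 K)}) :=
        map_dvd Ideal.absNorm h7
      have h9 : 0 < Ideal.absNorm (Ideal.span {(6 : 𝓞 K)}) := by
        refine Nat.pos_of_ne_zero ?_
        rw [Ne, Ideal.absNorm_eq_zero_iff, Ideal.span_singleton_eq_bot]
        exact h6
      exact_mod_cast Nat.le_of_dvd h9 h8
    refine ⟨(hf2.union hf1).toFinset, fun v => ?_⟩
    rw [Set.Finite.mem_toFinset, Set.mem_union]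
    change (6 : 𝓞 K) ∈ v.asIdeal ∨ ¬ (M₀ + 1) ≤ Nv v ↔ _
    rw [Nat.succ_le_iff]
  obtain ⟨e, X₂, hX₂, h2⟩ := pow_count (K := K) S hδ0
  obtain ⟨C₄, N₀, hC₄, h4⟩ := bad_countS K (H36PP.Bx_finite K) S (e + 1) (by omega)
  obtain ⟨m', hm'0, hm't, hm'm, hm'S, -⟩ := exists_mod hm S
  obtain ⟨Z, hZinf, hZ, hZr⟩ := aux_set K hm'0
  have hSm : ∀ v ∈ S, m' ≤ v.asIdeal := by
    intro v hv x hx
    have h5 := hm'S v hv x hx
    have h6 : v.valuation K (4 : K) ≤ 1 := by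
      rw [← map_ofNat (algebraMap (𝓞 K) K) 4]
      exact v.valuation_le_one (K := K) (4 : 𝓞 K)
    exact (v.valuation_lt_one_iff_mem (K := K) x).1 (h5.trans_le h6)
  have hZS : ∀ v ∈ Z, v ∉ S := fun v hv hvS => (hZ v hv).1 (hSm v hvS)
  obtain ⟨r₁, h7⟩ := root_count (K := K) hδ0
  obtain ⟨Z₁, hZ₁, hZ₁c⟩ := exists_T hZinf 0 (r₁ + 1)
  obtain ⟨X₃, hX₃, h3⟩ := h7 Z₁ (by omega) (fun v hv => (hZ v (hZ₁ v hv).1).2)
  obtain ⟨k, N₁, hk⟩ := params (C := C₄ * ((r₁ + 1 : ℕ) : ℝ)) (ε := δ) (by positivity) hδ0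
  obtain ⟨N₂, hN₂⟩ := type_count (K := K) hδ0
  obtain ⟨N, hN⟩ : ∃ N, N = max N₁ N₂ := ⟨_, rfl⟩
  have hinf' : (Z \ (Z₁ : Set (HeightOneSpectrum (𝓞 K)))).Infinite := hZinf.diff Z₁.finite_toSet
  obtain ⟨Z₂, hZ₂, hZ₂c⟩ := exists_T hinf' (max N₀ 9) (3 * N)
  obtain ⟨X₄, hX₄, h5⟩ := hN₂ Z₂ N (by rw [hN]; exact le_max_right _ _) hZ₂c
    (fun v hv => (hZ v (hZ₂ v hv).1.1).2)
  obtain ⟨hk0, hk1⟩ := hk N (by rw [hN]; exact le_max_left _ _)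
  -- the first moments
  have h6 : ∀ (q : HeightOneSpectrum (𝓞 K)) (T : Finset (HeightOneSpectrum (𝓞 K))), ∃ X₀ : ℝ,
      T ⊆ Z₂ → ∀ X : ℝ, X₀ ≤ X →
        ({p : 𝓞 K × 𝓞 K | p ∈ Bx K X ∧ FamS S (e + 1) q T p.1 p.2 ∧ BadS S T p.1 p.2}.ncard : ℝ) ≤
          C₄ * (∏ v ∈ T, ((1 + 1 / (Nv v : ℝ)) ^ 2 / 4)) * X ^ (5 * Module.finrank ℚ K) := by
    intro q T
    by_cases hT : T ⊆ Z₂
    · obtain ⟨X₀, hX₀⟩ := h4 q T (fun v hv => ⟨(le_max_left _ _).trans (hZ₂ v (hT hv)).2,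
        (hZ v (hZ₂ v (hT hv)).1.1).2, hZS v (hZ₂ v (hT hv)).1.1⟩)
      exact ⟨X₀, fun _ => hX₀⟩
    · exact ⟨0, fun h => absurd h hT⟩
  choose Xb hXb using h6
  obtain ⟨X₅, hX₅⟩ : ∃ X₅ : ℝ, X₅ = ∑ q ∈ Z₁, ∑ T ∈ Z₂.powerset, |Xb q T| := ⟨_, rfl⟩
  have hX₅' : ∀ q ∈ Z₁, ∀ T ⊆ Z₂, Xb q T ≤ X₅ := by
    intro q hq T hT
    have e1 : |Xb q T| ≤ ∑ T ∈ Z₂.powerset, |Xb q T| :=
      Finset.single_le_sum (f := fun T => |Xb q T|) (fun _ _ => abs_nonneg _)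
        (Finset.mem_powerset.2 hT)
    have e2 : ∑ T ∈ Z₂.powerset, |Xb q T| ≤ ∑ q ∈ Z₁, ∑ T ∈ Z₂.powerset, |Xb q T| :=
      Finset.single_le_sum (f := fun q => ∑ T ∈ Z₂.powerset, |Xb q T|)
        (fun _ _ => Finset.sum_nonneg fun _ _ => abs_nonneg _) hq
    rw [hX₅]
    exact (le_abs_self _).trans (e1.trans e2)
  obtain ⟨X₆, hX₆, h8⟩ := zero_count (K := K) hδ0
  refine ⟨S, e + 1, Z₁, Z₂, m', max (max (max X₁ X₂) (max X₃ X₄)) (max X₅ X₆), ?_, hm'0, hm't, hm'm,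
    hm'S, ?_, ?_, ?_, ?_⟩
  · intro v hv
    exact (hS v).2 (Or.inl hv)
  · intro q hq
    refine ⟨hZS q (hZ₁ q hq).1, fun h => (hZ₂ q h).1.2 hq, (hZ q (hZ₁ q hq).1).1⟩
  · intro p hp
    exact hZS p (hZ₂ p hp).1.1
  · intro q hq p hp
    refine hZr q (hZ₁ q hq).1 p (hZ₂ p hp).1.1 ?_
    rintro rfl
    exact (hZ₂ p hp).1.2 hq
  intro X hX
  have hXX₁ : X₁ ≤ X := (le_max_left _ _).trans ((le_max_left _ _).trans ((le_max_left _ _).trans hX))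
  have hXX₂ : X₂ ≤ X := (le_max_right _ _).trans ((le_max_left _ _).trans ((le_max_left _ _).trans hX))
  have hXX₃ : X₃ ≤ X := (le_max_left _ _).trans ((le_max_right _ _).trans ((le_max_left _ _).trans hX))
  have hXX₄ : X₄ ≤ X := (le_max_right _ _).trans ((le_max_right _ _).trans ((le_max_left _ _).trans hX))
  have hXX₅ : X₅ ≤ X := (le_max_left _ _).trans ((le_max_right _ _).trans hX)
  have hXX₆ : X₆ ≤ X := (le_max_right _ _).trans ((le_max_right _ _).trans hX)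
  have hX0 : 0 ≤ X := by linarith
  obtain ⟨Y, hY⟩ : ∃ Y : ℝ, Y = X ^ (5 * Module.finrank ℚ K) := ⟨_, rfl⟩
  have hY0 : 0 ≤ Y := by rw [hY]; positivity
  have hfin : ∀ P : 𝓞 K × 𝓞 K → Prop, {p : 𝓞 K × 𝓞 K | p ∈ Bx K X ∧ P p}.Finite := fun P =>
    (H36PP.Bx_finite K X).subset fun p hp => hp.1
  have e1 := h1 X hXX₁
  have e2 := h2 X hXX₂
  have e3 := h3 X hXX₃
  have e5 := h5 X hXX₄
  have e8 := h8 X hXX₆
  rw [← hY] at e1 e2 e3 e5 e8 ⊢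
  -- the remaining pairs
  obtain ⟨P, hP⟩ : ∃ P : Finset (𝓞 K × 𝓞 K), ∀ p, p ∈ P ↔ (p ∈ Bx K X ∧
      ((∀ v : HeightOneSpectrum (𝓞 K), v ∉ S → dsc p.1 p.2 ∉ v.asIdeal ^ 2) ∧
      (∀ v ∈ S, dsc p.1 p.2 ∉ v.asIdeal ^ (e + 1)) ∧
      (∃ q ∈ Z₁, ∀ t : 𝓞 K, t ^ 3 + p.1 * t + p.2 ∉ q.asIdeal) ∧
      N ≤ (Z₂.filter (fun v => p ∈ Pt v)).card ∧
      ¬ ∃ q ∈ Z₁, ∃ T ⊆ Z₂, FamS S (e + 1) q T p.1 p.2 ∧ ¬ BadS S T p.1 p.2)) :=
    ⟨(hfin _).toFinset, fun p => Set.Finite.mem_toFinset _⟩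
  have hbadfin : ∀ (q : HeightOneSpectrum (𝓞 K)) (T : Finset (HeightOneSpectrum (𝓞 K))),
      {p : 𝓞 K × 𝓞 K | p ∈ Bx K X ∧ FamS S (e + 1) q T p.1 p.2 ∧ BadS S T p.1 p.2}.Finite :=
    fun q T => hfin _
  have hav := average Z₂ P (fun p => Z₂.filter (fun v => p ∈ Pt v))
    (fun T => Z₁.biUnion fun q => (hbadfin q T).toFinset) N k
    (((r₁ + 1 : ℕ) : ℝ) * (C₄ * 0.31 ^ k * Y)) (by
      intro T hT hTk
      refine (Nat.cast_le.2 Finset.card_biUnion_le).trans ?_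
      rw [Nat.cast_sum]
      refine (Finset.sum_le_card_nsmul Z₁ _ (C₄ * 0.31 ^ k * Y) fun q hq => ?_).trans ?_
      · have g1 := hXb q T hT X ((hX₅' q hq T hT).trans hXX₅)
        rw [← Set.ncard_eq_toFinset_card _ (hbadfin q T)]
        refine g1.trans ?_
        rw [← hY]
        refine mul_le_mul_of_nonneg_right (mul_le_mul_of_nonneg_left ?_ hC₄.le) hY0
        rw [← hTk]
        exact prod9 fun v hv => (le_max_right _ _).trans (hZ₂ v (hT hv)).2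
      · rw [hZ₁c, nsmul_eq_mul])
    (by
      intro p hp
      obtain ⟨hpB, hsq, hbd, ⟨q, hq, hqr⟩, hNc, hno⟩ := (hP p).1 hp
      refine ⟨Finset.filter_subset _ _, hNc, fun T hT hTk => ?_⟩
      have hTZ : T ⊆ Z₂ := hT.trans (Finset.filter_subset _ _)
      have hF : FamS S (e + 1) q T p.1 p.2 :=
        ⟨hqr, fun v hv => (Finset.mem_filter.1 (hT hv)).2, hsq, hbd⟩
      rw [Finset.mem_biUnion]
      refine ⟨q, hq, ?_⟩
      rw [Set.Finite.mem_toFinset]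
      refine ⟨hpB, hF, ?_⟩
      by_contra hB
      exact hno ⟨q, hq, T, hTZ, hF, hB⟩)
  rw [hZ₂c] at hav
  have ePc : (P.card : ℝ) ≤ δ * Y := by
    have hc0 : (0 : ℝ) < (N.choose k : ℝ) := by exact_mod_cast hk0
    have g2 : (N.choose k : ℝ) * (P.card : ℝ) ≤ (N.choose k : ℝ) * (δ * Y) := by
      refine hav.trans ?_
      calc ((3 * N).choose k : ℝ) * (((r₁ + 1 : ℕ) : ℝ) * (C₄ * 0.31 ^ k * Y))
          = (C₄ * ((r₁ + 1 : ℕ) : ℝ) * 0.31 ^ k * ((3 * N).choose k : ℝ)) * Y := by ring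
        _ ≤ (δ * (N.choose k : ℝ)) * Y := mul_le_mul_of_nonneg_right hk1 hY0
        _ = _ := by ring
    exact le_of_mul_le_mul_left g2 hc0
  -- the union bound
  have hsub : {p : 𝓞 K × 𝓞 K | p ∈ Bx K X ∧ ¬ ∃ q ∈ Z₁, ∃ T ⊆ Z₂, FamS S (e + 1) q T p.1 p.2 ∧
      ¬ BadS S T p.1 p.2} ⊆
      ((((Tail K M₀ X ∪ {p : 𝓞 K × 𝓞 K | p ∈ Bx K X ∧ ∃ v ∈ S, dsc p.1 p.2 ∈ v.asIdeal ^ e}) ∪
        {p : 𝓞 K × 𝓞 K | p ∈ Bx K X ∧ ∀ v ∈ Z₁, ∃ t : 𝓞 K,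
          t ^ 3 + p.1 * t + p.2 ∈ v.asIdeal}) ∪
        {p : 𝓞 K × 𝓞 K | p ∈ Bx K X ∧ (Z₂.filter (fun v => p ∈ Pt v)).card < N}) ∪
        {p : 𝓞 K × 𝓞 K | p ∈ Bx K X ∧ p.1 = 0}) ∪ (P : Set (𝓞 K × 𝓞 K)) := by
    rintro p ⟨hpB, hno⟩
    by_cases c1 : p ∈ Tail K M₀ X
    · exact Or.inl (Or.inl (Or.inl (Or.inl (Or.inl c1))))
    by_cases c2 : ∃ v ∈ S, dsc p.1 p.2 ∈ v.asIdeal ^ e
    · exact Or.inl (Or.inl (Or.inl (Or.inl (Or.inr ⟨hpB, c2⟩))))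
    by_cases c3 : ∀ v ∈ Z₁, ∃ t : 𝓞 K, t ^ 3 + p.1 * t + p.2 ∈ v.asIdeal
    · exact Or.inl (Or.inl (Or.inl (Or.inr ⟨hpB, c3⟩)))
    by_cases c4 : (Z₂.filter (fun v => p ∈ Pt v)).card < N
    · exact Or.inl (Or.inl (Or.inr ⟨hpB, c4⟩))
    by_cases c5 : p.1 = 0
    · exact Or.inl (Or.inr ⟨hpB, c5⟩)
    refine Or.inr ?_
    rw [Finset.mem_coe, hP]
    push Not at c2 c3
    refine ⟨hpB, ?_, ?_, ?_, not_lt.1 c4, hno⟩
    · intro v hv hd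
      have hv' : ¬ ((6 : 𝓞 K) ∈ v.asIdeal ∨ ¬ M₀ < Nv v) := fun h => hv ((hS v).2 h)
      rw [not_or, not_not] at hv'
      refine c1 ⟨hpB, c5, ?_, v, hv'.1, hv'.2, hd⟩
      intro h0
      obtain ⟨u, hu⟩ := Ya_exists_two K
      have hu6 : (6 : 𝓞 K) ∈ u.asIdeal := by
        have : (6 : 𝓞 K) = 3 * 2 := by norm_num
        rw [this]
        exact u.asIdeal.mul_mem_left _ hu
      apply c2 u ((hS u).2 (Or.inl hu6))
      rw [h0]
      exact Submodule.zero_mem _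
    · intro v hv hd
      exact c2 v hv (Ideal.pow_le_pow_right (Nat.le_succ e) hd)
    · exact c3
  have hfinT : (Tail K M₀ X).Finite := (H36PP.Bx_finite K X).subset fun p hp => hp.1
  have hfin1 := hfinT.union (hfin fun p => ∃ v ∈ S, dsc p.1 p.2 ∈ v.asIdeal ^ e)
  have hfin2 := hfin1.union (hfin fun p => ∀ v ∈ Z₁, ∃ t : 𝓞 K, t ^ 3 + p.1 * t + p.2 ∈ v.asIdeal)
  have hfin3 := hfin2.union (hfin fun p => (Z₂.filter (fun v => p ∈ Pt v)).card < N)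
  have hfin4 := hfin3.union (hfin fun p => p.1 = 0)
  have hfin5 := hfin4.union P.finite_toSet
  have g := Set.ncard_le_ncard hsub hfin5
  have g1 := g.trans (Set.ncard_union_le _ _)
  have g2 := g1.trans (Nat.add_le_add_right (Set.ncard_union_le _ _) _)
  have g3 := g2.trans (Nat.add_le_add_right (Nat.add_le_add_right (Set.ncard_union_le _ _) _) _)
  have g4 := g3.trans (Nat.add_le_add_right (Nat.add_le_add_right (Nat.add_le_add_right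
    (Set.ncard_union_le _ _) _) _) _)
  have g5 := g4.trans (Nat.add_le_add_right (Nat.add_le_add_right (Nat.add_le_add_right
    (Nat.add_le_add_right (Set.ncard_union_le _ _) _) _) _) _)
  rw [Set.ncard_coe_finset] at g5
  have g6 : ({p : 𝓞 K × 𝓞 K | p ∈ Bx K X ∧ ¬ ∃ q ∈ Z₁, ∃ T ⊆ Z₂, FamS S (e + 1) q T p.1 p.2 ∧
      ¬ BadS S T p.1 p.2}.ncard : ℝ) ≤ _ := Nat.cast_le.2 g5
  push_cast at g6
  have hε' : ε * Y = δ * Y + δ * Y + δ * Y + δ * Y + δ * Y + δ * Y := by rw [hδ]; ring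
  linarith

end H36MT

end S_H36_MT_As2

section S_H36_MT_Js

set_option autoImplicit false
set_option linter.unusedSectionVars false
open scoped Classical

open WithZero NumberField IsDedekindDomain H38RT
open H76PP

namespace H36MT

private theorem Js_six {x : WithZero (Multiplicative ℤ)} {m k : ℤ} (hk : m < 6 * (k + 1))
    (h : x ^ 6 ≤ exp m) : x ≤ exp k := by
  by_cases h0 : x = 0
  · rw [h0]
    exact zero_le
  · rw [← exp_log h0] at h ⊢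
    rw [← exp_nsmul, exp_le_exp] at h
    rw [exp_le_exp]
    rw [nsmul_eq_mul] at h
    push_cast at h
    omega

private theorem Js_val {K : Type} [Field K] [NumberField K] {v : HeightOneSpectrum (𝓞 K)}
    {a : 𝓞 K} {n : ℕ} (h : a ∉ v.asIdeal ^ n) :
    exp (-((n : ℤ) - 1)) ≤ v.valuation K (a : K) := by
  by_contra hlt
  apply h
  have h8 : v.valuation K (a : K) ≤ exp (-(n : ℤ)) := by
    rw [not_le] at hlt
    by_cases h0 : v.valuation K (a : K) = 0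
    · rw [h0]
      exact zero_le
    · rw [← exp_log h0] at hlt ⊢
      rw [exp_lt_exp] at hlt
      rw [exp_le_exp]
      omega
  rw [HeightOneSpectrum.valuation_of_algebraMap] at h8
  exact (v.intValuation_le_pow_iff_mem a n).1 h8

private theorem Js_same {K : Type} [Field K] [NumberField K]
    {S : Finset (HeightOneSpectrum (𝓞 K))} {e : ℕ}
    {q₀ : HeightOneSpectrum (𝓞 K)} {T : Finset (HeightOneSpectrum (𝓞 K))}
    {A B A' B' : 𝓞 K} (hF : FamS S e q₀ T A B) (_hF' : FamS S e q₀ T A' B')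
    (hA0 : A ≠ 0) (hA0' : A' ≠ 0) (hB0 : B ≠ 0) (hB0' : B' ≠ 0)
    {r : ℕ} (hrS : ∀ v ∈ S, (r : 𝓞 K) ∈ v.asIdeal ^ e)
    (h : A ^ 3 * B' ^ 2 = A' ^ 3 * B ^ 2) :
    ∃ u : 𝓞 K, (r : 𝓞 K) ^ 2 * A' = u ^ 2 * A ∧ (r : 𝓞 K) ^ 3 * B' = u ^ 3 * B := by
  have hA : (A : K) ≠ 0 := RingOfIntegers.coe_ne_zero_iff.2 hA0
  have hA' : (A' : K) ≠ 0 := RingOfIntegers.coe_ne_zero_iff.2 hA0'
  have hB : (B : K) ≠ 0 := RingOfIntegers.coe_ne_zero_iff.2 hB0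
  have hB' : (B' : K) ≠ 0 := RingOfIntegers.coe_ne_zero_iff.2 hB0'
  have hK : (A : K) ^ 3 * (B' : K) ^ 2 = (A' : K) ^ 3 * (B : K) ^ 2 := by
    have h1 := congrArg (algebraMap (𝓞 K) K) h
    simpa only [map_mul, map_pow] using h1
  obtain ⟨t, ht⟩ : ∃ t : K, t = (B' : K) * (A : K) / ((B : K) * (A' : K)) := ⟨_, rfl⟩
  have e1 : (A' : K) = t ^ 2 * (A : K) := by
    rw [ht]
    field_simp
    linear_combination -hK
  have e2 : (B' : K) = t ^ 3 * (B : K) := by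
    have e3 : t ^ 3 * (B : K) = (t ^ 2 * (A : K)) * (t * (B : K) / (A : K)) := by
      field_simp
    rw [e3, ← e1, ht]
    field_simp
  have e4 : ((dsc A' B' : 𝓞 K) : K) = t ^ 6 * ((dsc A B : 𝓞 K) : K) := by
    have e5 : ((dsc A' B' : 𝓞 K) : K) = 4 * (A' : K) ^ 3 + 27 * (B' : K) ^ 2 := by
      simp only [dsc, map_add, map_mul, map_pow, map_ofNat]
    have e6 : ((dsc A B : 𝓞 K) : K) = 4 * (A : K) ^ 3 + 27 * (B : K) ^ 2 := by
      simp only [dsc, map_add, map_mul, map_pow, map_ofNat]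
    rw [e5, e6]
    rw [e1, e2]
    ring
  have hsix : ∀ (v : HeightOneSpectrum (𝓞 K)) (n : ℕ), dsc A B ∉ v.asIdeal ^ n →
      v.valuation K t ^ 6 ≤ exp ((n : ℤ) - 1) := by
    intro v n hn
    have h4 := congrArg (v.valuation K) e4
    rw [map_mul, map_pow] at h4
    have h5 : v.valuation K ((dsc A' B' : 𝓞 K) : K) ≤ 1 := v.valuation_le_one _
    have h7 := Js_val hn
    rw [h4] at h5
    have h10 : v.valuation K t ^ 6 * exp (-((n : ℤ) - 1)) ≤ 1 :=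
      (mul_le_mul_right h7 _).trans h5
    have h11 : v.valuation K t ^ 6 * exp (-((n : ℤ) - 1)) * exp ((n : ℤ) - 1) ≤
        1 * exp ((n : ℤ) - 1) := mul_le_mul_left h10 _
    rwa [mul_assoc, ← exp_add, neg_add_cancel, exp_zero, mul_one, one_mul] at h11
  have hint : ∀ v : HeightOneSpectrum (𝓞 K), v.valuation K ((r : K) * t) ≤ 1 := by
    intro v
    rw [map_mul]
    have hrK : ((r : 𝓞 K) : K) = (r : K) := map_natCast (algebraMap (𝓞 K) K) r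
    by_cases hv : v ∈ S
    · have h1 : v.valuation K t ≤ exp (e : ℤ) :=
        Js_six (by omega) (hsix v e (hF.bdd v hv))
      have h2 : v.valuation K (r : K) ≤ exp (-(e : ℤ)) := by
        rw [← hrK, HeightOneSpectrum.valuation_of_algebraMap]
        exact (v.intValuation_le_pow_iff_mem (r : 𝓞 K) e).2 (hrS v hv)
      calc v.valuation K (r : K) * v.valuation K t ≤ exp (-(e : ℤ)) * exp (e : ℤ) :=
            mul_le_mul' h2 h1
        _ = 1 := by rw [← exp_add, neg_add_cancel, exp_zero]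
    · have h1 : v.valuation K t ≤ exp (0 : ℤ) :=
        Js_six (m := ((2 : ℕ) : ℤ) - 1) (by norm_num) (hsix v 2 (hF.sqf v hv))
      rw [exp_zero] at h1
      have h2 : v.valuation K (r : K) ≤ 1 := by
        rw [← hrK]
        exact v.valuation_le_one _
      exact mul_le_one' h2 h1
  obtain ⟨u, hu⟩ := HeightOneSpectrum.mem_integers_of_valuation_le_one K ((r : K) * t) hint
  refine ⟨u, ?_, ?_⟩
  · apply RingOfIntegers.coe_injective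
    rw [map_mul, map_mul, map_pow, map_pow, hu, map_natCast]
    change (r : K) ^ 2 * (A' : K) = ((r : K) * t) ^ 2 * (A : K)
    rw [e1]
    ring
  · apply RingOfIntegers.coe_injective
    rw [map_mul, map_mul, map_pow, map_pow, hu, map_natCast]
    change (r : K) ^ 3 * (B' : K) = ((r : K) * t) ^ 3 * (B : K)
    rw [e2]
    ring

theorem exists_subS (K : Type) [Field K] [NumberField K] (S : Finset (HeightOneSpectrum (𝓞 K)))
    (e : ℕ) {δ : ℝ} (hδ : 0 < δ) :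
    ∃ M : ℕ, ∀ (q₀ : HeightOneSpectrum (𝓞 K)) (T : Finset (HeightOneSpectrum (𝓞 K))) (X : ℝ),
      0 < X → ∀ P : Finset (𝓞 K × 𝓞 K), (∀ p ∈ P, p ∈ Bx K X ∧ FamS S e q₀ T p.1 p.2 ∧
        ∀ s : K →+* ℂ, δ * X ^ 2 ≤ ‖s (p.1 : K)‖) → ∃ G ⊆ P, P.card ≤ M * G.card ∧
          ∀ p ∈ G, ∀ q ∈ G, p.1 ^ 3 * q.2 ^ 2 = q.1 ^ 3 * p.2 ^ 2 → p = q := by
  obtain ⟨r, hr0, hrS⟩ := exists_r S e
  refine ⟨(H76PP.bx_finite K (√((r : ℝ) ^ 2 / δ))).toFinset.card, fun q₀ T X hX P hP => ?_⟩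
  have hneA : ∀ p ∈ P, p.1 ≠ 0 := by
    intro p hp h0
    obtain ⟨s⟩ : Nonempty (K →+* ℂ) := inferInstance
    have h1 := (hP p hp).2.2 s
    have h3 : (p.1 : K) = 0 := by rw [h0]; exact map_zero (algebraMap (𝓞 K) K)
    rw [h3, map_zero, norm_zero] at h1
    have h2 : 0 < δ * X ^ 2 := by positivity
    linarith
  have hneB : ∀ p ∈ P, p.2 ≠ 0 := by
    intro p hp h0
    apply (hP p hp).2.1.irr 0
    rw [h0]
    have h1 : (0 : 𝓞 K) ^ 3 + p.1 * 0 + 0 = 0 := by ring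
    rw [h1]
    exact Submodule.zero_mem _
  have hrne : (r : 𝓞 K) ≠ 0 := Nat.cast_ne_zero.2 hr0.ne'
  set φ : 𝓞 K × 𝓞 K → K := fun p => (p.1 : K) ^ 3 / (p.2 : K) ^ 2 with hφ
  have hφ1 : ∀ p ∈ P, ∀ q ∈ P, φ p = φ q ↔ p.1 ^ 3 * q.2 ^ 2 = q.1 ^ 3 * p.2 ^ 2 := by
    intro p hp q hq
    have h1 : (p.2 : K) ≠ 0 := RingOfIntegers.coe_ne_zero_iff.2 (hneB p hp)
    have h2 : (q.2 : K) ≠ 0 := RingOfIntegers.coe_ne_zero_iff.2 (hneB q hq)
    rw [hφ]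
    beta_reduce
    rw [div_eq_div_iff (pow_ne_zero 2 h1) (pow_ne_zero 2 h2)]
    constructor
    · intro h
      apply RingOfIntegers.coe_injective
      simp only [map_mul, map_pow]
      exact h
    · intro h
      have h3 := congrArg (algebraMap (𝓞 K) K) h
      simp only [map_mul, map_pow] at h3
      exact h3
  have hfib : ∀ b ∈ P.image φ, (P.filter fun a => φ a = b).card ≤
      (H76PP.bx_finite K (√((r : ℝ) ^ 2 / δ))).toFinset.card := by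
    intro b hb
    obtain ⟨p, hp, rfl⟩ := Finset.mem_image.1 hb
    have htw : ∀ q : 𝓞 K × 𝓞 K, ∃ t : 𝓞 K, q ∈ P → φ q = φ p →
        (r : 𝓞 K) ^ 2 * q.1 = t ^ 2 * p.1 ∧ (r : 𝓞 K) ^ 3 * q.2 = t ^ 3 * p.2 := by
      intro q
      by_cases hq : q ∈ P ∧ φ q = φ p
      · obtain ⟨t, ht⟩ := Js_same (hP p hp).2.1 (hP q hq.1).2.1 (hneA p hp) (hneA q hq.1)
          (hneB p hp) (hneB q hq.1) hrS ((hφ1 p hp q hq.1).1 hq.2.symm)
        exact ⟨t, fun _ _ => ht⟩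
      · exact ⟨0, fun h h' => absurd ⟨h, h'⟩ hq⟩
    choose t ht using htw
    refine Finset.card_le_card_of_injOn t ?_ ?_
    · intro q hq
      rw [Finset.mem_coe, Finset.mem_filter] at hq
      rw [Finset.mem_coe, Set.Finite.mem_toFinset]
      intro s
      obtain ⟨h1, -⟩ := ht q hq.1 hq.2
      have h2 : (r : ℂ) ^ 2 * s (q.1 : K) = s ((t q : 𝓞 K) : K) ^ 2 * s (p.1 : K) := by
        have h3 := congrArg (algebraMap (𝓞 K) K) h1
        rw [map_mul, map_mul, map_pow, map_pow, map_natCast] at h3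
        have h4 := congrArg s h3
        rw [map_mul, map_mul, map_pow, map_pow, map_natCast] at h4
        exact h4
      have h5 := (hP q hq.1).1.1 s
      have h6 := (hP p hp).2.2 s
      have h2' := congrArg norm h2
      rw [norm_mul, norm_mul, norm_pow, norm_pow, Complex.norm_natCast] at h2'
      obtain ⟨y, hy⟩ : ∃ y : ℝ, y = ‖s ((t q : 𝓞 K) : K)‖ := ⟨_, rfl⟩
      rw [← hy] at h2' ⊢
      have hy0 : 0 ≤ y := by rw [hy]; exact norm_nonneg _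
      have h7 : y ^ 2 * (δ * X ^ 2) ≤ (r : ℝ) ^ 2 * X ^ 2 := by
        calc y ^ 2 * (δ * X ^ 2) ≤ y ^ 2 * ‖s (p.1 : K)‖ :=
              mul_le_mul_of_nonneg_left h6 (by positivity)
          _ = (r : ℝ) ^ 2 * ‖s (q.1 : K)‖ := h2'.symm
          _ ≤ (r : ℝ) ^ 2 * X ^ 2 := mul_le_mul_of_nonneg_left h5 (by positivity)
      apply Real.le_sqrt_of_sq_le
      rw [le_div_iff₀ hδ]
      have hX2 : 0 < X ^ 2 := by positivity
      by_contra hcon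
      rw [not_le] at hcon
      nlinarith
    · intro q hq q' hq' h
      rw [Finset.mem_coe, Finset.mem_filter] at hq hq'
      obtain ⟨h1, h2⟩ := ht q hq.1 hq.2
      obtain ⟨h3, h4⟩ := ht q' hq'.1 hq'.2
      rw [h] at h1 h2
      exact Prod.ext (mul_left_cancel₀ (pow_ne_zero 2 hrne) (h1.trans h3.symm))
        (mul_left_cancel₀ (pow_ne_zero 3 hrne) (h2.trans h4.symm))
  have hcard := Finset.card_le_mul_card_image P _ hfib
  have hsurj : Set.SurjOn φ (P : Set (𝓞 K × 𝓞 K)) ((P.image φ : Finset K) : Set K) := by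
    intro b hb
    rw [Finset.mem_coe, Finset.mem_image] at hb
    obtain ⟨p, hp, hpb⟩ := hb
    exact ⟨p, hp, hpb⟩
  obtain ⟨G, hGS, hGinj, hGim⟩ :=
    Finset.exists_subset_injOn_image_eq_of_surjOn (P : Set (𝓞 K × 𝓞 K)) (P.image φ) hsurj
  have hGS' : G ⊆ P := fun p hp => by exact_mod_cast hGS (Finset.mem_coe.2 hp)
  refine ⟨G, hGS', ?_, ?_⟩
  · rw [← hGim, Finset.card_image_of_injOn hGinj] at hcard
    exact hcard
  · intro p hp q hq h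
    exact hGinj (Finset.mem_coe.2 hp) (Finset.mem_coe.2 hq) ((hφ1 p (hGS' hp) q (hGS' hq)).2 h)

end H36MT

end S_H36_MT_Js

section S_H36_MT_As3

set_option autoImplicit false
set_option linter.unusedSectionVars false
open scoped Classical

open WithZero NumberField IsDedekindDomain H38RT
open H76PP

namespace H36MT

theorem pigeon {α β : Type} (G : Finset α) (I : Finset β) (hI : I.Nonempty) (f : α → β)
    (hf : ∀ a ∈ G, f a ∈ I) :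
    ∃ i ∈ I, ∃ G' ⊆ G, (∀ a ∈ G', f a = i) ∧ G.card ≤ I.card * G'.card := by
  have h : ∃ i ∈ I, G.card ≤ I.card * (G.filter (fun a => f a = i)).card := by
    by_contra hcon
    push Not at hcon
    have h1 : G.card = ∑ i ∈ I, (G.filter (fun a => f a = i)).card :=
      Finset.card_eq_sum_card_fiberwise fun p hp => hf p hp
    have h2 : ∑ i ∈ I, I.card * (G.filter (fun a => f a = i)).card < ∑ i ∈ I, G.card :=
      Finset.sum_lt_sum_of_nonempty hI hcon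
    rw [← Finset.mul_sum, ← h1, Finset.sum_const, smul_eq_mul] at h2
    exact lt_irrefl _ h2
  obtain ⟨i, hi, h⟩ := h
  exact ⟨i, hi, _, Finset.filter_subset _ _, fun a ha => (Finset.mem_filter.1 ha).2, h⟩

/-- The parameters: finite sets of primes, the twisting factors, the count. -/
theorem main_par (K : Type) [Field K] [NumberField K] {m : Ideal (𝓞 K)} (hm : m ≠ ⊥) {ε : ℝ}
    (hε : 0 < ε) :
    ∃ (S : Finset (HeightOneSpectrum (𝓞 K))) (e : ℕ) (Z₁ Z₂ Sg : Finset (HeightOneSpectrum (𝓞 K)))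
      (D : HeightOneSpectrum (𝓞 K) → Finset (HeightOneSpectrum (𝓞 K)) → 𝓞 K) (X₀ : ℝ),
      (∀ q ∈ Z₁, ∀ J ⊆ Z₂, D q J - 1 ∈ m ∧ D q J ≠ 0 ∧ ∀ s : K →+* ℝ, 0 < s (D q J : K)) ∧
      (∀ q ∈ Z₁, ∀ T ⊆ Z₂, ∀ p : 𝓞 K × 𝓞 K, FamS S e q T p.1 p.2 → ¬ BadS S T p.1 p.2 →
        ∃ J ⊆ Z₂, GoodT K Sg (D q J ^ 2 * p.1, D q J ^ 3 * p.2)) ∧
      ∀ X : ℝ, X₀ ≤ X →
        ({p : 𝓞 K × 𝓞 K | p ∈ Bx K X ∧ ¬ ∃ q ∈ Z₁, ∃ T ⊆ Z₂, FamS S e q T p.1 p.2 ∧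
          ¬ BadS S T p.1 p.2}.ncard : ℝ) ≤ ε * X ^ (5 * Module.finrank ℚ K) := by
  obtain ⟨S, e, Z₁, Z₂, m', X₀, hS6, hm'0, hm't, hm'm, hm'S, hZ₁, hZ₂, hZr, hcount⟩ :=
    main_count K hm hε
  have hD : ∀ (q : HeightOneSpectrum (𝓞 K)) (J : Finset (HeightOneSpectrum (𝓞 K))), ∃ D : 𝓞 K,
      q ∈ Z₁ → J ⊆ Z₂ → D - 1 ∈ m' ∧ TwS S q J (D : K) := by
    intro q J
    by_cases h : q ∈ Z₁ ∧ J ⊆ Z₂
    · obtain ⟨D, hD⟩ := exists_twistS hm'0 hm't hm'S (hZ₁ q h.1).2.2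
        (fun p hp => hZr q h.1 p (h.2 hp))
      exact ⟨D, fun _ _ => hD⟩
    · exact ⟨0, fun h1 h2 => absurd ⟨h1, h2⟩ h⟩
  choose D hD using hD
  refine ⟨S, e, Z₁, Z₂, S ∪ Z₁ ∪ Z₂, D, X₀, ?_, ?_, hcount⟩
  · intro q hq J hJ
    obtain ⟨h1, h2⟩ := hD q J hq hJ
    refine ⟨hm'm h1, ?_, h2.pos⟩
    intro h0
    apply h2.ne
    rw [h0]
    exact map_zero (algebraMap (𝓞 K) K)
  · intro q hq T hT p hF hB
    obtain ⟨J, hJ, hgood⟩ := good_S (q₀ := q) hS6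
      (fun v hv => ⟨fun h => (hZ₁ q hq).2.1 (by rw [← h]; exact hT hv), hZ₂ v (hT hv)⟩) hF hB
    have hJ2 : J ⊆ Z₂ := hJ.trans hT
    exact ⟨J, hJ2, (hgood (D q J) (hD q J hq hJ2).2 (S ∪ Z₁ ∪ Z₂)
      (fun v hv => Finset.mem_union_left _ (Finset.mem_union_left _ hv))
      (fun v hv => Finset.mem_union_right _ (hT hv))
      (Finset.mem_union_left _ (Finset.mem_union_right _ hq))).good⟩

/-- Theorem A. -/
theorem main_A (K : Type) [Field K] [NumberField K] {m : Ideal (𝓞 K)} (hm : m ≠ ⊥) {ε : ℝ}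
    (hε : 0 < ε) :
    ∃ (Sg : Finset (HeightOneSpectrum (𝓞 K))) (DD : Finset (𝓞 K)) (X₀ : ℝ),
      (∀ D ∈ DD, D ≠ 0 ∧ D - 1 ∈ m ∧ ∀ s : K →+* ℝ, 0 < s (D : K)) ∧
      ∀ X : ℝ, X₀ ≤ X →
        ({p : 𝓞 K × 𝓞 K | p ∈ Bx K X ∧
          ¬ ∃ D ∈ DD, GoodT K Sg (D ^ 2 * p.1, D ^ 3 * p.2)}.ncard : ℝ) ≤
          ε * ((Bx K X).ncard : ℝ) := by
  obtain ⟨c, X₁, hc, hlow⟩ := class_lower (K := K) (m := ⊤) top_ne_bot
  obtain ⟨S, e, Z₁, Z₂, Sg, D, X₀, h1, h2, h3⟩ := main_par K hm (ε := ε * c) (by positivity)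
  refine ⟨Sg, Z₁.biUnion fun q => Z₂.powerset.image (D q), max X₀ X₁, ?_, ?_⟩
  · intro d hd
    rw [Finset.mem_biUnion] at hd
    obtain ⟨q, hq, hd⟩ := hd
    rw [Finset.mem_image] at hd
    obtain ⟨J, hJ, rfl⟩ := hd
    obtain ⟨g1, g2, g3⟩ := h1 q hq J (Finset.mem_powerset.1 hJ)
    exact ⟨g2, g1, g3⟩
  · intro X hX
    have h4 := h3 X ((le_max_left _ _).trans hX)
    have h5 := hlow X ((le_max_right _ _).trans hX) 0 0
    have h6 : {p : 𝓞 K × 𝓞 K | p ∈ Bx K X ∧ p.1 - 0 ∈ (⊤ : Ideal (𝓞 K)) ∧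
        p.2 - 0 ∈ (⊤ : Ideal (𝓞 K))} = Bx K X := by
      ext p
      simp
    rw [h6] at h5
    have h7 : {p : 𝓞 K × 𝓞 K | p ∈ Bx K X ∧ ¬ ∃ d ∈ Z₁.biUnion fun q => Z₂.powerset.image (D q),
        GoodT K Sg (d ^ 2 * p.1, d ^ 3 * p.2)} ⊆
        {p : 𝓞 K × 𝓞 K | p ∈ Bx K X ∧ ¬ ∃ q ∈ Z₁, ∃ T ⊆ Z₂, FamS S e q T p.1 p.2 ∧
          ¬ BadS S T p.1 p.2} := by
      rintro p ⟨hp, hno⟩
      refine ⟨hp, ?_⟩
      rintro ⟨q, hq, T, hT, hF, hB⟩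
      apply hno
      obtain ⟨J, hJ, hg⟩ := h2 q hq T hT p hF hB
      refine ⟨D q J, ?_, hg⟩
      rw [Finset.mem_biUnion]
      exact ⟨q, hq, Finset.mem_image.2 ⟨J, Finset.mem_powerset.2 hJ, rfl⟩⟩
    have h8 := Set.ncard_le_ncard h7 ((H36PP.Bx_finite K X).subset fun p hp => hp.1)
    have h9 : ({p : 𝓞 K × 𝓞 K | p ∈ Bx K X ∧
        ¬ ∃ d ∈ Z₁.biUnion fun q => Z₂.powerset.image (D q),
        GoodT K Sg (d ^ 2 * p.1, d ^ 3 * p.2)}.ncard : ℝ) ≤ _ := Nat.cast_le.2 h8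
    calc _ ≤ _ := h9
      _ ≤ ε * c * X ^ (5 * Module.finrank ℚ K) := h4
      _ = ε * (c * X ^ (5 * Module.finrank ℚ K)) := by ring
      _ ≤ _ := mul_le_mul_of_nonneg_left h5 hε.le

/-- Theorem B: every residue class contains a positive proportion of good curves, pairwise not
isomorphic over the algebraic closure. -/
theorem main_B (K : Type) [Field K] [NumberField K] {m : Ideal (𝓞 K)} (hm : m ≠ ⊥) :
    ∃ (Sg : Finset (HeightOneSpectrum (𝓞 K))) (c X₀ : ℝ), 0 < c ∧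
      ∀ a₀ b₀ : 𝓞 K, ∀ X : ℝ, X₀ ≤ X → ∃ G : Finset (𝓞 K × 𝓞 K),
        (∀ p ∈ G, p ∈ Bx K X ∧ p.1 - a₀ ∈ m ∧ p.2 - b₀ ∈ m ∧ GoodT K Sg p) ∧
        (∀ p ∈ G, ∀ q ∈ G, p.1 ^ 3 * q.2 ^ 2 = q.1 ^ 3 * p.2 ^ 2 → p = q) ∧
        c * ((Bx K X).ncard : ℝ) ≤ (G.card : ℝ) := by
  have HB : Blocks K := blocks_of_HR2 K fun h hd => hr2 h hd
  obtain ⟨c, X₁, hc, hlow⟩ := class_lower (K := K) hm
  obtain ⟨S, e, Z₁, Z₂, Sg, D, X₂, h1, h2, h3⟩ := main_par K hm (ε := c / 4) (by positivity)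
  obtain ⟨C, hC, hup⟩ := HB.up
  obtain ⟨η, X₃, hη, hη1, hsmall⟩ := HB.small (δ := c / 4) (by positivity)
  obtain ⟨M, hM⟩ := exists_subS K S e hη
  -- the size of the twisting factors
  choose t ht using fun (q : HeightOneSpectrum (𝓞 K)) (J : Finset (HeightOneSpectrum (𝓞 K))) =>
    exists_bx (D q J)
  obtain ⟨κ, hκ⟩ : ∃ κ : ℝ, κ = 1 + ∑ q ∈ Z₁, ∑ J ∈ Z₂.powerset, |t q J| := ⟨_, rfl⟩
  have hκ1 : 1 ≤ κ := by
    have : 0 ≤ ∑ q ∈ Z₁, ∑ J ∈ Z₂.powerset, |t q J| :=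
      Finset.sum_nonneg fun _ _ => Finset.sum_nonneg fun _ _ => abs_nonneg _
    linarith
  have hκD : ∀ q ∈ Z₁, ∀ J ⊆ Z₂, D q J ∈ bx K κ := by
    intro q hq J hJ
    refine bx_mono ?_ (ht q J)
    have e1 : |t q J| ≤ ∑ J ∈ Z₂.powerset, |t q J| :=
      Finset.single_le_sum (f := fun J => |t q J|) (fun _ _ => abs_nonneg _)
        (Finset.mem_powerset.2 hJ)
    have e2 : ∑ J ∈ Z₂.powerset, |t q J| ≤ ∑ q ∈ Z₁, ∑ J ∈ Z₂.powerset, |t q J| :=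
      Finset.single_le_sum (f := fun q => ∑ J ∈ Z₂.powerset, |t q J|)
        (fun _ _ => Finset.sum_nonneg fun _ _ => abs_nonneg _) hq
    have := le_abs_self (t q J)
    linarith
  obtain ⟨n, hn⟩ : ∃ n, n = Module.finrank ℚ K := ⟨_, rfl⟩
  rw [← hn] at hlow h3 hup hsmall
  obtain ⟨I, hI⟩ : ∃ I : Finset (HeightOneSpectrum (𝓞 K) × Finset (HeightOneSpectrum (𝓞 K)) ×
    Finset (HeightOneSpectrum (𝓞 K))), I = Z₁ ×ˢ Z₂.powerset ×ˢ Z₂.powerset := ⟨_, rfl⟩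
  obtain ⟨ic, hic⟩ : ∃ ic : ℝ, ic = (I.card : ℝ) := ⟨_, rfl⟩
  have hic0 : 0 ≤ ic := by rw [hic]; exact Nat.cast_nonneg _
  refine ⟨Sg, (c / 2) / ((ic + 1) * (M + 1) * (C * κ ^ (5 * n))),
    κ * max (max X₁ X₂) (max X₃ 1), by positivity, ?_⟩
  intro a₀ b₀ Y hY
  obtain ⟨X, hXdef⟩ : ∃ X : ℝ, X = Y / κ := ⟨_, rfl⟩
  have hκ0 : 0 < κ := by linarith
  have hYX : Y = κ * X := by rw [hXdef]; field_simp
  have hX : max (max X₁ X₂) (max X₃ 1) ≤ X := by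
    rw [hXdef, le_div_iff₀ hκ0, mul_comm]
    exact hY
  have hX1 : X₁ ≤ X := (le_max_left _ _).trans ((le_max_left _ _).trans hX)
  have hX2 : X₂ ≤ X := (le_max_right _ _).trans ((le_max_left _ _).trans hX)
  have hX3 : X₃ ≤ X := (le_max_left _ _).trans ((le_max_right _ _).trans hX)
  have hX4 : 1 ≤ X := (le_max_right _ _).trans ((le_max_right _ _).trans hX)
  have hY1 : 1 ≤ Y := by rw [hYX]; nlinarith
  have hXp : 0 < X ^ (5 * n) := by positivity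
  have hfin : ∀ P : 𝓞 K × 𝓞 K → Prop, {p : 𝓞 K × 𝓞 K | p ∈ Bx K X ∧ P p}.Finite := fun P =>
    (H36PP.Bx_finite K X).subset fun p hp => hp.1
  -- the pairs which we use
  obtain ⟨G, hG⟩ : ∃ G : Finset (𝓞 K × 𝓞 K), ∀ p, p ∈ G ↔ (p ∈ Bx K X ∧
      (p.1 - a₀ ∈ m ∧ p.2 - b₀ ∈ m) ∧
      (∃ q ∈ Z₁, ∃ T ⊆ Z₂, FamS S e q T p.1 p.2 ∧ ¬ BadS S T p.1 p.2) ∧
      ∀ s : K →+* ℂ, η * X ^ 2 ≤ ‖s (p.1 : K)‖) :=
    ⟨(hfin _).toFinset, fun p => Set.Finite.mem_toFinset _⟩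
  have hGc : c / 2 * X ^ (5 * n) ≤ (G.card : ℝ) := by
    have g1 := hlow X hX1 a₀ b₀
    have g2 := h3 X hX2
    have g3 := hsmall X hX3
    have g4 : {p : 𝓞 K × 𝓞 K | p ∈ Bx K X ∧ p.1 - a₀ ∈ m ∧ p.2 - b₀ ∈ m} ⊆
        ((G : Set (𝓞 K × 𝓞 K)) ∪ {p : 𝓞 K × 𝓞 K | p ∈ Bx K X ∧ ¬ ∃ q ∈ Z₁, ∃ T ⊆ Z₂,
          FamS S e q T p.1 p.2 ∧ ¬ BadS S T p.1 p.2}) ∪
        {p : 𝓞 K × 𝓞 K | p ∈ Bx K X ∧ ∃ s : K →+* ℂ, ‖s (p.1 : K)‖ < η * X ^ 2} := by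
      rintro p ⟨hp, hc⟩
      by_cases c1 : ∃ q ∈ Z₁, ∃ T ⊆ Z₂, FamS S e q T p.1 p.2 ∧ ¬ BadS S T p.1 p.2
      · by_cases c2 : ∃ s : K →+* ℂ, ‖s (p.1 : K)‖ < η * X ^ 2
        · exact Or.inr ⟨hp, c2⟩
        · push Not at c2
          exact Or.inl (Or.inl (Finset.mem_coe.2 ((hG p).2 ⟨hp, hc, c1, c2⟩)))
      · exact Or.inl (Or.inr ⟨hp, c1⟩)
    have g5 := Set.ncard_le_ncard g4 ((G.finite_toSet.union (hfin _)).union (hfin _))
    have g6 := g5.trans (Set.ncard_union_le _ _)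
    have g7 := g6.trans (Nat.add_le_add_right (Set.ncard_union_le _ _) _)
    rw [Set.ncard_coe_finset] at g7
    have g8 : ({p : 𝓞 K × 𝓞 K | p ∈ Bx K X ∧ p.1 - a₀ ∈ m ∧ p.2 - b₀ ∈ m}.ncard : ℝ) ≤ _ :=
      Nat.cast_le.2 g7
    push_cast at g8
    linarith
  -- pigeonhole
  have hch : ∀ p : 𝓞 K × 𝓞 K, ∃ i : HeightOneSpectrum (𝓞 K) × Finset (HeightOneSpectrum (𝓞 K)) ×
      Finset (HeightOneSpectrum (𝓞 K)), p ∈ G → i ∈ I ∧ FamS S e i.1 i.2.1 p.1 p.2 ∧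
        GoodT K Sg (D i.1 i.2.2 ^ 2 * p.1, D i.1 i.2.2 ^ 3 * p.2) := by
    intro p
    by_cases hp : p ∈ G
    · obtain ⟨-, -, ⟨q, hq, T, hT, hF, hB⟩, -⟩ := (hG p).1 hp
      obtain ⟨J, hJ, hg⟩ := h2 q hq T hT p hF hB
      refine ⟨(q, T, J), fun _ => ⟨?_, hF, hg⟩⟩
      rw [hI, Finset.mem_product, Finset.mem_product]
      exact ⟨hq, Finset.mem_powerset.2 hT, Finset.mem_powerset.2 hJ⟩
    · obtain ⟨v, -⟩ := Ya_exists_two K
      exact ⟨(v, ∅, ∅), fun h => absurd h hp⟩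
  choose f hf using hch
  have hGne : G.Nonempty := by
    rw [← Finset.card_pos]
    have : (0 : ℝ) < (G.card : ℝ) := lt_of_lt_of_le (by positivity) hGc
    exact_mod_cast this
  obtain ⟨p₀, hp₀⟩ := hGne
  obtain ⟨⟨q, T, J⟩, hi, G₂, hG₂, hG₂f, hcard⟩ :=
    pigeon G I ⟨f p₀, (hf p₀ hp₀).1⟩ f (fun a ha => (hf a ha).1)
  have hi' : q ∈ Z₁ ∧ T ⊆ Z₂ ∧ J ⊆ Z₂ := by
    rw [hI, Finset.mem_product, Finset.mem_product] at hi
    exact ⟨hi.1, Finset.mem_powerset.1 hi.2.1, Finset.mem_powerset.1 hi.2.2⟩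
  obtain ⟨G₁, hG₁, hcard₁, hinj₁⟩ := hM q T X (by linarith) G₂ (by
    intro p hp
    have g1 := (hf p (hG₂ hp)).2.1
    rw [hG₂f p hp] at g1
    exact ⟨((hG p).1 (hG₂ hp)).1, g1, ((hG p).1 (hG₂ hp)).2.2.2⟩)
  obtain ⟨hDm, hD0, -⟩ := h1 q hi'.1 J hi'.2.2
  have hinj : Set.InjOn (fun p : 𝓞 K × 𝓞 K => (D q J ^ 2 * p.1, D q J ^ 3 * p.2)) (G₁ : Set _) := by
    intro p _ p' _ hpp
    simp only [Prod.mk.injEq] at hpp
    exact Prod.ext (mul_left_cancel₀ (pow_ne_zero 2 hD0) hpp.1)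
      (mul_left_cancel₀ (pow_ne_zero 3 hD0) hpp.2)
  refine ⟨G₁.image (fun p => (D q J ^ 2 * p.1, D q J ^ 3 * p.2)), ?_, ?_, ?_⟩
  · intro x hx
    rw [Finset.mem_image] at hx
    obtain ⟨p, hp, rfl⟩ := hx
    have hpG := hG₂ (hG₁ hp)
    have hpf := hG₂f p (hG₁ hp)
    obtain ⟨hpB, ⟨hpa, hpb⟩, -, -⟩ := (hG p).1 hpG
    have g2 := (hf p hpG).2.2
    rw [hpf] at g2
    refine ⟨⟨?_, ?_⟩, ?_, ?_, g2⟩
    · rw [hYX]
      exact bx_int_mul (hκD q hi'.1 J hi'.2.2) hpB.1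
    · rw [hYX]
      exact bx_int_mul3 (hκD q hi'.1 J hi'.2.2) hpB.2
    · change D q J ^ 2 * p.1 - a₀ ∈ m
      have e1 : D q J ^ 2 * p.1 - a₀ = (p.1 - a₀) + (D q J - 1) * ((D q J + 1) * p.1) := by ring
      rw [e1]
      exact m.add_mem hpa (m.mul_mem_right _ hDm)
    · change D q J ^ 3 * p.2 - b₀ ∈ m
      have e1 : D q J ^ 3 * p.2 - b₀ =
          (p.2 - b₀) + (D q J - 1) * ((D q J ^ 2 + D q J + 1) * p.2) := by ring
      rw [e1]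
      exact m.add_mem hpb (m.mul_mem_right _ hDm)
  · intro x hx x' hx' h
    rw [Finset.mem_image] at hx hx'
    obtain ⟨p, hp, rfl⟩ := hx
    obtain ⟨p', hp', rfl⟩ := hx'
    have g1 : p = p' := by
      refine hinj₁ p hp p' hp' ?_
      have g2 : D q J ^ 12 * (p.1 ^ 3 * p'.2 ^ 2) = D q J ^ 12 * (p'.1 ^ 3 * p.2 ^ 2) := by
        change (D q J ^ 2 * p.1) ^ 3 * (D q J ^ 3 * p'.2) ^ 2 =
          (D q J ^ 2 * p'.1) ^ 3 * (D q J ^ 3 * p.2) ^ 2 at h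
        linear_combination h
      exact mul_left_cancel₀ (pow_ne_zero 12 hD0) g2
    rw [g1]
  · rw [Finset.card_image_of_injOn hinj]
    have g2 := hup Y hY1
    have hpow : Y ^ (5 * n) = κ ^ (5 * n) * X ^ (5 * n) := by rw [hYX, mul_pow]
    obtain ⟨x₁, hx₁⟩ : ∃ x₁ : ℝ, x₁ = (G₁.card : ℝ) := ⟨_, rfl⟩
    obtain ⟨x₂, hx₂⟩ : ∃ x₂ : ℝ, x₂ = (G.card : ℝ) := ⟨_, rfl⟩
    obtain ⟨x₃, hx₃⟩ : ∃ x₃ : ℝ, x₃ = ((Bx K Y).ncard : ℝ) := ⟨_, rfl⟩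
    obtain ⟨x₄, hx₄⟩ : ∃ x₄ : ℝ, x₄ = (M : ℝ) := ⟨_, rfl⟩
    have h10 : 0 ≤ x₁ := by rw [hx₁]; exact Nat.cast_nonneg _
    have h40 : 0 ≤ x₄ := by rw [hx₄]; exact Nat.cast_nonneg _
    have g4 : x₂ ≤ ic * (x₄ * x₁) := by
      rw [hx₁, hx₂, hx₄, hic]
      have g5 : G.card ≤ I.card * (M * G₁.card) :=
        hcard.trans (Nat.mul_le_mul_left _ hcard₁)
      exact_mod_cast g5
    rw [← hx₁, ← hx₃, ← hx₄]
    rw [← hx₂] at hGc
    rw [← hx₃] at g2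
    have g3 : x₂ ≤ (ic + 1) * ((x₄ + 1) * x₁) := by
      refine g4.trans (mul_le_mul (by linarith) ?_ (by positivity) (by positivity))
      exact mul_le_mul_of_nonneg_right (by linarith) h10
    calc (c / 2) / ((ic + 1) * (x₄ + 1) * (C * κ ^ (5 * n))) * x₃
        ≤ (c / 2) / ((ic + 1) * (x₄ + 1) * (C * κ ^ (5 * n))) * (C * Y ^ (5 * n)) :=
          mul_le_mul_of_nonneg_left g2 (by positivity)
      _ = (c / 2 * X ^ (5 * n)) / ((ic + 1) * (x₄ + 1)) := by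
          rw [hpow]
          field_simp
      _ ≤ x₂ / ((ic + 1) * (x₄ + 1)) :=
          div_le_div_of_nonneg_right hGc (by positivity)
      _ ≤ x₁ := by
          rw [div_le_iff₀ (by positivity)]
          calc x₂ ≤ _ := g3
            _ = _ := by ring

end H36MT

end S_H36_MT_As3
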