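import Pool.Agent.H73.P2.Os

/-!
From the relaxed Selmer group over `K` to all admissible extensions, the infinite extension and `K` itself
(final form of Theorem P, assembly; no row).
-/

set_option autoImplicit false
set_option linter.unusedSectionVars false
open scoped Classical

open WithZero NumberField IsDedekindDomain H38RT
open H38T1 (SC sc scu rep eo la si Pri OddP tp unif)
open H76PP H73P2

namespace H76PN

/-- The relaxed Selmer group of `y ^ 2 = x ^ 3 + A x + B` over `K` is trivial. -/
structure Base {K : Type} [Field K] [NumberField K] (S : Finset (HeightOneSpectrum (𝓞 K)))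
    (A B : 𝓞 K) : Prop where
  two : ∀ v : HeightOneSpectrum (𝓞 K), v.valuation K 2 < 1 → v ∈ S
  disc : 4 * A ^ 3 + 27 * B ^ 2 ≠ 0
  irr : ∀ t : K, t ^ 3 + (A : K) * t + (B : K) ≠ 0
  nice : ∀ v : HeightOneSpectrum (𝓞 K), v ∉ S → NiceAt v (A : K) (B : K)
  rel : ∀ (L : Type) [Field L] [NumberField L] [Algebra K L] (θ : L), Cub K L (A : K) (B : K) θ →
    RelT K K L S (A : K) (B : K) θ

/-- The points and the Tate-Shafarevich group of `y ^ 2 = x ^ 3 + A x + B` over the field itself. -/
theorem Base.self {K : Type} [Field K] [NumberField K] {S : Finset (HeightOneSpectrum (𝓞 K))}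
    {A B : 𝓞 K} (h : Base S A B) :
    Finite (⟨0, 0, 0, (A : K), (B : K)⟩ : WeierstrassCurve K).toAffine.Point ∧
      Pool.Agent.H10.Sha2Trivial K (⟨0, 0, 0, (A : K), (B : K)⟩ : WeierstrassCurve K) := by
  have hd' : 4 * (A : K) ^ 3 + 27 * (B : K) ^ 2 ≠ 0 := by
    intro h0
    apply h.disc
    apply RingOfIntegers.coe_injective
    simpa only [map_add, map_mul, map_pow, map_ofNat, map_zero] using h0
  obtain ⟨L, _, _, _, θ, hL⟩ := H24PD.exists_cub (K := K) h.irr
  refine H24PD.descent hL ?_
  have hr : Module.finrank K K = 2 ^ 0 := by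
    rw [Module.finrank_self, pow_zero]
  refine sel_mid (K := K) (N := K) ordSub hr h.two hd' h.nice
    (fun v _ => ⟨algebraMap K (v.adicCompletion K), fun x => rfl⟩)
    (fun s => Or.inr ⟨s, fun x => rfl⟩) (fun V _ hV => ?_) h.rel K L θ hL
  exfalso
  have h1 : V.asIdeal ≤ V.asIdeal ^ 2 := by
    intro x hx
    apply hV
    have h2 : algebraMap (𝓞 K) (𝓞 K) x = x := rfl
    rw [← h2]
    apply Ideal.mem_map_of_mem
    exact hx
  have h3 := Ideal.pow_right_strictAnti V.asIdeal V.ne_bot V.isPrime.ne_top
    (show 1 < 2 by norm_num)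
  simp only [pow_one] at h3
  exact absurd h1 (not_le_of_gt h3)

end H76PN
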